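import Pool.Agent.CAS.Basic

/-!
# CAS-A: lower bound for the sum of `u(t)`
-/

open Finset Filter Topology MeasureTheory
open scoped BigOperators

namespace Pool.Agent.CAS

namespace A_

noncomputable def g0 (y : ℝ) : ℝ := Real.log y + (-1) * y ^ (-(1 / 4) : ℝ)
noncomputable def g1 (y : ℝ) : ℝ := 1 * y ^ (-1 : ℝ) + 1 / 4 * y ^ (-(5 / 4) : ℝ)
noncomputable def g2 (y : ℝ) : ℝ := (-1) * y ^ (-2 : ℝ) + (-(5 / 16)) * y ^ (-(9 / 4) : ℝ)
noncomputable def g3 (y : ℝ) : ℝ := 2 * y ^ (-3 : ℝ) + 45 / 64 * y ^ (-(13 / 4) : ℝ)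
noncomputable def g4 (y : ℝ) : ℝ := (-6) * y ^ (-4 : ℝ) + (-(585 / 256)) * y ^ (-(17 / 4) : ℝ)

lemma hd_rpow (a p : ℝ) {y : ℝ} (hy : 1 ≤ y) (a' p' : ℝ) (ha : a' = a * p) (hp : p' = p - 1) :
    HasDerivAt (fun y : ℝ => a * y ^ p) (a' * y ^ p') y := by
  subst ha; subst hp
  have hy0 : y ≠ 0 := by linarith
  have h := (Real.hasDerivAt_rpow_const (x := y) (p := p) (Or.inl hy0)).const_mul a
  refine h.congr_deriv ?_
  ring

lemma hd0 {y : ℝ} (hy : 1 ≤ y) : HasDerivAt g0 (g1 y) y := by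
  have hy0 : y ≠ 0 := by linarith
  have h1 : HasDerivAt Real.log (1 * y ^ (-1 : ℝ)) y := by
    refine (Real.hasDerivAt_log hy0).congr_deriv ?_
    rw [Real.rpow_neg_one, one_mul]
  exact h1.add (hd_rpow (-1) _ hy _ _ (by norm_num) (by norm_num))

lemma hd1 {y : ℝ} (hy : 1 ≤ y) : HasDerivAt g1 (g2 y) y :=
  (hd_rpow _ _ hy _ _ (by norm_num) (by norm_num)).add
    (hd_rpow _ _ hy _ _ (by norm_num) (by norm_num))

lemma hd2 {y : ℝ} (hy : 1 ≤ y) : HasDerivAt g2 (g3 y) y :=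
  (hd_rpow _ _ hy _ _ (by norm_num) (by norm_num)).add
    (hd_rpow _ _ hy _ _ (by norm_num) (by norm_num))

lemma hd3 {y : ℝ} (hy : 1 ≤ y) : HasDerivAt g3 (g4 y) y :=
  (hd_rpow _ _ hy _ _ (by norm_num) (by norm_num)).add
    (hd_rpow _ _ hy _ _ (by norm_num) (by norm_num))

lemma rp_mono {y p q : ℝ} (hy : 1 ≤ y) (h : p ≤ q) : y ^ p ≤ y ^ q :=
  Real.rpow_le_rpow_of_exponent_le hy h

lemma rp_nonneg {y : ℝ} (hy : 1 ≤ y) (p : ℝ) : 0 ≤ y ^ p :=
  Real.rpow_nonneg (by linarith) p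

lemma rp_le_one {y p : ℝ} (hy : 1 ≤ y) (h : p ≤ 0) : y ^ p ≤ 1 := by
  have := rp_mono hy h
  rwa [Real.rpow_zero] at this

lemma b2 {y : ℝ} (hy : 1 ≤ y) : |g2 y| ≤ 10 * y ^ (-(0 : ℝ) - 2) := by
  rw [show (-(0 : ℝ) - 2) = -2 by norm_num]
  have h1 := rp_nonneg hy (-2)
  have h2 := rp_nonneg hy (-(9 / 4))
  have h3 := rp_mono hy (show (-(9 / 4) : ℝ) ≤ -2 by norm_num)
  unfold g2
  rw [abs_le]
  constructor <;> linarith

lemma b3 {y : ℝ} (hy : 1 ≤ y) : |g3 y| ≤ 10 * y ^ (-(0 : ℝ) - 3) := by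
  rw [show (-(0 : ℝ) - 3) = -3 by norm_num]
  have h1 := rp_nonneg hy (-3)
  have h2 := rp_nonneg hy (-(13 / 4))
  have h3 := rp_mono hy (show (-(13 / 4) : ℝ) ≤ -3 by norm_num)
  unfold g3
  rw [abs_le]
  constructor <;> linarith

lemma b4 {y : ℝ} (hy : 1 ≤ y) : |g4 y| ≤ 10 * y ^ (-(0 : ℝ) - 4) := by
  rw [show (-(0 : ℝ) - 4) = -4 by norm_num]
  have h1 := rp_nonneg hy (-4)
  have h2 := rp_nonneg hy (-(17 / 4))
  have h3 := rp_mono hy (show (-(17 / 4) : ℝ) ≤ -4 by norm_num)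
  unfold g4
  rw [abs_le]
  constructor <;> linarith

lemma g1_nonneg {y : ℝ} (hy : 1 ≤ y) : 0 ≤ g1 y := by
  have h1 := rp_nonneg hy (-1)
  have h2 := rp_nonneg hy (-(5 / 4))
  unfold g1
  linarith

lemma g2_nonpos {y : ℝ} (hy : 1 ≤ y) : g2 y ≤ 0 := by
  have h1 := rp_nonneg hy (-2)
  have h2 := rp_nonneg hy (-(9 / 4))
  unfold g2
  linarith

lemma g2_ge {y : ℝ} (hy : 1 ≤ y) : -2 * y ^ (-(7 / 4) : ℝ) ≤ g2 y := by
  have h1 := rp_nonneg hy (-(7 / 4))
  have h2 := rp_mono hy (show (-2 : ℝ) ≤ -(7 / 4) by norm_num)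
  have h3 := rp_mono hy (show (-(9 / 4) : ℝ) ≤ -(7 / 4) by norm_num)
  unfold g2
  linarith

lemma g1_add {y : ℝ} (hy : 1 ≤ y) : g1 y + y * g2 y = -(1 / 16) * y ^ (-(5 / 4) : ℝ) := by
  have hy0 : 0 < y := by linarith
  have e1 : y * y ^ (-2 : ℝ) = y ^ (-1 : ℝ) := by
    nth_rewrite 1 [← Real.rpow_one y]
    rw [← Real.rpow_add hy0]; norm_num
  have e2 : y * y ^ (-(9 / 4) : ℝ) = y ^ (-(5 / 4) : ℝ) := by
    nth_rewrite 1 [← Real.rpow_one y]
    rw [← Real.rpow_add hy0]; norm_num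
  unfold g1 g2
  linear_combination (-1) * e1 - 5 / 16 * e2

/-- pointwise upper bound for the drift -/
lemma drift {Y m K C' γ δ gX : ℝ} (hC' : 1 ≤ C') (hK : 1 ≤ K) (hY : K ≤ Y) (hm : Y - K ≤ m)
    (hm2 : m ≤ 2 * Y) (hγ : 4 / 5 ≤ γ) (hγ' : γ ≤ 5 / 4) (hδ : 0 ≤ δ)
    (hgX : gX ≤ γ) {x0 : ℝ} (hx0 : 1 ≤ x0) (hx0' : 20 * (3 * K + 30 * C') ≤ x0 ^ (1 / 2 : ℝ)) {G : ℝ}
    (hG : |G - (g1 Y * gX + γ * m * g2 Y)| ≤ C' * 10 * (m * Y ^ (-(0 : ℝ) - 11 / 4) +
      1 * Y ^ (-(0 : ℝ) - 7 / 4) + δ * m * Y ^ (-(0 : ℝ) - 1))) :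
    G ≤ (3 * K + 30 * C') * (if m ≤ 2 * x0 then 1 else 0) + 20 * C' * δ := by
  rw [show (-(0 : ℝ) - 11 / 4) = -(11 / 4) by norm_num,
    show (-(0 : ℝ) - 7 / 4) = -(7 / 4) by norm_num, show (-(0 : ℝ) - 1) = -1 by norm_num] at hG
  have hY1 : 1 ≤ Y := hK.trans hY
  have hY0 : 0 < Y := by linarith
  have e1 : Y * Y ^ (-(11 / 4) : ℝ) = Y ^ (-(7 / 4) : ℝ) := by
    nth_rewrite 1 [← Real.rpow_one Y]
    rw [← Real.rpow_add hY0]; norm_num
  have e2 : Y * Y ^ (-1 : ℝ) = 1 := by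
    nth_rewrite 1 [← Real.rpow_one Y]
    rw [← Real.rpow_add hY0]; norm_num
  have p1 := rp_nonneg hY1 (-(11 / 4))
  have p2 := rp_nonneg hY1 (-(7 / 4))
  have p3 := rp_nonneg hY1 (-1)
  have p4 := rp_nonneg hY1 (-(5 / 4))
  have h1 : m * Y ^ (-(11 / 4) : ℝ) ≤ 2 * Y ^ (-(7 / 4) : ℝ) := by
    calc m * Y ^ (-(11 / 4) : ℝ) ≤ 2 * Y * Y ^ (-(11 / 4) : ℝ) :=
          mul_le_mul_of_nonneg_right hm2 p1
      _ = 2 * Y ^ (-(7 / 4) : ℝ) := by rw [mul_assoc, e1]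
  have h2 : δ * m * Y ^ (-1 : ℝ) ≤ 2 * δ := by
    calc δ * m * Y ^ (-1 : ℝ) = δ * (m * Y ^ (-1 : ℝ)) := by ring
      _ ≤ δ * (2 * Y * Y ^ (-1 : ℝ)) :=
          mul_le_mul_of_nonneg_left (mul_le_mul_of_nonneg_right hm2 p3) hδ
      _ = 2 * δ := by rw [mul_assoc, e2]; ring
  have h3 : g1 Y * gX ≤ g1 Y * γ := mul_le_mul_of_nonneg_left hgX (g1_nonneg hY1)
  have h4 : γ * m * g2 Y ≤ γ * (Y - K) * g2 Y :=
    mul_le_mul_of_nonpos_right (mul_le_mul_of_nonneg_left hm (by linarith)) (g2_nonpos hY1)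
  have h5 := g1_add hY1
  have h6 := g2_ge hY1
  have h7 : g1 Y * γ + γ * (Y - K) * g2 Y = γ * (-(1 / 16) * Y ^ (-(5 / 4) : ℝ)) + γ * K * (-g2 Y) := by
    rw [← h5]; ring
  have h8 : γ * K * (-g2 Y) ≤ 3 * K * Y ^ (-(7 / 4) : ℝ) := by
    calc γ * K * (-g2 Y) ≤ γ * K * (2 * Y ^ (-(7 / 4) : ℝ)) :=
          mul_le_mul_of_nonneg_left (by linarith) (by positivity)
      _ ≤ 5 / 4 * K * (2 * Y ^ (-(7 / 4) : ℝ)) := by gcongr
      _ ≤ 3 * K * Y ^ (-(7 / 4) : ℝ) := by nlinarith [mul_nonneg (by linarith : (0:ℝ) ≤ K) p2]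
  have h9 : γ * (-(1 / 16) * Y ^ (-(5 / 4) : ℝ)) ≤ -(1 / 20) * Y ^ (-(5 / 4) : ℝ) := by
    nlinarith
  have h10 : C' * 10 * (m * Y ^ (-(11 / 4) : ℝ) + 1 * Y ^ (-(7 / 4) : ℝ) + δ * m * Y ^ (-1 : ℝ)) ≤
      30 * C' * Y ^ (-(7 / 4) : ℝ) + 20 * C' * δ := by
    calc C' * 10 * (m * Y ^ (-(11 / 4) : ℝ) + 1 * Y ^ (-(7 / 4) : ℝ) + δ * m * Y ^ (-1 : ℝ))
        ≤ C' * 10 * (2 * Y ^ (-(7 / 4) : ℝ) + 1 * Y ^ (-(7 / 4) : ℝ) + 2 * δ) := by gcongr
      _ = _ := by ring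
  have h11 := (abs_le.1 hG).2
  have h12 : G ≤ -(1 / 20) * Y ^ (-(5 / 4) : ℝ) + (3 * K + 30 * C') * Y ^ (-(7 / 4) : ℝ) +
      20 * C' * δ := by linarith
  have hD : 0 ≤ 3 * K + 30 * C' := by linarith
  split_ifs with hm3
  · have h13 : Y ^ (-(7 / 4) : ℝ) ≤ 1 := rp_le_one hY1 (by norm_num)
    have h14 : (3 * K + 30 * C') * Y ^ (-(7 / 4) : ℝ) ≤ (3 * K + 30 * C') * 1 :=
      mul_le_mul_of_nonneg_left h13 hD
    linarith
  · have h15 : x0 ≤ Y := by
      push Not at hm3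
      linarith
    have h16 : x0 ^ (1 / 2 : ℝ) ≤ Y ^ (1 / 2 : ℝ) :=
      Real.rpow_le_rpow (by linarith) h15 (by norm_num)
    have e3 : Y ^ (1 / 2 : ℝ) * Y ^ (-(7 / 4) : ℝ) = Y ^ (-(5 / 4) : ℝ) := by
      rw [← Real.rpow_add hY0]; norm_num
    have h17 : 20 * (3 * K + 30 * C') * Y ^ (-(7 / 4) : ℝ) ≤ Y ^ (-(5 / 4) : ℝ) := by
      rw [← e3]
      exact mul_le_mul_of_nonneg_right (hx0'.trans h16) p2
    linarith

/-- Paley-Zygmund type pointwise bound -/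
lemma pz {X Y a lam : ℝ} (hX : 0 ≤ X) (hXY : X + 1 ≤ Y) (ha : 1 ≤ a) (hl : 0 < lam) :
    Real.log a * (4 * lam * (X - a - lam * X ^ 2)) ≤ Real.log Y := by
  have h0 : 0 ≤ Real.log a := Real.log_nonneg ha
  have hY : 1 ≤ Y := by linarith
  rcases le_or_gt a X with h | h
  · have h1 : 4 * lam * (X - a - lam * X ^ 2) ≤ 1 := by
      nlinarith [sq_nonneg (2 * lam * X - 1), mul_pos hl hl]
    calc Real.log a * (4 * lam * (X - a - lam * X ^ 2)) ≤ Real.log a * 1 :=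
          mul_le_mul_of_nonneg_left h1 h0
      _ = Real.log a := mul_one _
      _ ≤ Real.log Y := Real.log_le_log (by linarith) (by linarith)
  · have h1 : 4 * lam * (X - a - lam * X ^ 2) ≤ 0 := by
      have : X - a - lam * X ^ 2 ≤ 0 := by nlinarith [mul_nonneg hl.le (sq_nonneg X)]
      nlinarith
    calc Real.log a * (4 * lam * (X - a - lam * X ^ 2)) ≤ 0 :=
          mul_nonpos_of_nonneg_of_nonpos h0 h1
      _ ≤ Real.log Y := Real.log_nonneg hY

lemma g0_le {Y : ℝ} (hY : 1 ≤ Y) : g0 Y ≤ Y := by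
  have h1 := rp_nonneg hY (-(1 / 4))
  have h2 := Real.log_le_sub_one_of_pos (by linarith : 0 < Y)
  unfold g0
  linarith

lemma g0_ge {Y : ℝ} (hY : 1 ≤ Y) : Real.log Y - 1 ≤ g0 Y := by
  have h1 := rp_le_one hY (show (-(1 / 4) : ℝ) ≤ 0 by norm_num)
  unfold g0
  linarith

/-- the Lyapunov function -/
noncomputable def GG {S : Type} (X F : S → ℝ) (K : ℝ) (s : S) : ℝ :=
  g0 (X s + K) - g2 (X s + K) * F s / 2

/-- the abstract estimate -/
lemma main (h3 : T_CALC) (h4 : T_MOM) {C : ℝ} (hC : 3 ≤ C) : ∃ M c D : ℝ, 0 < c ∧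
    ∀ T : ℝ, 1 ≤ T → ∃ δ0 : ℝ, 0 < δ0 ∧ δ0 ≤ 1 ∧ ∀ (S I : Type) [Finite S] [Fintype I]
    (r : I → ℝ) (φ : I → S → S) (Inv : S → Prop) (X F m β : S → ℝ) (γ δ : ℝ), 0 ≤ δ → δ ≤ δ0 →
    4 / 5 ≤ γ → γ ≤ 5 / 4 → LD r φ Inv X F m β γ γ δ C 1 → ∀ s0, Inv s0 → m s0 = 1 →
    c * Real.log T - D ≤ ∫ t in (0 : ℝ)..T, sg r φ t (fun s => if m s ≤ M then 1 else 0) s0 := by
  obtain ⟨C', hC', hcalc⟩ := h3 C (by linarith)
  obtain ⟨C1, hC1, hmom1⟩ := h4 C (by linarith) 1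
  obtain ⟨C2, hC2, hmom2⟩ := h4 C (by linarith) 2
  set x0 : ℝ := (20 * (3 * C' + 30 * C')) ^ 2 with hx0
  have hbase : 1 ≤ 20 * (3 * C' + 30 * C') := by linarith
  have hx01 : 1 ≤ x0 := one_le_pow₀ hbase
  have hx02 : 20 * (3 * C' + 30 * C') ≤ x0 ^ (1 / 2 : ℝ) := by
    rw [← Real.sqrt_eq_rpow, hx0, Real.sqrt_sq (by linarith)]
  set D5 : ℝ := 3 * C' + 30 * C' with hD5
  have hD5' : 0 < D5 := by linarith
  set C7 : ℝ := 16 * C2 with hC7
  have hC7' : 0 < C7 := by linarith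
  refine ⟨2 * x0, 1 / (D5 * (16 * C7)), (Real.log 4 / (16 * C7) + 2 + (1 + C') + C) / D5,
    by positivity, ?_⟩
  intro T hT
  refine ⟨1 / (20 * C' * C * C1 * (1 + T)), by positivity, ?_, ?_⟩
  · rw [div_le_one (by positivity)]
    have : 1 ≤ 20 * C' := by linarith
    have h2 : 1 ≤ 20 * C' * C := by nlinarith
    have h3 : 1 ≤ 20 * C' * C * C1 := by nlinarith
    nlinarith
  intro S I _ _ r φ Inv X F m β γ δ hδ0 hδ hγ hγ' hLD s0 hs0 hm0
  have hr := hLD.rn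
  have hI := hLD.inv
  have hT0 : 0 ≤ T := by linarith
  have hgr : ∀ f : S → ℝ, GrF r φ f := fun f => grF_of_finite hr f
  have hδ1 : 20 * C' * δ * T ≤ 1 := by
    have h1 : δ * (20 * C' * C * C1 * (1 + T)) ≤ 1 := by
      rwa [le_div_iff₀ (by positivity)] at hδ
    have h2 : 20 * C' * δ * T ≤ δ * (20 * C' * C * C1 * (1 + T)) := by
      have h3 : T ≤ C * C1 * (1 + T) := by
        have h4 : 1 ≤ C * C1 := by nlinarith
        nlinarith
      calc 20 * C' * δ * T ≤ 20 * C' * δ * (C * C1 * (1 + T)) := by gcongr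
        _ = _ := by ring
    linarith
  have hδ2 : C * δ * (C1 * (1 + T) * 2) ≤ 3 / 10 := by
    have h1 : δ * (20 * C' * C * C1 * (1 + T)) ≤ 1 := by
      rwa [le_div_iff₀ (by positivity)] at hδ
    have h2 : 10 * (C * δ * (C1 * (1 + T) * 2)) ≤ δ * (20 * C' * C * C1 * (1 + T)) := by
      calc 10 * (C * δ * (C1 * (1 + T) * 2)) = 20 * (1 * (C * δ * C1 * (1 + T))) := by ring
        _ ≤ 20 * (C' * (C * δ * C1 * (1 + T))) := by gcongr
        _ = _ := by ring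
    linarith
  have hYpos : ∀ s, Inv s → C' ≤ X s + C' := fun s hs => by
    have := hLD.X0 s hs
    linarith
  -- the drift of G
  have hdrift : ∀ s, Inv s → gen r φ (GG X F C') s ≤
      D5 * (if m s ≤ 2 * x0 then 1 else 0) + 20 * C' * δ := by
    intro s hs
    have h1 := hcalc S I r φ Inv X F m β γ γ δ 1 hLD
      (by rw [abs_of_nonneg (by linarith)]; linarith) (by linarith) (by linarith) hδ0
      (hδ.trans (by
        rw [div_le_one (by positivity)]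
        have : 1 ≤ 20 * C' := by linarith
        have h2 : 1 ≤ 20 * C' * C := by nlinarith
        have h3 : 1 ≤ 20 * C' * C * C1 := by nlinarith
        nlinarith)) zero_le_one le_rfl C' le_rfl 0 10 g0 g1 g2 g3 g4
      (by norm_num) (by norm_num) (by norm_num) (fun y hy => hd0 hy) (fun y hy => hd1 hy)
      (fun y hy => hd2 hy) (fun y hy => hd3 hy) (fun y hy => b2 hy) (fun y hy => b3 hy)
      (fun y hy => b4 hy) s hs
    obtain ⟨h2, h3⟩ := h1
    have h4 : X s + C' - C' ≤ m s := by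
      have := hLD.Xm s hs
      linarith
    exact drift hC' hC' (hYpos s hs) h4 h2 hγ hγ' hδ0 (hLD.gX s hs) hx01 hx02 h3
  -- the integral
  set P : ℝ → ℝ := fun t => sg r φ t (fun s => if m s ≤ 2 * x0 then 1 else 0) s0 with hP
  have hPc : Continuous P := continuous_sg (hgr _) s0
  have hP0 : ∀ t, 0 ≤ t → 0 ≤ P t := fun t ht =>
    sg_nonneg hr hI (hgr _) (fun s _ => by split_ifs <;> norm_num) ht hs0
  have hint0 : 0 ≤ ∫ t in (0 : ℝ)..T, P t :=
    intervalIntegral.integral_nonneg hT0 fun t ht => hP0 t ht.1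
  have hup : sg r φ T (GG X F C') s0 ≤ (1 + C') + C + D5 * (∫ t in (0 : ℝ)..T, P t) + 1 := by
    rw [sg_dynkin (hgr _)]
    have h1 : GG X F C' s0 ≤ (1 + C') + C := by
      have hX1 : X s0 ≤ 1 := by rw [← hm0]; exact hLD.Xm s0 hs0
      have hX0 := hLD.X0 s0 hs0
      have hY1 : 1 ≤ X s0 + C' := by linarith
      have hF0 := hLD.F0 s0 hs0
      have hF1 : F s0 ≤ C := by
        have := hLD.Fm s0 hs0
        rwa [hm0, Real.one_rpow, mul_one] at this
      have e1 := g0_le hY1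
      have e2 := g2_ge hY1
      have e3 : (X s0 + C') ^ (-(7 / 4) : ℝ) ≤ 1 := rp_le_one hY1 (by norm_num)
      have e4 : -2 ≤ g2 (X s0 + C') := by linarith
      unfold GG
      nlinarith
    have h2 : ∫ t in (0 : ℝ)..T, sg r φ t (gen r φ (GG X F C')) s0 ≤
        ∫ t in (0 : ℝ)..T, (D5 * P t + 20 * C' * δ) := by
      refine intervalIntegral.integral_mono_on hT0
        ((continuous_sg (hgr _) s0).intervalIntegrable _ _)
        (((hPc.const_mul D5).add continuous_const).intervalIntegrable _ _) ?_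
      intro t ht
      have h3 := sg_mono hr hI (hgr _) (hgr _) hdrift ht.1 hs0
      rw [sg_add (hgr _) (hgr _), sg_smul, sg_const] at h3
      exact h3
    have h4 : ∫ t in (0 : ℝ)..T, (D5 * P t + 20 * C' * δ) =
        D5 * (∫ t in (0 : ℝ)..T, P t) + 20 * C' * δ * T := by
      rw [intervalIntegral.integral_add ((hPc.const_mul D5).intervalIntegrable _ _)
        (continuous_const.intervalIntegrable _ _), intervalIntegral.integral_const_mul,
        intervalIntegral.integral_const]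
      simp only [sub_zero, smul_eq_mul]; ring
    linarith
  -- lower bound for the expectation of X
  have hEm : ∀ t, 0 ≤ t → t ≤ T → sg r φ t m s0 ≤ C1 * (1 + T) * 2 := by
    intro t ht htT
    have h1 := hmom1 S I r φ Inv X F m β γ γ δ 1 hLD t s0 ht hs0
    simp only [pow_one] at h1
    rw [hm0] at h1
    have h2 : sg r φ t m s0 ≤ sg r φ t (fun s => 1 + m s) s0 :=
      sg_mono' hr (hgr _) (hgr _) (fun s => by linarith) ht s0
    have h3 : C1 * (1 + t) * (1 + 1) ≤ C1 * (1 + T) * 2 := by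
      have : C1 * (1 + t) ≤ C1 * (1 + T) := by gcongr
      linarith
    linarith
  have hEX : T / 2 ≤ sg r φ T X s0 := by
    rw [sg_dynkin (hgr _)]
    have h1 := hLD.X0 s0 hs0
    have h2 : ∫ t in (0 : ℝ)..T, (1 / 2 : ℝ) ≤ ∫ t in (0 : ℝ)..T, sg r φ t (gen r φ X) s0 := by
      refine intervalIntegral.integral_mono_on hT0 (continuous_const.intervalIntegrable _ _)
        ((continuous_sg (hgr _) s0).intervalIntegrable _ _) ?_
      intro t ht
      have h3 : sg r φ t (fun s => γ - C * δ * m s) s0 ≤ sg r φ t (gen r φ X) s0 :=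
        sg_mono hr hI (hgr _) (hgr _) (fun s hs => hLD.gX' s hs) ht.1 hs0
      rw [sg_sub (hgr _) (hgr _), sg_const, sg_smul] at h3
      have h4 := hEm t ht.1 ht.2
      have h5 : C * δ * sg r φ t m s0 ≤ C * δ * (C1 * (1 + T) * 2) :=
        mul_le_mul_of_nonneg_left h4 (by positivity)
      linarith
    rw [intervalIntegral.integral_const] at h2
    simp only [sub_zero, smul_eq_mul] at h2
    linarith
  have hEX2 : sg r φ T (fun s => X s ^ 2) s0 ≤ C7 * T ^ 2 := by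
    have h1 := hmom2 S I r φ Inv X F m β γ γ δ 1 hLD T s0 hT0 hs0
    rw [hm0] at h1
    have h2 : sg r φ T (fun s => X s ^ 2) s0 ≤ sg r φ T (fun s => (1 + m s) ^ 2) s0 :=
      sg_mono hr hI (hgr _) (hgr _) (fun s hs => by
        have e1 := hLD.X0 s hs
        have e2 := hLD.Xm s hs
        nlinarith) hT0 hs0
    have h3 : C2 * (1 + T) ^ 2 * (1 + 1) ^ 2 ≤ C7 * T ^ 2 := by
      have : (1 + T) ^ 2 ≤ (2 * T) ^ 2 := by
        apply pow_le_pow_left₀ (by linarith); linarith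
      calc C2 * (1 + T) ^ 2 * (1 + 1) ^ 2 ≤ C2 * (2 * T) ^ 2 * (1 + 1) ^ 2 := by gcongr
        _ = C7 * T ^ 2 := by rw [hC7]; ring
    linarith
  rcases lt_or_ge T 4 with hT4 | hT4
  · have h1 : Real.log T ≤ Real.log 4 := Real.log_le_log (by linarith) hT4.le
    have h2 : 1 / (D5 * (16 * C7)) * Real.log T ≤
        (Real.log 4 / (16 * C7) + 2 + (1 + C') + C) / D5 := by
      calc 1 / (D5 * (16 * C7)) * Real.log T ≤ 1 / (D5 * (16 * C7)) * Real.log 4 := by gcongr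
        _ = (Real.log 4 / (16 * C7)) / D5 := by field_simp
        _ ≤ _ := by gcongr; linarith
    linarith
  · set a : ℝ := T / 4 with ha
    have ha1 : 1 ≤ a := by linarith
    have hlog : 0 ≤ Real.log a := Real.log_nonneg ha1
    set lam : ℝ := 1 / (8 * C7 * T) with hlam
    have hlam0 : 0 < lam := by positivity
    have hlow : Real.log a / (16 * C7) - 1 ≤ sg r φ T (GG X F C') s0 := by
      have h1 : sg r φ T (fun s => Real.log a * (4 * lam) * (X s - a - lam * X s ^ 2) - 1) s0 ≤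
          sg r φ T (GG X F C') s0 := by
        refine sg_mono hr hI (hgr _) (hgr _) (fun s hs => ?_) hT0 hs0
        have e0 := hLD.X0 s hs
        have e1 : 1 ≤ X s + C' := by linarith
        have e2 := g0_ge e1
        have e3 := pz (Y := X s + C') e0 (by linarith) ha1 hlam0
        have e4 := hLD.F0 s hs
        have e5 := g2_nonpos e1
        have e6 : 0 ≤ -(g2 (X s + C') * F s / 2) := by nlinarith
        unfold GG
        have e7 : Real.log a * (4 * lam) * (X s - a - lam * X s ^ 2) =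
          Real.log a * (4 * lam * (X s - a - lam * X s ^ 2)) := by ring
        linarith
      rw [sg_sub (hgr _) (hgr _), sg_smul, sg_sub (hgr _) (hgr _), sg_sub (hgr _) (hgr _), sg_smul,
        sg_const, sg_const] at h1
      have h2 : T / 8 ≤ sg r φ T X s0 - a - lam * sg r φ T (fun s => X s ^ 2) s0 := by
        have e1 : lam * sg r φ T (fun s => X s ^ 2) s0 ≤ lam * (C7 * T ^ 2) :=
          mul_le_mul_of_nonneg_left hEX2 hlam0.le
        have e2 : lam * (C7 * T ^ 2) = T / 8 := by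
          rw [hlam]; field_simp
        linarith
      have h3 : Real.log a / (16 * C7) = Real.log a * (4 * lam) * (T / 8) := by
        rw [hlam]; field_simp; ring
      have h4 : Real.log a * (4 * lam) * (T / 8) ≤ Real.log a * (4 * lam) *
          (sg r φ T X s0 - a - lam * sg r φ T (fun s => X s ^ 2) s0) :=
        mul_le_mul_of_nonneg_left h2 (by positivity)
      linarith
    have hloga : Real.log a = Real.log T - Real.log 4 := by
      rw [ha, Real.log_div (by linarith) (by norm_num)]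
    have hfin : Real.log T / (16 * C7) - (Real.log 4 / (16 * C7) + 2 + (1 + C') + C) ≤
        D5 * (∫ t in (0 : ℝ)..T, P t) := by
      rw [hloga, sub_div] at hlow
      linarith
    have e1 : 1 / (D5 * (16 * C7)) * Real.log T - (Real.log 4 / (16 * C7) + 2 + (1 + C') + C) / D5 =
        (Real.log T / (16 * C7) - (Real.log 4 / (16 * C7) + 2 + (1 + C') + C)) / D5 := by
      field_simp
    rw [e1, div_le_iff₀ hD5']
    linarith

end A_

/-- (a) -/
theorem t_A (h1 : T_KER) (h2 : T_LD1) (h3 : T_CALC) (h4 : T_MOM) (h5 : T_MONO) (h6 : T_SMALL) :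
    T_A := by
  intro d hd
  obtain ⟨C0, hC0, hker⟩ := h1 d hd
  obtain ⟨C, hC, hLD⟩ := h2 C0 hC0
  obtain ⟨M, c, D, hc, hmain⟩ := A_.main h3 h4 hC
  obtain ⟨cs, hcs, hsmall⟩ := h6 d ⌈M⌉₊ (by omega)
  refine ⟨cs * c, by positivity, cs * D, ?_⟩
  intro T hT
  have hT1 : (1 : ℝ) ≤ T := by exact_mod_cast hT
  obtain ⟨δ, hδ0, hδ1, hm⟩ := hmain T hT1
  filter_upwards [hker δ hδ0 0, eventually_gt_atTop ⌈M⌉₊] with L hL hML
  obtain ⟨h, γ, hK⟩ := hL
  have hld := hLD d L h γ δ 0 (by omega) hδ0.le hδ1 hK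
  have h0 : (0 : V d L) ∉ (∅ : Finset (V d L)) := Finset.notMem_empty _
  have hkey := hm (Finset (V d L)) (Ar d L) _ _ _ _ _ _ _ γ δ hδ0.le le_rfl hK.γl hK.γu hld ∅ h0
    (by simp [zm, occ])
  have hr : ∀ i : Ar d L, 0 ≤ (fun _ : Ar d L => ra d) i := fun _ => ra_nonneg d
  have hgr : ∀ f : Finset (V d L) → ℝ, GrF (fun _ : Ar d L => ra d) (zup ({0} : Finset (V d L))) f :=
    fun f => grF_of_finite hr f
  have hI := hld.inv
  set P : ℝ → ℝ := fun t => sg (fun _ : Ar d L => ra d) (zup ({0} : Finset (V d L))) t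
    (fun s => if zm {0} s ≤ M then 1 else 0) ∅ with hP
  have hPu : ∀ t : ℝ, 0 ≤ t → cs * P t ≤ uu d L (t + 1) := by
    intro t ht
    have e1 : uu d L (t + 1) = sg (fun _ : Ar d L => ra d) (zup ({0} : Finset (V d L))) t
        (sg (fun _ : Ar d L => ra d) (zup ({0} : Finset (V d L))) 1
          (fun A => if A = ∅ then 1 else 0)) ∅ := by
      rw [← sg_sg (hgr _)]; rfl
    rw [e1, hP]
    simp only
    rw [← sg_smul]
    refine sg_mono hr hI (hgr _) (hgr _) (fun A hA => ?_) ht h0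
    split_ifs with hAM
    · rw [mul_one]
      refine hsmall L hML A ?_ hA
      have e2 : (A.card : ℝ) ≤ zm {0} A := by
        unfold zm occ
        exact_mod_cast Finset.card_le_card Finset.subset_union_left
      have e3 : (A.card : ℝ) ≤ ⌈M⌉₊ := (e2.trans hAM).trans (Nat.le_ceil M)
      exact_mod_cast e3
    · rw [mul_zero]
      exact sg_nonneg hr (Inv := fun _ => True) (fun _ _ _ => trivial) (hgr _)
        (fun u _ => by split_ifs <;> norm_num) zero_le_one trivial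
  obtain ⟨-, -, hmono, -, -⟩ := h5 d L
  have hanti : AntitoneOn (fun t : ℝ => uu d L t) (Set.Icc 0 (0 + (T : ℝ))) :=
    fun s hs t _ hst => hmono s t hs.1 hst
  have hint := hanti.integral_le_sum
  simp only [zero_add] at hint
  have hucont : Continuous fun t : ℝ => uu d L t := continuous_sg (hgr _) ∅
  have h7 : cs * ∫ t in (0 : ℝ)..T, P t ≤ ∫ t in (0 : ℝ)..T, uu d L t := by
    rw [← intervalIntegral.integral_const_mul]
    refine intervalIntegral.integral_mono_on (by linarith)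
      (((continuous_sg (hgr _) ∅).const_mul cs).intervalIntegrable _ _)
      (hucont.intervalIntegrable _ _) ?_
    intro t ht
    exact (hPu t ht.1).trans (hmono t (t + 1) ht.1 (by linarith))
  calc cs * c * Real.log T - cs * D = cs * (c * Real.log T - D) := by ring
    _ ≤ cs * ∫ t in (0 : ℝ)..T, P t := mul_le_mul_of_nonneg_left hkey hcs.le
    _ ≤ _ := h7.trans hint

end Pool.Agent.CAS
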