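import Pool.Agent.CAS.Basic

set_option autoImplicit false

open Finset Filter Topology
open scoped BigOperators

namespace Pool.Agent.CAS

namespace ASM_

lemma hit_nonneg {d L : ℕ} {t : ℝ} (ht : 0 ≤ t) (x y : V d L) : 0 ≤ hit t x y := by
  unfold hit
  refine sg_nonneg (fun _ => ra_nonneg d) (Inv := fun _ => True) (fun _ _ _ => trivial)
    (grF_of_finite (fun _ => ra_nonneg d) _) (fun s _ => ?_) ht trivial
  split_ifs <;> norm_num

lemma hit_le_one {d L : ℕ} {t : ℝ} (ht : 0 ≤ t) (x y : V d L) : hit t x y ≤ 1 := by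
  unfold hit
  have h := sg_mono' (r := fun _ : Dir d => ra d) (φ := fun e z => if z = y then z else z + dv e)
    (fun _ => ra_nonneg d) (f := fun z : V d L => if z = y then (1 : ℝ) else 0) (g := fun _ => 1)
    (grF_of_finite (fun _ => ra_nonneg d) _) (grF_of_finite (fun _ => ra_nonneg d) _)
    (fun s => by split_ifs <;> norm_num) ht x
  rwa [sg_const] at h

/-- a convergent sequence along an ultrafilter -/
lemma exists_lim (U : Ultrafilter ℕ) (g : ℕ → ℝ) (a b : ℝ)
    (h : ∀ᶠ L in (U : Filter ℕ), a ≤ g L ∧ g L ≤ b) : ∃ x : ℝ, Tendsto g U (𝓝 x) := by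
  have h1 : ((U.map g : Ultrafilter ℝ) : Filter ℝ) ≤ 𝓟 (Set.Icc a b) := by
    rw [Ultrafilter.coe_map, Filter.le_principal_iff, Filter.mem_map]
    exact h
  obtain ⟨x, _, hx⟩ := isCompact_Icc.ultrafilter_le_nhds (U.map g) h1
  exact ⟨x, hx⟩

/-- antitone sequences bounded below are Cauchy -/
lemma antitone_tail (θ : ℕ → ℝ) (hθ : Antitone θ) (b : ℝ) (hb : ∀ t, b ≤ θ t) (η : ℝ)
    (hη : 0 < η) : ∃ r : ℕ, ∀ t, r ≤ t → θ r - θ t ≤ η := by
  have hlim := tendsto_atTop_ciInf hθ ⟨b, by rintro _ ⟨t, rfl⟩; exact hb t⟩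
  have h2 : ∀ᶠ t in atTop, θ t < (⨅ i, θ i) + η := by
    apply hlim.eventually_lt_const
    linarith
  obtain ⟨r, hr⟩ := h2.exists
  refine ⟨r, fun t _ => ?_⟩
  have : (⨅ i, θ i) ≤ θ t := ciInf_le ⟨b, by rintro _ ⟨t, rfl⟩; exact hb t⟩ t
  linarith

end ASM_

open ASM_ in
theorem t_TH (hA : T_A) (hC : T_C) (hD2 : T_D2) (hD : T_D) (hR1 : T_R1) (hSB : T_SB) (hH : T_H)
    (hTH0 : T_TH0) (hMONO : T_MONO) (hE : T_E) : T_TH := by
  intro d hd ε hε0 hε1 δ hδ
  have hd1 : 1 ≤ d := by omega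
  by_contra hcon
  push Not at hcon
  -- sequence of sides
  have hfr : ∀ t : ℕ, ∃ᶠ L : ℕ in atTop, δ < th ε d L t := hcon
  have hex : ∀ t : ℕ, ∃ L : ℕ, t ≤ L ∧ δ < th ε d L t := by
    intro t
    exact (frequently_atTop.1 (hfr t)) t
  choose Ls hLs1 hLs2 using hex
  have htend : Tendsto Ls atTop atTop := tendsto_atTop_mono hLs1 tendsto_id
  set U : Ultrafilter ℕ := (hyperfilter ℕ).map Ls with hU
  have hUle : (U : Filter ℕ) ≤ atTop := by
    rw [hU, Ultrafilter.coe_map]
    refine le_trans (Filter.map_mono ?_) htend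
    rw [← Nat.cofinite_eq_atTop]
    exact hyperfilter_le_cofinite
  have hUth : ∀ t : ℕ, ∀ᶠ L in (U : Filter ℕ), δ < th ε d L t := by
    intro t
    rw [hU, Ultrafilter.coe_map, eventually_map]
    have h1 : ∀ᶠ s : ℕ in (hyperfilter ℕ : Filter ℕ), t ≤ s := by
      have h2 : (hyperfilter ℕ : Filter ℕ) ≤ atTop := by
        rw [← Nat.cofinite_eq_atTop]
        exact hyperfilter_le_cofinite
      exact h2 (eventually_ge_atTop t)
    filter_upwards [h1] with s hs
    have h3 := (hTH0 d (Ls s) ε hd1 hε0.le hε1).1 t s (by positivity) (by exact_mod_cast hs)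
    linarith [hLs2 s]
  have hev : ∀ {p : ℕ → Prop}, (∀ᶠ L in atTop, p L) → ∀ᶠ L in (U : Filter ℕ), p L :=
    fun h => hUle h
  have hNe : (U : Filter ℕ).NeBot := U.neBot
  -- the limits
  have hcast : ∀ t : ℕ, (0 : ℝ) ≤ (t : ℝ) := fun t => by positivity
  obtain ⟨CD2, hCD2⟩ := hD2 d hd
  have hDDnn : ∀ (L t : ℕ), 0 ≤ DD ε d L t := by
    intro L t
    unfold DD
    have h1 := (hMONO d L).2.2.1 t (2 * t) (hcast t) (by linarith [hcast t])
    have h2 : 0 ≤ ∑ x ∈ Finset.univ.erase (0 : V d L), vis2 ε t 0 x * hit t 0 x :=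
      Finset.sum_nonneg fun x _ => mul_nonneg
        ((hTH0 d L ε hd1 hε0.le hε1).2.2.2.2.1 t 0 x (hcast t)).1 (hit_nonneg (hcast t) _ _)
    linarith
  have hu : ∀ t : ℕ, ∃ x, Tendsto (fun L => uu d L t) U (𝓝 x) := fun t =>
    exists_lim U _ 0 1 (Eventually.of_forall fun L =>
      ⟨((hMONO d L).2.2.2.2 t (hcast t)).1, ((hMONO d L).2.2.2.2 t (hcast t)).2.1⟩)
  have hρ : ∀ t : ℕ, ∃ x, Tendsto (fun L => rho d L t) U (𝓝 x) := fun t =>
    exists_lim U _ 0 1 (Eventually.of_forall fun L =>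
      ⟨((hMONO d L).2.2.2.2 t (hcast t)).2.2.1, ((hMONO d L).2.2.2.2 t (hcast t)).2.2.2⟩)
  have hθ : ∀ t : ℕ, ∃ x, Tendsto (fun L => th ε d L t) U (𝓝 x) := fun t =>
    exists_lim U _ 0 1 (Eventually.of_forall fun L =>
      (hTH0 d L ε hd1 hε0.le hε1).2.1 t (hcast t))
  have hν : ∀ (κ : ℝ) (t : ℕ), ∃ x, Tendsto (fun L => nu ε d L κ t) U (𝓝 x) := fun κ t =>
    exists_lim U _ 0 1 (Eventually.of_forall fun L =>
      (hTH0 d L ε hd1 hε0.le hε1).2.2.1 κ t (hcast t))
  have hσ : ∀ (κ : ℝ) (t : ℕ), ∃ x, Tendsto (fun L => sm d L κ t) U (𝓝 x) := fun κ t =>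
    exists_lim U _ 0 1 (Eventually.of_forall fun L =>
      (hTH0 d L ε hd1 hε0.le hε1).2.2.2.1 κ t (hcast t))
  have hDD : ∀ t : ℕ, ∃ x, Tendsto (fun L => DD ε d L t) U (𝓝 x) := fun t => by
    refine exists_lim U _ 0 (CD2 * Real.log ((t + 1 : ℕ) + 1) + CD2) ?_
    filter_upwards [hev (hCD2 ε hε0.le hε1 (t + 1))] with L hL
    refine ⟨hDDnn L t, le_trans ?_ hL⟩
    exact Finset.single_le_sum (f := fun s : ℕ => DD ε d L s) (fun s _ => hDDnn L s)
      (Finset.self_mem_range_succ t)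
  choose u hu using hu
  choose ρ hρ using hρ
  choose θ hθ using hθ
  choose ν hν using hν
  choose σ hσ using hσ
  choose D2 hDD using hDD
  obtain ⟨c, hc, CA, hCA⟩ := hA d hd
  obtain ⟨CC, hCC⟩ := hC d hd
  obtain ⟨CD, hCD⟩ := hD d hd
  set C : ℝ := |CA| + |CC| + |CD| + |CD2| with hCdef
  have hC1 : CA ≤ C := by
    have := le_abs_self CA; have := abs_nonneg CC; have := abs_nonneg CD; have := abs_nonneg CD2
    linarith
  have hC2 : CC ≤ C := by
    have := le_abs_self CC; have := abs_nonneg CA; have := abs_nonneg CD; have := abs_nonneg CD2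
    linarith
  have hC3 : CD ≤ C := by
    have := le_abs_self CD; have := abs_nonneg CA; have := abs_nonneg CC; have := abs_nonneg CD2
    linarith
  have hC4 : CD2 ≤ C := by
    have := le_abs_self CD2; have := abs_nonneg CA; have := abs_nonneg CC; have := abs_nonneg CD
    linarith
  have hlog : ∀ T : ℕ, 0 ≤ Real.log ((T : ℝ) + 1) := fun T =>
    Real.log_nonneg (by linarith [hcast T])
  have hmono : ∀ (C' : ℝ) (T : ℕ), C' ≤ C →
      C' * Real.log ((T : ℝ) + 1) + C' ≤ C * Real.log ((T : ℝ) + 1) + C := fun C' T h => by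
    have := mul_le_mul_of_nonneg_right h (hlog T)
    linarith
  have hθanti : Antitone θ := by
    intro s t hst
    refine le_of_tendsto_of_tendsto' (hθ t) (hθ s) fun L => ?_
    exact (hTH0 d L ε hd1 hε0.le hε1).1 s t (hcast s) (by exact_mod_cast hst)
  have hθlow : ∀ t, δ ≤ θ t := fun t =>
    ge_of_tendsto (hθ t) ((hUth t).mono fun L hL => hL.le)
  refine hE u D2 ρ θ σ ν c C ε δ hc hε0 hδ ?_ ?_ ?_ ?_ ?_ ?_ ?_ ?_ ?_ ?_ ?_ hθanti hθlow ?_ ?_ ?_
    ?_ ?_ ?_
  · intro t
    exact ge_of_tendsto' (hu t) fun L => ((hMONO d L).2.2.2.2 t (hcast t)).1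
  · intro t
    exact le_of_tendsto' (hu t) fun L => ((hMONO d L).2.2.2.2 t (hcast t)).2.1
  · intro s t hst
    refine le_of_tendsto_of_tendsto' (hu t) (hu s) fun L => ?_
    exact (hMONO d L).2.2.1 s t (hcast s) (by exact_mod_cast hst)
  · intro T hT
    refine le_trans (by linarith) (ge_of_tendsto (tendsto_finsetSum (range T) fun t _ => hu t)
      (hev (hCA T hT)))
  · intro T
    refine le_trans (le_of_tendsto (tendsto_finsetSum (range T) fun t _ =>
      ((hu t).pow 2).const_mul (t : ℝ)) (hev (hCC T))) (hmono CC T hC2)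
  · intro t
    exact ge_of_tendsto' (hDD t) fun L => hDDnn L t
  · intro T
    refine le_trans (le_of_tendsto (tendsto_finsetSum (range T) fun t _ => hDD t)
      (hev (hCD2 ε hε0.le hε1 T))) (hmono CD2 T hC4)
  · intro t
    exact ge_of_tendsto' (hρ t) fun L => ((hMONO d L).2.2.2.2 t (hcast t)).2.2.1
  · intro t
    exact le_of_tendsto' (hρ t) fun L => ((hMONO d L).2.2.2.2 t (hcast t)).2.2.2
  · intro s t hst
    refine le_of_tendsto_of_tendsto' (hρ t) (hρ s) fun L => ?_
    exact (hMONO d L).2.2.2.1 s t (hcast s) (by exact_mod_cast hst)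
  · intro T
    refine le_trans (le_of_tendsto (tendsto_finsetSum (range T) fun t _ => hρ t)
      (hev (hCD T))) (hmono CD T hC3)
  · intro t
    exact le_of_tendsto' (hθ t) fun L => ((hTH0 d L ε hd1 hε0.le hε1).2.1 t (hcast t)).2
  · intro κ t
    exact ge_of_tendsto' (hν κ t) fun L => ((hTH0 d L ε hd1 hε0.le hε1).2.2.1 κ t (hcast t)).1
  · intro κ t
    exact ge_of_tendsto' (hσ κ t) fun L => ((hTH0 d L ε hd1 hε0.le hε1).2.2.2.1 κ t (hcast t)).1
  · intro κ t hκ
    have h2 : ∀ L, ε * κ * (max 0 (uu d L t - uu d L ((2 * t : ℕ) : ℝ) -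
        √(2 * nu ε d L κ t * DD ε d L t))) ^ 2 ≤
        2 * (th ε d L t - th ε d L ((2 * t : ℕ) : ℝ)) * DD ε d L t := by
      intro L
      have := hR1 d L ε κ t hd1 hε0.le hε1 hκ (hcast t)
      push_cast
      exact this
    refine le_of_tendsto_of_tendsto' (b := (U : Filter ℕ)) ?_ ?_ h2
    · refine Tendsto.const_mul _ (Tendsto.pow ?_ 2)
      refine Tendsto.max tendsto_const_nhds ?_
      refine Tendsto.sub ((hu t).sub (hu (2 * t))) ?_
      exact (((hν κ t).const_mul 2).mul (hDD t)).sqrt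
    · exact (((hθ t).sub (hθ (2 * t))).const_mul 2).mul (hDD t)
  · intro κ s t hκ
    have h2 : ∀ L, sm d L κ t * (1 - κ * rho d L s) ≤
        rho d L t - rho d L ((t + s : ℕ) : ℝ) := by
      intro L
      have := hSB d L κ s t hd1 hκ (hcast s) (hcast t)
      push_cast
      exact this
    refine le_of_tendsto_of_tendsto' (b := (U : Filter ℕ)) ?_ ?_ h2
    · exact (hσ κ t).mul (tendsto_const_nhds.sub ((hρ s).const_mul κ))
    · exact (hρ t).sub (hρ (t + s))
  · intro κ η hκ hη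
    -- tolerance
    set tol : ℝ := η * δ ^ 2 * κ ^ 2 / 8 with htol
    have htol0 : 0 < tol := by positivity
    obtain ⟨r, hr⟩ := antitone_tail θ hθanti δ hθlow ((tol / 10) ^ 2) (by positivity)
    obtain ⟨T0, hT0⟩ := hH d ε r tol hd1 hε0.le hε1 (hcast r) htol0
    refine ⟨max (max T0 r) 1, fun t ht => ?_⟩
    have ht1 : T0 ≤ t := le_trans (le_trans (le_max_left _ _) (le_max_left _ _)) ht
    have ht2 : r ≤ t := le_trans (le_trans (le_max_right _ _) (le_max_left _ _)) ht
    have ht3 : 1 ≤ t := le_trans (le_max_right _ _) ht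
    have htpos : (0 : ℝ) < t := by exact_mod_cast ht3
    have h1 : ∀ᶠ L in (U : Filter ℕ), nu ε d L (δ * κ * t / 2) t ≤ sm d L (κ * t) t +
        (10 * √(th ε d L r - th ε d L t) + tol) * t / (δ * κ * t / 2) ^ 2 := by
      filter_upwards [hev (hT0 t ht1 (by exact_mod_cast ht2)), hUth r] with L hL1 hL2
      have h3 := (hTH0 d L ε hd1 hε0.le hε1).2.2.2.2.2 t (δ * κ * t / 2) (κ * t) (th ε d L r)
        (hcast t) (by linarith) (by
          have : δ * (κ * t) < th ε d L r * (κ * t) := by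
            apply mul_lt_mul_of_pos_right hL2 (by positivity)
          have h4 : 0 < δ * (κ * t) := by positivity
          linarith)
      refine le_trans h3 ?_
      have h5 : δ * κ * t / 2 ≤ th ε d L r * (κ * t) - δ * κ * t / 2 := by
        have : δ * (κ * t) ≤ th ε d L r * (κ * t) :=
          mul_le_mul_of_nonneg_right hL2.le (by positivity)
        linarith
      have h6 : 0 < δ * κ * t / 2 := by positivity
      have h7 : 0 ≤ (10 * √(th ε d L r - th ε d L t) + tol) * t := by positivity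
      have h8 : fsg ε t (fun s => s.dis (th ε d L r) 0 ^ 2) (FS.init d L) /
          (th ε d L r * (κ * t) - δ * κ * t / 2) ^ 2 ≤
          (10 * √(th ε d L r - th ε d L t) + tol) * t / (δ * κ * t / 2) ^ 2 :=
        div_le_div₀ h7 hL1 (by positivity) (by gcongr)
      linarith
    have h9 : ν (δ * κ * t / 2) t ≤ σ (κ * t) t +
        (10 * √(θ r - θ t) + tol) * t / (δ * κ * t / 2) ^ 2 := by
      refine le_of_tendsto_of_tendsto (hν _ t) ?_ h1
      refine (hσ _ t).add (Tendsto.div_const (Tendsto.mul_const _ ?_) _)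
      exact (((hθ r).sub (hθ t)).sqrt.const_mul 10).add_const _
    have h10 : √(θ r - θ t) ≤ tol / 10 := by
      calc √(θ r - θ t) ≤ √((tol / 10) ^ 2) := Real.sqrt_le_sqrt (hr t ht2)
        _ = tol / 10 := Real.sqrt_sq (by positivity)
    have h11 : (10 * √(θ r - θ t) + tol) * t / (δ * κ * t / 2) ^ 2 ≤ η / t := by
      have h12 : (10 * √(θ r - θ t) + tol) * t ≤ 2 * tol * t := by
        apply mul_le_mul_of_nonneg_right _ htpos.le
        linarith
      calc (10 * √(θ r - θ t) + tol) * t / (δ * κ * t / 2) ^ 2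
          ≤ 2 * tol * t / (δ * κ * t / 2) ^ 2 := by gcongr
        _ = η / t := by
            rw [htol]
            field_simp
            ring
    linarith

end Pool.Agent.CAS
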