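import Pool.Agent.CAS.Basic

/-!
# Two zealots: `uu2 x t ≤ C t^(-5/4)` (job B)
-/

set_option autoImplicit false

open Finset Filter Topology MeasureTheory
open scoped BigOperators

namespace Pool.Agent.CAS

namespace B_

lemma hasDeriv_pow (a p q : ℝ) (hq : q = p - 1) {y : ℝ} (hy : 1 ≤ y) :
    HasDerivAt (fun y : ℝ => a * y ^ p) (a * p * y ^ q) y := by
  have h := (Real.hasDerivAt_rpow_const (x := y) (p := p) (Or.inl (by linarith))).const_mul a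
  rw [← hq] at h
  exact h.congr_deriv (by ring)

/-- elementary power inequalities -/
lemma pow_facts {Y m : ℝ} (hY : 1 ≤ Y) (hm0 : 0 ≤ m) (hm : m ≤ 2 * Y) :
    m ^ (1 / 4 : ℝ) ≤ 2 * Y ^ (1 / 4 : ℝ) ∧ m ^ (5 / 4 : ℝ) ≤ 4 * Y ^ (5 / 4 : ℝ) := by
  have hY0 : 0 ≤ Y := by linarith
  constructor
  · calc m ^ (1 / 4 : ℝ) ≤ (2 * Y) ^ (1 / 4 : ℝ) := Real.rpow_le_rpow hm0 hm (by norm_num)
      _ = 2 ^ (1 / 4 : ℝ) * Y ^ (1 / 4 : ℝ) := Real.mul_rpow (by norm_num) hY0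
      _ ≤ 2 * Y ^ (1 / 4 : ℝ) := by
        refine mul_le_mul_of_nonneg_right ?_ (by positivity)
        calc (2 : ℝ) ^ (1 / 4 : ℝ) ≤ 2 ^ (1 : ℝ) :=
              Real.rpow_le_rpow_of_exponent_le (by norm_num) (by norm_num)
          _ = 2 := Real.rpow_one 2
  · calc m ^ (5 / 4 : ℝ) ≤ (2 * Y) ^ (5 / 4 : ℝ) := Real.rpow_le_rpow hm0 hm (by norm_num)
      _ = 2 ^ (5 / 4 : ℝ) * Y ^ (5 / 4 : ℝ) := Real.mul_rpow (by norm_num) hY0
      _ ≤ 4 * Y ^ (5 / 4 : ℝ) := by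
        refine mul_le_mul_of_nonneg_right ?_ (by positivity)
        calc (2 : ℝ) ^ (5 / 4 : ℝ) ≤ 2 ^ (2 : ℝ) :=
              Real.rpow_le_rpow_of_exponent_le (by norm_num) (by norm_num)
          _ = 4 := by norm_num

lemma rp_mul {Y : ℝ} (hY : 1 ≤ Y) (p q s : ℝ) (h : p + q = s) : Y ^ p * Y ^ q = Y ^ s := by
  rw [← h, Real.rpow_add (by linarith)]

lemma fin1 {G A B e u v w C C' γ : ℝ} (h1 : G - (A + B) ≤ e)
    (h2 : A ≤ -(5 / 6) * γ * u + C * w) (h3 : B ≤ 3 / 4 * γ * u + 2 * C * v)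
    (h4 : e ≤ C' * 7 * (3 * v + w)) (h5 : (2 * C + 21 * C') * v ≤ 1 / 30 * u)
    (h6 : 4 / 5 * u ≤ γ * u) : G ≤ -(1 / 30) * u + (C * w + C' * 7 * w) := by
  nlinarith

/-- the Lyapunov function -/
noncomputable def GG {S : Type} (X F : S → ℝ) (K : ℝ) (s : S) : ℝ :=
  1 * (X s + K) ^ (-(1 / 2) : ℝ) - (3 / 4) * (X s + K) ^ (-(5 / 2) : ℝ) * F s / 2

/-- drift and size of the Lyapunov function -/
lemma drift {C C' : ℝ} (hC : 3 ≤ C) (hC' : 1 ≤ C') {S I : Type} [Finite S] [Fintype I]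
    {r : I → ℝ} {φ : I → S → S} {Inv : S → Prop} {X F m β : S → ℝ} {c γ δ : ℝ}
    (hLD : LD r φ Inv X F m β c γ δ C 1) (hc : 5 / 3 * γ ≤ c)
    (hγl : 4 / 5 ≤ γ) (hγu : γ ≤ 5 / 4) (hδ0 : 0 ≤ δ)
    {M : ℝ} (hM : M = 30 * (2 * C + 21 * C'))
    (hcalc : ∀ s, Inv s → m s ≤ 2 * (X s + M ^ 2) ∧
      |gen r φ (GG X F (M ^ 2)) s -
        (-(1 / 2) * (X s + M ^ 2) ^ (-(3 / 2) : ℝ) * gen r φ X s +
          γ * m s * ((3 / 4) * (X s + M ^ 2) ^ (-(5 / 2) : ℝ)))| ≤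
        C' * 7 * (m s * (X s + M ^ 2) ^ (-(13 / 4) : ℝ) + 1 * (X s + M ^ 2) ^ (-(9 / 4) : ℝ) +
          δ * m s * (X s + M ^ 2) ^ (-(3 / 2) : ℝ)))
    {s : S} (hs : Inv s) :
    gen r φ (GG X F (M ^ 2)) s ≤ -(1 / 30) * (X s + M ^ 2) ^ (-(3 / 2) : ℝ) +
        (C + 7 * C') * δ * m s ∧
      0 ≤ GG X F (M ^ 2) s ∧ GG X F (M ^ 2) s ≤ (X s + M ^ 2) ^ (-(1 / 2) : ℝ) := by
  have hM1 : 1 ≤ M := by rw [hM]; linarith
  have hM0 : 0 ≤ M := by linarith
  obtain ⟨hm2, herr⟩ := hcalc s hs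
  have hX0 := hLD.X0 s hs
  have hXm := hLD.Xm s hs
  have hm0 := hLD.m0 s hs
  set Y : ℝ := X s + M ^ 2 with hY
  have hYK : M ^ 2 ≤ Y := by linarith
  have hY1 : 1 ≤ Y := le_trans (by nlinarith) hYK
  have hY0 : 0 < Y := by linarith
  obtain ⟨p1, p2⟩ := pow_facts hY1 hm0 hm2
  -- `Y^(3/4) ≥ M`
  have hYM : M ≤ Y ^ (3 / 4 : ℝ) := by
    calc M = M ^ (1 : ℝ) := (Real.rpow_one M).symm
      _ ≤ M ^ (3 / 2 : ℝ) := Real.rpow_le_rpow_of_exponent_le hM1 (by norm_num)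
      _ = (M ^ 2) ^ (3 / 4 : ℝ) := by
        rw [← Real.rpow_natCast, ← Real.rpow_mul hM0]; norm_num
      _ ≤ Y ^ (3 / 4 : ℝ) := Real.rpow_le_rpow (by positivity) hYK (by norm_num)
  have h94 : M * Y ^ (-(9 / 4) : ℝ) ≤ Y ^ (-(3 / 2) : ℝ) := by
    calc M * Y ^ (-(9 / 4) : ℝ) ≤ Y ^ (3 / 4 : ℝ) * Y ^ (-(9 / 4) : ℝ) :=
          mul_le_mul_of_nonneg_right hYM (by positivity)
      _ = _ := rp_mul hY1 _ _ _ (by norm_num)
  have h94' : 0 ≤ Y ^ (-(9 / 4) : ℝ) := by positivity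
  have h32 : 0 ≤ Y ^ (-(3 / 2) : ℝ) := by positivity
  have h321 : Y ^ (-(3 / 2) : ℝ) ≤ 1 := Real.rpow_le_one_of_one_le_of_nonpos hY1 (by norm_num)
  have h134 : m s * Y ^ (-(13 / 4) : ℝ) ≤ 2 * Y ^ (-(9 / 4) : ℝ) := by
    calc m s * Y ^ (-(13 / 4) : ℝ) ≤ (2 * Y) * Y ^ (-(13 / 4) : ℝ) :=
          mul_le_mul_of_nonneg_right hm2 (by positivity)
      _ = 2 * (Y ^ (1 : ℝ) * Y ^ (-(13 / 4) : ℝ)) := by rw [Real.rpow_one]; ring
      _ = _ := by rw [rp_mul hY1 _ _ (-(9 / 4)) (by norm_num)]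
  have hδm : 0 ≤ δ * m s := mul_nonneg hδ0 hm0
  have hδm32 : δ * m s * Y ^ (-(3 / 2) : ℝ) ≤ δ * m s := by
    calc δ * m s * Y ^ (-(3 / 2) : ℝ) ≤ δ * m s * 1 := mul_le_mul_of_nonneg_left h321 hδm
      _ = _ := mul_one _
  -- first main term
  have hg1 : -(1 / 2) * Y ^ (-(3 / 2) : ℝ) * gen r φ X s ≤
      -(5 / 6) * γ * Y ^ (-(3 / 2) : ℝ) + C * (δ * m s) := by
    have hX' := hLD.gX' s hs
    have h1 : 5 / 3 * γ - C * (δ * m s) ≤ gen r φ X s := by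
      calc 5 / 3 * γ - C * (δ * m s) ≤ c - C * δ * m s := by linarith [hc]
        _ ≤ _ := hX'
    have h2 : Y ^ (-(3 / 2) : ℝ) * (5 / 3 * γ - C * (δ * m s)) ≤
        Y ^ (-(3 / 2) : ℝ) * gen r φ X s := mul_le_mul_of_nonneg_left h1 h32
    have h3 : C * (δ * m s * Y ^ (-(3 / 2) : ℝ)) ≤ C * (δ * m s) :=
      mul_le_mul_of_nonneg_left hδm32 (by linarith)
    have h4 : 0 ≤ C * (δ * m s) := mul_nonneg (by linarith) hδm
    nlinarith
  -- second main term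
  have hmY : m s ≤ Y + 2 * C * Y ^ (1 / 4 : ℝ) := by
    have h1 := hLD.mX s hs
    have h2 : C * m s ^ (1 / 4 : ℝ) ≤ C * (2 * Y ^ (1 / 4 : ℝ)) :=
      mul_le_mul_of_nonneg_left p1 (by linarith)
    have h3 : X s ≤ Y := by rw [hY]; nlinarith
    linarith
  have hg2 : γ * m s * (3 / 4 * Y ^ (-(5 / 2) : ℝ)) ≤
      3 / 4 * γ * Y ^ (-(3 / 2) : ℝ) + 2 * C * Y ^ (-(9 / 4) : ℝ) := by
    have e1 : Y * Y ^ (-(5 / 2) : ℝ) = Y ^ (-(3 / 2) : ℝ) := by
      rw [← rp_mul hY1 1 (-(5 / 2)) (-(3 / 2)) (by norm_num), Real.rpow_one]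
    have e2 : Y ^ (1 / 4 : ℝ) * Y ^ (-(5 / 2) : ℝ) = Y ^ (-(9 / 4) : ℝ) :=
      rp_mul hY1 _ _ _ (by norm_num)
    have h52 : 0 ≤ Y ^ (-(5 / 2) : ℝ) := by positivity
    calc γ * m s * (3 / 4 * Y ^ (-(5 / 2) : ℝ))
        = (3 / 4 * γ) * (m s * Y ^ (-(5 / 2) : ℝ)) := by ring
      _ ≤ (3 / 4 * γ) * ((Y + 2 * C * Y ^ (1 / 4 : ℝ)) * Y ^ (-(5 / 2) : ℝ)) :=
          mul_le_mul_of_nonneg_left (mul_le_mul_of_nonneg_right hmY h52) (by linarith)
      _ = 3 / 4 * γ * (Y * Y ^ (-(5 / 2) : ℝ)) +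
            (3 / 2 * γ) * (C * (Y ^ (1 / 4 : ℝ) * Y ^ (-(5 / 2) : ℝ))) := by ring
      _ = 3 / 4 * γ * Y ^ (-(3 / 2) : ℝ) + (3 / 2 * γ) * (C * Y ^ (-(9 / 4) : ℝ)) := by
          rw [e1, e2]
      _ ≤ _ := by
          have h1 : 0 ≤ C * Y ^ (-(9 / 4) : ℝ) := mul_nonneg (by linarith) h94'
          nlinarith
  have hγY : γ * Y ^ (-(3 / 2) : ℝ) ≥ 4 / 5 * Y ^ (-(3 / 2) : ℝ) :=
    mul_le_mul_of_nonneg_right hγl h32
  refine ⟨?_, ?_, ?_⟩
  · have h1 := (abs_le.1 herr).2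
    have h2 : C' * 7 * (m s * Y ^ (-(13 / 4) : ℝ) + 1 * Y ^ (-(9 / 4) : ℝ) +
        δ * m s * Y ^ (-(3 / 2) : ℝ)) ≤ C' * 7 * (3 * Y ^ (-(9 / 4) : ℝ) + δ * m s) := by
      refine mul_le_mul_of_nonneg_left ?_ (by linarith)
      linarith
    have h3 : (2 * C + 21 * C') * Y ^ (-(9 / 4) : ℝ) ≤ 1 / 30 * Y ^ (-(3 / 2) : ℝ) := by
      have : M * Y ^ (-(9 / 4) : ℝ) = 30 * ((2 * C + 21 * C') * Y ^ (-(9 / 4) : ℝ)) := by
        rw [hM]; ring
      rw [this] at h94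
      linarith
    have h4 : (C + 7 * C') * δ * m s = C * (δ * m s) + C' * 7 * (δ * m s) := by ring
    rw [h4]
    exact fin1 (h1.trans le_rfl) hg1 hg2 h2 h3 hγY
  · have hF := hLD.Fm s hs
    have hF2 : F s ≤ 4 * C * Y ^ (5 / 4 : ℝ) := by
      calc F s ≤ C * m s ^ (5 / 4 : ℝ) := hF
        _ ≤ C * (4 * Y ^ (5 / 4 : ℝ)) := mul_le_mul_of_nonneg_left p2 (by linarith)
        _ = _ := by ring
    have h52 : 0 ≤ Y ^ (-(5 / 2) : ℝ) := by positivity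
    have e3 : Y ^ (-(5 / 2) : ℝ) * Y ^ (5 / 4 : ℝ) = Y ^ (-(5 / 4) : ℝ) :=
      rp_mul hY1 _ _ _ (by norm_num)
    have h54 : M * Y ^ (-(5 / 4) : ℝ) ≤ Y ^ (-(1 / 2) : ℝ) := by
      calc M * Y ^ (-(5 / 4) : ℝ) ≤ Y ^ (3 / 4 : ℝ) * Y ^ (-(5 / 4) : ℝ) :=
            mul_le_mul_of_nonneg_right hYM (by positivity)
        _ = _ := rp_mul hY1 _ _ _ (by norm_num)
    have h540 : 0 ≤ Y ^ (-(5 / 4) : ℝ) := by positivity
    have h8 : 3 / 4 * Y ^ (-(5 / 2) : ℝ) * F s / 2 ≤ Y ^ (-(1 / 2) : ℝ) := by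
      calc 3 / 4 * Y ^ (-(5 / 2) : ℝ) * F s / 2
          = 3 / 8 * (Y ^ (-(5 / 2) : ℝ) * F s) := by ring
        _ ≤ 3 / 8 * (Y ^ (-(5 / 2) : ℝ) * (4 * C * Y ^ (5 / 4 : ℝ))) :=
            mul_le_mul_of_nonneg_left (mul_le_mul_of_nonneg_left hF2 h52) (by norm_num)
        _ = 3 / 2 * C * (Y ^ (-(5 / 2) : ℝ) * Y ^ (5 / 4 : ℝ)) := by ring
        _ = 3 / 2 * C * Y ^ (-(5 / 4) : ℝ) := by rw [e3]
        _ ≤ M * Y ^ (-(5 / 4) : ℝ) := mul_le_mul_of_nonneg_right (by rw [hM]; linarith) h540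
        _ ≤ _ := h54
    unfold GG
    linarith
  · have hF0 := hLD.F0 s hs
    have h52 : 0 ≤ Y ^ (-(5 / 2) : ℝ) := by positivity
    have h9 : 0 ≤ 3 / 4 * Y ^ (-(5 / 2) : ℝ) * F s / 2 := by positivity
    unfold GG
    linarith

/-- one time step of the energy estimate -/
lemma step {S I : Type} [Finite S] [Fintype I] {r : I → ℝ} {φ : I → S → S} {Inv : S → Prop}
    (hr : ∀ i, 0 ≤ r i) (hI : ∀ i s, Inv s → Inv (φ i s)) {G f m H : S → ℝ} {E : ℝ}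
    (hgen : ∀ s, Inv s → gen r φ G s ≤ -(1 / 30) * f s + E * m s) (hG0 : ∀ s, Inv s → 0 ≤ G s)
    (hGH : ∀ s, Inv s → G s ≤ H s) (hE : 0 ≤ E) {s₀ : S} (hs₀ : Inv s₀) {a b Mb : ℝ} (ha : 0 ≤ a)
    (hab : a ≤ b) (hf : ∀ u, a ≤ u → u ≤ b → sg r φ b f s₀ ≤ sg r φ u f s₀)
    (hm : ∀ u, a ≤ u → u ≤ b → sg r φ u m s₀ ≤ Mb) :
    (b - a) * (sg r φ b f s₀ / 30 - E * Mb) ≤ sg r φ a H s₀ := by
  have hgr : ∀ g : S → ℝ, GrF r φ g := fun g => grF_of_finite hr g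
  set k : ℝ := sg r φ b f s₀ / 30 - E * Mb with hk
  have hder : ∀ u : ℝ, HasDerivAt (fun u => sg r φ u G s₀ + k * u)
      (sg r φ u (gen r φ G) s₀ + k) u := by
    intro u
    have h1 := (hasDerivAt_sg (hgr G) s₀ u).add ((hasDerivAt_id u).const_mul k)
    exact h1.congr_deriv (by simp)
  have hle : ∀ u, a ≤ u → u ≤ b → sg r φ u (gen r φ G) s₀ + k ≤ 0 := by
    intro u hu hub
    have h1 : sg r φ u (gen r φ G) s₀ ≤ sg r φ u (fun s => -(1 / 30) * f s + E * m s) s₀ :=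
      sg_mono hr hI (hgr _) (hgr _) hgen (ha.trans hu) hs₀
    have h2 : sg r φ u (fun s => -(1 / 30) * f s + E * m s) s₀ =
        -(1 / 30) * sg r φ u f s₀ + E * sg r φ u m s₀ := by
      have h3 := sg_add (hgr (fun s => -(1 / 30) * f s)) (hgr (fun s => E * m s)) u s₀
      rw [sg_smul, sg_smul] at h3
      exact h3
    have h4 := hf u hu hub
    have h5 := mul_le_mul_of_nonneg_left (hm u hu hub) hE
    rw [hk]
    linarith
  have hanti : AntitoneOn (fun u => sg r φ u G s₀ + k * u) (Set.Icc a b) := by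
    refine antitoneOn_of_deriv_nonpos (convex_Icc a b)
      (fun u _ => (hder u).continuousAt.continuousWithinAt)
      (fun u _ => (hder u).differentiableAt.differentiableWithinAt) fun u hu => ?_
    rw [interior_Icc] at hu
    rw [(hder u).deriv]
    exact hle u hu.1.le hu.2.le
  have h6 := hanti (Set.left_mem_Icc.2 hab) (Set.right_mem_Icc.2 hab) hab
  simp only at h6
  have h7 : 0 ≤ sg r φ b G s₀ := sg_nonneg hr hI (hgr _) hG0 (ha.trans hab) hs₀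
  have h8 : sg r φ a G s₀ ≤ sg r φ a H s₀ := sg_mono hr hI (hgr _) (hgr _) hGH ha hs₀
  linarith

/-- arithmetic-geometric mean inequality -/
lemma amgm {a l : ℝ} (ha : 0 ≤ a) (hl : 0 < l) : a ≤ a ^ 3 / (3 * l ^ 2) + 2 / 3 * l := by
  have h : 0 ≤ (a - l) ^ 2 * (a + 2 * l) := by positivity
  have h2 : a * (3 * l ^ 2) ≤ a ^ 3 + 2 * l ^ 3 := by nlinarith
  have h3 : a ^ 3 / (3 * l ^ 2) + 2 / 3 * l = (a ^ 3 + 2 * l ^ 3) / (3 * l ^ 2) := by
    field_simp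
  rw [h3, le_div_iff₀ (by positivity)]
  exact h2

end B_

open B_ in
/-- job B -/
theorem t_B (h1 : T_KER) (h2 : T_LD2) (h3 : T_CALC) (h4 : T_MOM) (h5 : T_MONO) : T_B := by
  intro d hd
  have hd1 : 1 ≤ d := by omega
  obtain ⟨C0, hC0, hKer⟩ := h1 d hd
  obtain ⟨C, hC, hLD2⟩ := h2 C0 hC0
  obtain ⟨C', hC', hcalc⟩ := h3 C (by linarith)
  obtain ⟨C1, hC1, hmom⟩ := h4 C (by linarith) 1
  obtain ⟨M, hM⟩ : ∃ M : ℝ, M = 30 * (2 * C + 21 * C') := ⟨_, rfl⟩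
  have hM1 : 1 ≤ M := by rw [hM]; linarith
  refine ⟨2580 * M ^ 3, fun T => ?_⟩
  obtain ⟨E, hE⟩ : ∃ E : ℝ, E = C + 7 * C' := ⟨_, rfl⟩
  have hE1 : 1 ≤ E := by rw [hE]; linarith
  have hT0 : (0 : ℝ) ≤ T := Nat.cast_nonneg T
  obtain ⟨δ, hδ⟩ : ∃ δ : ℝ, δ = 1 / (3 * E * C1 * (1 + T) ^ 4) := ⟨_, rfl⟩
  have hT4 : (1 : ℝ) ≤ (1 + T) ^ 4 := one_le_pow₀ (by linarith)
  have hD1 : 1 ≤ 3 * E * C1 * (1 + T) ^ 4 := by
    have : 1 ≤ E * C1 := one_le_mul_of_one_le_of_one_le hE1 hC1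
    nlinarith
  have hδ0 : 0 < δ := by rw [hδ]; positivity
  have hδ1 : δ ≤ 1 := by
    rw [hδ, div_le_one (by linarith)]
    exact hD1
  filter_upwards [hKer δ hδ0 0] with L hL x hx t ht1 htT
  obtain ⟨h, γ, hK⟩ := hL
  have hγl := hK.γl
  have hγu := hK.γu
  have hLD := hLD2 d L h γ δ 0 hd1 hδ0.le hδ1 hK x hx
  have hr : ∀ a : Ar d L, 0 ≤ (fun _ : Ar d L => ra d) a := fun _ => ra_nonneg d
  set Inv : Finset (V d L) → Prop := fun A => (0 : V d L) ∉ A ∧ x ∉ A with hInv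
  set w : V d L → ℝ := fun z => 1 - (h z + h (z - x)) / (1 + h x) with hw
  have hhx0 : 0 ≤ h x := hK.nn x
  have hhx : h x ≤ 1 / 5 := hK.small x hx
  have hc1 : 5 / 3 * γ ≤ 2 * γ / (1 + h x) := by
    rw [le_div_iff₀ (by linarith)]
    nlinarith
  have hc2 : |2 * γ / (1 + h x)| ≤ C := by
    rw [abs_of_nonneg (by positivity), div_le_iff₀ (by linarith)]
    nlinarith
  have hcalc' := hcalc (Finset (V d L)) (Ar d L) _ _ _ _ _ _ _ _ γ δ 1 hLD hc2 (by linarith)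
    (by linarith) hδ0.le hδ1 (by norm_num) le_rfl (M ^ 2) (by rw [hM]; nlinarith) (1 / 2) 7
    (fun y => 1 * y ^ (-(1 / 2) : ℝ)) (fun y => -(1 / 2) * y ^ (-(3 / 2) : ℝ))
    (fun y => 3 / 4 * y ^ (-(5 / 2) : ℝ)) (fun y => -(15 / 8) * y ^ (-(7 / 2) : ℝ))
    (fun y => 105 / 16 * y ^ (-(9 / 2) : ℝ)) (by norm_num) (by norm_num) (by norm_num)
    (fun y hy => (hasDeriv_pow 1 (-(1 / 2)) (-(3 / 2)) (by norm_num) hy).congr_deriv (by ring))
    (fun y hy => (hasDeriv_pow (-(1 / 2)) (-(3 / 2)) (-(5 / 2)) (by norm_num) hy).congr_deriv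
      (by ring))
    (fun y hy => (hasDeriv_pow (3 / 4) (-(5 / 2)) (-(7 / 2)) (by norm_num) hy).congr_deriv
      (by ring))
    (fun y hy => (hasDeriv_pow (-(15 / 8)) (-(7 / 2)) (-(9 / 2)) (by norm_num) hy).congr_deriv
      (by ring))
    (fun y hy => by
      have : (0 : ℝ) < y := by linarith
      rw [show (-(1 / 2) - 2 : ℝ) = -(5 / 2) by norm_num, abs_mul,
        abs_of_nonneg (by positivity : (0 : ℝ) ≤ y ^ (-(5 / 2) : ℝ))]
      exact mul_le_mul_of_nonneg_right (by norm_num [abs_le]) (by positivity))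
    (fun y hy => by
      have : (0 : ℝ) < y := by linarith
      rw [show (-(1 / 2) - 3 : ℝ) = -(7 / 2) by norm_num, abs_mul,
        abs_of_nonneg (by positivity : (0 : ℝ) ≤ y ^ (-(7 / 2) : ℝ))]
      exact mul_le_mul_of_nonneg_right (by norm_num [abs_le]) (by positivity))
    (fun y hy => by
      have : (0 : ℝ) < y := by linarith
      rw [show (-(1 / 2) - 4 : ℝ) = -(9 / 2) by norm_num, abs_mul,
        abs_of_nonneg (by positivity : (0 : ℝ) ≤ y ^ (-(9 / 2) : ℝ))]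
      exact mul_le_mul_of_nonneg_right (by norm_num [abs_le]) (by positivity))
  rw [show (-(1 / 2) - 11 / 4 : ℝ) = -(13 / 4) by norm_num,
    show (-(1 / 2) - 7 / 4 : ℝ) = -(9 / 4) by norm_num,
    show (-(1 / 2) - 1 : ℝ) = -(3 / 2) by norm_num] at hcalc'
  have hdr := fun (A : Finset (V d L)) (hA : Inv A) =>
    drift (s := A) hC hC' hLD hc1 hγl hγu hδ0.le hM hcalc' hA
  have hw0 : ∀ z, 0 ≤ w z := by
    intro z
    have hpos : 0 < 1 + h x := by linarith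
    have key : h z + h (z - x) ≤ 1 + h x := by
      by_cases hz0 : z = 0
      · rw [hz0, hK.h0, zero_sub, hK.symm]
      · by_cases hzx : z = x
        · rw [hzx, sub_self, hK.h0, add_comm]
        · have a1 := hK.small z hz0
          have a2 := hK.small (z - x) (sub_ne_zero.2 hzx)
          linarith
    simp only [hw]
    rw [sub_nonneg, div_le_one hpos]
    exact key
  have hX0 : ∀ A : Finset (V d L), 0 ≤ zX w A := fun A => Finset.sum_nonneg fun z _ => hw0 z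
  have hXmono : ∀ A B : Finset (V d L), A ⊆ B → zX w A ≤ zX w B := fun A B hAB =>
    Finset.sum_le_sum_of_subset_of_nonneg hAB fun z _ _ => hw0 z
  have hM2 : 0 < M ^ 2 := by positivity
  have hM21 : 1 ≤ M ^ 2 := one_le_pow₀ hM1
  set f : Finset (V d L) → ℝ := fun A => (zX w A + M ^ 2) ^ (-(3 / 2) : ℝ) with hf
  set H : Finset (V d L) → ℝ := fun A => (zX w A + M ^ 2) ^ (-(1 / 2) : ℝ) with hH
  set e : ℝ → ℝ := fun u => sg (fun _ : Ar d L => ra d) (zup {0, x}) u f ∅ with he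
  have hfanti : Antitone f := by
    intro A B hAB
    have := hXmono A B hAB
    have := hX0 A
    exact Real.rpow_le_rpow_of_nonpos (by linarith) (by linarith) (by norm_num)
  have hI : ∀ (a : Ar d L) (A : Finset (V d L)), Inv A → Inv (zup {0, x} a A) := hLD.inv
  have hI0 : Inv ∅ := ⟨Finset.notMem_empty _, Finset.notMem_empty _⟩
  have hgr : ∀ g : Finset (V d L) → ℝ, GrF (fun _ : Ar d L => ra d) (zup {0, x}) g :=
    fun g => grF_of_finite hr g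
  have hemono : ∀ u b, 0 ≤ u → u ≤ b → e b ≤ e u := by
    intro u b hu hub
    have := (h5 d L).2.1 {0, x} f (b - u) u (by linarith) hu hfanti
    rw [sub_add_cancel] at this
    exact this
  have hmass : ∀ u : ℝ, 0 ≤ u → u ≤ (T : ℝ) →
      sg (fun _ : Ar d L => ra d) (zup {0, x}) u (zm {0, x}) ∅ ≤ 3 * C1 * (1 + T) := by
    intro u hu huT
    have b1 := hmom (Finset (V d L)) (Ar d L) _ _ _ _ _ _ _ _ γ δ 1 hLD u ∅ hu hI0
    simp only [pow_one] at b1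
    have b2 : sg (fun _ : Ar d L => ra d) (zup {0, x}) u (zm {0, x}) ∅ ≤
        sg (fun _ : Ar d L => ra d) (zup {0, x}) u (fun A => 1 + zm {0, x} A) ∅ :=
      sg_mono' hr (hgr _) (hgr _) (fun A => by linarith) hu ∅
    have b3 : zm ({0, x} : Finset (V d L)) ∅ ≤ 2 := by
      unfold zm occ
      rw [Finset.empty_union]
      exact_mod_cast Finset.card_le_two
    have b4 : C1 * (1 + u) * (1 + zm ({0, x} : Finset (V d L)) ∅) ≤ C1 * (1 + T) * 3 :=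
      mul_le_mul (mul_le_mul_of_nonneg_left (by linarith) (by linarith)) (by linarith)
        (by unfold zm; positivity) (by positivity)
    linarith
  set ε : ℝ := 1 / (1 + (T : ℝ)) ^ 2 with hε
  have hε0 : 0 < ε := by positivity
  have hε1 : ε ≤ 1 := by
    rw [hε, div_le_one (by positivity)]
    exact one_le_pow₀ (by linarith)
  have hErr : (T : ℝ) * (E * δ * (3 * C1 * (1 + T))) ≤ ε := by
    have e1 : (T : ℝ) * (E * δ * (3 * C1 * (1 + T))) = T / (1 + T) ^ 3 := by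
      rw [hδ]
      field_simp
    rw [e1, hε, div_le_div_iff₀ (by positivity) (by positivity)]
    have : (0 : ℝ) ≤ (1 + T) ^ 2 := by positivity
    nlinarith
  have hstep : ∀ a b : ℝ, 0 ≤ a → a ≤ b → b ≤ (T : ℝ) →
      (b - a) * e b ≤ 30 * (sg (fun _ : Ar d L => ra d) (zup {0, x}) a H ∅ + ε) := by
    intro a b ha hab hbT
    have s1 := step (S := Finset (V d L)) (I := Ar d L) (Inv := Inv) hr hI
      (G := GG (zX w) (zF h {0, x}) (M ^ 2)) (f := f) (m := zm {0, x}) (H := H) (E := E * δ)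
      (fun A hA => by rw [hE]; exact (hdr A hA).1) (fun A hA => (hdr A hA).2.1)
      (fun A hA => (hdr A hA).2.2) (by positivity) hI0 ha hab
      (fun u hu hub => hemono u b (ha.trans hu) hub)
      (fun u hu hub => hmass u (ha.trans hu) (hub.trans hbT))
    have s2 : (b - a) * (E * δ * (3 * C1 * (1 + T))) ≤ T * (E * δ * (3 * C1 * (1 + T))) :=
      mul_le_mul_of_nonneg_right (by linarith) (by positivity)
    have s3 : (b - a) * (sg (fun _ : Ar d L => ra d) (zup {0, x}) b f ∅ / 30 -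
        E * δ * (3 * C1 * (1 + T))) = (b - a) * e b / 30 -
          (b - a) * (E * δ * (3 * C1 * (1 + T))) := by
      simp only [he]; ring
    rw [s3] at s1
    linarith
  have he0 : ∀ u, 0 ≤ u → 0 ≤ e u := fun u hu =>
    sg_nonneg hr hI (hgr _) (fun A _ => by
      have := hX0 A
      simp only [hf]; positivity) hu hI0
  have ht1' : (1 : ℝ) ≤ t := by exact_mod_cast ht1
  have htT' : (t : ℝ) ≤ T := by exact_mod_cast htT
  set s : ℝ := (t : ℝ) / 2 with hs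
  have hs0 : 0 < s := by rw [hs]; linarith
  have hH0 : sg (fun _ : Ar d L => ra d) (zup {0, x}) 0 H ∅ ≤ 1 := by
    rw [sg_zero]
    have := hX0 ∅
    exact Real.rpow_le_one_of_one_le_of_nonpos (by linarith) (by norm_num)
  have hA1 : e s ≤ 60 / s := by
    have := hstep 0 s le_rfl hs0.le (by linarith)
    rw [le_div_iff₀ hs0]
    linarith
  set l : ℝ := s ^ (-(1 / 3) : ℝ) with hl
  have hl0 : 0 < l := by positivity
  have hHs : sg (fun _ : Ar d L => ra d) (zup {0, x}) s H ∅ ≤ 21 * l := by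
    have a1 : ∀ A, Inv A → H A ≤ 1 / (3 * l ^ 2) * f A + 2 / 3 * l := by
      intro A _
      have hY : 0 < zX w A + M ^ 2 := by have := hX0 A; linarith
      have a2 := amgm (a := H A) (by simp only [hH]; positivity) hl0
      have a3 : H A ^ 3 = f A := by
        simp only [hH, hf]
        rw [← Real.rpow_natCast, ← Real.rpow_mul hY.le]
        norm_num
      rw [a3] at a2
      linarith [a2, (by ring : f A / (3 * l ^ 2) = 1 / (3 * l ^ 2) * f A)]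
    have a4 := sg_mono hr hI (hgr H) (hgr (fun A => 1 / (3 * l ^ 2) * f A + 2 / 3 * l)) a1
      hs0.le hI0
    have a5 : sg (fun _ : Ar d L => ra d) (zup {0, x}) s
        (fun A => 1 / (3 * l ^ 2) * f A + 2 / 3 * l) ∅ = 1 / (3 * l ^ 2) * e s + 2 / 3 * l := by
      have := sg_add (hgr (fun A => 1 / (3 * l ^ 2) * f A)) (hgr (fun _ => 2 / 3 * l)) s ∅
      rw [sg_smul, sg_const] at this
      exact this
    rw [a5] at a4
    have a6 : 1 / (3 * l ^ 2) * e s ≤ 20 * l := by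
      calc 1 / (3 * l ^ 2) * e s ≤ 1 / (3 * l ^ 2) * (60 / s) :=
            mul_le_mul_of_nonneg_left hA1 (by positivity)
        _ = 20 * (l * (l ^ 3 * s)⁻¹) := by field_simp; ring
        _ = 20 * l := by
            have : l ^ 3 * s = 1 := by
              rw [hl, ← Real.rpow_natCast, ← Real.rpow_mul hs0.le]
              norm_num
              rw [Real.rpow_neg_one, inv_mul_cancel₀ hs0.ne']
            rw [this]; norm_num
    linarith
  have hA2 : s * e t ≤ 30 * (21 * l + ε) := by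
    have := hstep s t hs0.le (by linarith) htT'
    rw [show (t : ℝ) - s = s by rw [hs]; ring] at this
    linarith
  have ht54 : (0 : ℝ) < (t : ℝ) ^ (-(5 / 4) : ℝ) := by positivity
  have hlt : l / s ≤ 4 * (t : ℝ) ^ (-(5 / 4) : ℝ) := by
    calc l / s = s ^ (-(1 / 3) : ℝ) * s ^ (-1 : ℝ) := by
          rw [hl, Real.rpow_neg_one, div_eq_mul_inv]
      _ = s ^ (-(4 / 3) : ℝ) := by rw [← Real.rpow_add hs0]; norm_num
      _ = (t : ℝ) ^ (-(4 / 3) : ℝ) * ((1 / 2 : ℝ)) ^ (-(4 / 3) : ℝ) := by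
          rw [← Real.mul_rpow (by positivity) (by norm_num)]
          congr 1
          rw [hs]; ring
      _ ≤ (t : ℝ) ^ (-(5 / 4) : ℝ) * 4 := by
          refine mul_le_mul (Real.rpow_le_rpow_of_exponent_le ht1' (by norm_num)) ?_
            (by positivity) ht54.le
          rw [Real.rpow_neg (by norm_num), ← Real.inv_rpow (by norm_num)]
          calc ((1 / 2 : ℝ)⁻¹) ^ (4 / 3 : ℝ) ≤ ((1 / 2 : ℝ)⁻¹) ^ (2 : ℝ) :=
                Real.rpow_le_rpow_of_exponent_le (by norm_num) (by norm_num)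
            _ = 4 := by norm_num
      _ = _ := by ring
  have hεt : ε / s ≤ 2 * (t : ℝ) ^ (-(5 / 4) : ℝ) := by
    have q1 : ε ≤ (t : ℝ) ^ (-2 : ℝ) := by
      rw [hε, Real.rpow_neg (by positivity), one_div]
      refine inv_anti₀ (by positivity) ?_
      rw [show ((2 : ℝ)) = ((2 : ℕ) : ℝ) by norm_num, Real.rpow_natCast]
      exact pow_le_pow_left₀ (by positivity) (by linarith) 2
    have q2 : (t : ℝ) ^ (-2 : ℝ) ≤ (t : ℝ) ^ (-(5 / 4) : ℝ) :=
      Real.rpow_le_rpow_of_exponent_le ht1' (by norm_num)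
    rw [div_le_iff₀ hs0]
    have q3 : 1 ≤ 2 * s := by rw [hs]; linarith
    nlinarith
  have het : e t ≤ 2580 * (t : ℝ) ^ (-(5 / 4) : ℝ) := by
    have r1 : e t ≤ 30 * (21 * (l / s) + ε / s) := by
      have : 30 * (21 * (l / s) + ε / s) = 30 * (21 * l + ε) / s := by ring
      rw [this, le_div_iff₀ hs0]
      linarith
    linarith
  have hfin : uu2 x t ≤ M ^ 3 * e t := by
    have v1 : ∀ A : Finset (V d L), (if A = ∅ then (1 : ℝ) else 0) ≤ M ^ 3 * f A := by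
      intro A
      split_ifs with hA
      · subst hA
        simp only [hf, zX, Finset.sum_empty, zero_add]
        rw [← Real.rpow_natCast M 2, ← Real.rpow_mul (by linarith)]
        norm_num
        rw [mul_inv_cancel₀ (by positivity)]
      · have := hX0 A
        simp only [hf]; positivity
    have v2 := sg_mono' hr (hgr (fun A : Finset (V d L) => if A = ∅ then (1 : ℝ) else 0))
      (hgr (fun A => M ^ 3 * f A)) v1 (t := (t : ℝ)) (by positivity) ∅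
    rw [sg_smul] at v2
    exact v2
  calc uu2 x t ≤ M ^ 3 * e t := hfin
    _ ≤ M ^ 3 * (2580 * (t : ℝ) ^ (-(5 / 4) : ℝ)) :=
        mul_le_mul_of_nonneg_left het (by positivity)
    _ = _ := by ring

end Pool.Agent.CAS
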