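import Pool.Agent.CAS.Basic

/-!
# Assembly of the box estimate
-/

open Finset Filter Topology MeasureTheory
open scoped BigOperators

namespace Pool.Agent.CAS

namespace BOX_

/-! ## Norms on the torus -/

/-- the norm used for the finite speed of propagation -/
noncomputable def nm {d L : ℕ} (v : V d L) : ℝ := ∑ i, |((v i).valMinAbs : ℝ)|

lemma nm_nonneg {d L : ℕ} (v : V d L) : 0 ≤ nm v := Finset.sum_nonneg fun _ _ => abs_nonneg _

lemma nm_zero {d L : ℕ} : nm (0 : V d L) = 0 := by
  simp [nm]

lemma one_small (L : ℕ) : (1 : ZMod (L + 1)).valMinAbs.natAbs ≤ 1 := by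
  rw [ZMod.valMinAbs_natAbs_eq_min]
  refine (min_le_left _ _).trans ?_
  have : ((1 : ℕ) : ZMod (L + 1)).val = 1 % (L + 1) := ZMod.val_natCast _ _
  rw [Nat.cast_one] at this
  rw [this]
  exact Nat.mod_le _ _

lemma pm_small (L : ℕ) (b : Bool) :
    (if b then (1 : ZMod (L + 1)) else -1).valMinAbs.natAbs ≤ 1 := by
  cases b
  · simp only [Bool.false_eq_true, if_false]
    rw [ZMod.natAbs_valMinAbs_neg]
    exact one_small L
  · simp only [if_true]
    exact one_small L

lemma abs_add_small {L : ℕ} (a b : ZMod (L + 1)) :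
    |((a + b).valMinAbs : ℝ)| ≤ |(a.valMinAbs : ℝ)| + |(b.valMinAbs : ℝ)| := by
  have h1 := ZMod.natAbs_valMinAbs_add_le a b
  have h2 : ∀ z : ℤ, |(z : ℝ)| = (z.natAbs : ℝ) := by
    intro z
    rw [Nat.cast_natAbs, Int.cast_abs]
  calc |((a + b).valMinAbs : ℝ)| = (((a + b).valMinAbs).natAbs : ℝ) := h2 _
    _ ≤ ((a.valMinAbs + b.valMinAbs).natAbs : ℝ) := by exact_mod_cast h1
    _ = |((a.valMinAbs + b.valMinAbs : ℤ) : ℝ)| := (h2 _).symm
    _ ≤ _ := by
      rw [Int.cast_add]
      exact abs_add_le _ _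

lemma nm_step {d L : ℕ} (v : V d L) (e : Dir d) : nm (v + dv e) ≤ nm v + 1 := by
  unfold nm
  have h1 : ∑ i, |(((v + dv e : V d L) i).valMinAbs : ℝ)| ≤
      ∑ i, (|((v i).valMinAbs : ℝ)| + |(((dv e : V d L) i).valMinAbs : ℝ)|) :=
    Finset.sum_le_sum fun i _ => abs_add_small _ _
  have h2 : ∑ i, |(((dv e : V d L) i).valMinAbs : ℝ)| ≤ 1 := by
    rw [Finset.sum_eq_single e.1]
    · have h3 : (dv e : V d L) e.1 = if e.2 then 1 else -1 := by simp [dv]
      rw [h3]
      have h4 := pm_small L e.2
      have h5 : |(((if e.2 then (1 : ZMod (L + 1)) else -1).valMinAbs : ℤ) : ℝ)| =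
          (((if e.2 then (1 : ZMod (L + 1)) else -1).valMinAbs).natAbs : ℝ) := by
        rw [Nat.cast_natAbs, Int.cast_abs]
      rw [h5]
      exact_mod_cast h4
    · intro i _ hi
      have : (dv e : V d L) i = 0 := by simp [dv, Pi.single_eq_of_ne hi]
      rw [this]; simp
    · intro h; exact absurd (Finset.mem_univ _) h
  rw [Finset.sum_add_distrib] at h1
  linarith

/-! ## The sum of the tails -/

/-- the exponential weight on the integers -/
noncomputable def gz (k : ℤ) : ℝ := Real.exp (-(|(k : ℝ)| / 2))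

lemma gz_pos (k : ℤ) : 0 < gz k := Real.exp_pos _

lemma gz_summable : Summable gz := by
  have h1 : Summable fun n : ℕ => Real.exp (-(1 / 2 : ℝ)) ^ n :=
    summable_geometric_of_lt_one (Real.exp_pos _).le (by
      rw [Real.exp_lt_one_iff]; norm_num)
  have h2 : ∀ n : ℕ, Real.exp (-(1 / 2 : ℝ)) ^ n = Real.exp (-((n : ℝ) / 2)) := by
    intro n
    rw [← Real.exp_nat_mul]
    congr 1; ring
  refine Summable.of_nat_of_neg ?_ ?_
  · refine h1.congr fun n => ?_
    rw [h2]
    simp [gz]
  · refine h1.congr fun n => ?_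
    rw [h2]
    simp [gz]

/-- the constant -/
noncomputable def Cz : ℝ := ∑' k : ℤ, gz k

lemma Cz_nonneg : 0 ≤ Cz := tsum_nonneg fun k => (gz_pos k).le

lemma sum_gz_le (L : ℕ) : ∑ k : ZMod (L + 1), gz k.valMinAbs ≤ Cz := by
  classical
  have h1 : ∑ k : ZMod (L + 1), gz k.valMinAbs =
      ∑ k ∈ (Finset.univ : Finset (ZMod (L + 1))).image ZMod.valMinAbs, gz k := by
    rw [Finset.sum_image]
    intro a _ b _ h
    exact ZMod.injective_valMinAbs h
  rw [h1]
  exact gz_summable.sum_le_tsum _ fun k _ => (gz_pos k).le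

lemma sum_exp_nm (d L : ℕ) : ∑ v : V d L, Real.exp (-(nm v / 2)) ≤ Cz ^ d := by
  have h1 : ∀ v : V d L, Real.exp (-(nm v / 2)) = ∏ i, gz (v i).valMinAbs := by
    intro v
    unfold nm gz
    rw [← Real.exp_sum]
    congr 1
    rw [Finset.sum_neg_distrib, Finset.sum_div]
  have h2 := Fintype.sum_pow (fun k : ZMod (L + 1) => gz k.valMinAbs) d
  calc ∑ v : V d L, Real.exp (-(nm v / 2)) = ∑ v : V d L, ∏ i, gz (v i).valMinAbs :=
        Finset.sum_congr rfl fun v _ => h1 v
    _ = (∑ k : ZMod (L + 1), gz k.valMinAbs) ^ d := h2.symm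
    _ ≤ Cz ^ d := pow_le_pow_left₀ (Finset.sum_nonneg fun k _ => (gz_pos _).le) (sum_gz_le L) d

lemma lift_zero_mem (d m L : ℕ) : lift (0 : V d L) ∈ box d m := by
  unfold box lift
  rw [Fintype.mem_piFinset]
  intro i
  simp

lemma nm_ge {d m L : ℕ} {v : V d L} (h : lift v ∉ box d m) : (m : ℝ) ≤ nm v := by
  unfold box at h
  rw [Fintype.mem_piFinset] at h
  push Not at h
  obtain ⟨i, hi⟩ := h
  have h1 : (m : ℤ) ≤ |(v i).valMinAbs| := by
    by_contra hc
    push Not at hc
    apply hi
    have h2 := abs_lt.1 hc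
    rw [Finset.mem_Icc]
    unfold lift
    constructor
    · linarith [h2.1]
    · linarith [h2.2]
  have h2 : (m : ℝ) ≤ |((v i).valMinAbs : ℝ)| := by exact_mod_cast h1
  refine h2.trans ?_
  unfold nm
  exact Finset.single_le_sum (f := fun i => |((v i).valMinAbs : ℝ)|)
    (fun _ _ => abs_nonneg _) (Finset.mem_univ i)

/-- the error -/
noncomputable def err (d m T : ℕ) : ℝ :=
  Real.exp (9 * T + 1) * (Real.exp (-((m : ℝ) / 2)) * Cz ^ d)

lemma err_nonneg (d m T : ℕ) : 0 ≤ err d m T := by
  unfold err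
  have := Cz_nonneg
  positivity

lemma tail_le (d m L : ℕ) (P : V d L → Prop) (inst : DecidablePred P)
    (hP : ∀ v, P v → lift v ∉ box d m) :
    ∑ z ∈ (Finset.univ : Finset (V d L)).filter P, Real.exp (-nm z) ≤
      Real.exp (-((m : ℝ) / 2)) * Cz ^ d := by
  have h1 : ∀ z ∈ (Finset.univ : Finset (V d L)).filter P,
      Real.exp (-nm z) ≤ Real.exp (-((m : ℝ) / 2)) * Real.exp (-(nm z / 2)) := by
    intro z hz
    rw [Finset.mem_filter] at hz
    have h2 := nm_ge (hP z hz.2)
    rw [← Real.exp_add]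
    apply Real.exp_le_exp.2
    linarith
  refine (Finset.sum_le_sum h1).trans ?_
  rw [← Finset.mul_sum]
  refine mul_le_mul_of_nonneg_left ?_ (Real.exp_pos _).le
  refine le_trans ?_ (sum_exp_nm d L)
  exact Finset.sum_le_univ_sum_of_nonneg fun v => (Real.exp_pos _).le

/-! ## Marginalisation -/

lemma marg {α : Type*} [DecidableEq α] (a b : ℝ) (hab : a + b = 1) (J K : Finset α)
    (hJK : Disjoint J K) (g : Finset α → ℝ) :
    ∑ M ∈ (J ∪ K).powerset, a ^ M.card * b ^ ((J ∪ K).card - M.card) * g (M ∩ J) =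
      ∑ A ∈ J.powerset, a ^ A.card * b ^ (J.card - A.card) * g A := by
  induction K using Finset.induction_on with
  | empty =>
    rw [Finset.union_empty]
    refine Finset.sum_congr rfl fun M hM => ?_
    rw [Finset.inter_eq_left.2 (Finset.mem_powerset.1 hM)]
  | insert x K hx ih =>
    have hd : Disjoint J K := Disjoint.mono_right (Finset.subset_insert _ _) hJK
    have hxJ : x ∉ J := fun h =>
      Finset.disjoint_left.1 hJK h (Finset.mem_insert_self _ _)
    have hxU : x ∉ J ∪ K := by
      rw [Finset.mem_union]; tauto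
    rw [← ih hd]
    have e1 : J ∪ insert x K = insert x (J ∪ K) := by
      ext y; simp only [Finset.mem_union, Finset.mem_insert]; tauto
    rw [e1, Finset.sum_powerset_insert hxU, Finset.card_insert_of_notMem hxU,
      ← Finset.sum_add_distrib]
    refine Finset.sum_congr rfl fun M hM => ?_
    have hM' := Finset.mem_powerset.1 hM
    have hxM : x ∉ M := fun h => hxU (hM' h)
    have hc : M.card ≤ (J ∪ K).card := Finset.card_le_card hM'
    have e2 : insert x M ∩ J = M ∩ J := Finset.insert_inter_of_notMem hxJ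
    rw [e2, Finset.card_insert_of_notMem hxM]
    have e3 : (J ∪ K).card + 1 - M.card = ((J ∪ K).card - M.card) + 1 := by omega
    have e4 : (J ∪ K).card + 1 - (M.card + 1) = (J ∪ K).card - M.card := by omega
    rw [e3, e4, pow_succ, pow_succ]
    have hb : b = 1 - a := by linarith
    rw [hb]; ring

/-! ## Lifts -/

lemma lift_inj {d L : ℕ} : Function.Injective (lift : V d L → Zd d) := by
  intro v w h
  funext i
  exact ZMod.injective_valMinAbs (congrFun h i)

lemma lift_surj {d m L : ℕ} (hL : 2 * m < L + 1) {z : Zd d} (hz : z ∈ box d m) :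
    ∃ v : V d L, lift v = z := by
  refine ⟨fun i => (z i : ZMod (L + 1)), ?_⟩
  funext i
  unfold lift
  rw [ZMod.valMinAbs_spec]
  refine ⟨rfl, ?_⟩
  unfold box at hz
  rw [Fintype.mem_piFinset] at hz
  have h1 := Finset.mem_Icc.1 (hz i)
  rw [Set.mem_Ioc]
  push_cast
  constructor
  · have : (2 * m : ℤ) < L + 1 := by exact_mod_cast hL
    linarith [h1.1]
  · have : (2 * m : ℤ) < L + 1 := by exact_mod_cast hL
    linarith [h1.2]

open Classical in
/-- the sites of the torus in the box -/
noncomputable def JJ (d m L : ℕ) : Finset (V d L) :=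
  Finset.univ.filter fun v => lift v ∈ box d m

lemma mem_JJ {d m L : ℕ} {v : V d L} : v ∈ JJ d m L ↔ lift v ∈ box d m := by
  unfold JJ
  rw [Finset.mem_filter]
  simp

open Classical in
lemma JJ_image {d m L : ℕ} (hL : 2 * m < L + 1) : (JJ d m L).image lift = box d m := by
  ext z
  rw [Finset.mem_image]
  constructor
  · rintro ⟨v, hv, rfl⟩
    exact mem_JJ.1 hv
  · intro hz
    obtain ⟨v, rfl⟩ := lift_surj hL hz
    exact ⟨v, mem_JJ.2 hz, rfl⟩

open Classical in
lemma sum_box {d m L : ℕ} (hL : 2 * m < L + 1) (F : Finset (Zd d) → ℝ) :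
    ∑ M ∈ (box d m).powerset, F M = ∑ A ∈ (JJ d m L).powerset, F (A.image lift) := by
  rw [← JJ_image hL, Finset.powerset_image, Finset.sum_image]
  intro A _ B _ h
  exact Finset.image_injective lift_inj h

/-! ## The value of the restricted system -/

open Classical in
/-- only the particles in the box are present -/
noncomputable def vJ (d m L : ℕ) (brv : V d L → ℝ) (T : ℝ) (M : Finset (V d L)) : ℝ :=
  sg (fun _ : V d L × Dir d => ra d)
    (ring (fun v => decide (v ∉ M)) brv dv) T
    (fun s => if decide ((0 : V d L) ∉ M) = true ∧ s.ld 0 ≠ none then 1 else 0)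
    (LS.init id fun v => lift v ∈ box d m)

open Classical in
lemma vJ_inter (h6 : T_IRR) (d m L : ℕ) (brv : V d L → ℝ) (T : ℝ) (M : Finset (V d L)) :
    vJ d m L brv T M = vJ d m L brv T (M ∩ JJ d m L) := by
  have h0 : ((0 : V d L) ∉ M ∩ JJ d m L) ↔ (0 : V d L) ∉ M := by
    rw [Finset.mem_inter]
    have := mem_JJ.2 (lift_zero_mem d m L)
    tauto
  by_cases hM : (0 : V d L) ∈ M
  · have e1 : vJ d m L brv T M = 0 := by
      unfold vJ
      have : (fun s : LS (V d L) (V d L) =>
          if decide ((0 : V d L) ∉ M) = true ∧ s.ld 0 ≠ none then (1 : ℝ) else 0) =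
          fun _ => 0 := by
        funext s
        rw [if_neg]
        simp [hM]
      rw [this, sg_const]
    have e2 : vJ d m L brv T (M ∩ JJ d m L) = 0 := by
      unfold vJ
      have hM2 : (0 : V d L) ∈ M ∩ JJ d m L := by
        by_contra hc
        exact (h0.1 hc) hM
      have : (fun s : LS (V d L) (V d L) =>
          if decide ((0 : V d L) ∉ M ∩ JJ d m L) = true ∧ s.ld 0 ≠ none then (1 : ℝ) else 0) =
          fun _ => 0 := by
        funext s
        rw [if_neg]
        simp only [hM2, not_true_eq_false, decide_false, Bool.false_eq_true, false_and,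
          not_false_eq_true]
      rw [this, sg_const]
    rw [e1, e2]
  · have key := h6 d (V d L) (V d L) dv id (fun v => decide (v ∉ M))
      (fun v => decide (v ∉ M ∩ JJ d m L)) brv brv (fun v => lift v ∈ box d m) 0 T
      (fun z hz => by
        have := mem_JJ.2 hz
        simp only [Finset.mem_inter, this, and_true])
      (fun z _ => rfl)
    have hM2 : (0 : V d L) ∉ M ∩ JJ d m L := h0.2 hM
    unfold vJ
    have e1 : (fun s : LS (V d L) (V d L) =>
          if decide ((0 : V d L) ∉ M) = true ∧ s.ld 0 ≠ none then (1 : ℝ) else 0) =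
          fun s => if s.ld 0 ≠ none then 1 else 0 := by
      funext s
      simp only [hM, not_false_eq_true, decide_true, true_and]
    have e2 : (fun s : LS (V d L) (V d L) =>
          if decide ((0 : V d L) ∉ M ∩ JJ d m L) = true ∧ s.ld 0 ≠ none then (1 : ℝ) else 0) =
          fun s => if s.ld 0 ≠ none then 1 else 0 := by
      funext s
      simp only [hM2, not_false_eq_true, decide_true, true_and]
    rw [e1, e2]
    convert key using 3

open Classical in
lemma vJ_tor {d m L : ℕ} (brv : Zd d → ℝ) (T : ℝ) (A : Finset (V d L)) :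
    torAlive d m L (tpM (A.image lift)) brv T = vJ d m L (fun v => brv (lift v)) T A := by
  unfold torAlive vJ
  have e1 : ∀ v : V d L, tpM (A.image lift) (lift v) = decide (v ∉ A) := by
    intro v
    unfold tpM
    congr 1
    rw [eq_iff_iff]
    have : lift v ∈ A.image lift ↔ v ∈ A := by
      rw [Finset.mem_image]
      constructor
      · rintro ⟨w, hw, he⟩
        rwa [← lift_inj he]
      · intro hv; exact ⟨v, hv, rfl⟩
    rw [this]
  have e2 : tpM (A.image lift) (0 : Zd d) = decide ((0 : V d L) ∉ A) := by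
    rw [← e1 0]
    congr 1
  have e3 : (fun v : V d L => tpM (A.image lift) (lift v)) = fun v => decide (v ∉ A) := by
    funext v; exact e1 v
  rw [e3]
  congr 1
  funext s
  simp only [e2]

open Classical in
lemma vJ_le (h3 : T_LUMP) (h4 : T_DOM) (h5 : T_DISC) {d m L : ℕ} (hd : 1 ≤ d)
    (brv : V d L → ℝ) (T : ℕ) (M : Finset (V d L)) :
    vJ d m L brv T M ≤
      ssg M T (fun s => if (0 : V d L) ∈ s.dead then 0 else 1) (FS.init d L) + err d m T := by
  have hT : (0 : ℝ) ≤ T := Nat.cast_nonneg T
  set typ : V d L → Bool := fun v => decide (v ∉ M) with htyp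
  set f : LS (V d L) (V d L) → ℝ := fun s => if typ 0 = true ∧ s.ld 0 ≠ none then 1 else 0 with hf
  set φ : V d L × Dir d → LS (V d L) (V d L) → LS (V d L) (V d L) := ring typ brv dv with hφ
  set Φ : V d L × Dir d → LS (V d L) (V d L) × LS (V d L) (V d L) →
    LS (V d L) (V d L) × LS (V d L) (V d L) := fun a s => (φ a s.1, φ a s.2) with hΦ
  set s1 : LS (V d L) (V d L) := LS.init id fun v => lift v ∈ box d m with hs1
  set s2 : LS (V d L) (V d L) := LS.init id fun _ => True with hs2
  have hr : ∀ i : V d L × Dir d, 0 ≤ (fun _ : V d L × Dir d => ra d) i := fun _ => ra_nonneg d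
  -- projections
  have p1 : sg (fun _ : V d L × Dir d => ra d) φ T f s1 =
      sg (fun _ : V d L × Dir d => ra d) Φ T (fun s => f s.1) (s1, s2) :=
    (sg_map (r := fun _ : V d L × Dir d => ra d) (φ := Φ) (ψ := φ) Prod.fst
      (Inv := fun _ => True) (fun _ _ _ => trivial) (fun _ _ _ => rfl) T f (s := (s1, s2))
      trivial).symm
  have p2 : sg (fun _ : V d L × Dir d => ra d) φ T f s2 =
      sg (fun _ : V d L × Dir d => ra d) Φ T (fun s => f s.2) (s1, s2) :=
    (sg_map (r := fun _ : V d L × Dir d => ra d) (φ := Φ) (ψ := φ) Prod.snd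
      (Inv := fun _ => True) (fun _ _ _ => trivial) (fun _ _ _ => rfl) T f (s := (s1, s2))
      trivial).symm
  -- discrepancy
  have dd := h5 d (V d L) (V d L) dv id nm typ brv (fun v => lift v ∈ box d m) 0 T hd hT
    Function.injective_id (fun e => ⟨opp e, dv_opp e⟩) nm_nonneg nm_zero nm_step
    (lift_zero_mem d m L)
  have dd2 := dd.trans (show _ ≤ err d m T by
    unfold err
    refine mul_le_mul_of_nonneg_left ?_ (Real.exp_pos _).le
    simp only [id, sub_zero]
    exact tail_le d m L _ _ fun v hv => hv)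
  have step1 : vJ d m L brv T M ≤ sg (fun _ : V d L × Dir d => ra d) φ T f s2 + err d m T := by
    have e0 : vJ d m L brv T M = sg (fun _ : V d L × Dir d => ra d) φ T f s1 := rfl
    rw [e0, p1, p2]
    refine le_trans ?_ (add_le_add_right dd2 _)
    rw [← sg_add (grF_of_finite hr _) (grF_of_finite hr _)]
    refine sg_mono' hr (grF_of_finite hr _) (grF_of_finite hr _) (fun s => ?_) hT _
    simp only [hf]
    by_cases c1 : s.1.ld 0 = none <;> by_cases c2 : s.2.ld 0 = none <;>
      by_cases c3 : typ 0 = true <;> simp [c1, c2, c3]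
  have step2 : sg (fun _ : V d L × Dir d => ra d) φ T f s2 ≤
      ssg M T (fun s => if (0 : V d L) ∈ s.dead then 0 else 1) (FS.init d L) := by
    have l1 := h3 d L typ brv T 0 hd hT
    have l2 := h4 d L typ T 0 hd hT
    have e1 : (Finset.univ.filter fun z : V d L => typ z = false) = M := by
      ext z
      simp [htyp]
    rw [e1] at l2
    refine le_trans (le_of_eq ?_) l2
    rw [← l1]
  linarith

end BOX_

open BOX_ in
open Classical in
theorem t_BOX (h1 : T_TH) (h2 : T_COIN) (h3 : T_LUMP) (h4 : T_DOM) (h5 : T_DISC) (h6 : T_IRR)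
    (h7 : T_WRAP) : T_BOX := by
  intro d hd p hp0 hp1 δ hδ
  obtain ⟨T, hT⟩ := h1 d hd (1 - p) (by linarith) (by linarith) (δ / 4) (by linarith)
  have hd1 : 1 ≤ d := by omega
  refine ⟨T, ?_⟩
  -- the error tends to zero
  have herr : ∀ᶠ m : ℕ in atTop, err d m T ≤ δ / 4 := by
    have h8 : Tendsto (fun m : ℕ => err d m T) atTop (𝓝 (Real.exp (9 * T + 1) * (0 * Cz ^ d))) := by
      unfold err
      refine Tendsto.const_mul _ (Tendsto.mul_const _ ?_)
      have h9 : Tendsto (fun m : ℕ => -((m : ℝ) / 2)) atTop atBot :=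
        tendsto_neg_atTop_atBot.comp
          (tendsto_natCast_atTop_atTop.atTop_div_const (by norm_num))
      exact Real.tendsto_exp_atBot.comp h9
    have h10 : Real.exp (9 * T + 1) * (0 * Cz ^ d) = 0 := by ring
    rw [h10] at h8
    exact (h8.eventually (gt_mem_nhds (by linarith : (0 : ℝ) < δ / 4))).mono fun m hm => hm.le
  filter_upwards [herr] with m hm brv
  -- pass to the limit
  have hlim : Tendsto (fun L : ℕ => ∑ M ∈ (box d m).powerset,
      (1 - p) ^ M.card * p ^ ((box d m).card - M.card) * torAlive d m L (tpM M) brv T) atTop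
      (𝓝 (∑ M ∈ (box d m).powerset, (1 - p) ^ M.card * p ^ ((box d m).card - M.card) *
        boxAlive d m (tpM M) brv T)) :=
    tendsto_finsetSum _ fun M _ =>
      (h7 d m (tpM M) brv T hd1 (Nat.cast_nonneg T)).const_mul _
  refine le_of_tendsto hlim ?_
  filter_upwards [hT, eventually_ge_atTop (2 * m)] with L hL hLm
  have hL2 : 2 * m < L + 1 := by omega
  rw [sum_box hL2]
  have hcard : (box d m).card = (JJ d m L).card := by
    rw [← JJ_image hL2, Finset.card_image_of_injective _ lift_inj]
  have e1 : ∑ A ∈ (JJ d m L).powerset, (1 - p) ^ (A.image lift).card *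
      p ^ ((box d m).card - (A.image lift).card) * torAlive d m L (tpM (A.image lift)) brv T =
      ∑ A ∈ (JJ d m L).powerset, (1 - p) ^ A.card * p ^ ((JJ d m L).card - A.card) *
        vJ d m L (fun v => brv (lift v)) T A := by
    refine Finset.sum_congr rfl fun A _ => ?_
    rw [vJ_tor, Finset.card_image_of_injective _ lift_inj, hcard]
  rw [e1]
  have e2 := marg (1 - p) p (by ring) (JJ d m L) (JJ d m L)ᶜ disjoint_compl_right
    (vJ d m L (fun v => brv (lift v)) T)
  rw [Finset.union_compl] at e2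
  rw [← e2, Finset.powerset_univ, Finset.card_univ]
  -- bound
  have hp : 1 - (1 - p) = p := by ring
  have e3 := h2 d L (1 - p) T 0 hd1 (by linarith) (by linarith) (Nat.cast_nonneg T)
  rw [hp] at e3
  have e4 : ∑ M : Finset (V d L), (1 - p) ^ M.card * p ^ (Fintype.card (V d L) - M.card) = 1 := by
    have := Finset.sum_pow_mul_eq_add_pow (1 - p) p (Finset.univ : Finset (V d L))
    rw [Finset.powerset_univ, Finset.card_univ] at this
    rw [this]
    simp
  calc ∑ M : Finset (V d L), (1 - p) ^ M.card * p ^ (Fintype.card (V d L) - M.card) *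
        vJ d m L (fun v => brv (lift v)) T (M ∩ JJ d m L)
      ≤ ∑ M : Finset (V d L), (1 - p) ^ M.card * p ^ (Fintype.card (V d L) - M.card) *
        (ssg M T (fun s => if (0 : V d L) ∈ s.dead then 0 else 1) (FS.init d L) +
          err d m T) := by
        refine Finset.sum_le_sum fun M _ => ?_
        refine mul_le_mul_of_nonneg_left ?_ (by
          have : 0 ≤ 1 - p := by linarith
          positivity)
        rw [← vJ_inter h6]
        exact vJ_le h3 h4 h5 hd1 _ T M
    _ = th (1 - p) d L T + err d m T := by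
        simp only [mul_add, Finset.sum_add_distrib]
        rw [← Finset.sum_mul, e4, one_mul, ← e3]
    _ ≤ δ := by linarith

end Pool.Agent.CAS
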