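import Pool.Agent.CAS.Targets

/-!
# Basic facts for the torus processes
-/

open Finset Filter Topology MeasureTheory
open scoped BigOperators

namespace Pool.Agent.CAS

set_option linter.unusedSectionVars false

variable {d L : ℕ}

lemma ra_nonneg (d : ℕ) : 0 ≤ ra d := by unfold ra; positivity

lemma rc_nonneg {ε : ℝ} (h0 : 0 ≤ ε) (h1 : ε ≤ 1) (a : Ar d L × Bool) : 0 ≤ rc d L ε a := by
  unfold rc
  refine mul_nonneg (ra_nonneg d) ?_
  split_ifs
  · exact h0
  · linarith

lemma sum_ra (hd : 1 ≤ d) : ∑ _e : Dir d, ra d = 1 := by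
  rw [Finset.sum_const, Finset.card_univ, nsmul_eq_mul]
  have h : (Fintype.card (Dir d) : ℝ) = 2 * d := by
    rw [Fintype.card_prod, Fintype.card_fin, Fintype.card_bool]; push_cast; ring
  rw [h]
  unfold ra
  have : (d : ℝ) ≠ 0 := by positivity
  field_simp

/-- the opposite direction -/
def opp (e : Dir d) : Dir d := (e.1, !e.2)

@[simp] lemma opp_opp (e : Dir d) : opp (opp e) = e := by simp [opp]

lemma dv_opp (e : Dir d) : (dv (opp e) : V d L) = -dv e := by
  unfold dv opp
  rcases e with ⟨i, b⟩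
  cases b <;> simp [Pi.single_neg]

/-- the opposite direction as an equivalence -/
def oppE : Dir d ≃ Dir d := ⟨opp, opp, opp_opp, opp_opp⟩

lemma Pk_nonneg {f : V d L → ℝ} (h : ∀ x, 0 ≤ f x) (x : V d L) : 0 ≤ Pk f x :=
  Finset.sum_nonneg fun _ _ => mul_nonneg (ra_nonneg d) (h _)

lemma Pk_mono {f g : V d L → ℝ} (h : ∀ x, f x ≤ g x) (x : V d L) : Pk f x ≤ Pk g x :=
  Finset.sum_le_sum fun _ _ => mul_le_mul_of_nonneg_left (h _) (ra_nonneg d)

lemma Pk_const (hd : 1 ≤ d) (c : ℝ) (x : V d L) : Pk (fun _ => c) x = c := by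
  unfold Pk
  rw [← Finset.sum_mul, sum_ra hd, one_mul]

lemma Pk_le_one (hd : 1 ≤ d) {f : V d L → ℝ} (h : ∀ x, f x ≤ 1) (x : V d L) : Pk f x ≤ 1 :=
  (Pk_mono h x).trans (Pk_const hd 1 x).le

lemma Pk_add (f g : V d L → ℝ) (x : V d L) : Pk (fun y => f y + g y) x = Pk f x + Pk g x := by
  unfold Pk
  rw [← Finset.sum_add_distrib]
  exact Finset.sum_congr rfl fun _ _ => by ring

lemma Pk_sub (f g : V d L → ℝ) (x : V d L) : Pk (fun y => f y - g y) x = Pk f x - Pk g x := by
  unfold Pk
  rw [← Finset.sum_sub_distrib]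
  exact Finset.sum_congr rfl fun _ _ => by ring

lemma Pk_smul (c : ℝ) (f : V d L → ℝ) (x : V d L) : Pk (fun y => c * f y) x = c * Pk f x := by
  unfold Pk
  rw [Finset.mul_sum]
  exact Finset.sum_congr rfl fun _ _ => by ring

/-- translations commute with the kernel -/
lemma Pk_shift (f : V d L → ℝ) (v x : V d L) : Pk (fun y => f (y - v)) x = Pk f (x - v) := by
  unfold Pk
  refine Finset.sum_congr rfl fun e _ => ?_
  show ra d * f (x + dv e - v) = ra d * f (x - v + dv e)
  rw [show x + dv e - v = x - v + dv e by abel]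

/-- symmetry of the kernel -/
lemma Pk_symm (f g : V d L → ℝ) : ∑ x, Pk f x * g x = ∑ x, f x * Pk g x := by
  unfold Pk
  simp only [Finset.sum_mul, Finset.mul_sum]
  rw [Finset.sum_comm]
  conv_rhs => rw [Finset.sum_comm]
  rw [← Equiv.sum_comp (oppE (d := d))]
  refine Finset.sum_congr rfl fun e _ => ?_
  rw [← Equiv.sum_comp (Equiv.addRight (dv e : V d L))]
  refine Finset.sum_congr rfl fun x _ => ?_
  simp only [Equiv.coe_addRight, oppE, Equiv.coe_fn_mk, dv_opp]
  rw [show x + dv e + -dv e = x by abel]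
  ring

lemma Pk_sum (hd : 1 ≤ d) (f : V d L → ℝ) : ∑ x, Pk f x = ∑ x, f x := by
  have := Pk_symm f (fun _ => 1)
  simpa [Pk_const hd] using this

/-- the kernel of a reflected function -/
lemma Pk_neg (f : V d L → ℝ) (x : V d L) : Pk (fun y => f (-y)) x = Pk f (-x) := by
  unfold Pk
  rw [← Equiv.sum_comp (oppE (d := d)) (fun e => ra d * f (-x + dv e))]
  refine Finset.sum_congr rfl fun e _ => ?_
  simp only [oppE, Equiv.coe_fn_mk, dv_opp]
  rw [show -(x + dv e) = -x + -dv e by abel]

lemma gen_walk (hd : 1 ≤ d) (f : V d L → ℝ) (x : V d L) :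
    gen (fun _ : Dir d => ra d) (fun e y => y + dv e) f x = Pk f x - f x := by
  unfold gen Pk
  simp only [mul_sub, Finset.sum_sub_distrib]
  rw [← Finset.sum_mul, sum_ra hd, one_mul]

lemma gen_stopped (hd : 1 ≤ d) (f : V d L → ℝ) (y x : V d L) :
    gen (fun _ : Dir d => ra d) (fun e z => if z = y then z else z + dv e) f x =
      if x = y then 0 else Pk f x - f x := by
  unfold gen Pk
  split_ifs with h
  · subst h; simp
  · simp only [mul_sub, Finset.sum_sub_distrib, if_neg h]
    rw [← Finset.sum_mul, sum_ra hd, one_mul]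

/-! ## The voter model with zealots -/

lemma zup_of_mem {Z A : Finset (V d L)} {x : V d L} {e : Dir d} (h : x ∈ Z) :
    zup Z (x, e) A = A := by simp [zup, h]

lemma zup_of_occ {Z A : Finset (V d L)} {x : V d L} {e : Dir d} (h : x ∉ Z)
    (h' : x + dv e ∈ A ∪ Z) : zup Z (x, e) A = insert x A := by
  unfold zup
  rw [if_neg h, if_pos h']

lemma zup_of_not {Z A : Finset (V d L)} {x : V d L} {e : Dir d} (h : x ∉ Z)
    (h' : x + dv e ∉ A ∪ Z) : zup Z (x, e) A = A.erase x := by
  unfold zup
  rw [if_neg h, if_neg h']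

lemma mem_zup {Z A : Finset (V d L)} {a : Ar d L} {v : V d L} :
    v ∈ zup Z a A ↔ if v = a.1 ∧ a.1 ∉ Z then a.1 + dv a.2 ∈ A ∪ Z else v ∈ A := by
  unfold zup
  by_cases h : a.1 ∈ Z
  · simp [h]
  · by_cases h' : a.1 + dv a.2 ∈ A ∪ Z
    · by_cases hv : v = a.1
      · subst hv; simp only [if_neg h, if_pos h', Finset.mem_insert_self, true_and]
        rw [if_pos h]; simp [h']
      · rw [if_neg h, if_pos h']
        simp [hv]
    · by_cases hv : v = a.1
      · subst hv; rw [if_neg h, if_neg h']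
        simp only [Finset.mem_erase, ne_eq, not_true_eq_false, false_and, true_and]
        rw [if_pos h]
        simp [h']
      · rw [if_neg h, if_neg h']
        simp [hv]

lemma zup_mono {Z : Finset (V d L)} {a : Ar d L} {A B : Finset (V d L)} (h : A ⊆ B) :
    zup Z a A ⊆ zup Z a B := by
  intro v hv
  rw [mem_zup] at hv ⊢
  split_ifs at hv ⊢ with h1
  · rcases Finset.mem_union.1 hv with h2 | h2
    · exact Finset.mem_union_left _ (h h2)
    · exact Finset.mem_union_right _ h2
  · exact h hv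

/-- without zealots the process started from a union is the union of the processes -/
lemma zup_empty_union {a : Ar d L} {A B : Finset (V d L)} :
    zup ∅ a (A ∪ B) = zup ∅ a A ∪ zup ∅ a B := by
  ext v
  simp only [Finset.mem_union, mem_zup, Finset.notMem_empty, not_false_eq_true, and_true,
    or_false]
  split_ifs <;> simp

/-- the zealots stay outside of `A` -/
lemma zup_disj {Z : Finset (V d L)} {a : Ar d L} {A : Finset (V d L)} (h : Disjoint A Z) :
    Disjoint (zup Z a A) Z := by
  rw [Finset.disjoint_left] at h ⊢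
  intro v hv hZ
  rw [mem_zup] at hv
  split_ifs at hv with h1
  · exact h1.2 (h1.1 ▸ hZ)
  · exact h hv hZ

lemma zup_image_add (Z : Finset (V d L)) (v : V d L) (a : Ar d L) (A : Finset (V d L)) :
    (zup Z a A).image (· + v) = zup (Z.image (· + v)) (a.1 + v, a.2) (A.image (· + v)) := by
  have hinj : Function.Injective (· + v : V d L → V d L) := add_left_injective v
  ext w
  rw [mem_zup]
  have e1 : ∀ (B : Finset (V d L)) (u : V d L), u ∈ B.image (· + v) ↔ u - v ∈ B := by
    intro B u
    constructor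
    · intro h
      obtain ⟨b, hb, rfl⟩ := Finset.mem_image.1 h
      simpa using hb
    · intro h
      exact Finset.mem_image.2 ⟨u - v, h, by simp⟩
  rw [e1, mem_zup]
  simp only [e1, Finset.mem_union]
  rw [show a.1 + v + dv a.2 - v = a.1 + dv a.2 by abel, show a.1 + v - v = a.1 by abel]
  have e2 : w - v = a.1 ↔ w = a.1 + v := sub_eq_iff_eq_add
  simp only [e2]

/-- translation invariance of the voter model -/
lemma zsg_image_add (Z : Finset (V d L)) (v : V d L) (t : ℝ) (f : Finset (V d L) → ℝ)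
    (A : Finset (V d L)) :
    zsg (Z.image (· + v)) t f (A.image (· + v)) = zsg Z t (fun A => f (A.image (· + v))) A := by
  unfold zsg
  have h1 := sg_map (r := fun _ : Ar d L => ra d) (φ := zup Z)
    (ψ := fun a A => zup (Z.image (· + v)) (a.1 + v, a.2) A) (fun A => A.image (· + v))
    (Inv := fun _ => True) (fun _ _ _ => trivial)
    (fun a A _ => zup_image_add Z v a A) t f (s := A) trivial
  rw [h1]
  symm
  exact sg_reindex (r := fun _ : Ar d L => ra d) (r' := fun _ : Ar d L => ra d)
    (φ := fun a A => zup (Z.image (· + v)) (a.1 + v, a.2) A) (φ' := zup (Z.image (· + v)))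
    ((Equiv.addRight v).prodCongr (Equiv.refl _)) (fun a => rfl) (fun a => rfl) t f _

/-- the generator as a sum over the sites -/
lemma gen_zup (Z : Finset (V d L)) (f : Finset (V d L) → ℝ) (A : Finset (V d L)) :
    gen (fun _ : Ar d L => ra d) (zup Z) f A =
      ∑ x, ∑ e : Dir d, ra d * (f (zup Z (x, e) A) - f A) := by
  unfold gen
  rw [Fintype.sum_prod_type]

/-! ## The coalescing flow -/

@[simp] lemma fup_pos (a : Ar d L × Bool) (s : FS d L) (z : V d L) :
    (fup a s).pos z = if s.pos z = a.1.1 then a.1.1 + dv a.1.2 else s.pos z := rfl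

lemma mem_fup_vis {a : Ar d L × Bool} {s : FS d L} {v : V d L} :
    v ∈ (fup a s).vis ↔ (v = a.1.1 + dv a.1.2 ∧ s.oth a.1.1 (a.1.1 + dv a.1.2)) ∨ v ∈ s.vis := by
  unfold fup
  simp only
  split_ifs with h
  · simp [h]
  · simp [h]

lemma mem_fup_dead {a : Ar d L × Bool} {s : FS d L} {v : V d L} :
    v ∈ (fup a s).dead ↔ v ∈ s.dead ∨ (s.pos v = a.1.1 ∧ s.oth a.1.1 (a.1.1 + dv a.1.2) ∧
      a.1.1 + dv a.1.2 ∉ s.vis ∧ a.2 = true) := by
  unfold fup
  simp only
  split_ifs with h
  · simp only [Finset.mem_union, Finset.mem_filter, Finset.mem_univ, true_and]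
    tauto
  · tauto

lemma fup_vis_mono (a : Ar d L × Bool) (s : FS d L) : s.vis ⊆ (fup a s).vis :=
  fun _ hv => mem_fup_vis.2 (Or.inr hv)

lemma fup_dead_mono (a : Ar d L × Bool) (s : FS d L) : s.dead ⊆ (fup a s).dead :=
  fun _ hv => mem_fup_dead.2 (Or.inl hv)

/-- functions which do not depend on the dead lines: the coin may be forgotten -/
lemma gen_fup_coin {ε : ℝ} (f : FS d L → ℝ) (s : FS d L) :
    gen (rc d L ε) fup f s = ∑ a : Ar d L, ra d *
      (ε * (f (fup (a, true) s) - f s) + (1 - ε) * (f (fup (a, false) s) - f s)) := by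
  unfold gen
  rw [Fintype.sum_prod_type]
  refine Finset.sum_congr rfl fun a _ => ?_
  simp only [Fintype.sum_bool, rc, if_true, Bool.false_eq_true, if_false]
  ring

end Pool.Agent.CAS
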