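import Pool.Agent.CAS.CAux

/-!
# Job C: `∑ t u(t)^2 ≤ C log T`
-/

set_option linter.unusedSectionVars false

open Finset Filter Topology MeasureTheory
open scoped BigOperators

namespace Pool.Agent.CAS

namespace C_

/-- real analysis: a sum from a differential inequality -/
lemma sum_le {p H H' : ℝ → ℝ} {c e : ℝ} (hc : 0 ≤ c) (T : ℕ)
    (hp : ∀ s t, 0 ≤ s → s ≤ t → p t ≤ p s) (hp0 : ∀ t, 0 ≤ t → 0 ≤ p t)
    (hd : ∀ t, HasDerivAt H (H' t) t)
    (hle : ∀ t : ℝ, 0 ≤ t → t ≤ T → H' t ≤ -(c * t * p t) + e) :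
    c * ∑ j ∈ range T, (j : ℝ) * p (j + 1) ≤ H 0 - H T + e * T := by
  have key : ∀ n : ℕ, n ≤ T →
      c * ∑ j ∈ range n, (j : ℝ) * p (j + 1) ≤ H 0 - H n + e * n := by
    intro n
    induction n with
    | zero => intro _; simp
    | succ n ih =>
      intro hn
      have ih' := ih (by omega)
      rw [Finset.sum_range_succ, mul_add]
      have hnT : (n : ℝ) + 1 ≤ T := by exact_mod_cast hn
      have h1 : H ((n : ℝ) + 1) - H n ≤ (-(c * (n * p (n + 1))) + e) * (((n : ℝ) + 1) - n) := by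
        refine Convex.image_sub_le_mul_sub_of_deriv_le (convex_Icc (n : ℝ) (n + 1))
          (fun t _ => (hd t).continuousAt.continuousWithinAt)
          (fun t _ => (hd t).differentiableAt.differentiableWithinAt) ?_ n
          (Set.left_mem_Icc.2 (by linarith)) (n + 1) (Set.right_mem_Icc.2 (by linarith))
          (by linarith)
        intro t ht
        rw [interior_Icc] at ht
        rw [(hd t).deriv]
        have hn0 : (0 : ℝ) ≤ n := Nat.cast_nonneg n
        have ht0 : 0 ≤ t := hn0.trans ht.1.le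
        have h2 := hle t ht0 (ht.2.le.trans hnT)
        have h3 : (n : ℝ) * p (n + 1) ≤ t * p t :=
          mul_le_mul ht.1.le (hp _ _ ht0 ht.2.le) (hp0 _ (by linarith)) ht0
        have h4 := mul_le_mul_of_nonneg_left h3 hc
        linarith
      push_cast
      linarith
  exact key T le_rfl

section Main

variable {S I : Type} [Finite S] [Fintype I] {r : I → ℝ} {φ : I → S → S} {Inv : S → Prop}
  {X F m β : S → ℝ} {γ δ C C' K : ℝ}

lemma main (hL : LD r φ Inv X F m β (2 * γ) γ δ C 1) (hc : CalcC r φ Inv X F m γ δ 1 C')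
    (hC : 6 ≤ C) (hC' : 1 ≤ C') (hγ1 : 4 / 5 ≤ γ) (hγ2 : γ ≤ 5 / 4) (hδ : 0 ≤ δ) (hK : C' ≤ K)
    (hK2 : (8 * (5 * C + 189 * C')) ^ 2 ≤ K) {s0 : S} (hs0 : Inv s0) {Cm : ℝ} (hCm : 0 ≤ Cm)
    (hmom : ∀ t, 0 ≤ t → sg r φ t (fun s => (1 + m s) ^ 1) s0 ≤ Cm * (1 + t) ^ 1 * 3)
    {P : S → ℝ} (hP : ∀ s, Inv s → K ^ (-(9 / 4) : ℝ) * P s ≤ (X s + K) ^ (-(9 / 4) : ℝ))
    (hp : ∀ s t, 0 ≤ s → s ≤ t → sg r φ t P s0 ≤ sg r φ s P s0)
    (hp0 : ∀ t, 0 ≤ t → 0 ≤ sg r φ t P s0) (T : ℕ)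
    (hδT : (T + 2) * ((C + 63 * C') * δ) * (Cm * (1 + T) * 3) * T ≤ 1) :
    K ^ (-(9 / 4) : ℝ) / 8 * ∑ j ∈ range T, (j : ℝ) * sg r φ (j + 1) P s0 ≤
      2 * (Real.log (T + 1) + 3 * Cm + K + 1) + 1 := by
  have hr := hL.rn
  have hI := hL.inv
  have hK1 : 1 ≤ K := hC'.trans hK
  have hT0 : (0 : ℝ) ≤ T := Nat.cast_nonneg T
  have gf : ∀ f : S → ℝ, GrF r φ f := fun f => grF_of_finite hr f
  have cor := fun s hs => core (s := s) hL hc hC hC' hγ1 hγ2 hδ hK hK2 hs
  have hKp : 0 ≤ K ^ (-(9 / 4) : ℝ) := by positivity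
  have hA' : 0 ≤ (C + 63 * C') * δ := by positivity
  set H : ℝ → ℝ := fun t => t * sg r φ t (G1 X F K) s0 - 2 * sg r φ t (G2 X F K) s0 with hH
  set H' : ℝ → ℝ := fun t => sg r φ t (fun s => (G1 X F K s + t * gen r φ (G1 X F K) s) -
    2 * gen r φ (G2 X F K) s) s0 with hH'
  have hd : ∀ t, HasDerivAt H (H' t) t := by
    intro t
    have h1 := (hasDerivAt_id t).mul (hasDerivAt_sg (gf (G1 X F K)) s0 t)
    have h2 := (hasDerivAt_sg (gf (G2 X F K)) s0 t).const_mul 2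
    refine (h1.sub h2).congr_deriv ?_
    simp only [hH']
    rw [sg_sub (gf _) (gf _), sg_add (gf _) (gf _), sg_smul, sg_smul]
    simp
  have hle : ∀ t : ℝ, 0 ≤ t → t ≤ T → H' t ≤ -(K ^ (-(9 / 4) : ℝ) / 8 * t * sg r φ t P s0) +
      (T + 2) * ((C + 63 * C') * δ) * (Cm * (1 + T) * 3) := by
    intro t ht htT
    have h1 : H' t ≤ sg r φ t (fun s => -(K ^ (-(9 / 4) : ℝ) / 8 * t) * P s +
        ((T + 2) * ((C + 63 * C') * δ)) * (1 + m s) ^ 1) s0 := by
      refine sg_mono hr hI (gf _) (gf _) (fun s hs => ?_) ht hs0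
      obtain ⟨⟨_, a2, a3⟩, _, _, b3⟩ := cor s hs
      have hm0 := hL.m0 s hs
      have h3 := mul_le_mul_of_nonneg_left a3 ht
      have h4 := mul_le_mul_of_nonneg_left (hP s hs) (by positivity : 0 ≤ t / 8)
      have h5 : (t + 2) * ((C + 63 * C') * δ * m s) ≤ (T + 2) * ((C + 63 * C') * δ * (1 + m s)) :=
        mul_le_mul (by linarith) (mul_le_mul_of_nonneg_left (by linarith) hA') (by positivity)
          (by linarith)
      rw [pow_one]
      linarith
    rw [sg_add (gf _) (gf _), sg_smul, sg_smul] at h1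
    have h2 : sg r φ t (fun s => (1 + m s) ^ 1) s0 ≤ Cm * (1 + T) * 3 := by
      refine (hmom t ht).trans ?_
      rw [pow_one]
      have : Cm * (1 + t) ≤ Cm * (1 + T) := mul_le_mul_of_nonneg_left (by linarith) hCm
      linarith
    have h3 := mul_le_mul_of_nonneg_left h2
      (by positivity : 0 ≤ (T + 2) * ((C + 63 * C') * δ))
    linarith
  have h1 := sum_le (p := fun t => sg r φ t P s0) (H := H) (H' := H')
    (c := K ^ (-(9 / 4) : ℝ) / 8) (by positivity) T hp hp0 hd hle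
  have hH0 : H 0 ≤ 0 := by
    simp only [hH, zero_mul, zero_sub]
    rw [sg_zero]
    have := (cor s0 hs0).2.1
    linarith
  have hG1 : 0 ≤ sg r φ T (G1 X F K) s0 :=
    sg_nonneg hr hI (gf _) (fun s hs => (cor s hs).1.1) hT0 hs0
  have hG2 : sg r φ T (G2 X F K) s0 ≤ Real.log (T + 1) + 3 * Cm + K + 1 := by
    have h2 : sg r φ T (G2 X F K) s0 ≤ sg r φ T (fun s => (1 / ((T : ℝ) + 1)) * (1 + m s) ^ 1 +
        (Real.log (T + 1) + K + 1)) s0 := by
      refine sg_mono hr hI (gf _) (gf _) (fun s hs => ?_) hT0 hs0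
      have h3 := (cor s hs).2.2.1
      have hX0 := hL.X0 s hs
      have hXm := hL.Xm s hs
      have h4 : 0 < (T : ℝ) + 1 := by positivity
      have h5 := Real.log_le_sub_one_of_pos (x := (X s + K) / (T + 1)) (by positivity)
      rw [Real.log_div (by positivity) (by positivity)] at h5
      have h6 : (X s + K) / (T + 1) ≤ 1 / ((T : ℝ) + 1) * (1 + m s) + K := by
        rw [add_div, div_mul_eq_mul_div, one_mul]
        have h7 : X s / ((T : ℝ) + 1) ≤ (1 + m s) / (T + 1) :=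
          div_le_div_of_nonneg_right (by linarith) h4.le
        have h8 : K / ((T : ℝ) + 1) ≤ K := div_le_self (by linarith) (by linarith)
        linarith
      rw [pow_one]
      linarith
    rw [sg_add (gf _) (gf _), sg_smul, sg_const] at h2
    have h3 : 1 / ((T : ℝ) + 1) * sg r φ T (fun s => (1 + m s) ^ 1) s0 ≤ 3 * Cm := by
      have h4 : 0 < (T : ℝ) + 1 := by positivity
      rw [one_div, inv_mul_le_iff₀ h4]
      have := hmom T hT0
      rw [pow_one] at this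
      linarith
    linarith
  have hHT : -H T ≤ 2 * (Real.log (T + 1) + 3 * Cm + K + 1) := by
    simp only [hH]
    have := mul_nonneg hT0 hG1
    linarith
  linarith

end Main

end C_

open C_ in
theorem t_C (h1 : T_KER) (h2 : T_LD1) (h3 : T_LDP) (h4 : T_CALC) (h5 : T_MOM) (h6 : T_MONO) :
    T_C := by
  intro d hd
  obtain ⟨C0, hC0, hker⟩ := h1 d hd
  obtain ⟨C1, hC1, hLD⟩ := h2 C0 hC0
  set C : ℝ := 2 * C1 with hC
  have hC6 : 6 ≤ C := by linarith
  have hC1' : 1 ≤ C := by linarith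
  obtain ⟨C', hC', hcalc⟩ := h4 C hC1'
  obtain ⟨Cm, hCm, hmom⟩ := h5 C hC1' 1
  set K : ℝ := C' + (8 * (5 * C + 189 * C')) ^ 2 with hK
  have hK1 : C' ≤ K := by rw [hK]; linarith [sq_nonneg (8 * (5 * C + 189 * C'))]
  have hK2 : (8 * (5 * C + 189 * C')) ^ 2 ≤ K := by rw [hK]; linarith
  have hKpos : 0 < K := by linarith
  have hκ : 0 < K ^ (-(9 / 4) : ℝ) / 8 := by positivity
  set κ : ℝ := K ^ (-(9 / 4) : ℝ) / 8 with hκd
  refine ⟨1 + 2 / κ * (2 * (3 * Cm + K + 1) + 1 + 2), fun T => ?_⟩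
  set E : ℝ := ((T : ℝ) + 2) * (C + 63 * C') * (Cm * (1 + T) * 3) * T + 1 with hE
  have hE1 : 1 ≤ E := by
    have : 0 ≤ ((T : ℝ) + 2) * (C + 63 * C') * (Cm * (1 + T) * 3) * T := by positivity
    linarith
  have hEpos : 0 < E := by linarith
  have hδ1 : 1 / E ≤ 1 := by rw [div_le_one hEpos]; exact hE1
  filter_upwards [hker (1 / E) (by positivity) 0] with L hL
  obtain ⟨h, γ, hk⟩ := hL
  have hγ1 := hk.γl
  have hγ2 := hk.γu
  have hL1 := hLD d L h γ (1 / E) 0 (by omega) (by positivity) hδ1 hk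
  have hL2 := h3 _ _ _ _ _ _ _ _ _ _ _ _ _ _ _ _ _ _ γ γ γ (1 / E) C1 1 (by linarith)
    (by positivity) (by norm_num) hL1 hL1
  rw [← two_mul, ← hC] at hL2
  have hc := hcalc _ _ _ _ _ _ _ _ _ _ _ _ _ hL2
    (by rw [abs_of_nonneg (by linarith)]; linarith) (by linarith) (by linarith) (by positivity)
    hδ1 (by norm_num) le_rfl
  have hm := hmom _ _ _ _ _ _ _ _ _ _ _ _ _ hL2
  obtain ⟨mono1, mono2, mono3, mono4, mono5⟩ := h6 d L
  have hprod : ∀ t : ℝ, 0 ≤ t → sg (prate (fun _ : Ar d L => ra d) (fun _ : Ar d L => ra d))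
      (pmap (zup {0}) (zup {0})) t (fun s : Finset (V d L) × Finset (V d L) =>
        (if s.1 = ∅ then (1 : ℝ) else 0) * (if s.2 = ∅ then (1 : ℝ) else 0)) (∅, ∅) =
      uu d L t ^ 2 := by
    intro t ht
    have := sg_pmap (r := fun _ : Ar d L => ra d) (r' := fun _ : Ar d L => ra d)
      (φ := zup {0}) (ψ := zup {0}) (fun _ => ra_nonneg d) (fun _ => ra_nonneg d) ht
      (fun A : Finset (V d L) => if A = ∅ then (1 : ℝ) else 0)
      (fun A : Finset (V d L) => if A = ∅ then (1 : ℝ) else 0) ∅ ∅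
    rw [this, sq]
    rfl
  have hp : ∀ s t : ℝ, 0 ≤ s → s ≤ t → uu d L t ^ 2 ≤ uu d L s ^ 2 := fun s t hs hst =>
    pow_le_pow_left₀ (mono5 t (hs.trans hst)).1 (mono3 s t hs hst) 2
  have hmass : zm {0} (∅ : Finset (V d L)) + zm {0} (∅ : Finset (V d L)) = 2 := by
    simp [zm, occ]; norm_num
  have key := main (s0 := ((∅ : Finset (V d L)), (∅ : Finset (V d L)))) (Cm := Cm) (K := K)
    (P := fun s : Finset (V d L) × Finset (V d L) =>
      (if s.1 = ∅ then (1 : ℝ) else 0) * (if s.2 = ∅ then (1 : ℝ) else 0))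
    hL2 hc hC6 hC' hγ1 hγ2 (by positivity) hK1 hK2 (by simp) (by linarith)
    (fun t ht => by
      have h7 := hm t ((∅ : Finset (V d L)), (∅ : Finset (V d L))) ht (by simp)
      refine h7.trans (le_of_eq ?_)
      simp only [hmass]
      norm_num)
    (fun s hs => by
      have hX0 := hL2.X0 s hs
      have h8 : 0 ≤ K ^ (-(9 / 4) : ℝ) := by positivity
      by_cases h9 : s.1 = ∅ ∧ s.2 = ∅
      · rw [if_pos h9.1, if_pos h9.2, h9.1, h9.2]
        simp [zX]
      · have h10 : (if s.1 = ∅ then (1 : ℝ) else 0) * (if s.2 = ∅ then (1 : ℝ) else 0) = 0 := by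
          rw [not_and_or] at h9
          rcases h9 with h | h
          · rw [if_neg h, zero_mul]
          · rw [if_neg h, mul_zero]
        rw [h10, mul_zero]
        positivity)
    (fun s t hs hst => by
      rw [hprod s hs, hprod t (hs.trans hst)]
      exact hp s t hs hst)
    (fun t ht => by rw [hprod t ht]; positivity) T
    (by
      have : ((T : ℝ) + 2) * ((C + 63 * C') * (1 / E)) * (Cm * (1 + T) * 3) * T =
        (((T : ℝ) + 2) * (C + 63 * C') * (Cm * (1 + T) * 3) * T) / E := by ring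
      rw [this, div_le_one hEpos, hE]
      linarith)
  have e1 : ∑ j ∈ range T, (j : ℝ) * sg (prate (fun _ : Ar d L => ra d) (fun _ : Ar d L => ra d))
      (pmap (zup {0}) (zup {0})) ((j : ℝ) + 1) (fun s : Finset (V d L) × Finset (V d L) =>
        (if s.1 = ∅ then (1 : ℝ) else 0) * (if s.2 = ∅ then (1 : ℝ) else 0)) (∅, ∅) =
      ∑ j ∈ range T, (j : ℝ) * uu d L ((j : ℝ) + 1) ^ 2 :=
    Finset.sum_congr rfl fun j _ => by rw [hprod _ (by positivity)]
  rw [e1] at key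
  have e2 : ∑ t ∈ range T, (t : ℝ) * uu d L t ^ 2 ≤
      2 * ∑ j ∈ range T, (j : ℝ) * uu d L ((j : ℝ) + 1) ^ 2 + 1 := by
    have h7 : ∑ t ∈ range T, (t : ℝ) * uu d L t ^ 2 ≤
        ∑ t ∈ range (T + 1), (t : ℝ) * uu d L t ^ 2 := by
      rw [Finset.sum_range_succ]
      have : 0 ≤ (T : ℝ) * uu d L T ^ 2 := by positivity
      linarith
    rw [Finset.sum_range_succ'] at h7
    have h8 : ∑ j ∈ range T, ((j + 1 : ℕ) : ℝ) * uu d L ((j + 1 : ℕ) : ℝ) ^ 2 ≤
        ∑ j ∈ range T, (2 * ((j : ℝ) * uu d L ((j : ℝ) + 1) ^ 2) + if j = 0 then 1 else 0) := by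
      refine Finset.sum_le_sum fun j _ => ?_
      push_cast
      have h9 := mono5 ((j : ℝ) + 1) (by positivity)
      have h10 : uu d L ((j : ℝ) + 1) ^ 2 ≤ 1 := pow_le_one₀ h9.1 h9.2.1
      have h11 : 0 ≤ uu d L ((j : ℝ) + 1) ^ 2 := by positivity
      split_ifs with h12
      · subst h12
        simp only [Nat.cast_zero, zero_add, zero_mul, mul_zero, one_mul] at *
        exact h10
      · have : (1 : ℝ) ≤ j := by exact_mod_cast Nat.one_le_iff_ne_zero.2 h12
        nlinarith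
    rw [Finset.sum_add_distrib, ← Finset.mul_sum] at h8
    have h13 : ∑ j ∈ range T, (if j = 0 then (1 : ℝ) else 0) ≤ 1 := by
      rw [Finset.sum_ite_eq']
      split_ifs <;> norm_num
    simp only [Nat.cast_zero, zero_mul, add_zero] at h7
    linarith
  have hlog : 0 ≤ Real.log ((T : ℝ) + 1) := Real.log_nonneg (by
    have : (0 : ℝ) ≤ T := Nat.cast_nonneg T
    linarith)
  have e3 : ∑ j ∈ range T, (j : ℝ) * uu d L ((j : ℝ) + 1) ^ 2 ≤
      1 / κ * (2 * (Real.log (T + 1) + 3 * Cm + K + 1) + 1) := by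
    rw [one_div, le_inv_mul_iff₀ hκ]
    exact key
  have e4 : 0 ≤ 1 / κ := by positivity
  have e5 : 0 ≤ 1 / κ * (2 * (3 * Cm + K + 1) + 1) * Real.log ((T : ℝ) + 1) := by positivity
  have e6 : 1 / κ * (2 * (Real.log (T + 1) + 3 * Cm + K + 1) + 1) =
    1 / κ * 2 * Real.log (T + 1) + 1 / κ * (2 * (3 * Cm + K + 1) + 1) := by ring
  have e7 : (1 + 2 / κ * (2 * (3 * Cm + K + 1) + 1 + 2)) * Real.log (T + 1) +
      (1 + 2 / κ * (2 * (3 * Cm + K + 1) + 1 + 2)) =
      Real.log (T + 1) + 2 * (1 / κ * (2 * (3 * Cm + K + 1) + 1) * Real.log (T + 1)) +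
      2 * (1 / κ * 2 * Real.log (T + 1)) + 1 + 2 * (1 / κ * (2 * (3 * Cm + K + 1) + 1)) +
      4 * (1 / κ) := by ring
  rw [e7]
  linarith

end Pool.Agent.CAS
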