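import Pool.Agent.CAS.Basic

/-!
# CALC: Taylor expansion of the generator in an abstract LD structure
-/

open Finset Filter Topology MeasureTheory
open scoped BigOperators

namespace Pool.Agent.CAS.CALC_

open Pool.Agent.CAS

/-- mean value inequality on a segment -/
lemma mv (h h' : ℝ → ℝ) (Y z M : ℝ) (hd : ∀ y ∈ Set.uIcc Y z, HasDerivAt h (h' y) y)
    (hb : ∀ y ∈ Set.uIcc Y z, |h' y| ≤ M) : ∀ y ∈ Set.uIcc Y z, |h y - h Y| ≤ M * |y - Y| := by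
  intro y hy
  exact Convex.norm_image_sub_le_of_norm_hasDerivWithin_le (𝕜 := ℝ) (s := Set.uIcc Y z)
    (fun x hx => (hd x hx).hasDerivWithinAt) (fun x hx => hb x hx) (convex_uIcc Y z)
    Set.left_mem_uIcc hy

lemma abs_sub_le_seg {Y z y : ℝ} (hy : y ∈ Set.uIcc Y z) : |y - Y| ≤ |z - Y| := by
  have := Set.abs_sub_left_of_mem_uIcc hy
  simpa using this

/-- first order expansion -/
lemma tay1 (g1 g2 g3 : ℝ → ℝ) (Y z M : ℝ) (h1 : ∀ y ∈ Set.uIcc Y z, HasDerivAt g1 (g2 y) y)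
    (h2 : ∀ y ∈ Set.uIcc Y z, HasDerivAt g2 (g3 y) y) (hb : ∀ y ∈ Set.uIcc Y z, |g3 y| ≤ M)
    (hM : 0 ≤ M) :
    ∀ y ∈ Set.uIcc Y z, |g1 y - g1 Y - g2 Y * (y - Y)| ≤ M * |z - Y| ^ 2 := by
  intro y hy
  have hA := mv g2 g3 Y z M h2 hb
  have hB := mv (fun y => g1 y - g2 Y * (y - Y)) (fun y => g2 y - g2 Y) Y z (M * |z - Y|)
    (fun x hx => by
      have := (h1 x hx).sub (((hasDerivAt_id x).sub_const Y).const_mul (g2 Y))
      exact this.congr_deriv (by ring))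
    (fun x hx => (hA x hx).trans (mul_le_mul_of_nonneg_left (abs_sub_le_seg hx) hM)) y hy
  have e : g1 y - g2 Y * (y - Y) - (g1 Y - g2 Y * (Y - Y)) = g1 y - g1 Y - g2 Y * (y - Y) := by ring
  rw [e] at hB
  refine hB.trans ?_
  have := abs_sub_le_seg hy
  have h3 : 0 ≤ |z - Y| := abs_nonneg _
  calc M * |z - Y| * |y - Y| ≤ M * |z - Y| * |z - Y| := by gcongr
    _ = _ := by ring

/-- second order expansion -/
lemma tay2 (g0 g1 g2 g3 : ℝ → ℝ) (Y z M : ℝ) (h0 : ∀ y ∈ Set.uIcc Y z, HasDerivAt g0 (g1 y) y)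
    (h1 : ∀ y ∈ Set.uIcc Y z, HasDerivAt g1 (g2 y) y)
    (h2 : ∀ y ∈ Set.uIcc Y z, HasDerivAt g2 (g3 y) y) (hb : ∀ y ∈ Set.uIcc Y z, |g3 y| ≤ M)
    (hM : 0 ≤ M) :
    |g0 z - g0 Y - g1 Y * (z - Y) - g2 Y * (z - Y) ^ 2 / 2| ≤ M * |z - Y| ^ 3 := by
  have hA := tay1 g1 g2 g3 Y z M h1 h2 hb hM
  have hB := mv (fun y => g0 y - g1 Y * (y - Y) - g2 Y * (y - Y) ^ 2 / 2)
    (fun y => g1 y - g1 Y - g2 Y * (y - Y)) Y z (M * |z - Y| ^ 2)
    (fun x hx => by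
      have := ((h0 x hx).sub (((hasDerivAt_id x).sub_const Y).const_mul (g1 Y))).sub
        (((((hasDerivAt_id x).sub_const Y).pow 2).const_mul (g2 Y)).div_const 2)
      refine this.congr_deriv ?_
      simp only [id_eq]
      norm_num
      ring)
    hA z Set.right_mem_uIcc
  have e : g0 z - g1 Y * (z - Y) - g2 Y * (z - Y) ^ 2 / 2 -
      (g0 Y - g1 Y * (Y - Y) - g2 Y * (Y - Y) ^ 2 / 2) =
      g0 z - g0 Y - g1 Y * (z - Y) - g2 Y * (z - Y) ^ 2 / 2 := by ring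
  rw [e] at hB
  refine hB.trans (le_of_eq (by ring))

/-- the main polynomial estimate; `q = m^(1/4)`, `u = Y^(-1/4)`, `Z = Y^(-σ)` -/
lemma poly (C B Z q u b δ a2 G3 G4 a3 Fs V W gX E : ℝ) (hC : 1 ≤ C) (hB : 0 ≤ B) (hZ : 0 ≤ Z)
    (hq : 0 ≤ q) (hu : 0 ≤ u) (hu1 : u ≤ 1) (hqu : q * u ≤ 2) (hb : 0 ≤ b) (hb1 : b ≤ 1)
    (hδ : 0 ≤ δ)
    (_ha2 : 0 ≤ a2) (ha2' : a2 ≤ B * Z * u ^ 8) (ha3 : 0 ≤ a3) (ha3' : a3 ≤ B * Z * u ^ 12)
    (hG3 : G3 = 32 * (B * Z * u ^ 12)) (hG4 : G4 = 64 * (B * Z * u ^ 16))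
    (_hF0 : 0 ≤ Fs) (hF : Fs ≤ C * q ^ 5) (hV0 : 0 ≤ V) (hV : V ≤ 2 * q ^ 4 + b * C * q)
    (hW : W ≤ C * q ^ 5) (hgX0 : 0 ≤ gX) (hgX : gX ≤ C + C * δ * q ^ 4)
    (hE : E ≤ a2 * (2 * (b * C * q) + C * δ * q ^ 8) + G3 * V + Fs * a3 * gX + Fs * G4 * V +
      G3 * W) :
    E ≤ 10000 * C ^ 2 * B * (q ^ 4 * (Z * u ^ 11) + b * (Z * u ^ 7) + δ * q ^ 4 * (Z * u ^ 4)) := by
  have hBZ : 0 ≤ B * Z := mul_nonneg hB hZ
  have hqu0 : 0 ≤ q * u := mul_nonneg hq hu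
  have hC0 : 0 ≤ C := by linarith
  have hCC : C ≤ C ^ 2 := by nlinarith
  -- the five terms
  have T1 : a2 * (2 * (b * C * q) + C * δ * q ^ 8) ≤
      (B * Z) * (4 * C ^ 2 * (b * u ^ 7) + 16 * C ^ 2 * (δ * q ^ 4 * u ^ 4)) := by
    calc a2 * (2 * (b * C * q) + C * δ * q ^ 8)
        ≤ (B * Z * u ^ 8) * (2 * (b * C * q) + C * δ * q ^ 8) := by gcongr
      _ = (B * Z) * (2 * C * (q * u) * (b * u ^ 7) + C * (q * u) ^ 4 * (δ * q ^ 4 * u ^ 4)) := by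
          ring
      _ ≤ (B * Z) * (2 * C * 2 * (b * u ^ 7) + C * 2 ^ 4 * (δ * q ^ 4 * u ^ 4)) := by gcongr
      _ = (B * Z) * (4 * C * (b * u ^ 7) + 16 * C * (δ * q ^ 4 * u ^ 4)) := by ring
      _ ≤ _ := by gcongr
  have T2 : G3 * V ≤ (B * Z) * (64 * C ^ 2 * (q ^ 4 * u ^ 11) + 64 * C ^ 2 * (b * u ^ 7)) := by
    rw [hG3]
    calc 32 * (B * Z * u ^ 12) * V ≤ 32 * (B * Z * u ^ 12) * (2 * q ^ 4 + b * C * q) := by gcongr
      _ = (B * Z) * (64 * (q ^ 4 * u ^ 11) * u + 32 * C * (q * u) * (b * u ^ 7) * u ^ 4) := by ring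
      _ ≤ (B * Z) * (64 * (q ^ 4 * u ^ 11) * 1 + 32 * C * 2 * (b * u ^ 7) * 1) := by
          gcongr
          exact pow_le_one₀ hu hu1
      _ ≤ _ := by
          have h1 : 64 * (q ^ 4 * u ^ 11) * 1 ≤ 64 * C ^ 2 * (q ^ 4 * u ^ 11) := by
            have h0 : 0 ≤ q ^ 4 * u ^ 11 := by positivity
            nlinarith
          have h2 : 32 * C * 2 * (b * u ^ 7) * 1 ≤ 64 * C ^ 2 * (b * u ^ 7) := by
            have h0 : 0 ≤ b * u ^ 7 := by positivity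
            nlinarith
          gcongr
  have T3 : Fs * a3 * gX ≤ (B * Z) * (2 * C ^ 2 * (q ^ 4 * u ^ 11) +
      32 * C ^ 2 * (δ * q ^ 4 * u ^ 4)) := by
    calc Fs * a3 * gX ≤ (C * q ^ 5) * (B * Z * u ^ 12) * (C + C * δ * q ^ 4) := by gcongr
      _ = (B * Z) * (C ^ 2 * (q * u) * (q ^ 4 * u ^ 11) +
            C ^ 2 * (q * u) ^ 5 * u ^ 3 * (δ * q ^ 4 * u ^ 4)) := by ring
      _ ≤ (B * Z) * (C ^ 2 * 2 * (q ^ 4 * u ^ 11) + C ^ 2 * 2 ^ 5 * 1 * (δ * q ^ 4 * u ^ 4)) := by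
          gcongr
          exact pow_le_one₀ hu hu1
      _ = _ := by ring
  have T4 : Fs * G4 * V ≤ (B * Z) * (4096 * C ^ 2 * (q ^ 4 * u ^ 11) +
      256 * C ^ 2 * (q ^ 4 * u ^ 11)) := by
    rw [hG4]
    calc Fs * (64 * (B * Z * u ^ 16)) * V
        ≤ (C * q ^ 5) * (64 * (B * Z * u ^ 16)) * (2 * q ^ 4 + b * C * q) := by gcongr
      _ = (B * Z) * (128 * C * (q * u) ^ 5 * (q ^ 4 * u ^ 11) +
            64 * C ^ 2 * b * (q * u) ^ 2 * u ^ 3 * (q ^ 4 * u ^ 11)) := by ring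
      _ ≤ (B * Z) * (128 * C * 2 ^ 5 * (q ^ 4 * u ^ 11) +
            64 * C ^ 2 * 1 * 2 ^ 2 * 1 * (q ^ 4 * u ^ 11)) := by
          gcongr
          exact pow_le_one₀ hu hu1
      _ = (B * Z) * (4096 * C * (q ^ 4 * u ^ 11) + 256 * C ^ 2 * (q ^ 4 * u ^ 11)) := by ring
      _ ≤ _ := by gcongr
  have T5 : G3 * W ≤ (B * Z) * (64 * C ^ 2 * (q ^ 4 * u ^ 11)) := by
    rw [hG3]
    calc 32 * (B * Z * u ^ 12) * W ≤ 32 * (B * Z * u ^ 12) * (C * q ^ 5) := by gcongr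
      _ = (B * Z) * (32 * C * (q * u) * (q ^ 4 * u ^ 11)) := by ring
      _ ≤ (B * Z) * (32 * C * 2 * (q ^ 4 * u ^ 11)) := by gcongr
      _ = (B * Z) * (64 * C * (q ^ 4 * u ^ 11)) := by ring
      _ ≤ _ := by gcongr
  have h1 : 0 ≤ (B * Z) * C ^ 2 * (q ^ 4 * u ^ 11) := by positivity
  have h2 : 0 ≤ (B * Z) * C ^ 2 * (b * u ^ 7) := by positivity
  have h3 : 0 ≤ (B * Z) * C ^ 2 * (δ * q ^ 4 * u ^ 4) := by positivity
  nlinarith

lemma pw {Y : ℝ} (hY : 0 < Y) (σ e : ℝ) (k : ℕ) (he : e = -σ - k / 4) :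
    Y ^ e = Y ^ (-σ) * (Y ^ (-(1 / 4) : ℝ)) ^ k := by
  rw [← Real.rpow_natCast, ← Real.rpow_mul hY.le, ← Real.rpow_add hY, he]
  congr 1
  ring

lemma supb {Y y σ : ℝ} {k n : ℕ} (hY : 2 ≤ Y) (hy : Y / 2 ≤ y) (h0 : 0 ≤ σ + k) (h1 : σ + k ≤ n) :
    y ^ (-σ - k) ≤ 2 ^ n * Y ^ (-σ - k) := by
  have hY2 : 0 < Y / 2 := by linarith
  calc y ^ (-σ - k) ≤ (Y / 2) ^ (-σ - k) :=
        Real.rpow_le_rpow_of_nonpos hY2 hy (by linarith)
    _ = 2 ^ (σ + k) * Y ^ (-σ - k) := by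
        rw [Real.div_rpow (by linarith) (by norm_num), show -σ - (k : ℝ) = -(σ + k) by ring,
          Real.rpow_neg (x := 2) (by norm_num)]
        field_simp
    _ ≤ 2 ^ (n : ℝ) * Y ^ (-σ - k) := by
        gcongr
        norm_num
    _ = _ := by rw [Real.rpow_natCast]

end Pool.Agent.CAS.CALC_

namespace Pool.Agent.CAS

open CALC_

theorem t_CALC : T_CALC := by
  intro C hC
  have hCC : C ≤ C ^ 2 := by nlinarith
  refine ⟨10000 * C ^ 2, by nlinarith, ?_⟩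
  intro S I _ _ r φ Inv X F m β c γ δ b hLD hc hγ0 hγC hδ0 hδ1 hb0 hb1 K hK σ B g0 g1 g2 g3 g4
    hσ1 hσ2 hB d0 d1 d2 d3 b2 b3 b4 s hs
  have hm0 := hLD.m0 s hs
  have hX0 := hLD.X0 s hs
  have hF0 := hLD.F0 s hs
  have hC0 : 0 ≤ C := by linarith
  obtain ⟨q, hq⟩ : ∃ q, q = m s ^ (1 / 4 : ℝ) := ⟨_, rfl⟩
  have hq0 : 0 ≤ q := by rw [hq]; positivity
  have hq4 : q ^ 4 = m s := by
    rw [hq, ← Real.rpow_natCast, ← Real.rpow_mul hm0]; norm_num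
  have hq5 : m s ^ (5 / 4 : ℝ) = q ^ 5 := by
    rw [hq, ← Real.rpow_natCast, ← Real.rpow_mul hm0]; norm_num
  obtain ⟨Y, hY⟩ : ∃ Y, Y = X s + K := ⟨_, rfl⟩
  have hYK : K ≤ Y := by linarith
  have hY10 : 10000 ≤ Y := by nlinarith
  have hY2 : 2 ≤ Y := by linarith
  have hY0 : 0 < Y := by linarith
  -- the mass is at most `2 Y`
  have hmX := hLD.mX s hs
  rw [← hq] at hmX
  have hm2 : m s ≤ 2 * Y := by
    by_contra hcon
    push Not at hcon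
    have hbc : b * C * q ≤ C * q := by
      have : 0 ≤ C * q := by positivity
      nlinarith
    have h1 : q ^ 4 < 2 * (C * q) := by rw [hq4]; linarith
    have h2 : 1 < q := by
      by_contra h3
      push Not at h3
      have : q ^ 4 ≤ 1 := pow_le_one₀ hq0 h3
      rw [hq4] at this
      linarith
    have h3 : q ^ 3 < 2 * C := by
      have : q * q ^ 3 < q * (2 * C) := by nlinarith
      exact lt_of_mul_lt_mul_left this hq0
    have h4 : q ^ 4 ≤ (q ^ 3) ^ 2 := by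
      calc q ^ 4 = q ^ 4 * 1 := by ring
        _ ≤ q ^ 4 * q ^ 2 := by
            have : 1 ≤ q ^ 2 := by nlinarith
            gcongr
        _ = _ := by ring
    have h5 : (q ^ 3) ^ 2 ≤ (2 * C) ^ 2 := by
      have : 0 ≤ q ^ 3 := by positivity
      gcongr
    rw [hq4] at h4
    nlinarith
  refine ⟨by rw [← hY]; exact hm2, ?_⟩
  rw [← hY]
  obtain ⟨u, hu⟩ : ∃ u, u = Y ^ (-(1 / 4) : ℝ) := ⟨_, rfl⟩
  obtain ⟨Z, hZ⟩ : ∃ Z, Z = Y ^ (-σ) := ⟨_, rfl⟩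
  have hu0 : 0 ≤ u := by rw [hu]; positivity
  have hZ0 : 0 ≤ Z := by rw [hZ]; positivity
  have hu1 : u ≤ 1 := by
    rw [hu]
    exact Real.rpow_le_one_of_one_le_of_nonpos (by linarith) (by norm_num)
  have hu4 : u ^ 4 * Y = 1 := by
    rw [hu, ← Real.rpow_natCast, ← Real.rpow_mul hY0.le]
    norm_num
    rw [Real.rpow_neg hY0.le, Real.rpow_one]
    field_simp
  have hqu : q * u ≤ 2 := by
    have h1 : (q * u) ^ 4 ≤ 2 ^ 4 := by
      calc (q * u) ^ 4 = m s * u ^ 4 := by rw [← hq4]; ring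
        _ ≤ 2 * Y * u ^ 4 := by gcongr
        _ = 2 * (u ^ 4 * Y) := by ring
        _ ≤ 2 ^ 4 := by rw [hu4]; norm_num
    exact le_of_pow_le_pow_left₀ (by norm_num) (by norm_num) h1
  have e8 : Y ^ (-σ - 2) = Z * u ^ 8 := by
    rw [hZ, hu]; exact pw hY0 σ _ 8 (by norm_num)
  have e12 : Y ^ (-σ - 3) = Z * u ^ 12 := by
    rw [hZ, hu]; exact pw hY0 σ _ 12 (by norm_num)
  have e16 : Y ^ (-σ - 4) = Z * u ^ 16 := by
    rw [hZ, hu]; exact pw hY0 σ _ 16 (by norm_num)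
  have e11 : Y ^ (-σ - 11 / 4) = Z * u ^ 11 := by
    rw [hZ, hu]; exact pw hY0 σ _ 11 (by norm_num)
  have e7 : Y ^ (-σ - 7 / 4) = Z * u ^ 7 := by
    rw [hZ, hu]; exact pw hY0 σ _ 7 (by norm_num)
  have e4 : Y ^ (-σ - 1) = Z * u ^ 4 := by
    rw [hZ, hu]; exact pw hY0 σ _ 4 (by norm_num)
  obtain ⟨G3, hG3⟩ : ∃ G3, G3 = 32 * (B * Z * u ^ 12) := ⟨_, rfl⟩
  obtain ⟨G4, hG4⟩ : ∃ G4, G4 = 64 * (B * Z * u ^ 16) := ⟨_, rfl⟩
  have hG30 : 0 ≤ G3 := by rw [hG3]; positivity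
  have hG40 : 0 ≤ G4 := by rw [hG4]; positivity
  -- the segments
  have hseg : ∀ z, |z - Y| ≤ 1 → ∀ y ∈ Set.uIcc Y z, Y / 2 ≤ y ∧ 1 ≤ y := by
    intro z hz y hy
    have h1 := (abs_sub_le_seg hy).trans hz
    have h2 := (abs_le.mp h1).1
    constructor <;> linarith
  have hb3 : ∀ z, |z - Y| ≤ 1 → ∀ y ∈ Set.uIcc Y z, |g3 y| ≤ G3 := by
    intro z hz y hy
    obtain ⟨h1, h2⟩ := hseg z hz y hy
    have h3 := supb (σ := σ) (k := 3) (n := 5) hY2 h1 (by norm_num; linarith)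
      (by norm_num; linarith)
    norm_num at h3
    calc |g3 y| ≤ B * y ^ (-σ - 3) := b3 y h2
      _ ≤ B * (32 * Y ^ (-σ - 3)) := by gcongr
      _ = G3 := by rw [hG3, e12]; ring
  have hb4 : ∀ z, |z - Y| ≤ 1 → ∀ y ∈ Set.uIcc Y z, |g4 y| ≤ G4 := by
    intro z hz y hy
    obtain ⟨h1, h2⟩ := hseg z hz y hy
    have h3 := supb (σ := σ) (k := 4) (n := 6) hY2 h1 (by norm_num; linarith)
      (by norm_num; linarith)
    norm_num at h3
    calc |g4 y| ≤ B * y ^ (-σ - 4) := b4 y h2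
      _ ≤ B * (64 * Y ^ (-σ - 4)) := by gcongr
      _ = G4 := by rw [hG4, e16]; ring
  -- the sums
  obtain ⟨V, hV⟩ : ∃ V, V = ∑ i, r i * (X (φ i s) - X s) ^ 2 := ⟨_, rfl⟩
  obtain ⟨W, hW⟩ : ∃ W, W = ∑ i, r i * (|X (φ i s) - X s| * |F (φ i s) - F s|) := ⟨_, rfl⟩
  have hV0 : 0 ≤ V := by
    rw [hV]
    exact Finset.sum_nonneg fun i _ => mul_nonneg (hLD.rn i) (sq_nonneg _)
  have hVb : |V - 2 * β s| ≤ b * C * q := by rw [hV, hq]; exact hLD.ΓX s hs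
  have hWb : W ≤ C * q ^ 5 := by rw [hW, ← hq5]; exact hLD.ΓXF s hs
  have hFb : F s ≤ C * q ^ 5 := by rw [← hq5]; exact hLD.Fm s hs
  have hgF : |gen r φ F s - 2 * (β s - γ * m s)| ≤ b * C * q + C * δ * q ^ 8 := by
    have := hLD.gF s hs
    rw [← hq, ← hq4] at this
    rw [← hq4]
    convert this using 3
    ring
  have hgX : |gen r φ X s| ≤ C + C * δ * q ^ 4 := by
    have h1 := hLD.gX s hs
    have h2 := hLD.gX' s hs
    rw [hq4]
    have h3 := abs_le.mp hc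
    have h4 : 0 ≤ C * δ * m s := by positivity
    rw [abs_le]
    constructor <;> linarith
  have hVq : V ≤ 2 * q ^ 4 + b * C * q := by
    have h1 := (abs_le.mp hVb).2
    have h2 := hLD.βm s hs
    rw [hq4]
    linarith
  -- one transition
  have hone : ∀ i, |(g0 (X (φ i s) + K) - g2 (X (φ i s) + K) * F (φ i s) / 2 -
      (g0 Y - g2 Y * F s / 2)) - (g1 Y * (X (φ i s) - X s) + g2 Y / 2 * (X (φ i s) - X s) ^ 2 -
        g2 Y / 2 * (F (φ i s) - F s) - F s * g3 Y / 2 * (X (φ i s) - X s))| ≤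
      (G3 + F s * G4) * (X (φ i s) - X s) ^ 2 + G3 * (|X (φ i s) - X s| * |F (φ i s) - F s|) := by
    intro i
    obtain ⟨z, hz⟩ : ∃ z, z = X (φ i s) + K := ⟨_, rfl⟩
    obtain ⟨f, hf⟩ : ∃ f, f = F (φ i s) - F s := ⟨_, rfl⟩
    have ha : X (φ i s) - X s = z - Y := by rw [hz, hY]; ring
    have hdX := hLD.dX i s hs
    rw [ha] at hdX ⊢
    rw [← hz]
    have hFi : F (φ i s) = F s + f := by rw [hf]; ring
    rw [hFi, show F s + f - F s = f by ring]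
    have hsg := hseg z hdX
    have D0 : ∀ y ∈ Set.uIcc Y z, HasDerivAt g0 (g1 y) y := fun y hy => d0 y (hsg y hy).2
    have D1 : ∀ y ∈ Set.uIcc Y z, HasDerivAt g1 (g2 y) y := fun y hy => d1 y (hsg y hy).2
    have D2 : ∀ y ∈ Set.uIcc Y z, HasDerivAt g2 (g3 y) y := fun y hy => d2 y (hsg y hy).2
    have D3 : ∀ y ∈ Set.uIcc Y z, HasDerivAt g3 (g4 y) y := fun y hy => d3 y (hsg y hy).2
    have R := tay2 g0 g1 g2 g3 Y z G3 D0 D1 D2 (hb3 z hdX) hG30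
    have P := tay1 g2 g3 g4 Y z G4 D2 D3 (hb4 z hdX) hG40 z Set.right_mem_uIcc
    have Q := mv g2 g3 Y z G3 D2 (hb3 z hdX) z Set.right_mem_uIcc
    have hsq : |z - Y| ^ 2 = (z - Y) ^ 2 := sq_abs _
    have hcube : |z - Y| ^ 3 ≤ (z - Y) ^ 2 := by
      rw [← hsq]
      exact pow_le_pow_of_le_one (abs_nonneg _) hdX (by norm_num)
    have R' : |g0 z - g0 Y - g1 Y * (z - Y) - g2 Y * (z - Y) ^ 2 / 2| ≤ G3 * (z - Y) ^ 2 :=
      R.trans (by gcongr)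
    rw [hsq] at P
    have P' : |F s / 2 * (g2 z - g2 Y - g3 Y * (z - Y))| ≤ F s / 2 * (G4 * (z - Y) ^ 2) := by
      rw [abs_mul, abs_of_nonneg (by positivity : 0 ≤ F s / 2)]
      gcongr
    have Q' : |f / 2 * (g2 z - g2 Y)| ≤ |f| / 2 * (G3 * |z - Y|) := by
      rw [abs_mul, abs_div, abs_of_pos (by norm_num : (0 : ℝ) < 2)]
      gcongr
    have e : g0 z - g2 z * (F s + f) / 2 - (g0 Y - g2 Y * F s / 2) -
        (g1 Y * (z - Y) + g2 Y / 2 * (z - Y) ^ 2 - g2 Y / 2 * f - F s * g3 Y / 2 * (z - Y)) =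
        (g0 z - g0 Y - g1 Y * (z - Y) - g2 Y * (z - Y) ^ 2 / 2) -
        F s / 2 * (g2 z - g2 Y - g3 Y * (z - Y)) - f / 2 * (g2 z - g2 Y) := by ring
    rw [e]
    have t1 := abs_sub (g0 z - g0 Y - g1 Y * (z - Y) - g2 Y * (z - Y) ^ 2 / 2 -
      F s / 2 * (g2 z - g2 Y - g3 Y * (z - Y))) (f / 2 * (g2 z - g2 Y))
    have t2 := abs_sub (g0 z - g0 Y - g1 Y * (z - Y) - g2 Y * (z - Y) ^ 2 / 2)
      (F s / 2 * (g2 z - g2 Y - g3 Y * (z - Y)))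
    have n1 : 0 ≤ F s * G4 * (z - Y) ^ 2 := by positivity
    have n2 : 0 ≤ |f| * (G3 * |z - Y|) := by positivity
    nlinarith
  -- summation
  have hsum : |gen r φ (fun s => g0 (X s + K) - g2 (X s + K) * F s / 2) s -
      (g1 Y * gen r φ X s + g2 Y / 2 * V - g2 Y / 2 * gen r φ F s -
        F s * g3 Y / 2 * gen r φ X s)| ≤ (G3 + F s * G4) * V + G3 * W := by
    have e1 : gen r φ (fun s => g0 (X s + K) - g2 (X s + K) * F s / 2) s -
      (g1 Y * gen r φ X s + g2 Y / 2 * V - g2 Y / 2 * gen r φ F s -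
        F s * g3 Y / 2 * gen r φ X s) =
        ∑ i, r i * ((g0 (X (φ i s) + K) - g2 (X (φ i s) + K) * F (φ i s) / 2 -
      (g0 Y - g2 Y * F s / 2)) - (g1 Y * (X (φ i s) - X s) + g2 Y / 2 * (X (φ i s) - X s) ^ 2 -
        g2 Y / 2 * (F (φ i s) - F s) - F s * g3 Y / 2 * (X (φ i s) - X s))) := by
      unfold gen
      rw [hV, Finset.mul_sum, Finset.mul_sum, Finset.mul_sum, Finset.mul_sum,
        ← Finset.sum_add_distrib, ← Finset.sum_sub_distrib, ← Finset.sum_sub_distrib,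
        ← Finset.sum_sub_distrib]
      refine Finset.sum_congr rfl fun i _ => ?_
      simp only
      rw [← hY]
      ring
    rw [e1]
    refine (Finset.abs_sum_le_sum_abs _ _).trans ?_
    rw [hV, hW, Finset.mul_sum, Finset.mul_sum, ← Finset.sum_add_distrib]
    refine Finset.sum_le_sum fun i _ => ?_
    rw [abs_mul, abs_of_nonneg (hLD.rn i)]
    refine (mul_le_mul_of_nonneg_left (hone i) (hLD.rn i)).trans (le_of_eq ?_)
    ring
  -- conclusion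
  obtain ⟨E, hE⟩ : ∃ E, E = |gen r φ (fun s => g0 (X s + K) - g2 (X s + K) * F s / 2) s -
      (g1 Y * gen r φ X s + γ * m s * g2 Y)| := ⟨_, rfl⟩
  rw [← hE]
  have hfin := poly C B Z q u b δ |g2 Y| G3 G4 |g3 Y| (F s) V W |gen r φ X s| E hC hB hZ0 hq0 hu0
    hu1 hqu hb0 hb1 hδ0 (abs_nonneg _)
    (by have := b2 Y (by linarith); rw [e8] at this; linarith) (abs_nonneg _)
    (by have := b3 Y (by linarith); rw [e12] at this; linarith) hG3 hG4 hF0 hFb hV0 hVq hWb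
    (abs_nonneg _) hgX ?_
  · rw [e11, e7, e4, ← hq4]
    refine hfin.trans (le_of_eq ?_)
    ring
  · rw [hE]
    have e2 : gen r φ (fun s => g0 (X s + K) - g2 (X s + K) * F s / 2) s -
        (g1 Y * gen r φ X s + γ * m s * g2 Y) =
        (gen r φ (fun s => g0 (X s + K) - g2 (X s + K) * F s / 2) s -
        (g1 Y * gen r φ X s + g2 Y / 2 * V - g2 Y / 2 * gen r φ F s -
          F s * g3 Y / 2 * gen r φ X s)) +
        (g2 Y / 2 * ((V - 2 * β s) - (gen r φ F s - 2 * (β s - γ * m s))) -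
          F s * g3 Y / 2 * gen r φ X s) := by ring
    rw [e2]
    refine (abs_add_le _ _).trans ?_
    have h1 : |g2 Y / 2 * ((V - 2 * β s) - (gen r φ F s - 2 * (β s - γ * m s)))| ≤
        |g2 Y| * (2 * (b * C * q) + C * δ * q ^ 8) := by
      rw [abs_mul, abs_div, abs_of_pos (by norm_num : (0 : ℝ) < 2)]
      have h2 := (abs_sub (V - 2 * β s) (gen r φ F s - 2 * (β s - γ * m s))).trans
        (add_le_add hVb hgF)
      have h3 : 0 ≤ |g2 Y| := abs_nonneg _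
      have h4 : 0 ≤ |V - 2 * β s - (gen r φ F s - 2 * (β s - γ * m s))| := abs_nonneg _
      calc |g2 Y| / 2 * |V - 2 * β s - (gen r φ F s - 2 * (β s - γ * m s))|
          ≤ |g2 Y| * |V - 2 * β s - (gen r φ F s - 2 * (β s - γ * m s))| := by
            gcongr; linarith
        _ ≤ |g2 Y| * (b * C * q + (b * C * q + C * δ * q ^ 8)) := by gcongr
        _ = _ := by ring
    have h5 : |F s * g3 Y / 2 * gen r φ X s| ≤ F s * |g3 Y| * |gen r φ X s| := by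
      rw [abs_mul, abs_div, abs_mul, abs_of_nonneg hF0, abs_of_pos (by norm_num : (0 : ℝ) < 2)]
      have h6 : 0 ≤ F s * |g3 Y| := by positivity
      gcongr
      linarith
    have h7 := abs_sub (g2 Y / 2 * ((V - 2 * β s) - (gen r φ F s - 2 * (β s - γ * m s))))
      (F s * g3 Y / 2 * gen r φ X s)
    nlinarith

end Pool.Agent.CAS
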