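import Pool.Agent.CAS.Basic

/-!
# Job C, part 1: Lyapunov functions for the product of two one-zealot systems
-/

set_option linter.unusedSectionVars false

open Finset Filter Topology MeasureTheory
open scoped BigOperators

namespace Pool.Agent.CAS

namespace C_

lemma hdr (c p : ℝ) {y : ℝ} (hy : 1 ≤ y) :
    HasDerivAt (fun y : ℝ => c * y ^ p) (c * p * y ^ (p - 1)) y := by
  have h0 : y ≠ 0 := by positivity
  have := (Real.hasDerivAt_rpow_const (x := y) (p := p) (Or.inl h0)).const_mul c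
  exact this.congr_deriv (by ring)

lemma hdr2 (c p c' p' : ℝ) {y : ℝ} (hy : 1 ≤ y) :
    HasDerivAt (fun y : ℝ => c * y ^ p + c' * y ^ p')
      (c * p * y ^ (p - 1) + c' * p' * y ^ (p' - 1)) y :=
  (hdr c p hy).add (hdr c' p' hy)

/-- quarter powers -/
lemma rq {Y : ℝ} (hY : 1 ≤ Y) (p : ℝ) (n : ℕ) (h : p = -((n : ℝ) / 4)) :
    Y ^ p = ((Y ^ (1 / 4 : ℝ)) ^ n)⁻¹ := by
  have h0 : (0 : ℝ) ≤ Y := by linarith
  rw [← Real.rpow_natCast, ← Real.rpow_mul h0, ← Real.rpow_neg h0, h]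
  congr 1
  ring

lemma q4 {Y : ℝ} (hY : 1 ≤ Y) : (Y ^ (1 / 4 : ℝ)) ^ 4 = Y := by
  have h0 : (0 : ℝ) ≤ Y := by linarith
  rw [← Real.rpow_natCast, ← Real.rpow_mul h0]
  norm_num

lemma q1 {Y : ℝ} (hY : 1 ≤ Y) : 1 ≤ Y ^ (1 / 4 : ℝ) := Real.one_le_rpow hY (by norm_num)

lemma q2 {Y a : ℝ} (hY : a ^ 2 ≤ Y) (hY1 : 1 ≤ Y) : a ≤ (Y ^ (1 / 4 : ℝ)) ^ 2 := by
  have h1 : ((Y ^ (1 / 4 : ℝ)) ^ 2) ^ 2 = Y := by rw [← pow_mul]; exact q4 hY1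
  have h2 : 0 ≤ (Y ^ (1 / 4 : ℝ)) ^ 2 := by positivity
  nlinarith [abs_le_of_sq_le_sq' (a := a) (b := (Y ^ (1 / 4 : ℝ)) ^ 2) (by rw [h1]; exact hY) h2]

/-- `m^{1/4} ≤ 2 Y^{1/4}` -/
lemma m14 {Y m : ℝ} (hY : 1 ≤ Y) (hm0 : 0 ≤ m) (hm : m ≤ 2 * Y) :
    m ^ (1 / 4 : ℝ) ≤ 2 * Y ^ (1 / 4 : ℝ) := by
  calc m ^ (1 / 4 : ℝ) ≤ (16 * Y) ^ (1 / 4 : ℝ) :=
        Real.rpow_le_rpow hm0 (by linarith) (by norm_num)
    _ = 16 ^ (1 / 4 : ℝ) * Y ^ (1 / 4 : ℝ) := Real.mul_rpow (by norm_num) (by linarith)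
    _ = 2 * Y ^ (1 / 4 : ℝ) := by
        congr 1
        rw [show (16 : ℝ) = 2 ^ (4 : ℝ) by norm_num, ← Real.rpow_mul (by norm_num)]
        norm_num

/-- `m^{5/4} ≤ 4 Y^{5/4}` -/
lemma m54 {Y m : ℝ} (hY : 1 ≤ Y) (hm0 : 0 ≤ m) (hm : m ≤ 2 * Y) :
    m ^ (5 / 4 : ℝ) ≤ 4 * (Y ^ (1 / 4 : ℝ)) ^ 5 := by
  have h1 : m ^ (5 / 4 : ℝ) = m * m ^ (1 / 4 : ℝ) := by
    rcases hm0.eq_or_lt with h | h
    · rw [← h, Real.zero_rpow (by norm_num), zero_mul]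
    · conv_rhs => rw [← Real.rpow_one m]
      rw [← Real.rpow_mul hm0, ← Real.rpow_add h]
      norm_num
  rw [h1]
  have h2 := m14 hY hm0 hm
  have h3 : 0 ≤ m ^ (1 / 4 : ℝ) := by positivity
  have h4 := q4 hY
  have h5 := q1 hY
  calc m * m ^ (1 / 4 : ℝ) ≤ (2 * Y) * (2 * Y ^ (1 / 4 : ℝ)) :=
        mul_le_mul hm h2 h3 (by linarith)
    _ = 4 * (Y * Y ^ (1 / 4 : ℝ)) := by ring
    _ = 4 * (Y ^ (1 / 4 : ℝ)) ^ 5 := by
        rw [pow_succ (Y ^ (1 / 4 : ℝ)) 4, h4]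

lemma smallu {u C C' : ℝ} (hC : 6 ≤ C) (hC' : 1 ≤ C')
    (hA : 8 * (5 * C + 189 * C') * u ^ 2 ≤ 1) : u ≤ 1 / 10 ∧ C * u ^ 2 ≤ 1 / 40 := by
  have h1 : 0 ≤ u ^ 2 := sq_nonneg u
  have h2 : 1 * u ^ 2 ≤ C' * u ^ 2 := mul_le_mul_of_nonneg_right hC' h1
  have h3 : 6 * u ^ 2 ≤ C * u ^ 2 := mul_le_mul_of_nonneg_right hC h1
  refine ⟨?_, by nlinarith⟩
  have h4 : u ^ 2 ≤ 1 / 1000 := by nlinarith
  nlinarith [sq_nonneg (u - 1 / 10)]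

/-- the first estimate in terms of `u = Y^{-1/4}` -/
lemma real1 {u m C C' δ γ gx gG : ℝ} (hu : 0 < u) (hC : 6 ≤ C) (hC' : 1 ≤ C')
    (hA : 8 * (5 * C + 189 * C') * u ^ 2 ≤ 1) (hγ1 : 4 / 5 ≤ γ) (hγ2 : γ ≤ 5 / 4) (hδ : 0 ≤ δ)
    (hm0 : 0 ≤ m) (hm2 : m * u ^ 4 ≤ 2) (hm1 : m * u ^ 4 ≤ 1 + 2 * C * u ^ 3)
    (hg1 : 2 * γ - C * δ * m ≤ gx)
    (he : gG - ((-u ^ 8 + 5 / 4 * u ^ 9) * gx + γ * m * (2 * u ^ 12 - 45 / 16 * u ^ 13)) ≤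
      C' * 63 * (m * u ^ 15 + 1 * u ^ 11 + δ * m * u ^ 8)) :
    gG ≤ -(1 / 8) * u ^ 9 + (C + 63 * C') * (δ * m) := by
  have hu2 : u ^ 2 ≤ 1 / 1000 := by nlinarith [sq_nonneg u]
  have hu1 : u ≤ 1 / 10 := by nlinarith [sq_nonneg (u - 1 / 10)]
  have hδm : 0 ≤ δ * m := mul_nonneg hδ hm0
  have p : ∀ n : ℕ, 0 < u ^ n := fun n => pow_pos hu n
  have p1 : ∀ n : ℕ, u ^ n ≤ 1 := fun n => pow_le_one₀ hu.le (by linarith)
  -- first term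
  have a0 : 0 ≤ u ^ 8 - 5 / 4 * u ^ 9 := by
    have : u ^ 9 = u ^ 8 * u := by ring
    nlinarith [p 8]
  have a1 : u ^ 8 - 5 / 4 * u ^ 9 ≤ 1 := by linarith [p1 8, p 9]
  have t1 : (-u ^ 8 + 5 / 4 * u ^ 9) * gx ≤ -2 * γ * (u ^ 8 - 5 / 4 * u ^ 9) + C * (δ * m) := by
    have h1 : (u ^ 8 - 5 / 4 * u ^ 9) * (2 * γ - C * δ * m) ≤ (u ^ 8 - 5 / 4 * u ^ 9) * gx :=
      mul_le_mul_of_nonneg_left hg1 a0
    have h2 : (u ^ 8 - 5 / 4 * u ^ 9) * (C * (δ * m)) ≤ 1 * (C * (δ * m)) :=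
      mul_le_mul_of_nonneg_right a1 (by positivity)
    linarith
  -- second term
  have b0 : 0 ≤ 2 * u ^ 8 - 45 / 16 * u ^ 9 := by
    have : u ^ 9 = u ^ 8 * u := by ring
    nlinarith [p 8]
  have t2 : γ * m * (2 * u ^ 12 - 45 / 16 * u ^ 13) ≤
      γ * (2 * u ^ 8 - 45 / 16 * u ^ 9) + 5 * C * u ^ 11 := by
    have h1 : γ * m * (2 * u ^ 12 - 45 / 16 * u ^ 13) =
        (m * u ^ 4) * (γ * (2 * u ^ 8 - 45 / 16 * u ^ 9)) := by ring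
    have h2 : (m * u ^ 4) * (γ * (2 * u ^ 8 - 45 / 16 * u ^ 9)) ≤
        (1 + 2 * C * u ^ 3) * (γ * (2 * u ^ 8 - 45 / 16 * u ^ 9)) :=
      mul_le_mul_of_nonneg_right hm1 (mul_nonneg (by linarith) b0)
    have h3 : 2 * C * u ^ 3 * (γ * (2 * u ^ 8 - 45 / 16 * u ^ 9)) ≤
        2 * C * u ^ 3 * (5 / 4 * (2 * u ^ 8)) := by
      refine mul_le_mul_of_nonneg_left (mul_le_mul hγ2 (by linarith [p 9]) b0 (by norm_num))
        (by positivity)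
    have h4 : 2 * C * u ^ 3 * (5 / 4 * (2 * u ^ 8)) = 5 * C * u ^ 11 := by ring
    linarith
  -- error terms
  have t3 : m * u ^ 15 ≤ 2 * u ^ 11 := by
    have : m * u ^ 15 = (m * u ^ 4) * u ^ 11 := by ring
    rw [this]
    exact mul_le_mul_of_nonneg_right hm2 (p 11).le
  have t4 : δ * m * u ^ 8 ≤ δ * m := by
    have := mul_le_mul_of_nonneg_left (p1 8) hδm
    linarith
  have t5 : C' * 63 * (m * u ^ 15 + 1 * u ^ 11 + δ * m * u ^ 8) ≤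
      C' * 63 * (3 * u ^ 11 + δ * m) :=
    mul_le_mul_of_nonneg_left (by linarith) (by positivity)
  have t6 : (5 * C + 189 * C') * u ^ 11 ≤ 1 / 8 * u ^ 9 := by
    have : (5 * C + 189 * C') * u ^ 11 = ((5 * C + 189 * C') * u ^ 2) * u ^ 9 := by ring
    rw [this]
    exact mul_le_mul_of_nonneg_right (by linarith) (p 9).le
  have t7 : 4 / 5 * u ^ 9 ≤ γ * u ^ 9 := mul_le_mul_of_nonneg_right hγ1 (p 9).le
  nlinarith [t1, t2, t5, t6, t7, he]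

/-- the second estimate -/
lemma real2 {u m C C' δ γ gx gG : ℝ} (hu : 0 < u) (hC : 6 ≤ C) (hC' : 1 ≤ C')
    (hA : 8 * (5 * C + 189 * C') * u ^ 2 ≤ 1) (hγ1 : 4 / 5 ≤ γ) (hγ2 : γ ≤ 5 / 4) (hδ : 0 ≤ δ)
    (hm0 : 0 ≤ m) (hm2 : m * u ^ 4 ≤ 2) (hm1 : m * u ^ 4 ≤ 1 + 2 * C * u ^ 3)
    (hg1 : 2 * γ - C * δ * m ≤ gx)
    (he : -(C' * 6 * (m * u ^ 11 + 1 * u ^ 7 + δ * m * u ^ 4)) ≤
      gG - (u ^ 4 * gx + γ * m * (-u ^ 8))) :
    1 / 2 * u ^ 4 - (C + 63 * C') * (δ * m) ≤ gG := by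
  have hu2 : u ^ 2 ≤ 1 / 1000 := by nlinarith [sq_nonneg u]
  have hu1 : u ≤ 1 / 10 := by nlinarith [sq_nonneg (u - 1 / 10)]
  have hδm : 0 ≤ δ * m := mul_nonneg hδ hm0
  have p : ∀ n : ℕ, 0 < u ^ n := fun n => pow_pos hu n
  have p1 : ∀ n : ℕ, u ^ n ≤ 1 := fun n => pow_le_one₀ hu.le (by linarith)
  have t1 : u ^ 4 * (2 * γ) - C * (δ * m) ≤ u ^ 4 * gx := by
    have h1 : u ^ 4 * (2 * γ - C * δ * m) ≤ u ^ 4 * gx := mul_le_mul_of_nonneg_left hg1 (p 4).le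
    have h2 : u ^ 4 * (C * (δ * m)) ≤ 1 * (C * (δ * m)) :=
      mul_le_mul_of_nonneg_right (p1 4) (by positivity)
    linarith
  have t2 : γ * m * u ^ 8 ≤ γ * u ^ 4 + 5 / 2 * C * u ^ 7 := by
    have h1 : γ * m * u ^ 8 = (m * u ^ 4) * (γ * u ^ 4) := by ring
    have h2 : (m * u ^ 4) * (γ * u ^ 4) ≤ (1 + 2 * C * u ^ 3) * (γ * u ^ 4) :=
      mul_le_mul_of_nonneg_right hm1 (mul_nonneg (by linarith) (p 4).le)
    have h3 : 2 * C * u ^ 3 * (γ * u ^ 4) ≤ 2 * C * u ^ 3 * (5 / 4 * u ^ 4) :=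
      mul_le_mul_of_nonneg_left (mul_le_mul_of_nonneg_right hγ2 (p 4).le) (by positivity)
    have h4 : 2 * C * u ^ 3 * (5 / 4 * u ^ 4) = 5 / 2 * C * u ^ 7 := by ring
    linarith
  have t3 : m * u ^ 11 ≤ 2 * u ^ 7 := by
    have : m * u ^ 11 = (m * u ^ 4) * u ^ 7 := by ring
    rw [this]
    exact mul_le_mul_of_nonneg_right hm2 (p 7).le
  have t4 : δ * m * u ^ 4 ≤ δ * m := by
    have := mul_le_mul_of_nonneg_left (p1 4) hδm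
    linarith
  have t5 : C' * 6 * (m * u ^ 11 + 1 * u ^ 7 + δ * m * u ^ 4) ≤ C' * 6 * (3 * u ^ 7 + δ * m) :=
    mul_le_mul_of_nonneg_left (by linarith) (by positivity)
  have t6 : (5 / 2 * C + 18 * C') * u ^ 7 ≤ 1 / 8 * u ^ 4 := by
    have h1 : (5 / 2 * C + 18 * C') * u ^ 7 = ((5 / 2 * C + 18 * C') * u ^ 3) * u ^ 4 := by ring
    rw [h1]
    refine mul_le_mul_of_nonneg_right ?_ (p 4).le
    have h2 : u ^ 3 ≤ u ^ 2 := by
      have : u ^ 3 = u ^ 2 * u := by ring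
      nlinarith [p 2]
    have h3 : (5 / 2 * C + 18 * C') * u ^ 3 ≤ (5 * C + 189 * C') * u ^ 2 :=
      mul_le_mul (by linarith) h2 (p 3).le (by linarith)
    linarith
  have t7 : 4 / 5 * u ^ 4 ≤ γ * u ^ 4 := mul_le_mul_of_nonneg_right hγ1 (p 4).le
  have t8 : C' * (δ * m) * 6 ≤ C' * (δ * m) * 63 :=
    mul_le_mul_of_nonneg_left (by norm_num) (by positivity)
  nlinarith [t1, t2, t5, t6, t7, t8, he]

/-! ## The two functions -/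

section Core

variable {S I : Type} [Finite S] [Fintype I] {r : I → ℝ} {φ : I → S → S} {Inv : S → Prop}
  {X F m β : S → ℝ} {γ δ C C' K : ℝ}

/-- first function -/
noncomputable def G1 (X F : S → ℝ) (K : ℝ) (s : S) : ℝ :=
  (1 * (X s + K) ^ (-1 : ℝ) + (-1) * (X s + K) ^ (-(5 / 4) : ℝ)) -
    (2 * (X s + K) ^ (-3 : ℝ) + (-(45 / 16)) * (X s + K) ^ (-(13 / 4) : ℝ)) * F s / 2

/-- second function -/
noncomputable def G2 (X F : S → ℝ) (K : ℝ) (s : S) : ℝ :=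
  Real.log (X s + K) - ((-1) * (X s + K) ^ (-2 : ℝ)) * F s / 2

/-- the conclusion of `T_CALC` -/
def CalcC (r : I → ℝ) (φ : I → S → S) (Inv : S → Prop) (X F m : S → ℝ) (γ δ b C' : ℝ) : Prop :=
  ∀ (K : ℝ), C' ≤ K → ∀ (σ B : ℝ) (g0 g1 g2 g3 g4 : ℝ → ℝ), -1 ≤ σ → σ ≤ 2 → 0 ≤ B →
  (∀ y, 1 ≤ y → HasDerivAt g0 (g1 y) y) → (∀ y, 1 ≤ y → HasDerivAt g1 (g2 y) y) →
  (∀ y, 1 ≤ y → HasDerivAt g2 (g3 y) y) → (∀ y, 1 ≤ y → HasDerivAt g3 (g4 y) y) →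
  (∀ y, 1 ≤ y → |g2 y| ≤ B * y ^ (-σ - 2)) → (∀ y, 1 ≤ y → |g3 y| ≤ B * y ^ (-σ - 3)) →
  (∀ y, 1 ≤ y → |g4 y| ≤ B * y ^ (-σ - 4)) →
  ∀ s, Inv s → m s ≤ 2 * (X s + K) ∧
    |gen r φ (fun s => g0 (X s + K) - g2 (X s + K) * F s / 2) s -
      (g1 (X s + K) * gen r φ X s + γ * m s * g2 (X s + K))| ≤
      C' * B * (m s * (X s + K) ^ (-σ - 11 / 4) + b * (X s + K) ^ (-σ - 7 / 4) +
        δ * m s * (X s + K) ^ (-σ - 1))

lemma babs {a b c p p' y B : ℝ} (hy : 1 ≤ y) (hp' : p' ≤ p) (hB : |a| + |b| ≤ B) (hc : c = p) :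
    |a * y ^ p + b * y ^ p'| ≤ B * y ^ c := by
  subst hc
  have h1 : y ^ p' ≤ y ^ c := Real.rpow_le_rpow_of_exponent_le hy hp'
  have h2 : 0 ≤ y ^ c := by positivity
  have h3 : 0 ≤ y ^ p' := by positivity
  calc |a * y ^ c + b * y ^ p'| ≤ |a * y ^ c| + |b * y ^ p'| := abs_add_le _ _
    _ = |a| * y ^ c + |b| * y ^ p' := by rw [abs_mul, abs_mul, abs_of_nonneg h2, abs_of_nonneg h3]
    _ ≤ |a| * y ^ c + |b| * y ^ c := by
        have := mul_le_mul_of_nonneg_left h1 (abs_nonneg b)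
        linarith
    _ = (|a| + |b|) * y ^ c := by ring
    _ ≤ B * y ^ c := mul_le_mul_of_nonneg_right hB h2

lemma babs1 {a c p y B : ℝ} (hy : 1 ≤ y) (hB : |a| ≤ B) (hc : c = p) :
    |a * y ^ p| ≤ B * y ^ c := by
  subst hc
  have h2 : 0 ≤ y ^ c := by positivity
  rw [abs_mul, abs_of_nonneg h2]
  exact mul_le_mul_of_nonneg_right hB h2

lemma calc1 (hc : CalcC r φ Inv X F m γ δ 1 C') (hK : C' ≤ K) {s : S} (hs : Inv s) :
    m s ≤ 2 * (X s + K) ∧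
    |gen r φ (G1 X F K) s -
      ((-1 * (X s + K) ^ (-2 : ℝ) + 5 / 4 * (X s + K) ^ (-(9 / 4) : ℝ)) * gen r φ X s +
        γ * m s * (2 * (X s + K) ^ (-3 : ℝ) + (-(45 / 16)) * (X s + K) ^ (-(13 / 4) : ℝ)))| ≤
      C' * 63 * (m s * (X s + K) ^ (-(15 / 4) : ℝ) + 1 * (X s + K) ^ (-(11 / 4) : ℝ) +
        δ * m s * (X s + K) ^ (-2 : ℝ)) := by
  have h := hc K hK 1 63
    (fun y => 1 * y ^ (-1 : ℝ) + (-1) * y ^ (-(5 / 4) : ℝ))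
    (fun y => -1 * y ^ (-2 : ℝ) + 5 / 4 * y ^ (-(9 / 4) : ℝ))
    (fun y => 2 * y ^ (-3 : ℝ) + (-(45 / 16)) * y ^ (-(13 / 4) : ℝ))
    (fun y => -6 * y ^ (-4 : ℝ) + (585 / 64) * y ^ (-(17 / 4) : ℝ))
    (fun y => 24 * y ^ (-5 : ℝ) + (-(9945 / 256)) * y ^ (-(21 / 4) : ℝ))
    (by norm_num) (by norm_num) (by norm_num)
    (fun y hy => (hdr2 _ _ _ _ hy).congr_deriv (by norm_num))
    (fun y hy => (hdr2 _ _ _ _ hy).congr_deriv (by norm_num))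
    (fun y hy => (hdr2 _ _ _ _ hy).congr_deriv (by norm_num))
    (fun y hy => (hdr2 _ _ _ _ hy).congr_deriv (by norm_num))
    (fun y hy => babs hy (by norm_num) (by norm_num [abs_of_nonneg, abs_of_neg]) (by norm_num))
    (fun y hy => babs hy (by norm_num) (by norm_num [abs_of_nonneg, abs_of_neg]) (by norm_num))
    (fun y hy => babs hy (by norm_num) (by norm_num [abs_of_nonneg, abs_of_neg]) (by norm_num))
    s hs
  norm_num at h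
  refine ⟨h.1, ?_⟩
  have h2 := h.2
  unfold G1
  norm_num
  exact h2

lemma calc2 (hc : CalcC r φ Inv X F m γ δ 1 C') (hK : C' ≤ K) {s : S} (hs : Inv s) :
    |gen r φ (G2 X F K) s -
      ((1 * (X s + K) ^ (-1 : ℝ)) * gen r φ X s +
        γ * m s * ((-1) * (X s + K) ^ (-2 : ℝ)))| ≤
      C' * 6 * (m s * (X s + K) ^ (-(11 / 4) : ℝ) + 1 * (X s + K) ^ (-(7 / 4) : ℝ) +
        δ * m s * (X s + K) ^ (-1 : ℝ)) := by
  have h := hc K hK 0 6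
    (fun y => Real.log y)
    (fun y => 1 * y ^ (-1 : ℝ))
    (fun y => (-1) * y ^ (-2 : ℝ))
    (fun y => 2 * y ^ (-3 : ℝ))
    (fun y => -6 * y ^ (-4 : ℝ))
    (by norm_num) (by norm_num) (by norm_num)
    (fun y hy => (Real.hasDerivAt_log (by positivity)).congr_deriv (by
      rw [Real.rpow_neg_one, one_mul]))
    (fun y hy => (hdr _ _ hy).congr_deriv (by norm_num))
    (fun y hy => (hdr _ _ hy).congr_deriv (by norm_num))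
    (fun y hy => (hdr _ _ hy).congr_deriv (by norm_num))
    (fun y hy => babs1 hy (by norm_num [abs_of_nonneg, abs_of_neg]) (by norm_num))
    (fun y hy => babs1 hy (by norm_num [abs_of_nonneg, abs_of_neg]) (by norm_num))
    (fun y hy => babs1 hy (by norm_num [abs_of_nonneg, abs_of_neg]) (by norm_num))
    s hs
  norm_num at h
  have h2 := h.2
  unfold G2
  norm_num
  exact h2

lemma rq' {Y : ℝ} (hY : 1 ≤ Y) (p : ℝ) (n : ℕ) (h : p = -((n : ℝ) / 4)) :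
    Y ^ p = ((Y ^ (1 / 4 : ℝ))⁻¹) ^ n := by
  rw [rq hY p n h, inv_pow]

/-- the collected estimates -/
lemma core (hL : LD r φ Inv X F m β (2 * γ) γ δ C 1) (hc : CalcC r φ Inv X F m γ δ 1 C')
    (hC : 6 ≤ C) (hC' : 1 ≤ C') (hγ1 : 4 / 5 ≤ γ) (hγ2 : γ ≤ 5 / 4) (hδ : 0 ≤ δ) (hK : C' ≤ K)
    (hK2 : (8 * (5 * C + 189 * C')) ^ 2 ≤ K) {s : S} (hs : Inv s) :
    (0 ≤ G1 X F K s ∧ G1 X F K s ≤ (X s + K) ^ (-1 : ℝ) ∧
      gen r φ (G1 X F K) s ≤ -(1 / 8) * (X s + K) ^ (-(9 / 4) : ℝ) +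
        (C + 63 * C') * (δ * m s)) ∧
    (0 ≤ G2 X F K s ∧ G2 X F K s ≤ Real.log (X s + K) + 1 ∧
      1 / 2 * (X s + K) ^ (-1 : ℝ) - (C + 63 * C') * (δ * m s) ≤ gen r φ (G2 X F K) s) := by
  have hX0 := hL.X0 s hs
  have hK1 : 1 ≤ K := hC'.trans hK
  have hY : 1 ≤ X s + K := by linarith
  obtain ⟨hm2, h1⟩ := calc1 hc hK hs
  have h2 := calc2 hc hK hs
  have hm0 := hL.m0 s hs
  have hmX := hL.mX s hs
  have hgl := hL.gX' s hs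
  have hF0 := hL.F0 s hs
  have hFm := hL.Fm s hs
  have h14 := m14 hY hm0 hm2
  have h54 := m54 hY hm0 hm2
  have hq4 := q4 hY
  have hq1 := q1 hY
  have ha : (0 : ℝ) ≤ 8 * (5 * C + 189 * C') := by positivity
  have hq2 := q2 (hK2.trans (by linarith : K ≤ X s + K)) hY
  have eG1 : G1 X F K s = (1 * (X s + K) ^ (-1 : ℝ) + (-1) * (X s + K) ^ (-(5 / 4) : ℝ)) -
    (2 * (X s + K) ^ (-3 : ℝ) + (-(45 / 16)) * (X s + K) ^ (-(13 / 4) : ℝ)) * F s / 2 := rfl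
  have eG2 : G2 X F K s = Real.log (X s + K) - ((-1) * (X s + K) ^ (-2 : ℝ)) * F s / 2 := rfl
  rw [eG1, eG2]
  generalize gen r φ (G1 X F K) s = gG1 at *
  generalize gen r φ (G2 X F K) s = gG2 at *
  generalize gen r φ X s = gX at *
  rw [rq' hY (-1) 4 (by norm_num), rq' hY (-(5 / 4)) 5 (by norm_num),
    rq' hY (-3) 12 (by norm_num), rq' hY (-(13 / 4)) 13 (by norm_num),
    rq' hY (-(9 / 4)) 9 (by norm_num), rq' hY (-2) 8 (by norm_num)]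
  rw [rq' hY (-2) 8 (by norm_num), rq' hY (-(9 / 4)) 9 (by norm_num),
    rq' hY (-3) 12 (by norm_num), rq' hY (-(13 / 4)) 13 (by norm_num),
    rq' hY (-(15 / 4)) 15 (by norm_num), rq' hY (-(11 / 4)) 11 (by norm_num)] at h1
  rw [rq' hY (-1) 4 (by norm_num), rq' hY (-2) 8 (by norm_num),
    rq' hY (-(11 / 4)) 11 (by norm_num), rq' hY (-(7 / 4)) 7 (by norm_num)] at h2
  set q : ℝ := (X s + K) ^ (1 / 4 : ℝ) with hq
  have hq0 : 0 < q := by linarith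
  set u : ℝ := q⁻¹ with hu
  have hu0 : 0 < u := inv_pos.2 hq0
  have hqu : q * u = 1 := mul_inv_cancel₀ hq0.ne'
  have hA : 8 * (5 * C + 189 * C') * u ^ 2 ≤ 1 := by
    have h3 : q ^ 2 * u ^ 2 = 1 := by rw [← mul_pow, hqu, one_pow]
    have h4 := mul_le_mul_of_nonneg_right hq2 (sq_nonneg u)
    linarith
  have h44 : (X s + K) * u ^ 4 = 1 := by rw [← hq4, ← mul_pow, hqu, one_pow]
  have hm2' : m s * u ^ 4 ≤ 2 := by
    have := mul_le_mul_of_nonneg_right hm2 (pow_pos hu0 4).le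
    linarith
  have hm1 : m s * u ^ 4 ≤ 1 + 2 * C * u ^ 3 := by
    have h3 : m s ≤ (X s + K) + 2 * C * q := by
      have := mul_le_mul_of_nonneg_left h14 (by positivity : (0 : ℝ) ≤ C)
      linarith
    have h4 := mul_le_mul_of_nonneg_right h3 (pow_pos hu0 4).le
    have h5 : ((X s + K) + 2 * C * q) * u ^ 4 = 1 + 2 * C * u ^ 3 := by
      have : q * u ^ 4 = u ^ 3 := by
        calc q * u ^ 4 = (q * u) * u ^ 3 := by ring
          _ = u ^ 3 := by rw [hqu, one_mul]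
      linear_combination h44 + 2 * C * this
    linarith
  have hF5 : F s * u ^ 5 ≤ 4 * C := by
    have h3 : F s ≤ C * (4 * q ^ 5) := hFm.trans (mul_le_mul_of_nonneg_left h54 (by positivity))
    have h4 := mul_le_mul_of_nonneg_right h3 (pow_pos hu0 5).le
    have h5 : C * (4 * q ^ 5) * u ^ 5 = 4 * C * (q * u) ^ 5 := by ring
    rw [h5, hqu, one_pow, mul_one] at h4
    exact h4
  have hgx : 2 * γ - C * δ * m s ≤ gX := hgl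
  have r1 := real1 (gG := gG1) hu0 hC hC' hA hγ1 hγ2 hδ hm0 hm2' hm1 hgx (by
    have := (abs_le.1 h1).2
    linarith)
  have r2 := real2 (gG := gG2) hu0 hC hC' hA hγ1 hγ2 hδ hm0 hm2' hm1 hgx (by
    have := (abs_le.1 h2).1
    linarith)
  obtain ⟨hu1, hCu⟩ := smallu hC hC' hA
  have hF12 : F s * u ^ 12 ≤ 1 / 10 * u ^ 5 := by
    have h3 : F s * u ^ 12 = (F s * u ^ 5) * u ^ 7 := by ring
    have h4 := mul_le_mul_of_nonneg_right hF5 (pow_pos hu0 7).le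
    have h5 : 4 * C * u ^ 7 = 4 * (C * u ^ 2) * u ^ 5 := by ring
    have h6 := mul_le_mul_of_nonneg_right hCu (pow_pos hu0 5).le
    linarith
  have hF13 : F s * u ^ 13 ≤ F s * u ^ 12 * (1 / 10) := by
    have h3 : F s * u ^ 13 = (F s * u ^ 12) * u := by ring
    rw [h3]
    exact mul_le_mul_of_nonneg_left hu1 (mul_nonneg hF0 (pow_pos hu0 12).le)
  have hF120 : 0 ≤ F s * u ^ 12 := mul_nonneg hF0 (pow_pos hu0 12).le
  have hF130 : 0 ≤ F s * u ^ 13 := mul_nonneg hF0 (pow_pos hu0 13).le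
  have hF80 : 0 ≤ F s * u ^ 8 := mul_nonneg hF0 (pow_pos hu0 8).le
  have hF8 : F s * u ^ 8 ≤ 1 := by
    have h3 : F s * u ^ 8 = (F s * u ^ 5) * u ^ 3 := by ring
    have h4 := mul_le_mul_of_nonneg_right hF5 (pow_pos hu0 3).le
    have h5 : 4 * C * u ^ 3 = 4 * (C * u ^ 2) * u := by ring
    have h6 := mul_le_mul_of_nonneg_right hCu hu0.le
    linarith
  have h45 : u ^ 5 ≤ 1 / 10 * u ^ 4 := by
    have h3 : u ^ 5 = u * u ^ 4 := by ring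
    rw [h3]
    exact mul_le_mul_of_nonneg_right hu1 (pow_pos hu0 4).le
  have hp5 := pow_pos hu0 5
  have hlog : 0 ≤ Real.log (X s + K) := Real.log_nonneg hY
  refine ⟨⟨?_, ?_, ?_⟩, ?_, ?_, ?_⟩
  · linarith
  · linarith
  · exact r1
  · linarith
  · linarith
  · exact r2

end Core

end C_

end Pool.Agent.CAS
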