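import Pool.Agent.CAS.CLOCK3

/-!
# Job CLOCK: Poisson clocks and the semigroup
-/

open Finset Filter Topology MeasureTheory
open scoped BigOperators ENNReal

namespace Pool.Agent.CAS.CLOCK_

section MP

variable {A B : Type*} [MeasurableSpace A] [MeasurableSpace B]

lemma mp_prod {α : Measure A} {β : Measure B} [IsProbabilityMeasure α] [IsProbabilityMeasure β]
    {u : A × A → A} {v : B × B → B} (hu : MeasurePreserving u (α.prod α) α)
    (hv : MeasurePreserving v (β.prod β) β) :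
    MeasurePreserving (fun z : (A × B) × (A × B) => (u (z.1.1, z.2.1), v (z.1.2, z.2.2)))
      ((α.prod β).prod (α.prod β)) (α.prod β) := by
  have hm : Measurable (fun z : (A × B) × (A × B) => (u (z.1.1, z.2.1), v (z.1.2, z.2.2))) :=
    (hu.measurable.comp (by fun_prop)).prodMk (hv.measurable.comp (by fun_prop))
  refine ⟨hm, (Measure.prod_eq fun s t hs ht => ?_).symm⟩
  rw [Measure.map_apply hm (hs.prod ht), Measure.prod_apply (hm (hs.prod ht))]
  have h1 : ∀ z : A × B, (α.prod β) (Prod.mk z ⁻¹' ((fun z : (A × B) × (A × B) =>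
      (u (z.1.1, z.2.1), v (z.1.2, z.2.2))) ⁻¹' (s ×ˢ t))) =
      α (Prod.mk z.1 ⁻¹' (u ⁻¹' s)) * β (Prod.mk z.2 ⁻¹' (v ⁻¹' t)) := by
    intro z
    rw [← Measure.prod_prod]
    rfl
  simp only [h1]
  rw [lintegral_prod_mul (f := fun a => α (Prod.mk a ⁻¹' (u ⁻¹' s)))
    (g := fun b => β (Prod.mk b ⁻¹' (v ⁻¹' t)))
    (measurable_measure_prodMk_left (hu.measurable hs)).aemeasurable
    (measurable_measure_prodMk_left (hv.measurable ht)).aemeasurable,
    ← Measure.prod_apply (hu.measurable hs), ← Measure.prod_apply (hv.measurable ht),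
    hu.measure_preimage hs.nullMeasurableSet, hv.measure_preimage ht.nullMeasurableSet]

end MP

section Main

variable {d : ℕ} {S : Type}

/-- mixing of two samples: the block `T` is taken from the second one -/
noncomputable def mx (T : ℕ) (z : Om3 d × Om3 d) : Om3 d :=
  (mix (fun q => q.2 = T) z.1.1 z.2.1, mix (fun a => a.2.1 = T) z.1.2.1 z.2.2.1,
    mix (fun a => a.2.1 = T) z.1.2.2 z.2.2.2)

lemma mx_mp (hd : 1 ≤ d) (T : ℕ) :
    MeasurePreserving (mx T) ((clkM d).prod (clkM d)) (clkM d) := by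
  have h0 := dirM_prob hd
  have h1 := dM_prob hd
  have a1 := mix_mp (fun _ : Zd d × ℕ => ProbabilityTheory.poissonMeasure 1) (fun q => q.2 = T)
  have a2 := mix_mp (fun _ : Zd d × ℕ × ℕ => uniM) (fun a => a.2.1 = T)
  have a3 := mix_mp (fun _ : Zd d × ℕ × ℕ => dirM d) (fun a => a.2.1 = T)
  change MeasurePreserving _ ((cM d).prod (cM d)) (cM d) at a1
  change MeasurePreserving _ ((tM (Zd d × ℕ × ℕ)).prod (tM (Zd d × ℕ × ℕ)))
    (tM (Zd d × ℕ × ℕ)) at a2
  change MeasurePreserving _ ((dM d).prod (dM d)) (dM d) at a3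
  rw [clkM_eq]
  exact mp_prod a1 (mp_prod a2 a3)

lemma isort_congr {K : Type*} {r r' : K → K → Prop} [DecidableRel r] [DecidableRel r']
    {l : List K} (h : ∀ a ∈ l, ∀ b ∈ l, (r a b ↔ r' a b)) :
    l.insertionSort r = l.insertionSort r' := by
  have := List.map_insertionSort r r' id l h
  simpa using this

lemma srt_congr {t t' : Zd d × ℕ × ℕ → ℝ} {e e' : Zd d × ℕ × ℕ → Dir d}
    {A : Finset (Zd d × ℕ × ℕ)} (ht : ∀ a ∈ A, t a = t' a) (he : ∀ a ∈ A, e a = e' a) :
    srt t e A = srt t' e' A := by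
  unfold srt
  rw [isort_congr (r' := fun a b => (a.2.1 : ℝ) + t' a ≤ (b.2.1 : ℝ) + t' b)]
  · refine List.map_congr_left fun a ha => ?_
    rw [he a]
    rw [List.mem_insertionSort, Finset.mem_toList] at ha
    exact ha
  · intro a ha b hb
    rw [Finset.mem_toList] at ha hb
    rw [ht a ha, ht b hb]

lemma srt_succ {t : Zd d × ℕ × ℕ → ℝ} (ht : Good (fun a => (a.2.1 : ℝ)) t)
    (e : Zd d × ℕ × ℕ → Dir d) (c : Zd d × ℕ → ℕ) (B : Finset (Zd d)) (T : ℕ) :
    srt t e (evs c B (T + 1)) = srt t e (evs c B T) ++ srt t e (blk c B T) := by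
  unfold srt
  rw [← List.map_append]
  congr 1
  have h1 : Std.Total (fun a b : Zd d × ℕ × ℕ => (a.2.1 : ℝ) + t a ≤ (b.2.1 : ℝ) + t b) :=
    ⟨fun a b => le_total _ _⟩
  have h2 : IsTrans (Zd d × ℕ × ℕ) (fun a b => (a.2.1 : ℝ) + t a ≤ (b.2.1 : ℝ) + t b) :=
    ⟨fun a b c => le_trans⟩
  refine (sort_iff ht (fun _ _ => Iff.rfl)).2 ⟨?_, ?_⟩
  · refine ((List.perm_insertionSort _ _).append (List.perm_insertionSort _ _)).trans ?_
    rw [List.perm_ext_iff_of_nodup]
    · intro a
      rw [List.mem_append, Finset.mem_toList, Finset.mem_toList, Finset.mem_toList, mem_evs,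
        mem_evs, mem_blk]
      constructor
      · rintro (⟨h1, h2, h3⟩ | ⟨h1, h2, h3⟩)
        · exact ⟨h1, by omega, h3⟩
        · exact ⟨h1, by omega, by rw [h2]; exact h3⟩
      · rintro ⟨h1, h2, h3⟩
        rcases Nat.lt_succ_iff_lt_or_eq.1 h2 with h | h
        · exact Or.inl ⟨h1, h, h3⟩
        · exact Or.inr ⟨h1, h, by rw [← h]; exact h3⟩
    · refine List.Nodup.append (Finset.nodup_toList _) (Finset.nodup_toList _) ?_
      intro a h3 h4
      rw [Finset.mem_toList, mem_evs] at h3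
      rw [Finset.mem_toList, mem_blk] at h4
      omega
    · exact Finset.nodup_toList _
  · rw [List.pairwise_append]
    refine ⟨List.pairwise_insertionSort _ _, List.pairwise_insertionSort _ _, ?_⟩
    intro a ha b hb
    rw [List.mem_insertionSort, Finset.mem_toList, mem_evs] at ha
    rw [List.mem_insertionSort, Finset.mem_toList, mem_blk] at hb
    have h3 : (a.2.1 : ℝ) + 1 ≤ b.2.1 := by
      rw [hb.2.1]
      exact_mod_cast ha.2.1
    have h4 := (ht.1 a).2
    have h5 := (ht.1 b).1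
    linarith

lemma good_clk (hd : 1 ≤ d) : ∀ᵐ ω ∂(clkM d), Good (fun a => (a.2.1 : ℝ)) ω.2.1 := by
  have h1 := dM_prob hd
  have h2 : MeasurePreserving (fun ω : Om3 d => ω.2.1) (clkM d) (tM (Zd d × ℕ × ℕ)) := by
    rw [clkM_eq]
    exact measurePreserving_fst.comp measurePreserving_snd
  exact h2.quasiMeasurePreserving.ae (good_ae _)

theorem main (hd : 1 ≤ d) (B : Finset (Zd d)) (φ : Zd d × Dir d → S → S) (T : ℕ) :
    ∀ (f : S → ℝ) (b : ℝ), (∀ s, |f s| ≤ b) → ∀ s0 : S,
    ∫ ω, f ((rgs ω.1 ω.2.1 ω.2.2 B T).foldl (fun s a => φ a s) s0) ∂(clkM d) =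
      sg (fun _ : B × Dir d => ra d) (fun a s => φ (a.1.1, a.2) s) T f s0 := by
  have hclk := clkM_prob hd
  induction T with
  | zero =>
    intro f b hb s0
    have h1 : ∀ ω : Om3 d, f ((rgs ω.1 ω.2.1 ω.2.2 B 0).foldl (fun s a => φ a s) s0) = f s0 := by
      intro ω
      have : evs ω.1 B 0 = ∅ := by
        ext a
        rw [mem_evs]
        simp
      rw [rgs_eq, this]
      simp [srt]
    simp only [h1]
    rw [integral_const, probReal_univ, one_smul, Nat.cast_zero, sg_zero]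
  | succ T ih =>
    intro f b hb s0
    have hra : ∀ i : B × Dir d, 0 ≤ (fun _ : B × Dir d => ra d) i := fun _ => ra_nonneg d
    set F : Om3 d → ℝ := fun ω => f ((srt ω.2.1 ω.2.2 (blk ω.1 B T)).foldl (fun s a => φ a s)
      ((srt ω.2.1 ω.2.2 (evs ω.1 B T)).foldl (fun s a => φ a s) s0)) with hF
    have e1 : ∀ᵐ ω ∂(clkM d), f ((rgs ω.1 ω.2.1 ω.2.2 B (T + 1)).foldl (fun s a => φ a s) s0) =
        F ω := by
      filter_upwards [good_clk hd] with ω hω
      rw [rgs_eq, srt_succ hω, List.foldl_append]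
    have hFm : Measurable F := by
      have h1 := (CM.srt_comp (CM.blk B T)).map₂ (CM.srt_comp (CM.evs B T)) (Prod.mk)
      exact h1.measurable fun w => f (w.1.foldl (fun s a => φ a s)
        (w.2.foldl (fun s a => φ a s) s0))
    have hmp := mx_mp hd T
    have e2 : ∫ ω, F ω ∂(clkM d) = ∫ z, F (mx T z) ∂((clkM d).prod (clkM d)) := by
      rw [← hmp.map_eq, integral_map hmp.measurable.aemeasurable]
      rw [hmp.map_eq]
      exact hFm.aestronglyMeasurable
    have e3 : ∀ z : Om3 d × Om3 d, F (mx T z) =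
        f ((srt z.2.2.1 z.2.2.2 (blk z.2.1 B T)).foldl (fun s a => φ a s)
        ((srt z.1.2.1 z.1.2.2 (evs z.1.1 B T)).foldl (fun s a => φ a s) s0)) := by
      intro z
      simp only [hF, mx]
      have h1 : blk (mix (fun q => q.2 = T) z.1.1 z.2.1) B T = blk z.2.1 B T := by
        ext a
        rw [mem_blk, mem_blk, mix_pos (p := fun q : Zd d × ℕ => q.2 = T) rfl]
      have h2 : evs (mix (fun q => q.2 = T) z.1.1 z.2.1) B T = evs z.1.1 B T := by
        ext a
        rw [mem_evs, mem_evs]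
        refine and_congr_right fun h1 => and_congr_right fun h2 => ?_
        rw [mix_neg (p := fun q : Zd d × ℕ => q.2 = T) (ne_of_lt h2)]
      rw [h1, h2]
      have h3 : ∀ a ∈ blk z.2.1 B T, a.2.1 = T := fun a ha => (mem_blk.1 ha).2.1
      have h4 : ∀ a ∈ evs z.1.1 B T, ¬ a.2.1 = T := fun a ha => ne_of_lt (mem_evs.1 ha).2.1
      rw [srt_congr (A := blk z.2.1 B T) (t' := z.2.2.1) (e' := z.2.2.2)
        (fun a ha => mix_pos (p := fun a : Zd d × ℕ × ℕ => a.2.1 = T) (h3 a ha))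
        (fun a ha => mix_pos (p := fun a : Zd d × ℕ × ℕ => a.2.1 = T) (h3 a ha)),
        srt_congr (A := evs z.1.1 B T) (t' := z.1.2.1) (e' := z.1.2.2)
        (fun a ha => mix_neg (p := fun a : Zd d × ℕ × ℕ => a.2.1 = T) (h4 a ha))
        (fun a ha => mix_neg (p := fun a : Zd d × ℕ × ℕ => a.2.1 = T) (h4 a ha))]
    rw [integral_congr_ae e1, e2]
    simp only [e3]
    rw [integral_prod]
    swap
    · have h1 : CM fun z : Om3 d × Om3 d => (srt z.2.2.1 z.2.2.2 (blk z.2.1 B T),
          srt z.1.2.1 z.1.2.2 (evs z.1.1 B T)) :=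
        ((CM.srt_comp (CM.blk B T)).comp_meas measurable_snd).map₂
          ((CM.srt_comp (CM.evs B T)).comp_meas measurable_fst) Prod.mk
      exact h1.integrable (F := fun w => f (w.1.foldl (fun s a => φ a s)
        (w.2.foldl (fun s a => φ a s) s0))) fun w => hb _
    simp only [blk_int hd hb B T]
    have hb' : ∀ s, |sg (fun _ : B × Dir d => ra d) (fun a s => φ (a.1.1, a.2) s) 1 f s| ≤ b :=
      fun s => sg_abs_le hra hb zero_le_one s
    have h5 := ih (fun s => sg (fun _ : B × Dir d => ra d) (fun a s => φ (a.1.1, a.2) s) 1 f s)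
      b hb' s0
    simp only [rgs_eq] at h5
    rw [h5]
    push_cast
    exact (sg_sg (Bd.grF hra ⟨b, hb⟩) _ _ _).symm

end Main

end Pool.Agent.CAS.CLOCK_

namespace Pool.Agent.CAS

theorem t_CLOCK : T_CLOCK := by
  intro d hd B T S φ f hf s0
  obtain ⟨b, hb⟩ := hf
  constructor
  · exact (CLOCK_.CM.srt_comp (CLOCK_.CM.evs B T)).measurable
      fun w => f (w.foldl (fun s a => φ a s) s0)
  · exact CLOCK_.main hd B φ T f b hb s0

end Pool.Agent.CAS
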