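import Pool.Agent.CAS.Targets

/-!
# Job CLOCK, part 1: measurability, mixing of product measures, order of the ring times
-/

open Finset Filter Topology MeasureTheory
open scoped BigOperators ENNReal

namespace Pool.Agent.CAS.CLOCK_

/-! ## Functions with countably many values -/

section CM

variable {Ω α β γ : Type*} [MeasurableSpace Ω]

/-- all the level sets are measurable -/
def CM (g : Ω → α) : Prop := ∀ a, MeasurableSet (g ⁻¹' {a})

lemma CM.const (a : α) : CM (fun _ : Ω => a) := by
  intro b
  by_cases h : a = b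
  · subst h
    have : (fun _ : Ω => a) ⁻¹' {a} = Set.univ := by ext; simp
    rw [this]; exact MeasurableSet.univ
  · have : (fun _ : Ω => a) ⁻¹' {b} = ∅ := by ext; simp [h]
    rw [this]; exact MeasurableSet.empty

lemma CM.bind [Countable α] {g : Ω → α} (hg : CM g) {G : α → Ω → β} (hG : ∀ a, CM (G a)) :
    CM fun ω => G (g ω) ω := by
  intro b
  have : (fun ω => G (g ω) ω) ⁻¹' {b} = ⋃ a, (g ⁻¹' {a} ∩ G a ⁻¹' {b}) := by
    ext ω; simp
  rw [this]
  exact MeasurableSet.iUnion fun a => (hg a).inter (hG a b)

lemma CM.comp [Countable α] {g : Ω → α} (hg : CM g) (h : α → β) : CM fun ω => h (g ω) :=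
  hg.bind (G := fun a _ => h a) fun a => CM.const (h a)

lemma CM.map₂ [Countable α] [Countable β] {g : Ω → α} (hg : CM g) {g' : Ω → β} (hg' : CM g')
    (h : α → β → γ) : CM fun ω => h (g ω) (g' ω) :=
  hg.bind (G := fun a ω => h a (g' ω)) fun a => hg'.comp (h a)

lemma CM.ite {p : Ω → Prop} [DecidablePred p] (hp : MeasurableSet {ω | p ω}) {g g' : Ω → α}
    (hg : CM g) (hg' : CM g') : CM fun ω => if p ω then g ω else g' ω := by
  intro a
  have : (fun ω => if p ω then g ω else g' ω) ⁻¹' {a} =
      ({ω | p ω} ∩ g ⁻¹' {a}) ∪ ({ω | p ω}ᶜ ∩ g' ⁻¹' {a}) := by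
    ext ω
    by_cases h : p ω <;> simp [h]
  rw [this]
  exact (hp.inter (hg a)).union (hp.compl.inter (hg' a))

lemma CM.comp_meas {Ω' : Type*} [MeasurableSpace Ω'] {g : Ω → α} (hg : CM g) {h : Ω' → Ω}
    (hh : Measurable h) : CM fun ω => g (h ω) := fun a => hh (hg a)

lemma CM.measurable [Countable α] {g : Ω → α} (hg : CM g) {X : Type*} [MeasurableSpace X]
    (F : α → X) : Measurable fun ω => F (g ω) := by
  intro s _
  have : (fun ω => F (g ω)) ⁻¹' s = ⋃ a ∈ F ⁻¹' s, g ⁻¹' {a} := by
    ext ω; simp
  rw [this]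
  exact MeasurableSet.biUnion (Set.to_countable _) fun a _ => hg a

lemma CM.of_measurable [MeasurableSpace α] [MeasurableSingletonClass α] {g : Ω → α}
    (hg : Measurable g) : CM g := fun a => hg (measurableSet_singleton a)

end CM

/-! ## Mixing two samples of a product measure -/

section Mix

variable {ι : Type*} {X : Type*}

open Classical in
/-- the coordinates with `p` are taken from `y`, the others from `x` -/
noncomputable def mix (p : ι → Prop) (x y : ι → X) : ι → X := fun i => if p i then y i else x i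

lemma mix_pos {p : ι → Prop} {x y : ι → X} {i : ι} (h : p i) : mix p x y i = y i := by
  simp [mix, h]

lemma mix_neg {p : ι → Prop} {x y : ι → X} {i : ι} (h : ¬ p i) : mix p x y i = x i := by
  simp [mix, h]

variable [MeasurableSpace X]

lemma mix_meas (p : ι → Prop) : Measurable fun z : (ι → X) × (ι → X) => mix p z.1 z.2 := by
  refine measurable_pi_lambda _ fun i => ?_
  by_cases h : p i
  · simp only [mix_pos h]; fun_prop
  · simp only [mix_neg h]; fun_prop

lemma mix_mp (μ : ι → Measure X) [∀ i, IsProbabilityMeasure (μ i)] (p : ι → Prop) :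
    MeasurePreserving (fun z : (ι → X) × (ι → X) => mix p z.1 z.2)
      ((Measure.infinitePi μ).prod (Measure.infinitePi μ)) (Measure.infinitePi μ) := by
  classical
  refine ⟨mix_meas p, ?_⟩
  refine Measure.eq_infinitePi μ fun s t ht => ?_
  rw [Measure.map_apply (mix_meas p) (MeasurableSet.pi s.countable_toSet fun i _ => ht i)]
  have h1 : (fun z : (ι → X) × (ι → X) => mix p z.1 z.2) ⁻¹' (Set.pi s t) =
      (Set.pi (s.filter fun i => ¬ p i : Finset ι) t) ×ˢ
        (Set.pi (s.filter fun i => p i : Finset ι) t) := by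
    ext z
    simp only [Set.mem_preimage, Set.mem_pi, Set.mem_prod, Finset.coe_filter,
      Set.mem_ofPred_eq, Finset.mem_coe]
    constructor
    · intro h
      refine ⟨fun i hi => ?_, fun i hi => ?_⟩
      · have := h i hi.1
        rwa [mix_neg hi.2] at this
      · have := h i hi.1
        rwa [mix_pos hi.2] at this
    · rintro ⟨h1, h2⟩ i hi
      by_cases hp : p i
      · rw [mix_pos hp]; exact h2 i ⟨hi, hp⟩
      · rw [mix_neg hp]; exact h1 i ⟨hi, hp⟩
  rw [h1, Measure.prod_prod, Measure.infinitePi_pi _ fun i _ => ht i,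
    Measure.infinitePi_pi _ fun i _ => ht i, mul_comm]
  exact Finset.prod_filter_mul_prod_filter_not s p fun i => μ i (t i)

/-- reindexing by an injective map from a finite set -/
lemma sub_mp (μ : Measure X) [IsProbabilityMeasure μ] {J : Type*} [Fintype J] {g : J → ι}
    (hg : Function.Injective g) :
    MeasurePreserving (fun (x : ι → X) (i : J) => x (g i))
      (Measure.infinitePi fun _ : ι => μ) (Measure.pi fun _ : J => μ) := by
  classical
  refine ⟨by fun_prop, ?_⟩
  refine (Measure.pi_eq fun s hs => ?_).symm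
  rw [Measure.map_apply (by fun_prop) (MeasurableSet.univ_pi hs)]
  have h1 : (fun (x : ι → X) (i : J) => x (g i)) ⁻¹' (Set.pi Set.univ s) =
      Set.pi (Finset.univ.image g : Finset ι)
        (fun j => if h : ∃ i, g i = j then s h.choose else Set.univ) := by
    ext x
    simp only [Set.mem_preimage, Set.mem_pi, Set.mem_univ, true_imp_iff, Finset.coe_image,
      Finset.coe_univ, Set.image_univ, Set.mem_range, forall_exists_index,
      forall_apply_eq_imp_iff]
    refine forall_congr' fun i => ?_
    have h : ∃ i', g i' = g i := ⟨i, rfl⟩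
    rw [dif_pos h, hg h.choose_spec]
  rw [h1, Measure.infinitePi_pi, Finset.prod_image fun i _ j _ h => hg h]
  · refine Finset.prod_congr rfl fun i _ => ?_
    have h : ∃ i', g i' = g i := ⟨i, rfl⟩
    rw [dif_pos h, hg h.choose_spec]
  · intro j _
    by_cases h : ∃ i, g i = j
    · rw [dif_pos h]; exact hs _
    · rw [dif_neg h]; exact MeasurableSet.univ

end Mix

/-! ## The uniform measure -/

instance : IsProbabilityMeasure uniM := by
  constructor
  simp [uniM]

instance : NullSingletonClass uniM := by
  unfold uniM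
  infer_instance

lemma dirM_prob {d : ℕ} (hd : 1 ≤ d) : IsProbabilityMeasure (dirM d) := by
  constructor
  unfold dirM
  rw [Measure.smul_apply, Measure.count_univ, ENat.card_eq_coe_fintype_card, Fintype.card_prod,
    Fintype.card_fin, Fintype.card_bool, smul_eq_mul]
  have h : ((d * 2 : ℕ) : ℝ≥0∞) = ENNReal.ofReal (d * 2) := by
    rw [ENNReal.ofReal_mul (by positivity), ENNReal.ofReal_natCast]
    push_cast
    norm_num
  have h1 : (1 : ℝ) ≤ d := by exact_mod_cast hd
  calc ENNReal.ofReal (ra d) * (((d * 2 : ℕ) : ℕ∞) : ℝ≥0∞) = ENNReal.ofReal (ra d) * ENNReal.ofReal (d * 2) := by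
        rw [← h]; norm_cast
    _ = 1 := by
        rw [← ENNReal.ofReal_mul (by unfold ra; positivity)]
        unfold ra
        rw [show 1 / (2 * (d : ℝ)) * (d * 2) = 1 by field_simp]
        simp

lemma dirM_int {d : ℕ} (F : Dir d → ℝ) : ∫ e, F e ∂(dirM d) = ∑ e, ra d * F e := by
  unfold dirM
  rw [integral_smul_measure, integral_count, ENNReal.toReal_ofReal (by unfold ra; positivity),
    smul_eq_mul, Finset.mul_sum]

section Ties

variable {K : Type*}

/-- the product of uniform measures -/
noncomputable def tM (K : Type*) : Measure (K → ℝ) := Measure.infinitePi fun _ : K => uniM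

instance : IsProbabilityMeasure (tM K) := by unfold tM; infer_instance

lemma tM_ne {a b : K} (h : a ≠ b) (c : ℝ) : ∀ᵐ x ∂(tM K), x b ≠ x a + c := by
  classical
  have hmp := mix_mp (fun _ : K => uniM) (fun i => i = b)
  change MeasurePreserving _ ((tM K).prod (tM K)) (tM K) at hmp
  have hS : MeasurableSet {x : K → ℝ | x b = x a + c} :=
    measurableSet_eq_fun (by fun_prop) (by fun_prop)
  rw [ae_iff]
  have h0 : {x : K → ℝ | ¬ x b ≠ x a + c} = {x : K → ℝ | x b = x a + c} := by ext; simp
  rw [h0, ← hmp.measure_preimage hS.nullMeasurableSet, Measure.prod_apply (hmp.measurable hS)]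
  refine (lintegral_congr fun x => ?_).trans lintegral_zero
  have h1 : (Prod.mk x ⁻¹' ((fun z : (K → ℝ) × (K → ℝ) => mix (fun i => i = b) z.1 z.2) ⁻¹'
      {x : K → ℝ | x b = x a + c})) = (fun y : K → ℝ => y b) ⁻¹' {x a + c} := by
    ext y
    simp only [Set.mem_preimage, Set.mem_ofPred_eq, Set.mem_singleton_iff]
    rw [mix_pos (p := fun i => i = b) (i := b) rfl, mix_neg (p := fun i => i = b) h]
  have h2 := measurePreserving_eval_infinitePi (fun _ : K => uniM) b
  change MeasurePreserving (fun y : K → ℝ => y b) (tM K) uniM at h2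
  rw [h1, h2.measure_preimage (measurableSet_singleton _).nullMeasurableSet]
  exact measure_singleton _

lemma tM_mem (a : K) : ∀ᵐ x ∂(tM K), x a ∈ Set.Icc (0 : ℝ) 1 := by
  have h := measurePreserving_eval_infinitePi (fun _ : K => uniM) a
  change MeasurePreserving _ (tM K) _ at h
  refine h.quasiMeasurePreserving.ae (p := fun t : ℝ => t ∈ Set.Icc (0 : ℝ) 1) ?_
  unfold uniM
  exact ae_restrict_mem measurableSet_Icc

/-- the times lie in the unit interval and there are no ties -/
def Good (of : K → ℝ) (x : K → ℝ) : Prop :=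
  (∀ a, x a ∈ Set.Icc (0 : ℝ) 1) ∧ ∀ a b, a ≠ b → of b + x b ≠ of a + x a

lemma good_ae [Countable K] (of : K → ℝ) : ∀ᵐ x ∂(tM K), Good of x := by
  refine (ae_all_iff.2 fun a => tM_mem a).and ?_
  refine ae_all_iff.2 fun a => ae_all_iff.2 fun b => ?_
  by_cases h : a = b
  · exact Filter.Eventually.of_forall fun x h' => absurd h h'
  · filter_upwards [tM_ne h (of a - of b)] with x hx _ h'
    apply hx
    linarith

/-- probability that the times are increasing along the list `l` -/
noncomputable def qq (l : List K) : ℝ := (tM K).real {x | (l.map x).Pairwise (· < ·)}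

/-- the order polytope -/
noncomputable def QN (N : ℕ) : ℝ :=
  (Measure.pi fun _ : Fin N => uniM).real {x | (List.ofFn x).Pairwise (· < ·)}

lemma pw_meas {N : ℕ} : MeasurableSet {x : Fin N → ℝ | (List.ofFn x).Pairwise (· < ·)} := by
  have : {x : Fin N → ℝ | (List.ofFn x).Pairwise (· < ·)} =
      ⋂ (i : Fin N) (j : Fin N) (_ : i < j), {x | x i < x j} := by
    ext x
    simp only [Set.mem_ofPred_eq, Set.mem_iInter]
    rw [List.pairwise_ofFn]
  rw [this]
  refine MeasurableSet.iInter fun i => MeasurableSet.iInter fun j => MeasurableSet.iInter fun _ => ?_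
  exact measurableSet_lt (by fun_prop) (by fun_prop)

lemma map_eq_ofFn (l : List K) (x : K → ℝ) : l.map x = List.ofFn fun i : Fin l.length => x (l.get i) := by
  conv_lhs => rw [← List.ofFn_get l]
  rw [List.map_ofFn]
  rfl

lemma pwl_meas (l : List K) : MeasurableSet {x : K → ℝ | (l.map x).Pairwise (· < ·)} := by
  have h : Measurable fun (x : K → ℝ) (i : Fin l.length) => x (l.get i) := by fun_prop
  have := h (pw_meas (N := l.length))
  convert! this using 1
  ext x
  simp only [Set.mem_ofPred_eq, Set.mem_preimage]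
  rw [map_eq_ofFn]

lemma qq_eq {l : List K} (hl : l.Nodup) : qq l = QN l.length := by
  have h := sub_mp (ι := K) uniM (g := l.get) (List.nodup_iff_injective_get.1 hl)
  change MeasurePreserving _ (tM K) _ at h
  unfold qq QN
  rw [measureReal_def, measureReal_def]
  congr 1
  rw [← h.measure_preimage pw_meas.nullMeasurableSet]
  congr 1
  ext x
  simp only [Set.mem_ofPred_eq, Set.mem_preimage]
  rw [map_eq_ofFn]

end Ties

/-! ## Sorting -/

section Srt

variable {K : Type*} {Ω : Type*} [MeasurableSpace Ω]

lemma CM.orderedInsert [Countable K] {r : Ω → K → K → Prop} [∀ ω, DecidableRel (r ω)]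
    (hr : ∀ a b, MeasurableSet {ω | r ω a b}) (a : K) (l : List K) :
    CM fun ω => l.orderedInsert (r ω) a := by
  induction l with
  | nil => exact CM.const _
  | cons b l ih =>
    simp only [List.orderedInsert_cons]
    exact CM.ite (hr a b) (CM.const _) (ih.comp _)

lemma CM.insertionSort [Countable K] {r : Ω → K → K → Prop} [∀ ω, DecidableRel (r ω)]
    (hr : ∀ a b, MeasurableSet {ω | r ω a b}) (l : List K) :
    CM fun ω => l.insertionSort (r ω) := by
  induction l with
  | nil => exact CM.const _
  | cons a l ih =>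
    simp only [List.insertionSort_cons]
    exact ih.bind (G := fun l ω => l.orderedInsert (r ω) a) fun l => CM.orderedInsert hr a l

lemma sort_iff {of x : K → ℝ} (hx : Good of x) {r : K → K → Prop} [DecidableRel r]
    (hr : ∀ a b, r a b ↔ of a + x a ≤ of b + x b) {L l : List K} :
    L.insertionSort r = l ↔ l.Perm L ∧ l.Pairwise r := by
  have h1 : Std.Total r := ⟨fun a b => by rw [hr, hr]; exact le_total _ _⟩
  have h2 : IsTrans K r := ⟨fun a b c => by rw [hr, hr, hr]; exact le_trans⟩
  constructor
  · rintro rfl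
    exact ⟨List.perm_insertionSort r L, List.pairwise_insertionSort r L⟩
  · rintro ⟨h3, h4⟩
    refine List.Perm.eq_of_pairwise (le := r) ?_ (List.pairwise_insertionSort r L) h4
      ((List.perm_insertionSort r L).trans h3.symm)
    intro a b _ _ hab hba
    by_contra h
    exact hx.2 a b h (le_antisymm ((hr b a).1 hba) ((hr a b).1 hab))

lemma pw_iff {of x : K → ℝ} (hx : Good of x) {r : K → K → Prop}
    (hr : ∀ a b, r a b ↔ of a + x a ≤ of b + x b) {τ : ℝ} {l : List K} (hl : l.Nodup)
    (hof : ∀ a ∈ l, of a = τ) : l.Pairwise r ↔ (l.map x).Pairwise (· < ·) := by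
  rw [List.pairwise_map]
  constructor
  · intro h
    refine (h.and hl).imp_of_mem ?_
    rintro a b ha hb ⟨h1, h2⟩
    rw [hr, hof a ha, hof b hb] at h1
    refine lt_of_le_of_ne (by linarith) fun h3 => ?_
    have := hx.2 a b h2
    rw [hof a ha, hof b hb, h3] at this
    exact this rfl
  · intro h
    refine h.imp_of_mem ?_
    intro a b ha hb h1
    rw [hr, hof a ha, hof b hb]
    linarith

open Classical in
lemma order_aux [Countable K] {of : K → ℝ} {r : (K → ℝ) → K → K → Prop}
    [∀ x, DecidableRel (r x)] (hr : ∀ x a b, r x a b ↔ of a + x a ≤ of b + x b) {τ : ℝ}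
    {L : List K} (hL : L.Nodup) (hof : ∀ a ∈ L, of a = τ) (h : List K → ℝ) :
    ∫ x, h (L.insertionSort (r x)) ∂(tM K) = QN L.length * (L.permutations.map h).sum := by
  have hP : L.permutations.Nodup := List.nodup_permutations L hL
  have e1 : ∀ᵐ x ∂(tM K), h (L.insertionSort (r x)) = ∑ l ∈ L.permutations.toFinset,
      Set.indicator {x : K → ℝ | (l.map x).Pairwise (· < ·)} (fun _ => h l) x := by
    filter_upwards [good_ae of] with x hx
    have hs := (sort_iff hx (hr x) (L := L)).1 rfl
    have hm : L.insertionSort (r x) ∈ L.permutations.toFinset := by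
      rw [List.mem_toFinset, List.mem_permutations]
      exact hs.1
    rw [Finset.sum_eq_single_of_mem _ hm]
    · rw [Set.indicator_of_mem]
      exact (pw_iff hx (hr x) (hs.1.nodup_iff.2 hL) fun a ha => hof a (hs.1.mem_iff.1 ha)).1 hs.2
    · intro l hl hne
      rw [List.mem_toFinset, List.mem_permutations] at hl
      refine Set.indicator_of_notMem (fun h' => hne ?_) _
      have h3 : l.Pairwise (r x) :=
        (pw_iff hx (hr x) (hl.nodup_iff.2 hL) fun a ha => hof a (hl.mem_iff.1 ha)).2 h'
      exact ((sort_iff hx (hr x)).2 ⟨hl, h3⟩).symm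
  rw [integral_congr_ae e1, integral_finsetSum]
  · rw [← List.sum_toFinset h hP, Finset.mul_sum]
    refine Finset.sum_congr rfl fun l hl => ?_
    rw [List.mem_toFinset, List.mem_permutations] at hl
    rw [integral_indicator (pwl_meas l), setIntegral_const, smul_eq_mul]
    have : (tM K).real {x : K → ℝ | (l.map x).Pairwise (· < ·)} = qq l := rfl
    rw [this, qq_eq (hl.nodup_iff.2 hL), hl.length_eq]
  · intro l _
    exact (integrable_const _).indicator (pwl_meas l)

lemma order_int [Countable K] {of : K → ℝ} {r : (K → ℝ) → K → K → Prop}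
    [∀ x, DecidableRel (r x)] (hr : ∀ x a b, r x a b ↔ of a + x a ≤ of b + x b) {τ : ℝ}
    {L : List K} (hL : L.Nodup) (hof : ∀ a ∈ L, of a = τ) (h : List K → ℝ) :
    ∫ x, h (L.insertionSort (r x)) ∂(tM K) =
      ((L.length.factorial : ℕ) : ℝ)⁻¹ * (L.permutations.map h).sum := by
  have h1 := order_aux hr hL hof fun _ => 1
  rw [integral_const, probReal_univ, one_smul] at h1
  simp only [List.map_const', List.sum_replicate, List.length_permutations, nsmul_eq_mul,
    mul_one] at h1
  rw [order_aux hr hL hof h]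
  congr 1
  exact eq_inv_of_mul_eq_one_left h1.symm

end Srt

end Pool.Agent.CAS.CLOCK_
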