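import Pool.Agent.CAS.CLOCK1
import Pool.Agent.CAS.Basic

/-!
# Job CLOCK, part 2: words, directions, multinomial identity
-/

open Finset Filter Topology MeasureTheory
open scoped BigOperators ENNReal

namespace Pool.Agent.CAS.CLOCK_

/-! ## Multinomial identity -/

section Multi

variable {β : Type*} [Fintype β] [DecidableEq β]

lemma multinom (N : ℕ) (G : (β → ℕ) → ℝ) :
    ∑ k ∈ Finset.piAntidiag Finset.univ N, (Nat.multinomial Finset.univ k : ℝ) * G k =
      ∑ w : Fin N → β, G fun z => (Finset.univ.filter fun i => w i = z).card := by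
  classical
  let Λ : MvPolynomial β ℝ →ₗ[ℝ] ℝ :=
    (MvPolynomial.basisMonomials β ℝ).constr ℝ fun m => G (fun z => m z)
  have hΛ : ∀ m : β →₀ ℕ, Λ (MvPolynomial.monomial m 1) = G (fun z => m z) := by
    intro m
    have := (MvPolynomial.basisMonomials β ℝ).constr_basis ℝ (fun m => G (fun z => m z)) m
    rw [MvPolynomial.coe_basisMonomials] at this
    exact this
  have h1 := Fintype.sum_pow (fun z : β => (MvPolynomial.X z : MvPolynomial β ℝ)) N
  have h2 := Finset.sum_pow_eq_sum_piAntidiag Finset.univ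
    (fun z : β => (MvPolynomial.X z : MvPolynomial β ℝ)) N
  have h3 : ∀ k : β → ℕ, ∏ z, (MvPolynomial.X z : MvPolynomial β ℝ) ^ k z =
      MvPolynomial.monomial (Finsupp.equivFunOnFinite.symm k) 1 := by
    intro k
    rw [MvPolynomial.monomial_eq, map_one, one_mul, Finsupp.prod_fintype _ _ (by simp)]
    rfl
  have h4 : ∀ w : Fin N → β, ∏ i, (MvPolynomial.X (w i) : MvPolynomial β ℝ) =
      MvPolynomial.monomial (∑ i, Finsupp.single (w i) 1) 1 := by
    intro w
    rw [MvPolynomial.monomial_sum_one]
    rfl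
  rw [h2] at h1
  have h5 := congrArg Λ h1
  rw [map_sum, map_sum] at h5
  have h6 : ∀ k : β → ℕ, Λ ((Nat.multinomial Finset.univ k : MvPolynomial β ℝ) *
      ∏ z, (MvPolynomial.X z : MvPolynomial β ℝ) ^ k z) =
      (Nat.multinomial Finset.univ k : ℝ) * G k := by
    intro k
    rw [← nsmul_eq_mul, map_nsmul, h3, hΛ, nsmul_eq_mul]
    rfl
  have h7 : ∀ w : Fin N → β, Λ (∏ i, (MvPolynomial.X (w i) : MvPolynomial β ℝ)) =
      G fun z => (Finset.univ.filter fun i => w i = z).card := by
    intro w
    rw [h4, hΛ]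
    congr 1
    funext z
    rw [Finsupp.finsetSum_apply]
    simp only [Finsupp.single_apply]
    rw [Finset.card_filter]
  simp only [h6, h7] at h5
  exact h5

lemma multinom' (N : ℕ) (G : (β → ℕ) → ℝ) :
    ∑ k ∈ Finset.piAntidiag Finset.univ N, (∏ z, ((k z).factorial : ℝ)⁻¹) * G k =
      ((N.factorial : ℕ) : ℝ)⁻¹ *
        ∑ w : Fin N → β, G fun z => (Finset.univ.filter fun i => w i = z).card := by
  rw [← multinom, Finset.mul_sum]
  refine Finset.sum_congr rfl fun k hk => ?_
  rw [Finset.mem_piAntidiag] at hk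
  have h1 := Nat.multinomial_spec Finset.univ k
  rw [hk.1] at h1
  have h2 : (∏ z, ((k z).factorial : ℝ)) * (Nat.multinomial Finset.univ k : ℝ) =
      ((N.factorial : ℕ) : ℝ) := by exact_mod_cast h1
  have h3 : (∏ z, ((k z).factorial : ℝ)) ≠ 0 :=
    Finset.prod_ne_zero_iff.2 fun z _ => by positivity
  have h4 : ((N.factorial : ℕ) : ℝ) ≠ 0 := by positivity
  rw [Finset.prod_inv_distrib, ← mul_assoc]
  congr 1
  rw [← h2] at h4 ⊢
  have h5 := right_ne_zero_of_mul h4
  field_simp

end Multi

/-! ## Averaging over words -/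

section Words

variable {β γ : Type*}

lemma sum_perm {l l' : List β} (h : l.Perm l') (g : List β → ℝ) :
    (l.permutations.map g).sum = (l'.permutations.map g).sum :=
  ((h.permutations).map g).sum_eq

lemma words_avg [Fintype β] (N : ℕ) (g : List β → ℝ) :
    ∑ w : Fin N → β, (((List.ofFn w).permutations).map g).sum =
      (N.factorial : ℝ) * ∑ w : Fin N → β, g (List.ofFn w) := by
  classical
  set P := (List.finRange N).permutations with hP
  have hPn : P.Nodup := List.nodup_permutations _ (List.nodup_finRange N)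
  have h1 : ∀ w : Fin N → β, (((List.ofFn w).permutations).map g).sum =
      ∑ p ∈ P.toFinset, g (p.map w) := by
    intro w
    rw [List.ofFn_eq_map, ← List.map_permutations, List.map_map,
      List.sum_toFinset (fun p => g (p.map w)) hPn]
    rfl
  have h2 : ∀ p ∈ P.toFinset, ∑ w : Fin N → β, g (p.map w) = ∑ w : Fin N → β, g (List.ofFn w) := by
    intro p hp
    rw [List.mem_toFinset, hP, List.mem_permutations] at hp
    have hl : p.length = N := by rw [hp.length_eq, List.length_finRange]
    have hn : p.Nodup := hp.nodup_iff.2 (List.nodup_finRange N)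
    have hinj : Function.Injective fun i : Fin N => p.get (i.cast hl.symm) :=
      fun i j h => Fin.cast_injective _ (List.nodup_iff_injective_get.1 hn h)
    let σ : Equiv.Perm (Fin N) := Equiv.ofBijective _ (Finite.injective_iff_bijective.1 hinj)
    refine Fintype.sum_equiv (Equiv.arrowCongr σ.symm (Equiv.refl β)) _ _ fun w => ?_
    congr 1
    refine List.ext_getElem (by simp [hl]) fun i h1 h2 => ?_
    rw [List.getElem_map, List.getElem_ofFn]
    rfl
  simp only [h1]
  rw [Finset.sum_comm, Finset.sum_congr rfl h2, Finset.sum_const, List.toFinset_card_of_nodup hPn,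
    hP, List.length_permutations, List.length_finRange, nsmul_eq_mul]

end Words

/-! ## Directions -/

section Dirs

variable {d : ℕ} {S : Type}

/-- expectation over the directions, for a given word of labels -/
noncomputable def Qw (φ : Zd d × Dir d → S → S) : List (Zd d) → (S → ℝ) → S → ℝ
  | [], f, s => f s
  | z :: w, f, s => ∑ e : Dir d, ra d * Qw φ w f (φ (z, e) s)

lemma Qw_bound (hd : 1 ≤ d) {φ : Zd d × Dir d → S → S} {f : S → ℝ} {b : ℝ}
    (hb : ∀ s, |f s| ≤ b) (w : List (Zd d)) : ∀ s, |Qw φ w f s| ≤ b := by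
  induction w with
  | nil => exact hb
  | cons z w ih =>
    intro s
    calc |Qw φ (z :: w) f s| ≤ ∑ e : Dir d, |ra d * Qw φ w f (φ (z, e) s)| :=
          Finset.abs_sum_le_sum_abs _ _
      _ ≤ ∑ e : Dir d, ra d * b := by
          refine Finset.sum_le_sum fun e _ => ?_
          rw [abs_mul, abs_of_nonneg (ra_nonneg d)]
          exact mul_le_mul_of_nonneg_left (ih _) (ra_nonneg d)
      _ = b := by rw [← Finset.sum_mul, sum_ra hd, one_mul]

/-- a bounded function of a random variable with countably many values is integrable -/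
lemma CM.integrable {Ω α : Type*} [MeasurableSpace Ω] [Countable α] {μ : Measure Ω}
    [IsFiniteMeasure μ] {g : Ω → α} (hg : CM g) {F : α → ℝ} {b : ℝ} (hF : ∀ a, |F a| ≤ b) :
    Integrable (fun ω => F (g ω)) μ :=
  Integrable.of_bound (hg.measurable F).aestronglyMeasurable b
    (Filter.Eventually.of_forall fun ω => hF (g ω))

/-- the law of the directions -/
noncomputable def dM (d : ℕ) : Measure (Zd d × ℕ × ℕ → Dir d) :=
  Measure.infinitePi fun _ : Zd d × ℕ × ℕ => dirM d

lemma dM_prob (hd : 1 ≤ d) : IsProbabilityMeasure (dM d) := by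
  have := dirM_prob hd
  unfold dM
  infer_instance

lemma CM.eval_dir (a : Zd d × ℕ × ℕ) : CM fun e : Zd d × ℕ × ℕ → Dir d => e a :=
  CM.of_measurable (by fun_prop)

lemma CM.map_dir (l : List (Zd d × ℕ × ℕ)) :
    CM fun e : Zd d × ℕ × ℕ → Dir d => l.map fun a => (a.1, e a) := by
  induction l with
  | nil => exact CM.const _
  | cons a l ih =>
    simp only [List.map_cons]
    exact (CM.eval_dir a).map₂ ih fun x y => (a.1, x) :: y

lemma dir_int (hd : 1 ≤ d) {φ : Zd d × Dir d → S → S} {f : S → ℝ} {b : ℝ} (hb : ∀ s, |f s| ≤ b)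
    {l : List (Zd d × ℕ × ℕ)} (hl : l.Nodup) : ∀ s : S,
    ∫ e, f ((l.map fun a => (a.1, e a)).foldl (fun s a => φ a s) s) ∂(dM d) =
      Qw φ (l.map Prod.fst) f s := by
  have := dirM_prob hd
  have := dM_prob hd
  induction l with
  | nil =>
    intro s
    simp only [List.map_nil, List.foldl_nil, Qw]
    rw [integral_const, probReal_univ, one_smul]
  | cons a l ih =>
    intro s
    rw [List.nodup_cons] at hl
    have hmp := mix_mp (fun _ : Zd d × ℕ × ℕ => dirM d) (fun i => i = a)
    change MeasurePreserving _ ((dM d).prod (dM d)) (dM d) at hmp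
    have hcm : CM fun e : Zd d × ℕ × ℕ → Dir d => (a :: l).map fun a => (a.1, e a) :=
      CM.map_dir (a :: l)
    have e1 : ∫ e, f (((a :: l).map fun a => (a.1, e a)).foldl (fun s a => φ a s) s) ∂(dM d) =
        ∫ z, f (((a :: l).map fun b => (b.1, mix (fun i => i = a) z.1 z.2 b)).foldl
          (fun s a => φ a s) s) ∂((dM d).prod (dM d)) := by
      rw [← hmp.map_eq, integral_map hmp.measurable.aemeasurable]
      rw [hmp.map_eq]
      exact (hcm.measurable fun w => f (w.foldl (fun s a => φ a s) s)).aestronglyMeasurable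
    have e2 : ∀ z : (Zd d × ℕ × ℕ → Dir d) × (Zd d × ℕ × ℕ → Dir d),
        f (((a :: l).map fun b => (b.1, mix (fun i => i = a) z.1 z.2 b)).foldl
          (fun s a => φ a s) s) =
        f ((l.map fun b => (b.1, z.1 b)).foldl (fun s a => φ a s) (φ (a.1, z.2 a) s)) := by
      intro z
      rw [List.map_cons, List.foldl_cons, mix_pos (p := fun i => i = a) (i := a) rfl]
      congr 2
      refine List.map_congr_left fun b hb' => ?_
      rw [mix_neg (p := fun i => i = a)]
      rintro rfl
      exact hl.1 hb'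
    have hint : Integrable (fun z : (Zd d × ℕ × ℕ → Dir d) × (Zd d × ℕ × ℕ → Dir d) =>
        f ((l.map fun b => (b.1, z.1 b)).foldl (fun s a => φ a s) (φ (a.1, z.2 a) s)))
        ((dM d).prod (dM d)) := by
      have h1 : CM fun z : (Zd d × ℕ × ℕ → Dir d) × (Zd d × ℕ × ℕ → Dir d) =>
          ((l.map fun b => (b.1, z.1 b)), z.2 a) :=
        ((CM.map_dir l).comp_meas measurable_fst).map₂ ((CM.eval_dir a).comp_meas measurable_snd)
          Prod.mk
      exact h1.integrable (F := fun w => f (w.1.foldl (fun s a => φ a s) (φ (a.1, w.2) s)))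
        fun w => hb _
    rw [e1]
    simp only [e2]
    rw [integral_prod_symm _ hint]
    simp only [ih hl.2]
    have h3 := measurePreserving_eval_infinitePi (fun _ : Zd d × ℕ × ℕ => dirM d) a
    change MeasurePreserving (fun y : Zd d × ℕ × ℕ → Dir d => y a) (dM d) (dirM d) at h3
    have h4 : ∫ y, Qw φ (l.map Prod.fst) f (φ (a.1, y a) s) ∂(dM d) =
        ∫ v, Qw φ (l.map Prod.fst) f (φ (a.1, v) s) ∂(dirM d) := by
      rw [← h3.map_eq, integral_map h3.measurable.aemeasurable]
      exact (measurable_of_countable _).aestronglyMeasurable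
    rw [h4, dirM_int]
    rfl

end Dirs

end Pool.Agent.CAS.CLOCK_
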