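import Pool.Agent.CAS.CLOCK2

/-!
# Job CLOCK, part 3: Poisson counts and the formula for one block
-/

open Finset Filter Topology MeasureTheory
open scoped BigOperators ENNReal

namespace Pool.Agent.CAS.CLOCK_

section Pois

variable {β : Type*} [Fintype β] [DecidableEq β]

lemma pois_sum {G : (β → ℕ) → ℝ} {b : ℝ} (hG : ∀ k, |G k| ≤ b) :
    ∫ k, G k ∂(Measure.pi fun _ : β => ProbabilityTheory.poissonMeasure 1) =
      Real.exp (-(Fintype.card β : ℝ)) * ∑' N : ℕ, ((N.factorial : ℕ) : ℝ)⁻¹ *
        ∑ w : Fin N → β, G fun z => (Finset.univ.filter fun i => w i = z).card := by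
  set μ := Measure.pi fun _ : β => ProbabilityTheory.poissonMeasure 1 with hμ
  have hint : Integrable G μ :=
    Integrable.of_bound (measurable_of_countable G).aestronglyMeasurable b
      (Filter.Eventually.of_forall hG)
  have hU : (⋃ N : ℕ, {k : β → ℕ | ∑ z, k z = N}) = Set.univ := by
    ext k; simp
  have h1 : ∫ k, G k ∂μ = ∑' N : ℕ, ∫ k in {k : β → ℕ | ∑ z, k z = N}, G k ∂μ := by
    rw [← setIntegral_univ, ← hU]
    refine integral_iUnion (fun N => MeasurableSet.of_discrete) ?_ (hint.integrableOn)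
    intro i j hij
    rw [Function.onFun, Set.disjoint_left]
    intro k h1 h2
    exact hij (h1.symm.trans h2)
  have h2 : ∀ N : ℕ, ∫ k in {k : β → ℕ | ∑ z, k z = N}, G k ∂μ =
      Real.exp (-(Fintype.card β : ℝ)) * (((N.factorial : ℕ) : ℝ)⁻¹ *
        ∑ w : Fin N → β, G fun z => (Finset.univ.filter fun i => w i = z).card) := by
    intro N
    have e1 : {k : β → ℕ | ∑ z, k z = N} = ((Finset.piAntidiag Finset.univ N : Finset (β → ℕ)) :
        Set (β → ℕ)) := by
      ext k
      simp
    rw [e1, setIntegral_finset _ hint.integrableOn, ← multinom', Finset.mul_sum]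
    refine Finset.sum_congr rfl fun k hk => ?_
    rw [smul_eq_mul, ← mul_assoc]
    congr 1
    rw [hμ, measureReal_def, Measure.pi_singleton, ENNReal.toReal_prod]
    have e2 : ∀ z, ((ProbabilityTheory.poissonMeasure 1) {k z}).toReal =
        Real.exp (-1) * ((k z).factorial : ℝ)⁻¹ := by
      intro z
      have := ProbabilityTheory.poissonMeasure_real_singleton 1 (k z)
      rw [measureReal_def] at this
      rw [this]
      simp [div_eq_mul_inv]
    simp only [e2]
    rw [Finset.prod_mul_distrib, Finset.prod_const, ← Real.exp_nat_mul, Finset.card_univ]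
    congr 2
    ring
  rw [h1]
  simp only [h2]
  rw [tsum_mul_left]

end Pois

section Blk

variable {d : ℕ} {S : Type}

/-- the rings in the block `[n, n + 1]` -/
noncomputable def blk (c : Zd d × ℕ → ℕ) (B : Finset (Zd d)) (n : ℕ) : Finset (Zd d × ℕ × ℕ) :=
  B.biUnion fun z => (Finset.range (c (z, n))).image fun k => (z, n, k)

lemma mem_blk {c : Zd d × ℕ → ℕ} {B : Finset (Zd d)} {n : ℕ} {a : Zd d × ℕ × ℕ} :
    a ∈ blk c B n ↔ a.1 ∈ B ∧ a.2.1 = n ∧ a.2.2 < c (a.1, n) := by
  obtain ⟨z, m, k⟩ := a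
  simp only [blk, Finset.mem_biUnion, Finset.mem_image, Finset.mem_range, Prod.mk.injEq]
  constructor
  · rintro ⟨z', h1, k', h2, rfl, rfl, rfl⟩
    exact ⟨h1, rfl, h2⟩
  · rintro ⟨h1, rfl, h2⟩
    exact ⟨z, h1, k, h2, rfl, rfl, rfl⟩

lemma mem_evs {c : Zd d × ℕ → ℕ} {B : Finset (Zd d)} {T : ℕ} {a : Zd d × ℕ × ℕ} :
    a ∈ evs c B T ↔ a.1 ∈ B ∧ a.2.1 < T ∧ a.2.2 < c (a.1, a.2.1) := by
  obtain ⟨z, m, k⟩ := a
  simp only [evs, Finset.mem_biUnion, Finset.mem_image, Finset.mem_range, Prod.mk.injEq,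
    Finset.mem_product, Prod.exists]
  constructor
  · rintro ⟨z', m', ⟨h1, h2⟩, k', h3, rfl, rfl, rfl⟩
    exact ⟨h1, h2, h3⟩
  · rintro ⟨h1, h2, h3⟩
    exact ⟨z, m, ⟨h1, h2⟩, k, h3, rfl, rfl, rfl⟩

open Classical in
lemma blk_count (c : Zd d × ℕ → ℕ) (B : Finset (Zd d)) (n : ℕ) (z : Zd d) :
    ((blk c B n).toList.map Prod.fst).count z = if z ∈ B then c (z, n) else 0 := by
  have h1 : ((blk c B n).toList.map Prod.fst).count z =
      ((blk c B n).filter fun a => a.1 = z).card := by
    rw [← Multiset.coe_count, ← Multiset.map_coe, Finset.coe_toList, Multiset.count_map,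
      Finset.card_def, Finset.filter_val]
    congr 1
    refine Multiset.filter_congr fun a _ => ?_
    exact eq_comm
  rw [h1]
  split_ifs with h
  · have : (blk c B n).filter (fun a => a.1 = z) =
        (Finset.range (c (z, n))).image fun k => (z, n, k) := by
      ext a
      rw [Finset.mem_filter, mem_blk, Finset.mem_image]
      constructor
      · rintro ⟨⟨h1, h2, h3⟩, rfl⟩
        refine ⟨a.2.2, Finset.mem_range.2 h3, ?_⟩
        rw [← h2]
      · rintro ⟨k, hk, rfl⟩
        exact ⟨⟨h, rfl, Finset.mem_range.1 hk⟩, rfl⟩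
    rw [this, Finset.card_image_of_injective _ fun i j hij => by simpa using hij,
      Finset.card_range]
  · rw [Finset.card_eq_zero, Finset.filter_eq_empty_iff]
    rintro a ha rfl
    exact h (mem_blk.1 ha).1

lemma blk_card (c : Zd d × ℕ → ℕ) (B : Finset (Zd d)) (n : ℕ) :
    (blk c B n).card = ∑ z ∈ B, c (z, n) := by
  classical
  unfold blk
  rw [Finset.card_biUnion]
  · refine Finset.sum_congr rfl fun z _ => ?_
    rw [Finset.card_image_of_injective _ fun i j hij => by simpa using hij, Finset.card_range]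
  · intro z _ z' _ hne
    rw [Function.onFun, Finset.disjoint_left]
    intro a h1 h2
    rw [Finset.mem_image] at h1 h2
    obtain ⟨k, _, rfl⟩ := h1
    obtain ⟨k', _, h⟩ := h2
    simp only [Prod.mk.injEq] at h
    exact hne h.1.symm

/-- the sorted list of the rings of a finite set, with directions -/
noncomputable def srt (t : Zd d × ℕ × ℕ → ℝ) (e : Zd d × ℕ × ℕ → Dir d)
    (A : Finset (Zd d × ℕ × ℕ)) : List (Zd d × Dir d) :=
  (A.toList.insertionSort fun a b => (a.2.1 : ℝ) + t a ≤ (b.2.1 : ℝ) + t b).map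
    fun a => (a.1, e a)

lemma rgs_eq (c : Zd d × ℕ → ℕ) (t : Zd d × ℕ × ℕ → ℝ) (e : Zd d × ℕ × ℕ → Dir d)
    (B : Finset (Zd d)) (T : ℕ) : rgs c t e B T = srt t e (evs c B T) := rfl

/-! ### Measurability -/

lemma CM.srt (A : Finset (Zd d × ℕ × ℕ)) :
    CM fun p : (Zd d × ℕ × ℕ → ℝ) × (Zd d × ℕ × ℕ → Dir d) => srt p.1 p.2 A := by
  have h1 : CM fun p : (Zd d × ℕ × ℕ → ℝ) × (Zd d × ℕ × ℕ → Dir d) =>
      A.toList.insertionSort fun a b => (a.2.1 : ℝ) + p.1 a ≤ (b.2.1 : ℝ) + p.1 b := by
    refine CM.insertionSort (r := fun (p : (Zd d × ℕ × ℕ → ℝ) × (Zd d × ℕ × ℕ → Dir d))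
      (a b : Zd d × ℕ × ℕ) => (a.2.1 : ℝ) + p.1 a ≤ (b.2.1 : ℝ) + p.1 b) (fun a b => ?_) _
    exact measurableSet_le (by fun_prop) (by fun_prop)
  exact h1.bind (G := fun l p => l.map fun a => (a.1, p.2 a)) fun l =>
    (CM.map_dir l).comp_meas measurable_snd

lemma CM.fin_dep {ι α : Type*} (Q : Finset ι) {A : (ι → ℕ) → α}
    (h : ∀ c c' : ι → ℕ, (∀ q ∈ Q, c q = c' q) → A c = A c') : CM A := by
  classical
  have h1 : CM fun (c : ι → ℕ) (q : Q) => c q := CM.of_measurable (by fun_prop)
  have h2 := h1.comp fun k : Q → ℕ => A fun q => if h : q ∈ Q then k ⟨q, h⟩ else 0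
  have h3 : (fun c : ι → ℕ => A fun q => if h : q ∈ Q then (fun (q : Q) => c q) ⟨q, h⟩ else 0) = A := by
    funext c
    refine h _ _ fun q hq => ?_
    rw [dif_pos hq]
  rw [← h3]
  exact h2

lemma CM.blk (B : Finset (Zd d)) (n : ℕ) : CM fun c : Zd d × ℕ → ℕ => blk c B n := by
  refine CM.fin_dep (B ×ˢ {n}) fun c c' h => ?_
  ext a
  rw [mem_blk, mem_blk]
  refine and_congr_right fun h1 => and_congr_right fun h2 => ?_
  rw [h (a.1, n) (by simp [h1])]

lemma CM.evs (B : Finset (Zd d)) (T : ℕ) : CM fun c : Zd d × ℕ → ℕ => evs c B T := by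
  refine CM.fin_dep (B ×ˢ Finset.range T) fun c c' h => ?_
  ext a
  rw [mem_evs, mem_evs]
  refine and_congr_right fun h1 => and_congr_right fun h2 => ?_
  rw [h (a.1, a.2.1) (by simp [h1, h2])]

/-- the sample space -/
abbrev Om3 (d : ℕ) := (Zd d × ℕ → ℕ) × (Zd d × ℕ × ℕ → ℝ) × (Zd d × ℕ × ℕ → Dir d)

lemma CM.srt_comp {A : (Zd d × ℕ → ℕ) → Finset (Zd d × ℕ × ℕ)} (hA : CM A) :
    CM fun ω : Om3 d => CLOCK_.srt ω.2.1 ω.2.2 (A ω.1) := by
  have h1 : CM fun ω : Om3 d => A ω.1 := hA.comp_meas measurable_fst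
  exact h1.bind (G := fun A ω => CLOCK_.srt ω.2.1 ω.2.2 A) fun A =>
    (CM.srt A).comp_meas measurable_snd

/-! ### The formula for one block -/

lemma inner_int (hd : 1 ≤ d) {φ : Zd d × Dir d → S → S} {f : S → ℝ} {b : ℝ}
    (hb : ∀ s, |f s| ≤ b) (c : Zd d × ℕ → ℕ) (B : Finset (Zd d)) (n : ℕ) (s : S) :
    ∫ p, f ((CLOCK_.srt p.1 p.2 (CLOCK_.blk c B n)).foldl (fun s a => φ a s) s)
      ∂((tM (Zd d × ℕ × ℕ)).prod (dM d)) =
      (((CLOCK_.blk c B n).card.factorial : ℕ) : ℝ)⁻¹ *
        ((((CLOCK_.blk c B n).toList.map Prod.fst).permutations.map fun w => Qw φ w f s)).sum := by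
  have := dM_prob hd
  rw [integral_prod _ ((CM.srt (CLOCK_.blk c B n)).integrable
    (F := fun w => f (w.foldl (fun s a => φ a s) s)) fun w => hb _)]
  have h1 : ∀ t : Zd d × ℕ × ℕ → ℝ,
      ∫ e, f ((CLOCK_.srt t e (CLOCK_.blk c B n)).foldl (fun s a => φ a s) s) ∂(dM d) =
      Qw φ (((CLOCK_.blk c B n).toList.insertionSort
        fun a b => (a.2.1 : ℝ) + t a ≤ (b.2.1 : ℝ) + t b).map Prod.fst) f s := by
    intro t
    refine dir_int hd hb ?_ s
    exact (List.perm_insertionSort _ _).nodup_iff.2 (Finset.nodup_toList _)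
  simp only [h1]
  have h2 := order_int (of := fun a : Zd d × ℕ × ℕ => (a.2.1 : ℝ))
    (r := fun t a b => (a.2.1 : ℝ) + t a ≤ (b.2.1 : ℝ) + t b) (fun _ _ _ => Iff.rfl) (τ := n)
    (Finset.nodup_toList (CLOCK_.blk c B n)) (fun a ha => by
      rw [Finset.mem_toList, mem_blk] at ha
      rw [ha.2.1]) (fun l => Qw φ (l.map Prod.fst) f s)
  rw [h2, Finset.length_toList, ← List.map_permutations, List.map_map]
  rfl

/-- the law of the counts -/
noncomputable def cM (d : ℕ) : Measure (Zd d × ℕ → ℕ) :=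
  Measure.infinitePi fun _ : Zd d × ℕ => ProbabilityTheory.poissonMeasure 1

instance (d : ℕ) : IsProbabilityMeasure (cM d) := by unfold cM; infer_instance

lemma clkM_eq (d : ℕ) : clkM d = (cM d).prod ((tM (Zd d × ℕ × ℕ)).prod (dM d)) := rfl

lemma clkM_prob (hd : 1 ≤ d) : IsProbabilityMeasure (clkM d) := by
  have := dM_prob hd
  rw [clkM_eq]
  infer_instance

/-- sums over words are iterates of the one step operator -/
lemma words_Qop (B : Finset (Zd d)) (φ : Zd d × Dir d → S → S) (f : S → ℝ) (N : ℕ) : ∀ s : S,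
    ∑ w : Fin N → B, Qw φ ((List.ofFn w).map fun z : B => (z : Zd d)) f s =
      ((Qop (fun _ : B × Dir d => ra d) (fun a s => φ (a.1.1, a.2) s))^[N] f) s := by
  induction N with
  | zero =>
    intro s
    simp [Qw]
  | succ N ih =>
    intro s
    rw [Function.iterate_succ_apply', ← (Fin.consEquiv fun _ : Fin (N + 1) => B).sum_comp,
      Fintype.sum_prod_type]
    unfold Qop
    rw [Fintype.sum_prod_type]
    refine Finset.sum_congr rfl fun z _ => ?_
    have h1 : ∀ w : Fin N → B, Qw φ ((List.ofFn ((Fin.consEquiv fun _ : Fin (N + 1) => B)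
        (z, w))).map fun z : B => (z : Zd d)) f s =
        ∑ e : Dir d, ra d * Qw φ ((List.ofFn w).map fun z : B => (z : Zd d)) f (φ (z, e) s) := by
      intro w
      have : List.ofFn ((Fin.consEquiv fun _ : Fin (N + 1) => B) (z, w)) = z :: List.ofFn w := by
        rw [List.ofFn_succ]
        rfl
      rw [this, List.map_cons]
      rfl
    simp only [h1]
    rw [Finset.sum_comm]
    refine Finset.sum_congr rfl fun e _ => ?_
    rw [← Finset.mul_sum, ih]
    rfl

lemma avg_bound {α : Type*} {L : List α} {N : ℕ} (hL : L.length = N.factorial) {g : α → ℝ} {b : ℝ}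
    (hb : ∀ w, |g w| ≤ b) : |((N.factorial : ℕ) : ℝ)⁻¹ * (L.map g).sum| ≤ b := by
  have h1 : |(L.map g).sum| ≤ L.length * b := by
    clear hL
    induction L with
    | nil => simp
    | cons a L ih =>
      rw [List.map_cons, List.sum_cons, List.length_cons]
      push_cast
      calc |g a + (L.map g).sum| ≤ |g a| + |(L.map g).sum| := abs_add_le _ _
        _ ≤ b + L.length * b := add_le_add (hb a) ih
        _ = (L.length + 1) * b := by ring
  rw [hL] at h1
  have h2 : (0 : ℝ) < (N.factorial : ℕ) := by positivity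
  rw [abs_mul, abs_of_nonneg (inv_nonneg.2 h2.le)]
  calc ((N.factorial : ℕ) : ℝ)⁻¹ * |(L.map g).sum| ≤ ((N.factorial : ℕ) : ℝ)⁻¹ * ((N.factorial : ℕ) * b) :=
        mul_le_mul_of_nonneg_left h1 (by positivity)
    _ = b := by field_simp

lemma blk_int (hd : 1 ≤ d) {φ : Zd d × Dir d → S → S} {f : S → ℝ} {b : ℝ}
    (hb : ∀ s, |f s| ≤ b) (B : Finset (Zd d)) (n : ℕ) (s : S) :
    ∫ ω, f ((CLOCK_.srt ω.2.1 ω.2.2 (CLOCK_.blk ω.1 B n)).foldl (fun s a => φ a s) s) ∂(clkM d) =
      sg (fun _ : B × Dir d => ra d) (fun a s => φ (a.1.1, a.2) s) 1 f s := by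
  classical
  have hdM := dM_prob hd
  have hclk := clkM_prob hd
  set g : List (Zd d) → ℝ := fun w => Qw φ w f s with hg
  set ext : (B → ℕ) → (Zd d × ℕ → ℕ) := fun k q => if h : q.1 ∈ B then k ⟨q.1, h⟩ else 0 with hext
  set Gk : (B → ℕ) → ℝ := fun k => (((CLOCK_.blk (ext k) B n).card.factorial : ℕ) : ℝ)⁻¹ *
    ((((CLOCK_.blk (ext k) B n).toList.map Prod.fst).permutations.map g)).sum with hGk
  have hGb : ∀ k, |Gk k| ≤ b := by
    intro k
    refine avg_bound ?_ fun w => Qw_bound hd hb w s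
    rw [List.length_permutations, List.length_map, Finset.length_toList]
  have hres : ∀ c : Zd d × ℕ → ℕ, CLOCK_.blk c B n = CLOCK_.blk (ext fun z => c (z, n)) B n := by
    intro c
    ext a
    rw [mem_blk, mem_blk]
    refine and_congr_right fun h1 => and_congr_right fun h2 => ?_
    simp only [hext]
    rw [dif_pos h1]
  rw [clkM_eq, integral_prod]
  swap
  · rw [← clkM_eq]
    exact (CM.srt_comp (CM.blk B n)).integrable
      (F := fun w => f (w.foldl (fun s a => φ a s) s)) fun w => hb _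
  have h1 : ∀ c : Zd d × ℕ → ℕ, ∫ p, f ((CLOCK_.srt p.1 p.2 (CLOCK_.blk c B n)).foldl
      (fun s a => φ a s) s) ∂((tM (Zd d × ℕ × ℕ)).prod (dM d)) = Gk fun z => c (z, n) := by
    intro c
    rw [inner_int hd hb c B n s]
    conv_lhs => rw [hres c]
  simp only [h1]
  have hinj : Function.Injective fun z : B => ((z : Zd d), n) := fun z z' h => by
    simp only [Prod.mk.injEq, and_true] at h
    exact Subtype.ext h
  have hmp := sub_mp (ProbabilityTheory.poissonMeasure 1) (g := fun z : B => ((z : Zd d), n)) hinj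
  change MeasurePreserving _ (cM d) _ at hmp
  have h2 : ∫ c, Gk (fun z => c (z, n)) ∂(cM d) =
      ∫ k, Gk k ∂(Measure.pi fun _ : B => ProbabilityTheory.poissonMeasure 1) := by
    rw [← hmp.map_eq, integral_map hmp.measurable.aemeasurable]
    exact (measurable_of_countable _).aestronglyMeasurable
  rw [h2, pois_sum hGb]
  have h3 : ∀ (N : ℕ) (w : Fin N → B),
      Gk (fun z => (Finset.univ.filter fun i => w i = z).card) =
      ((N.factorial : ℕ) : ℝ)⁻¹ *
        ((((List.ofFn w).permutations).map fun l => g (l.map fun z : B => (z : Zd d)))).sum := by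
    intro N w
    have hcard : (CLOCK_.blk (ext fun z => (Finset.univ.filter fun i => w i = z).card) B n).card =
        N := by
      rw [blk_card]
      simp only [hext]
      rw [← Finset.sum_attach]
      have : ∀ z ∈ B.attach, (if h : (z : Zd d) ∈ B then
          (Finset.univ.filter fun i => w i = ⟨z, h⟩).card else 0) =
          (Finset.univ.filter fun i => w i = z).card := by
        intro z _
        rw [dif_pos z.2]
      rw [Finset.sum_congr rfl this]
      have h5 := Finset.card_eq_sum_card_fiberwise (s := (Finset.univ : Finset (Fin N)))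
        (t := B.attach) (f := w) (fun i _ => Finset.mem_attach _ _)
      rw [Finset.card_univ, Fintype.card_fin] at h5
      exact h5.symm
    simp only [hGk]
    rw [hcard]
    congr 1
    have hperm : ((CLOCK_.blk (ext fun z => (Finset.univ.filter fun i => w i = z).card) B n).toList.map
        Prod.fst).Perm ((List.ofFn w).map fun z : B => (z : Zd d)) := by
      rw [List.perm_iff_count]
      intro z
      rw [blk_count]
      have h6 : ((List.ofFn w).map fun z : B => (z : Zd d)).count z =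
          (Finset.univ.filter fun i => (w i : Zd d) = z).card := by
        rw [List.map_ofFn, List.ofFn_eq_map, ← Multiset.coe_count, ← Multiset.map_coe,
          Multiset.count_map, Finset.card_def, Finset.filter_val]
        have : ((List.finRange N : List (Fin N)) : Multiset (Fin N)) = Finset.univ.val := rfl
        rw [this]
        congr 1
        refine Multiset.filter_congr fun i _ => ?_
        exact eq_comm
      rw [h6]
      split_ifs with h
      · simp only [hext]
        rw [dif_pos h]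
        congr 1
        ext i
        simp only [Finset.mem_filter, Finset.mem_univ, true_and]
        exact Subtype.ext_iff
      · symm
        rw [Finset.card_eq_zero, Finset.filter_eq_empty_iff]
        rintro i _ rfl
        exact h (w i).2
    rw [sum_perm hperm, ← List.map_permutations, List.map_map]
    rfl
  have h4 : ∀ N : ℕ, ∑ w : Fin N → B, Gk (fun z => (Finset.univ.filter fun i => w i = z).card) =
      ((Qop (fun _ : B × Dir d => ra d) (fun a s => φ (a.1.1, a.2) s))^[N] f) s := by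
    intro N
    simp only [h3]
    rw [← Finset.mul_sum, words_avg N fun l : List B => g (l.map fun z : B => (z : Zd d)),
      ← mul_assoc, inv_mul_cancel₀ (by positivity), one_mul]
    exact words_Qop B φ f N s
  simp only [h4]
  unfold sg
  have htr : tr (fun _ : B × Dir d => ra d) = Fintype.card B := by
    unfold tr
    rw [Fintype.sum_prod_type]
    simp only [sum_ra hd]
    simp
  rw [htr]
  congr 1
  · rw [mul_one]
  · refine tsum_congr fun N => ?_
    rw [one_pow, one_div]

end Blk

end Pool.Agent.CAS.CLOCK_
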