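import Pool.Agent.CAS.Basic

set_option autoImplicit false

open Finset Filter Topology
open scoped BigOperators

namespace Pool.Agent.CAS

namespace COIN_

variable {d L : ℕ}

/-- the weighted average over the subsets of `U`, added to `M0` -/
noncomputable def av (ε : ℝ) (U M0 : Finset (V d L)) (G : Finset (V d L) → ℝ) : ℝ :=
  ∑ M ∈ U.powerset, ε ^ M.card * (1 - ε) ^ (U.card - M.card) * G (M0 ∪ M)

lemma av_congr {ε : ℝ} {U M0 : Finset (V d L)} {G G' : Finset (V d L) → ℝ}
    (h : ∀ M, M ⊆ U → G (M0 ∪ M) = G' (M0 ∪ M)) : av ε U M0 G = av ε U M0 G' := by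
  unfold av
  exact Finset.sum_congr rfl fun M hM => by rw [h M (Finset.mem_powerset.1 hM)]

lemma av_const (ε : ℝ) (U M0 : Finset (V d L)) (c : ℝ) : av ε U M0 (fun _ => c) = c := by
  unfold av
  rw [← Finset.sum_mul, Finset.sum_pow_mul_eq_add_pow]
  simp

lemma av_sum {ι : Type} (A : Finset ι) (ε : ℝ) (U M0 : Finset (V d L)) (c : ι → ℝ)
    (G : ι → Finset (V d L) → ℝ) :
    av ε U M0 (fun M => ∑ i ∈ A, c i * G i M) = ∑ i ∈ A, c i * av ε U M0 (G i) := by
  unfold av
  simp only [Finset.mul_sum]
  rw [Finset.sum_comm]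
  refine Finset.sum_congr rfl fun i _ => Finset.sum_congr rfl fun M _ => ?_
  ring

lemma av_insert (ε : ℝ) {U : Finset (V d L)} (M0 : Finset (V d L)) {y : V d L} (hy : y ∉ U)
    (G : Finset (V d L) → ℝ) :
    av ε (insert y U) M0 G = ε * av ε U (insert y M0) G + (1 - ε) * av ε U M0 G := by
  unfold av
  rw [Finset.sum_powerset_insert hy, Finset.card_insert_of_notMem hy, Finset.mul_sum,
    Finset.mul_sum, add_comm]
  congr 1
  · refine Finset.sum_congr rfl fun M hM => ?_
    have hyM : y ∉ M := fun h => hy (Finset.mem_powerset.1 hM h)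
    rw [Finset.card_insert_of_notMem hyM, Nat.add_sub_add_right, pow_succ, Finset.insert_union,
      Finset.union_insert]
    ring
  · refine Finset.sum_congr rfl fun M hM => ?_
    have hc : M.card ≤ U.card := Finset.card_le_card (Finset.mem_powerset.1 hM)
    rw [show U.card + 1 - M.card = (U.card - M.card) + 1 by omega, pow_succ]
    ring

/-- one step with the marks `M` -/
noncomputable def FM (M : Finset (V d L)) (k : ℕ) (f : FS d L → ℝ) (s : FS d L) : ℝ :=
  ((Qop (fun _ : Ar d L => ra d) (fun a => fup (a, decide (a.1 + dv a.2 ∈ M))))^[k] f) s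

noncomputable def FC (ε : ℝ) (k : ℕ) (f : FS d L → ℝ) (s : FS d L) : ℝ :=
  ((Qop (rc d L ε) fup)^[k] f) s

lemma FM_succ (M : Finset (V d L)) (k : ℕ) (f : FS d L → ℝ) (s : FS d L) :
    FM M (k + 1) f s = ∑ a : Ar d L, ra d * FM M k f (fup (a, decide (a.1 + dv a.2 ∈ M)) s) := by
  unfold FM
  rw [Function.iterate_succ_apply']
  rfl

lemma FC_succ (ε : ℝ) (k : ℕ) (f : FS d L → ℝ) (s : FS d L) :
    FC ε (k + 1) f s = ∑ a : Ar d L, ra d *
      (ε * FC ε k f (fup (a, true) s) + (1 - ε) * FC ε k f (fup (a, false) s)) := by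
  unfold FC
  rw [Function.iterate_succ_apply']
  unfold Qop
  rw [Fintype.sum_prod_type]
  refine Finset.sum_congr rfl fun a _ => ?_
  simp only [Fintype.sum_bool, rc, if_true, Bool.false_eq_true, if_false]
  ring

lemma fup_vis_of_disc {a : Ar d L} {b : Bool} {s : FS d L} (h : s.oth a.1 (a.1 + dv a.2)) :
    (fup (a, b) s).vis = insert (a.1 + dv a.2) s.vis := by
  unfold fup
  simp only [if_pos h]

lemma fup_vis_of_not {a : Ar d L} {b : Bool} {s : FS d L}
    (h : ¬(s.oth a.1 (a.1 + dv a.2) ∧ a.1 + dv a.2 ∉ s.vis)) :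
    (fup (a, b) s).vis = s.vis := by
  unfold fup
  simp only
  split_ifs with h1
  · rw [Finset.insert_eq_self]
    by_contra h2
    exact h ⟨h1, h2⟩
  · rfl

lemma fup_coin_of_not {a : Ar d L} {b b' : Bool} {s : FS d L}
    (h : ¬(s.oth a.1 (a.1 + dv a.2) ∧ a.1 + dv a.2 ∉ s.vis)) :
    fup (a, b) s = fup (a, b') s := by
  unfold fup
  have h1 : ∀ c : Bool, ¬(s.oth a.1 (a.1 + dv a.2) ∧ a.1 + dv a.2 ∉ s.vis ∧ c = true) :=
    fun c h' => h ⟨h'.1, h'.2.1⟩
  simp only [if_neg (h1 _)]

lemma key (ε : ℝ) (f : FS d L → ℝ) (k : ℕ) : ∀ (s : FS d L) (M0 : Finset (V d L)),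
    M0 ⊆ s.vis → av ε (Finset.univ \ s.vis) M0 (fun M => FM M k f s) = FC ε k f s := by
  induction k with
  | zero =>
    intro s M0 _
    have h1 : ∀ M : Finset (V d L), FM M 0 f s = f s := fun M => rfl
    simp only [h1]
    rw [av_const]
    rfl
  | succ k ih =>
    intro s M0 hM0
    simp only [FM_succ]
    rw [FC_succ, av_sum]
    refine Finset.sum_congr rfl fun a _ => ?_
    congr 1
    by_cases hdisc : s.oth a.1 (a.1 + dv a.2) ∧ a.1 + dv a.2 ∉ s.vis
    · obtain ⟨h1, h2⟩ := hdisc
      set y := a.1 + dv a.2 with hy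
      have hU : Finset.univ \ s.vis = insert y (Finset.univ \ insert y s.vis) := by
        ext z
        simp only [Finset.mem_sdiff, Finset.mem_univ, true_and, Finset.mem_insert, not_or]
        constructor
        · intro hz
          by_cases hzy : z = y
          · exact Or.inl hzy
          · exact Or.inr ⟨hzy, hz⟩
        · rintro (rfl | ⟨_, hz⟩)
          · exact h2
          · exact hz
      have hyU : y ∉ Finset.univ \ insert y s.vis := by simp
      rw [hU, av_insert ε M0 hyU]
      congr 1
      · congr 1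
        rw [← ih (fup (a, true) s) (insert y M0) (by
          rw [fup_vis_of_disc h1]; exact Finset.insert_subset_insert _ hM0),
          fup_vis_of_disc h1]
        refine av_congr fun M _ => ?_
        have : y ∈ insert y M0 ∪ M := by simp
        simp only [this, decide_true]
      · congr 1
        rw [← ih (fup (a, false) s) M0 (hM0.trans (fup_vis_mono _ _)), fup_vis_of_disc h1]
        refine av_congr fun M hM => ?_
        have : y ∉ M0 ∪ M := by
          rw [Finset.mem_union, not_or]
          exact ⟨fun h => h2 (hM0 h), fun h => hyU (hM h)⟩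
        simp only [this, decide_false]
    · have h1 : ∀ M : Finset (V d L), FM M k f (fup (a, decide (a.1 + dv a.2 ∈ M)) s) =
          FM M k f (fup (a, false) s) := fun M => by rw [fup_coin_of_not hdisc]
      simp only [h1]
      rw [fup_coin_of_not (b := true) (b' := false) hdisc]
      have h2 := ih (fup (a, false) s) M0 (hM0.trans (fup_vis_mono _ _))
      rw [fup_vis_of_not hdisc] at h2
      rw [h2]
      ring

end COIN_

open COIN_ in
theorem t_COIN (hTR : T_TR) : T_COIN := by
  intro d L ε t o hd hε0 hε1 ht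
  set f : FS d L → ℝ := fun s => if o ∈ s.dead then 0 else 1 with hf
  -- averaging
  have h1 : ∑ M : Finset (V d L), ε ^ M.card * (1 - ε) ^ (Fintype.card (V d L) - M.card) *
      ssg M t f (FS.init d L) = fsg ε t f (FS.init d L) := by
    have htr : tr (rc d L ε) = tr (fun _ : Ar d L => ra d) := by
      unfold tr
      rw [Fintype.sum_prod_type]
      refine Finset.sum_congr rfl fun a _ => ?_
      simp only [Fintype.sum_bool, rc, if_true, Bool.false_eq_true, if_false]
      ring
    have hgr : ∀ M : Finset (V d L), Gr fun k => FM M k f (FS.init d L) := fun M =>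
      grF_of_finite (r := fun _ : Ar d L => ra d)
        (φ := fun a => fup (a, decide (a.1 + dv a.2 ∈ M))) (fun _ => ra_nonneg d) f (FS.init d L)
    have e1 : ∀ M : Finset (V d L), ssg M t f (FS.init d L) =
        Real.exp (-(tr (fun _ : Ar d L => ra d)) * t) *
          ∑' k : ℕ, t ^ k / (k.factorial : ℝ) * FM M k f (FS.init d L) := fun M => rfl
    have e2 : fsg ε t f (FS.init d L) = Real.exp (-(tr (fun _ : Ar d L => ra d)) * t) *
          ∑' k : ℕ, t ^ k / (k.factorial : ℝ) * FC ε k f (FS.init d L) := by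
      rw [← htr]
      rfl
    rw [e2]
    simp only [e1]
    have e3 : ∀ k : ℕ, FC ε k f (FS.init d L) = ∑ M : Finset (V d L),
        ε ^ M.card * (1 - ε) ^ (Fintype.card (V d L) - M.card) * FM M k f (FS.init d L) := by
      intro k
      have h := key ε f k (FS.init d L) ∅ (Finset.empty_subset _)
      rw [← h]
      have hv : Finset.univ \ (FS.init d L).vis = (Finset.univ : Finset (V d L)) := by
        unfold FS.init
        simp
      rw [hv]
      unfold av
      rw [Finset.powerset_univ]
      refine Finset.sum_congr rfl fun M _ => ?_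
      rw [Finset.card_univ, Finset.empty_union]
    simp only [e3]
    have e4 : ∑' k : ℕ, t ^ k / (k.factorial : ℝ) * ∑ M : Finset (V d L),
        ε ^ M.card * (1 - ε) ^ (Fintype.card (V d L) - M.card) * FM M k f (FS.init d L) =
        ∑ M : Finset (V d L), ε ^ M.card * (1 - ε) ^ (Fintype.card (V d L) - M.card) *
          ∑' k : ℕ, t ^ k / (k.factorial : ℝ) * FM M k f (FS.init d L) := by
      simp only [← tsum_mul_left]
      rw [← Summable.tsum_finsetSum fun M _ => ((hgr M).summable t).mul_left _]
      apply tsum_congr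
      intro k
      rw [Finset.mul_sum]
      refine Finset.sum_congr rfl fun M _ => ?_
      ring
    rw [e4, Finset.mul_sum]
    refine Finset.sum_congr rfl fun M _ => ?_
    ring
  rw [h1]
  -- translation
  obtain ⟨h2, h3⟩ := hTR d L ε t (fun s : FS d L => if (0 : V d L) ∈ s.dead then 0 else 1) (-o)
  have h4 := h2 (FS.init d L)
  rw [h3] at h4
  unfold th
  rw [← h4]
  congr 1
  funext s
  have h5 : (0 : V d L) ∈ (s.shift (-o)).dead ↔ o ∈ s.dead := by
    unfold FS.shift
    simp only [Finset.mem_image]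
    constructor
    · rintro ⟨z, hz, h6⟩
      have : z = o := by
        rw [add_neg_eq_zero] at h6
        exact h6
      rwa [← this]
    · intro h
      exact ⟨o, h, by simp⟩
  simp only [hf, h5]

end Pool.Agent.CAS
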