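import Pool.Agent.CAS.Basic

/-!
# Job D: the sum of the occupation probabilities grows at most logarithmically
-/

open Finset Filter Topology MeasureTheory
open scoped BigOperators

namespace Pool.Agent.CAS

set_option linter.unusedSectionVars false
set_option linter.unusedVariables false

namespace D_

variable {d L : ℕ}

lemma zX_one (A : Finset (V d L)) : zX (fun _ => (1 : ℝ)) A = A.card := by
  simp [zX]

lemma zm_empty (A : Finset (V d L)) : zm ∅ A = A.card := by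
  simp [zm, occ]

lemma card_le_sq (A : Finset (V d L)) : (A.card : ℝ) ≤ (A.card : ℝ) ^ 2 := by
  have h : A.card ≤ A.card ^ 2 := Nat.le_self_pow (by norm_num) _
  exact_mod_cast h

lemma h_g0 (y : ℝ) (hy : 1 ≤ y) :
    HasDerivAt (fun y : ℝ => y * Real.log y) (Real.log y + 1) y := by
  have h0 : y ≠ 0 := by linarith
  exact Real.hasDerivAt_mul_log h0

lemma h_g1 (y : ℝ) (hy : 1 ≤ y) :
    HasDerivAt (fun y : ℝ => Real.log y + 1) (y⁻¹) y := by
  have h0 : y ≠ 0 := by linarith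
  exact (Real.hasDerivAt_log h0).add_const 1

lemma h_g2 (y : ℝ) (hy : 1 ≤ y) :
    HasDerivAt (fun y : ℝ => y⁻¹) (-(y ^ 2)⁻¹) y := by
  have h0 : y ≠ 0 := by linarith
  exact hasDerivAt_inv h0

lemma h_g3 (y : ℝ) (hy : 1 ≤ y) :
    HasDerivAt (fun y : ℝ => -(y ^ 2)⁻¹) (2 * (y ^ 3)⁻¹) y := by
  have h0 : y ≠ 0 := by linarith
  have h1 := ((hasDerivAt_pow 2 y).inv (pow_ne_zero 2 h0)).neg
  refine h1.congr_deriv ?_
  field_simp
  norm_num
  ring

/-- the lower bound for the generator -/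
lemma gen_lower {C1 C' K δ γ m Y g GX : ℝ} (hC1 : 3 ≤ C1) (hC' : 1 ≤ C') (hK : K = (20 * C') ^ 2)
    (hδ : 0 ≤ δ) (hγ : 4 / 5 ≤ γ) (hm : 0 ≤ m) (hm2 : m ≤ m ^ 2) (hY : Y = m + K)
    (hX : -(C1 * δ * m) ≤ GX) (hX' : GX ≤ 0)
    (hg : |g - ((Real.log Y + 1) * GX + γ * m * Y⁻¹)| ≤
      C' * 2 * (m * Y ^ (-(-1 : ℝ) - 11 / 4) + 0 * Y ^ (-(-1 : ℝ) - 7 / 4) +
        δ * m * Y ^ (-(-1 : ℝ) - 1))) :
    1 / 2 * (m / Y) - δ * (2 * C' + C1 * (1 + K)) * m ^ 2 ≤ g := by
  have hK1 : 1 ≤ K := by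
    rw [hK]; nlinarith
  have hY1 : 1 ≤ Y := by rw [hY]; linarith
  have hY0 : 0 < Y := by linarith
  have e1 : Y ^ (-(-1 : ℝ) - 1) = 1 := by norm_num
  have e2 : Y ^ (-(-1 : ℝ) - 11 / 4) ≤ Y⁻¹ * (1 / (20 * C')) := by
    have h1 : Y ^ (-(-1 : ℝ) - 11 / 4) ≤ Y ^ (-1 - 1 / 2 : ℝ) :=
      Real.rpow_le_rpow_of_exponent_le hY1 (by norm_num)
    refine h1.trans ?_
    rw [Real.rpow_sub hY0, Real.rpow_neg_one, ← Real.sqrt_eq_rpow, div_eq_mul_inv]
    refine mul_le_mul_of_nonneg_left ?_ (inv_nonneg.2 hY0.le)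
    rw [one_div, inv_le_inv₀ (Real.sqrt_pos.2 hY0) (by positivity)]
    apply Real.le_sqrt_of_sq_le
    rw [hY, ← hK]; linarith
  rw [e1] at hg
  have h2 := (abs_le.1 hg).1
  have h3 : (Real.log Y + 1) * GX ≥ -(C1 * δ * m * Y) := by
    have h4 : Real.log Y + 1 ≤ Y := by
      have := Real.log_le_sub_one_of_pos hY0
      linarith
    have h5 : 0 ≤ Real.log Y + 1 := by
      have := Real.log_nonneg hY1
      linarith
    have h6 : (Real.log Y + 1) * GX ≥ Y * GX := by nlinarith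
    have h7 : Y * GX ≥ Y * (-(C1 * δ * m)) := mul_le_mul_of_nonneg_left hX hY0.le
    linarith
  have h8 : m * Y ^ (-(-1 : ℝ) - 11 / 4) ≤ m * (Y⁻¹ * (1 / (20 * C'))) :=
    mul_le_mul_of_nonneg_left e2 hm
  have h9 : C' * 2 * (m * (Y⁻¹ * (1 / (20 * C')))) = 1 / 10 * (m / Y) := by
    have : C' ≠ 0 := by linarith
    field_simp
    ring
  have h10 : γ * m * Y⁻¹ ≥ 4 / 5 * (m / Y) := by
    have : 0 ≤ m / Y := div_nonneg hm hY0.le
    calc γ * m * Y⁻¹ = γ * (m / Y) := by rw [div_eq_mul_inv]; ring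
      _ ≥ 4 / 5 * (m / Y) := mul_le_mul_of_nonneg_right hγ this
  have h11 : 0 ≤ m / Y := div_nonneg hm hY0.le
  have h12 : C' * 2 * (m * Y ^ (-(-1 : ℝ) - 11 / 4) + 0 * Y ^ (-(-1 : ℝ) - 7 / 4) + δ * m * 1) ≤
      1 / 10 * (m / Y) + 2 * C' * δ * m := by
    calc C' * 2 * (m * Y ^ (-(-1 : ℝ) - 11 / 4) + 0 * Y ^ (-(-1 : ℝ) - 7 / 4) + δ * m * 1)
        = C' * 2 * (m * Y ^ (-(-1 : ℝ) - 11 / 4)) + 2 * C' * δ * m := by ring
      _ ≤ C' * 2 * (m * (Y⁻¹ * (1 / (20 * C')))) + 2 * C' * δ * m := by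
          gcongr
      _ = _ := by rw [h9]
  have h13 : C1 * δ * m * Y ≤ δ * (C1 * (1 + K)) * m ^ 2 := by
    have h14 : m * Y ≤ (1 + K) * m ^ 2 := by
      rw [hY]
      nlinarith
    have h15 : 0 ≤ C1 * δ := by positivity
    calc C1 * δ * m * Y = C1 * δ * (m * Y) := by ring
      _ ≤ C1 * δ * ((1 + K) * m ^ 2) := mul_le_mul_of_nonneg_left h14 h15
      _ = _ := by ring
  have h16 : 2 * C' * δ * m ≤ δ * (2 * C') * m ^ 2 := by
    have h17 : 0 ≤ 2 * C' * δ := by positivity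
    nlinarith
  nlinarith

end D_

open D_ in
theorem t_D (h1 : T_KER) (h2 : T_LD0) (h3 : T_CALC) (h4 : T_MOM0) (h5 : T_MOM) (h6 : T_MONO) :
    T_D := by
  intro d hd
  obtain ⟨C0, hC0, hker⟩ := h1 d hd
  obtain ⟨C1, hC1, hLD⟩ := h2 C0 hC0
  obtain ⟨C', hC', hcalc⟩ := h3 C1 (by linarith)
  set K : ℝ := (20 * C') ^ 2 with hK
  have hK1 : 1 ≤ K := by rw [hK]; nlinarith
  have hKC : C' ≤ K := by rw [hK]; nlinarith
  set C2 : ℝ := 2 * C' + C1 * (1 + K) with hC2
  have hC20 : 0 < C2 := by rw [hC2]; positivity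
  refine ⟨1 + 2 * (1 + K) * ((1 + K) + (3 + 2 * K + K ^ 2 + C1 / 2)), fun T => ?_⟩
  set δ : ℝ := min 1 (1 / (C2 * (T + T ^ 2) + 1)) with hδ
  have hden : 0 < C2 * ((T : ℝ) + T ^ 2) + 1 := by positivity
  have hδ0 : 0 < δ := lt_min one_pos (by positivity)
  have hδ1 : δ ≤ 1 := min_le_left _ _
  have hδT : δ * C2 * ((T : ℝ) + T ^ 2) ≤ 1 := by
    have : δ ≤ 1 / (C2 * (T + T ^ 2) + 1) := min_le_right _ _
    have h7 : δ * (C2 * ((T : ℝ) + T ^ 2) + 1) ≤ 1 := by
      rwa [le_div_iff₀ hden] at this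
    nlinarith
  filter_upwards [hker δ hδ0 T] with L hL
  obtain ⟨h, γ, hh⟩ := hL
  have hd1 : 1 ≤ d := by omega
  have LDs := hLD d L h γ δ T hd1 hδ0.le hδ1 hh
  have hr : ∀ i : Ar d L, 0 ≤ (fun _ : Ar d L => ra d) i := fun _ => ra_nonneg d
  set G : Finset (V d L) → ℝ := fun s =>
    (fun y : ℝ => y * Real.log y) (zX (fun _ => (1 : ℝ)) s + K) -
      (fun y : ℝ => y⁻¹) (zX (fun _ => (1 : ℝ)) s + K) * zF h ∅ s / 2 with hG
  -- lower bound for the generator
  have hgen : ∀ A : Finset (V d L),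
      1 / (2 * (1 + K)) * (if A = ∅ then 0 else 1) - δ * C2 * (A.card : ℝ) ^ 2 ≤
        gen (fun _ : Ar d L => ra d) (zup ∅) G A := by
    intro A
    have key := (hcalc (Finset (V d L)) (Ar d L) (fun _ : Ar d L => ra d) (zup ∅) (fun _ => True)
      (zX fun _ => 1) (zF h ∅) (zm ∅) (zb ∅) 0 γ δ 0 LDs (by rw [abs_zero]; linarith)
      (by linarith [hh.γl]) (by linarith [hh.γu]) hδ0.le hδ1 le_rfl (by norm_num) K hKC (-1) 2
      (fun y : ℝ => y * Real.log y) (fun y : ℝ => Real.log y + 1) (fun y : ℝ => y⁻¹)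
      (fun y : ℝ => -(y ^ 2)⁻¹) (fun y : ℝ => 2 * (y ^ 3)⁻¹) le_rfl (by norm_num) (by norm_num)
      h_g0 h_g1 h_g2 h_g3
      (by
        intro y hy
        have h0 : 0 < y := by linarith
        rw [abs_of_pos (by positivity), show (-(-1 : ℝ) - 2) = -1 by norm_num, Real.rpow_neg_one]
        have : 0 < y⁻¹ := by positivity
        linarith)
      (by
        intro y hy
        have h0 : 0 < y := by linarith
        have h9 : 0 < (y ^ 2)⁻¹ := by positivity
        rw [abs_neg, abs_of_pos h9, show (-(-1 : ℝ) - 3) = -(2 : ℝ) by norm_num,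
          Real.rpow_neg h0.le, Real.rpow_two]
        linarith)
      (by
        intro y hy
        have h0 : 0 < y := by linarith
        have h9 : 0 < 2 * (y ^ 3)⁻¹ := by positivity
        rw [abs_of_pos h9, show (-(-1 : ℝ) - 4) = -((3 : ℕ) : ℝ) by norm_num,
          Real.rpow_neg h0.le, Real.rpow_natCast]) A trivial).2
    have hgX := LDs.gX A trivial
    have hgX' := LDs.gX' A trivial
    rw [zm_empty] at key hgX'
    have hYe : zX (fun _ => (1 : ℝ)) A + K = (A.card : ℝ) + K := by rw [zX_one]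
    have h10 := gen_lower (C1 := C1) (C' := C') (K := K) (δ := δ) (γ := γ) (m := A.card)
      (Y := zX (fun _ => (1 : ℝ)) A + K) (g := gen (fun _ : Ar d L => ra d) (zup ∅) G A)
      (GX := gen (fun _ : Ar d L => ra d) (zup ∅) (zX fun _ => 1) A) hC1 hC' hK hδ0.le hh.γl
      (by positivity) (card_le_sq A) hYe (by linarith) hgX key
    rw [hYe] at h10
    refine le_trans ?_ h10
    have h11 : 1 / (2 * (1 + K)) * (if A = ∅ then (0 : ℝ) else 1) ≤
        1 / 2 * ((A.card : ℝ) / (A.card + K)) := by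
      by_cases hA : A = ∅
      · rw [if_pos hA, mul_zero]; positivity
      · rw [if_neg hA, mul_one]
        have h12 : (1 : ℝ) ≤ A.card := by
          have : 0 < A.card := Finset.card_pos.2 (Finset.nonempty_iff_ne_empty.2 hA)
          exact_mod_cast this
        rw [div_mul_div_comm, one_mul, div_le_div_iff₀ (by positivity) (by positivity)]
        nlinarith
    linarith
  -- Dynkin's formula
  have hGr : ∀ f : Finset (V d L) → ℝ, GrF (fun _ : Ar d L => ra d) (zup ∅) f :=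
    fun f => grF_of_finite hr f
  have hdyn := sg_dynkin (hGr G) (T : ℝ) ({0} : Finset (V d L))
  have hT0 : (0 : ℝ) ≤ T := Nat.cast_nonneg T
  -- the integrand
  have hint : ∀ t : ℝ, 0 ≤ t → 1 / (2 * (1 + K)) * rho d L t - δ * C2 * (1 + 2 * t) ≤
      sg (fun _ : Ar d L => ra d) (zup ∅) t (gen (fun _ : Ar d L => ra d) (zup ∅) G) {0} := by
    intro t ht
    have h12 := sg_mono' hr (hGr _) (hGr _) hgen ht ({0} : Finset (V d L))
    rw [sg_sub (hGr _) (hGr _), sg_smul, sg_smul] at h12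
    have h13 := (h4 d L t hd1 ht).2.1
    unfold zsg at h13
    have h14 : 0 ≤ δ * C2 := by positivity
    have h15 := mul_le_mul_of_nonneg_left h13 h14
    unfold rho zsg
    linarith
  have hcont1 : Continuous fun t : ℝ => rho d L t := by
    unfold rho zsg
    exact continuous_sg (hGr _) _
  have hcont2 : Continuous fun t : ℝ =>
      sg (fun _ : Ar d L => ra d) (zup ∅) t (gen (fun _ : Ar d L => ra d) (zup ∅) G)
        ({0} : Finset (V d L)) := continuous_sg (hGr _) _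
  have hI : ∫ t in (0 : ℝ)..T, (1 / (2 * (1 + K)) * rho d L t - δ * C2 * (1 + 2 * t)) ≤
      ∫ t in (0 : ℝ)..T,
        sg (fun _ : Ar d L => ra d) (zup ∅) t (gen (fun _ : Ar d L => ra d) (zup ∅) G) {0} := by
    refine intervalIntegral.integral_mono_on hT0 ?_ (hcont2.intervalIntegrable _ _)
      (fun t ht => hint t ht.1)
    exact Continuous.intervalIntegrable (by fun_prop) _ _
  have hI2 : ∫ t in (0 : ℝ)..T, (1 / (2 * (1 + K)) * rho d L t - δ * C2 * (1 + 2 * t)) =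
      1 / (2 * (1 + K)) * (∫ t in (0 : ℝ)..T, rho d L t) - δ * C2 * (T + T ^ 2) := by
    rw [intervalIntegral.integral_sub, intervalIntegral.integral_const_mul,
      intervalIntegral.integral_const_mul]
    · congr 2
      rw [intervalIntegral.integral_add, intervalIntegral.integral_const_mul, integral_id]
      · simp; ring
      · exact intervalIntegrable_const
      · exact Continuous.intervalIntegrable (by fun_prop) _ _
    · exact Continuous.intervalIntegrable (by fun_prop) _ _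
    · exact Continuous.intervalIntegrable (by fun_prop) _ _
  -- the initial value
  have hG0 : -(C1 / 2) ≤ G {0} := by
    have hF := LDs.Fm {0} trivial
    rw [zm_empty] at hF
    simp only [Finset.card_singleton, Nat.cast_one, Real.one_rpow, mul_one] at hF
    have hF0 := LDs.F0 {0} trivial
    simp only [hG, zX_one, Finset.card_singleton, Nat.cast_one]
    have h12 : 0 ≤ (1 + K) * Real.log (1 + K) :=
      mul_nonneg (by linarith) (Real.log_nonneg (by linarith))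
    have h13 : (1 + K)⁻¹ ≤ 1 := inv_le_one_of_one_le₀ (by linarith)
    have h14 : 0 ≤ (1 + K)⁻¹ := by positivity
    have h15 : (1 + K)⁻¹ * zF h ∅ {0} ≤ C1 := by
      calc (1 + K)⁻¹ * zF h ∅ {0} ≤ 1 * C1 := mul_le_mul h13 hF hF0 (by norm_num)
        _ = C1 := one_mul _
    linarith
  -- the final value
  have hT1 : (0 : ℝ) < T + 1 := by positivity
  have hGT : ∀ A : Finset (V d L), G A ≤ Real.log (T + 1) * ((A.card : ℝ) + K) +
      1 / (T + 1) * (((A.card : ℝ) ^ 2 + 2 * K * A.card) + K ^ 2) := by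
    intro A
    have hF0 := LDs.F0 A trivial
    simp only [hG, zX_one]
    have hY0 : (0 : ℝ) < (A.card : ℝ) + K := by positivity
    have h12 : Real.log ((A.card : ℝ) + K) ≤ Real.log (T + 1) + ((A.card : ℝ) + K) / (T + 1) := by
      have h13 := Real.log_le_sub_one_of_pos (div_pos hY0 hT1)
      rw [Real.log_div hY0.ne' hT1.ne'] at h13
      linarith
    have h14 := mul_le_mul_of_nonneg_left h12 hY0.le
    have h15 : 0 ≤ ((A.card : ℝ) + K)⁻¹ * zF h ∅ A / 2 := by positivity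
    have h16 : ((A.card : ℝ) + K) * (Real.log (T + 1) + ((A.card : ℝ) + K) / (T + 1)) =
        Real.log (T + 1) * ((A.card : ℝ) + K) +
      1 / (T + 1) * (((A.card : ℝ) ^ 2 + 2 * K * A.card) + K ^ 2) := by
      field_simp
      ring
    linarith
  have hfin : sg (fun _ : Ar d L => ra d) (zup ∅) T G ({0} : Finset (V d L)) ≤
      (1 + K) * Real.log (T + 1) + (2 + 2 * K + K ^ 2) := by
    refine (sg_mono' hr (hGr _) (hGr _) hGT hT0 ({0} : Finset (V d L))).trans ?_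
    obtain ⟨m1, m2, _⟩ := h4 d L T hd1 hT0
    unfold zsg at m1 m2
    rw [sg_add (hGr _) (hGr _), sg_smul, sg_smul, sg_add (hGr _) (hGr _),
      sg_add (hGr _) (hGr _), sg_add (hGr _) (hGr _), sg_const, sg_const, m1]
    have e1 : sg (fun _ : Ar d L => ra d) (zup ∅) (T : ℝ)
        (fun A : Finset (V d L) => 2 * K * (A.card : ℝ)) {0} = 2 * K := by
      rw [sg_smul, m1, mul_one]
    rw [e1]
    have h17 : 1 / ((T : ℝ) + 1) *
        (sg (fun _ : Ar d L => ra d) (zup ∅) (T : ℝ)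
          (fun A : Finset (V d L) => (A.card : ℝ) ^ 2) {0} + 2 * K + K ^ 2) ≤
        2 + 2 * K + K ^ 2 := by
      rw [one_div, inv_mul_le_iff₀ hT1]
      have h18 : 0 ≤ (T : ℝ) * (2 * K + K ^ 2) := by positivity
      nlinarith
    linarith
  -- sum versus integral
  obtain ⟨_, _, _, hmono, hbd⟩ := h6 d L
  have hanti : AntitoneOn (fun t : ℝ => rho d L t) (Set.Icc (0 : ℝ) (0 + (T : ℕ))) := by
    intro a ha b hb hab
    exact hmono a b ha.1 hab
  have hsum := hanti.sum_le_integral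
  simp only [zero_add] at hsum
  have hsum2 : ∑ t ∈ range T, rho d L t ≤ 1 + ∑ t ∈ range T, rho d L ((t + 1 : ℕ) : ℝ) := by
    have h20 : ∑ t ∈ range (T + 1), rho d L (t : ℝ) =
        ∑ t ∈ range T, rho d L ((t + 1 : ℕ) : ℝ) + rho d L ((0 : ℕ) : ℝ) :=
      Finset.sum_range_succ' (fun t : ℕ => rho d L (t : ℝ)) T
    have h21 : ∑ t ∈ range T, rho d L t ≤ ∑ t ∈ range (T + 1), rho d L (t : ℝ) := by
      rw [Finset.sum_range_succ]
      have := (hbd T hT0).2.2.1
      linarith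
    have h22 : rho d L ((0 : ℕ) : ℝ) ≤ 1 := (hbd _ (Nat.cast_nonneg 0)).2.2.2
    linarith
  have hmain : 1 / (2 * (1 + K)) * (∫ t in (0 : ℝ)..T, rho d L t) ≤
      (1 + K) * Real.log (T + 1) + (3 + 2 * K + K ^ 2 + C1 / 2) := by
    linarith
  have hmain2 : (∫ t in (0 : ℝ)..T, rho d L t) ≤
      2 * (1 + K) * ((1 + K) * Real.log (T + 1) + (3 + 2 * K + K ^ 2 + C1 / 2)) := by
    have h23 : (0 : ℝ) < 2 * (1 + K) := by positivity
    rwa [one_div, inv_mul_le_iff₀ h23] at hmain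
  have hlog : 0 ≤ Real.log ((T : ℝ) + 1) := Real.log_nonneg (by linarith)
  have hA : 0 ≤ 2 * (1 + K) * (3 + 2 * K + K ^ 2 + C1 / 2) * Real.log ((T : ℝ) + 1) := by
    positivity
  have hB : 0 ≤ 2 * (1 + K) * (1 + K) := by positivity
  calc ∑ t ∈ range T, rho d L t ≤ 1 + ∑ t ∈ range T, rho d L ((t + 1 : ℕ) : ℝ) := hsum2
    _ ≤ 1 + ∫ t in (0 : ℝ)..T, rho d L t := by linarith
    _ ≤ 1 + 2 * (1 + K) * ((1 + K) * Real.log (T + 1) + (3 + 2 * K + K ^ 2 + C1 / 2)) := by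
        linarith
    _ ≤ _ := by nlinarith

end Pool.Agent.CAS
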