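import Pool.Agent.CAS.Basic

/-! CAS-D2: summation of the second moment quantity. -/

open Finset Filter Topology MeasureTheory
open scoped BigOperators

namespace Pool.Agent.CAS

namespace D2_

/-- estimate for a fixed time `t ≥ 1` -/
theorem fixed_time {d L : ℕ} {h : V d L → ℝ} {γ CK Tk : ℝ} (hk1 : 1 ≤ CK) (K : Ker h γ 1 CK Tk)
    {CB : ℝ} (hCB : 0 ≤ CB) (_ε : ℝ) (t : ℕ) (ht : 1 ≤ t) (htT : (t : ℝ) + 1 ≤ Tk) (u : ℝ)
    (v : V d L → ℝ)
    (hB : ∀ x : V d L, x ≠ 0 → v x ≤ CB * (t : ℝ) ^ (-(5 / 4) : ℝ))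
    (hN : ∀ x : V d L, x ≠ 0 → v x ≤ u ^ 2 + 4 * t * hit ((t : ℝ) + 1) 0 x)
    (hh0 : ∀ (s : ℝ) (x : V d L), 0 ≤ s → 0 ≤ hit s 0 x)
    (hsum : ∑ y : V d L, hit (t : ℝ) 0 y ≤ 1 + t) :
    ∑ x ∈ Finset.univ.erase (0 : V d L), v x * hit t 0 x ≤
      u ^ 2 * (1 + t) + (CB * CK ^ 2 + 4 * CK ^ 3) * (t : ℝ) ^ (-(21 / 20) : ℝ) := by
  have ht0 : (0 : ℝ) < t := by exact_mod_cast ht
  have ht1 : (1 : ℝ) ≤ t := by exact_mod_cast ht
  have hCK : 0 ≤ CK := by linarith
  set w : V d L → ℝ := fun x => h x ^ (21 / 20 : ℝ) with hw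
  have hw0 : ∀ x, 0 ≤ w x := fun x => Real.rpow_nonneg (K.nn x) _
  have hpt : ∀ x ∈ Finset.univ.erase (0 : V d L), v x * hit t 0 x ≤
      u ^ 2 * hit t 0 x + (CB * CK + 4 * CK ^ 2) * (t : ℝ) ^ (-(21 / 20) : ℝ) * w x := by
    intro x hx
    have hx0 : x ≠ 0 := (Finset.mem_erase.1 hx).1
    have hhit0 := hh0 t x ht0.le
    have hhit := K.hitle t x ht0.le (by linarith)
    have hhit1 := K.hitle (t + 1) x (by linarith) htT
    have hhit10 := hh0 (t + 1) x (by linarith)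
    have hhx := K.nn x
    by_cases hc : (t : ℝ) ^ (-4 : ℝ) < h x
    · -- near
      have hpos : 0 < h x := lt_trans (Real.rpow_pos_of_pos ht0 _) hc
      have e1 : h x ≤ w x * (t : ℝ) ^ (1 / 5 : ℝ) := by
        have e2 : h x = w x * h x ^ (-(1 / 20) : ℝ) := by
          rw [hw]
          simp only
          rw [← Real.rpow_add hpos]
          norm_num
        have e3 : h x ^ (-(1 / 20) : ℝ) ≤ ((t : ℝ) ^ (-4 : ℝ)) ^ (-(1 / 20) : ℝ) :=
          Real.rpow_le_rpow_of_nonpos (Real.rpow_pos_of_pos ht0 _) hc.le (by norm_num)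
        rw [← Real.rpow_mul ht0.le] at e3
        have e4 : (-4 : ℝ) * (-(1 / 20)) = 1 / 5 := by norm_num
        rw [e4] at e3
        calc h x = w x * h x ^ (-(1 / 20) : ℝ) := e2
          _ ≤ _ := mul_le_mul_of_nonneg_left e3 (hw0 x)
      calc v x * hit t 0 x ≤ (CB * (t : ℝ) ^ (-(5 / 4) : ℝ)) * hit t 0 x :=
            mul_le_mul_of_nonneg_right (hB x hx0) hhit0
        _ ≤ (CB * (t : ℝ) ^ (-(5 / 4) : ℝ)) * (CK * (w x * (t : ℝ) ^ (1 / 5 : ℝ))) := by
            have : 0 ≤ CB * (t : ℝ) ^ (-(5 / 4) : ℝ) := by positivity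
            apply mul_le_mul_of_nonneg_left _ this
            exact hhit.trans (mul_le_mul_of_nonneg_left e1 hCK)
        _ = CB * CK * ((t : ℝ) ^ (-(5 / 4) : ℝ) * (t : ℝ) ^ (1 / 5 : ℝ)) * w x := by ring
        _ = CB * CK * (t : ℝ) ^ (-(21 / 20) : ℝ) * w x := by
            rw [← Real.rpow_add ht0]
            norm_num
        _ ≤ u ^ 2 * hit t 0 x + (CB * CK + 4 * CK ^ 2) * (t : ℝ) ^ (-(21 / 20) : ℝ) * w x := by
            have h1 : 0 ≤ u ^ 2 * hit t 0 x := by positivity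
            have h2 : 0 ≤ 4 * CK ^ 2 * (t : ℝ) ^ (-(21 / 20) : ℝ) * w x := by
              have := hw0 x
              positivity
            nlinarith
    · -- far
      push Not at hc
      have e1 : h x ^ 2 ≤ w x * (t : ℝ) ^ (-(19 / 5) : ℝ) := by
        rcases hhx.eq_or_lt with h0 | hpos
        · have h02 : h x ^ 2 = 0 := by rw [← h0]; norm_num
          rw [h02]
          exact mul_nonneg (hw0 x) (by positivity)
        have e2 : h x ^ 2 = w x * h x ^ (19 / 20 : ℝ) := by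
          rw [hw]
          simp only
          rw [← Real.rpow_add hpos, ← Real.rpow_natCast]
          norm_num
        have e3 : h x ^ (19 / 20 : ℝ) ≤ ((t : ℝ) ^ (-4 : ℝ)) ^ (19 / 20 : ℝ) :=
          Real.rpow_le_rpow hhx hc (by norm_num)
        rw [← Real.rpow_mul ht0.le] at e3
        have e4 : (-4 : ℝ) * (19 / 20) = -(19 / 5) := by norm_num
        rw [e4] at e3
        rw [e2]
        exact mul_le_mul_of_nonneg_left e3 (hw0 x)
      have e5 : hit ((t : ℝ) + 1) 0 x * hit t 0 x ≤ CK ^ 2 * h x ^ 2 := by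
        calc hit ((t : ℝ) + 1) 0 x * hit t 0 x ≤ (CK * h x) * (CK * h x) :=
              mul_le_mul hhit1 hhit hhit0 (by positivity)
          _ = _ := by ring
      have e6 : (t : ℝ) * (t : ℝ) ^ (-(19 / 5) : ℝ) ≤ (t : ℝ) ^ (-(21 / 20) : ℝ) := by
        calc (t : ℝ) * (t : ℝ) ^ (-(19 / 5) : ℝ) = (t : ℝ) ^ (1 : ℝ) * (t : ℝ) ^ (-(19 / 5) : ℝ) := by
              rw [Real.rpow_one]
          _ = (t : ℝ) ^ (1 + -(19 / 5) : ℝ) := by rw [Real.rpow_add ht0]
          _ ≤ _ := Real.rpow_le_rpow_of_exponent_le ht1 (by norm_num)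
      calc v x * hit t 0 x ≤ (u ^ 2 + 4 * t * hit ((t : ℝ) + 1) 0 x) * hit t 0 x :=
            mul_le_mul_of_nonneg_right (hN x hx0) hhit0
        _ = u ^ 2 * hit t 0 x + 4 * t * (hit ((t : ℝ) + 1) 0 x * hit t 0 x) := by ring
        _ ≤ u ^ 2 * hit t 0 x + 4 * t * (CK ^ 2 * (w x * (t : ℝ) ^ (-(19 / 5) : ℝ))) := by
            have e7 := mul_le_mul_of_nonneg_left
              (e5.trans (mul_le_mul_of_nonneg_left e1 (by positivity : 0 ≤ CK ^ 2)))
              (by positivity : (0 : ℝ) ≤ 4 * t)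
            linarith
        _ = u ^ 2 * hit t 0 x + 4 * CK ^ 2 * (t * (t : ℝ) ^ (-(19 / 5) : ℝ)) * w x := by ring
        _ ≤ u ^ 2 * hit t 0 x + 4 * CK ^ 2 * (t : ℝ) ^ (-(21 / 20) : ℝ) * w x := by
            have := hw0 x
            gcongr
        _ ≤ _ := by
            have h2 : 0 ≤ CB * CK * (t : ℝ) ^ (-(21 / 20) : ℝ) * w x := by
              have := hw0 x
              positivity
            nlinarith
  calc ∑ x ∈ Finset.univ.erase (0 : V d L), v x * hit t 0 x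
      ≤ ∑ x ∈ Finset.univ.erase (0 : V d L), (u ^ 2 * hit t 0 x +
          (CB * CK + 4 * CK ^ 2) * (t : ℝ) ^ (-(21 / 20) : ℝ) * w x) := Finset.sum_le_sum hpt
    _ ≤ ∑ x : V d L, (u ^ 2 * hit t 0 x +
          (CB * CK + 4 * CK ^ 2) * (t : ℝ) ^ (-(21 / 20) : ℝ) * w x) := by
        apply Finset.sum_le_sum_of_subset_of_nonneg (Finset.erase_subset _ _)
        intro x _ _
        have := hw0 x
        have := hh0 t x ht0.le
        positivity
    _ = u ^ 2 * ∑ x : V d L, hit t 0 x +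
          (CB * CK + 4 * CK ^ 2) * (t : ℝ) ^ (-(21 / 20) : ℝ) * ∑ x : V d L, w x := by
        rw [Finset.sum_add_distrib, Finset.mul_sum, Finset.mul_sum]
    _ ≤ u ^ 2 * (1 + t) + (CB * CK + 4 * CK ^ 2) * (t : ℝ) ^ (-(21 / 20) : ℝ) * CK := by
        have := K.sum
        gcongr
    _ = _ := by ring

end D2_

theorem t_D2 (h1 : T_HIT) (h2 : T_KER) (_h3 : T_TR) (h4 : T_DUAL) (h5 : T_N1) (h6 : T_B)
    (h7 : T_C) (h8 : T_MONO) : T_D2 := by
  intro d hd
  obtain ⟨CK, hCK, hK⟩ := h2 d hd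
  obtain ⟨CB', hB⟩ := h6 d hd
  obtain ⟨CC, hC⟩ := h7 d hd
  set CB := |CB'| with hCB
  have hd1 : 1 ≤ d := by omega
  set Z : ℝ := ∑' t : ℕ, ((t : ℝ) + 1) ^ (-(21 / 20) : ℝ) with hZ
  have hsummable : Summable (fun t : ℕ => ((t : ℝ) + 1) ^ (-(21 / 20) : ℝ)) := by
    have := (summable_nat_add_iff 1).2 (Real.summable_nat_rpow (p := -(21 / 20)).2 (by norm_num))
    simpa using this
  have hZ0 : 0 ≤ Z := tsum_nonneg fun t => by positivity
  set C1 := CB * CK ^ 2 + 4 * CK ^ 3 with hC1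
  have hC10 : 0 ≤ C1 := by positivity
  refine ⟨2 + 3 * |CC| + C1 * Z, fun ε hε0 hε1 T => ?_⟩
  filter_upwards [hK 1 one_pos ((T : ℝ) + 1), hB T, hC T] with L hKL hBL hCL
  obtain ⟨h, γ, K⟩ := hKL
  obtain ⟨hit01, -, -, -, -, hitsum, -⟩ := h1 d L hd1
  obtain ⟨-, -, hmono, -, hu01⟩ := h8 d L
  have hlog : 0 ≤ Real.log ((T : ℝ) + 1) := Real.log_nonneg (by
    have : (0 : ℝ) ≤ T := Nat.cast_nonneg T
    linarith)
  -- bound at a fixed time
  have hfix : ∀ t : ℕ, 1 ≤ t → t < T → DD ε d L t ≤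
      3 * ((t : ℝ) * uu d L t ^ 2) + 1 / t + C1 * (t : ℝ) ^ (-(21 / 20) : ℝ) := by
    intro t ht htT
    have ht0 : (0 : ℝ) < t := by exact_mod_cast ht
    have ht1 : (1 : ℝ) ≤ t := by exact_mod_cast ht
    have hTt : (t : ℝ) + 1 ≤ (T : ℝ) + 1 := by
      have : (t : ℝ) ≤ T := by exact_mod_cast htT.le
      linarith
    have hf := D2_.fixed_time hCK K (abs_nonneg CB') ε t ht hTt (uu d L t) (fun x => vis2 ε t 0 x)
      (fun x hx => by
        have e1 := (h4 d L ε t hd1 hε0 hε1 ht0.le).2.1 0 x hx.symm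
        rw [sub_zero] at e1
        have e2 := hBL x hx t ht htT.le
        have e3 : CB' * (t : ℝ) ^ (-(5 / 4) : ℝ) ≤ |CB'| * (t : ℝ) ^ (-(5 / 4) : ℝ) :=
          mul_le_mul_of_nonneg_right (le_abs_self _) (by positivity)
        exact e1.trans (e2.trans e3))
      (fun x hx => h5 d L ε t hd1 hε0 hε1 ht0.le 0 x hx.symm)
      (fun s x hs => (hit01 s 0 x hs).1)
      (hitsum t 0 ht0.le)
    have hu := hu01 t ht0.le
    have hu2 := hu01 (2 * t) (by positivity)
    have hag : uu d L t ≤ (t : ℝ) * uu d L t ^ 2 / 2 + 1 / t / 2 := by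
      have : 0 ≤ (t * uu d L t - 1) ^ 2 / (2 * t) := by positivity
      have e : (t * uu d L t - 1) ^ 2 / (2 * t) =
          (t : ℝ) * uu d L t ^ 2 / 2 - uu d L t + 1 / t / 2 := by
        field_simp
        ring
      linarith
    have hsq : uu d L t ^ 2 * (1 + t) ≤ 2 * ((t : ℝ) * uu d L t ^ 2) := by
      have := sq_nonneg (uu d L t)
      nlinarith
    have h1t : 0 ≤ 1 / (t : ℝ) := by positivity
    have hsq0 : 0 ≤ (t : ℝ) * uu d L t ^ 2 := by positivity
    unfold DD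
    linarith [hu2.1]
  have hzero : DD ε d L ((0 : ℕ) : ℝ) ≤ 1 := by
    have hv : ∀ x ∈ Finset.univ.erase (0 : V d L), vis2 ε 0 0 x * hit 0 0 x ≤ hit 0 0 x := by
      intro x hx
      have hx0 : x ≠ 0 := (Finset.mem_erase.1 hx).1
      have e1 := h5 d L ε 0 hd1 hε0 hε1 le_rfl 0 x hx0.symm
      have hu := hu01 0 le_rfl
      have e2 : vis2 ε 0 0 x ≤ 1 := by nlinarith
      have := mul_le_mul_of_nonneg_right e2 (hit01 0 0 x le_rfl).1
      linarith
    have hs := Finset.sum_le_sum hv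
    have hs2 : ∑ x ∈ Finset.univ.erase (0 : V d L), hit 0 0 x ≤ ∑ x : V d L, hit 0 0 x :=
      Finset.sum_le_sum_of_subset_of_nonneg (Finset.erase_subset _ _)
        (fun x _ _ => (hit01 0 0 x le_rfl).1)
    have hs3 := hitsum 0 (0 : V d L) le_rfl
    unfold DD
    simp only [Nat.cast_zero, mul_zero, sub_self, zero_add]
    linarith
  rcases T with _ | n
  · simp only [Finset.range_zero, Finset.sum_empty]
    have : 0 ≤ (2 + 3 * |CC| + C1 * Z) := by positivity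
    positivity
  · rw [Finset.sum_range_succ']
    have e1 : ∑ k ∈ range n, DD ε d L ((k + 1 : ℕ) : ℝ) ≤
        3 * ∑ k ∈ range n, (((k + 1 : ℕ) : ℝ) * uu d L ((k + 1 : ℕ) : ℝ) ^ 2) +
          ∑ k ∈ range n, 1 / (((k + 1 : ℕ) : ℝ)) +
          C1 * ∑ k ∈ range n, (((k + 1 : ℕ) : ℝ)) ^ (-(21 / 20) : ℝ) := by
      rw [Finset.mul_sum, Finset.mul_sum, ← Finset.sum_add_distrib, ← Finset.sum_add_distrib]
      refine Finset.sum_le_sum fun k hk => ?_
      exact hfix (k + 1) (by omega) (by have := Finset.mem_range.1 hk; omega)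
    have e2 : ∑ k ∈ range n, (((k + 1 : ℕ) : ℝ) * uu d L ((k + 1 : ℕ) : ℝ) ^ 2) ≤
        CC * Real.log (((n + 1 : ℕ) : ℝ) + 1) + CC := by
      have := hCL
      rw [Finset.sum_range_succ'] at this
      simpa using this
    have e3 : ∑ k ∈ range n, 1 / (((k + 1 : ℕ) : ℝ)) ≤ 1 + Real.log (((n + 1 : ℕ) : ℝ) + 1) := by
      have h3 := harmonic_le_one_add_log n
      have h4 : ((harmonic n : ℚ) : ℝ) = ∑ k ∈ range n, 1 / (((k + 1 : ℕ) : ℝ)) := by
        unfold harmonic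
        push_cast
        refine Finset.sum_congr rfl fun k _ => ?_
        rw [one_div]
      rw [h4] at h3
      have h5 : Real.log n ≤ Real.log (((n + 1 : ℕ) : ℝ) + 1) := by
        rcases Nat.eq_zero_or_pos n with hn | hn
        · subst hn
          simp only [Nat.cast_zero, Real.log_zero]
          exact hlog
        · apply Real.log_le_log (by exact_mod_cast hn)
          push_cast
          linarith
      linarith
    have e4 : ∑ k ∈ range n, (((k + 1 : ℕ) : ℝ)) ^ (-(21 / 20) : ℝ) ≤ Z := by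
      have := hsummable.sum_le_tsum (range n) (fun t _ => by positivity)
      simpa using this
    have e5 : CC * Real.log (((n + 1 : ℕ) : ℝ) + 1) + CC ≤
        |CC| * Real.log (((n + 1 : ℕ) : ℝ) + 1) + |CC| := by
      have := le_abs_self CC
      nlinarith
    have e6 := mul_le_mul_of_nonneg_left e4 hC10
    have e7 : 0 ≤ C1 * Z * Real.log (((n + 1 : ℕ) : ℝ) + 1) := by positivity
    have e8 : 0 ≤ |CC| * Real.log (((n + 1 : ℕ) : ℝ) + 1) := by positivity
    nlinarith [hzero, e1, e2, e3, e4, e5, e6, e7, e8, hlog]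

end Pool.Agent.CAS
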