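import Pool.Agent.CAS.Basic

/-!
# Finite speed of propagation for the literal system
-/

set_option autoImplicit false
set_option linter.unusedSectionVars false

open Finset Filter Topology
open scoped BigOperators

namespace Pool.Agent.CAS

namespace DISC_

variable {ι G E : Type} [AddCommGroup G] {typ : ι → Bool} {brv : ι → ℝ} {step : E → G}

/-- invariants of one system -/
structure Ok (typ : ι → Bool) (s : LS ι G) : Prop where
  ldr : ∀ v a, s.ld v = some a → s.ld a = some a
  inj : ∀ a b, s.ld a = some a → s.ld b = some b → s.pos a = s.pos b → a = b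
  bb : ∀ v b, typ b = false → s.ld v = some b → v = b

/-- the result of a collision of `z` with `w` -/
noncomputable def res (typ : ι → Bool) (brv : ι → ℝ) (z w : ι) : Option ι :=
  if typ w = false then none else some (if brv w < brv z then z else w)

open Classical in
lemma ring_pos (a : ι × E) (s : LS ι G) : (ring typ brv step a s).pos =
    if typ a.1 = false then s.pos else Function.update s.pos a.1 (s.pos a.1 + step a.2) := by
  unfold ring
  split_ifs <;> rfl

lemma ring_ld_miss {s : LS ι G} {a : ι × E} (h : typ a.1 = true → s.ld a.1 = some a.1 →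
    ∀ w, w ≠ a.1 → s.ld w = some w → s.pos w ≠ s.pos a.1 + step a.2) :
    (ring typ brv step a s).ld = s.ld := by
  classical
  unfold ring
  by_cases h1 : typ a.1 = false
  · rw [if_pos h1]
  rw [if_neg h1]
  by_cases h2 : s.ld a.1 ≠ some a.1
  · rw [if_pos h2]
  rw [if_neg h2]
  rw [Bool.not_eq_false] at h1
  push Not at h2
  rw [if_neg, dif_neg]
  · rintro ⟨w, hw1, hw2, hw3⟩
    exact h h1 h2 w hw1 hw2 hw3
  · rintro ⟨w, hw1, hw2, hw3⟩
    exact h h1 h2 w (fun h => by rw [h, h1] at hw1; cases hw1) hw2 hw3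

open Classical in
lemma ring_ld_hit {s : LS ι G} (hs : Ok typ s) {a : ι × E} {w : ι} (hz : typ a.1 = true)
    (hl : s.ld a.1 = some a.1) (hw : w ≠ a.1) (hw' : s.ld w = some w)
    (hp : s.pos w = s.pos a.1 + step a.2) (v : ι) :
    (ring typ brv step a s).ld v =
      if s.ld v = some a.1 ∨ s.ld v = some w then res typ brv a.1 w else s.ld v := by
  have hu : ∀ u, s.ld u = some u → s.pos u = s.pos a.1 + step a.2 → u = w := fun u h1 h2 =>
    hs.inj u w h1 hw' (h2.trans hp.symm)
  unfold ring
  rw [if_neg (by rw [hz]; simp), if_neg (by rw [hl]; simp)]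
  by_cases hB : typ w = false
  · rw [if_pos ⟨w, hB, hw', hp⟩]
    have hiff : (s.ld v = some a.1 ∨
        (typ v = false ∧ s.ld v = some v ∧ s.pos v = s.pos a.1 + step a.2)) ↔
        (s.ld v = some a.1 ∨ s.ld v = some w) := by
      constructor
      · rintro (h | ⟨h1, h2, h3⟩)
        · exact Or.inl h
        · rw [hu v h2 h3]; exact Or.inr hw'
      · rintro (h | h)
        · exact Or.inl h
        · have := hs.bb v w hB h
          subst this
          exact Or.inr ⟨hB, hw', hp⟩
    simp only [hiff, res, hB, if_true]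
  · have hB' : typ w = true := by simpa using hB
    rw [if_neg (by
      rintro ⟨u, h1, h2, h3⟩
      rw [hu u h2 h3] at h1
      exact hB h1)]
    have hex : ∃ w, w ≠ a.1 ∧ s.ld w = some w ∧ s.pos w = s.pos a.1 + step a.2 :=
      ⟨w, hw, hw', hp⟩
    rw [dif_pos hex]
    have hch : hex.choose = w := hu _ hex.choose_spec.2.1 hex.choose_spec.2.2
    simp only [hch, res, hB', Bool.true_eq_false, if_false]

lemma res_eq {z w : ι} {b : ι} (h : res typ brv z w = some b) :
    typ w = true ∧ (b = z ∨ b = w) := by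
  unfold res at h
  split_ifs at h with h1 h2
  · exact ⟨by simpa using h1, Or.inl (by simpa using h.symm)⟩
  · exact ⟨by simpa using h1, Or.inr (by simpa using h.symm)⟩

/-- the label of the ring hits another leader -/
def Hit (typ : ι → Bool) (step : E → G) (a : ι × E) (s : LS ι G) (w : ι) : Prop :=
  typ a.1 = true ∧ s.ld a.1 = some a.1 ∧ w ≠ a.1 ∧ s.ld w = some w ∧
    s.pos w = s.pos a.1 + step a.2

lemma ring_cases (a : ι × E) (s : LS ι G) : (∃ w, Hit typ step a s w) ∨
    (¬ (∃ w, Hit typ step a s w) ∧ (ring typ brv step a s).ld = s.ld) := by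
  by_cases h : ∃ w, Hit typ step a s w
  · exact Or.inl h
  · refine Or.inr ⟨h, ring_ld_miss fun h1 h2 w hw1 hw2 hw3 => h ⟨w, h1, h2, hw1, hw2, hw3⟩⟩

lemma pos_ne {a : ι × E} {s : LS ι G} {v : ι} (h : v ≠ a.1) :
    (ring typ brv step a s).pos v = s.pos v := by
  classical
  rw [ring_pos]
  split_ifs
  · rfl
  · rw [Function.update_of_ne h]

lemma pos_self {a : ι × E} {s : LS ι G} (h : typ a.1 = true) :
    (ring typ brv step a s).pos a.1 = s.pos a.1 + step a.2 := by
  classical
  rw [ring_pos, if_neg (by rw [h]; simp), Function.update_self]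

lemma ok_ring (a : ι × E) {s : LS ι G} (hs : Ok typ s) : Ok typ (ring typ brv step a s) := by
  classical
  rcases ring_cases (typ := typ) (brv := brv) (step := step) a s with ⟨w, hz, hl, hw, hw', hp⟩ | ⟨hno, hld⟩
  · have hL := ring_ld_hit (brv := brv) hs hz hl hw hw' hp
    have hnew : ∀ b, res typ brv a.1 w = some b → (ring typ brv step a s).ld b = some b := by
      intro b hb
      rw [hL]
      rcases (res_eq hb).2 with rfl | rfl
      · rw [if_pos (Or.inl hl), hb]
      · rw [if_pos (Or.inr hw'), hb]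
    have hold : ∀ v b, (ring typ brv step a s).ld v = some b →
        (res typ brv a.1 w = some b ∧ (s.ld v = some a.1 ∨ s.ld v = some w)) ∨
        (s.ld v = some b ∧ b ≠ a.1 ∧ b ≠ w) := by
      intro v b h
      rw [hL] at h
      split_ifs at h with h1
      · exact Or.inl ⟨h, h1⟩
      · refine Or.inr ⟨h, ?_, ?_⟩
        · rintro rfl; exact h1 (Or.inl h)
        · rintro rfl; exact h1 (Or.inr h)
    have hposl : ∀ b, res typ brv a.1 w = some b →
        (ring typ brv step a s).pos b = s.pos a.1 + step a.2 := by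
      intro b hb
      rcases (res_eq hb).2 with rfl | rfl
      · exact pos_self hz
      · rw [pos_ne hw, hp]
    refine ⟨?_, ?_, ?_⟩
    · intro v b h
      rcases hold v b h with ⟨h1, _⟩ | ⟨h1, h2, h3⟩
      · exact hnew b h1
      · have h4 := hs.ldr v b h1
        rw [hL, if_neg]
        · exact h4
        · rw [h4]
          rintro (h5 | h5)
          · exact h2 (by simpa using h5)
          · exact h3 (by simpa using h5)
    · intro b c hb hc hbc
      rcases hold b b hb with ⟨h1, _⟩ | ⟨h1, h2, h3⟩ <;> rcases hold c c hc with ⟨h1', _⟩ | ⟨h1', h2', h3'⟩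
      · rw [h1] at h1'; simpa using h1'
      · exfalso
        rw [hposl b h1, pos_ne h2'] at hbc
        exact h3' (hs.inj c w h1' hw' (hbc.symm.trans hp.symm))
      · exfalso
        rw [hposl c h1', pos_ne h2] at hbc
        exact h3 (hs.inj b w h1 hw' (hbc.trans hp.symm))
      · rw [pos_ne h2, pos_ne h2'] at hbc
        exact hs.inj b c h1 h1' hbc
    · intro v b hb h
      rcases hold v b h with ⟨h1, _⟩ | ⟨h1, h2, h3⟩
      · exfalso
        rcases (res_eq h1).2 with rfl | rfl
        · rw [hz] at hb; cases hb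
        · rw [(res_eq h1).1] at hb; cases hb
      · exact hs.bb v b hb h1
  · refine ⟨fun v b => by rw [hld]; exact hs.ldr v b, ?_, fun v b => by rw [hld]; exact hs.bb v b⟩
    rw [hld]
    intro b c hb hc hbc
    by_cases hz : typ a.1 = true
    · by_contra hne
      by_cases h1 : b = a.1
      · subst h1
        rw [pos_self hz, pos_ne (Ne.symm hne)] at hbc
        exact hno ⟨c, hz, hb, Ne.symm hne, hc, hbc.symm⟩
      · by_cases h2 : c = a.1
        · subst h2
          rw [pos_self hz, pos_ne h1] at hbc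
          exact hno ⟨b, hz, hc, h1, hb, hbc⟩
        · rw [pos_ne h1, pos_ne h2] at hbc
          exact hne (hs.inj b c hb hc hbc)
    · have hz' : typ a.1 = false := by simpa using hz
      rw [ring_pos, if_pos hz'] at hbc
      exact hs.inj b c hb hc hbc

lemma ok_init {start : ι → G} (h : Function.Injective start) (J : ι → Prop) :
    Ok typ (LS.init start J) := by
  classical
  refine ⟨?_, ?_, ?_⟩
  · intro v a h
    simp only [LS.init] at h ⊢
    split_ifs at h with h1
    · have : v = a := by simpa using h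
      subst this
      rw [if_pos h1]
  · intro a b _ _ h1
    exact h h1
  · intro v b _ h
    simp only [LS.init] at h
    split_ifs at h with h1
    simpa using h

/-! ## The coupled system -/

/-- invariants of the pair -/
def Inv (typ : ι → Bool) (s : LS ι G × LS ι G) : Prop :=
  Ok typ s.1 ∧ Ok typ s.2 ∧ s.1.pos = s.2.pos

/-- the transitions of the pair -/
noncomputable def rr (typ : ι → Bool) (brv : ι → ℝ) (step : E → G) (a : ι × E)
    (s : LS ι G × LS ι G) : LS ι G × LS ι G := (ring typ brv step a s.1, ring typ brv step a s.2)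

lemma inv_rr (a : ι × E) {s : LS ι G × LS ι G} (hs : Inv typ s) :
    Inv typ (rr typ brv step a s) := by
  refine ⟨ok_ring a hs.1, ok_ring a hs.2.1, ?_⟩
  simp only [rr, ring_pos, hs.2.2]

/-- the two systems differ at the site `x` -/
def bad (s : LS ι G × LS ι G) (x : G) : Prop :=
  ∃ a v, s.1.pos a = x ∧ ¬ (s.1.ld v = some a ↔ s.2.ld v = some a)

lemma good_iff {s : LS ι G × LS ι G} {x : G} (h : ¬ bad s x) {a : ι} (ha : s.1.pos a = x) (v : ι) :
    s.1.ld v = some a ↔ s.2.ld v = some a := by
  by_contra h1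
  exact h ⟨a, v, ha, h1⟩

/-- labels which are not concerned -/
lemma ld_other {s : LS ι G} (hs : Ok typ s) {a : ι × E} {u : ι} (hu : u ≠ a.1)
    (hx : s.pos u ≠ s.pos a.1 + step a.2) (v : ι) :
    (ring typ brv step a s).ld v = some u ↔ s.ld v = some u := by
  classical
  rcases ring_cases (typ := typ) (brv := brv) (step := step) a s with ⟨w, hz, hl, hw, hw', hp⟩ | ⟨hno, hld⟩
  · rw [ring_ld_hit (brv := brv) hs hz hl hw hw' hp]
    have huw : u ≠ w := by rintro rfl; exact hx hp
    split_ifs with h1
    · constructor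
      · intro h
        rcases (res_eq h).2 with rfl | rfl
        · exact absurd rfl hu
        · exact absurd rfl huw
      · intro h
        rcases h1 with h1 | h1
        · rw [h1] at h; exact absurd (by simpa using h.symm) hu
        · rw [h1] at h; exact absurd (by simpa using h.symm) huw
    · exact Iff.rfl
  · rw [hld]

/-- both sites are good: both systems do the same -/
lemma ld_same {s : LS ι G × LS ι G} (hs : Inv typ s) {a : ι × E}
    (h1 : ¬ bad s (s.1.pos a.1)) (h2 : ¬ bad s (s.1.pos a.1 + step a.2)) {v : ι}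
    (hv : s.1.ld v = s.2.ld v) :
    (ring typ brv step a s.1).ld v = (ring typ brv step a s.2).ld v := by
  classical
  have key : ∀ w, Hit typ step a s.1 w ↔ Hit typ step a s.2 w := by
    intro w
    unfold Hit
    rw [← hs.2.2, good_iff h1 rfl a.1]
    constructor
    · rintro ⟨e1, e2, e3, e4, e5⟩
      exact ⟨e1, e2, e3, (good_iff h2 e5 w).1 e4, e5⟩
    · rintro ⟨e1, e2, e3, e4, e5⟩
      exact ⟨e1, e2, e3, (good_iff h2 e5 w).2 e4, e5⟩
  by_cases hex : ∃ w, Hit typ step a s.1 w
  · obtain ⟨w, hw⟩ := hex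
    have hw2 := (key w).1 hw
    obtain ⟨e1, e2, e3, e4, e5⟩ := hw
    obtain ⟨-, f2, -, f4, f5⟩ := hw2
    rw [ring_ld_hit (brv := brv) hs.1 e1 e2 e3 e4 e5, ring_ld_hit (brv := brv) hs.2.1 e1 f2 e3 f4 f5, hv]
  · have hex2 : ¬ ∃ w, Hit typ step a s.2 w := by
      rintro ⟨w, hw⟩; exact hex ⟨w, (key w).2 hw⟩
    rw [ring_ld_miss fun e1 e2 w e3 e4 e5 => hex ⟨w, e1, e2, e3, e4, e5⟩,
      ring_ld_miss fun e1 e2 w e3 e4 e5 => hex2 ⟨w, e1, e2, e3, e4, e5⟩, hv]

lemma ld_same_iff {s : LS ι G × LS ι G} (hs : Inv typ s) {a : ι × E}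
    (h1 : ¬ bad s (s.1.pos a.1)) (h2 : ¬ bad s (s.1.pos a.1 + step a.2)) {u : ι}
    (hu : u = a.1 ∨ s.1.pos u = s.1.pos a.1 + step a.2) (v : ι) :
    (ring typ brv step a s.1).ld v = some u ↔ (ring typ brv step a s.2).ld v = some u := by
  classical
  have hg : s.1.ld v = some u ↔ s.2.ld v = some u := by
    rcases hu with rfl | hu
    · exact good_iff h1 rfl v
    · exact good_iff h2 hu v
  have key : ∀ w, Hit typ step a s.1 w ↔ Hit typ step a s.2 w := by
    intro w
    unfold Hit
    rw [← hs.2.2, good_iff h1 rfl a.1]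
    constructor
    · rintro ⟨e1, e2, e3, e4, e5⟩
      exact ⟨e1, e2, e3, (good_iff h2 e5 w).1 e4, e5⟩
    · rintro ⟨e1, e2, e3, e4, e5⟩
      exact ⟨e1, e2, e3, (good_iff h2 e5 w).2 e4, e5⟩
  by_cases hex : ∃ w, Hit typ step a s.1 w
  · obtain ⟨w, hw⟩ := hex
    have hw2 := (key w).1 hw
    obtain ⟨e1, e2, e3, e4, e5⟩ := hw
    obtain ⟨-, f2, -, f4, f5⟩ := hw2
    rw [ring_ld_hit (brv := brv) hs.1 e1 e2 e3 e4 e5, ring_ld_hit (brv := brv) hs.2.1 e1 f2 e3 f4 f5]
    have c1 := good_iff h1 rfl v
    have c2 := good_iff h2 e5 v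
    by_cases h3 : s.2.ld v = some a.1 ∨ s.2.ld v = some w
    · rw [if_pos h3, if_pos (by rwa [c1, c2])]
    · rw [if_neg h3, if_neg (by rwa [c1, c2])]
      exact hg
  · have hex2 : ¬ ∃ w, Hit typ step a s.2 w := by
      rintro ⟨w, hw⟩; exact hex ⟨w, (key w).2 hw⟩
    rw [ring_ld_miss fun e1 e2 w e3 e4 e5 => hex ⟨w, e1, e2, e3, e4, e5⟩,
      ring_ld_miss fun e1 e2 w e3 e4 e5 => hex2 ⟨w, e1, e2, e3, e4, e5⟩]
    exact hg

lemma rr_of_B {a : ι × E} (h : typ a.1 = false) (s : LS ι G × LS ι G) :
    rr typ brv step a s = s := by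
  simp only [rr, ring, h, if_true]

lemma bad_rr {s : LS ι G × LS ι G} (hs : Inv typ s) {a : ι × E} {x : G}
    (hx : x ≠ s.1.pos a.1 + step a.2) (h : bad (rr typ brv step a s) x) : bad s x := by
  by_cases hz : typ a.1 = true
  · obtain ⟨u, v, hu, hv⟩ := h
    by_cases hua : u = a.1
    · subst hua
      simp only [rr] at hu
      rw [pos_self hz] at hu
      exact absurd hu.symm hx
    · simp only [rr] at hu hv
      rw [pos_ne hua] at hu
      have h1 : s.1.pos u ≠ s.1.pos a.1 + step a.2 := by rw [hu]; exact hx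
      have h2 : s.2.pos u ≠ s.2.pos a.1 + step a.2 := by rw [← hs.2.2]; exact h1
      rw [ld_other hs.1 hua h1, ld_other hs.2.1 hua h2] at hv
      exact ⟨u, v, hu, hv⟩
  · rw [rr_of_B (by simpa using hz)] at h
    exact h

lemma bad_rr_good {s : LS ι G × LS ι G} (hs : Inv typ s) {a : ι × E}
    (h1 : ¬ bad s (s.1.pos a.1)) (h2 : ¬ bad s (s.1.pos a.1 + step a.2)) {x : G}
    (h : bad (rr typ brv step a s) x) : bad s x := by
  by_cases hz : typ a.1 = true
  · by_cases hx : x = s.1.pos a.1 + step a.2
    · exfalso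
      obtain ⟨u, v, hu, hv⟩ := h
      apply hv
      refine ld_same_iff hs h1 h2 ?_ v
      by_cases hua : u = a.1
      · exact Or.inl hua
      · right
        simp only [rr] at hu
        rw [pos_ne hua] at hu
        rw [hu, hx]
    · exact bad_rr hs hx h
  · rw [rr_of_B (by simpa using hz)] at h
    exact h

lemma bad_rr_idle {s : LS ι G × LS ι G} (hs : Inv typ s) {a : ι × E}
    (h1 : s.1.ld a.1 ≠ some a.1) (h2 : s.2.ld a.1 ≠ some a.1) {x : G}
    (h : bad (rr typ brv step a s) x) : bad s x := by
  have e1 : (ring typ brv step a s.1).ld = s.1.ld := ring_ld_miss fun _ h => absurd h h1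
  have e2 : (ring typ brv step a s.2).ld = s.2.ld := ring_ld_miss fun _ h => absurd h h2
  obtain ⟨u, v, hu, hv⟩ := h
  simp only [rr, e1, e2] at hu hv
  by_cases hua : u = a.1
  · subst hua
    exact absurd ⟨fun h => absurd (hs.1.ldr _ _ h) h1, fun h => absurd (hs.2.1.ldr _ _ h) h2⟩ hv
  · rw [pos_ne hua] at hu
    exact ⟨u, v, hu, hv⟩

/-! ## The weights -/

variable [Fintype ι]

open Classical in
/-- the bad sites -/
noncomputable def badS (s : LS ι G × LS ι G) : Finset G :=
  (Finset.univ.image s.1.pos).filter fun x => bad s x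

lemma mem_badS {s : LS ι G × LS ι G} {x : G} : x ∈ badS s ↔ bad s x := by
  classical
  simp only [badS, mem_filter, mem_image, mem_univ, true_and, and_iff_right_iff_imp]
  rintro ⟨a, v, h, -⟩
  exact ⟨a, h⟩

/-- the weight of the bad sites seen from `y` -/
noncomputable def wt (nm : G → ℝ) (s : LS ι G × LS ι G) (y : G) : ℝ :=
  ∑ x ∈ badS s, Real.exp (-nm (x - y))

/-- nothing has happened to `o` -/
def OO (o : ι) (s : LS ι G × LS ι G) : Prop :=
  s.1.ld o = s.2.ld o ∧ ∀ l, s.1.ld o = some l → ¬ bad s (s.1.pos l)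

open Classical in
/-- the Lyapunov function -/
noncomputable def ww (nm : G → ℝ) (o : ι) (s : LS ι G × LS ι G) : ℝ :=
  if OO o s then
    (s.1.ld o).elim 0 fun l => min 1 (Real.exp 1 * wt nm s (s.1.pos l))
  else 1

lemma wt_nonneg (nm : G → ℝ) (s : LS ι G × LS ι G) (y : G) : 0 ≤ wt nm s y :=
  Finset.sum_nonneg fun _ _ => (Real.exp_pos _).le

lemma ww_bounds (nm : G → ℝ) (o : ι) (s : LS ι G × LS ι G) : 0 ≤ ww nm o s ∧ ww nm o s ≤ 1 := by
  unfold ww
  split_ifs with h
  · cases s.1.ld o with
    | none => simp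
    | some l =>
      simp only [Option.elim_some]
      exact ⟨le_min zero_le_one (mul_nonneg (Real.exp_pos _).le (wt_nonneg nm s _)), min_le_left _ _⟩
  · simp

lemma ww_of_none {nm : G → ℝ} {o : ι} {s : LS ι G × LS ι G} (h1 : s.1.ld o = none)
    (h2 : s.2.ld o = none) : ww nm o s = 0 := by
  unfold ww
  rw [if_pos ⟨h1.trans h2.symm, fun l hl => by rw [h1] at hl; cases hl⟩, h1]
  rfl

lemma ww_of_some {nm : G → ℝ} {o l : ι} {s : LS ι G × LS ι G} (h1 : s.1.ld o = some l)
    (h2 : s.2.ld o = some l) (h3 : ¬ bad s (s.1.pos l)) :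
    ww nm o s = min 1 (Real.exp 1 * wt nm s (s.1.pos l)) := by
  unfold ww
  rw [if_pos ⟨h1.trans h2.symm, fun l' hl => by
    rw [h1] at hl
    have : l = l' := by simpa using hl
    subst this
    exact h3⟩, h1]
  rfl

lemma ww_of_not {nm : G → ℝ} {o : ι} {s : LS ι G × LS ι G} (h : ¬ OO o s) : ww nm o s = 1 := by
  unfold ww
  rw [if_neg h]

/-- comparison of weights -/
lemma wt_le {nm : G → ℝ} {s s' : LS ι G × LS ι G} {y y' : G} {c : ℝ} (hc : 0 ≤ c)
    (h : ∀ x, bad s' x → bad s x)
    (hxy : ∀ x, Real.exp (-nm (x - y')) ≤ c * Real.exp (-nm (x - y))) :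
    wt nm s' y' ≤ c * wt nm s y := by
  unfold wt
  rw [Finset.mul_sum]
  calc ∑ x ∈ badS s', Real.exp (-nm (x - y')) ≤ ∑ x ∈ badS s', c * Real.exp (-nm (x - y)) :=
        Finset.sum_le_sum fun x _ => hxy x
    _ ≤ ∑ x ∈ badS s, c * Real.exp (-nm (x - y)) :=
        Finset.sum_le_sum_of_subset_of_nonneg
          (fun x hx => mem_badS.2 (h x (mem_badS.1 hx)))
          fun _ _ _ => mul_nonneg hc (Real.exp_pos _).le

lemma wt_le_add {nm : G → ℝ} {s s' : LS ι G × LS ι G} {y x0 : G}
    (h : ∀ x, x ≠ x0 → bad s' x → bad s x) :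
    wt nm s' y ≤ wt nm s y + Real.exp (-nm (x0 - y)) := by
  classical
  unfold wt
  calc ∑ x ∈ badS s', Real.exp (-nm (x - y))
      ≤ ∑ x ∈ insert x0 (badS s), Real.exp (-nm (x - y)) :=
        Finset.sum_le_sum_of_subset_of_nonneg (fun x hx => by
          by_cases hx0 : x = x0
          · subst hx0; exact Finset.mem_insert_self _ _
          · exact Finset.mem_insert_of_mem (mem_badS.2 (h x hx0 (mem_badS.1 hx))))
          fun _ _ _ => (Real.exp_pos _).le
    _ ≤ _ := by
      by_cases h0 : x0 ∈ badS s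
      · rw [Finset.insert_eq_of_mem h0]
        linarith [Real.exp_pos (-nm (x0 - y))]
      · rw [Finset.sum_insert h0]
        linarith

lemma le_wt {nm : G → ℝ} {s : LS ι G × LS ι G} {x y : G} (h : bad s x) :
    Real.exp (-nm (x - y)) ≤ wt nm s y :=
  Finset.single_le_sum (f := fun x => Real.exp (-nm (x - y))) (fun _ _ => (Real.exp_pos _).le)
    (mem_badS.2 h)

/-- hypotheses on the norm -/
structure HN (nm : G → ℝ) (step : E → G) : Prop where
  z : nm 0 = 0
  st : ∀ x e, nm (x + step e) ≤ nm x + 1
  sy : ∀ e, ∃ e', step e' = -step e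

lemma HN.st' {nm : G → ℝ} (h : HN nm step) (x : G) (e : E) : nm (x - step e) ≤ nm x + 1 := by
  obtain ⟨e', he⟩ := h.sy e
  rw [sub_eq_add_neg, ← he]
  exact h.st x e'

lemma HN.exp_le {nm : G → ℝ} (h : HN nm step) (x : G) (e : E) :
    Real.exp (-nm (x + step e)) ≤ Real.exp 1 * Real.exp (-nm x) := by
  rw [← Real.exp_add]
  apply Real.exp_le_exp.2
  have := h.st' (x + step e) e
  rw [add_sub_cancel_right] at this
  linarith

lemma HN.exp_le' {nm : G → ℝ} (h : HN nm step) (x : G) (e : E) :
    Real.exp (-nm (x - step e)) ≤ Real.exp 1 * Real.exp (-nm x) := by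
  rw [← Real.exp_add]
  apply Real.exp_le_exp.2
  have := h.st (x - step e) e
  rw [sub_add_cancel] at this
  linarith

lemma pos_leader {s : LS ι G} (hs : Ok typ s) {a : ι × E} {o l l' : ι}
    (hl : s.ld o = some l) (hA : l = a.1 ∨ s.pos l = s.pos a.1 + step a.2) (hz : typ a.1 = true)
    (h' : (ring typ brv step a s).ld o = some l') :
    (ring typ brv step a s).pos l' = s.pos a.1 + step a.2 := by
  classical
  rcases ring_cases (typ := typ) (brv := brv) (step := step) a s with
    ⟨w, -, e2, e3, e4, e5⟩ | ⟨hno, hld⟩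
  · rw [ring_ld_hit (brv := brv) hs hz e2 e3 e4 e5] at h'
    split_ifs at h' with h1
    · rcases (res_eq h').2 with rfl | rfl
      · exact pos_self hz
      · rw [pos_ne e3, e5]
    · exfalso
      rw [hl] at h1
      push Not at h1
      rcases hA with hA | hA
      · exact h1.1 (by rw [hA])
      · exact h1.2 (by rw [hs.inj l w (hs.ldr _ _ hl) e4 (hA.trans e5.symm)])
  · rw [hld, hl] at h'
    have : l = l' := by simpa using h'
    subst this
    rcases hA with rfl | hA
    · exact pos_self hz
    · by_cases h1 : l = a.1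
      · subst h1; exact pos_self hz
      · rw [pos_ne h1, hA]

open Classical in
/-- the increment -/
noncomputable def inc (nm : G → ℝ) (s : LS ι G × LS ι G) (l z : ι) : ℝ :=
  (if z = l then (Real.exp 1 - 1) * wt nm s (s.1.pos l) else 0) +
  Real.exp 1 * ((if s.1.ld z = some z ∧ bad s (s.1.pos z) then
      Real.exp (-nm (s.1.pos z - s.1.pos l)) else 0) +
    (if s.2.ld z = some z ∧ bad s (s.2.pos z) then
      Real.exp (-nm (s.2.pos z - s.1.pos l)) else 0))

lemma one_le_exp1 : (1 : ℝ) ≤ Real.exp 1 := Real.one_le_exp zero_le_one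

lemma inc_nonneg (nm : G → ℝ) (s : LS ι G × LS ι G) (l z : ι) : 0 ≤ inc nm s l z := by
  unfold inc
  have h1 := one_le_exp1
  have h2 := wt_nonneg nm s (s.1.pos l)
  refine add_nonneg ?_ (mul_nonneg (Real.exp_pos _).le (add_nonneg ?_ ?_))
  · split_ifs
    · exact mul_nonneg (by linarith) h2
    · exact le_rfl
  · split_ifs
    · exact (Real.exp_pos _).le
    · exact le_rfl
  · split_ifs
    · exact (Real.exp_pos _).le
    · exact le_rfl

/-- one transition -/
lemma ww_step {nm : G → ℝ} (hn : HN nm step) {s : LS ι G × LS ι G} (hs : Inv typ s) {o l : ι}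
    (h1 : s.1.ld o = some l) (h2 : s.2.ld o = some l) (h3 : ¬ bad s (s.1.pos l))
    (h4 : Real.exp 1 * wt nm s (s.1.pos l) < 1) (a : ι × E) :
    ww nm o (rr typ brv step a s) ≤ Real.exp 1 * (wt nm s (s.1.pos l) + inc nm s l a.1) := by
  classical
  have hinc := inc_nonneg nm s l a.1
  have hwt := wt_nonneg nm s (s.1.pos l)
  have he := one_le_exp1
  have he0 : (0 : ℝ) ≤ Real.exp 1 := by linarith
  have hrhs : 0 ≤ Real.exp 1 * (wt nm s (s.1.pos l) + inc nm s l a.1) := by positivity
  -- sites at distance one are good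
  have hnear : ∀ x, nm (x - s.1.pos l) ≤ 1 → ¬ bad s x := by
    intro x hx hb
    have h5 := le_wt (nm := nm) (y := s.1.pos l) hb
    have h6 : Real.exp (-1) ≤ Real.exp (-nm (x - s.1.pos l)) := Real.exp_le_exp.2 (by linarith)
    have h7 : Real.exp 1 * Real.exp (-1) = 1 := by rw [← Real.exp_add]; simp
    nlinarith
  by_cases hz : typ a.1 = true
  swap
  · rw [rr_of_B (by simpa using hz), ww_of_some h1 h2 h3]
    refine (min_le_right _ _).trans ?_
    exact mul_le_mul_of_nonneg_left (by linarith) he0
  by_cases hA : l = a.1 ∨ s.1.pos l = s.1.pos a.1 + step a.2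
  · -- both sites are good
    have g1 : ¬ bad s (s.1.pos a.1) := by
      rcases hA with rfl | hA
      · exact h3
      · apply hnear
        rw [hA]
        have : s.1.pos a.1 - (s.1.pos a.1 + step a.2) = 0 - step a.2 := by abel
        rw [this]
        have := hn.st' 0 a.2
        rw [hn.z] at this
        linarith
    have g2 : ¬ bad s (s.1.pos a.1 + step a.2) := by
      rcases hA with rfl | hA
      · apply hnear
        rw [add_sub_cancel_left]
        have := hn.st 0 a.2
        rw [hn.z, zero_add] at this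
        linarith
      · rw [← hA]; exact h3
    have hsame := ld_same (brv := brv) hs g1 g2 (h1.trans h2.symm)
    cases hld : (ring typ brv step a s.1).ld o with
    | none =>
      rw [ww_of_none (by simpa [rr] using hld) (by simpa [rr] using hsame.symm.trans hld)]
      exact hrhs
    | some l' =>
      have hp := pos_leader (step := step) hs.1 h1 hA hz hld
      have hp' : (rr typ brv step a s).1.pos l' = s.1.pos a.1 + step a.2 := hp
      rw [ww_of_some (l := l') (by simpa [rr] using hld) (by simpa [rr] using hsame.symm.trans hld)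
        (by rw [hp']; exact fun h => g2 (bad_rr_good hs g1 g2 h)), hp']
      refine (min_le_right _ _).trans (mul_le_mul_of_nonneg_left ?_ he0)
      by_cases hl : l = a.1
      · have h5 : wt nm (rr typ brv step a s) (s.1.pos a.1 + step a.2) ≤
            Real.exp 1 * wt nm s (s.1.pos l) := by
          refine wt_le he0 (fun x => bad_rr_good hs g1 g2) fun x => ?_
          have := hn.exp_le' (x - s.1.pos l) a.2
          rw [hl] at this ⊢
          rwa [sub_sub] at this
        refine h5.trans ?_
        unfold inc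
        rw [if_pos hl.symm]
        have h6 : 0 ≤ Real.exp 1 * ((if s.1.ld a.1 = some a.1 ∧ bad s (s.1.pos a.1) then
            Real.exp (-nm (s.1.pos a.1 - s.1.pos l)) else 0) +
            (if s.2.ld a.1 = some a.1 ∧ bad s (s.2.pos a.1) then
            Real.exp (-nm (s.2.pos a.1 - s.1.pos l)) else 0)) := by
          refine mul_nonneg he0 (add_nonneg ?_ ?_)
          · split_ifs
            · exact (Real.exp_pos _).le
            · exact le_rfl
          · split_ifs
            · exact (Real.exp_pos _).le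
            · exact le_rfl
        linarith
      · have hA' : s.1.pos l = s.1.pos a.1 + step a.2 := hA.resolve_left hl
        rw [← hA']
        have h5 : wt nm (rr typ brv step a s) (s.1.pos l) ≤ 1 * wt nm s (s.1.pos l) :=
          wt_le zero_le_one (fun x => bad_rr_good hs g1 g2) fun x => by rw [one_mul]
        linarith
  · push Not at hA
    have hA2 : s.2.pos l ≠ s.2.pos a.1 + step a.2 := by rw [← hs.2.2]; exact hA.2
    have hld1 : (rr typ brv step a s).1.ld o = some l := (ld_other hs.1 hA.1 hA.2 o).2 h1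
    have hld2 : (rr typ brv step a s).2.ld o = some l := (ld_other hs.2.1 hA.1 hA2 o).2 h2
    have hp : (rr typ brv step a s).1.pos l = s.1.pos l := pos_ne hA.1
    rw [ww_of_some hld1 hld2 (by rw [hp]; exact fun h => h3 (bad_rr hs hA.2 h)), hp]
    refine (min_le_right _ _).trans (mul_le_mul_of_nonneg_left ?_ he0)
    by_cases hL : s.1.ld a.1 = some a.1 ∨ s.2.ld a.1 = some a.1
    · by_cases hb : bad s (s.1.pos a.1)
      · have h5 := wt_le_add (nm := nm) (y := s.1.pos l) (s' := rr typ brv step a s)
          (x0 := s.1.pos a.1 + step a.2) fun x hx => bad_rr (typ := typ) (brv := brv) hs hx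
        refine h5.trans (add_le_add le_rfl ?_)
        have h6 := hn.exp_le (s.1.pos a.1 - s.1.pos l) a.2
        have h7 : s.1.pos a.1 - s.1.pos l + step a.2 = s.1.pos a.1 + step a.2 - s.1.pos l := by abel
        rw [h7] at h6
        refine h6.trans ?_
        unfold inc
        rw [if_neg (Ne.symm hA.1), zero_add]
        refine mul_le_mul_of_nonneg_left ?_ he0
        rw [← hs.2.2]
        have h8 : (0 : ℝ) ≤ Real.exp (-nm (s.1.pos a.1 - s.1.pos l)) := (Real.exp_pos _).le
        rcases hL with hL | hL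
        · rw [if_pos ⟨hL, hb⟩]
          split_ifs <;> linarith
        · rw [if_pos (c := s.2.ld a.1 = some a.1 ∧ _) ⟨hL, hb⟩]
          split_ifs <;> linarith
      · have h5 : wt nm (rr typ brv step a s) (s.1.pos l) ≤ 1 * wt nm s (s.1.pos l) := by
          refine wt_le zero_le_one (fun x hx => ?_) fun x => by rw [one_mul]
          by_cases hb' : bad s (s.1.pos a.1 + step a.2)
          · by_cases hxx : x = s.1.pos a.1 + step a.2
            · rw [hxx]; exact hb'
            · exact bad_rr hs hxx hx
          · exact bad_rr_good hs hb hb' hx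
        linarith
    · push Not at hL
      have h5 : wt nm (rr typ brv step a s) (s.1.pos l) ≤ 1 * wt nm s (s.1.pos l) :=
        wt_le zero_le_one (fun x hx => bad_rr_idle hs hL.1 hL.2 hx) fun x => by rw [one_mul]
      linarith

open Classical in
/-- sum over the leaders of one system -/
lemma sum_leaders {s : LS ι G × LS ι G} {s' : LS ι G} (hs' : Ok typ s') (g : G → ℝ)
    (hg : ∀ x, 0 ≤ g x) :
    ∑ z : ι, (if s'.ld z = some z ∧ bad s (s'.pos z) then g (s'.pos z) else 0) ≤
      ∑ x ∈ badS s, g x := by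
  rw [← Finset.sum_filter]
  rw [← Finset.sum_image (s := Finset.univ.filter fun z => s'.ld z = some z ∧ bad s (s'.pos z))
    (g := s'.pos) (f := g)]
  · refine Finset.sum_le_sum_of_subset_of_nonneg (fun x hx => ?_) fun x _ _ => hg x
    rw [Finset.mem_image] at hx
    obtain ⟨z, hz, rfl⟩ := hx
    rw [mem_badS]
    exact (Finset.mem_filter.1 hz).2.2
  · intro z hz z' hz' h
    rw [Finset.mem_coe, Finset.mem_filter] at hz hz'
    exact hs'.inj z z' hz.2.1 hz'.2.1 h

/-- the generator -/
lemma gen_ww {d : ℕ} (hd : 1 ≤ d) {step : Dir d → G} {nm : G → ℝ} (hn : HN nm step) (o : ι)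
    {s : LS ι G × LS ι G} (hs : Inv typ s) :
    gen (fun _ : ι × Dir d => ra d) (rr typ brv step) (ww nm o) s ≤ 9 * ww nm o s := by
  classical
  have hra := ra_nonneg d
  have triv : ww nm o s = 1 →
      gen (fun _ : ι × Dir d => ra d) (rr typ brv step) (ww nm o) s ≤ 9 * ww nm o s := by
    intro h
    rw [h]
    have : gen (fun _ : ι × Dir d => ra d) (rr typ brv step) (ww nm o) s ≤ 0 := by
      refine Finset.sum_nonpos fun a _ => ?_
      rw [h]
      exact mul_nonpos_of_nonneg_of_nonpos hra (by linarith [(ww_bounds nm o (rr typ brv step a s)).2])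
    linarith
  by_cases hO : OO o s
  swap
  · exact triv (ww_of_not hO)
  cases hld : s.1.ld o with
  | none =>
    have h2 : s.2.ld o = none := hO.1.symm.trans hld
    rw [ww_of_none hld h2, mul_zero]
    refine Finset.sum_nonpos fun a _ => ?_
    rw [ww_of_none hld h2]
    have key : ∀ s' : LS ι G, Ok typ s' → s'.ld o = none →
        (ring typ brv step a s').ld o = none := by
      intro s' hs' h
      rcases ring_cases (typ := typ) (brv := brv) (step := step) a s' with
        ⟨w, e1, e2, e3, e4, e5⟩ | ⟨-, h'⟩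
      · rw [ring_ld_hit (brv := brv) hs' e1 e2 e3 e4 e5, h]
        simp
      · rw [h', h]
    rw [ww_of_none (key s.1 hs.1 hld) (key s.2 hs.2.1 h2)]
    simp
  | some l =>
    have h2 : s.2.ld o = some l := hO.1.symm.trans hld
    have h3 := hO.2 l hld
    have hw := ww_of_some (nm := nm) hld h2 h3
    by_cases h4 : Real.exp 1 * wt nm s (s.1.pos l) < 1
    swap
    · apply triv
      rw [hw]
      exact min_eq_left (by linarith)
    rw [min_eq_right h4.le] at hw
    rw [hw]
    set W := wt nm s (s.1.pos l) with hW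
    have hW0 : 0 ≤ W := wt_nonneg _ _ _
    have he := one_le_exp1
    have he3 : Real.exp 1 ≤ 3 := (Real.exp_one_lt_d9.trans (by norm_num)).le
    calc gen (fun _ : ι × Dir d => ra d) (rr typ brv step) (ww nm o) s
        ≤ ∑ a : ι × Dir d, ra d * (Real.exp 1 * inc nm s l a.1) := by
          refine Finset.sum_le_sum fun a _ => mul_le_mul_of_nonneg_left ?_ hra
          have := ww_step (brv := brv) hn hs hld h2 h3 h4 a
          rw [hw]
          linarith
      _ = ∑ z : ι, Real.exp 1 * inc nm s l z := by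
          rw [Fintype.sum_prod_type]
          refine Finset.sum_congr rfl fun z _ => ?_
          have hs1 : ∀ c : ℝ, ∑ _e : Dir d, ra d * c = c := fun c => by
            rw [← Finset.sum_mul, sum_ra hd, one_mul]
          exact hs1 (Real.exp 1 * inc nm s l z)
      _ ≤ Real.exp 1 * ((Real.exp 1 - 1) * W + Real.exp 1 * (W + W)) := by
          simp only [inc]
          rw [← Finset.mul_sum, Finset.sum_add_distrib, ← Finset.mul_sum, Finset.sum_add_distrib]
          refine mul_le_mul_of_nonneg_left (add_le_add ?_ (mul_le_mul_of_nonneg_left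
            (add_le_add ?_ ?_) (by linarith))) (by linarith)
          · rw [Finset.sum_ite_eq' Finset.univ l fun _ => (Real.exp 1 - 1) * W]
            simp
          · exact sum_leaders hs.1 (fun x => Real.exp (-nm (x - s.1.pos l)))
              fun x => (Real.exp_pos _).le
          · exact sum_leaders hs.2.1 (fun x => Real.exp (-nm (x - s.1.pos l)))
              fun x => (Real.exp_pos _).le
      _ ≤ 9 * (Real.exp 1 * W) := by
          have : 0 ≤ Real.exp 1 * W := mul_nonneg (by linarith) hW0
          nlinarith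

end DISC_

open DISC_ in
theorem t_DISC : T_DISC := by
  classical
  intro d ι G _ _ step start nm typ brv J o t hd ht hst hsy hnm0 hnmz hnms hJ
  have hn : HN nm step := ⟨hnmz, hnms, hsy⟩
  have hr : ∀ i : ι × Dir d, 0 ≤ (fun _ : ι × Dir d => ra d) i := fun _ => ra_nonneg d
  have hI : ∀ (a : ι × Dir d) (s : LS ι G × LS ι G), Inv typ s → Inv typ (rr typ brv step a s) :=
    fun a s hs => inv_rr a hs
  have hinit : Inv typ (LS.init start J, LS.init start fun _ => True) :=
    ⟨ok_init hst _, ok_init hst _, rfl⟩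
  have hb1 : Bd (fun s : LS ι G × LS ι G => if (s.1.ld o = none ↔ s.2.ld o = none) then (0 : ℝ)
      else 1) := ⟨1, fun s => by beta_reduce; split_ifs <;> simp⟩
  have hb2 : Bd (ww nm o : LS ι G × LS ι G → ℝ) := ⟨1, fun s => by
    rw [abs_le]; have := ww_bounds nm o s; constructor <;> linarith⟩
  have step1 := sg_mono hr hI (Bd.grF hr hb1) (Bd.grF hr hb2) (fun s _ => by
    by_cases h : s.1.ld o = s.2.ld o
    · rw [if_pos (by rw [h])]
      exact (ww_bounds nm o s).1
    · rw [ww_of_not (fun hO => h hO.1)]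
      split_ifs <;> norm_num) ht hinit
  have step2 := sg_gronwall hr hI (Bd.grF hr hb2) (c := 9) (by norm_num)
    (fun s hs => gen_ww hd hn o hs) ht hinit
  refine (step1.trans step2).trans ?_
  have hbad : ∀ x, bad ((LS.init start J, LS.init start fun _ => True) : LS ι G × LS ι G) x →
      ∃ z, ¬ J z ∧ start z = x := by
    rintro x ⟨a, v, h1, h2⟩
    simp only [LS.init, if_true] at h1 h2
    by_cases hv : J v
    · rw [if_pos hv] at h2
      exact absurd Iff.rfl h2
    · rw [if_neg hv] at h2
      have : v = a := by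
        by_contra hne
        apply h2
        constructor
        · intro h; cases h
        · intro h; exact absurd (by simpa using h) hne
      subst this
      exact ⟨v, hv, h1⟩
  have hw : ww nm o ((LS.init start J, LS.init start fun _ => True) : LS ι G × LS ι G) ≤
      Real.exp 1 * ∑ z ∈ (Finset.univ : Finset ι).filter (fun z => ¬ J z),
        Real.exp (-nm (start z - start o)) := by
    rw [ww_of_some (l := o) (by simp [LS.init, hJ]) (by simp [LS.init])
      (by
        intro h
        obtain ⟨z, hz, hz'⟩ := hbad _ h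
        have hz'' : start z = start o := hz'
        rw [hst hz''] at hz
        exact hz hJ)]
    refine (min_le_right _ _).trans (mul_le_mul_of_nonneg_left ?_ (Real.exp_pos _).le)
    unfold wt
    rw [← Finset.sum_image (s := Finset.univ.filter fun z => ¬ J z)
      (g := start) (f := fun x => Real.exp (-nm (x - start o))) (fun z _ z' _ h => hst h)]
    refine Finset.sum_le_sum_of_subset_of_nonneg (fun x hx => ?_) fun x _ _ => (Real.exp_pos _).le
    obtain ⟨z, hz, rfl⟩ := hbad x (mem_badS.1 hx)
    exact Finset.mem_image_of_mem _ (Finset.mem_filter.2 ⟨Finset.mem_univ _, hz⟩)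
  calc Real.exp (9 * t) * ww nm o (LS.init start J, LS.init start fun _ => True)
      ≤ Real.exp (9 * t) * (Real.exp 1 * ∑ z ∈ (Finset.univ : Finset ι).filter (fun z => ¬ J z),
        Real.exp (-nm (start z - start o))) :=
        mul_le_mul_of_nonneg_left hw (Real.exp_pos _).le
    _ = _ := by rw [Real.exp_add, mul_assoc]

end Pool.Agent.CAS
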