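import Pool.Agent.CAS.Basic

/-!
# Coupling of the literal system with the flow with killing
-/

open Finset Filter Topology MeasureTheory
open scoped BigOperators

namespace Pool.Agent.CAS

set_option linter.unusedSectionVars false

namespace DOM_

variable {d L : ℕ}

/-- the coupled transition -/
noncomputable def cup (typ : V d L → Bool) (a : Ar d L) (p : (V d L → Option (V d L)) × FS d L) :
    (V d L → Option (V d L)) × FS d L :=
  (aup typ a p.1,
    fup (a, decide (a.1 + dv a.2 ∈ Finset.univ.filter fun z => typ z = false)) p.2)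

/-- the invariant -/
structure Inv (typ : V d L → Bool) (p : (V d L → Option (V d L)) × FS d L) : Prop where
  j1 : ∀ z, typ z = true → p.1 z ≠ none → p.1 z = some (p.2.pos z)
  j2 : ∀ z, z ∈ p.2.dead → typ z = true → p.1 z = none
  j3 : ∀ y, typ y = false → y ∉ p.2.vis → p.1 y = some y
  j5 : ∀ z x, z ≠ x → p.2.pos z = x → x ∈ p.2.vis

lemma inv_cup {typ : V d L → Bool} (a : Ar d L) (p : (V d L → Option (V d L)) × FS d L)
    (h : Inv typ p) : Inv typ (cup typ a p) := by
  obtain ⟨l, s⟩ := p
  obtain ⟨j1, j2, j3, j5⟩ := h
  simp only at j1 j2 j3 j5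
  obtain ⟨α, e⟩ := a
  set y : V d L := α + dv e with hy
  -- an alive A line at `α`
  have hvis : ∀ w, typ w = false → (∃ z, typ z = true ∧ l z = some α) → w = α → w ∈ s.vis := by
    rintro w hw ⟨z, hz1, hz2⟩ rfl
    have h1 := j1 z hz1 (by rw [hz2]; simp)
    rw [hz2] at h1
    refine j5 z w (fun h => ?_) (Option.some_injective _ h1).symm
    rw [h, hw] at hz1
    exact absurd hz1 (by simp)
  constructor
  · intro z hz1 hz2
    show aup typ (α, e) l z = some ((fup _ s).pos z)
    have hz2' : aup typ (α, e) l z ≠ none := hz2
    rw [fup_pos]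
    unfold aup at hz2' ⊢
    simp only at hz2' ⊢
    rw [← hy] at hz2' ⊢
    by_cases c1 : ∃ z, typ z = true ∧ l z = some α
    · rw [if_pos c1] at hz2' ⊢
      by_cases c2 : typ y = false ∧ l y = some y
      · rw [if_pos c2] at hz2' ⊢
        by_cases c3 : l z = some α ∨ z = y
        · rw [if_pos c3] at hz2'; exact absurd rfl hz2'
        · rw [if_neg c3] at hz2' ⊢
          push Not at c3
          have h1 := j1 z hz1 hz2'
          rw [if_neg (fun h2 => c3.1 (by rw [h1, h2]))]
          exact h1
      · rw [if_neg c2] at hz2' ⊢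
        by_cases c3 : l z = some α
        · rw [if_pos c3]
          have h1 := j1 z hz1 (by rw [c3]; simp)
          rw [c3] at h1
          rw [if_pos (Option.some_injective _ h1).symm]
        · rw [if_neg c3] at hz2' ⊢
          have h1 := j1 z hz1 hz2'
          rw [if_neg (fun h2 => c3 (by rw [h1, h2]))]
          exact h1
    · rw [if_neg c1] at hz2' ⊢
      have h1 := j1 z hz1 hz2'
      rw [if_neg (fun h2 => c1 ⟨z, hz1, by rw [h1, h2]⟩)]
      exact h1
  · intro z hz hz1
    show aup typ (α, e) l z = none
    have hz' : z ∈ (fup ((α, e), decide (y ∈ Finset.univ.filter fun z => typ z = false)) s).dead :=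
      hz
    rw [mem_fup_dead] at hz'
    have hnone : l z = none → aup typ (α, e) l z = none := by
      intro hl
      unfold aup
      split_ifs <;> simp [hl]
    rcases hz' with h1 | ⟨h1, h2, h3, h4⟩
    · exact hnone (j2 z h1 hz1)
    · by_cases hl : l z = none
      · exact hnone hl
      · have h5 := j1 z hz1 hl
        simp only at h1 h2 h3 h4
        rw [h1] at h5
        rw [← hy] at h2 h3
        have h6 : typ y = false := by
          have := of_decide_eq_true h4
          simpa using this
        have h7 := j3 y h6 h3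
        unfold aup
        simp only
        rw [← hy, if_pos ⟨z, hz1, h5⟩, if_pos ⟨h6, h7⟩]
        rw [if_pos (Or.inl h5)]
  · intro w hw hwv
    show aup typ (α, e) l w = some w
    have hwv' : w ∉ (fup ((α, e), decide (y ∈ Finset.univ.filter fun z => typ z = false)) s).vis :=
      hwv
    rw [mem_fup_vis] at hwv'
    push Not at hwv'
    obtain ⟨h1, h2⟩ := hwv'
    simp only at h1
    rw [← hy] at h1
    have hl := j3 w hw h2
    unfold aup
    simp only
    rw [← hy]
    by_cases c1 : ∃ z, typ z = true ∧ l z = some α
    · rw [if_pos c1]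
      have hwa : w ≠ α := fun h => h2 (hvis w hw c1 h)
      have hla : l w ≠ some α := by
        rw [hl]
        exact fun h => hwa (Option.some_injective _ h)
      by_cases c2 : typ y = false ∧ l y = some y
      · rw [if_pos c2]
        have hwy : w ≠ y := by
          intro h
          apply h1 h
          obtain ⟨z, hz1, hz2⟩ := c1
          have h3 := j1 z hz1 (by rw [hz2]; simp)
          rw [hz2] at h3
          refine ⟨z, fun h4 => ?_, (Option.some_injective _ h3).symm⟩
          rw [h4, c2.1] at hz1
          exact absurd hz1 (by simp)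
        rw [if_neg (by push Not; exact ⟨hla, hwy⟩)]
        exact hl
      · rw [if_neg c2]
        rw [if_neg hla]
        exact hl
    · rw [if_neg c1]
      exact hl
  · intro z x hzx hp
    show x ∈ (fup _ s).vis
    have hp' : (fup ((α, e), decide (y ∈ Finset.univ.filter fun z => typ z = false)) s).pos z = x :=
      hp
    rw [fup_pos] at hp'
    rw [mem_fup_vis]
    simp only at hp' ⊢
    split_ifs at hp' with h1
    · left
      refine ⟨hp'.symm, z, ?_, h1⟩
      rw [hp']; exact hzx
    · right; exact j5 z x hzx hp'

lemma inv_init (typ : V d L → Bool) : Inv typ (fun z => some z, FS.init d L) := by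
  constructor
  · intro z _ _; rfl
  · intro z hz _
    exact absurd hz (by simp [FS.init])
  · intro y _ _; rfl
  · intro z x hzx hp
    exact absurd hp hzx

end DOM_

open DOM_ in
theorem t_DOM : T_DOM := by
  intro d L typ t o _ ht
  have hr : ∀ _ : Ar d L, 0 ≤ ra d := fun _ => ra_nonneg d
  have e1 := sg_map (r := fun _ : Ar d L => ra d) (φ := cup typ) (ψ := aup typ)
    (fun p => p.1) (Inv := fun _ => True) (fun _ _ _ => trivial) (fun _ _ _ => rfl) t
    (fun l => if typ o = true ∧ l o ≠ none then (1 : ℝ) else 0)
    (s := (fun z => some z, FS.init d L)) trivial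
  have e2 := sg_map (r := fun _ : Ar d L => ra d) (φ := cup typ)
    (ψ := fun a => fup (a, decide (a.1 + dv a.2 ∈ Finset.univ.filter fun z => typ z = false)))
    (fun p => p.2) (Inv := fun _ => True) (fun _ _ _ => trivial) (fun _ _ _ => rfl) t
    (fun s => if o ∈ s.dead then (0 : ℝ) else 1)
    (s := (fun z => some z, FS.init d L)) trivial
  unfold ssg
  rw [← e1, ← e2]
  refine sg_mono hr (Inv := Inv typ) (fun a p h => inv_cup a p h) (grF_of_finite hr _)
    (grF_of_finite hr _) (fun p hp => ?_) ht (inv_init typ)
  by_cases h1 : o ∈ p.2.dead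
  · rw [if_pos h1, if_neg]
    rintro ⟨h2, h3⟩
    exact h3 (hp.j2 o h1 h2)
  · rw [if_neg h1]
    split_ifs <;> norm_num

end Pool.Agent.CAS
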