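import Pool.Agent.CAS.Basic

/-!
# CAS-DUAL: dualities between the coalescing flow and the voter model with zealots
-/

open Finset Filter Topology MeasureTheory
open scoped BigOperators

namespace Pool.Agent.CAS

set_option linter.unusedSectionVars false

namespace DUAL_

/-- One-sided duality. -/
lemma duality_le {S S' I : Type*} [Fintype I] [Finite S] [Finite S'] {r : I → ℝ} {φ : I → S → S}
    {ψ : I → S' → S'} (hr : ∀ i, 0 ≤ r i) (D : S → S' → ℝ) {Inv : S → Prop}
    (hI : ∀ i s, Inv s → Inv (φ i s))
    (h : ∀ i s s', Inv s → D (φ i s) s' ≤ D s (ψ i s')) {t : ℝ} (ht : 0 ≤ t) {s : S} (s' : S')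
    (hs : Inv s) :
    sg r φ t (fun s => D s s') s ≤ sg r ψ t (fun s' => D s s') s' := by
  refine sg_le_of_super hr hI (f := fun s => D s s')
    (W := fun t s => sg r ψ t (fun s' => D s s') s')
    (W' := fun t s => sg r ψ t (gen r ψ (fun s' => D s s')) s') ht
    (fun t _ s _ => hasDerivAt_sg (grF_of_finite hr _) _ _) (fun t htt s hs => ?_)
    (fun s _ => by rw [sg_zero]) hs
  have e1 : sg r ψ t (gen r ψ (fun s' => D s s')) s' =
      ∑ i, r i * (sg r ψ t (fun u => D s (ψ i u)) s' - sg r ψ t (fun u => D s u) s') := by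
    unfold gen
    rw [sg_sum _ (fun j _ => grF_of_finite hr _)]
    refine Finset.sum_congr rfl fun i _ => ?_
    rw [sg_smul, sg_sub (grF_of_finite hr _) (grF_of_finite hr _)]
  rw [e1]
  unfold gen
  refine Finset.sum_le_sum fun i _ => mul_le_mul_of_nonneg_left ?_ (hr i)
  have e2 : sg r ψ t (fun u => D (φ i s) u) s' ≤ sg r ψ t (fun u => D s (ψ i u)) s' :=
    sg_mono' hr (grF_of_finite hr _) (grF_of_finite hr _) (fun u => h i s u hs) htt.1 s'
  exact sub_le_sub_right e2 _

variable {d L : ℕ}

/-- the coin does not matter for the voter model -/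
lemma zsg_coin {ε : ℝ} (h0 : 0 ≤ ε) (h1 : ε ≤ 1) {t : ℝ} (ht : 0 ≤ t) (Z : Finset (V d L))
    (f : Finset (V d L) → ℝ) (A : Finset (V d L)) :
    sg (rc d L ε) (fun a => zup Z a.1) t f A = zsg Z t f A := by
  refine sg_lump (r := rc d L ε) (r' := fun _ : Ar d L => ra d) (φ := fun a => zup Z a.1)
    (ψ := zup Z) (rc_nonneg h0 h1) (fun _ => ra_nonneg d) (Inv := fun _ => True)
    (fun _ _ _ => trivial) (fun A => A) (fun f A _ => ?_) ht f (s := A) trivial
  unfold gen
  rw [Fintype.sum_prod_type]
  refine Finset.sum_congr rfl fun a _ => ?_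
  simp only [Fintype.sum_bool, rc, if_true, Bool.false_eq_true, if_false]
  ring

/-- a line which is at `x` and started elsewhere has visited `x` -/
def Iv (x : V d L) (s : FS d L) : Prop := ∀ z, z ≠ x → s.pos z = x → x ∈ s.vis

lemma Iv_init (x : V d L) : Iv x (FS.init d L) := fun _ hz hzx => absurd hzx hz

lemma Iv_fup (x : V d L) (a : Ar d L × Bool) (s : FS d L) (h : Iv x s) : Iv x (fup a s) := by
  intro z hz hzx
  rw [mem_fup_vis]
  rw [fup_pos] at hzx
  split_ifs at hzx with h1
  · left
    refine ⟨hzx.symm, z, ?_, h1⟩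
    rw [hzx]; exact hz
  · right
    exact h z hz hzx

lemma inv_zup (Z : Finset (V d L)) (i : Ar d L × Bool) (A : Finset (V d L)) (h : Disjoint A Z) :
    Disjoint (zup Z i.1 A) Z := zup_disj h

/-- translation of the starting point -/
lemma zsg_translate (Z A : Finset (V d L)) (v : V d L) (t : ℝ) (f : Finset (V d L) → ℝ)
    (hf : ∀ A : Finset (V d L), f (A.image (· + v)) = f A) :
    zsg (Z.image (· + v)) t f (A.image (· + v)) = zsg Z t f A := by
  rw [zsg_image_add]
  congr 1
  funext A
  exact hf A

open Classical in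
/-- first duality -/
lemma dual1 {ε : ℝ} (h0 : 0 ≤ ε) (h1 : ε ≤ 1) {t : ℝ} (ht : 0 ≤ t) (x : V d L) :
    fsg ε t (fun s : FS d L => if x ∉ s.vis then 1 else 0) (FS.init d L) = uu d L t := by
  set D : FS d L → Finset (V d L) → ℝ := fun s A =>
    if x ∉ s.vis ∧ ∀ z, z ≠ x → s.pos z ∉ A then 1 else 0 with hD
  have key := sg_duality (r := rc d L ε) (φ := fup) (ψ := fun a => zup {x} a.1) D
    (Inv := Iv x) (Inv' := fun _ => True) (Iv_fup x) (fun _ _ _ => trivial)
    (fun a s A hs _ => ?_) t (Iv_init x) (s' := ∅) trivial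
  · have e1 : fsg ε t (fun s : FS d L => if x ∉ s.vis then 1 else 0) (FS.init d L) =
        sg (rc d L ε) fup t (fun s => D s ∅) (FS.init d L) := by
      unfold fsg
      congr 1
      funext s
      simp [hD]
    rw [e1, key, zsg_coin h0 h1 ht]
    have e2 : zsg {x} t (fun A => D (FS.init d L) A) ∅ =
        zsg {x} t (fun A => if A = ∅ then 1 else 0) ∅ := by
      unfold zsg
      refine sg_congr (fun _ => ra_nonneg d) (Inv := fun A => Disjoint A {x})
        (fun a A h => zup_disj h) (fun A hA => ?_) t (Finset.disjoint_empty_left _)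
      simp only [hD, FS.init, Finset.notMem_empty, not_false_eq_true, true_and, id]
      have hxA : x ∉ A := by
        rw [Finset.disjoint_right] at hA
        exact hA (Finset.mem_singleton_self x)
      have : (∀ z, z ≠ x → z ∉ A) ↔ A = ∅ := by
        constructor
        · intro h
          rw [Finset.eq_empty_iff_forall_notMem]
          intro z
          by_cases hz : z = x
          · rw [hz]; exact hxA
          · exact h z hz
        · rintro rfl z _
          exact Finset.notMem_empty z
      simp only [this]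
    rw [e2]
    have e3 := zsg_translate ({0} : Finset (V d L)) ∅ x t (fun A => if A = ∅ then 1 else 0)
      (fun A => by simp only [Finset.image_eq_empty])
    simp only [Finset.image_singleton, zero_add, Finset.image_empty] at e3
    rw [e3]; rfl
  · simp only [hD]
    refine if_congr ?_ rfl rfl
    rw [mem_fup_vis]
    simp only [fup_pos, mem_zup, Finset.mem_union, Finset.mem_singleton]
    obtain ⟨⟨u, e⟩, b⟩ := a
    simp only
    constructor
    · rintro ⟨h2, h3⟩
      push Not at h2
      refine ⟨h2.2, fun z hz => ?_⟩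
      have h4 := h3 z hz
      split_ifs with h5
      · rw [if_pos h5.1] at h4
        rintro (h6 | h6)
        · exact h4 h6
        · exact h2.1 h6.symm ⟨z, by rw [h6]; exact hz, h5.1⟩
      · by_cases h6 : s.pos z = u
        · have h7 : u = x := by
            by_contra h8
            exact h5 ⟨h6, h8⟩
          exact absurd (hs z hz (h6.trans h7)) h2.2
        · rwa [if_neg h6] at h4
    · rintro ⟨h2, h3⟩
      constructor
      · rintro (⟨h4, z, hz, h5⟩ | h4)
        · have hzx : z ≠ x := by rw [h4]; exact hz
          have h6 := h3 z hzx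
          by_cases h7 : u = x
          · exact h2 (hs z hzx (h5.trans h7))
          · rw [if_pos ⟨h5, h7⟩] at h6
            exact h6 (Or.inr h4.symm)
        · exact h2 h4
      · intro z hz
        have h6 := h3 z hz
        split_ifs with h5
        · by_cases h7 : u = x
          · exact absurd (hs z hz (h5.trans h7)) h2
          · rw [if_pos ⟨h5, h7⟩] at h6
            exact fun h8 => h6 (Or.inl h8)
        · rw [if_neg (fun h8 => h5 h8.1)] at h6
          exact h6

open Classical in
/-- second duality -/
lemma dual2 {ε : ℝ} (h0 : 0 ≤ ε) (h1 : ε ≤ 1) {t : ℝ} (ht : 0 ≤ t) (x y : V d L) :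
    vis2 ε t x y ≤ uu2 (y - x) t := by
  set D : FS d L → Finset (V d L) → ℝ := fun s A =>
    if (x ∉ s.vis ∧ y ∉ s.vis) ∧ ∀ z, z ≠ x → z ≠ y → s.pos z ∉ A then 1 else 0 with hD
  have key := duality_le (r := rc d L ε) (φ := fup) (ψ := fun a => zup {x, y} a.1)
    (rc_nonneg h0 h1) D (Inv := fun s => Iv x s ∧ Iv y s)
    (fun a s h => ⟨Iv_fup x a s h.1, Iv_fup y a s h.2⟩)
    (fun a s A hs => ?_) ht ∅ ⟨Iv_init x, Iv_init y⟩
  · have e1 : vis2 ε t x y = sg (rc d L ε) fup t (fun s => D s ∅) (FS.init d L) := by
      unfold vis2 fsg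
      congr 1
      funext s
      simp [hD]
    rw [e1]
    refine key.trans (le_of_eq ?_)
    rw [zsg_coin h0 h1 ht]
    have e2 : zsg {x, y} t (fun A => D (FS.init d L) A) ∅ =
        zsg {x, y} t (fun A => if A = ∅ then 1 else 0) ∅ := by
      unfold zsg
      refine sg_congr (fun _ => ra_nonneg d) (Inv := fun A => Disjoint A {x, y})
        (fun a A h => zup_disj h) (fun A hA => ?_) t (Finset.disjoint_empty_left _)
      simp only [hD, FS.init, Finset.notMem_empty, not_false_eq_true, true_and, id]
      have hxA : x ∉ A ∧ y ∉ A := by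
        rw [Finset.disjoint_right] at hA
        exact ⟨hA (by simp), hA (by simp)⟩
      have : (∀ z, z ≠ x → z ≠ y → z ∉ A) ↔ A = ∅ := by
        constructor
        · intro h
          rw [Finset.eq_empty_iff_forall_notMem]
          intro z
          by_cases hz : z = x
          · rw [hz]; exact hxA.1
          · by_cases hz' : z = y
            · rw [hz']; exact hxA.2
            · exact h z hz hz'
        · rintro rfl z _ _
          exact Finset.notMem_empty z
      simp only [this]
    rw [e2]
    have e3 := zsg_translate ({0, y - x} : Finset (V d L)) ∅ x t (fun A => if A = ∅ then 1 else 0)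
      (fun A => by simp only [Finset.image_eq_empty])
    simp only [Finset.image_insert, Finset.image_singleton, zero_add, Finset.image_empty,
      sub_add_cancel] at e3
    rw [e3]; rfl
  · simp only [hD]
    obtain ⟨⟨u, e⟩, b⟩ := a
    split_ifs with h2 h3 h3
    · exact le_rfl
    · exfalso
      apply h3
      obtain ⟨⟨h4, h5⟩, h6⟩ := h2
      rw [mem_fup_vis] at h4 h5
      push Not at h4 h5
      refine ⟨⟨h4.2, h5.2⟩, fun z hz hz' => ?_⟩
      have h7 := h6 z hz hz'
      rw [fup_pos] at h7
      rw [mem_zup]
      simp only [Finset.mem_union, Finset.mem_insert, Finset.mem_singleton]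
      simp only at h4 h5 h7
      split_ifs with h8
      · rw [if_pos h8.1] at h7
        rintro (h9 | h9 | h9)
        · exact h7 h9
        · exact h4.1 h9.symm ⟨z, by rw [h9]; exact hz, h8.1⟩
        · exact h5.1 h9.symm ⟨z, by rw [h9]; exact hz', h8.1⟩
      · by_cases h9 : s.pos z = u
        · exfalso
          have h10 : u = x ∨ u = y := by
            by_contra h11
            exact h8 ⟨h9, h11⟩
          rcases h10 with h10 | h10
          · exact h4.2 (hs.1 z hz (h9.trans h10))
          · exact h5.2 (hs.2 z hz' (h9.trans h10))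
        · rwa [if_neg h9] at h7
    · exact zero_le_one
    · exact le_rfl

/-- third duality -/
lemma dual3 {ε : ℝ} (h0 : 0 ≤ ε) (h1 : ε ≤ 1) {t : ℝ} (ht : 0 ≤ t) (g : ℝ → ℝ) (x : V d L) :
    fsg ε t (fun s : FS d L => g (s.ct x)) (FS.init d L) =
      zsg (∅ : Finset (V d L)) t (fun A => g A.card) {0} := by
  have key := sg_duality (r := rc d L ε) (φ := fup) (ψ := fun a => zup (∅ : Finset (V d L)) a.1)
    (fun (s : FS d L) (A : Finset (V d L)) =>
      g ((Finset.univ.filter fun z => s.pos z ∈ A).card : ℝ))
    (Inv := fun _ => True) (Inv' := fun _ => True) (fun _ _ _ => trivial) (fun _ _ _ => trivial)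
    (fun a s A _ _ => ?_) t (s := FS.init d L) trivial (s' := {x}) trivial
  · have e1 : fsg ε t (fun s : FS d L => g (s.ct x)) (FS.init d L) =
        sg (rc d L ε) fup t
          (fun s => g ((Finset.univ.filter fun z => s.pos z ∈ ({x} : Finset (V d L))).card : ℝ))
          (FS.init d L) := by
      unfold fsg FS.ct
      simp only [Finset.mem_singleton]
    rw [e1, key, zsg_coin h0 h1 ht]
    have e2 : (fun A : Finset (V d L) =>
        g ((Finset.univ.filter fun z => (FS.init d L).pos z ∈ A).card : ℝ)) =
        fun A => g A.card := by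
      funext A
      have : (Finset.univ.filter fun z => (FS.init d L).pos z ∈ A) = A := by
        ext z
        rw [Finset.mem_filter]
        exact ⟨fun h => h.2, fun h => ⟨Finset.mem_univ _, h⟩⟩
      rw [this]
    rw [e2]
    have e3 := zsg_translate (∅ : Finset (V d L)) {0} x t (fun A => g A.card)
      (fun A => by rw [Finset.card_image_of_injective _ (add_left_injective x)])
    simp only [Finset.image_singleton, zero_add, Finset.image_empty] at e3
    rw [e3]
  · congr 2
    congr 1
    refine Finset.filter_congr fun z _ => ?_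
    simp only [fup_pos, mem_zup, Finset.notMem_empty, not_false_eq_true, and_true,
      Finset.union_empty]
    split_ifs <;> rfl

end DUAL_

theorem t_DUAL (_h : T_TR) : T_DUAL := by
  intro d L ε t _ h0 h1 ht
  exact ⟨fun x => DUAL_.dual1 h0 h1 ht x, fun x y _ => DUAL_.dual2 h0 h1 ht x y,
    fun g x => DUAL_.dual3 h0 h1 ht g x⟩

end Pool.Agent.CAS
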