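import Mathlib

/-!
# Directions
-/

namespace Pool.Agent.CAS

/-- the `2 d` directions: `(i, true)` is the direction of the unit vector `e_i`, `(i, false)` the
opposite direction -/
abbrev Dir (d : ℕ) := Fin d × Bool

/-- the probability of each direction -/
noncomputable def ra (d : ℕ) : ℝ := 1 / (2 * d)

end Pool.Agent.CAS
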