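import Pool.Agent.CAS.SG2
import Pool.Agent.CAS.Dirs

/-!
# Definitions for MP_ae5001_pr (annihilating-coalescing system, immobile B particles)

Tori `V d L`, the voter model with zealots (the dual of coalescing random walks), the coalescing
flow with killing at marked sites, and the abstract Lyapunov structure `LD`.
-/

open Finset Filter Topology
open scoped BigOperators

namespace Pool.Agent.CAS

/-- the discrete torus of side `L + 1` -/
abbrev V (d L : ℕ) := Fin d → ZMod (L + 1)

/-- the unit vector in direction `e` -/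
def dv {d L : ℕ} (e : Dir d) : V d L := Pi.single e.1 (if e.2 then 1 else -1)

/-- arrows `x → x + dv e` -/
abbrev Ar (d L : ℕ) := V d L × Dir d

/-- the nearest neighbour kernel -/
noncomputable def Pk {d L : ℕ} (f : V d L → ℝ) (x : V d L) : ℝ := ∑ e : Dir d, ra d * f (x + dv e)

/-- heat kernel of the rate one walk started at `0` -/
noncomputable def hk {d L : ℕ} (t : ℝ) (x : V d L) : ℝ :=
  sg (fun _ : Dir d => ra d) (fun e y => y + dv e) t (fun y => if y = x then 1 else 0) 0

/-- the probability that the rate one walk started at `x` visits `y` before time `t`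
(the walk is stopped at `y`) -/
noncomputable def hit {d L : ℕ} (t : ℝ) (x y : V d L) : ℝ :=
  sg (fun _ : Dir d => ra d) (fun e z => if z = y then z else z + dv e) t
    (fun z => if z = y then 1 else 0) x

/-- the sites whose coordinates have representatives in `[-R, R]` -/
noncomputable def bal {d L : ℕ} (R : ℕ) : Finset (V d L) :=
  Fintype.piFinset fun _ : Fin d => (Finset.Icc (-(R : ℤ)) R).image fun k : ℤ => (k : ZMod (L + 1))

/-! ## The voter model with zealots -/

/-- The arrow `a = (x, e)`: the site `x` copies the opinion of `y = x + dv e`. Sites of `Z` are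
zealots: they have opinion one for ever. `A` is the set of non-zealots with opinion one. -/
def zup {d L : ℕ} (Z : Finset (V d L)) (a : Ar d L) (A : Finset (V d L)) : Finset (V d L) :=
  if a.1 ∈ Z then A else if a.1 + dv a.2 ∈ A ∪ Z then insert a.1 A else A.erase a.1

/-- semigroup of the voter model with zealots -/
noncomputable def zsg {d L : ℕ} (Z : Finset (V d L)) (t : ℝ) (f : Finset (V d L) → ℝ)
    (A : Finset (V d L)) : ℝ :=
  sg (fun _ : Ar d L => ra d) (zup Z) t f A

/-- `P(0 is not visited by any other line by time t)` -/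
noncomputable def uu (d L : ℕ) (t : ℝ) : ℝ :=
  zsg ({0} : Finset (V d L)) t (fun A => if A = ∅ then 1 else 0) ∅

/-- the same for two zealots `0` and `x` -/
noncomputable def uu2 {d L : ℕ} (x : V d L) (t : ℝ) : ℝ :=
  zsg ({0, x} : Finset (V d L)) t (fun A => if A = ∅ then 1 else 0) ∅

/-- `P(0 is occupied at time t)` -/
noncomputable def rho (d L : ℕ) (t : ℝ) : ℝ :=
  zsg (∅ : Finset (V d L)) t (fun A => if A = ∅ then 0 else 1) {0}

/-! ## The coalescing flow with killing -/

/-- `pos z` is the present position of the line started at `z`; `vis` is the set of the sites that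
have been visited by a line started at another site; `dead` is the set of the killed lines. -/
structure FS (d L : ℕ) where
  pos : V d L → V d L
  vis : Finset (V d L)
  dead : Finset (V d L)

instance (d L : ℕ) : Finite (FS d L) :=
  Finite.of_injective (fun s : FS d L => (s.pos, s.vis, s.dead)) (by
    rintro ⟨a, b, c⟩ ⟨a', b', c'⟩ h
    simp only [Prod.mk.injEq] at h
    obtain ⟨h1, h2, h3⟩ := h
    subst h1; subst h2; subst h3; rfl)

/-- the initial state -/
def FS.init (d L : ℕ) : FS d L := ⟨id, ∅, ∅⟩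

/-- some line started at a site different from `y` is at `x` -/
def FS.oth {d L : ℕ} (s : FS d L) (x y : V d L) : Prop := ∃ z, z ≠ y ∧ s.pos z = x

/-- the number of lines at `x` -/
noncomputable def FS.ct {d L : ℕ} (s : FS d L) (x : V d L) : ℝ :=
  ((Finset.univ.filter fun z => s.pos z = x).card : ℝ)

open Classical in
/-- the number of alive lines at `x` -/
noncomputable def FS.al {d L : ℕ} (s : FS d L) (x : V d L) : ℝ :=
  ((Finset.univ.filter fun z => s.pos z = x ∧ z ∉ s.dead).card : ℝ)

open Classical in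
/-- Transition with arrow `a.1 = (x, e)` and coin `a.2`: all the lines at `x` move to
`y = x + dv e`. If some line started at a site different from `y` moves, `y` becomes visited; if
moreover `y` was not visited before and the coin is `true`, all the lines that move are killed. -/
noncomputable def fup {d L : ℕ} (a : Ar d L × Bool) (s : FS d L) : FS d L :=
  { pos := fun z => if s.pos z = a.1.1 then a.1.1 + dv a.1.2 else s.pos z
    vis := if s.oth a.1.1 (a.1.1 + dv a.1.2) then insert (a.1.1 + dv a.1.2) s.vis else s.vis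
    dead := if s.oth a.1.1 (a.1.1 + dv a.1.2) ∧ a.1.1 + dv a.1.2 ∉ s.vis ∧ a.2 = true then
      s.dead ∪ Finset.univ.filter (fun z => s.pos z = a.1.1) else s.dead }

/-- the rates: the coin is `true` with probability `ε` -/
noncomputable def rc (d L : ℕ) (ε : ℝ) (a : Ar d L × Bool) : ℝ :=
  ra d * (if a.2 then ε else 1 - ε)

/-- semigroup of the coalescing flow with killing -/
noncomputable def fsg {d L : ℕ} (ε t : ℝ) (f : FS d L → ℝ) (s : FS d L) : ℝ :=
  sg (rc d L ε) fup t f s

/-- probability that the line started at `0` is alive at time `t` -/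
noncomputable def th (ε : ℝ) (d L : ℕ) (t : ℝ) : ℝ :=
  fsg ε t (fun s : FS d L => if (0 : V d L) ∈ s.dead then 0 else 1) (FS.init d L)

/-- probability that neither `x` nor `y` is visited by time `t` -/
noncomputable def vis2 {d L : ℕ} (ε t : ℝ) (x y : V d L) : ℝ :=
  fsg ε t (fun s : FS d L => if x ∉ s.vis ∧ y ∉ s.vis then 1 else 0) (FS.init d L)

/-- the second moment quantity -/
noncomputable def DD (ε : ℝ) (d L : ℕ) (t : ℝ) : ℝ :=
  uu d L t - uu d L (2 * t) + ∑ x ∈ Finset.univ.erase (0 : V d L), vis2 ε t 0 x * hit t 0 x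

open Classical in
/-- probability that `0` is occupied at time `t` with fewer than `κ` alive lines -/
noncomputable def nu (ε : ℝ) (d L : ℕ) (κ t : ℝ) : ℝ :=
  fsg ε t (fun s : FS d L => if (∃ z, s.pos z = 0) ∧ s.al 0 < κ then 1 else 0) (FS.init d L)

/-- probability that `0` is occupied at time `t` by fewer than `κ` lines -/
noncomputable def sm (d L : ℕ) (κ t : ℝ) : ℝ :=
  zsg (∅ : Finset (V d L)) t (fun A => if A ≠ ∅ ∧ (A.card : ℝ) < κ then 1 else 0) {0}

/-! ## The abstract Lyapunov structure -/

/-- A jump system with functions `X` (harmonic mass), `F` (interaction), `m` (mass), `β`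
(boundary) as for the voter model with zealots. -/
structure LD {S I : Type} [Fintype I] (r : I → ℝ) (φ : I → S → S) (Inv : S → Prop)
    (X F m β : S → ℝ) (c γ δ C b : ℝ) : Prop where
  rn : ∀ i, 0 ≤ r i
  inv : ∀ i s, Inv s → Inv (φ i s)
  m0 : ∀ s, Inv s → 0 ≤ m s
  β0 : ∀ s, Inv s → 0 ≤ β s
  βm : ∀ s, Inv s → β s ≤ m s
  X0 : ∀ s, Inv s → 0 ≤ X s
  Xm : ∀ s, Inv s → X s ≤ m s
  mX : ∀ s, Inv s → m s - X s ≤ b * C * m s ^ (1 / 4 : ℝ)
  gX : ∀ s, Inv s → gen r φ X s ≤ c
  gX' : ∀ s, Inv s → c - C * δ * m s ≤ gen r φ X s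
  dX : ∀ i s, Inv s → |X (φ i s) - X s| ≤ 1
  ΓX : ∀ s, Inv s → |∑ i, r i * (X (φ i s) - X s) ^ 2 - 2 * β s| ≤ b * C * m s ^ (1 / 4 : ℝ)
  F0 : ∀ s, Inv s → 0 ≤ F s
  Fm : ∀ s, Inv s → F s ≤ C * m s ^ (5 / 4 : ℝ)
  gF : ∀ s, Inv s →
    |gen r φ F s - 2 * (β s - γ * m s)| ≤ b * C * m s ^ (1 / 4 : ℝ) + C * δ * m s ^ 2
  ΓXF : ∀ s, Inv s →
    ∑ i, r i * (|X (φ i s) - X s| * |F (φ i s) - F s|) ≤ C * m s ^ (5 / 4 : ℝ)
  gm : ∀ s, Inv s → gen r φ m s ≤ C
  dm : ∀ i s, Inv s → |m (φ i s) - m s| ≤ 1
  Γm : ∀ s, Inv s → ∑ i, r i * |m (φ i s) - m s| ≤ C * m s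

/-- A kernel with the properties of (a truncation of) the Green function on the torus divided by
its value at `0`, that is of the hitting probabilities of `0`. -/
structure Ker {d L : ℕ} (h : V d L → ℝ) (γ δ C T : ℝ) : Prop where
  h0 : h 0 = 1
  nn : ∀ x, 0 ≤ h x
  small : ∀ x, x ≠ 0 → h x ≤ 1 / 5
  symm : ∀ x, h (-x) = h x
  γl : 4 / 5 ≤ γ
  γu : γ ≤ 5 / 4
  har : ∀ x, 0 ≤ Pk h x - h x + (if x = 0 then γ else 0)
  har' : ∀ x, Pk h x - h x + (if x = 0 then γ else 0) ≤ δ
  sum : ∑ x, h x ^ (21 / 20 : ℝ) ≤ C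
  hitle : ∀ (t : ℝ) (x : V d L), 0 ≤ t → t ≤ T → hit t 0 x ≤ C * h x

/-- the occupied set including the zealots -/
def occ {d L : ℕ} (Z A : Finset (V d L)) : Finset (V d L) := A ∪ Z

/-- total mass, including the zealots -/
noncomputable def zm {d L : ℕ} (Z A : Finset (V d L)) : ℝ := ((occ Z A).card : ℝ)

/-- interaction `∑_{x ≠ y occupied} h(x - y)` -/
noncomputable def zF {d L : ℕ} (h : V d L → ℝ) (Z A : Finset (V d L)) : ℝ :=
  ∑ x ∈ occ Z A, ∑ y ∈ (occ Z A).erase x, h (x - y)

/-- boundary size -/
noncomputable def zb {d L : ℕ} (Z A : Finset (V d L)) : ℝ :=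
  ∑ x ∈ occ Z A, (1 - Pk (fun y => if y ∈ occ Z A then 1 else 0) x)

/-- harmonic mass for a weight function `f` -/
noncomputable def zX {d L : ℕ} (f : V d L → ℝ) (A : Finset (V d L)) : ℝ := ∑ x ∈ A, f x

/-! ## The window process -/

/-- The state after time `t`: `fl` is the flow since time `t` (`fl y` is the present position of
the line which was at `y` at time `t`), `rep x` is the representative (a site occupied at time
`t`) of the lines at `x`, and `who x = some y` if `x` was discovered after time `t` by a group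
of lines with representative `y`. -/
structure WS (d L : ℕ) extends FS d L where
  fl : V d L → V d L
  rep : V d L → V d L
  who : V d L → Option (V d L)

instance (d L : ℕ) : Finite (WS d L) :=
  Finite.of_injective (fun s : WS d L => (s.toFS, s.fl, s.rep, s.who)) (by
    rintro ⟨a, b, c, e⟩ ⟨a', b', c', e'⟩ h
    simp only [Prod.mk.injEq] at h
    obtain ⟨h1, h2, h3, h4⟩ := h
    subst h1; subst h2; subst h3; subst h4; rfl)

/-- the state at the beginning of the window -/
def WS.start {d L : ℕ} (s : FS d L) : WS d L := ⟨s, id, id, fun _ => none⟩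

open Classical in
/-- transitions of the window process -/
noncomputable def wup {d L : ℕ} (a : Ar d L × Bool) (s : WS d L) : WS d L :=
  { toFS := fup a s.toFS
    fl := fun v => if s.fl v = a.1.1 then a.1.1 + dv a.1.2 else s.fl v
    rep := fun v => if v = a.1.1 + dv a.1.2 ∧ ∃ z, s.pos z = a.1.1 then s.rep a.1.1 else s.rep v
    who := fun v => if v = a.1.1 + dv a.1.2 ∧ s.oth a.1.1 (a.1.1 + dv a.1.2) ∧
      a.1.1 + dv a.1.2 ∉ s.vis then some (s.rep a.1.1) else s.who v }

/-- semigroup of the window process -/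
noncomputable def wsg {d L : ℕ} (ε t : ℝ) (f : WS d L → ℝ) (s : WS d L) : ℝ :=
  sg (rc d L ε) wup t f s

/-- number of sites discovered with representative `y` -/
noncomputable def WS.cnt {d L : ℕ} (s : WS d L) (y : V d L) : ℝ :=
  ((Finset.univ.filter fun x => s.who x = some y).card : ℝ)

end Pool.Agent.CAS
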