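import Pool.Agent.CAS.Basic

set_option autoImplicit false

/-!
# Job E: the real analysis endgame
-/

open Finset Filter Topology
open scoped BigOperators

namespace Pool.Agent.CAS
namespace E_

lemma sum_inv (T : ℕ) : ∑ t ∈ range T, (1:ℝ) / t ≤ Real.log (T + 1) + 1 := by
  rcases Nat.eq_zero_or_pos T with h | h
  · subst h; simp
  · obtain ⟨n, rfl⟩ : ∃ n, T = n + 1 := ⟨T - 1, by omega⟩
    rw [Finset.sum_range_succ']
    have h1 := harmonic_le_one_add_log n
    have h2 : ((harmonic n : ℚ) : ℝ) = ∑ t ∈ range n, (1:ℝ) / ((t + 1 : ℕ) : ℝ) := by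
      unfold harmonic
      push_cast
      simp
    rw [← h2]
    have h3 : Real.log n ≤ Real.log (((n + 1 : ℕ) : ℝ) + 1) := by
      rcases Nat.eq_zero_or_pos n with h | h
      · subst h; simp; positivity
      · apply Real.log_le_log (by exact_mod_cast h)
        push_cast; linarith
    simp only [Nat.cast_zero, div_zero, add_zero]
    linarith

lemma sum_even (u : ℕ → ℝ) (hu : Antitone u) (T : ℕ) :
    2 * ∑ t ∈ range T, u (2 * t) ≤ ∑ s ∈ range (2 * T), u s + u 0 - u (2 * T) := by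
  induction T with
  | zero => simp
  | succ T ih =>
    rw [sum_range_succ, show 2 * (T + 1) = 2 * T + 1 + 1 by ring, sum_range_succ, sum_range_succ]
    have := hu (show 2 * T + 1 ≤ 2 * T + 1 + 1 by omega)
    linarith

lemma sum_theta (θ : ℕ → ℝ) (h : Antitone θ) (h0 : ∀ t, 0 ≤ θ t) (T : ℕ) :
    ∑ t ∈ range T, (θ t - θ (2 * t)) / t ≤ θ 1 := by
  have key : ∀ T : ℕ, ∑ s ∈ range (2 * T + 2), θ s / s - θ 1 ≤
      ∑ t ∈ range (T + 1), θ (2 * t) / t := by
    intro T
    induction T with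
    | zero => simp [sum_range_succ]
    | succ T ih =>
      rw [sum_range_succ _ (T + 1), show 2 * (T + 1) + 2 = 2 * T + 2 + 1 + 1 by ring,
        sum_range_succ, sum_range_succ]
      have e1 := h (show 2 * (T + 1) ≤ 2 * T + 2 + 1 by omega)
      have e2 : θ (2 * T + 2) / ((2 * T + 2 : ℕ) : ℝ) + θ (2 * T + 2 + 1) / ((2 * T + 2 + 1 : ℕ) : ℝ)
          ≤ θ (2 * (T + 1)) / ((T + 1 : ℕ) : ℝ) := by
        have hT : (0:ℝ) < ((T + 1 : ℕ) : ℝ) := by positivity
        have a1 : θ (2 * T + 2) / ((2 * T + 2 : ℕ) : ℝ) = θ (2 * (T + 1)) / ((T + 1 : ℕ) : ℝ) / 2 := by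
          rw [show 2 * T + 2 = 2 * (T + 1) by ring]
          push_cast
          field_simp
        have a2 : θ (2 * T + 2 + 1) / ((2 * T + 2 + 1 : ℕ) : ℝ) ≤
            θ (2 * (T + 1)) / ((T + 1 : ℕ) : ℝ) / 2 := by
          rw [div_div]
          apply div_le_div₀ (h0 _) e1 (by positivity)
          push_cast; linarith
        linarith
      linarith
  rcases Nat.eq_zero_or_pos T with hT | hT
  · subst hT; simpa using h0 1
  · obtain ⟨n, rfl⟩ : ∃ n, T = n + 1 := ⟨T - 1, by omega⟩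
    have h1 := key n
    have h2 : ∑ s ∈ range (n + 1), θ s / s ≤ ∑ s ∈ range (2 * n + 2), θ s / s := by
      apply Finset.sum_le_sum_of_subset_of_nonneg
      · intro x hx; rw [mem_range] at *; omega
      · intro x _ _; exact div_nonneg (h0 x) (by positivity)
    have h3 : ∑ t ∈ range (n + 1), (θ t - θ (2 * t)) / t =
        ∑ s ∈ range (n + 1), θ s / s - ∑ t ∈ range (n + 1), θ (2 * t) / t := by
      rw [← sum_sub_distrib]
      apply sum_congr rfl
      intro x _; rw [sub_div]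
    rw [h3]; linarith

lemma sum_div (ρ : ℕ → ℝ) (q : ℕ) (hq : 0 < q) (T : ℕ) :
    ∑ t ∈ range (q * T), ρ (t / q) = q * ∑ j ∈ range T, ρ j := by
  induction T with
  | zero => simp
  | succ T ih =>
    rw [sum_range_succ, show q * (T + 1) = q * T + q by ring, sum_range_add, ih, mul_add]
    congr 1
    rw [← nsmul_eq_mul, ← Finset.card_range q, ← Finset.sum_const]
    apply sum_congr (by simp)
    intro x hx
    rw [card_range]
    rw [mem_range] at hx
    rw [Nat.mul_add_div hq, Nat.div_eq_of_lt hx, add_zero]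

lemma sum_gap (ρ : ℕ → ℝ) (q : ℕ) (hq : 0 < q) (T : ℕ) :
    ∑ j ∈ range (T + T / q), ρ j = ∑ t ∈ range T, ρ (t + t / q) +
      ∑ k ∈ range (T / q), ρ (k * (q + 1) + q) := by
  induction T with
  | zero => simp
  | succ T ih =>
    rw [sum_range_succ, Nat.succ_div]
    split_ifs with h
    · obtain ⟨k, hk⟩ := h
      have hk0 : 0 < k := by
        rcases Nat.eq_zero_or_pos k with h0 | h0
        · subst h0; omega
        · exact h0
      obtain ⟨m, rfl⟩ : ∃ m, k = m + 1 := ⟨k - 1, by omega⟩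
      have hTq : T / q = m := by
        rw [Nat.div_eq_iff hq]
        constructor
        · nlinarith
        · have : T + 1 = q * m + q := by rw [hk]; ring
          rw [mul_comm m q]
          omega
      rw [show T + 1 + (T / q + 1) = (T + T / q) + 1 + 1 by ring, sum_range_succ, sum_range_succ,
        sum_range_succ _ (T / q), ih]
      have e : T / q * (q + 1) + q = T + T / q + 1 := by
        rw [hTq]
        have : T + 1 = q * m + q := by rw [hk]; ring
        have e2 : m * (q + 1) = q * m + m := by ring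
        rw [e2]; omega
      rw [e]; ring
    · rw [add_zero, show T + 1 + T / q = (T + T / q) + 1 by ring, sum_range_succ, ih]
      ring

lemma sum_miss (ρ : ℕ → ℝ) (h : Antitone ρ) (q K : ℕ) :
    ((q:ℝ) + 1) * ∑ k ∈ range K, ρ (k * (q + 1) + q) ≤ ∑ j ∈ range (K * (q + 1)), ρ j := by
  induction K with
  | zero => simp
  | succ K ih =>
    rw [sum_range_succ, show (K + 1) * (q + 1) = K * (q + 1) + (q + 1) by ring, sum_range_add,
      mul_add]
    have : ((q:ℝ) + 1) * ρ (K * (q + 1) + q) ≤ ∑ x ∈ range (q + 1), ρ (K * (q + 1) + x) := by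
      calc ((q:ℝ) + 1) * ρ (K * (q + 1) + q) = ∑ _x ∈ range (q + 1), ρ (K * (q + 1) + q) := by
            rw [sum_const, card_range, nsmul_eq_mul]; push_cast; ring
        _ ≤ _ := by
            apply sum_le_sum
            intro x hx
            apply h
            rw [mem_range] at hx; omega
    linarith

lemma log_two_mul (T : ℕ) : Real.log ((2 * T : ℕ) + 1 : ℝ) ≤ Real.log (T + 1) + 1 := by
  have h1 : (0:ℝ) < (T:ℝ) + 1 := by positivity
  have h2 : Real.log ((2 * T : ℕ) + 1 : ℝ) ≤ Real.log (2 * ((T:ℝ) + 1)) := by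
    apply Real.log_le_log (by positivity)
    push_cast; linarith
  rw [Real.log_mul (by norm_num) h1.ne'] at h2
  have h3 := Real.log_two_lt_d9
  linarith

/-- the gap sum -/
lemma sum_rho_gap (ρ : ℕ → ℝ) (C : ℝ) (h : Antitone ρ) (h0 : ∀ t, 0 ≤ ρ t) (hC : 0 ≤ C)
    (hs : ∀ T : ℕ, ∑ t ∈ range T, ρ t ≤ C * Real.log (T + 1) + C) (q : ℕ) (hq : 0 < q) (T : ℕ) :
    ((q:ℝ) + 1) * ∑ t ∈ range T, (ρ t - ρ (t + t / q)) ≤ C * (Real.log (T + 1) + 2) := by
  have h1 := sum_gap ρ q hq T
  have h2 := sum_miss ρ h q (T / q)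
  have h3 : ∑ t ∈ range T, ρ t ≤ ∑ j ∈ range (T + T / q), ρ j := by
    apply Finset.sum_le_sum_of_subset_of_nonneg
    · intro x hx; rw [mem_range] at *; exact lt_of_lt_of_le hx (Nat.le_add_right _ _)
    · intro x _ _; exact h0 x
  have h4 : ∑ j ∈ range (T / q * (q + 1)), ρ j ≤ ∑ j ∈ range (2 * T), ρ j := by
    apply Finset.sum_le_sum_of_subset_of_nonneg
    · intro x hx
      rw [mem_range] at *
      have a1 : T / q * q ≤ T := Nat.div_mul_le_self T q
      have a2 : T / q ≤ T := Nat.div_le_self T q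
      have a3 : T / q * (q + 1) = T / q * q + T / q := by ring
      omega
    · intro x _ _; exact h0 x
  have h5 := hs (2 * T)
  have h6 := log_two_mul T
  rw [sum_sub_distrib]
  have h7 : ((q:ℝ) + 1) * (∑ t ∈ range T, ρ t - ∑ t ∈ range T, ρ (t + t / q)) ≤
      ((q:ℝ) + 1) * ∑ k ∈ range (T / q), ρ (k * (q + 1) + q) := by
    apply mul_le_mul_of_nonneg_left _ (by positivity)
    linarith
  nlinarith

/-- lower bound for the sum of `u t - u (2t)` -/
lemma lower (u : ℕ → ℝ) (c C : ℝ) (hc : 0 < c) (hu0 : ∀ t, 0 ≤ u t) (hu1 : ∀ t, u t ≤ 1)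
    (hu : Antitone u) (hC : 0 ≤ C)
    (h1 : ∀ T : ℕ, 1 ≤ T → c * Real.log T - C ≤ ∑ t ∈ range T, u t)
    (h2 : ∀ T : ℕ, ∑ t ∈ range T, (t : ℝ) * u t ^ 2 ≤ C * Real.log (T + 1) + C) :
    ∃ K : ℝ, ∀ T : ℕ, 1 ≤ T →
      (3 * c / 8) * (Real.log (T + 1) + 1) - K ≤ ∑ t ∈ range T, (u t - u (2 * t)) := by
  refine ⟨c + C / 2 + c / 4 + (C + 1) / c + 1 / 2, fun T hT => ?_⟩
  have hT' : (1:ℝ) ≤ T := by exact_mod_cast hT
  have e1 := sum_even u hu T
  have e2 := h1 T hT
  have e3 : Real.log (T + 1) ≤ Real.log T + 1 := by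
    have : Real.log ((T:ℝ) + 1) ≤ Real.log (2 * T) := by
      apply Real.log_le_log (by positivity)
      linarith
    rw [Real.log_mul (by norm_num) (by positivity)] at this
    have h3 := Real.log_two_lt_d9
    linarith
  have e4 : ∑ s ∈ range (2 * T), u s ≤ ∑ s ∈ range T, u s + T * u T := by
    rw [two_mul, sum_range_add]
    have : ∑ x ∈ range T, u (T + x) ≤ ∑ _x ∈ range T, u T := by
      apply sum_le_sum
      intro x _
      apply hu; omega
    rw [sum_const, card_range, nsmul_eq_mul] at this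
    linarith
  have e5 : ((T:ℝ) * u T) ^ 2 ≤ 2 * (C * Real.log (T + 2) + C) := by
    have a1 := h2 (T + 1)
    have a2 : u T ^ 2 * ∑ t ∈ range (T + 1), (t:ℝ) ≤ ∑ t ∈ range (T + 1), (t : ℝ) * u t ^ 2 := by
      rw [mul_sum]
      apply sum_le_sum
      intro x hx
      rw [mem_range] at hx
      have : u T ≤ u x := hu (by omega)
      have a3 : u T ^ 2 ≤ u x ^ 2 := by
        have := hu0 T
        gcongr
      rw [mul_comm]
      gcongr
    have a3 : (∑ t ∈ range (T + 1), (t:ℝ)) * 2 = (T + 1) * T := by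
      have := Finset.sum_range_id_mul_two (T + 1)
      have h' : (((∑ i ∈ range (T + 1), i) * 2 : ℕ) : ℝ) = (((T + 1) * (T + 1 - 1) : ℕ) : ℝ) := by
        rw [this]
      push_cast at h'
      rw [h']
    have a4 : ((T + 1 : ℕ) : ℝ) + 1 = T + 2 := by push_cast; ring
    rw [a4] at a1
    have a5 : 0 ≤ u T ^ 2 := by positivity
    have a6 : (T:ℝ) ^ 2 ≤ (T + 1) * T := by nlinarith
    calc ((T:ℝ) * u T) ^ 2 = T ^ 2 * u T ^ 2 := by ring
      _ ≤ ((T + 1) * T) * u T ^ 2 := by gcongr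
      _ = 2 * (u T ^ 2 * ∑ t ∈ range (T + 1), (t:ℝ)) := by rw [← a3]; ring
      _ ≤ _ := by linarith
  have e6 : Real.log ((T:ℝ) + 2) ≤ Real.log (T + 1) + 1 := by
    have : Real.log ((T:ℝ) + 2) ≤ Real.log (2 * (T + 1)) := by
      apply Real.log_le_log (by positivity)
      linarith
    rw [Real.log_mul (by norm_num) (by positivity)] at this
    have h3 := Real.log_two_lt_d9
    linarith
  -- x ≤ x^2/(4μ) + μ with μ = 2 (C+1)/c
  have e7 : (T:ℝ) * u T ≤ (c / 4) * (Real.log (T + 1) + 2) + 2 * (C + 1) / c := by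
    set x := (T:ℝ) * u T with hx
    set Lg := Real.log ((T:ℝ) + 1) with hLg
    have hLg0 : 0 ≤ Lg := Real.log_nonneg (by linarith)
    have b1 : x ^ 2 ≤ 2 * (C + 1) * (Lg + 2) := by nlinarith
    have hμ : 0 < 2 * (C + 1) / c := by positivity
    have b2 : x ≤ x ^ 2 * (c / (8 * (C + 1))) + 2 * (C + 1) / c := by
      have : x ^ 2 * (c / (8 * (C + 1))) + 2 * (C + 1) / c - x =
          (c / (8 * (C + 1))) * (x - 4 * (C + 1) / c) ^ 2 := by
        field_simp
        ring
      have h0 : 0 ≤ (c / (8 * (C + 1))) * (x - 4 * (C + 1) / c) ^ 2 := by positivity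
      linarith
    have b3 : x ^ 2 * (c / (8 * (C + 1))) ≤ (2 * (C + 1) * (Lg + 2)) * (c / (8 * (C + 1))) := by
      gcongr
    have b4 : (2 * (C + 1) * (Lg + 2)) * (c / (8 * (C + 1))) = (c / 4) * (Lg + 2) := by
      field_simp
      ring
    linarith
  rw [sum_sub_distrib]
  have e8 := hu1 0
  have e9 := hu0 (2 * T)
  have e10 : c * Real.log (T + 1) - c ≤ c * Real.log T := by nlinarith
  have e11 : 2 * (C + 1) / c = 2 * ((C + 1) / c) := by ring
  rw [e11] at e7
  nlinarith

/-- the pointwise inequality -/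
lemma pointwise (t D d2 rq gap th nu sg c1 lam M M' b ε θ0 κ : ℝ) (ht : 1 ≤ t) (hc1 : 0 < c1)
    (hlam : 0 < lam) (hM : 0 < M) (hM' : 0 < M') (hb : 0 < b) (hε : 0 < ε) (hθ0 : 0 < θ0)
    (hκ : κ = 1 / (2 * M')) (hd2 : 0 ≤ d2) (hrq : 0 ≤ rq) (hgap : 0 ≤ gap)
    (hth : 0 ≤ th) (hsg : 0 ≤ sg) (hbM : b = c1 ^ 2 / (24 * M))
    (hK : ε * (θ0 * κ * t / 2) * (max 0 (D - √(2 * nu * d2))) ^ 2 ≤ 2 * th * d2)
    (hS : sg * (1 - κ * t * rq) ≤ gap) (hN : nu ≤ sg + b / t) :
    D ≤ c1 / t + lam * (t * D ^ 2) + 1 / (4 * lam) * (d2 / M + rq / M' + gap / b +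
      th / t / (ε * θ0 * κ * c1 ^ 2 / (16 * M))) := by
  have ht0 : 0 < t := by linarith
  have hκ0 : 0 < κ := by rw [hκ]; positivity
  have hc3 : 0 < ε * θ0 * κ * c1 ^ 2 / (16 * M) := by positivity
  set c3 := ε * θ0 * κ * c1 ^ 2 / (16 * M) with hc3def
  have amgm : D ≤ lam * (t * D ^ 2) + 1 / (4 * lam) * (1 / t) := by
    have : lam * (t * D ^ 2) + 1 / (4 * lam) * (1 / t) - D =
        lam * t * (D - 1 / (2 * lam * t)) ^ 2 := by
      field_simp
      ring
    have h0 : 0 ≤ lam * t * (D - 1 / (2 * lam * t)) ^ 2 := by positivity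
    linarith
  have p1 : 0 ≤ c1 / t := by positivity
  have p2 : 0 ≤ lam * (t * D ^ 2) := by positivity
  have p3 : 0 ≤ d2 / M := by positivity
  have p4 : 0 ≤ rq / M' := by positivity
  have p5 : 0 ≤ gap / b := by positivity
  have p6 : 0 ≤ th / t / c3 := by positivity
  have p7 : 0 < 1 / (4 * lam) := by positivity
  -- it is enough that the bracket is at least `1/t`
  have suff : 1 / t ≤ d2 / M + rq / M' + gap / b + th / t / c3 →
      D ≤ c1 / t + lam * (t * D ^ 2) + 1 / (4 * lam) * (d2 / M + rq / M' + gap / b + th / t / c3) := by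
    intro h
    have := mul_le_mul_of_nonneg_left h p7.le
    linarith
  by_cases h1 : D ≤ c1 / t
  · have : 0 ≤ 1 / (4 * lam) * (d2 / M + rq / M' + gap / b + th / t / c3) := by positivity
    linarith
  rw [not_le] at h1
  by_cases h2 : M / t ≤ d2
  · apply suff
    have : 1 / t ≤ d2 / M := by
      rw [le_div_iff₀ hM]
      calc 1 / t * M = M / t := by ring
        _ ≤ d2 := h2
    linarith
  rw [not_le] at h2
  by_cases h3 : M' / t ≤ rq
  · apply suff
    have : 1 / t ≤ rq / M' := by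
      rw [le_div_iff₀ hM']
      calc 1 / t * M' = M' / t := by ring
        _ ≤ rq := h3
    linarith
  rw [not_le] at h3
  by_cases h4 : b / t ≤ gap
  · apply suff
    have : 1 / t ≤ gap / b := by
      rw [le_div_iff₀ hb]
      calc 1 / t * b = b / t := by ring
        _ ≤ gap := h4
    linarith
  rw [not_le] at h4
  apply suff
  have k1 : κ * t * rq ≤ 1 / 2 := by
    calc κ * t * rq ≤ κ * t * (M' / t) := by gcongr
      _ = 1 / 2 := by rw [hκ]; field_simp
  have k2 : sg ≤ 2 * (b / t) := by nlinarith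
  have k3 : nu ≤ 3 * (b / t) := by linarith
  have k4 : √(2 * nu * d2) ≤ c1 / (2 * t) := by
    rw [Real.sqrt_le_left (by positivity)]
    calc 2 * nu * d2 ≤ 2 * (3 * (b / t)) * (M / t) := by gcongr
      _ = (c1 / (2 * t)) ^ 2 := by
        rw [hbM]; field_simp; norm_num
  have k5 : c1 / (2 * t) ≤ max 0 (D - √(2 * nu * d2)) := by
    apply le_max_of_le_right
    have : c1 / t = c1 / (2 * t) + c1 / (2 * t) := by field_simp; ring
    linarith
  have k6 : ε * (θ0 * κ * t / 2) * (c1 / (2 * t)) ^ 2 ≤ 2 * th * (M / t) := by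
    calc ε * (θ0 * κ * t / 2) * (c1 / (2 * t)) ^ 2
        ≤ ε * (θ0 * κ * t / 2) * (max 0 (D - √(2 * nu * d2))) ^ 2 := by gcongr
      _ ≤ 2 * th * d2 := hK
      _ ≤ 2 * th * (M / t) := by gcongr
  have k7 : c3 ≤ th := by
    rw [hc3def, div_le_iff₀ (by positivity)]
    have e1 : ε * (θ0 * κ * t / 2) * (c1 / (2 * t)) ^ 2 = ε * θ0 * κ * c1 ^ 2 / 8 / t := by
      field_simp; norm_num
    have e2 : 2 * th * (M / t) = 2 * th * M / t := by ring
    rw [e1, e2, div_le_div_iff_of_pos_right ht0] at k6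
    linarith
  have k8 : 1 / t ≤ th / t / c3 := by
    rw [le_div_iff₀ hc3]
    calc 1 / t * c3 = c3 / t := by ring
      _ ≤ th / t := by gcongr
  linarith

end E_

open E_ in
theorem t_E : T_E := by
  intro u D2 ρ θ σ ν c C ε θ0 hc hε hθ0 hu0 hu1 hu h1 h2 hD20 hD2 hρ0 hρ1 hρ hρs hθ hθ0' hθ1
    hν0 hσ0 hK hS hN
  have hC : 0 ≤ C := by
    have := h2 0
    simpa using this
  obtain ⟨K0, hK0⟩ := lower u c C hc hu0 hu1 hu hC h1 h2
  -- parameters
  set e : ℝ := c / 20 with he
  have he0 : 0 < e := by positivity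
  set C' : ℝ := C + 1 with hC'
  have hC'0 : 0 < C' := by positivity
  set lam : ℝ := e / C' with hlam
  have hlam0 : 0 < lam := by positivity
  set M : ℝ := C' ^ 2 / (4 * e ^ 2) with hM
  have hM0 : 0 < M := by positivity
  set b : ℝ := e ^ 2 / (24 * M) with hb
  have hb0 : 0 < b := by positivity
  obtain ⟨q, hq⟩ := exists_nat_gt (M / b)
  have hq0 : 0 < q := by
    have : (0:ℝ) < q := lt_trans (by positivity) hq
    exact_mod_cast this
  have hq0' : (0:ℝ) < q := by exact_mod_cast hq0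
  set M' : ℝ := q * M with hM'
  have hM'0 : 0 < M' := by positivity
  set κ : ℝ := 1 / (2 * M') with hκ
  have hκ0 : 0 < κ := by positivity
  obtain ⟨T0, hT0⟩ := hN κ b hκ0 hb0
  set c3 : ℝ := ε * θ0 * κ * e ^ 2 / (16 * M) with hc3
  have hc30 : 0 < c3 := by positivity
  -- pointwise
  have hpt : ∀ t : ℕ, u t - u (2 * t) ≤ e * (1 / t) + lam * (t * u t ^ 2) +
      1 / (4 * lam) * (D2 t / M + ρ (t / q) / M' + (ρ t - ρ (t + t / q)) / b +
        (θ t - θ (2 * t)) / t / c3) + (if t < T0 then 1 else 0) := by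
    intro t
    have g1 : 0 ≤ ρ t - ρ (t + t / q) := sub_nonneg.2 (hρ (Nat.le_add_right _ _))
    have g2 : 0 ≤ θ t - θ (2 * t) := sub_nonneg.2 (hθ (by omega))
    have g3 : 0 ≤ u t - u (2 * t) := sub_nonneg.2 (hu (by omega))
    have q1 : 0 ≤ e * (1 / (t:ℝ)) := by positivity
    have q2 : 0 ≤ lam * (t * u t ^ 2) := by positivity
    have q3 : 0 ≤ 1 / (4 * lam) * (D2 t / M + ρ (t / q) / M' + (ρ t - ρ (t + t / q)) / b +
        (θ t - θ (2 * t)) / t / c3) := by
      have := hD20 t
      have := hρ0 (t / q)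
      positivity
    by_cases ht : t < T0
    · rw [if_pos ht]
      have := hu1 t
      have := hu0 (2 * t)
      linarith
    · rw [if_neg ht, add_zero]
      rcases Nat.eq_zero_or_pos t with h0 | h0
      · subst h0
        have z : u 0 - u (2 * 0) = 0 := by simp
        rw [z]
        exact add_nonneg (add_nonneg q1 q2) q3
      · have ht1 : (1:ℝ) ≤ t := by exact_mod_cast h0
        have hp := pointwise t (u t - u (2 * t)) (D2 t) (ρ (t / q)) (ρ t - ρ (t + t / q))
          (θ t - θ (2 * t)) (ν (θ0 * κ * t / 2) t) (σ (κ * t) t) e lam M M' b ε θ0 κ ht1 he0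
          hlam0 hM0 hM'0 hb0 hε hθ0 hκ (hD20 t) (hρ0 _) g1 g2 (hσ0 _ _) hb
          (hK (θ0 * κ * t / 2) t (by positivity)) (hS (κ * t) (t / q) t (by positivity))
          (hT0 t (not_lt.1 ht))
        have hD : (u t - u (2 * t)) ^ 2 ≤ u t ^ 2 := by
          have := hu0 (2 * t)
          have h' : u t - u (2 * t) ≤ u t := by linarith
          gcongr
        have : lam * (t * (u t - u (2 * t)) ^ 2) ≤ lam * (t * u t ^ 2) := by gcongr
        have e9 : e / (t:ℝ) = e * (1 / t) := by ring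
        rw [e9, ← hc3] at hp
        linarith
  -- sum
  have hsum : ∀ T : ℕ, ∑ t ∈ range T, (u t - u (2 * t)) ≤
      5 * e * (Real.log (T + 1) + 1) + (e + 1 / (4 * lam) * (1 / c3) + T0) := by
    intro T
    set Lg : ℝ := Real.log (T + 1) + 1 with hLg
    have hLg0 : 0 ≤ Lg := by
      have : 0 ≤ Real.log ((T:ℝ) + 1) := Real.log_nonneg (by linarith [Nat.cast_nonneg (α := ℝ) T])
      linarith
    have s1 : ∑ t ∈ range T, (1:ℝ) / t ≤ Lg := sum_inv T
    have s2 : ∑ t ∈ range T, (t : ℝ) * u t ^ 2 ≤ C' * Lg := by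
      have := h2 T
      nlinarith
    have s3 : ∑ t ∈ range T, D2 t ≤ C' * Lg := by
      have := hD2 T
      nlinarith
    have s4 : ∑ t ∈ range T, ρ (t / q) ≤ q * (C' * Lg) := by
      have a1 : ∑ t ∈ range T, ρ (t / q) ≤ ∑ t ∈ range (q * T), ρ (t / q) := by
        apply Finset.sum_le_sum_of_subset_of_nonneg
        · intro x hx
          rw [mem_range] at *
          exact lt_of_lt_of_le hx (Nat.le_mul_of_pos_left T hq0)
        · intro x _ _; exact hρ0 _
      rw [sum_div ρ q hq0] at a1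
      have a2 := hρs T
      have a3 : ∑ t ∈ range T, ρ t ≤ C' * Lg := by nlinarith
      calc _ ≤ _ := a1
        _ ≤ _ := by gcongr
    have s5 : ∑ t ∈ range T, (ρ t - ρ (t + t / q)) ≤ (C' * (Lg + 1)) / (q + 1) := by
      rw [le_div_iff₀ (by positivity), mul_comm]
      have := sum_rho_gap ρ C hρ hρ0 hC hρs q hq0 T
      nlinarith
    have s6 : ∑ t ∈ range T, (θ t - θ (2 * t)) / t ≤ 1 :=
      (sum_theta θ hθ (fun t => hθ0.le.trans (hθ0' t)) T).trans (hθ1 1)
    have s7 : ∑ t ∈ range T, (if t < T0 then (1:ℝ) else 0) ≤ T0 := by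
      rw [← Finset.sum_filter, sum_const, nsmul_eq_mul, mul_one]
      have : ((range T).filter (fun t => t < T0)).card ≤ T0 := by
        calc _ ≤ (range T0).card := by
              apply card_le_card
              intro x hx
              rw [mem_filter] at hx
              exact mem_range.2 hx.2
          _ = T0 := card_range T0
      exact_mod_cast this
    calc ∑ t ∈ range T, (u t - u (2 * t))
        ≤ ∑ t ∈ range T, (e * (1 / t) + lam * (t * u t ^ 2) +
          1 / (4 * lam) * (D2 t / M + ρ (t / q) / M' + (ρ t - ρ (t + t / q)) / b +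
            (θ t - θ (2 * t)) / t / c3) + (if t < T0 then 1 else 0)) :=
          sum_le_sum fun t _ => hpt t
      _ = e * ∑ t ∈ range T, (1:ℝ) / t + lam * ∑ t ∈ range T, (t : ℝ) * u t ^ 2 +
          1 / (4 * lam) * ((∑ t ∈ range T, D2 t) / M + (∑ t ∈ range T, ρ (t / q)) / M' +
            (∑ t ∈ range T, (ρ t - ρ (t + t / q))) / b +
            (∑ t ∈ range T, (θ t - θ (2 * t)) / t) / c3) +
          ∑ t ∈ range T, (if t < T0 then (1:ℝ) else 0) := by
          simp only [sum_add_distrib, ← mul_sum, ← Finset.sum_div]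
      _ ≤ e * Lg + lam * (C' * Lg) +
          1 / (4 * lam) * ((C' * Lg) / M + (q * (C' * Lg)) / M' +
            ((C' * (Lg + 1)) / (q + 1)) / b + 1 / c3) + T0 := by
          gcongr
      _ ≤ _ := by
          have b1 : lam * (C' * Lg) = e * Lg := by rw [hlam]; field_simp
          have b2 : 1 / (4 * lam) * ((C' * Lg) / M) = e * Lg := by
            rw [hlam, hM]; field_simp
          have b3 : 1 / (4 * lam) * ((q * (C' * Lg)) / M') = e * Lg := by
            rw [hlam, hM', hM]; field_simp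
          have b4 : 1 / (4 * lam) * (((C' * (Lg + 1)) / (q + 1)) / b) ≤ e * (Lg + 1) := by
            have c1 : M / b ≤ (q:ℝ) + 1 := by linarith
            have c2 : 1 / (4 * lam) * (((C' * (Lg + 1)) / (q + 1)) / b) =
                (C' ^ 2 / (4 * e) * (Lg + 1)) / b / (q + 1) := by
              rw [hlam]; field_simp
            rw [c2, div_le_iff₀ (by positivity)]
            calc (C' ^ 2 / (4 * e) * (Lg + 1)) / b = e * (Lg + 1) * (M / b) := by
                  rw [hM]; field_simp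
              _ ≤ e * (Lg + 1) * (q + 1) := by gcongr
          have b5 : 1 / (4 * lam) * ((C' * Lg) / M + (q * (C' * Lg)) / M' +
            ((C' * (Lg + 1)) / (q + 1)) / b + 1 / c3) = 1 / (4 * lam) * ((C' * Lg) / M) +
            1 / (4 * lam) * ((q * (C' * Lg)) / M') +
            1 / (4 * lam) * (((C' * (Lg + 1)) / (q + 1)) / b) + 1 / (4 * lam) * (1 / c3) := by ring
          rw [b5, b1, b2, b3]
          linarith
  -- contradiction
  have htend : Tendsto (fun T : ℕ => (c / 8) * (Real.log ((T:ℝ) + 1) + 1)) atTop atTop := by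
    apply Tendsto.const_mul_atTop (by positivity)
    apply tendsto_atTop_add_const_right
    exact Real.tendsto_log_atTop.comp (tendsto_atTop_add_const_right _ _ tendsto_natCast_atTop_atTop)
  obtain ⟨T, hT1, hT2⟩ := ((htend.eventually_gt_atTop
    (K0 + (e + 1 / (4 * lam) * (1 / c3) + T0))).and (eventually_ge_atTop 1)).exists
  have f1 := hK0 T hT2
  have f2 := hsum T
  have f3 : 5 * e = c / 4 := by rw [he]; ring
  rw [f3] at f2
  linarith

end Pool.Agent.CAS
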