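import Pool.Agent.CAS.PROJSTAB

open Finset Filter Topology MeasureTheory
open scoped BigOperators ENNReal

namespace Pool.Agent.CAS

set_option linter.unusedSectionVars false

namespace FIN_

open PROJSTAB_

/-! ## The measures -/

lemma isProb_ber {p : ℝ} (h0 : 0 ≤ p) (h1 : p ≤ 1) : IsProbabilityMeasure (berM p) := by
  constructor
  unfold berM
  rw [Measure.add_apply, Measure.smul_apply, Measure.smul_apply, measure_univ, measure_univ,
    smul_eq_mul, smul_eq_mul, mul_one, mul_one, ← ENNReal.ofReal_add h0 (by linarith)]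
  simp

instance : IsProbabilityMeasure uniM := by
  constructor
  unfold uniM
  simp

lemma isProb_dir {d : ℕ} (hd : 1 ≤ d) : IsProbabilityMeasure (dirM d) := by
  constructor
  unfold dirM
  rw [Measure.smul_apply, Measure.count_univ]
  have h1 : (ENat.card (Dir d) : ℝ≥0∞) = ((2 * d : ℕ) : ℝ≥0∞) := by
    rw [ENat.card_eq_coe_fintype_card, Fintype.card_prod, Fintype.card_fin, Fintype.card_bool]
    push_cast
    ring
  rw [h1]
  have hd' : (0 : ℝ) < d := by exact_mod_cast hd
  rw [smul_eq_mul, ← ENNReal.ofReal_natCast, ← ENNReal.ofReal_mul (ra_nonneg d)]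
  unfold ra
  rw [ENNReal.ofReal_eq_one]
  push_cast
  field_simp

lemma isProb_clk {d : ℕ} (hd : 1 ≤ d) : IsProbabilityMeasure (clkM d) := by
  have := isProb_dir hd
  unfold clkM
  infer_instance

/-! ## Measurability -/

section Meas

variable {ι G E : Type} [AddCommGroup G]

instance [Finite ι] [Countable G] : Countable (LS ι G) := by
  have : Function.Injective (fun s : LS ι G => (s.pos, s.ld)) := by
    rintro ⟨a, b⟩ ⟨a', b'⟩ h
    simp only [Prod.mk.injEq] at h
    obtain ⟨h1, h2⟩ := h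
    subst h1; subst h2; rfl
  exact this.countable

/-- one ring, as a function of the braveries -/
lemma ring_brv (typ : ι → Bool) (step : E → G) (a : ι × E) (s : LS ι G) :
    ∃ (w : ι) (X Y : LS ι G), ∀ brv : ι → ℝ, ring typ brv step a s =
      open Classical in if brv w < brv a.1 then X else Y := by
  classical
  by_cases h0 : typ a.1 = false
  · exact ⟨a.1, s, s, fun brv => by unfold ring; rw [if_pos h0, ite_self]⟩
  by_cases h1 : s.ld a.1 ≠ some a.1
  · exact ⟨a.1, _, _, fun brv => by unfold ring; rw [if_neg h0, if_pos h1, ite_self]⟩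
  by_cases h2 : ∃ w, typ w = false ∧ s.ld w = some w ∧ s.pos w = s.pos a.1 + step a.2
  · exact ⟨a.1, _, _, fun brv => by unfold ring; rw [if_neg h0, if_neg h1, if_pos h2, ite_self]⟩
  by_cases h3 : ∃ w, w ≠ a.1 ∧ s.ld w = some w ∧ s.pos w = s.pos a.1 + step a.2
  · refine ⟨h3.choose,
      ⟨Function.update s.pos a.1 (s.pos a.1 + step a.2), fun v =>
        if s.ld v = some a.1 ∨ s.ld v = some h3.choose then some a.1 else s.ld v⟩,
      ⟨Function.update s.pos a.1 (s.pos a.1 + step a.2), fun v =>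
        if s.ld v = some a.1 ∨ s.ld v = some h3.choose then some h3.choose else s.ld v⟩,
      fun brv => ?_⟩
    unfold ring
    rw [if_neg h0, if_neg h1, if_neg h2, dif_pos h3]
    by_cases hb : brv h3.choose < brv a.1
    · simp only [if_pos hb]
    · simp only [if_neg hb]
  · exact ⟨a.1, _, _, fun brv => by
      unfold ring; rw [if_neg h0, if_neg h1, if_neg h2, dif_neg h3, ite_self]⟩

lemma meas_ring [Finite ι] (step : E → G) (a : ι × E) (s s' : LS ι G) :
    MeasurableSet {q : (ι → Bool) × (ι → ℝ) | ring q.1 q.2 step a s = s'} := by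
  classical
  cases nonempty_fintype ι
  have e : {q : (ι → Bool) × (ι → ℝ) | ring q.1 q.2 step a s = s'} =
      ⋃ τ : ι → Bool, ({q : (ι → Bool) × (ι → ℝ) | q.1 = τ} ∩
        {q : (ι → Bool) × (ι → ℝ) | ring τ q.2 step a s = s'}) := by
    ext q
    simp only [Set.mem_ofPred_eq, Set.mem_iUnion, Set.mem_inter_iff]
    constructor
    · intro h; exact ⟨q.1, rfl, h⟩
    · rintro ⟨τ, h1, h2⟩; rw [h1]; exact h2
  rw [e]
  refine MeasurableSet.iUnion fun τ => MeasurableSet.inter ?_ ?_
  · exact measurable_fst (measurableSet_singleton τ)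
  · obtain ⟨w, X, Y, h⟩ := ring_brv τ step a s
    have e2 : {q : (ι → Bool) × (ι → ℝ) | ring τ q.2 step a s = s'} =
        ({q | q.2 w < q.2 a.1} ∩ {_q | X = s'}) ∪ ({q | q.2 w < q.2 a.1}ᶜ ∩ {_q | Y = s'}) := by
      ext q
      simp only [Set.mem_ofPred_eq, Set.mem_union, Set.mem_inter_iff, Set.mem_compl_iff]
      rw [h]
      by_cases hb : q.2 w < q.2 a.1
      · rw [if_pos hb]; simp [hb]
      · rw [if_neg hb]; simp [hb]
    rw [e2]
    have m1 : MeasurableSet {q : (ι → Bool) × (ι → ℝ) | q.2 w < q.2 a.1} :=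
      measurableSet_lt ((measurable_pi_apply w).comp measurable_snd)
        ((measurable_pi_apply a.1).comp measurable_snd)
    exact (m1.inter (MeasurableSet.const _)).union (m1.compl.inter (MeasurableSet.const _))

lemma meas_foldl [Finite ι] [Countable G] (step : E → G) (l : List (ι × E)) (s s' : LS ι G) :
    MeasurableSet {q : (ι → Bool) × (ι → ℝ) |
      l.foldl (fun s a => ring q.1 q.2 step a s) s = s'} := by
  induction l generalizing s with
  | nil => simp only [List.foldl_nil]; exact MeasurableSet.const _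
  | cons a l ih =>
    have e : {q : (ι → Bool) × (ι → ℝ) |
        (a :: l).foldl (fun s a => ring q.1 q.2 step a s) s = s'} =
        ⋃ s1 : LS ι G, ({q : (ι → Bool) × (ι → ℝ) | ring q.1 q.2 step a s = s1} ∩
          {q : (ι → Bool) × (ι → ℝ) | l.foldl (fun s a => ring q.1 q.2 step a s) s1 = s'}) := by
      ext q
      simp only [Set.mem_ofPred_eq, Set.mem_iUnion, Set.mem_inter_iff, List.foldl_cons]
      constructor
      · intro h; exact ⟨_, rfl, h⟩
      · rintro ⟨τ, h1, h2⟩; rw [h1]; exact h2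
    rw [e]
    exact MeasurableSet.iUnion fun s1 => (meas_ring step a s s1).inter (ih s1)

/-- lists with labels in a subtype -/
lemma rel_foldl {P : ι → Prop} {typ : ι → Bool} (brv : ι → ℝ) (step : E → G)
    (l : List (Subtype P × E)) {s : LS ι G} {s' : LS (Subtype P) G} (hs : Good typ s)
    (h : Rel s s') :
    Rel ((l.map fun a => ((a.1 : ι), a.2)).foldl (fun s a => ring typ brv step a s) s)
      (l.foldl (fun s a => ring (fun z : Subtype P => typ z) (fun z : Subtype P => brv z)
        step a s) s') := by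
  induction l generalizing s s' with
  | nil => exact h
  | cons a l ih =>
    simp only [List.map_cons, List.foldl_cons]
    exact ih (good_ring brv step _ hs) (rel_ring brv step a.1 a.2 hs h)

lemma list_lift {P : ι → Prop} (l : List (ι × E)) (h : ∀ a ∈ l, P a.1) :
    ∃ l' : List (Subtype P × E), l'.map (fun a => ((a.1 : ι), a.2)) = l := by
  induction l with
  | nil => exact ⟨[], rfl⟩
  | cons a l ih =>
    obtain ⟨l', hl'⟩ := ih fun b hb => h b (List.mem_cons_of_mem _ hb)
    exact ⟨(⟨a.1, h a List.mem_cons_self⟩, a.2) :: l', by simp [hl']⟩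

end Meas

lemma meas_fold_none {d : ℕ} (J : Finset (Zd d)) (l : List (Zd d × Dir d)) (o : Zd d) :
    MeasurableSet {q : (Zd d → Bool) × (Zd d → ℝ) |
      (l.foldl (fun s a => ring q.1 q.2 dz a s) (LS.init id fun z => z ∈ J)).ld o = none} := by
  classical
  set B : Finset (Zd d) := insert o (J ∪ (l.map Prod.fst).toFinset) with hB
  have hl : ∀ a ∈ l, a.1 ∈ B := by
    intro a ha
    rw [hB, Finset.mem_insert, Finset.mem_union, List.mem_toFinset, List.mem_map]
    exact Or.inr (Or.inr ⟨a, ha, rfl⟩)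
  obtain ⟨l', hl'⟩ := list_lift (P := fun z => z ∈ B) l hl
  have ho : o ∈ B := Finset.mem_insert_self _ _
  have hJ : ∀ z, z ∈ J → z ∈ B := fun z hz =>
    Finset.mem_insert_of_mem (Finset.mem_union_left _ hz)
  set R : (Zd d → Bool) × (Zd d → ℝ) → ((Subtype fun z => z ∈ B) → Bool) ×
    ((Subtype fun z => z ∈ B) → ℝ) := fun q => (fun z => q.1 z, fun z => q.2 z) with hR
  have hRm : Measurable R := by
    refine Measurable.prodMk ?_ ?_
    · exact measurable_pi_lambda _ fun z => (measurable_pi_apply (z : Zd d)).comp measurable_fst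
    · exact measurable_pi_lambda _ fun z => (measurable_pi_apply (z : Zd d)).comp measurable_snd
  have e : {q : (Zd d → Bool) × (Zd d → ℝ) |
      (l.foldl (fun s a => ring q.1 q.2 dz a s) (LS.init id fun z => z ∈ J)).ld o = none} =
      R ⁻¹' (⋃ s' : {s' : LS (Subtype fun z => z ∈ B) (Zd d) // s'.ld ⟨o, ho⟩ = none},
        {q | l'.foldl (fun s a => ring q.1 q.2 dz a s)
          (LS.init (fun z : Subtype fun z => z ∈ B => id (z : Zd d)) fun z => (z : Zd d) ∈ J) =
            s'.1}) := by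
    ext q
    have hrel := rel_foldl (P := fun z => z ∈ B) (typ := q.1) q.2 dz l'
      (good_init q.1 Function.injective_id _) (rel_init (P := fun z => z ∈ B) id
        (fun z => z ∈ J) hJ)
    rw [hl'] at hrel
    have h1 := rel_none hrel ⟨o, ho⟩
    simp only [Set.mem_ofPred_eq, Set.mem_preimage, Set.mem_iUnion]
    simp only at h1
    constructor
    · intro h
      exact ⟨⟨_, h1.1 h⟩, rfl⟩
    · rintro ⟨s', hs'⟩
      apply h1.2
      rw [← s'.2, ← hs']
  rw [e]
  exact hRm (MeasurableSet.iUnion fun s' => meas_foldl dz l' _ _)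

/-- the list of the rings as a function of the clocks -/
noncomputable def Lst {d : ℕ} (B : Finset (Zd d)) (T : ℕ)
    (ω : (Zd d × ℕ → ℕ) × (Zd d × ℕ × ℕ → ℝ) × (Zd d × ℕ × ℕ → Dir d)) : List (Zd d × Dir d) :=
  rgs ω.1 ω.2.1 ω.2.2 B T

lemma foldl_snoc {α : Type} (l s : List α) : l.foldl (fun s a => s ++ [a]) s = s ++ l := by
  induction l generalizing s with
  | nil => simp
  | cons a l ih => simp [ih]

lemma meas_Lst (hC : T_CLOCK) {d : ℕ} (hd : 1 ≤ d) (B : Finset (Zd d)) (T : ℕ)
    (l : List (Zd d × Dir d)) : MeasurableSet {ω | Lst B T ω = l} := by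
  classical
  have h := (hC d hd B T (List (Zd d × Dir d)) (fun a s => s ++ [a])
    (fun s => if s = l then 1 else 0) ⟨1, fun s => by dsimp only; split_ifs <;> simp⟩ []).1
  have e : {ω | Lst B T ω = l} = (fun ω : (Zd d × ℕ → ℕ) × (Zd d × ℕ × ℕ → ℝ) ×
      (Zd d × ℕ × ℕ → Dir d) => (if (rgs ω.1 ω.2.1 ω.2.2 B T).foldl (fun s a => s ++ [a]) [] = l
        then (1 : ℝ) else 0)) ⁻¹' {1} := by
    ext ω
    simp only [Set.mem_ofPred_eq, Set.mem_preimage, Set.mem_singleton_iff]
    rw [foldl_snoc, List.nil_append]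
    unfold Lst
    split_ifs with h
    · simp [h]
    · simp [h]
  rw [e]
  exact h (measurableSet_singleton 1)

/-- joint measurability -/
lemma meas_joint (hC : T_CLOCK) {d : ℕ} (hd : 1 ≤ d) (B : Finset (Zd d)) (T : ℕ)
    (Q : (Zd d → Bool) × (Zd d → ℝ) → List (Zd d × Dir d) → Prop)
    (hQ : ∀ l, MeasurableSet {q | Q q l}) :
    MeasurableSet {ω : Omp d | Q (ω.1, ω.2.1) (Lst B T ω.2.2)} := by
  have e : {ω : Omp d | Q (ω.1, ω.2.1) (Lst B T ω.2.2)} =
      ⋃ l : List (Zd d × Dir d), ({ω : Omp d | Lst B T ω.2.2 = l} ∩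
        {ω : Omp d | Q (ω.1, ω.2.1) l}) := by
    ext ω
    simp only [Set.mem_ofPred_eq, Set.mem_iUnion, Set.mem_inter_iff]
    constructor
    · intro h; exact ⟨_, rfl, h⟩
    · rintro ⟨l, h1, h2⟩; rw [h1]; exact h2
  rw [e]
  refine MeasurableSet.iUnion fun l => MeasurableSet.inter ?_ ?_
  · exact (measurable_snd.comp measurable_snd) (meas_Lst hC hd B T l)
  · exact (measurable_fst.prodMk (measurable_fst.comp measurable_snd)) (hQ l)

/-- the measure of a measurable set as an iterated integral -/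
lemma casM_apply {d : ℕ} (hd : 1 ≤ d) {p : ℝ} (h0 : 0 ≤ p) (h1 : p ≤ 1) {A : Set (Omp d)}
    (hA : MeasurableSet A) : casM d p A =
      ∫⁻ brv, ∫⁻ typ, clkM d {κ | ((typ, brv, κ) : Omp d) ∈ A}
        ∂(Measure.infinitePi fun _ : Zd d => berM p) ∂(Measure.infinitePi fun _ : Zd d => uniM) := by
  have := isProb_ber h0 h1
  have := isProb_clk hd
  unfold casM
  rw [Measure.prod_apply hA]
  have e1 : ∀ typ : Zd d → Bool, ((Measure.infinitePi fun _ : Zd d => uniM).prod (clkM d))
      (Prod.mk typ ⁻¹' A) = ∫⁻ brv, clkM d {κ | ((typ, brv, κ) : Omp d) ∈ A}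
        ∂(Measure.infinitePi fun _ : Zd d => uniM) := by
    intro typ
    rw [Measure.prod_apply (measurable_prodMk_left hA)]
    rfl
  simp only [e1]
  rw [lintegral_lintegral_swap]
  apply Measurable.aemeasurable
  have hA' : MeasurableSet {x : ((Zd d → Bool) × (Zd d → ℝ)) × _ |
      ((x.1.1, x.1.2, x.2) : Omp d) ∈ A} := by
    have : Measurable fun x : ((Zd d → Bool) × (Zd d → ℝ)) ×
        ((Zd d × ℕ → ℕ) × (Zd d × ℕ × ℕ → ℝ) × (Zd d × ℕ × ℕ → Dir d)) =>
        ((x.1.1, x.1.2, x.2) : Omp d) := by fun_prop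
    exact this hA
  exact measurable_measure_prodMk_left hA'

/-- probabilities of events as semigroups -/
lemma clkM_eq (hC : T_CLOCK) {d : ℕ} (hd : 1 ≤ d) (B : Finset (Zd d)) (T : ℕ) {S : Type}
    (φ : Zd d × Dir d → S → S) (Q : S → Prop) [DecidablePred Q] (s0 : S) :
    clkM d {κ | Q ((Lst B T κ).foldl (fun s a => φ a s) s0)} =
      ENNReal.ofReal (sg (fun _ : B × Dir d => ra d) (fun a s => φ (a.1.1, a.2) s) T
        (fun s => if Q s then 1 else 0) s0) := by
  have := isProb_clk hd
  obtain ⟨h1, h2⟩ := hC d hd B T S φ (fun s => if Q s then 1 else 0)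
    ⟨1, fun s => by dsimp only; split_ifs <;> simp⟩ s0
  rw [← h2]
  have hm : MeasurableSet {κ | Q ((Lst B T κ).foldl (fun s a => φ a s) s0)} := by
    have e : {κ | Q ((Lst B T κ).foldl (fun s a => φ a s) s0)} =
        (fun ω : (Zd d × ℕ → ℕ) × (Zd d × ℕ × ℕ → ℝ) × (Zd d × ℕ × ℕ → Dir d) =>
          (if Q ((rgs ω.1 ω.2.1 ω.2.2 B T).foldl (fun s a => φ a s) s0) then (1 : ℝ) else 0))
          ⁻¹' {1} := by
      ext κ
      simp only [Set.mem_ofPred_eq, Set.mem_preimage, Set.mem_singleton_iff]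
      unfold Lst
      split_ifs with h
      · simp [h]
      · simp [h]
    rw [e]
    exact h1 (measurableSet_singleton 1)
  have e : (fun ω : (Zd d × ℕ → ℕ) × (Zd d × ℕ × ℕ → ℝ) × (Zd d × ℕ × ℕ → Dir d) =>
          (if Q ((rgs ω.1 ω.2.1 ω.2.2 B T).foldl (fun s a => φ a s) s0) then (1 : ℝ) else 0)) =
      Set.indicator {κ | Q ((Lst B T κ).foldl (fun s a => φ a s) s0)} (fun _ => 1) := by
    funext κ
    rw [Set.indicator_apply]
    rfl
  rw [e, integral_indicator_const _ hm, smul_eq_mul, mul_one, Measure.real,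
    ENNReal.ofReal_toReal (measure_ne_top _ _)]

/-! ## The average over the types -/

/-- the types on `B` with B particles in `M` -/
lemma sum_types {d : ℕ} (B : Finset (Zd d)) (p : ℝ) (h0 : 0 ≤ p) (h1 : p ≤ 1)
    (G : ((z : B) → Bool) → ℝ≥0∞) :
    ∫⁻ typ, G (B.restrict typ) ∂(Measure.infinitePi fun _ : Zd d => berM p) =
      ∑ M ∈ B.powerset, ENNReal.ofReal ((1 - p) ^ M.card * p ^ (B.card - M.card)) *
        G (B.restrict (tpM M)) := by
  classical
  have := isProb_ber h0 h1
  have hI := lintegral_restrict_infinitePi (X := fun _ : Zd d => Bool)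
    (μ := fun _ : Zd d => berM p) (s := B) (f := G) (measurable_of_countable G)
  rw [hI, lintegral_fintype]
  symm
  refine Finset.sum_bij' (fun M _ => B.restrict (tpM M))
    (fun τ _ => B.filter fun z => ∃ h : z ∈ B, τ ⟨z, h⟩ = false) ?_ ?_ ?_ ?_ ?_
  · intro M _; exact Finset.mem_univ _
  · intro τ _
    rw [Finset.mem_powerset]
    exact Finset.filter_subset _ _
  · intro M hM
    rw [Finset.mem_powerset] at hM
    ext z
    rw [Finset.mem_filter]
    constructor
    · rintro ⟨_, hz, h⟩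
      simp only [Finset.restrict_def, tpM] at h
      by_contra h'
      simp [h'] at h
    · intro hz
      refine ⟨hM hz, hM hz, ?_⟩
      simp [tpM, hz]
  · intro τ _
    funext z
    simp only [Finset.restrict_def, tpM]
    by_cases h : τ z = true
    · rw [h]
      rw [decide_eq_true_eq, Finset.mem_filter]
      rintro ⟨_, hz, h'⟩
      rw [h] at h'
      exact absurd h' (by simp)
    · have h' : τ z = false := by simpa using h
      rw [h']
      rw [decide_eq_false_iff_not, not_not, Finset.mem_filter]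
      exact ⟨z.2, z.2, h'⟩
  · intro M hM
    rw [Finset.mem_powerset] at hM
    rw [mul_comm]
    congr 1
    rw [Measure.pi_singleton]
    have e1 : ∀ z : B, berM p {B.restrict (tpM M) z} =
        if (z : Zd d) ∈ M then ENNReal.ofReal (1 - p) else ENNReal.ofReal p := by
      intro z
      unfold berM
      rw [Measure.add_apply, Measure.smul_apply, Measure.smul_apply, Measure.dirac_apply,
        Measure.dirac_apply]
      simp only [Finset.restrict_def, tpM]
      by_cases hz : (z : Zd d) ∈ M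
      · simp [hz]
      · simp [hz]
    simp only [e1]
    rw [Finset.prod_coe_sort B (fun z => if z ∈ M then ENNReal.ofReal (1 - p)
      else ENNReal.ofReal p), Finset.prod_ite, Finset.prod_const, Finset.prod_const]
    rw [Finset.filter_mem_eq_inter, Finset.inter_eq_right.2 hM]
    have e2 : (B.filter fun z => z ∉ M).card = B.card - M.card := by
      rw [← Finset.card_sdiff_of_subset hM]
      congr 1
      ext z; simp [Finset.mem_sdiff]
    rw [e2, ENNReal.ofReal_mul (by positivity [sub_nonneg.2 h1]), ENNReal.ofReal_pow (by linarith),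
      ENNReal.ofReal_pow h0]

/-! ## The events -/

/-- `0` is an A particle which is alive at time `T` in the box of size `m` -/
def Al (d m T : ℕ) : Set (Omp d) :=
  {ω | ω.toOm.typ 0 = true ∧ (ω.toOm.run m T).ld 0 ≠ none}

/-- the boxes of sizes `m` and `m + 1` disagree -/
def St (d m T : ℕ) : Set (Omp d) :=
  {ω | ¬ ((ω.toOm.run m T).ld 0 = none ↔ (ω.toOm.run (m + 1) T).ld 0 = none)}

/-- the same with the rings of the larger box -/
def St' (d m T : ℕ) : Set (Omp d) :=
  {ω | ¬ (((Lst (box d (m + 1)) T ω.2.2).foldl (fun s a => ring ω.1 ω.2.1 dz a s)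
    (LS.init id fun z => z ∈ box d m)).ld 0 = none ↔
    ((Lst (box d (m + 1)) T ω.2.2).foldl (fun s a => ring ω.1 ω.2.1 dz a s)
    (LS.init id fun z => z ∈ box d (m + 1))).ld 0 = none)}

lemma meas_Al (hC : T_CLOCK) {d : ℕ} (hd : 1 ≤ d) (m T : ℕ) : MeasurableSet (Al d m T) := by
  have h := meas_joint hC hd (box d m) T (fun q l => q.1 0 = true ∧
    ¬ (l.foldl (fun s a => ring q.1 q.2 dz a s) (LS.init id fun z => z ∈ box d m)).ld 0 = none)
    (fun l => by
      have h1 : MeasurableSet {q : (Zd d → Bool) × (Zd d → ℝ) | q.1 0 = true} := by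
        have h2 : Measurable fun q : (Zd d → Bool) × (Zd d → ℝ) => q.1 0 :=
          (measurable_pi_apply (0 : Zd d)).comp measurable_fst
        exact h2 (measurableSet_singleton true)
      exact h1.inter (meas_fold_none (box d m) l 0).compl)
  exact h

lemma meas_St' (hC : T_CLOCK) {d : ℕ} (hd : 1 ≤ d) (m T : ℕ) : MeasurableSet (St' d m T) := by
  have h := meas_joint hC hd (box d (m + 1)) T (fun q l =>
    ¬ ((l.foldl (fun s a => ring q.1 q.2 dz a s)
      (LS.init id fun z => z ∈ box d m)).ld 0 = none ↔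
      (l.foldl (fun s a => ring q.1 q.2 dz a s)
      (LS.init id fun z => z ∈ box d (m + 1))).ld 0 = none))
    (fun l => by
      have h1 := meas_fold_none (box d m) l 0
      have h2 := meas_fold_none (box d (m + 1)) l 0
      have e : {q : (Zd d → Bool) × (Zd d → ℝ) | ¬ ((l.foldl (fun s a => ring q.1 q.2 dz a s)
          (LS.init id fun z => z ∈ box d m)).ld 0 = none ↔
          (l.foldl (fun s a => ring q.1 q.2 dz a s)
          (LS.init id fun z => z ∈ box d (m + 1))).ld 0 = none)} =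
          ({q | (l.foldl (fun s a => ring q.1 q.2 dz a s)
            (LS.init id fun z => z ∈ box d m)).ld 0 = none} ∩
          {q | (l.foldl (fun s a => ring q.1 q.2 dz a s)
            (LS.init id fun z => z ∈ box d (m + 1))).ld 0 = none}ᶜ) ∪
          ({q | (l.foldl (fun s a => ring q.1 q.2 dz a s)
            (LS.init id fun z => z ∈ box d m)).ld 0 = none}ᶜ ∩
          {q | (l.foldl (fun s a => ring q.1 q.2 dz a s)
            (LS.init id fun z => z ∈ box d (m + 1))).ld 0 = none}) := by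
        ext q
        simp only [Set.mem_ofPred_eq, Set.mem_union, Set.mem_inter_iff, Set.mem_compl_iff]
        tauto
      rw [e]
      exact (h1.inter h2.compl).union (h1.compl.inter h2))
  exact h

lemma boxAlive_congr {d m : ℕ} {typ typ' : Zd d → Bool} (brv : Zd d → ℝ) (t : ℝ)
    (h : ∀ z ∈ box d m, typ z = typ' z) : boxAlive d m typ brv t = boxAlive d m typ' brv t := by
  have h' : ∀ z : (box d m), typ z = typ' z := fun z => h z z.2
  unfold boxAlive
  simp only [h']

lemma boxAlive_nonneg {d m : ℕ} (typ : Zd d → Bool) (brv : Zd d → ℝ) {t : ℝ} (ht : 0 ≤ t) :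
    0 ≤ boxAlive d m typ brv t := by
  classical
  unfold boxAlive
  refine sg_nonneg (fun _ => ra_nonneg d) (Inv := fun _ => True) (fun _ _ _ => trivial)
    (Bd.grF (fun _ => ra_nonneg d) ⟨1, fun s => ?_⟩) (fun s _ => ?_) ht trivial
  · split_ifs <;> simp
  · split_ifs <;> simp

lemma measure_Al (hB : T_BOX) (hC : T_CLOCK) (hP : T_PROJ) {d : ℕ} (hd : 100 ≤ d) {p : ℝ}
    (h0 : 0 ≤ p) (h1 : p < 1) {δ : ℝ} (hδ : 0 < δ) : ∃ T : ℕ, ∀ᶠ m : ℕ in atTop,
    casM d p (Al d m T) ≤ ENNReal.ofReal δ := by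
  classical
  have hd1 : 1 ≤ d := le_trans (by norm_num) hd
  have := isProb_ber h0 h1.le
  obtain ⟨T, hT⟩ := hB d hd p h0 h1 δ hδ
  refine ⟨T, hT.mono fun m hm => ?_⟩
  rw [casM_apply hd1 h0 h1.le (meas_Al hC hd1 m T)]
  have e1 : ∀ (brv : Zd d → ℝ) (typ : Zd d → Bool),
      clkM d {κ | ((typ, brv, κ) : Omp d) ∈ Al d m T} =
        ENNReal.ofReal (boxAlive d m typ brv T) := by
    intro brv typ
    have h2 := clkM_eq hC hd1 (box d m) T (S := LS (Zd d) (Zd d)) (ring typ brv dz)
      (fun s => typ 0 = true ∧ s.ld 0 ≠ none) (LS.init id fun z => z ∈ box d m)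
    have h3 := hP d m typ brv T hd1 (Nat.cast_nonneg T)
    rw [← h3]
    exact h2
  simp only [e1]
  refine (lintegral_mono fun brv => (?_ : _ ≤ ENNReal.ofReal δ)).trans ?_
  · have h4 := sum_types (box d m) p h0 h1.le (fun τ => ENNReal.ofReal (boxAlive d m
      (fun z => if h : z ∈ box d m then τ ⟨z, h⟩ else false) brv T))
    have e2 : ∀ typ : Zd d → Bool, boxAlive d m
        (fun z => if h : z ∈ box d m then (box d m).restrict typ ⟨z, h⟩ else false) brv T =
        boxAlive d m typ brv T := by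
      intro typ
      refine boxAlive_congr brv T fun z hz => ?_
      rw [dif_pos hz]; rfl
    simp only [e2] at h4
    rw [h4]
    have e3 : ∀ M ∈ (box d m).powerset,
        ENNReal.ofReal ((1 - p) ^ M.card * p ^ ((box d m).card - M.card)) *
        ENNReal.ofReal (boxAlive d m (tpM M) brv T) =
        ENNReal.ofReal ((1 - p) ^ M.card * p ^ ((box d m).card - M.card) *
          boxAlive d m (tpM M) brv T) := by
      intro M _
      rw [ENNReal.ofReal_mul (mul_nonneg (pow_nonneg (by linarith) _) (pow_nonneg h0 _))]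
    rw [Finset.sum_congr rfl e3, ← ENNReal.ofReal_sum_of_nonneg]
    · exact ENNReal.ofReal_le_ofReal (hm brv)
    · intro M _
      exact mul_nonneg (mul_nonneg (pow_nonneg (by linarith) _) (pow_nonneg h0 _))
        (boxAlive_nonneg _ _ (Nat.cast_nonneg T))
  · rw [lintegral_const, measure_univ, mul_one]

lemma foldl_pair {α S : Type} (φ : α → S → S) (l : List α) (x y : S) :
    l.foldl (fun (s : S × S) a => (φ a s.1, φ a s.2)) (x, y) =
      (l.foldl (fun s a => φ a s) x, l.foldl (fun s a => φ a s) y) := by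
  induction l generalizing x y with
  | nil => rfl
  | cons a l ih => simp only [List.foldl_cons]; exact ih _ _

lemma measure_St' (hC : T_CLOCK) (hS : T_STAB) {d : ℕ} (hd : 1 ≤ d) {p : ℝ}
    (h0 : 0 ≤ p) (h1 : p ≤ 1) (m T : ℕ) : casM d p (St' d m T) ≤
      ENNReal.ofReal (Real.exp (9 * T + 1) * (d * 4 ^ d * Real.exp (-(m : ℝ)))) := by
  classical
  have := isProb_ber h0 h1
  rw [casM_apply hd h0 h1 (meas_St' hC hd m T)]
  refine (lintegral_mono fun brv => (lintegral_mono fun typ => (?_ : _ ≤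
    ENNReal.ofReal (Real.exp (9 * T + 1) * (d * 4 ^ d * Real.exp (-(m : ℝ))))))).trans ?_
  · have h2 := clkM_eq hC hd (box d (m + 1)) T (S := LS (Zd d) (Zd d) × LS (Zd d) (Zd d))
      (fun a s => (ring typ brv dz a s.1, ring typ brv dz a s.2))
      (fun s => ¬ (s.1.ld 0 = none ↔ s.2.ld 0 = none))
      (LS.init id (fun z => z ∈ box d m), LS.init id fun z => z ∈ box d (m + 1))
    have h3 := hS d m typ brv T hd (Nat.cast_nonneg T)
    simp only [foldl_pair] at h2
    have e : {κ | ((typ, brv, κ) : Omp d) ∈ St' d m T} =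
        {κ | ¬ (((Lst (box d (m + 1)) T κ).foldl (fun s a => ring typ brv dz a s)
          (LS.init id fun z => z ∈ box d m)).ld 0 = none ↔
          ((Lst (box d (m + 1)) T κ).foldl (fun s a => ring typ brv dz a s)
          (LS.init id fun z => z ∈ box d (m + 1))).ld 0 = none)} := rfl
    rw [e, h2]
    refine ENNReal.ofReal_le_ofReal (le_trans (le_of_eq ?_) h3)
    congr 1
    funext s
    rw [ite_not]
  · rw [lintegral_const, lintegral_const, measure_univ, measure_univ, mul_one, mul_one]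

lemma ae_stable (hC : T_CLOCK) (hS : T_STAB) (hR : T_RESTR) {d : ℕ} (hd : 1 ≤ d) {p : ℝ}
    (h0 : 0 ≤ p) (h1 : p ≤ 1) (T : ℕ) :
    ∀ᵐ ω ∂(casM d p), ∀ᶠ m in atTop, ω ∉ St d m T := by
  have key : ∀ m, casM d p (St d m T) ≤ casM d p (St' d m T) := by
    intro m
    refine measure_mono_ae ?_
    filter_upwards [hR d p hd h0 h1] with ω hω
    intro hs
    have h2 := hω m T
    have h3 : ω ∈ St d m T := hs
    show ω ∈ St' d m T
    unfold St' at *
    unfold St at h3
    rw [Set.mem_ofPred_eq] at h3 ⊢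
    have e : ((Lst (box d (m + 1)) T ω.2.2).foldl (fun s a => ring ω.1 ω.2.1 dz a s)
        (LS.init id fun z => z ∈ box d m)).ld 0 = (ω.toOm.run m T).ld 0 := h2
    rw [e]
    exact h3
  refine ae_eventually_notMem ?_
  refine ne_top_of_le_ne_top ?_ (ENNReal.tsum_le_tsum fun m => (key m).trans
    (measure_St' hC hS hd h0 h1 m T))
  have hsum : Summable fun m : ℕ => Real.exp (9 * T + 1) * (d * 4 ^ d * Real.exp (-(m : ℝ))) := by
    refine Summable.mul_left _ (Summable.mul_left _ ?_)
    exact Real.summable_exp_neg_nat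
  rw [← ENNReal.ofReal_tsum_of_nonneg (fun m => by positivity) hsum]
  exact ENNReal.ofReal_ne_top

lemma measure_eventually {Ω : Type*} [MeasurableSpace Ω] (μ : Measure Ω) (A : ℕ → Set Ω)
    {c : ℝ≥0∞} (h : ∀ᶠ m in atTop, μ (A m) ≤ c) : μ {ω | ∀ᶠ m in atTop, ω ∈ A m} ≤ c := by
  have e : {ω | ∀ᶠ m in atTop, ω ∈ A m} = ⋃ k : ℕ, ⋂ m, ⋂ (_ : k ≤ m), A m := by
    ext ω
    simp only [Set.mem_ofPred_eq, eventually_atTop, Set.mem_iUnion, Set.mem_iInter]
  rw [e]
  have hmono : Monotone fun k : ℕ => ⋂ m, ⋂ (_ : k ≤ m), A m := by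
    intro k l hkl ω hω
    simp only [Set.mem_iInter] at hω ⊢
    exact fun m hm => hω m (hkl.trans hm)
  rw [hmono.measure_iUnion]
  refine iSup_le fun k => ?_
  obtain ⟨m, hm1, hm2⟩ := (h.and (eventually_ge_atTop k)).exists
  refine (measure_mono ?_).trans hm1
  exact Set.iInter_subset_of_subset m (Set.iInter_subset _ hm2)

end FIN_

open FIN_

theorem t_FIN (hB : T_BOX) (hC : T_CLOCK) (hP : T_PROJ) (hS : T_STAB) (hR : T_RESTR) : Final := by
  intro d hd p h0 h1
  have hd1 : 1 ≤ d := le_trans (by norm_num) hd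
  have hst : ∀ᵐ ω ∂(casM d p), ∀ T : ℕ, ∀ᶠ m in atTop, ω ∉ St d m T :=
    ae_all_iff.2 fun T => ae_stable hC hS hR hd1 h0 h1.le T
  have hz : ∀ δ : ℝ, 0 < δ → casM d p {ω | ∀ T : ℕ, ∀ᶠ m in atTop, ω ∈ Al d m T} ≤
      ENNReal.ofReal δ := by
    intro δ hδ
    obtain ⟨T, hT⟩ := measure_Al hB hC hP hd h0 h1 hδ
    refine (measure_mono ?_).trans (measure_eventually _ (fun m => Al d m T) hT)
    intro ω hω
    exact hω T
  have hz0 : casM d p {ω | ∀ T : ℕ, ∀ᶠ m in atTop, ω ∈ Al d m T} = 0 := by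
    by_contra hne
    have hpos : 0 < casM d p {ω | ∀ T : ℕ, ∀ᶠ m in atTop, ω ∈ Al d m T} := pos_iff_ne_zero.2 hne
    have hfin : casM d p {ω | ∀ T : ℕ, ∀ᶠ m in atTop, ω ∈ Al d m T} ≠ ∞ :=
      ne_top_of_le_ne_top ENNReal.ofReal_ne_top (hz 1 one_pos)
    set x := (casM d p {ω | ∀ T : ℕ, ∀ᶠ m in atTop, ω ∈ Al d m T}).toReal with hx
    have hx0 : 0 < x := ENNReal.toReal_pos hne hfin
    have h2 := hz (x / 2) (by linarith)
    have h3 := ENNReal.toReal_le_of_le_ofReal (by linarith) h2
    rw [← hx] at h3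
    linarith
  have hz1 : ∀ᵐ ω ∂(casM d p), ¬ ∀ T : ℕ, ∀ᶠ m in atTop, ω ∈ Al d m T := by
    rw [ae_iff]
    simpa using hz0
  filter_upwards [hst, hz1] with ω h2 h3 htyp
  by_contra hcon
  push Not at hcon
  apply h3
  intro T
  obtain ⟨N, hN⟩ := eventually_atTop.1 (h2 T)
  have hconst : ∀ m, N ≤ m → ((ω.toOm.run m T).ld 0 = none ↔ (ω.toOm.run N T).ld 0 = none) := by
    intro m hm
    induction m, hm using Nat.le_induction with
    | base => exact Iff.rfl
    | succ m hm ih =>
      have := hN m hm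
      unfold St at this
      rw [Set.mem_ofPred_eq, not_not] at this
      exact this.symm.trans ih
  have hfreq := hcon T
  have hNn : (ω.toOm.run N T).ld 0 ≠ none := by
    intro h
    apply hfreq
    exact eventually_atTop.2 ⟨N, fun m hm => not_not.2 ((hconst m hm).2 h)⟩
  exact eventually_atTop.2 ⟨N, fun m hm => ⟨htyp, fun h => hNn ((hconst m hm).1 h)⟩⟩

end Pool.Agent.CAS
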