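import Pool.Agent.CAS.Basic

/-!
# Fourier bounds for the heat kernel (job FOU)
-/

open Finset Filter Topology MeasureTheory
open scoped BigOperators

namespace Pool.Agent.CAS

namespace FOU

/-- orthogonality -/
lemma sum_cos_eq_zero {N : ℕ} (hN : 0 < N) {k : ℤ} (hk : ¬ (N : ℤ) ∣ k) :
    ∑ j ∈ range N, Real.cos (2 * Real.pi * j * k / N) = 0 := by
  have hN' : (N : ℂ) ≠ 0 := by exact_mod_cast hN.ne'
  set ζ : ℂ := Complex.exp (2 * Real.pi * k / N * Complex.I) with hζ
  have h1 : ζ ≠ 1 := by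
    intro h
    rw [hζ, Complex.exp_eq_one_iff] at h
    obtain ⟨n, hn⟩ := h
    apply hk
    have hpi : (Real.pi : ℂ) ≠ 0 := by exact_mod_cast Real.pi_ne_zero
    have h2 : (k : ℂ) = n * N := by
      have h3 : (2 * Real.pi * Complex.I : ℂ) * (k : ℂ) = (2 * Real.pi * Complex.I) * (n * N) := by
        field_simp at hn
        linear_combination (2 * Real.pi * Complex.I : ℂ) * hn
      exact mul_left_cancel₀ (by simp [hpi]) h3
    refine ⟨n, ?_⟩
    have : (k : ℂ) = ((n * N : ℤ) : ℂ) := by push_cast; exact h2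
    have := Int.cast_injective this
    rw [this]; ring
  have h2 : ζ ^ N = 1 := by
    rw [hζ, ← Complex.exp_nat_mul, Complex.exp_eq_one_iff]
    refine ⟨k, ?_⟩
    field_simp
  have h3 : ∑ j ∈ range N, ζ ^ j = 0 := by
    rw [geom_sum_eq h1, h2]; simp
  have h4 := congrArg Complex.re h3
  rw [Complex.re_sum] at h4
  rw [← Complex.zero_re, ← h4]
  refine Finset.sum_congr rfl fun j _ => ?_
  rw [hζ, ← Complex.exp_nat_mul]
  have : ((j : ℂ) * (2 * Real.pi * k / N * Complex.I)) =
    ((2 * Real.pi * j * k / N : ℝ) : ℂ) * Complex.I := by push_cast; ring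
  rw [this, Complex.exp_ofReal_mul_I_re]

lemma sum_cos_one {N : ℕ} (hN : 2 ≤ N) :
    ∑ j ∈ range N, Real.cos (2 * Real.pi * j / N) = 0 := by
  have := sum_cos_eq_zero (N := N) (by omega) (k := 1) (by
    intro h
    have := Int.le_of_dvd one_pos h
    omega)
  simpa using this

lemma sum_cos_two {N : ℕ} (hN : 3 ≤ N) :
    ∑ j ∈ range N, Real.cos (2 * (2 * Real.pi * j / N)) = 0 := by
  have := sum_cos_eq_zero (N := N) (by omega) (k := 2) (by
    intro h
    have := Int.le_of_dvd two_pos h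
    omega)
  rw [← this]
  refine Finset.sum_congr rfl fun j _ => ?_
  congr 1
  push_cast; ring

/-- periodicity -/
lemma cos_periodic {N : ℕ} (hN : 0 < N) (j : ℕ) {a b : ℤ} (h : (a : ZMod N) = (b : ZMod N)) :
    Real.cos (2 * Real.pi * j * a / N) = Real.cos (2 * Real.pi * j * b / N) := by
  rw [ZMod.intCast_eq_intCast_iff_dvd_sub] at h
  obtain ⟨c, hc⟩ := h
  have hN' : (N : ℝ) ≠ 0 := by exact_mod_cast hN.ne'
  have h1 : b = a + N * c := by linarith
  have h2 : 2 * Real.pi * j * b / N = 2 * Real.pi * j * a / N + ((j * c : ℤ) : ℝ) * (2 * Real.pi) := by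
    rw [h1]; push_cast; field_simp
  rw [h2, Real.cos_add_int_mul_two_pi]

/-- the one-dimensional kernel -/
noncomputable def qq (N : ℕ) (σ : ℝ) (k : ZMod N) : ℝ :=
  (∑ j ∈ range N, Real.exp (-σ * (1 - Real.cos (2 * Real.pi * j / N))) *
    Real.cos (2 * Real.pi * j * ((k.val : ℤ) : ℝ) / N)) / N

variable {N : ℕ} [NeZero N]

lemma qq_zero (k : ZMod N) : qq N 0 k = if k = 0 then 1 else 0 := by
  have hN : 0 < N := Nat.pos_of_ne_zero (NeZero.ne N)
  have hN' : (N : ℝ) ≠ 0 := by exact_mod_cast hN.ne'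
  unfold qq
  by_cases h : k = 0
  · subst h
    simp [hN']
  · rw [if_neg h]
    have h1 := sum_cos_eq_zero hN (k := (k.val : ℤ)) (by
      intro h2
      have h3 : N ∣ k.val := by exact_mod_cast h2
      have h4 : k.val < N := ZMod.val_lt k
      have h5 : k.val = 0 := Nat.eq_zero_of_dvd_of_lt h3 h4
      exact h ((ZMod.val_eq_zero k).1 h5))
    simp only [neg_zero, zero_mul, Real.exp_zero, one_mul]
    rw [h1, zero_div]

omit [NeZero N] in
lemma qq_abs_le (σ : ℝ) (k : ZMod N) : |qq N σ k| ≤ q1 N σ := by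
  unfold qq q1
  rw [abs_div, Nat.abs_cast]
  refine div_le_div_of_nonneg_right ?_ (by positivity)
  refine (Finset.abs_sum_le_sum_abs _ _).trans (Finset.sum_le_sum fun j _ => ?_)
  rw [abs_mul, abs_of_pos (Real.exp_pos _)]
  exact mul_le_of_le_one_right (Real.exp_pos _).le (Real.abs_cos_le_one _)

lemma qq_abs_le' (hN : 2 ≤ N) {σ : ℝ} (hσ : 0 ≤ σ) {k : ZMod N} (hk : k ≠ 0) : |qq N σ k| ≤ σ := by
  have hN0 : 0 < N := by omega
  have hN' : (0 : ℝ) < N := by exact_mod_cast hN0
  have h0 : qq N σ k = (∑ j ∈ range N, (Real.exp (-σ * (1 - Real.cos (2 * Real.pi * j / N))) - 1) *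
    Real.cos (2 * Real.pi * j * ((k.val : ℤ) : ℝ) / N)) / N := by
    have h1 := qq_zero (N := N) k
    rw [if_neg hk] at h1
    have h2 : qq N σ k = qq N σ k - qq N 0 k := by rw [h1, sub_zero]
    rw [h2]
    unfold qq
    rw [← sub_div, ← Finset.sum_sub_distrib]
    congr 1
    refine Finset.sum_congr rfl fun j _ => ?_
    simp only [neg_zero, zero_mul, Real.exp_zero, one_mul]
    ring
  rw [h0, abs_div, Nat.abs_cast, div_le_iff₀ hN']
  calc |∑ j ∈ range N, (Real.exp (-σ * (1 - Real.cos (2 * Real.pi * j / N))) - 1) *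
    Real.cos (2 * Real.pi * j * ((k.val : ℤ) : ℝ) / N)|
      ≤ ∑ j ∈ range N, σ * (1 - Real.cos (2 * Real.pi * j / N)) := by
        refine (Finset.abs_sum_le_sum_abs _ _).trans (Finset.sum_le_sum fun j _ => ?_)
        rw [abs_mul]
        have h3 : 0 ≤ σ * (1 - Real.cos (2 * Real.pi * j / N)) :=
          mul_nonneg hσ (by linarith [Real.cos_le_one (2 * Real.pi * j / N)])
        have h4 : |Real.exp (-σ * (1 - Real.cos (2 * Real.pi * j / N))) - 1| ≤
            σ * (1 - Real.cos (2 * Real.pi * j / N)) := by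
          rw [abs_sub_comm, abs_of_nonneg]
          · have := Real.add_one_le_exp (-σ * (1 - Real.cos (2 * Real.pi * j / N)))
            linarith
          · have : Real.exp (-σ * (1 - Real.cos (2 * Real.pi * j / N))) ≤ 1 :=
              Real.exp_le_one_iff.2 (by linarith)
            linarith
        calc _ ≤ |Real.exp (-σ * (1 - Real.cos (2 * Real.pi * j / N))) - 1| * 1 :=
              mul_le_mul_of_nonneg_left (Real.abs_cos_le_one _) (abs_nonneg _)
          _ ≤ _ := by rw [mul_one]; exact h4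
    _ = σ * N := by
        rw [← Finset.mul_sum, Finset.sum_sub_distrib, sum_cos_one hN]
        simp

/-- the derivative -/
lemma hasDerivAt_qq (σ : ℝ) (k : ZMod N) :
    HasDerivAt (fun σ => qq N σ k) ((qq N σ (k + 1) + qq N σ (k - 1)) / 2 - qq N σ k) σ := by
  have hN0 : 0 < N := Nat.pos_of_ne_zero (NeZero.ne N)
  have h1 : ∀ j ∈ range N, HasDerivAt (fun σ : ℝ =>
      Real.exp (-σ * (1 - Real.cos (2 * Real.pi * j / N))) *
      Real.cos (2 * Real.pi * j * ((k.val : ℤ) : ℝ) / N))
      (Real.exp (-σ * (1 - Real.cos (2 * Real.pi * j / N))) *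
        (-(1 - Real.cos (2 * Real.pi * j / N))) *
      Real.cos (2 * Real.pi * j * ((k.val : ℤ) : ℝ) / N)) σ := by
    intro j _
    have h2 : HasDerivAt (fun σ : ℝ => -σ * (1 - Real.cos (2 * Real.pi * j / N)))
        (-(1 - Real.cos (2 * Real.pi * j / N))) σ := by
      have := (hasDerivAt_neg σ).mul_const (1 - Real.cos (2 * Real.pi * j / N))
      simpa using this
    exact h2.exp.mul_const _
  have h3 := (HasDerivAt.fun_sum h1).div_const (N : ℝ)
  refine h3.congr_deriv ?_
  unfold qq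
  have e0 : ∀ A B C : ℝ, (A / N + B / N) / 2 - C / N = ((A + B) / 2 - C) / N := by
    intro A B C; ring
  rw [e0]
  congr 1
  rw [← Finset.sum_add_distrib, Finset.sum_div, ← Finset.sum_sub_distrib]
  refine Finset.sum_congr rfl fun j _ => ?_
  have e1 : Real.cos (2 * Real.pi * j * (((k + 1).val : ℤ) : ℝ) / N) =
      Real.cos (2 * Real.pi * j * ((k.val : ℤ) : ℝ) / N + 2 * Real.pi * j / N) := by
    rw [cos_periodic hN0 j (a := ((k + 1).val : ℤ)) (b := (k.val : ℤ) + 1) (by simp)]
    congr 1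
    push_cast; ring
  have e2 : Real.cos (2 * Real.pi * j * (((k - 1).val : ℤ) : ℝ) / N) =
      Real.cos (2 * Real.pi * j * ((k.val : ℤ) : ℝ) / N - 2 * Real.pi * j / N) := by
    rw [cos_periodic hN0 j (a := ((k - 1).val : ℤ)) (b := (k.val : ℤ) - 1) (by simp)]
    congr 1
    push_cast; ring
  rw [e1, e2, Real.cos_add, Real.cos_sub]
  ring

/-- product formula -/
lemma hk_eq {d L : ℕ} (hd : 1 ≤ d) {s : ℝ} (hs : 0 ≤ s) (x : V d L) :
    hk s x = ∏ i, qq (L + 1) (s / d) (x i) := by
  have hr : ∀ _e : Dir d, 0 ≤ ra d := fun _ => ra_nonneg d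
  have hd0 : (d : ℝ) ≠ 0 := by positivity
  have key := sg_eq_of_solution (r := fun _ : Dir d => ra d)
    (φ := fun e (y : V d L) => y + dv e) hr (Inv := fun _ => True)
    (fun _ _ _ => trivial) (f := fun y => if y = x then 1 else 0)
    (W := fun t y => ∏ i, qq (L + 1) (t / d) (x i - y i))
    (W' := fun t y => ∑ i, (∏ j ∈ univ.erase i, qq (L + 1) (t / d) (x j - y j)) •
      (((qq (L + 1) (t / d) (x i - y i + 1) + qq (L + 1) (t / d) (x i - y i - 1)) / 2 -
        qq (L + 1) (t / d) (x i - y i)) * (1 / d))) (T := s) hs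
    (fun t _ y _ => ?_) (fun t _ y _ => ?_) (fun y _ => ?_) (s := (0 : V d L)) trivial
  · unfold hk
    rw [key]
    simp
  · refine HasDerivAt.fun_finsetProd (f := fun i t => qq (L + 1) (t / d) (x i - y i)) fun i _ => ?_
    have h1 := hasDerivAt_qq (N := L + 1) (t / d) (x i - y i)
    have h2 : HasDerivAt (fun t : ℝ => t / d) (1 / d) t := (hasDerivAt_id t).div_const _
    exact h1.comp t h2
  · unfold gen
    rw [Fintype.sum_prod_type]
    refine Finset.sum_congr rfl fun i _ => ?_
    rw [Fintype.sum_bool]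
    have e0 : ∀ c : ZMod (L + 1), (∏ j, qq (L + 1) (t / d) (x j - (y + (Pi.single i c : V d L)) j)) =
        (∏ j ∈ univ.erase i, qq (L + 1) (t / d) (x j - y j)) *
          qq (L + 1) (t / d) (x i - y i - c) := by
      intro c
      rw [← Finset.prod_erase_mul _ _ (Finset.mem_univ i)]
      congr 1
      · refine Finset.prod_congr rfl fun j hj => ?_
        rw [Pi.add_apply, Pi.single_eq_of_ne (Finset.ne_of_mem_erase hj), add_zero]
      · rw [Pi.add_apply, Pi.single_eq_same]
        congr 1; abel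
    have e1 : (∏ j, qq (L + 1) (t / d) (x j - y j)) =
        (∏ j ∈ univ.erase i, qq (L + 1) (t / d) (x j - y j)) *
          qq (L + 1) (t / d) (x i - y i) :=
      (Finset.prod_erase_mul _ _ (Finset.mem_univ i)).symm
    simp only [dv, if_true, Bool.false_eq_true, if_false]
    rw [e0, e0, e1, sub_neg_eq_add, smul_eq_mul]
    unfold ra
    field_simp
    ring
  · simp only [zero_div, qq_zero]
    rw [Finset.prod_ite_zero]
    simp only [Finset.prod_const_one, Finset.mem_univ, true_implies]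
    refine if_congr ?_ rfl rfl
    constructor
    · rintro rfl i; simp
    · intro h; funext i; have := h i; exact (sub_eq_zero.1 this).symm


lemma one_sub_cos_nonneg (θ : ℝ) : 0 ≤ 1 - Real.cos θ := by linarith [Real.cos_le_one θ]

omit [NeZero N] in
lemma q1_nonneg (σ : ℝ) : 0 ≤ q1 N σ := by
  unfold q1
  positivity

lemma q1_le_one {σ : ℝ} (hσ : 0 ≤ σ) : q1 N σ ≤ 1 := by
  have hN : 0 < N := Nat.pos_of_ne_zero (NeZero.ne N)
  have hN' : (0 : ℝ) < N := by exact_mod_cast hN
  unfold q1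
  rw [div_le_one hN']
  calc ∑ j ∈ range N, Real.exp (-σ * (1 - Real.cos (2 * Real.pi * j / N))) ≤
      ∑ j ∈ range N, (1 : ℝ) := by
        refine Finset.sum_le_sum fun j _ => Real.exp_le_one_iff.2 ?_
        have := mul_nonneg hσ (one_sub_cos_nonneg (2 * Real.pi * j / N))
        linarith
    _ = N := by simp

omit [NeZero N] in
lemma q1_anti {s t : ℝ} (hst : s ≤ t) : q1 N t ≤ q1 N s := by
  unfold q1
  refine div_le_div_of_nonneg_right (Finset.sum_le_sum fun j _ => Real.exp_le_exp.2 ?_)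
    (by positivity)
  have := mul_le_mul_of_nonneg_right hst (one_sub_cos_nonneg (2 * Real.pi * j / N))
  linarith

lemma exp_neg_le_quad {u : ℝ} (hu : 0 ≤ u) : Real.exp (-u) ≤ 1 - u + u ^ 2 / 2 := by
  -- `g u = 1 - u + u²/2 - e^{-u}` has derivative `-1 + u + e^{-u} ≥ 0`
  have hmono : MonotoneOn (fun u : ℝ => 1 - u + u ^ 2 / 2 - Real.exp (-u)) (Set.Ici 0) := by
    refine monotoneOn_of_deriv_nonneg (convex_Ici 0) ?_ ?_ ?_
    · exact Continuous.continuousOn (by fun_prop)
    · exact Differentiable.differentiableOn (by fun_prop)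
    · intro x _
      have h1 : HasDerivAt (fun u : ℝ => 1 - u + u ^ 2 / 2 - Real.exp (-u))
          (-1 + x + Real.exp (-x)) x := by
        have h2 : HasDerivAt (fun u : ℝ => Real.exp (-u)) (-Real.exp (-x)) x := by
          have := (hasDerivAt_neg x).exp
          simpa using this
        have h3 : HasDerivAt (fun u : ℝ => u ^ 2 / 2) x x := by
          have := (hasDerivAt_pow 2 x).div_const 2
          simpa using this
        have h4 := (((hasDerivAt_id x).const_sub 1).add h3).sub h2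
        refine h4.congr_deriv ?_
        ring
      rw [h1.deriv]
      have := Real.add_one_le_exp (-x)
      linarith
  have := hmono (Set.mem_Ici.2 le_rfl) (Set.mem_Ici.2 hu) hu
  simp only [Real.exp_zero, neg_zero] at this
  norm_num at this
  linarith

omit [NeZero N] in
lemma q1_le_quad (hN : 3 ≤ N) {σ : ℝ} (hσ : 0 ≤ σ) : q1 N σ ≤ 1 - σ + 3 / 4 * σ ^ 2 := by
  have hN0 : 0 < N := by omega
  have hN' : (0 : ℝ) < N := by exact_mod_cast hN0
  unfold q1
  rw [div_le_iff₀ hN']
  have h1 : ∀ j ∈ range N, Real.exp (-σ * (1 - Real.cos (2 * Real.pi * j / N))) ≤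
      1 - σ + 3 / 4 * σ ^ 2 + (σ - σ ^ 2) * Real.cos (2 * Real.pi * j / N) +
        σ ^ 2 / 4 * Real.cos (2 * (2 * Real.pi * j / N)) := by
    intro j _
    have h2 := exp_neg_le_quad (mul_nonneg hσ (one_sub_cos_nonneg (2 * Real.pi * j / N)))
    rw [← neg_mul] at h2
    refine h2.trans (le_of_eq ?_)
    rw [Real.cos_two_mul]
    ring
  refine (Finset.sum_le_sum h1).trans (le_of_eq ?_)
  rw [Finset.sum_add_distrib, Finset.sum_add_distrib, ← Finset.mul_sum, ← Finset.mul_sum,
    sum_cos_one (by omega), sum_cos_two hN]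
  simp only [mul_zero, add_zero, Finset.sum_const, Finset.card_range, nsmul_eq_mul]
  ring

omit [NeZero N] in
lemma one_sub_cos_ge {j : ℕ} (hN : 0 < N) (hj : 2 * j ≤ N) :
    8 * (j : ℝ) ^ 2 / N ^ 2 ≤ 1 - Real.cos (2 * Real.pi * j / N) := by
  have hN' : (0 : ℝ) < N := by exact_mod_cast hN
  have hpi := Real.pi_pos
  have h1 : |2 * Real.pi * j / N| ≤ Real.pi := by
    rw [abs_of_nonneg (by positivity), div_le_iff₀ hN']
    have : (2 * j : ℝ) ≤ N := by exact_mod_cast hj
    nlinarith
  have h2 := Real.cos_le_one_sub_mul_cos_sq h1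
  have h3 : 2 / Real.pi ^ 2 * (2 * Real.pi * j / N) ^ 2 = 8 * (j : ℝ) ^ 2 / N ^ 2 := by
    field_simp
    ring
  linarith

omit [NeZero N] in
lemma exp_bound {j : ℕ} (hN : 0 < N) (hj : j ≤ N) {σ : ℝ} (hσ : 0 < σ) :
    Real.exp (-σ * (1 - Real.cos (2 * Real.pi * j / N))) ≤
      Real.exp (-(8 * σ / N ^ 2) * (j : ℝ) ^ 2) +
        Real.exp (-(8 * σ / N ^ 2) * ((N - j : ℕ) : ℝ) ^ 2) := by
  have hN' : (0 : ℝ) < N := by exact_mod_cast hN
  rcases le_total (2 * j) N with h | h
  · have h1 := one_sub_cos_ge hN h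
    have h2 : Real.exp (-σ * (1 - Real.cos (2 * Real.pi * j / N))) ≤
      Real.exp (-(8 * σ / N ^ 2) * (j : ℝ) ^ 2) := by
      refine Real.exp_le_exp.2 ?_
      have h3 := mul_le_mul_of_nonneg_left h1 hσ.le
      calc -σ * (1 - Real.cos (2 * Real.pi * j / N)) ≤ -(σ * (8 * (j : ℝ) ^ 2 / N ^ 2)) := by
            linarith
        _ = _ := by ring
    linarith [Real.exp_pos (-(8 * σ / N ^ 2) * ((N - j : ℕ) : ℝ) ^ 2)]
  · have h1 := one_sub_cos_ge (j := N - j) hN (by omega)
    have h4 : Real.cos (2 * Real.pi * ((N - j : ℕ) : ℝ) / N) = Real.cos (2 * Real.pi * j / N) := by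
      rw [Nat.cast_sub hj]
      have : 2 * Real.pi * ((N : ℝ) - j) / N = 2 * Real.pi - 2 * Real.pi * j / N := by
        field_simp
      rw [this, Real.cos_two_pi_sub]
    rw [h4] at h1
    have h2 : Real.exp (-σ * (1 - Real.cos (2 * Real.pi * j / N))) ≤
      Real.exp (-(8 * σ / N ^ 2) * ((N - j : ℕ) : ℝ) ^ 2) := by
      refine Real.exp_le_exp.2 ?_
      have h3 := mul_le_mul_of_nonneg_left h1 hσ.le
      calc -σ * (1 - Real.cos (2 * Real.pi * j / N)) ≤
            -(σ * (8 * ((N - j : ℕ) : ℝ) ^ 2 / N ^ 2)) := by linarith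
        _ = _ := by ring
    linarith [Real.exp_pos (-(8 * σ / N ^ 2) * (j : ℝ) ^ 2)]

lemma sum_gauss {b : ℝ} (hb : 0 < b) (n : ℕ) :
    ∑ i ∈ range n, Real.exp (-b * ((i + 1 : ℕ) : ℝ) ^ 2) ≤ √(Real.pi / b) / 2 := by
  have hanti : AntitoneOn (fun x : ℝ => Real.exp (-b * x ^ 2)) (Set.Icc 0 (0 + (n : ℝ))) := by
    intro x hx y hy hxy
    refine Real.exp_le_exp.2 ?_
    have : x ^ 2 ≤ y ^ 2 := pow_le_pow_left₀ hx.1 hxy 2
    nlinarith
  have h1 := hanti.sum_le_integral
  simp only [zero_add] at h1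
  refine h1.trans ?_
  rw [← integral_gaussian_Ioi b, intervalIntegral.integral_of_le (by positivity)]
  refine setIntegral_mono_set ?_ ?_ ?_
  · exact (integrable_exp_neg_mul_sq hb).integrableOn
  · exact Filter.Eventually.of_forall fun x => (Real.exp_pos _).le
  · exact (Set.Ioc_subset_Ioi_self).eventuallyLE

omit [NeZero N] in
lemma q1_gauss (hN : 0 < N) {σ : ℝ} (hσ : 0 < σ) :
    q1 N σ ≤ 1 / N + √(Real.pi / (8 * σ)) := by
  obtain ⟨n, rfl⟩ : ∃ n, N = n + 1 := ⟨N - 1, by omega⟩
  have hN' : (0 : ℝ) < ((n + 1 : ℕ) : ℝ) := by positivity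
  set b : ℝ := 8 * σ / ((n + 1 : ℕ) : ℝ) ^ 2 with hb
  have hb0 : 0 < b := by positivity
  unfold q1
  rw [Finset.sum_range_succ']
  have h1 : ∑ k ∈ range n, Real.exp (-σ * (1 - Real.cos (2 * Real.pi * ((k + 1 : ℕ) : ℝ) /
      ((n + 1 : ℕ) : ℝ)))) ≤ √(Real.pi / b) := by
    calc _ ≤ ∑ k ∈ range n, (Real.exp (-b * ((k + 1 : ℕ) : ℝ) ^ 2) +
          Real.exp (-b * (((n + 1) - (k + 1) : ℕ) : ℝ) ^ 2)) := by
          refine Finset.sum_le_sum fun k hk => ?_
          exact exp_bound hN (by have := Finset.mem_range.1 hk; omega) hσ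
      _ = ∑ k ∈ range n, Real.exp (-b * ((k + 1 : ℕ) : ℝ) ^ 2) +
          ∑ k ∈ range n, Real.exp (-b * ((k + 1 : ℕ) : ℝ) ^ 2) := by
          rw [Finset.sum_add_distrib]
          congr 1
          rw [← Finset.sum_range_reflect]
          refine Finset.sum_congr rfl fun k hk => ?_
          have := Finset.mem_range.1 hk
          congr 3
          congr 1
          omega
      _ ≤ √(Real.pi / b) / 2 + √(Real.pi / b) / 2 := add_le_add (sum_gauss hb0 n) (sum_gauss hb0 n)
      _ = _ := by ring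
  have h2 : √(Real.pi / b) = √(Real.pi / (8 * σ)) * ((n + 1 : ℕ) : ℝ) := by
    rw [hb]
    have : Real.pi / (8 * σ / ((n + 1 : ℕ) : ℝ) ^ 2) = Real.pi / (8 * σ) * ((n + 1 : ℕ) : ℝ) ^ 2 := by
      field_simp
    rw [this, Real.sqrt_mul (by positivity), Real.sqrt_sq hN'.le]
  rw [h2] at h1
  rw [div_le_iff₀ hN', add_mul, one_div, inv_mul_cancel₀ hN'.ne']
  simp only [Nat.cast_zero, mul_zero, zero_div, Real.cos_zero, sub_self, Real.exp_zero]
  linarith

end FOU

open FOU in
theorem t_FOU : T_FOU := by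
  intro d L hd hL
  have hr : ∀ _e : Dir d, 0 ≤ ra d := fun _ => ra_nonneg d
  have hd0 : (0 : ℝ) < d := by exact_mod_cast hd
  refine ⟨?_, ?_, ?_, ?_, ?_, ?_, ?_, ?_, ?_, ?_⟩
  · intro s x hs
    refine ⟨sg_nonneg hr (Inv := fun _ => True) (fun _ _ _ => trivial) (grF_of_finite hr _)
      (fun y _ => by split_ifs <;> norm_num) hs trivial, ?_⟩
    rw [hk_eq hd hs]
    refine (le_abs_self _).trans ?_
    rw [Finset.abs_prod]
    calc ∏ i, |qq (L + 1) (s / d) (x i)| ≤ ∏ _i : Fin d, q1 (L + 1) (s / d) :=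
          Finset.prod_le_prod (fun _ _ => abs_nonneg _) (fun i _ => qq_abs_le _ _)
      _ = _ := by simp
  · intro s x hs hx
    obtain ⟨i, hi⟩ : ∃ i, x i ≠ 0 := by
      by_contra h
      push Not at h
      exact hx (funext h)
    rw [hk_eq hd hs]
    refine (le_abs_self _).trans ?_
    rw [Finset.abs_prod, ← Finset.mul_prod_erase _ _ (Finset.mem_univ i)]
    refine mul_le_mul (qq_abs_le' (by omega) (by positivity) hi) ?_
      (Finset.prod_nonneg fun _ _ => abs_nonneg _) (by positivity)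
    calc ∏ i ∈ univ.erase i, |qq (L + 1) (s / d) (x i)| ≤ ∏ _i ∈ univ.erase i, q1 (L + 1) (s / d) :=
          Finset.prod_le_prod (fun _ _ => abs_nonneg _) (fun i _ => qq_abs_le _ _)
      _ = _ := by
          rw [Finset.prod_const, Finset.card_erase_of_mem (Finset.mem_univ i), Finset.card_univ,
            Fintype.card_fin]
  · intro s hs
    have key := le_sg_of_sub (r := fun _ : Dir d => ra d)
      (φ := fun e (y : V d L) => y + dv e) hr (Inv := fun _ => True)
      (fun _ _ _ => trivial) (f := fun y => if y = 0 then 1 else 0)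
      (W := fun t y => Real.exp (-t) * if y = 0 then 1 else 0)
      (W' := fun t y => -Real.exp (-t) * if y = 0 then 1 else 0) (T := s) hs
      (fun t _ y _ => ?_) (fun t _ y _ => ?_) (fun y _ => by simp) (s := (0 : V d L)) trivial
    · unfold hk
      simpa using key
    · have := (hasDerivAt_neg t).exp
      have h2 := this.mul_const (if y = 0 then (1 : ℝ) else 0)
      refine h2.congr_deriv ?_
      ring
    · rw [gen_walk hd]
      have h1 : 0 ≤ Pk (fun y : V d L => Real.exp (-t) * if y = 0 then (1 : ℝ) else 0) y :=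
        Pk_nonneg (fun y => by positivity) y
      linarith
  · intro s hs
    unfold hk
    rw [← sg_sum _ (fun j _ => grF_of_finite hr _)]
    have : (fun y : V d L => ∑ x : V d L, if y = x then (1 : ℝ) else 0) = fun _ => 1 := by
      funext y; simp
    rw [this, sg_const]
  · intro s x
    unfold hk
    have h1 := sg_map (r := fun _ : Dir d => ra d) (φ := fun e (y : V d L) => y + dv e)
      (ψ := fun e (y : V d L) => y + dv (opp e)) (fun y => -y) (Inv := fun _ => True)
      (fun _ _ _ => trivial) (fun e y _ => by rw [dv_opp]; abel) s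
      (fun y => if y = x then (1 : ℝ) else 0) (s := (0 : V d L)) trivial
    rw [neg_zero] at h1
    have h2 := sg_reindex (r := fun _ : Dir d => ra d) (r' := fun _ : Dir d => ra d)
      (φ := fun e (y : V d L) => y + dv (opp e)) (φ' := fun e (y : V d L) => y + dv e)
      (oppE (d := d)) (fun e => rfl) (fun e => rfl) s
      (fun y => if y = x then (1 : ℝ) else 0) (0 : V d L)
    rw [← h2, ← h1]
    congr 1
    funext y
    refine if_congr ?_ rfl rfl
    exact ⟨fun h => by rw [h, neg_neg], fun h => by rw [← h, neg_neg]⟩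
  · intro s x
    have h1 := hasDerivAt_sg (r := fun _ : Dir d => ra d) (φ := fun e (y : V d L) => y + dv e)
      (grF_of_finite hr (fun y => if y = x then (1 : ℝ) else 0)) (0 : V d L) s
    refine h1.congr_deriv ?_
    have h2 : gen (fun _ : Dir d => ra d) (fun e (y : V d L) => y + dv e)
        (fun y => if y = x then (1 : ℝ) else 0) =
        fun y => (∑ e : Dir d, ra d * (if y = x + dv e then (1 : ℝ) else 0)) -
          (if y = x then (1 : ℝ) else 0) := by
      funext y
      rw [gen_walk hd]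
      congr 1
      unfold Pk
      rw [← Equiv.sum_comp (oppE (d := d)) (fun e => ra d * (if y = x + dv e then (1 : ℝ) else 0))]
      refine Finset.sum_congr rfl fun e _ => ?_
      congr 1
      refine if_congr ?_ rfl rfl
      simp only [oppE, Equiv.coe_fn_mk, dv_opp]
      rw [← sub_eq_add_neg, eq_sub_iff_add_eq]
    rw [h2, sg_sub (grF_of_finite hr _) (grF_of_finite hr _),
      sg_sum _ (fun j _ => grF_of_finite hr _)]
    simp only [sg_smul]
    rfl
  · intro σ hσ
    exact ⟨q1_nonneg σ, q1_le_one hσ⟩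
  · intro σ hσ
    exact q1_le_quad (by omega) hσ
  · intro σ hσ
    have := q1_gauss (N := L + 1) (by omega) hσ
    push_cast at this
    exact this
  · intro s t _ hst
    exact q1_anti hst

end Pool.Agent.CAS
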