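import Pool.Agent.CAS.Basic

/-!
# Homogeneity, first part (job HA)
-/

open Finset Filter Topology MeasureTheory
open scoped BigOperators

namespace Pool.Agent.CAS

namespace HA_

variable {d L : ℕ}

/-- two-time functional of the flow with killing -/
noncomputable def two (ε r u : ℝ) (F : FS d L → FS d L → ℝ) : ℝ :=
  fsg ε r (fun s => fsg ε u (F s) s) (FS.init d L)

lemma gr {ε : ℝ} (h0 : 0 ≤ ε) (h1 : ε ≤ 1) (f : FS d L → ℝ) : GrF (rc d L ε) fup f :=
  grF_of_finite (fun a => rc_nonneg h0 h1 a) f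

lemma two_mono {ε r u : ℝ} (h0 : 0 ≤ ε) (h1 : ε ≤ 1) (hr : 0 ≤ r) (hu : 0 ≤ u)
    {F G : FS d L → FS d L → ℝ} (h : ∀ s s', s.dead ⊆ s'.dead → F s s' ≤ G s s') :
    two ε r u F ≤ two ε r u G := by
  unfold two fsg
  refine sg_mono' (fun a => rc_nonneg h0 h1 a) (gr h0 h1 _) (gr h0 h1 _) (fun s => ?_) hr _
  refine sg_mono (fun a => rc_nonneg h0 h1 a) (Inv := fun s' => s.dead ⊆ s'.dead)
    (fun a s' hs' => hs'.trans (fup_dead_mono a s')) (gr h0 h1 _) (gr h0 h1 _)
    (fun s' hs' => h s s' hs') hu (Finset.Subset.refl _)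

lemma two_congr {ε r u : ℝ} (h0 : 0 ≤ ε) (h1 : ε ≤ 1) (hr : 0 ≤ r) (hu : 0 ≤ u)
    {F G : FS d L → FS d L → ℝ} (h : ∀ s s', s.dead ⊆ s'.dead → F s s' = G s s') :
    two ε r u F = two ε r u G :=
  le_antisymm (two_mono h0 h1 hr hu fun s s' hs => (h s s' hs).le)
    (two_mono h0 h1 hr hu fun s s' hs => (h s s' hs).ge)

lemma two_add {ε r u : ℝ} (h0 : 0 ≤ ε) (h1 : ε ≤ 1) (F G : FS d L → FS d L → ℝ) :
    two ε r u (fun s s' => F s s' + G s s') = two ε r u F + two ε r u G := by
  unfold two fsg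
  rw [← sg_add (gr h0 h1 _) (gr h0 h1 _)]
  congr 1
  funext s
  exact sg_add (gr h0 h1 _) (gr h0 h1 _) _ _

lemma two_sub {ε r u : ℝ} (h0 : 0 ≤ ε) (h1 : ε ≤ 1) (F G : FS d L → FS d L → ℝ) :
    two ε r u (fun s s' => F s s' - G s s') = two ε r u F - two ε r u G := by
  unfold two fsg
  rw [← sg_sub (gr h0 h1 _) (gr h0 h1 _)]
  congr 1
  funext s
  exact sg_sub (gr h0 h1 _) (gr h0 h1 _) _ _

lemma two_smul {ε r u : ℝ} (c : ℝ) (F : FS d L → FS d L → ℝ) :
    two ε r u (fun s s' => c * F s s') = c * two ε r u F := by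
  unfold two fsg
  rw [← sg_smul]
  congr 1
  funext s
  exact sg_smul _ _ _ _

lemma two_sum {ε r u : ℝ} (h0 : 0 ≤ ε) (h1 : ε ≤ 1) {ι : Type*} (A : Finset ι)
    (F : ι → FS d L → FS d L → ℝ) :
    two ε r u (fun s s' => ∑ j ∈ A, F j s s') = ∑ j ∈ A, two ε r u (F j) := by
  unfold two fsg
  rw [← sg_sum A (fun j _ => gr h0 h1 _)]
  congr 1
  funext s
  exact sg_sum A (fun j _ => gr h0 h1 _) _ _

lemma two_zero {ε r u : ℝ} : two ε r u (fun _ _ : FS d L => (0 : ℝ)) = 0 := by
  unfold two fsg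
  simp only [sg_const]

lemma two_nonneg {ε r u : ℝ} (h0 : 0 ≤ ε) (h1 : ε ≤ 1) (hr : 0 ≤ r) (hu : 0 ≤ u)
    {F : FS d L → FS d L → ℝ} (h : ∀ s s', s.dead ⊆ s'.dead → 0 ≤ F s s') :
    0 ≤ two ε r u F := by
  have := two_mono (F := fun _ _ => 0) (G := F) h0 h1 hr hu h
  rwa [two_zero] at this

/-- a functional of the first time -/
lemma two_fst {ε r u : ℝ} (f : FS d L → ℝ) :
    two ε r u (fun s _ => f s) = fsg ε r f (FS.init d L) := by
  unfold two fsg
  simp only [sg_const]

/-- a functional of the second time -/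
lemma two_snd {ε r u : ℝ} (h0 : 0 ≤ ε) (h1 : ε ≤ 1) (f : FS d L → ℝ) :
    two ε r u (fun _ s' => f s') = fsg ε (r + u) f (FS.init d L) := by
  unfold two fsg
  rw [sg_sg (gr h0 h1 _)]

/-- translation of a two-time functional -/
lemma two_shift (hT : T_TR) {ε r u : ℝ} (v : V d L) (F : FS d L → FS d L → ℝ) :
    two ε r u (fun s s' => F (s.shift v) (s'.shift v)) = two ε r u F := by
  unfold two
  have e1 : ∀ s : FS d L, fsg ε u (fun s' => F (s.shift v) (s'.shift v)) s =
      fsg ε u (F (s.shift v)) (s.shift v) := fun s => (hT d L ε u (F (s.shift v)) v).1 s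
  simp only [e1]
  rw [(hT d L ε r (fun s => fsg ε u (F s) s) v).1, (hT d L ε r (fun s => fsg ε u (F s) s) v).2]

/-- Cauchy-Schwarz type inequality -/
lemma two_cs {ε r u B : ℝ} (h0 : 0 ≤ ε) (h1 : ε ≤ 1) (hr : 0 ≤ r) (hu : 0 ≤ u) (hB : 0 ≤ B)
    {S c : FS d L → FS d L → ℝ} (hS : ∀ s s', s.dead ⊆ s'.dead → 0 ≤ S s s')
    (hSc : ∀ s s', s.dead ⊆ s'.dead → S s s' ≤ c s s')
    (h3 : two ε r u (fun s s' => c s s' ^ 3) ≤ B) :
    two ε r u (fun s s' => S s s' ^ 2) ≤ √B * √(two ε r u S) := by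
  have hA : 0 ≤ two ε r u S := two_nonneg h0 h1 hr hu hS
  set A := two ε r u S with hAdef
  -- the basic inequality
  have key : ∀ l : ℝ, 0 < l → two ε r u (fun s s' => S s s' ^ 2) ≤ l / 2 * A + 1 / (2 * l) * B := by
    intro l hl
    have h4 : two ε r u (fun s s' => S s s' ^ 2) ≤
        two ε r u (fun s s' => l / 2 * S s s' + 1 / (2 * l) * c s s' ^ 3) := by
      refine two_mono h0 h1 hr hu fun s s' hs => ?_
      have a0 := hS s s' hs
      have a1 := hSc s s' hs
      have a2 : 0 ≤ c s s' := a0.trans a1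
      -- S^2 <= S c, and 2 S c <= l S + S c^2 / l
      have b1 : S s s' ^ 2 ≤ S s s' * c s s' := by nlinarith
      have b2 : S s s' * c s s' ≤ l / 2 * S s s' + 1 / (2 * l) * (S s s' * c s s' ^ 2) := by
        have : 0 ≤ S s s' / (2 * l) * (l - c s s') ^ 2 := by positivity
        have e : S s s' / (2 * l) * (l - c s s') ^ 2 =
          l / 2 * S s s' + 1 / (2 * l) * (S s s' * c s s' ^ 2) - S s s' * c s s' := by
          field_simp; ring
        linarith
      have b3 : S s s' * c s s' ^ 2 ≤ c s s' ^ 3 := by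
        have : 0 ≤ c s s' ^ 2 := sq_nonneg _
        nlinarith
      have b4 : 1 / (2 * l) * (S s s' * c s s' ^ 2) ≤ 1 / (2 * l) * c s s' ^ 3 :=
        mul_le_mul_of_nonneg_left b3 (by positivity)
      linarith
    rw [two_add h0 h1, two_smul, two_smul] at h4
    have h5 : 1 / (2 * l) * two ε r u (fun s s' => c s s' ^ 3) ≤ 1 / (2 * l) * B :=
      mul_le_mul_of_nonneg_left h3 (by positivity)
    linarith
  rcases hA.eq_or_lt with hA0 | hA0
  · rw [← hA0]
    simp only [Real.sqrt_zero, mul_zero]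
    by_contra hcon
    push Not at hcon
    set Q := two ε r u (fun s s' => S s s' ^ 2) with hQ
    have h6 := key ((B + 1) / Q) (by positivity)
    rw [← hA0] at h6
    have h7 : 1 / (2 * ((B + 1) / Q)) * B = Q * (B / (2 * (B + 1))) := by
      field_simp
    rw [h7] at h6
    have h8 : B / (2 * (B + 1)) < 1 := by
      rw [div_lt_one (by positivity)]; linarith
    nlinarith
  · rcases hB.eq_or_lt with hB0 | hB0
    · rw [← hB0]
      simp only [Real.sqrt_zero, zero_mul]
      by_contra hcon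
      push Not at hcon
      set Q := two ε r u (fun s s' => S s s' ^ 2) with hQ
      have h6 := key (Q / A) (by positivity)
      rw [← hB0] at h6
      have h7 : Q / A / 2 * A = Q / 2 := by field_simp
      rw [h7] at h6
      linarith
    · have h6 := key (√B / √A) (by positivity)
      have e1 : √B / √A / 2 * A = √B * √A / 2 := by
        have : A = √A * √A := (Real.mul_self_sqrt hA).symm
        have hs : √A ≠ 0 := (Real.sqrt_pos.2 hA0).ne'
        calc √B / √A / 2 * A = √B / √A / 2 * (√A * √A) := by rw [← this]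
          _ = √B * √A / 2 := by field_simp
      have e2 : 1 / (2 * (√B / √A)) * B = √B * √A / 2 := by
        have : B = √B * √B := (Real.mul_self_sqrt hB).symm
        have hs : √A ≠ 0 := (Real.sqrt_pos.2 hA0).ne'
        have hs' : √B ≠ 0 := (Real.sqrt_pos.2 hB0).ne'
        calc 1 / (2 * (√B / √A)) * B = 1 / (2 * (√B / √A)) * (√B * √B) := by rw [← this]
          _ = √B * √A / 2 := by field_simp
      rw [e1, e2] at h6
      linarith

open Classical in
/-- the expected number of newly dead lines at `0` -/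
lemma two_new (hT : T_TR) {ε r t : ℝ} (h0 : 0 ≤ ε) (h1 : ε ≤ 1) (hr : 0 ≤ r) (hrt : r ≤ t) :
    two ε r (t - r) (fun s s' : FS d L =>
      ((Finset.univ.filter fun z => s'.pos z = 0 ∧ z ∈ s'.dead ∧ z ∉ s.dead).card : ℝ)) =
      th ε d L r - th ε d L t := by
  have e1 : (fun s s' : FS d L =>
      ((Finset.univ.filter fun z => s'.pos z = 0 ∧ z ∈ s'.dead ∧ z ∉ s.dead).card : ℝ)) =
      fun s s' => ∑ z : V d L,
        if s'.pos z = 0 ∧ z ∈ s'.dead ∧ z ∉ s.dead then (1 : ℝ) else 0 := by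
    funext s s'
    rw [Finset.card_filter]
    push_cast
    rfl
  rw [e1, two_sum h0 h1]
  have e2 : ∀ z : V d L, two ε r (t - r) (fun s s' : FS d L =>
      if s'.pos z = 0 ∧ z ∈ s'.dead ∧ z ∉ s.dead then (1 : ℝ) else 0) =
      two ε r (t - r) (fun s s' : FS d L =>
      if s'.pos 0 = -z ∧ (0 : V d L) ∈ s'.dead ∧ (0 : V d L) ∉ s.dead then (1 : ℝ) else 0) := by
    intro z
    rw [← two_shift hT (-z) (fun s s' : FS d L =>
      if s'.pos 0 = -z ∧ (0 : V d L) ∈ s'.dead ∧ (0 : V d L) ∉ s.dead then (1 : ℝ) else 0)]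
    congr 1
    funext s s'
    have hm : ∀ A : Finset (V d L), (0 : V d L) ∈ A.image (· + -z) ↔ z ∈ A := by
      intro A
      constructor
      · intro h
        obtain ⟨b, hb, hb'⟩ := Finset.mem_image.1 h
        have : b = z := by
          have h2 : b + -z = 0 := hb'
          rwa [← sub_eq_add_neg, sub_eq_zero] at h2
        exact this ▸ hb
      · intro h
        exact Finset.mem_image.2 ⟨z, h, by simp⟩
    have hp : (s'.shift (-z)).pos 0 = -z ↔ s'.pos z = 0 := by
      show s'.pos (0 - -z) + -z = -z ↔ _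
      rw [show (0 : V d L) - -z = z by abel]
      constructor
      · intro h
        simpa using h
      · intro h
        simp [h]
    have hd : (0 : V d L) ∈ (s'.shift (-z)).dead ↔ z ∈ s'.dead := hm _
    have hd' : (0 : V d L) ∈ (s.shift (-z)).dead ↔ z ∈ s.dead := hm _
    simp only [hp, hd, hd']
  rw [Finset.sum_congr rfl fun z _ => e2 z, ← two_sum h0 h1]
  have e3 : (fun s s' : FS d L => ∑ z : V d L,
      if s'.pos 0 = -z ∧ (0 : V d L) ∈ s'.dead ∧ (0 : V d L) ∉ s.dead then (1 : ℝ) else 0) =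
      fun s s' => if (0 : V d L) ∈ s'.dead ∧ (0 : V d L) ∉ s.dead then (1 : ℝ) else 0 := by
    funext s s'
    by_cases h : (0 : V d L) ∈ s'.dead ∧ (0 : V d L) ∉ s.dead
    · simp only [h, not_false_eq_true, and_true, if_true]
      rw [Finset.sum_eq_single (-(s'.pos 0))]
      · simp
      · intro b _ hb
        rw [if_neg]
        intro h2
        exact hb (by rw [h2, neg_neg])
      · intro h2
        exact absurd (Finset.mem_univ _) h2
    · rw [if_neg h]
      refine Finset.sum_eq_zero fun z _ => ?_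
      rw [if_neg fun h2 => h h2.2]
  rw [e3]
  have e4 : two ε r (t - r) (fun s s' : FS d L =>
      if (0 : V d L) ∈ s'.dead ∧ (0 : V d L) ∉ s.dead then (1 : ℝ) else 0) =
      two ε r (t - r) (fun s s' : FS d L =>
        (if (0 : V d L) ∈ s.dead then (0 : ℝ) else 1) -
          (if (0 : V d L) ∈ s'.dead then (0 : ℝ) else 1)) := by
    refine two_congr h0 h1 hr (by linarith) fun s s' hs => ?_
    by_cases h2 : (0 : V d L) ∈ s.dead
    · have h3 := hs h2
      simp [h2, h3]
    · by_cases h3 : (0 : V d L) ∈ s'.dead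
      · simp [h2, h3]
      · simp [h2, h3]
  rw [e4, two_sub h0 h1, two_fst, two_snd h0 h1]
  rw [show r + (t - r) = t by ring]
  unfold th
  congr!

end HA_

open Classical in
/-- homogeneity, first part -/
theorem t_HA (h1 : T_TR) (h2 : T_DUAL) (h3 : T_MOM0) : T_HA := by
  intro d L ε r t hd h0 hε hr hrt
  have ht : 0 ≤ t := hr.trans hrt
  have hu : 0 ≤ t - r := by linarith
  have hB : (0 : ℝ) ≤ 6 * (1 + t) ^ 2 := by positivity
  have key := HA_.two_cs (d := d) (L := L) (ε := ε) (r := r) (u := t - r)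
    (B := 6 * (1 + t) ^ 2) h0 hε hr hu hB
    (S := fun s s' =>
      ((Finset.univ.filter fun z => s'.pos z = 0 ∧ z ∈ s'.dead ∧ z ∉ s.dead).card : ℝ))
    (c := fun _ s' => s'.ct 0) (fun s s' _ => Nat.cast_nonneg _)
    (fun s s' _ => by
      unfold FS.ct
      exact_mod_cast Finset.card_le_card fun z hz => by
        simp only [Finset.mem_filter, Finset.mem_univ, true_and] at hz ⊢
        exact hz.1)
    (by
      rw [HA_.two_snd h0 hε (fun s' => s'.ct 0 ^ 3), show r + (t - r) = t by ring,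
        (h2 d L ε t hd h0 hε ht).2.2 (fun k => k ^ 3) 0]
      exact (h3 d L t hd ht).2.2)
  rw [HA_.two_new h1 h0 hε hr hrt] at key
  have e1 : √(6 * (1 + t) ^ 2) = √6 * (1 + t) := by
    rw [Real.sqrt_mul (by norm_num), Real.sqrt_sq (by linarith)]
  rw [e1] at key
  exact key

end Pool.Agent.CAS
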