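import Pool.Agent.CAS.Basic

set_option autoImplicit false

/-!
# Job HB: homogeneity, part 2 and conclusion
-/

open Finset Filter Topology
open scoped BigOperators

namespace Pool.Agent.CAS
namespace HB_

variable {d L : ℕ}

/-- the flow on the torus driven by the arrows -/
def mv (a : Ar d L × Bool) (Λ : V d L → V d L) : V d L → V d L :=
  fun v => if Λ v = a.1.1 then a.1.1 + dv a.1.2 else Λ v

/-- its semigroup -/
noncomputable def msg (ε τ : ℝ) (h : (V d L → V d L) → ℝ) (Λ : V d L → V d L) : ℝ :=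
  sg (rc d L ε) mv τ h Λ

lemma fsg_pos (ε τ : ℝ) (g : (V d L → V d L) → ℝ) (s : FS d L) :
    fsg ε τ (fun s' => g s'.pos) s = msg ε τ (fun Λ => g (Λ ∘ s.pos)) id := by
  have h1 := sg_map (r := rc d L ε) (φ := fup) (ψ := mv) (fun s : FS d L => s.pos)
    (Inv := fun _ => True) (fun _ _ _ => trivial) (fun a s _ => rfl) τ g (s := s) trivial
  have h2 := sg_map (r := rc d L ε) (φ := mv) (ψ := mv) (fun Λ : V d L → V d L => Λ ∘ s.pos)
    (Inv := fun _ => True) (fun _ _ _ => trivial) (fun a Λ _ => rfl) τ g (s := id) trivial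
  unfold fsg msg
  rw [h1, h2]
  rfl

lemma dis_eq (s : FS d L) (θ : ℝ) (v : V d L) :
    s.dis θ v = ∑ z ∈ Finset.univ.filter (fun z => s.pos z = v),
      ((if z ∈ s.dead then 0 else 1) - θ) := by
  classical
  unfold FS.dis FS.al FS.ct
  rw [Finset.sum_sub_distrib, Finset.sum_const, nsmul_eq_mul]
  have : ((Finset.univ.filter fun z => s.pos z = v ∧ z ∉ s.dead).card : ℝ) =
      ∑ z ∈ Finset.univ.filter (fun z => s.pos z = v), (if z ∈ s.dead then (0:ℝ) else 1) := by
    rw [Finset.card_filter, Finset.sum_filter]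
    push_cast
    apply Finset.sum_congr rfl
    intro z _
    by_cases h1 : s.pos z = v <;> by_cases h2 : z ∈ s.dead <;> simp [h1, h2]
  rw [this]
  ring

lemma abs_dis_le (s : FS d L) (θ : ℝ) (h0 : 0 ≤ θ) (h1 : θ ≤ 1) (v : V d L) :
    |s.dis θ v| ≤ s.ct v := by
  rw [dis_eq]
  refine (Finset.abs_sum_le_sum_abs _ _).trans ?_
  unfold FS.ct
  rw [Finset.card_eq_sum_ones]
  push_cast
  apply Finset.sum_le_sum
  intro z _
  rw [abs_le]
  split_ifs <;> constructor <;> linarith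

/-- the sum as a sum over the positions -/
lemma sum_pos (s : FS d L) (θ : ℝ) (Λ : V d L → V d L) :
    ∑ z ∈ Finset.univ.filter (fun z => (Λ ∘ s.pos) z = 0), ((if z ∈ s.dead then 0 else 1) - θ) =
      ∑ v, (if Λ v = 0 then 1 else 0) * s.dis θ v := by
  rw [Finset.sum_filter]
  rw [← Finset.sum_fiberwise (Finset.univ : Finset (V d L)) s.pos]
  apply Finset.sum_congr rfl
  intro v _
  rw [dis_eq, Finset.mul_sum]
  apply Finset.sum_congr rfl
  intro z hz
  have : s.pos z = v := (Finset.mem_filter.1 hz).2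
  simp only [Function.comp, this]
  split_ifs <;> simp

variable {ε : ℝ}

lemma msg_sum {ι : Type} (A : Finset ι) (h0 : 0 ≤ ε) (h1 : ε ≤ 1) (f : ι → (V d L → V d L) → ℝ)
    (τ : ℝ) (Λ : V d L → V d L) :
    msg ε τ (fun s => ∑ j ∈ A, f j s) Λ = ∑ j ∈ A, msg ε τ (f j) Λ :=
  sg_sum A (fun _ _ => grF_of_finite (rc_nonneg h0 h1) _) τ Λ

lemma msg_smul (c τ : ℝ) (f : (V d L → V d L) → ℝ) (Λ : V d L → V d L) :
    msg ε τ (fun s => c * f s) Λ = c * msg ε τ f Λ := sg_smul _ _ _ _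

lemma msg_mono (h0 : 0 ≤ ε) (h1 : ε ≤ 1) {τ : ℝ} (hτ : 0 ≤ τ) {f g : (V d L → V d L) → ℝ}
    (h : ∀ s, f s ≤ g s) (Λ : V d L → V d L) : msg ε τ f Λ ≤ msg ε τ g Λ :=
  sg_mono' (rc_nonneg h0 h1) (grF_of_finite (rc_nonneg h0 h1) _)
    (grF_of_finite (rc_nonneg h0 h1) _) h hτ Λ

lemma fsg_sum {ι : Type} (A : Finset ι) (h0 : 0 ≤ ε) (h1 : ε ≤ 1) (f : ι → FS d L → ℝ)
    (τ : ℝ) (s : FS d L) :
    fsg ε τ (fun s => ∑ j ∈ A, f j s) s = ∑ j ∈ A, fsg ε τ (f j) s :=
  sg_sum A (fun _ _ => grF_of_finite (rc_nonneg h0 h1) _) τ s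

lemma fsg_smul (c τ : ℝ) (f : FS d L → ℝ) (s : FS d L) :
    fsg ε τ (fun s => c * f s) s = c * fsg ε τ f s := sg_smul _ _ _ _

lemma fsg_mono (h0 : 0 ≤ ε) (h1 : ε ≤ 1) {τ : ℝ} (hτ : 0 ≤ τ) {f g : FS d L → ℝ}
    (h : ∀ s, f s ≤ g s) (s : FS d L) : fsg ε τ f s ≤ fsg ε τ g s :=
  sg_mono' (rc_nonneg h0 h1) (grF_of_finite (rc_nonneg h0 h1) _)
    (grF_of_finite (rc_nonneg h0 h1) _) h hτ s

lemma fsg_nonneg (h0 : 0 ≤ ε) (h1 : ε ≤ 1) {τ : ℝ} (hτ : 0 ≤ τ) {f : FS d L → ℝ}
    (h : ∀ s, 0 ≤ f s) (s : FS d L) : 0 ≤ fsg ε τ f s :=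
  sg_nonneg (rc_nonneg h0 h1) (Inv := fun _ => True) (fun _ _ _ => trivial)
    (grF_of_finite (rc_nonneg h0 h1) _) (fun s _ => h s) hτ trivial

/-- the joint transition probability of two lines to `0` -/
noncomputable def pp (ε τ : ℝ) (v v' : V d L) : ℝ :=
  msg ε τ (fun Λ => (if Λ v = 0 then 1 else 0) * (if Λ v' = 0 then 1 else 0)) id

/-- the transition probability of one line to `0` -/
noncomputable def p1 (ε τ : ℝ) (v : V d L) : ℝ :=
  msg ε τ (fun Λ => (if Λ v = 0 then 1 else 0)) id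

lemma inner_eq (h0 : 0 ≤ ε) (h1 : ε ≤ 1) (τ θ : ℝ) (s : FS d L) :
    fsg ε τ (fun s' => (∑ z ∈ Finset.univ.filter (fun z => s'.pos z = 0),
      ((if z ∈ s.dead then 0 else 1) - θ)) ^ 2) s =
    ∑ v, ∑ v', pp ε τ v v' * (s.dis θ v * s.dis θ v') := by
  have e1 := fsg_pos ε τ (fun p => (∑ z ∈ Finset.univ.filter (fun z => p z = 0),
      ((if z ∈ s.dead then 0 else 1) - θ)) ^ 2) s
  rw [e1]
  have e2 : (fun Λ : V d L → V d L => (∑ z ∈ Finset.univ.filter (fun z => (Λ ∘ s.pos) z = 0),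
      ((if z ∈ s.dead then 0 else 1) - θ)) ^ 2) = fun Λ => ∑ v, ∑ v',
      (s.dis θ v * s.dis θ v') * ((if Λ v = 0 then 1 else 0) * (if Λ v' = 0 then 1 else 0)) := by
    funext Λ
    rw [sum_pos, sq, Finset.sum_mul_sum]
    apply Finset.sum_congr rfl
    intro v _
    apply Finset.sum_congr rfl
    intro v' _
    ring
  rw [e2, msg_sum _ h0 h1]
  apply Finset.sum_congr rfl
  intro v _
  rw [msg_sum _ h0 h1]
  apply Finset.sum_congr rfl
  intro v' _
  rw [msg_smul, mul_comm]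
  rfl

lemma shift_ct (s : FS d L) (v x : V d L) : (s.shift v).ct x = s.ct (x - v) := by
  unfold FS.ct FS.shift
  congr 1
  apply Finset.card_bij (fun z _ => z - v)
  · intro z hz
    rw [Finset.mem_filter] at hz ⊢
    exact ⟨Finset.mem_univ _, eq_sub_of_add_eq hz.2⟩
  · intro a _ b _ h
    exact sub_left_injective h
  · intro z hz
    rw [Finset.mem_filter] at hz
    refine ⟨z + v, ?_, by simp⟩
    rw [Finset.mem_filter]
    refine ⟨Finset.mem_univ _, ?_⟩
    simp only [add_sub_cancel_right]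
    rw [hz.2]; simp

lemma shift_dis (s : FS d L) (θ : ℝ) (v x : V d L) :
    (s.shift v).dis θ x = s.dis θ (x - v) := by
  rw [dis_eq, dis_eq]
  apply Finset.sum_bij (fun z _ => z - v)
  · intro z hz
    rw [Finset.mem_filter] at hz ⊢
    exact ⟨Finset.mem_univ _, eq_sub_of_add_eq hz.2⟩
  · intro a _ b _ h
    exact sub_left_injective h
  · intro z hz
    rw [Finset.mem_filter] at hz
    refine ⟨z + v, ?_, by simp⟩
    rw [Finset.mem_filter]
    refine ⟨Finset.mem_univ _, ?_⟩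
    show s.pos (z + v - v) + v = x
    rw [add_sub_cancel_right, hz.2]; simp
  · intro z _
    have : z ∈ (s.shift v).dead ↔ z - v ∈ s.dead := by
      show z ∈ s.dead.image (· + v) ↔ _
      constructor
      · intro h
        obtain ⟨b, hb, rfl⟩ := Finset.mem_image.1 h
        simpa using hb
      · intro h
        exact Finset.mem_image.2 ⟨z - v, h, by simp⟩
    by_cases h : z - v ∈ s.dead
    · rw [if_pos (this.2 h), if_pos h]
    · rw [if_neg (fun h' => h (this.1 h')), if_neg h]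

lemma card_bal (R : ℕ) : ((bal R : Finset (V d L)).card : ℝ) ≤ (2 * R + 1) ^ d := by
  have : (bal R : Finset (V d L)).card ≤ (2 * R + 1) ^ d := by
    unfold bal
    rw [Fintype.card_piFinset]
    calc ∏ _i : Fin d, ((Finset.Icc (-(R : ℤ)) R).image fun k : ℤ => (k : ZMod (L + 1))).card
        ≤ ∏ _i : Fin d, (2 * R + 1) := by
          apply Finset.prod_le_prod'
          intro i _
          refine Finset.card_image_le.trans ?_
          rw [Int.card_Icc]
          omega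
      _ = (2 * R + 1) ^ d := by simp
  exact_mod_cast this

end HB_

open HB_ in
theorem t_HB (h1 : T_TR) (h2 : T_DUAL) (h3 : T_MOM0) (h4 : T_MIX) : T_HB := by
  intro d ε r η hd hε0 hε1 hr hη
  obtain ⟨R, hR⟩ := h4 d ε r (η / 4) hd hε0 hε1 hr (by positivity)
  set K : ℝ := (2 * R + 1) ^ d * (1 + 2 * r) with hK
  have hK0 : 0 ≤ K := by positivity
  obtain ⟨N, hN⟩ := exists_nat_ge (4 * K / η)
  refine ⟨N + 1, fun t ht hrt => ?_⟩
  filter_upwards [hR] with L hL
  set θ := th ε d L r with hθ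
  have ht1 : (1:ℝ) ≤ t := by
    have : 1 ≤ t := by omega
    exact_mod_cast this
  have hτ0 : (0:ℝ) ≤ t - r := by linarith
  have hθ0 : 0 ≤ θ := fsg_nonneg hε0 hε1 hr (fun s => by split_ifs <;> norm_num) _
  have hθ1 : θ ≤ 1 := by
    have := fsg_mono hε0 hε1 hr (f := fun s : FS d L => if (0 : V d L) ∈ s.dead then 0 else 1)
      (g := fun _ => 1) (fun s => by
        show (if (0 : V d L) ∈ s.dead then (0:ℝ) else 1) ≤ 1
        split_ifs <;> norm_num) (FS.init d L)
    have e : fsg ε r (fun _ : FS d L => (1:ℝ)) (FS.init d L) = 1 := sg_const _ _ _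
    rw [e] at this
    exact this
  -- covariances
  set c : V d L → ℝ := fun w => fsg ε r (fun s => s.dis θ 0 * s.dis θ w) (FS.init d L) with hc
  have hcov : ∀ v v' : V d L,
      fsg ε r (fun s => s.dis θ v * s.dis θ v') (FS.init d L) = c (v' - v) := by
    intro v v'
    obtain ⟨ha, hb⟩ := h1 d L ε r (fun s => s.dis θ v * s.dis θ v') v
    have h5 := ha (FS.init d L)
    rw [hb] at h5
    rw [← h5]
    simp only [shift_dis, hc, sub_self]
  have hct2 : ∀ w : V d L, fsg ε r (fun s => s.ct w ^ 2) (FS.init d L) ≤ 1 + 2 * r := by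
    intro w
    rw [(h2 d L ε r hd hε0 hε1 hr).2.2 (fun x => x ^ 2) w]
    exact (h3 d L r hd hr).2.1
  have hcb : ∀ w : V d L, |c w| ≤ 1 + 2 * r := by
    intro w
    have h5 : c w ^ 2 ≤ fsg ε r (fun s => s.dis θ 0 ^ 2) (FS.init d L) *
        fsg ε r (fun s => s.dis θ w ^ 2) (FS.init d L) :=
      sg_cs (rc_nonneg hε0 hε1) hr _ _ _
    have h6 : ∀ w : V d L, fsg ε r (fun s => s.dis θ w ^ 2) (FS.init d L) ≤ 1 + 2 * r := by
      intro w
      refine (fsg_mono hε0 hε1 hr (fun s => ?_) _).trans (hct2 w)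
      exact sq_le_sq' (abs_le.1 (abs_dis_le s θ hθ0 hθ1 w)).1 (abs_le.1 (abs_dis_le s θ hθ0 hθ1 w)).2
    have h7 : 0 ≤ fsg ε r (fun s => s.dis θ w ^ 2) (FS.init d L) :=
      fsg_nonneg hε0 hε1 hr (fun s => sq_nonneg _) _
    have h8 : c w ^ 2 ≤ (1 + 2 * r) ^ 2 := by
      calc c w ^ 2 ≤ _ := h5
        _ ≤ (1 + 2 * r) * (1 + 2 * r) := mul_le_mul (h6 0) (h6 w) h7 (by linarith)
        _ = _ := by ring
    exact abs_le_of_sq_le_sq h8 (by linarith)
  have hcw : ∀ w : V d L, c w ≤ η / 4 + (if w ∈ bal R then (1 + 2 * r) else 0) := by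
    intro w
    split_ifs with hw
    · have := (abs_le.1 (hcb w)).2
      linarith
    · have := (abs_le.1 (hL w hw)).2
      simpa using this
  -- total masses
  have hpp0 : ∀ v v' : V d L, 0 ≤ pp ε (t - r) v v' := by
    intro v v'
    exact sg_nonneg (rc_nonneg hε0 hε1) (Inv := fun _ => True) (fun _ _ _ => trivial)
      (grF_of_finite (rc_nonneg hε0 hε1) _) (fun s _ => by positivity) hτ0 trivial
  have hpp1 : ∀ v v' : V d L, pp ε (t - r) v v' ≤ p1 ε (t - r) v := by
    intro v v'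
    apply msg_mono hε0 hε1 hτ0
    intro Λ
    split_ifs <;> norm_num
  have hct : ∀ Λ : V d L → V d L, (∑ v, (if Λ v = 0 then (1:ℝ) else 0)) =
      ((Finset.univ.filter fun z => Λ z = 0).card : ℝ) := by
    intro Λ
    rw [Finset.card_filter]; push_cast; rfl
  have hpp2 : ∑ v : V d L, ∑ v' : V d L, pp ε (t - r) v v' ≤ 1 + 2 * (t - r) := by
    have e1 : ∑ v : V d L, ∑ v' : V d L, pp ε (t - r) v v' =
        fsg ε (t - r) (fun s => s.ct 0 ^ 2) (FS.init d L) := by
      have e2 := fsg_pos ε (t - r)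
        (fun p : V d L → V d L => ((Finset.univ.filter fun z => p z = 0).card : ℝ) ^ 2)
        (FS.init d L)
      show _ = fsg ε (t - r) (fun s => ((Finset.univ.filter fun z => s.pos z = 0).card : ℝ) ^ 2)
        (FS.init d L)
      rw [e2]
      have e3 : (fun Λ : V d L → V d L =>
          ((Finset.univ.filter fun z => (Λ ∘ (FS.init d L).pos) z = 0).card : ℝ) ^ 2) =
          fun Λ => ∑ v, ∑ v', ((if Λ v = 0 then (1:ℝ) else 0) * (if Λ v' = 0 then 1 else 0)) := by
        funext Λ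
        rw [← Finset.sum_mul_sum, hct, sq]
        rfl
      rw [e3, msg_sum _ hε0 hε1]
      apply Finset.sum_congr rfl
      intro v _
      rw [msg_sum _ hε0 hε1]
      rfl
    rw [e1, (h2 d L ε (t - r) hd hε0 hε1 hτ0).2.2 (fun x => x ^ 2) 0]
    exact (h3 d L (t - r) hd hτ0).2.1
  have hp1 : ∑ v : V d L, p1 ε (t - r) v = 1 := by
    have e1 : ∑ v : V d L, p1 ε (t - r) v = fsg ε (t - r) (fun s => s.ct 0) (FS.init d L) := by
      have e2 := fsg_pos ε (t - r)
        (fun p : V d L → V d L => ((Finset.univ.filter fun z => p z = 0).card : ℝ))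
        (FS.init d L)
      show _ = fsg ε (t - r) (fun s => ((Finset.univ.filter fun z => s.pos z = 0).card : ℝ))
        (FS.init d L)
      rw [e2]
      have e3 : (fun Λ : V d L → V d L =>
          ((Finset.univ.filter fun z => (Λ ∘ (FS.init d L).pos) z = 0).card : ℝ)) =
          fun Λ => ∑ v, (if Λ v = 0 then (1:ℝ) else 0) := by
        funext Λ
        rw [hct]
        rfl
      rw [e3, msg_sum _ hε0 hε1]
      rfl
    rw [e1, (h2 d L ε (t - r) hd hε0 hε1 hτ0).2.2 (fun x => x) 0]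
    exact (h3 d L (t - r) hd hτ0).1
  -- assembly
  have hin : (fun s : FS d L => fsg ε (t - r) (fun s' =>
      (∑ z ∈ Finset.univ.filter (fun z => s'.pos z = 0),
        ((if z ∈ s.dead then 0 else 1) - θ)) ^ 2) s) =
      fun s => ∑ v, ∑ v', pp ε (t - r) v v' * (s.dis θ v * s.dis θ v') := by
    funext s
    exact inner_eq hε0 hε1 _ _ _
  rw [hin, fsg_sum _ hε0 hε1]
  have hstep : ∀ v : V d L, fsg ε r (fun s => ∑ v', pp ε (t - r) v v' * (s.dis θ v * s.dis θ v'))
      (FS.init d L) ≤ ∑ v', pp ε (t - r) v v' * (η / 4) + p1 ε (t - r) v * K := by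
    intro v
    rw [fsg_sum _ hε0 hε1]
    have e1 : ∀ v' : V d L, fsg ε r (fun s => pp ε (t - r) v v' * (s.dis θ v * s.dis θ v'))
        (FS.init d L) ≤ pp ε (t - r) v v' * (η / 4) +
          (if v' - v ∈ bal R then p1 ε (t - r) v * (1 + 2 * r) else 0) := by
      intro v'
      rw [fsg_smul, hcov]
      have h5 := mul_le_mul_of_nonneg_left (hcw (v' - v)) (hpp0 v v')
      rw [mul_add] at h5
      refine h5.trans ?_
      gcongr
      split_ifs
      · exact mul_le_mul_of_nonneg_right (hpp1 v v') (by linarith)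
      · simp
    refine (Finset.sum_le_sum fun v' _ => e1 v').trans ?_
    rw [Finset.sum_add_distrib]
    gcongr
    rw [← Finset.sum_filter, Finset.sum_const, nsmul_eq_mul]
    have h5 : ((Finset.univ.filter fun v' : V d L => v' - v ∈ bal R).card : ℝ) ≤
        (2 * R + 1) ^ d := by
      refine le_trans ?_ (card_bal (d := d) (L := L) R)
      have : (Finset.univ.filter fun v' : V d L => v' - v ∈ bal R).card ≤
          (bal R : Finset (V d L)).card := by
        apply Finset.card_le_card_of_injOn (fun v' => v' - v)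
        · intro v' hv'
          exact (Finset.mem_filter.1 hv').2
        · intro a _ b _ h
          exact sub_left_injective h
      exact_mod_cast this
    have hp : 0 ≤ p1 ε (t - r) v := (hpp0 v v).trans (hpp1 v v)
    calc _ ≤ (2 * R + 1) ^ d * (p1 ε (t - r) v * (1 + 2 * r)) :=
          mul_le_mul_of_nonneg_right h5 (mul_nonneg hp (by linarith))
      _ = p1 ε (t - r) v * K := by rw [hK]; ring
  refine (Finset.sum_le_sum fun v _ => hstep v).trans ?_
  rw [Finset.sum_add_distrib, ← Finset.sum_mul, hp1, one_mul]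
  simp only [← Finset.sum_mul]
  have h9 : K ≤ η / 4 * t := by
    have h10 : 4 * K / η ≤ t := by
      refine hN.trans ?_
      have : N ≤ t := by omega
      exact_mod_cast this
    rw [div_le_iff₀ hη] at h10
    linarith
  have h11 := mul_le_mul_of_nonneg_right hpp2 (show 0 ≤ η / 4 by positivity)
  nlinarith

open HB_ in
open Classical in
theorem t_H (h1 : T_HA) (h2 : T_HB) (_h3 : T_TH0) : T_H := by
  intro d ε r η hd hε0 hε1 hr hη
  obtain ⟨T0, hT0⟩ := h2 d ε r (η / 2) hd hε0 hε1 hr (by positivity)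
  refine ⟨T0 + 1, fun t ht hrt => ?_⟩
  filter_upwards [hT0 t (by omega) hrt] with L hL
  have hA := h1 d L ε r t hd hε0 hε1 hr hrt
  set θ := th ε d L r with hθ
  have ht1 : (1:ℝ) ≤ t := by
    have : 1 ≤ t := by omega
    exact_mod_cast this
  have hτ0 : (0:ℝ) ≤ t - r := by linarith
  have e1 : fsg ε t (fun s => s.dis θ 0 ^ 2) (FS.init d L) =
      fsg ε r (fun s => fsg ε (t - r) (fun s' => s'.dis θ 0 ^ 2) s) (FS.init d L) := by
    have := sg_sg (r := rc d L ε) (φ := fup)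
      (grF_of_finite (rc_nonneg hε0 hε1) (fun s : FS d L => s.dis θ 0 ^ 2)) r (t - r)
      (FS.init d L)
    rw [show r + ((t:ℝ) - r) = t by ring] at this
    exact this
  have e2 : ∀ s : FS d L, fsg ε (t - r) (fun s' => s'.dis θ 0 ^ 2) s ≤
      2 * fsg ε (t - r) (fun s' => (∑ z ∈ Finset.univ.filter (fun z => s'.pos z = 0),
        ((if z ∈ s.dead then 0 else 1) - θ)) ^ 2) s +
      2 * fsg ε (t - r) (fun s' =>
        ((Finset.univ.filter fun z => s'.pos z = 0 ∧ z ∈ s'.dead ∧ z ∉ s.dead).card : ℝ) ^ 2) s := by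
    intro s
    rw [← fsg_smul, ← fsg_smul]
    have e3 := sg_add (r := rc d L ε) (φ := fup)
      (grF_of_finite (rc_nonneg hε0 hε1) (fun s' : FS d L =>
        2 * (∑ z ∈ Finset.univ.filter (fun z => s'.pos z = 0),
        ((if z ∈ s.dead then 0 else 1) - θ)) ^ 2))
      (grF_of_finite (rc_nonneg hε0 hε1) (fun s' : FS d L =>
        2 * ((Finset.univ.filter fun z => s'.pos z = 0 ∧ z ∈ s'.dead ∧ z ∉ s.dead).card : ℝ) ^ 2))
      (t - r) s
    refine le_trans ?_ (le_of_eq e3)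
    refine sg_mono (rc_nonneg hε0 hε1) (Inv := fun s' : FS d L => s.dead ⊆ s'.dead)
      (fun a s' h => h.trans (fup_dead_mono a s')) (grF_of_finite (rc_nonneg hε0 hε1) _)
      (grF_of_finite (rc_nonneg hε0 hε1) _) ?_ hτ0 (Finset.Subset.refl _)
    intro s' hs'
    have e4 : s'.dis θ 0 = (∑ z ∈ Finset.univ.filter (fun z => s'.pos z = 0),
        ((if z ∈ s.dead then 0 else 1) - θ)) -
        ((Finset.univ.filter fun z => s'.pos z = 0 ∧ z ∈ s'.dead ∧ z ∉ s.dead).card : ℝ) := by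
      rw [dis_eq]
      have e5 : ((Finset.univ.filter fun z => s'.pos z = 0 ∧ z ∈ s'.dead ∧ z ∉ s.dead).card : ℝ) =
          ∑ z ∈ Finset.univ.filter (fun z => s'.pos z = 0),
            (if z ∈ s'.dead ∧ z ∉ s.dead then (1:ℝ) else 0) := by
        rw [Finset.card_filter, Finset.sum_filter]
        push_cast
        apply Finset.sum_congr rfl
        intro z _
        by_cases h1 : s'.pos z = 0 <;> simp [h1]
      rw [e5, ← Finset.sum_sub_distrib]
      apply Finset.sum_congr rfl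
      intro z _
      by_cases h1 : z ∈ s.dead
      · have h2 := hs' h1
        simp [h1, h2]
      · by_cases h2 : z ∈ s'.dead
        · simp [h1, h2]
        · simp [h1, h2]
    rw [e4]
    set a := ∑ z ∈ Finset.univ.filter (fun z => s'.pos z = 0),
        ((if z ∈ s.dead then 0 else 1) - θ)
    set b := ((Finset.univ.filter fun z => s'.pos z = 0 ∧ z ∈ s'.dead ∧ z ∉ s.dead).card : ℝ)
    nlinarith [sq_nonneg (a + b)]
  rw [e1]
  refine (fsg_mono hε0 hε1 hr e2 _).trans ?_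
  have e6 := sg_add (r := rc d L ε) (φ := fup)
      (grF_of_finite (rc_nonneg hε0 hε1) (fun s : FS d L =>
        2 * fsg ε (t - r) (fun s' => (∑ z ∈ Finset.univ.filter (fun z => s'.pos z = 0),
        ((if z ∈ s.dead then 0 else 1) - θ)) ^ 2) s))
      (grF_of_finite (rc_nonneg hε0 hε1) (fun s : FS d L =>
        2 * fsg ε (t - r) (fun s' =>
        ((Finset.univ.filter fun z => s'.pos z = 0 ∧ z ∈ s'.dead ∧ z ∉ s.dead).card : ℝ) ^ 2) s))
      r (FS.init d L)
  refine (le_of_eq e6).trans ?_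
  have e7 : sg (rc d L ε) fup r (fun s : FS d L =>
        2 * fsg ε (t - r) (fun s' => (∑ z ∈ Finset.univ.filter (fun z => s'.pos z = 0),
        ((if z ∈ s.dead then 0 else 1) - θ)) ^ 2) s) (FS.init d L) =
      2 * fsg ε r (fun s => fsg ε (t - r) (fun s' =>
        (∑ z ∈ Finset.univ.filter (fun z => s'.pos z = 0),
        ((if z ∈ s.dead then 0 else 1) - θ)) ^ 2) s) (FS.init d L) := fsg_smul _ _ _ _
  have e8 : sg (rc d L ε) fup r (fun s : FS d L =>
        2 * fsg ε (t - r) (fun s' =>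
        ((Finset.univ.filter fun z => s'.pos z = 0 ∧ z ∈ s'.dead ∧ z ∉ s.dead).card : ℝ) ^ 2) s)
        (FS.init d L) =
      2 * fsg ε r (fun s => fsg ε (t - r) (fun s' =>
        ((Finset.univ.filter fun z => s'.pos z = 0 ∧ z ∈ s'.dead ∧ z ∉ s.dead).card : ℝ) ^ 2) s)
        (FS.init d L) := fsg_smul _ _ _ _
  rw [e7, e8]
  have h6 : √6 ≤ 5 / 2 := by
    rw [Real.sqrt_le_left (by norm_num)]
    norm_num
  have h7 : √6 * (1 + t) * √(θ - th ε d L t) ≤ 5 * t * √(θ - th ε d L t) := by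
    apply mul_le_mul_of_nonneg_right _ (Real.sqrt_nonneg _)
    have : 0 ≤ √(6:ℝ) := Real.sqrt_nonneg _
    nlinarith
  have h8 := hA.trans h7
  linarith

end Pool.Agent.CAS
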