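import Pool.Agent.CAS.Basic

/-!
# Hitting probabilities of the walk on the torus
-/

open Finset Filter Topology MeasureTheory
open scoped BigOperators

namespace Pool.Agent.CAS

set_option linter.unusedSectionVars false

namespace HIT_

variable {d L : ℕ}

/-- rates -/
noncomputable abbrev rr (d : ℕ) : Dir d → ℝ := fun _ => ra d

/-- the walk stopped at `y` -/
abbrev wst {d L : ℕ} (y : V d L) : Dir d → V d L → V d L :=
  fun e z => if z = y then z else z + dv e

/-- the walk -/
abbrev wfr {d L : ℕ} : Dir d → V d L → V d L := fun e z => z + dv e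

/-- indicator -/
abbrev ind {d L : ℕ} (y : V d L) : V d L → ℝ := fun z => if z = y then 1 else 0

lemma rr0 : ∀ e : Dir d, 0 ≤ rr d e := fun _ => ra_nonneg d

lemma ind_nonneg (y z : V d L) : 0 ≤ ind y z := by unfold ind; split_ifs <;> norm_num

lemma ind_le_one (y z : V d L) : ind y z ≤ 1 := by unfold ind; split_ifs <;> norm_num

lemma hit_def (t : ℝ) (x y : V d L) : hit t x y = sg (rr d) (wst y) t (ind y) x := rfl

lemma hit_nonneg {t : ℝ} (ht : 0 ≤ t) (x y : V d L) : 0 ≤ hit t x y :=
  sg_nonneg (r := rr d) (φ := wst y) (Inv := fun _ => True) rr0 (fun _ _ _ => trivial)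
    (grF_of_finite rr0 _) (fun z _ => ind_nonneg y z) ht trivial

lemma hit_le_one {t : ℝ} (ht : 0 ≤ t) (x y : V d L) : hit t x y ≤ 1 := by
  have h := sg_mono' (r := rr d) (φ := wst y) rr0 (grF_of_finite rr0 (ind y))
    (grF_of_finite rr0 (fun _ => (1 : ℝ))) (fun z => ind_le_one y z) ht x
  rwa [sg_const] at h

lemma hit_self (t : ℝ) (y : V d L) : hit t y y = 1 := by
  have h := sg_congr (r := rr d) (φ := wst y) (Inv := fun z => z = y) rr0
    (fun i s hs => by simp [wst, hs]) (f := ind y) (g := fun _ => (1 : ℝ))
    (fun s hs => by simp [ind, hs]) t (s := y) rfl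
  rw [hit_def, h, sg_const]

lemma hit_zero (x y : V d L) : hit 0 x y = if x = y then 1 else 0 := by
  rw [hit_def, sg_zero]

lemma hit_shift (t : ℝ) (x y v : V d L) : hit t x y = hit t (x - v) (y - v) := by
  have h := sg_map (r := rr d) (φ := wst y) (ψ := wst (y - v)) (fun z : V d L => z - v)
    (Inv := fun _ => True) (fun _ _ _ => trivial)
    (fun e z _ => by
      unfold wst
      by_cases hz : z = y
      · simp [hz]
      · have : z - v ≠ y - v := fun h => hz (sub_left_injective h)
        rw [if_neg hz, if_neg this]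
        abel) t (ind (y - v)) (s := x) trivial
  rw [hit_def, hit_def, ← h]
  congr 1
  funext z
  unfold ind
  by_cases hz : z = y
  · simp [hz]
  · have : z - v ≠ y - v := fun h => hz (sub_left_injective h)
    rw [if_neg hz, if_neg this]

lemma hit_trans (t : ℝ) (x y : V d L) : hit t x y = hit t 0 (y - x) := by
  rw [hit_shift t x y x, sub_self]

lemma hit_neg (t : ℝ) (x y : V d L) : hit t x y = hit t (-x) (-y) := by
  have h := sg_map (r := rr d) (φ := wst y) (ψ := fun e z => wst (-y) (opp e) z)
    (fun z : V d L => -z)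
    (Inv := fun _ => True) (fun _ _ _ => trivial)
    (fun e z _ => by
      unfold wst
      by_cases hz : z = y
      · simp [hz]
      · have : -z ≠ -y := fun h => hz (neg_injective h)
        rw [if_neg hz, if_neg this, dv_opp]
        abel) t (ind (-y)) (s := x) trivial
  have h2 := sg_reindex (r := rr d) (r' := rr d) (φ := fun e z => wst (-y) (opp e) z)
    (φ' := wst (-y)) (oppE (d := d)) (fun e => rfl) (fun e => rfl) t (ind (-y)) (-x)
  rw [hit_def, hit_def, ← h2, ← h]
  congr 1
  funext z
  unfold ind
  by_cases hz : z = y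
  · simp [hz]
  · have : -z ≠ -y := fun h => hz (neg_injective h)
    rw [if_neg hz, if_neg this]

lemma hit_symm (t : ℝ) (x y : V d L) : hit t x y = hit t y x := by
  rw [hit_neg t x y, hit_trans t (-x) (-y), hit_trans t y x]
  congr 1
  abel

lemma hit_mono {s t : ℝ} (hs : 0 ≤ s) (hst : s ≤ t) (x y : V d L) : hit s x y ≤ hit t x y := by
  have h1 : hit t x y = sg (rr d) (wst y) s (fun z => hit (t - s) z y) x := by
    rw [hit_def, show t = s + (t - s) by ring, sg_sg (grF_of_finite rr0 _)]
    simp only [add_sub_cancel_left]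
    rfl
  rw [h1, hit_def]
  refine sg_mono' rr0 (grF_of_finite rr0 _) (grF_of_finite rr0 _) (fun z => ?_) hs x
  unfold ind
  split_ifs with h
  · rw [h, hit_self]
  · exact hit_nonneg (by linarith) z y

lemma hasDerivAt_hit (hd : 1 ≤ d) (t : ℝ) (x y : V d L) :
    HasDerivAt (fun t => hit t x y)
      (if x = y then 0 else Pk (fun z => hit t z y) x - hit t x y) t := by
  have h := hasDerivAt_sg (r := rr d) (φ := wst y) (grF_of_finite rr0 (ind y)) x t
  rw [← gen_sg (grF_of_finite rr0 _), gen_stopped hd] at h
  exact h

lemma part5 (hd : 1 ≤ d) {t : ℝ} (ht : 0 ≤ t) (x y : V d L) :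
    ∑ e : Dir d, ra d * hit t (x + dv e) y ≤ 2 * hit (t + 1) x y := by
  by_cases hxy : x = y
  · subst hxy
    rw [hit_self]
    have h1 : ∑ e : Dir d, ra d * hit t (x + dv e) x ≤ ∑ _e : Dir d, ra d * 1 :=
      Finset.sum_le_sum fun e _ => mul_le_mul_of_nonneg_left (hit_le_one ht _ _) (ra_nonneg d)
    simp only [mul_one] at h1
    rw [sum_ra hd] at h1
    linarith
  · set a : ℝ := ∑ e : Dir d, ra d * hit t (x + dv e) y with ha
    have ha0 : 0 ≤ a := Finset.sum_nonneg fun e _ => mul_nonneg (ra_nonneg d) (hit_nonneg ht _ _)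
    set g : ℝ → ℝ := fun s => Real.exp s * (hit (t + s) x y - a) with hg
    have hder : ∀ s : ℝ, HasDerivAt g (Real.exp s * (hit (t + s) x y - a) +
        Real.exp s * (Pk (fun z => hit (t + s) z y) x - hit (t + s) x y)) s := by
      intro s
      have h1 := hasDerivAt_hit hd (t + s) x y
      rw [if_neg hxy] at h1
      have h2 : HasDerivAt (fun s : ℝ => t + s) 1 s := by
        simpa using (hasDerivAt_id s).const_add t
      have h3 := h1.comp s h2
      have h4 := (h3.sub_const a)
      have h5 := (Real.hasDerivAt_exp s).mul h4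
      refine h5.congr_deriv ?_
      simp
    have hmono : MonotoneOn g (Set.Icc 0 1) := by
      refine monotoneOn_of_deriv_nonneg (convex_Icc 0 1)
        (fun s _ => (hder s).continuousAt.continuousWithinAt)
        (fun s _ => (hder s).differentiableAt.differentiableWithinAt) ?_
      intro s hs
      have hs' := interior_subset hs
      rw [(hder s).deriv]
      have h1 : a ≤ Pk (fun z => hit (t + s) z y) x := by
        unfold Pk
        exact Finset.sum_le_sum fun e _ => mul_le_mul_of_nonneg_left
          (hit_mono ht (by have := hs'.1; linarith) _ _) (ra_nonneg d)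
      have h2 : Real.exp s * (hit (t + s) x y - a) +
        Real.exp s * (Pk (fun z => hit (t + s) z y) x - hit (t + s) x y) =
          Real.exp s * (Pk (fun z => hit (t + s) z y) x - a) := by ring
      rw [h2]
      exact mul_nonneg (Real.exp_pos s).le (by linarith)
    have h1 := hmono (Set.left_mem_Icc.2 zero_le_one) (Set.right_mem_Icc.2 zero_le_one) zero_le_one
    simp only [hg, Real.exp_zero, add_zero, one_mul] at h1
    have h2 := hit_nonneg ht x y
    have h3 : 2 ≤ Real.exp 1 := by
      have := Real.add_one_le_exp (1 : ℝ)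
      linarith
    have h4 : 0 ≤ hit (t + 1) x y := hit_nonneg (by linarith) x y
    -- `e (H - a) ≥ - a`
    have h5 : -a ≤ Real.exp 1 * (hit (t + 1) x y - a) := by linarith
    by_contra hc
    have hc' : 2 * hit (t + 1) x y < a := not_le.1 hc
    have h6 : hit (t + 1) x y - a < -(a / 2) := by linarith
    have h7 : Real.exp 1 * (hit (t + 1) x y - a) ≤ 2 * (hit (t + 1) x y - a) := by
      have : hit (t + 1) x y - a ≤ 0 := by linarith
      nlinarith
    linarith

lemma part6 (hd : 1 ≤ d) {t : ℝ} (ht : 0 ≤ t) (x : V d L) : ∑ y, hit t x y ≤ 1 + t := by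
  set R : ℝ → V d L → ℝ := fun s v => ∑ y, hit s v y with hR
  have hRc : ∀ s v, R s v = R s 0 := by
    intro s v
    simp only [hR]
    rw [← Equiv.sum_comp (Equiv.subRight v : V d L ≃ V d L) (fun y => hit s 0 y)]
    exact Finset.sum_congr rfl fun y _ => hit_trans s v y
  set g : ℝ → ℝ := fun s => R s x - s with hg
  have hder : ∀ s : ℝ, HasDerivAt g
      ((∑ y, if x = y then 0 else Pk (fun z => hit s z y) x - hit s x y) - 1) s := by
    intro s
    exact (HasDerivAt.fun_sum fun y _ => hasDerivAt_hit hd s x y).sub (hasDerivAt_id s)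
  have hanti : AntitoneOn g (Set.Icc 0 t) := by
    refine antitoneOn_of_deriv_nonpos (convex_Icc 0 t)
      (fun s _ => (hder s).continuousAt.continuousWithinAt)
      (fun s _ => (hder s).differentiableAt.differentiableWithinAt) ?_
    intro s hs
    have hs' := interior_subset hs
    rw [(hder s).deriv]
    have h1 : (∑ y, if x = y then 0 else Pk (fun z => hit s z y) x - hit s x y) =
        (∑ y, (Pk (fun z => hit s z y) x - hit s x y)) -
          (Pk (fun z => hit s z x) x - hit s x x) := by
      rw [← Finset.add_sum_erase Finset.univ (fun y => Pk (fun z => hit s z y) x - hit s x y)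
        (Finset.mem_univ x), ← Finset.add_sum_erase Finset.univ
        (fun y => if x = y then 0 else Pk (fun z => hit s z y) x - hit s x y)
        (Finset.mem_univ x)]
      simp only [if_true]
      have : ∀ y ∈ Finset.univ.erase x, (if x = y then 0 else
          Pk (fun z => hit s z y) x - hit s x y) = Pk (fun z => hit s z y) x - hit s x y := by
        intro y hy
        rw [if_neg (fun h => (Finset.mem_erase.1 hy).1 h.symm)]
      rw [Finset.sum_congr rfl this]
      ring
    have h2 : (∑ y, (Pk (fun z => hit s z y) x - hit s x y)) = 0 := by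
      rw [Finset.sum_sub_distrib]
      have h3 : ∑ y, Pk (fun z => hit s z y) x = R s 0 := by
        unfold Pk
        rw [Finset.sum_comm]
        have : ∀ e : Dir d, ∑ y, ra d * hit s (x + dv e) y = ra d * R s 0 := by
          intro e
          rw [← Finset.mul_sum]
          congr 1
          exact hRc s (x + dv e)
        rw [Finset.sum_congr rfl fun e _ => this e, ← Finset.sum_mul, sum_ra hd, one_mul]
      rw [h3]
      have h4 : ∑ y, hit s x y = R s 0 := hRc s x
      rw [h4]; ring
    have h5 : 0 ≤ Pk (fun z => hit s z x) x := Pk_nonneg (fun z => hit_nonneg hs'.1 _ _) x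
    rw [h1, h2, hit_self]
    linarith
  have h1 := hanti (Set.left_mem_Icc.2 ht) (Set.right_mem_Icc.2 ht) ht
  have h0 : R 0 x = 1 := by
    simp only [hR, hit_zero]
    simp
  simp only [hg, h0] at h1
  have : R t x ≤ 1 + t := by linarith
  exact this

lemma exp_le_return (hd : 1 ≤ d) {t : ℝ} (ht : 0 ≤ t) (x : V d L) :
    Real.exp (-t) ≤ sg (rr d) (wfr (L := L)) t (ind x) x := by
  have h := le_sg_of_sub (r := rr d) (φ := wfr (L := L)) (Inv := fun _ => True) rr0
    (fun _ _ _ => trivial) (f := ind x) (W := fun s v => Real.exp (-s) * ind x v)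
    (W' := fun s v => -Real.exp (-s) * ind x v) (T := t) ht
    (fun s _ v _ => by
      have h1 : HasDerivAt (fun s : ℝ => Real.exp (-s)) (-Real.exp (-s)) s := by
        have := (hasDerivAt_id s).neg.exp
        simpa using this
      exact h1.mul_const _)
    (fun s _ v _ => by
      rw [gen_walk hd]
      have h1 : 0 ≤ Pk (fun v : V d L => Real.exp (-s) * ind x v) v :=
        Pk_nonneg (fun z => mul_nonneg (Real.exp_pos _).le (ind_nonneg _ _)) v
      linarith)
    (fun v _ => by simp) (s := x) trivial
  simpa [ind] using h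

lemma part7 (hd : 1 ≤ d) {t : ℝ} (ht : 0 ≤ t) (x : V d L) :
    hit t 0 x ≤ 2 * ∫ s in (0 : ℝ)..t + 1, hk s x := by
  set p : ℝ → V d L → ℝ := fun s v => sg (rr d) wfr s (ind x) v with hp
  have hG : GrF (rr d) (wfr (L := L)) (ind x) := grF_of_finite rr0 _
  have hpc : ∀ v, Continuous fun s => p s v := fun v => continuous_sg hG v
  have hp0 : ∀ s, 0 ≤ s → ∀ v, 0 ≤ p s v := fun s hs v =>
    sg_nonneg (r := rr d) (φ := wfr (L := L)) (Inv := fun _ => True) rr0
      (fun _ _ _ => trivial) hG (fun z _ => ind_nonneg x z) hs trivial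
  have hpd : ∀ s v, HasDerivAt (fun s => p s v) (Pk (p s) v - p s v) s := by
    intro s v
    have h := hasDerivAt_sg hG v s
    rw [← gen_sg hG, gen_walk hd] at h
    exact h
  have hPc : ∀ v, Continuous fun s => Pk (p s) v := by
    intro v
    unfold Pk
    exact continuous_finsetSum _ fun e _ => continuous_const.mul (hpc _)
  have hint : ∀ (v : V d L) (a b : ℝ), IntervalIntegrable (fun s => p s v) volume a b :=
    fun v a b => (hpc v).intervalIntegrable _ _
  -- the supersolution
  set W : ℝ → V d L → ℝ := fun u v => 2 * ∫ s in (0 : ℝ)..u + 1, p s v with hW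
  have hWd : ∀ u v, HasDerivAt (fun u => W u v) (2 * p (u + 1) v) u := by
    intro u v
    have h1 : HasDerivAt (fun b => ∫ s in (0 : ℝ)..b, p s v) (p (u + 1) v) (u + 1) :=
      intervalIntegral.integral_hasDerivAt_right (hint v _ _)
        ((hpc v).stronglyMeasurableAtFilter _ _) (hpc v).continuousAt
    have h2 : HasDerivAt (fun u : ℝ => u + 1) 1 u := by
      simpa using (hasDerivAt_id u).add_const 1
    have h3 := (h1.comp u h2).const_mul 2
    refine h3.congr_deriv ?_
    ring
  have hPkW : ∀ u v, Pk (W u) v - W u v = 2 * (p (u + 1) v - p 0 v) := by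
    intro u v
    have h1 : Pk (W u) v = 2 * ∫ s in (0 : ℝ)..u + 1, Pk (p s) v := by
      unfold Pk
      rw [intervalIntegral.integral_finsetSum
        (fun e _ => (hint (v + dv e) 0 (u + 1)).const_mul (ra d)), Finset.mul_sum]
      refine Finset.sum_congr rfl fun e _ => ?_
      rw [intervalIntegral.integral_const_mul]
      simp only [hW]
      ring
    have h2 : ∫ s in (0 : ℝ)..u + 1, (Pk (p s) v - p s v) = p (u + 1) v - p 0 v :=
      intervalIntegral.integral_eq_sub_of_hasDerivAt (fun s _ => hpd s v)
        (((hPc v).sub (hpc v)).intervalIntegrable _ _)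
    rw [intervalIntegral.integral_sub ((hPc v).intervalIntegrable _ _) (hint v _ _)] at h2
    rw [h1, ← h2]
    simp only [hW]
    ring
  have key := sg_le_of_super (r := rr d) (φ := wst x) (Inv := fun _ => True) rr0
    (fun _ _ _ => trivial) (f := ind x) (W := W) (W' := fun u v => 2 * p (u + 1) v) (T := t) ht
    (fun u _ v _ => hWd u v)
    (fun u hu v _ => by
      rw [gen_stopped hd]
      have hpos : 0 ≤ p (u + 1) v := hp0 _ (by have := hu.1; linarith) v
      split_ifs with h
      · linarith
      · rw [hPkW]
        have : p 0 v = 0 := by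
          simp only [hp, sg_zero, ind, if_neg h]
        rw [this]; linarith)
    (fun v _ => by
      unfold ind
      split_ifs with h
      · subst h
        simp only [hW, zero_add]
        have h1 : ∫ s in (0 : ℝ)..1, Real.exp (-s) ≤ ∫ s in (0 : ℝ)..1, p s v := by
          refine intervalIntegral.integral_mono_on zero_le_one
            ((Real.continuous_exp.comp continuous_neg).intervalIntegrable _ _) (hint v _ _) ?_
          intro s hs
          exact exp_le_return hd hs.1 v
        have h2 : ∫ s in (0 : ℝ)..1, Real.exp (-s) = 1 - Real.exp (-1) := by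
          have h3 : ∫ s in (0 : ℝ)..1, Real.exp (-s) = -Real.exp (-1) - -Real.exp (-0) :=
            intervalIntegral.integral_eq_sub_of_hasDerivAt
              (f := fun s => -Real.exp (-s)) (fun s _ => by
                have h5 : HasDerivAt (fun s : ℝ => -Real.exp (-s)) (-(Real.exp (-s) * -1)) s :=
                  ((hasDerivAt_id s).neg.exp).neg
                exact h5.congr_deriv (by ring))
              ((Real.continuous_exp.comp continuous_neg).intervalIntegrable _ _)
          rw [h3]; simp; ring
        have h3 : Real.exp (-1) ≤ 1 / 2 := by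
          rw [Real.exp_neg]
          have h4 : (2 : ℝ) ≤ Real.exp 1 := by
            have := Real.add_one_le_exp (1 : ℝ)
            linarith
          rw [one_div]
          exact inv_anti₀ (by norm_num) h4
        linarith
      · simp only [hW, zero_add]
        have := intervalIntegral.integral_nonneg (μ := volume) (a := 0) (b := 1)
          (f := fun s => p s v) zero_le_one (fun s hs => hp0 s hs.1 v)
        linarith)
    (s := 0) trivial
  exact key

end HIT_

theorem t_HIT : T_HIT := by
  intro d L hd
  exact ⟨fun t x y ht => ⟨HIT_.hit_nonneg ht x y, HIT_.hit_le_one ht x y⟩,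
    fun t x y _ => HIT_.hit_trans t x y,
    fun t x y _ => HIT_.hit_symm t x y,
    fun s t x y hs hst => HIT_.hit_mono hs hst x y,
    fun t x y ht => HIT_.part5 hd ht x y,
    fun t x ht => HIT_.part6 hd ht x,
    fun t x ht => HIT_.part7 hd ht x⟩

end Pool.Agent.CAS
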