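import Pool.Agent.CAS.Basic

/-!
# Particles which are not present are irrelevant
-/

open Finset Filter Topology
open scoped BigOperators

namespace Pool.Agent.CAS

namespace IRR_

lemma choose_congr {ι : Type} {P Q : ι → Prop} (h : P = Q) (h1 : ∃ w, P w) (h2 : ∃ w, Q w) :
    h1.choose = h2.choose := by subst h; rfl

variable {ι G E : Type} [AddCommGroup G]

/-- the invariant of the coupling -/
def Inv (J : ι → Prop) (s : LS ι G × LS ι G) : Prop :=
  s.1.ld = s.2.ld ∧ (∀ v a, s.1.ld v = some a → J v ∧ J a) ∧ ∀ z, J z → s.1.pos z = s.2.pos z

open Classical in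
lemma inv_ring {typ typ' : ι → Bool} {brv brv' : ι → ℝ} {J : ι → Prop} {step : E → G}
    (hT : ∀ z, J z → typ z = typ' z) (hB : ∀ z, J z → brv z = brv' z) (a : ι × E)
    (s : LS ι G × LS ι G) (hs : Inv J s) :
    Inv J (ring typ brv step a s.1, ring typ' brv' step a s.2) := by
  obtain ⟨⟨p1, l⟩, ⟨p2, l2⟩⟩ := s
  obtain ⟨z, e⟩ := a
  obtain ⟨h1, h2, h3⟩ := hs
  simp only at h1 h2 h3
  subst h1
  -- the updated positions agree on `J`
  have hpos : J z → ∀ v, J v → Function.update p1 z (p1 z + step e) v =
      Function.update p2 z (p2 z + step e) v := by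
    intro hz v hv
    by_cases hvz : v = z
    · subst hvz; simp [h3 v hv]
    · simp [Function.update_of_ne hvz, h3 v hv]
  by_cases hJ : J z
  · by_cases ht : typ z = false
    · have ht' : typ' z = false := by rw [← hT z hJ]; exact ht
      unfold ring
      simp only [ht, ht', if_true]
      exact ⟨rfl, h2, h3⟩
    · have ht' : ¬ typ' z = false := by rw [← hT z hJ]; exact ht
      by_cases hl : l z ≠ some z
      · unfold ring
        simp only [if_neg ht, if_neg ht', if_pos hl]
        exact ⟨rfl, h2, hpos hJ⟩
      · -- the predicates agree
        have hP : (fun w => typ w = false ∧ l w = some w ∧ p1 w = p1 z + step e) =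
            fun w => typ' w = false ∧ l w = some w ∧ p2 w = p2 z + step e := by
          funext w
          apply propext
          constructor
          · rintro ⟨a1, a2, a3⟩
            have hw := (h2 w w a2).1
            exact ⟨by rw [← hT w hw]; exact a1, a2, by rw [← h3 w hw, ← h3 z hJ]; exact a3⟩
          · rintro ⟨a1, a2, a3⟩
            have hw := (h2 w w a2).1
            exact ⟨by rw [hT w hw]; exact a1, a2, by rw [h3 w hw, h3 z hJ]; exact a3⟩
        have hQ : (fun w => w ≠ z ∧ l w = some w ∧ p1 w = p1 z + step e) =
            fun w => w ≠ z ∧ l w = some w ∧ p2 w = p2 z + step e := by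
          funext w
          apply propext
          constructor
          · rintro ⟨a1, a2, a3⟩
            have hw := (h2 w w a2).1
            exact ⟨a1, a2, by rw [← h3 w hw, ← h3 z hJ]; exact a3⟩
          · rintro ⟨a1, a2, a3⟩
            have hw := (h2 w w a2).1
            exact ⟨a1, a2, by rw [h3 w hw, h3 z hJ]; exact a3⟩
        have hP' : ∀ w, (typ w = false ∧ l w = some w ∧ p1 w = p1 z + step e) ↔
            (typ' w = false ∧ l w = some w ∧ p2 w = p2 z + step e) := fun w =>
          (congrFun hP w).to_iff
        by_cases hA : ∃ w, typ w = false ∧ l w = some w ∧ p1 w = p1 z + step e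
        · have hA' : ∃ w, typ' w = false ∧ l w = some w ∧ p2 w = p2 z + step e := by
            obtain ⟨w, hw⟩ := hA
            exact ⟨w, (hP' w).1 hw⟩
          unfold ring
          simp only [if_neg ht, if_neg ht', if_neg hl, if_pos hA, if_pos hA']
          refine ⟨?_, ?_, hpos hJ⟩
          · funext v
            simp only [hP' v]
          · intro v a hva
            simp only at hva
            split_ifs at hva with h5
            exact h2 v a hva
        · have hA' : ¬ ∃ w, typ' w = false ∧ l w = some w ∧ p2 w = p2 z + step e := by
            rintro ⟨w, hw⟩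
            exact hA ⟨w, (hP' w).2 hw⟩
          by_cases hC : ∃ w, w ≠ z ∧ l w = some w ∧ p1 w = p1 z + step e
          · have hC' : ∃ w, w ≠ z ∧ l w = some w ∧ p2 w = p2 z + step e := by
              obtain ⟨w, hw⟩ := hC
              exact ⟨w, (congrFun hQ w).to_iff.1 hw⟩
            have hch : hC.choose = hC'.choose := choose_congr hQ hC hC'
            have hcs := hC.choose_spec
            have hcJ : J hC.choose := (h2 _ _ hcs.2.1).1
            unfold ring
            simp only [if_neg ht, if_neg ht', if_neg hl, if_neg hA, if_neg hA', dif_pos hC,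
              dif_pos hC']
            refine ⟨?_, ?_, hpos hJ⟩
            · funext v
              simp only [← hch]
              rw [hB _ hcJ, hB z hJ]
            · intro v a hva
              simp only at hva
              split_ifs at hva with h5 h6
              · rw [Option.some.injEq] at hva
                subst hva
                rcases h5 with h5 | h5
                · exact h2 v _ h5
                · exact ⟨(h2 v _ h5).1, hJ⟩
              · rw [Option.some.injEq] at hva
                subst hva
                rcases h5 with h5 | h5
                · exact ⟨(h2 v _ h5).1, hcJ⟩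
                · exact h2 v _ h5
              · exact h2 v a hva
          · have hC' : ¬ ∃ w, w ≠ z ∧ l w = some w ∧ p2 w = p2 z + step e := by
              rintro ⟨w, hw⟩
              exact hC ⟨w, (congrFun hQ w).to_iff.2 hw⟩
            unfold ring
            simp only [if_neg ht, if_neg ht', if_neg hl, if_neg hA, if_neg hA', dif_neg hC,
              dif_neg hC']
            exact ⟨rfl, h2, hpos hJ⟩
  · -- `z` is not present: only its position may change
    have hl : l z ≠ some z := fun h => hJ (h2 z z h).1
    have hne : ∀ v, J v → v ≠ z := fun v hv h => hJ (h ▸ hv)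
    have key : ∀ (ty : ι → Bool) (br : ι → ℝ) (p : ι → G),
        (ring ty br step (z, e) ⟨p, l⟩).ld = l ∧
        ∀ v, J v → (ring ty br step (z, e) ⟨p, l⟩).pos v = p v := by
      intro ty br p
      unfold ring
      by_cases ht : ty z = false
      · rw [if_pos ht]
        exact ⟨rfl, fun _ _ => rfl⟩
      · simp only [if_neg ht, if_pos hl]
        exact ⟨trivial, fun v hv => Function.update_of_ne (hne v hv) _ _⟩
    refine ⟨?_, ?_, ?_⟩
    · simp only [(key _ _ _).1]
    · intro v a hva
      simp only [(key _ _ _).1] at hva
      exact h2 v a hva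
    · intro v hv
      simp only
      rw [(key _ _ _).2 v hv, (key _ _ _).2 v hv]
      exact h3 v hv

end IRR_

open IRR_ in
theorem t_IRR : T_IRR := by
  intro d ι G _ _ step start typ typ' brv brv' J o t hT hB
  classical
  set f : LS ι G → ℝ := fun s => if s.ld o ≠ none then 1 else 0 with hf
  set Φ : ι × Dir d → LS ι G × LS ι G → LS ι G × LS ι G :=
    fun a s => (ring typ brv step a s.1, ring typ' brv' step a s.2) with hΦ
  have e1 := sg_map (r := fun _ : ι × Dir d => ra d) (φ := Φ) (ψ := ring typ brv step) Prod.fst
    (Inv := fun _ => True) (fun _ _ _ => trivial) (fun a s _ => rfl) t f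
    (s := (LS.init start J, LS.init start J)) trivial
  have e2 := sg_map (r := fun _ : ι × Dir d => ra d) (φ := Φ) (ψ := ring typ' brv' step) Prod.snd
    (Inv := fun _ => True) (fun _ _ _ => trivial) (fun a s _ => rfl) t f
    (s := (LS.init start J, LS.init start J)) trivial
  have e3 : sg (fun _ : ι × Dir d => ra d) Φ t (fun s => f s.1) (LS.init start J, LS.init start J) =
      sg (fun _ : ι × Dir d => ra d) Φ t (fun s => f s.2)
        (LS.init start J, LS.init start J) := by
    refine sg_congr (fun _ => ra_nonneg d) (Inv := Inv J)
      (fun a s hs => inv_ring hT hB a s hs) (fun s hs => ?_) t ?_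
    · simp only [hf, hs.1]
    · refine ⟨rfl, fun v a hva => ?_, fun _ _ => rfl⟩
      unfold LS.init at hva
      simp only at hva
      split_ifs at hva with h
      rw [Option.some.injEq] at hva
      subst hva
      exact ⟨h, h⟩
  rw [e1, e2] at e3
  exact e3

end Pool.Agent.CAS
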