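import Pool.Agent.CAS.Basic

/-!
# KER: the truncated Green function kernel
-/

open Finset Filter Topology MeasureTheory
open scoped BigOperators

namespace Pool.Agent.CAS

namespace KER

/-- the properties of the one-dimensional return probability which are used -/
structure QB (d : ℕ) (H : ℝ) (q : ℝ → ℝ) : Prop where
  nn : ∀ σ, 0 ≤ σ → 0 ≤ q σ
  le1 : ∀ σ, 0 ≤ σ → q σ ≤ 1
  quad : ∀ σ, 0 ≤ σ → q σ ≤ 1 - σ + 3 / 4 * σ ^ 2
  anti : ∀ s t, 0 ≤ s → s ≤ t → q t ≤ q s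
  far : ∀ σ, 0 < σ → σ ≤ H / d → q σ ≤ 69 / 100 * (1 / √σ)

lemma pw_dec (d : ℕ) (hd : 100 ≤ d) : (d : ℝ) * (363 / 400 : ℝ) ^ d ≤ 63 / 10000 := by
  induction d, hd using Nat.le_induction with
  | base => norm_num
  | succ n hn ih =>
    have h1 : ((n + 1 : ℕ) : ℝ) * (363 / 400) ^ (n + 1) ≤ n * (363 / 400) ^ n := by
      rw [pow_succ]
      have hn' : (100 : ℝ) ≤ n := by exact_mod_cast hn
      have hp : (0 : ℝ) < (363 / 400) ^ n := by positivity
      push_cast
      nlinarith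
    linarith

lemma pw_dec' (d : ℕ) (hd : 100 ≤ d) : (d : ℝ) * (363 / 400 : ℝ) ^ (d - 1) ≤ 70 / 10000 := by
  have h := pw_dec d hd
  have e : (363 / 400 : ℝ) ^ d = (363 / 400) ^ (d - 1) * (363 / 400) := by
    rw [← pow_succ]; congr 1; omega
  rw [e] at h
  linarith

lemma near_bound {d : ℕ} {H : ℝ} {q : ℝ → ℝ} (h : QB d H q) {σ : ℝ} (h0 : 0 ≤ σ)
    (h1 : σ ≤ 1 / 10) : q σ ≤ Real.exp (-(37 / 40) * σ) := by
  have h2 := h.quad σ h0
  have h3 := Real.add_one_le_exp (-(37 / 40) * σ)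
  nlinarith

lemma mid_bound {d : ℕ} {H : ℝ} {q : ℝ → ℝ} (h : QB d H q) {σ : ℝ} (h1 : 1 / 10 ≤ σ) :
    q σ ≤ 363 / 400 := by
  have h2 := h.quad (1 / 10) (by norm_num)
  have h3 := h.anti (1 / 10) σ (by norm_num) h1
  norm_num at h2 ⊢
  linarith

lemma inv_sqrt_pow {σ : ℝ} (h1 : 1 ≤ σ) (n k : ℕ) (h : 2 * k ≤ n) :
    (1 / √σ) ^ n ≤ (1 / σ) ^ k := by
  have h0 : 0 < σ := by linarith
  have hs : 1 ≤ √σ := by rw [Real.one_le_sqrt]; exact h1
  have h2 : 1 / √σ ≤ 1 := by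
    rw [div_le_one (by linarith)]; exact hs
  have h3 : 0 ≤ 1 / √σ := by positivity
  calc (1 / √σ) ^ n ≤ (1 / √σ) ^ (2 * k) := pow_le_pow_of_le_one h3 h2 h
    _ = ((1 / √σ) ^ 2) ^ k := by rw [pow_mul]
    _ = (1 / σ) ^ k := by rw [div_pow, one_pow, Real.sq_sqrt h0.le]

lemma inv_sq_le {σ : ℝ} (h1 : 1 ≤ σ) : (1 / σ) ^ 2 ≤ 4 / (1 + σ) ^ 2 := by
  have h0 : 0 < σ := by linarith
  rw [div_pow, one_pow, div_le_div_iff₀ (by positivity) (by positivity)]
  nlinarith

lemma P1 {d : ℕ} {H : ℝ} {q : ℝ → ℝ} (hd : 100 ≤ d) (h : QB d H q) {s : ℝ} (h0 : 0 ≤ s)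
    (h1 : s ≤ H) : q (s / d) ^ d ≤ Real.exp (-(37 / 40) * s) +
      (363 / 400) ^ d * (4 / (1 + s / d) ^ 2) := by
  have hd' : (100 : ℝ) ≤ d := by exact_mod_cast hd
  have hd0 : (0 : ℝ) < d := by linarith
  have hσ0 : 0 ≤ s / d := by positivity
  have hq0 := h.nn (s / d) hσ0
  have hE : 0 ≤ Real.exp (-(37 / 40) * s) := (Real.exp_pos _).le
  have hK : 0 ≤ (363 / 400 : ℝ) ^ d * (4 / (1 + s / d) ^ 2) := by positivity
  rcases le_total (s / d) (1 / 10) with h2 | h2
  · have h3 := near_bound h hσ0 h2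
    have h4 : q (s / d) ^ d ≤ Real.exp (-(37 / 40) * (s / d)) ^ d := pow_le_pow_left₀ hq0 h3 d
    rw [← Real.exp_nat_mul] at h4
    have e : (d : ℝ) * (-(37 / 40) * (s / d)) = -(37 / 40) * s := by field_simp
    rw [e] at h4
    linarith
  rcases le_total (s / d) 1 with h5 | h5
  · have h3 := mid_bound h h2
    have h4 : q (s / d) ^ d ≤ (363 / 400) ^ d := pow_le_pow_left₀ hq0 h3 d
    have h6 : 1 ≤ 4 / (1 + s / d) ^ 2 := by
      rw [le_div_iff₀ (by positivity)]; nlinarith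
    have h7 : (363 / 400 : ℝ) ^ d * 1 ≤ (363 / 400) ^ d * (4 / (1 + s / d) ^ 2) :=
      mul_le_mul_of_nonneg_left h6 (by positivity)
    linarith
  · have h3 := h.far (s / d) (by linarith) (by gcongr)
    have h4 : q (s / d) ^ d ≤ (69 / 100 * (1 / √(s / d))) ^ d := pow_le_pow_left₀ hq0 h3 d
    rw [mul_pow] at h4
    have h6 := (inv_sqrt_pow h5 d 2 (by omega)).trans (inv_sq_le h5)
    have h7 : (69 / 100 : ℝ) ^ d * (1 / √(s / d)) ^ d ≤
        (363 / 400) ^ d * (4 / (1 + s / d) ^ 2) := by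
      apply mul_le_mul _ h6 (by positivity) (by positivity)
      exact pow_le_pow_left₀ (by norm_num) (by norm_num) d
    linarith

lemma P2 {d : ℕ} {H : ℝ} {q : ℝ → ℝ} (hd : 100 ≤ d) (h : QB d H q) {s : ℝ} (h0 : 0 ≤ s)
    (h1 : s ≤ H) : s / d * q (s / d) ^ (d - 1) ≤ s / d * Real.exp (-(9 / 10) * s) +
      (363 / 400) ^ (d - 1) * (4 / (1 + s / d) ^ 2) := by
  have hd' : (100 : ℝ) ≤ d := by exact_mod_cast hd
  have hd0 : (0 : ℝ) < d := by linarith
  have hσ0 : 0 ≤ s / d := by positivity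
  have hq0 := h.nn (s / d) hσ0
  have hE : 0 ≤ s / d * Real.exp (-(9 / 10) * s) := by positivity
  have hK : 0 ≤ (363 / 400 : ℝ) ^ (d - 1) * (4 / (1 + s / d) ^ 2) := by positivity
  rcases le_total (s / d) (1 / 10) with h2 | h2
  · have h3 := near_bound h hσ0 h2
    have h4 : q (s / d) ^ (d - 1) ≤ Real.exp (-(37 / 40) * (s / d)) ^ (d - 1) :=
      pow_le_pow_left₀ hq0 h3 _
    rw [← Real.exp_nat_mul] at h4
    have e : ((d - 1 : ℕ) : ℝ) * (-(37 / 40) * (s / d)) ≤ -(9 / 10) * s := by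
      rw [Nat.cast_sub (by omega), Nat.cast_one]
      have e2 : ((d : ℝ) - 1) * (-(37 / 40) * (s / d)) = -(37 / 40) * s + 37 / 40 * (s / d) := by
        field_simp; ring
      rw [e2]
      have e3 : s / d ≤ s / 100 := by gcongr
      linarith
    have h5 : q (s / d) ^ (d - 1) ≤ Real.exp (-(9 / 10) * s) :=
      h4.trans (Real.exp_le_exp.2 e)
    have h6 := mul_le_mul_of_nonneg_left h5 hσ0
    linarith
  rcases le_total (s / d) 1 with h5 | h5
  · have h3 := mid_bound h h2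
    have h4 : q (s / d) ^ (d - 1) ≤ (363 / 400) ^ (d - 1) := pow_le_pow_left₀ hq0 h3 _
    have h6 : 1 ≤ 4 / (1 + s / d) ^ 2 := by
      rw [le_div_iff₀ (by positivity)]; nlinarith
    have h7 : (363 / 400 : ℝ) ^ (d - 1) * 1 ≤ (363 / 400) ^ (d - 1) * (4 / (1 + s / d) ^ 2) :=
      mul_le_mul_of_nonneg_left h6 (by positivity)
    have h8 : s / d * q (s / d) ^ (d - 1) ≤ 1 * q (s / d) ^ (d - 1) :=
      mul_le_mul_of_nonneg_right h5 (by positivity)
    linarith
  · have h3 := h.far (s / d) (by linarith) (by gcongr)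
    have h4 : q (s / d) ^ (d - 1) ≤ (69 / 100 * (1 / √(s / d))) ^ (d - 1) :=
      pow_le_pow_left₀ hq0 h3 _
    rw [mul_pow] at h4
    have h6 := inv_sqrt_pow h5 (d - 1) 3 (by omega)
    have h6' := inv_sq_le h5
    have h8 : (69 / 100 : ℝ) ^ (d - 1) ≤ (363 / 400) ^ (d - 1) :=
      pow_le_pow_left₀ (by norm_num) (by norm_num) _
    have hs1 : 0 < s / d := by linarith
    have h9 : s / d * (1 / (s / d)) ^ 3 = (1 / (s / d)) ^ 2 := by
      field_simp
    calc s / d * q (s / d) ^ (d - 1)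
        ≤ s / d * ((69 / 100 : ℝ) ^ (d - 1) * (1 / √(s / d)) ^ (d - 1)) :=
          mul_le_mul_of_nonneg_left h4 hσ0
      _ ≤ s / d * ((363 / 400 : ℝ) ^ (d - 1) * (1 / (s / d)) ^ 3) := by
          apply mul_le_mul_of_nonneg_left _ hσ0
          exact mul_le_mul h8 h6 (by positivity) (by positivity)
      _ = (363 / 400 : ℝ) ^ (d - 1) * (s / d * (1 / (s / d)) ^ 3) := by ring
      _ ≤ (363 / 400 : ℝ) ^ (d - 1) * (4 / (1 + s / d) ^ 2) := by
          rw [h9]
          exact mul_le_mul_of_nonneg_left h6' (by positivity)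
      _ ≤ _ := by linarith

lemma P3 {d : ℕ} {H : ℝ} {q : ℝ → ℝ} (hd : 100 ≤ d) (h : QB d H q) {s : ℝ} (h0 : 0 ≤ s)
    (h1 : s ≤ H) : (1 + s) ^ (1 / 10 : ℝ) * (q (s / d) ^ d) ^ (1 / 20 : ℝ) ≤
      (2 * d) ^ (5 / 2 : ℝ) * (1 / (1 + s) ^ 2) := by
  have hd' : (100 : ℝ) ≤ d := by exact_mod_cast hd
  have hd0 : (0 : ℝ) < d := by linarith
  have hσ0 : 0 ≤ s / d := by positivity
  have hq0 := h.nn (s / d) hσ0
  have hs1 : 0 < 1 + s := by linarith
  have key : (q (s / d) ^ d) ^ (1 / 20 : ℝ) ≤ (2 * d / (1 + s)) ^ (5 / 2 : ℝ) := by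
    rcases le_total s d with h2 | h2
    · have h3 : q (s / d) ^ d ≤ 1 := pow_le_one₀ hq0 (h.le1 _ hσ0)
      have h4 : (q (s / d) ^ d) ^ (1 / 20 : ℝ) ≤ 1 :=
        Real.rpow_le_one (by positivity) h3 (by norm_num)
      have h5 : 1 ≤ 2 * d / (1 + s) := by
        rw [le_div_iff₀ hs1]; linarith
      exact h4.trans (Real.one_le_rpow h5 (by norm_num))
    · have h5 : 1 ≤ s / d := by rw [le_div_iff₀ hd0]; linarith
      have hs0 : 0 < s := by linarith
      have h3 := h.far (s / d) (by linarith) (by gcongr)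
      have h4 : q (s / d) ≤ (d / s) ^ (1 / 2 : ℝ) := by
        have e : (1 / √(s / d) : ℝ) = (d / s) ^ (1 / 2 : ℝ) := by
          rw [← Real.sqrt_eq_rpow, one_div, ← Real.sqrt_inv, inv_div]
        rw [← e]
        have : 0 ≤ 1 / √(s / d) := by positivity
        linarith
      have h6 : (q (s / d) ^ d) ^ (1 / 20 : ℝ) ≤ (((d / s) ^ (1 / 2 : ℝ)) ^ d) ^ (1 / 20 : ℝ) :=
        Real.rpow_le_rpow (by positivity) (pow_le_pow_left₀ hq0 h4 d) (by norm_num)
      have h7 : ((((d : ℝ) / s) ^ (1 / 2 : ℝ)) ^ d) ^ (1 / 20 : ℝ) = ((d : ℝ) / s) ^ (d / 40 : ℝ) := by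
        rw [← Real.rpow_natCast, ← Real.rpow_mul (by positivity), ← Real.rpow_mul (by positivity)]
        congr 1
        ring
      rw [h7] at h6
      have h8 : ((d : ℝ) / s) ^ (d / 40 : ℝ) ≤ (d / s) ^ (5 / 2 : ℝ) := by
        apply Real.rpow_le_rpow_of_exponent_ge (by positivity)
        · rw [div_le_one hs0]; exact h2
        · linarith
      have h9 : ((d : ℝ) / s) ^ (5 / 2 : ℝ) ≤ (2 * d / (1 + s)) ^ (5 / 2 : ℝ) := by
        apply Real.rpow_le_rpow (by positivity) _ (by norm_num)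
        rw [div_le_div_iff₀ hs0 hs1]
        nlinarith
      linarith
  calc (1 + s) ^ (1 / 10 : ℝ) * (q (s / d) ^ d) ^ (1 / 20 : ℝ)
      ≤ (1 + s) ^ (1 / 2 : ℝ) * (2 * d / (1 + s)) ^ (5 / 2 : ℝ) := by
        apply mul_le_mul _ key (by positivity) (by positivity)
        exact Real.rpow_le_rpow_of_exponent_le (by linarith) (by norm_num)
    _ = (2 * d) ^ (5 / 2 : ℝ) * (1 / (1 + s) ^ 2) := by
        rw [Real.div_rpow (by positivity) hs1.le]
        have e : (1 + s) ^ (5 / 2 : ℝ) = (1 + s) ^ (1 / 2 : ℝ) * (1 + s) ^ 2 := by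
          rw [← Real.rpow_natCast, ← Real.rpow_add hs1]
          norm_num
        rw [e]
        have h1 : (1 + s) ^ (1 / 2 : ℝ) ≠ 0 := by positivity
        field_simp

lemma int_exp {H : ℝ} : ∫ s in (0 : ℝ)..H, Real.exp (-(37 / 40) * s) ≤ 40 / 37 := by
  have h : ∀ s ∈ Set.uIcc (0 : ℝ) H, HasDerivAt (fun s => -(40 / 37) * Real.exp (-(37 / 40) * s))
      (Real.exp (-(37 / 40) * s)) s := by
    intro s _
    have h1 : HasDerivAt (fun s : ℝ => -(37 / 40) * s) (-(37 / 40)) s := by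
      simpa using (hasDerivAt_id s).const_mul (-(37 / 40) : ℝ)
    have h2 := (h1.exp).const_mul (-(40 / 37) : ℝ)
    refine h2.congr_deriv ?_
    ring
  rw [intervalIntegral.integral_eq_sub_of_hasDerivAt h
    (Continuous.intervalIntegrable (by fun_prop) _ _)]
  have := Real.exp_pos (-(37 / 40) * H)
  simp only [mul_zero, Real.exp_zero]
  linarith

lemma int_sexp {d H : ℝ} (hd : 100 ≤ d) (hH : 0 ≤ H) :
    ∫ s in (0 : ℝ)..H, s / d * Real.exp (-(9 / 10) * s) ≤ 100 / 81 / d := by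
  have hd0 : 0 < d := by linarith
  have h : ∀ s ∈ Set.uIcc (0 : ℝ) H, HasDerivAt
      (fun s => -(1 / d) * ((10 / 9 * s + 100 / 81) * Real.exp (-(9 / 10) * s)))
      (s / d * Real.exp (-(9 / 10) * s)) s := by
    intro s _
    have h1 : HasDerivAt (fun s : ℝ => -(9 / 10) * s) (-(9 / 10)) s := by
      simpa using (hasDerivAt_id s).const_mul (-(9 / 10) : ℝ)
    have h3 : HasDerivAt (fun s : ℝ => 10 / 9 * s + 100 / 81) (10 / 9) s := by
      simpa using ((hasDerivAt_id s).const_mul (10 / 9 : ℝ)).add_const (100 / 81 : ℝ)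
    have h2 := (h3.mul h1.exp).const_mul (-(1 / d) : ℝ)
    refine h2.congr_deriv ?_
    field_simp
    ring
  rw [intervalIntegral.integral_eq_sub_of_hasDerivAt h
    (Continuous.intervalIntegrable (by fun_prop) _ _)]
  have h5 := Real.exp_pos (-(9 / 10) * H)
  simp only [mul_zero, Real.exp_zero]
  have h6 : 0 ≤ 1 / d * ((10 / 9 * H + 100 / 81) * Real.exp (-(9 / 10) * H)) := by positivity
  have e : (100 / 81 / d : ℝ) = 1 / d * ((0 + 100 / 81) * 1) := by ring
  rw [e]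
  linarith

lemma int_w {d H : ℝ} (hd : 0 < d) (hH : 0 ≤ H) :
    ∫ s in (0 : ℝ)..H, 4 / (1 + s / d) ^ 2 ≤ 4 * d := by
  have hu : ∀ s ∈ Set.uIcc (0 : ℝ) H, 0 < 1 + s / d := by
    intro s hs
    rw [Set.uIcc_of_le hH] at hs
    have : 0 ≤ s / d := div_nonneg hs.1 hd.le
    linarith
  have h : ∀ s ∈ Set.uIcc (0 : ℝ) H, HasDerivAt (fun s => -(4 * d) * (1 + s / d)⁻¹)
      (4 / (1 + s / d) ^ 2) s := by
    intro s hs
    have h1 : HasDerivAt (fun s : ℝ => 1 + s / d) (1 / d) s := by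
      simpa using ((hasDerivAt_id s).div_const d).const_add (1 : ℝ)
    have h2 := (h1.inv (hu s hs).ne').const_mul (-(4 * d) : ℝ)
    refine h2.congr_deriv ?_
    have := (hu s hs).ne'
    field_simp
  rw [intervalIntegral.integral_eq_sub_of_hasDerivAt h]
  · have h5 : 0 < (1 + H / d)⁻¹ := by
      have : 0 ≤ H / d := div_nonneg hH hd.le
      positivity
    simp only [zero_div, add_zero, inv_one]
    nlinarith
  · apply ContinuousOn.intervalIntegrable
    apply ContinuousOn.div continuousOn_const (by fun_prop)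
    intro s hs
    have := hu s hs
    positivity

lemma int_w1 {H : ℝ} (hH : 0 ≤ H) :
    ∫ s in (0 : ℝ)..H, 1 / (1 + s) ^ 2 ≤ 1 := by
  have h := int_w (d := 1) one_pos hH
  have e : ∀ s : ℝ, 4 / (1 + s / 1) ^ 2 = 4 * (1 / (1 + s) ^ 2) := by intro s; ring
  simp only [e] at h
  rw [intervalIntegral.integral_const_mul] at h
  linarith

/-- Young's inequality in the form needed for Hölder's inequality with the weight `(1+s)⁻²` -/
lemma young_aux {G a s : ℝ} (hG : 0 ≤ G) (ha : 0 ≤ a) (hs : 0 ≤ s) :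
    G ^ (1 / 20 : ℝ) * a ≤ 1 / 21 * G ^ (21 / 20 : ℝ) * (1 / (1 + s) ^ 2) +
      20 / 21 * ((1 + s) ^ (1 / 10 : ℝ) * a ^ (21 / 20 : ℝ)) := by
  have hs1 : 0 < 1 + s := by linarith
  have hpq : Real.HolderConjugate 21 (21 / 20) := by
    rw [Real.holderConjugate_iff]; norm_num
  have hy := Real.young_inequality_of_nonneg
    (a := (1 + s) ^ (-(2 / 21) : ℝ) * G ^ (1 / 20 : ℝ)) (b := (1 + s) ^ (2 / 21 : ℝ) * a)
    (by positivity) (by positivity) hpq
  have e1 : (1 + s) ^ (-(2 / 21) : ℝ) * G ^ (1 / 20 : ℝ) * ((1 + s) ^ (2 / 21 : ℝ) * a) =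
      G ^ (1 / 20 : ℝ) * a := by
    rw [Real.rpow_neg hs1.le]
    have : (1 + s) ^ (2 / 21 : ℝ) ≠ 0 := by positivity
    field_simp
  have e2 : ((1 + s) ^ (-(2 / 21) : ℝ) * G ^ (1 / 20 : ℝ)) ^ (21 : ℝ) =
      1 / (1 + s) ^ 2 * G ^ (21 / 20 : ℝ) := by
    rw [Real.mul_rpow (by positivity) (by positivity), ← Real.rpow_mul hs1.le,
      ← Real.rpow_mul hG]
    rw [show (-(2 / 21) * 21 : ℝ) = -2 by norm_num, show (1 / 20 * 21 : ℝ) = 21 / 20 by norm_num,
      Real.rpow_neg hs1.le]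
    norm_num
  have e3 : ((1 + s) ^ (2 / 21 : ℝ) * a) ^ (21 / 20 : ℝ) =
      (1 + s) ^ (1 / 10 : ℝ) * a ^ (21 / 20 : ℝ) := by
    rw [Real.mul_rpow (by positivity) ha, ← Real.rpow_mul hs1.le]
    norm_num
  rw [e1, e2, e3] at hy
  refine hy.trans (le_of_eq ?_)
  ring

/-- Hölder's inequality -/
lemma holder_aux {H : ℝ} (hH : 0 ≤ H) {f : ℝ → ℝ} (hf : Continuous f) (h0 : ∀ s, 0 ≤ s → 0 ≤ f s) :
    (∫ s in (0 : ℝ)..H, f s) ^ (21 / 20 : ℝ) ≤
      ∫ s in (0 : ℝ)..H, (1 + s) ^ (1 / 10 : ℝ) * f s ^ (21 / 20 : ℝ) := by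
  set G := ∫ s in (0 : ℝ)..H, f s with hG
  have hG0 : 0 ≤ G := intervalIntegral.integral_nonneg hH fun s hs => h0 s hs.1
  have hc1 : IntervalIntegrable (fun s : ℝ => 1 / (1 + s) ^ 2) volume 0 H := by
    apply ContinuousOn.intervalIntegrable
    apply ContinuousOn.div continuousOn_const (by fun_prop)
    intro s hs
    rw [Set.uIcc_of_le hH] at hs
    have : 0 < 1 + s := by linarith [hs.1]
    positivity
  have hc2 : Continuous fun s : ℝ => (1 + s) ^ (1 / 10 : ℝ) * f s ^ (21 / 20 : ℝ) := by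
    apply Continuous.mul
    · exact Continuous.rpow_const (by fun_prop) fun _ => Or.inr (by norm_num)
    · exact Continuous.rpow_const hf fun _ => Or.inr (by norm_num)
  have h1 : ∫ s in (0 : ℝ)..H, G ^ (1 / 20 : ℝ) * f s ≤
      ∫ s in (0 : ℝ)..H, (1 / 21 * G ^ (21 / 20 : ℝ) * (1 / (1 + s) ^ 2) +
        20 / 21 * ((1 + s) ^ (1 / 10 : ℝ) * f s ^ (21 / 20 : ℝ))) := by
    apply intervalIntegral.integral_mono_on hH
    · exact (hf.const_mul _).intervalIntegrable _ _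
    · exact (hc1.const_mul _).add ((hc2.const_mul _).intervalIntegrable _ _)
    · intro s hs
      exact young_aux hG0 (h0 s hs.1) hs.1
  rw [intervalIntegral.integral_const_mul, intervalIntegral.integral_add (hc1.const_mul _)
    ((hc2.const_mul _).intervalIntegrable _ _), intervalIntegral.integral_const_mul,
    intervalIntegral.integral_const_mul] at h1
  have h2 := int_w1 hH
  have h3 : G ^ (1 / 20 : ℝ) * G = G ^ (21 / 20 : ℝ) := by
    have : (21 / 20 : ℝ) = 1 / 20 + 1 := by norm_num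
    rw [this, Real.rpow_add_of_nonneg hG0 (by norm_num) (by norm_num), Real.rpow_one]
  rw [← hG, h3] at h1
  have h4 : 0 ≤ G ^ (21 / 20 : ℝ) := by positivity
  have h5 : 1 / 21 * G ^ (21 / 20 : ℝ) * (∫ s in (0 : ℝ)..H, 1 / (1 + s) ^ 2) ≤
      1 / 21 * G ^ (21 / 20 : ℝ) * 1 := mul_le_mul_of_nonneg_left h2 (by positivity)
  linarith

lemma qb_of_fou (hF : T_FOU) {d L : ℕ} {H : ℝ} (hd : 1 ≤ d) (hL : 2 ≤ L) (hH : 0 < H)
    (hb : 1 / ((L : ℝ) + 1) ≤ 1 / 10 * √(Real.pi * d / (8 * H))) : QB d H (q1 (L + 1)) := by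
  obtain ⟨-, -, -, -, -, -, f7, f8, f9, f10⟩ := hF d L hd hL
  have hd0 : (0 : ℝ) < d := by exact_mod_cast hd
  refine ⟨fun σ h => (f7 σ h).1, fun σ h => (f7 σ h).2, f8, f10, fun σ h0 h1 => ?_⟩
  have h2 := f9 σ h0
  have h3 : √(Real.pi * d / (8 * H)) ≤ √(Real.pi / (8 * σ)) := by
    apply Real.sqrt_le_sqrt
    rw [le_div_iff₀ hd0] at h1
    rw [div_le_div_iff₀ (by positivity) (by positivity)]
    have := mul_le_mul_of_nonneg_left h1 Real.pi_pos.le
    nlinarith
  have h4 : √(Real.pi / (8 * σ)) = √(Real.pi / 8) * (1 / √σ) := by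
    rw [← div_div, Real.sqrt_div' _ h0.le]; ring
  have h5 : √(Real.pi / 8) ≤ 69 / 110 := by
    rw [Real.sqrt_le_left (by norm_num)]
    have := Real.pi_lt_d4
    norm_num at this ⊢
    linarith
  have h6 : 0 ≤ 1 / √σ := by positivity
  have h7 : √(Real.pi / 8) * (1 / √σ) ≤ 69 / 110 * (1 / √σ) := mul_le_mul_of_nonneg_right h5 h6
  rw [h4] at h2 h3
  linarith

/-- the truncated Green function -/
noncomputable def G {d L : ℕ} (H : ℝ) (x : V d L) : ℝ := ∫ s in (0 : ℝ)..H, hk s x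

section main
variable {d L : ℕ} {H : ℝ} (hF : T_FOU) (hd : 100 ≤ d) (hL : 2 ≤ L) (hH : 10 ≤ H)

include hF hd hL in
lemma hk_cont (x : V d L) : Continuous fun s => hk s x :=
  continuous_iff_continuousAt.2 fun s =>
    ((hF d L (by omega) hL).2.2.2.2.2.1 s x).continuousAt

include hF hd hL in
lemma hk_nn {s : ℝ} (hs : 0 ≤ s) (x : V d L) : 0 ≤ hk s x :=
  ((hF d L (by omega) hL).1 s x hs).1

include hF hd hL in
lemma hk_le {s : ℝ} (hs : 0 ≤ s) (x : V d L) : hk s x ≤ q1 (L + 1) (s / d) ^ d :=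
  ((hF d L (by omega) hL).1 s x hs).2

lemma cont_w {d H : ℝ} (hd : 0 < d) (hH : 0 ≤ H) :
    IntervalIntegrable (fun s : ℝ => 4 / (1 + s / d) ^ 2) volume 0 H := by
  apply ContinuousOn.intervalIntegrable
  apply ContinuousOn.div continuousOn_const (by fun_prop)
  intro s hs
  rw [Set.uIcc_of_le hH] at hs
  have : 0 ≤ s / d := div_nonneg hs.1 hd.le
  positivity

include hF hd hL hH in
lemma G_zero_ge : 4 / 5 ≤ G H (0 : V d L) := by
  have h1 : ∫ s in (0 : ℝ)..H, Real.exp (-s) ≤ G H (0 : V d L) := by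
    apply intervalIntegral.integral_mono_on (by linarith)
    · exact Continuous.intervalIntegrable (by fun_prop) _ _
    · exact (hk_cont hF hd hL 0).intervalIntegrable _ _
    · intro s hs
      exact (hF d L (by omega) hL).2.2.1 s hs.1
  have h2 : ∫ s in (0 : ℝ)..H, Real.exp (-s) = 1 - Real.exp (-H) := by
    rw [intervalIntegral.integral_comp_neg (f := Real.exp), integral_exp]
    simp
  have h3 : Real.exp (-H) ≤ 1 / 5 := by
    rw [Real.exp_neg, ← one_div]
    apply one_div_le_one_div_of_le (by norm_num)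
    have := Real.add_one_le_exp H
    linarith
  linarith

include hF hd hL hH in
lemma G_zero_le (hq : QB d H (q1 (L + 1))) : G H (0 : V d L) ≤ 5 / 4 := by
  have hd' : (100 : ℝ) ≤ d := by exact_mod_cast hd
  have hd0 : (0 : ℝ) < d := by linarith
  have hI1 : IntervalIntegrable (fun s : ℝ => Real.exp (-(37 / 40) * s)) volume 0 H :=
    Continuous.intervalIntegrable (by fun_prop) _ _
  have hI2 : IntervalIntegrable (fun s : ℝ => (363 / 400 : ℝ) ^ d * (4 / (1 + s / d) ^ 2))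
    volume 0 H := (cont_w hd0 (by linarith)).const_mul _
  have h1 : G H (0 : V d L) ≤ ∫ s in (0 : ℝ)..H, (Real.exp (-(37 / 40) * s) +
      (363 / 400) ^ d * (4 / (1 + s / d) ^ 2)) := by
    apply intervalIntegral.integral_mono_on (by linarith)
    · exact (hk_cont hF hd hL 0).intervalIntegrable _ _
    · exact hI1.add hI2
    · intro s hs
      exact (hk_le hF hd hL hs.1 0).trans (P1 hd hq hs.1 hs.2)
  rw [intervalIntegral.integral_add hI1 hI2, intervalIntegral.integral_const_mul] at h1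
  have h2 := int_exp (H := H)
  have h3 := int_w hd0 (show 0 ≤ H by linarith)
  have h4 := pw_dec d hd
  have h5 : (363 / 400 : ℝ) ^ d * (∫ s in (0 : ℝ)..H, 4 / (1 + s / d) ^ 2) ≤
      (363 / 400) ^ d * (4 * d) := mul_le_mul_of_nonneg_left h3 (by positivity)
  have h6 : (363 / 400 : ℝ) ^ d * (4 * d) = 4 * (d * (363 / 400 : ℝ) ^ d) := by ring
  rw [h6] at h5
  linarith

include hF hd hL hH in
lemma G_le (hq : QB d H (q1 (L + 1))) {x : V d L} (hx : x ≠ 0) : G H x ≤ 4 / 25 := by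
  have hd' : (100 : ℝ) ≤ d := by exact_mod_cast hd
  have hd0 : (0 : ℝ) < d := by linarith
  have hI1 : IntervalIntegrable (fun s : ℝ => s / d * Real.exp (-(9 / 10) * s)) volume 0 H :=
    Continuous.intervalIntegrable (by fun_prop) _ _
  have hI2 : IntervalIntegrable (fun s : ℝ => (363 / 400 : ℝ) ^ (d - 1) * (4 / (1 + s / d) ^ 2))
    volume 0 H := (cont_w hd0 (by linarith)).const_mul _
  have h1 : G H x ≤ ∫ s in (0 : ℝ)..H, (s / d * Real.exp (-(9 / 10) * s) +
      (363 / 400) ^ (d - 1) * (4 / (1 + s / d) ^ 2)) := by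
    apply intervalIntegral.integral_mono_on (by linarith)
    · exact (hk_cont hF hd hL x).intervalIntegrable _ _
    · exact hI1.add hI2
    · intro s hs
      exact ((hF d L (by omega) hL).2.1 s x hs.1 hx).trans (P2 hd hq hs.1 hs.2)
  rw [intervalIntegral.integral_add hI1 hI2, intervalIntegral.integral_const_mul] at h1
  have h2 := int_sexp hd' (show 0 ≤ H by linarith)
  have h3 := int_w hd0 (show 0 ≤ H by linarith)
  have h4 := pw_dec' d hd
  have h5 : (363 / 400 : ℝ) ^ (d - 1) * (∫ s in (0 : ℝ)..H, 4 / (1 + s / d) ^ 2) ≤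
      (363 / 400) ^ (d - 1) * (4 * d) := mul_le_mul_of_nonneg_left h3 (by positivity)
  have h6 : (100 / 81 / d : ℝ) ≤ 100 / 81 / 100 := by gcongr
  have h7 : (363 / 400 : ℝ) ^ (d - 1) * (4 * d) = 4 * (d * (363 / 400 : ℝ) ^ (d - 1)) := by ring
  rw [h7] at h5
  norm_num at h6
  linarith

include hF hd hL in
lemma G_nn (hH : 0 ≤ H) (x : V d L) : 0 ≤ G H x :=
  intervalIntegral.integral_nonneg hH fun _ hs => hk_nn hF hd hL hs.1 x

include hF hd hL in
lemma G_har (x : V d L) : Pk (G H) x - G H x = hk H x - if x = 0 then 1 else 0 := by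
  have hc := hk_cont hF hd hL
  have h1 : Pk (G H) x = ∫ s in (0 : ℝ)..H, Pk (hk s) x := by
    unfold Pk G
    rw [intervalIntegral.integral_finsetSum]
    · refine Finset.sum_congr rfl fun e _ => ?_
      rw [intervalIntegral.integral_const_mul]
    · intro e _
      exact ((hc (x + dv e)).const_mul _).intervalIntegrable _ _
  have hcP : Continuous fun s => Pk (hk s) x := by
    unfold Pk
    exact continuous_finsetSum _ fun e _ => (hc (x + dv e)).const_mul _
  have h2 : Pk (G H) x - G H x = ∫ s in (0 : ℝ)..H, (Pk (hk s) x - hk s x) := by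
    rw [h1, intervalIntegral.integral_sub (hcP.intervalIntegrable _ _)
      ((hc x).intervalIntegrable _ _)]
    rfl
  rw [h2, intervalIntegral.integral_eq_sub_of_hasDerivAt
    (fun s _ => (hF d L (by omega) hL).2.2.2.2.2.1 s x)
    ((hcP.sub (hc x)).intervalIntegrable _ _)]
  congr 1
  unfold hk
  rw [sg_zero]
  simp [eq_comm]

include hF hd hL hH in
lemma G_sum (hq : QB d H (q1 (L + 1))) :
    ∑ x : V d L, G H x ^ (21 / 20 : ℝ) ≤ (2 * d) ^ (5 / 2 : ℝ) := by
  have hd' : (100 : ℝ) ≤ d := by exact_mod_cast hd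
  have hH0 : 0 ≤ H := by linarith
  have hc := hk_cont hF hd hL
  have hc2 : ∀ x : V d L, Continuous fun s : ℝ =>
      (1 + s) ^ (1 / 10 : ℝ) * hk s x ^ (21 / 20 : ℝ) := by
    intro x
    apply Continuous.mul
    · exact Continuous.rpow_const (by fun_prop) fun _ => Or.inr (by norm_num)
    · exact Continuous.rpow_const (hc x) fun _ => Or.inr (by norm_num)
  have h1 : ∑ x : V d L, G H x ^ (21 / 20 : ℝ) ≤ ∑ x : V d L,
      ∫ s in (0 : ℝ)..H, (1 + s) ^ (1 / 10 : ℝ) * hk s x ^ (21 / 20 : ℝ) :=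
    Finset.sum_le_sum fun x _ => holder_aux hH0 (hc x) fun s hs => hk_nn hF hd hL hs x
  rw [← intervalIntegral.integral_finsetSum fun x _ => (hc2 x).intervalIntegrable _ _] at h1
  have hI : IntervalIntegrable (fun s : ℝ => (2 * d : ℝ) ^ (5 / 2 : ℝ) * (1 / (1 + s) ^ 2))
      volume 0 H := by
    apply ContinuousOn.intervalIntegrable
    apply ContinuousOn.mul continuousOn_const
    apply ContinuousOn.div continuousOn_const (by fun_prop)
    intro s hs
    rw [Set.uIcc_of_le hH0] at hs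
    have : 0 < 1 + s := by linarith [hs.1]
    positivity
  have h2 : ∫ s in (0 : ℝ)..H, ∑ x : V d L, (1 + s) ^ (1 / 10 : ℝ) * hk s x ^ (21 / 20 : ℝ) ≤
      ∫ s in (0 : ℝ)..H, (2 * d : ℝ) ^ (5 / 2 : ℝ) * (1 / (1 + s) ^ 2) := by
    apply intervalIntegral.integral_mono_on hH0
    · exact (continuous_finsetSum _ fun x _ => hc2 x).intervalIntegrable _ _
    · exact hI
    · intro s hs
      refine le_trans ?_ (P3 hd hq hs.1 hs.2)
      rw [← Finset.mul_sum]
      apply mul_le_mul_of_nonneg_left _ (Real.rpow_nonneg (by linarith [hs.1]) _)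
      have h3 : ∀ x : V d L, hk s x ^ (21 / 20 : ℝ) ≤
          hk s x * (q1 (L + 1) (s / d) ^ d) ^ (1 / 20 : ℝ) := by
        intro x
        have h0 := hk_nn hF hd hL hs.1 x
        rw [show (21 / 20 : ℝ) = 1 + 1 / 20 by norm_num,
          Real.rpow_add_of_nonneg h0 (by norm_num) (by norm_num), Real.rpow_one]
        apply mul_le_mul_of_nonneg_left _ h0
        exact Real.rpow_le_rpow h0 (hk_le hF hd hL hs.1 x) (by norm_num)
      refine (Finset.sum_le_sum fun x _ => h3 x).trans ?_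
      rw [← Finset.sum_mul, (hF d L (by omega) hL).2.2.2.1 s hs.1, one_mul]
  rw [intervalIntegral.integral_const_mul] at h2
  have h4 := int_w1 hH0
  have h5 : (2 * d : ℝ) ^ (5 / 2 : ℝ) * (∫ s in (0 : ℝ)..H, 1 / (1 + s) ^ 2) ≤
      (2 * d : ℝ) ^ (5 / 2 : ℝ) * 1 := mul_le_mul_of_nonneg_left h4 (by positivity)
  linarith

end main

end KER

/-- the kernel exists -/
theorem t_KER (hHIT : T_HIT) (hF : T_FOU) : T_KER := by
  intro d hd
  have hd' : (100 : ℝ) ≤ d := by exact_mod_cast hd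
  have hd0 : (0 : ℝ) < d := by linarith
  have hC0 : (0 : ℝ) ≤ (2 * d) ^ (5 / 2 : ℝ) := by positivity
  refine ⟨3 + 2 * (2 * d) ^ (5 / 2 : ℝ), by linarith, fun δ hδ T => ?_⟩
  set H : ℝ := |T| + 10 + d + d * (25 / (16 * δ ^ 2)) with hHd
  have hx : 0 ≤ d * (25 / (16 * δ ^ 2)) := by positivity
  have hT0 := abs_nonneg T
  have hT1 := le_abs_self T
  have hH10 : 10 ≤ H := by linarith
  have hH0 : 0 < H := by linarith
  have hHd' : d ≤ H := by linarith
  have hs0 : 0 < 1 / 10 * √(Real.pi * d / (8 * H)) := by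
    have := Real.pi_pos
    positivity
  have hev : ∀ᶠ L : ℕ in atTop, 1 / ((L : ℝ) + 1) < 1 / 10 * √(Real.pi * d / (8 * H)) :=
    (tendsto_one_div_add_atTop_nhds_zero_nat (𝕜 := ℝ)).eventually_lt_const hs0
  filter_upwards [hev, eventually_ge_atTop 2] with L hL1 hL
  have hq := KER.qb_of_fou hF (by omega : 1 ≤ d) hL hH0 hL1.le
  have hg1 := KER.G_zero_ge hF hd hL hH10
  have hg2 := KER.G_zero_le hF hd hL hH10 hq
  have hg0 : 0 < KER.G H (0 : V d L) := by linarith
  set γ : ℝ := (KER.G H (0 : V d L))⁻¹ with hγ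
  have hγ0 : 0 < γ := by positivity
  have hγ1 : 4 / 5 ≤ γ := by
    rw [hγ, le_inv_comm₀ (by norm_num) hg0]; norm_num; linarith
  have hγ2 : γ ≤ 5 / 4 := by
    rw [hγ, inv_le_comm₀ hg0 (by norm_num)]; norm_num; linarith
  have hsmall : hk H (0 : V d L) ≤ 4 / 5 * δ ∧ ∀ x : V d L, hk H x ≤ 4 / 5 * δ := by
    have h1 : ∀ x : V d L, hk H x ≤ 4 / 5 * δ := by
      intro x
      refine (KER.hk_le hF hd hL hH0.le x).trans ?_
      have h2 : 0 ≤ H / d := by positivity
      have h3 : q1 (L + 1) (H / d) ^ d ≤ q1 (L + 1) (H / d) ^ 1 :=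
        pow_le_pow_of_le_one (hq.nn _ h2) (hq.le1 _ h2) (by omega)
      rw [pow_one] at h3
      have h4 := hq.far (H / d) (by positivity) le_rfl
      have h5 : 1 / √(H / d) ≤ 4 / 5 * δ := by
        rw [div_le_iff₀ (by positivity)]
        have h6 : 5 / (4 * δ) ≤ √(H / d) := by
          apply Real.le_sqrt_of_sq_le
          rw [le_div_iff₀ hd0]
          have : (5 / (4 * δ)) ^ 2 * d = d * (25 / (16 * δ ^ 2)) := by
            rw [div_pow]; ring
          rw [this]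
          linarith
        have h7 := mul_le_mul_of_nonneg_left h6 (by positivity : 0 ≤ 4 / 5 * δ)
        have h8 : 4 / 5 * δ * (5 / (4 * δ)) = 1 := by field_simp
        linarith
      have h9 : 0 ≤ 1 / √(H / d) := by positivity
      linarith
    exact ⟨h1 0, h1⟩
  have hPk : ∀ x : V d L, Pk (fun y => γ * KER.G H y) x - γ * KER.G H x +
      (if x = 0 then γ else 0) = γ * hk H x := by
    intro x
    have h1 := KER.G_har (H := H) hF hd hL x
    rw [Pk_smul]
    have h2 : γ * Pk (KER.G H) x - γ * KER.G H x = γ * (Pk (KER.G H) x - KER.G H x) := by ring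
    rw [h2, h1]
    split_ifs
    · ring
    · ring
  refine ⟨fun x => γ * KER.G H x, γ, ?_⟩
  refine ⟨?_, ?_, ?_, ?_, hγ1, hγ2, ?_, ?_, ?_, ?_⟩
  · exact inv_mul_cancel₀ hg0.ne'
  · intro x
    exact mul_nonneg hγ0.le (KER.G_nn hF hd hL hH0.le x)
  · intro x hx
    have h1 := KER.G_le hF hd hL hH10 hq hx
    have h0 := KER.G_nn hF hd hL hH0.le x
    show γ * KER.G H x ≤ 1 / 5
    nlinarith
  · intro x
    show γ * KER.G H (-x) = γ * KER.G H x
    congr 1
    unfold KER.G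
    simp only [(hF d L (by omega) hL).2.2.2.2.1]
  · intro x
    have h0 := KER.hk_nn hF hd hL hH0.le x
    rw [hPk]
    positivity
  · intro x
    have h0 := KER.hk_nn hF hd hL hH0.le x
    rw [hPk]
    have h1 := hsmall.2 x
    nlinarith
  · have h1 := KER.G_sum hF hd hL hH10 hq
    have h2 : ∀ x : V d L, (γ * KER.G H x) ^ (21 / 20 : ℝ) ≤ 2 * KER.G H x ^ (21 / 20 : ℝ) := by
      intro x
      have h0 := KER.G_nn hF hd hL hH0.le x
      rw [Real.mul_rpow hγ0.le h0]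
      apply mul_le_mul_of_nonneg_right _ (by positivity)
      calc γ ^ (21 / 20 : ℝ) ≤ (5 / 4) ^ (21 / 20 : ℝ) :=
            Real.rpow_le_rpow hγ0.le hγ2 (by norm_num)
        _ ≤ (5 / 4) ^ (2 : ℝ) := Real.rpow_le_rpow_of_exponent_le (by norm_num) (by norm_num)
        _ ≤ 2 := by norm_num
    refine (Finset.sum_le_sum fun x _ => h2 x).trans ?_
    rw [← Finset.mul_sum]
    linarith
  · intro t x ht0 htT
    have h1 := (hHIT d L (by omega)).2.2.2.2.2.2 t x ht0
    have h2 : ∫ s in (0 : ℝ)..t + 1, hk s x ≤ KER.G H x := by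
      unfold KER.G
      have hc := KER.hk_cont hF hd hL x
      rw [← intervalIntegral.integral_add_adjacent_intervals (hc.intervalIntegrable 0 (t + 1))
        (hc.intervalIntegrable (t + 1) H)]
      have : 0 ≤ ∫ s in (t + 1)..H, hk s x :=
        intervalIntegral.integral_nonneg (by linarith) fun s hs =>
          KER.hk_nn hF hd hL (by linarith [hs.1]) x
      linarith
    have h0 := KER.G_nn hF hd hL hH0.le x
    show hit t 0 x ≤ (3 + 2 * (2 * d) ^ (5 / 2 : ℝ)) * (γ * KER.G H x)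
    have h3 : 2 * KER.G H x ≤ 3 * (γ * KER.G H x) := by nlinarith
    have h4 : 0 ≤ 2 * (2 * d) ^ (5 / 2 : ℝ) * (γ * KER.G H x) := by positivity
    nlinarith

end Pool.Agent.CAS
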