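import Pool.Agent.CAS.Basic

/-!
# The product of two Lyapunov structures
-/

open Finset Filter Topology MeasureTheory
open scoped BigOperators

namespace Pool.Agent.CAS

set_option linter.unusedSectionVars false

namespace LDP_

variable {S I S' I' : Type} [Fintype I] [Fintype I']

lemma gen_sum2 (r : I → ℝ) (φ : I → S → S) (r' : I' → ℝ) (φ' : I' → S' → S')
    (f : S → ℝ) (f' : S' → ℝ) (s : S × S') :
    gen (prate r r') (pmap φ φ') (fun s => f s.1 + f' s.2) s = gen r φ f s.1 + gen r' φ' f' s.2 := by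
  rw [gen_pmap]
  unfold gen
  congr 1
  · exact Finset.sum_congr rfl fun i _ => by ring
  · exact Finset.sum_congr rfl fun i _ => by ring

lemma rp {a b p : ℝ} (ha : 0 ≤ a) (hb : 0 ≤ b) (hp : 0 ≤ p) : a ^ p ≤ (a + b) ^ p :=
  Real.rpow_le_rpow ha (by linarith) hp

end LDP_

open LDP_ in
theorem t_LDP : T_LDP := by
  intro S I S' I' _ _ r φ Inv X F m β r' φ' Inv' X' F' m' β' c c' γ δ C b hC hδ hb h h'
  have q1 : ∀ s : S × S', Inv s.1 ∧ Inv' s.2 →
      m s.1 ^ (1 / 4 : ℝ) ≤ (m s.1 + m' s.2) ^ (1 / 4 : ℝ) := fun s hs =>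
    rp (h.m0 _ hs.1) (h'.m0 _ hs.2) (by norm_num)
  have q1' : ∀ s : S × S', Inv s.1 ∧ Inv' s.2 →
      m' s.2 ^ (1 / 4 : ℝ) ≤ (m s.1 + m' s.2) ^ (1 / 4 : ℝ) := fun s hs => by
    rw [add_comm]; exact rp (h'.m0 _ hs.2) (h.m0 _ hs.1) (by norm_num)
  have q5 : ∀ s : S × S', Inv s.1 ∧ Inv' s.2 →
      m s.1 ^ (5 / 4 : ℝ) ≤ (m s.1 + m' s.2) ^ (5 / 4 : ℝ) := fun s hs =>
    rp (h.m0 _ hs.1) (h'.m0 _ hs.2) (by norm_num)
  have q5' : ∀ s : S × S', Inv s.1 ∧ Inv' s.2 →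
      m' s.2 ^ (5 / 4 : ℝ) ≤ (m s.1 + m' s.2) ^ (5 / 4 : ℝ) := fun s hs => by
    rw [add_comm]; exact rp (h'.m0 _ hs.2) (h.m0 _ hs.1) (by norm_num)
  have hbC : 0 ≤ b * C := mul_nonneg hb hC
  constructor
  · exact prate_nonneg h.rn h'.rn
  · rintro (i | i) s hs
    · exact ⟨h.inv i _ hs.1, hs.2⟩
    · exact ⟨hs.1, h'.inv i _ hs.2⟩
  · intro s hs
    have := h.m0 _ hs.1; have := h'.m0 _ hs.2; linarith
  · intro s hs
    have := h.β0 _ hs.1; have := h'.β0 _ hs.2; linarith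
  · intro s hs
    have := h.βm _ hs.1; have := h'.βm _ hs.2; linarith
  · intro s hs
    have := h.X0 _ hs.1; have := h'.X0 _ hs.2; linarith
  · intro s hs
    have := h.Xm _ hs.1; have := h'.Xm _ hs.2; linarith
  · intro s hs
    have h1 := h.mX _ hs.1
    have h2 := h'.mX _ hs.2
    have h3 := mul_le_mul_of_nonneg_left (q1 s hs) hbC
    have h4 := mul_le_mul_of_nonneg_left (q1' s hs) hbC
    have e : b * (2 * C) * (m s.1 + m' s.2) ^ (1 / 4 : ℝ) =
      b * C * (m s.1 + m' s.2) ^ (1 / 4 : ℝ) + b * C * (m s.1 + m' s.2) ^ (1 / 4 : ℝ) := by ring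
    rw [e]
    linarith
  · intro s hs
    rw [gen_sum2]
    have := h.gX _ hs.1; have := h'.gX _ hs.2; linarith
  · intro s hs
    rw [gen_sum2]
    have h1 := h.gX' _ hs.1
    have h2 := h'.gX' _ hs.2
    have h3 : 0 ≤ C * δ * m s.1 := mul_nonneg (mul_nonneg hC hδ) (h.m0 _ hs.1)
    have h4 : 0 ≤ C * δ * m' s.2 := mul_nonneg (mul_nonneg hC hδ) (h'.m0 _ hs.2)
    have e : 2 * C * δ * (m s.1 + m' s.2) =
      (C * δ * m s.1 + C * δ * m' s.2) + (C * δ * m s.1 + C * δ * m' s.2) := by ring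
    rw [e]
    linarith
  · rintro (i | i) s hs
    · have := h.dX i _ hs.1
      simpa [pmap] using this
    · have := h'.dX i _ hs.2
      simpa [pmap] using this
  · intro s hs
    have h1 := h.ΓX _ hs.1
    have h2 := h'.ΓX _ hs.2
    have h3 := mul_le_mul_of_nonneg_left (q1 s hs) hbC
    have h4 := mul_le_mul_of_nonneg_left (q1' s hs) hbC
    have e : b * (2 * C) * (m s.1 + m' s.2) ^ (1 / 4 : ℝ) =
      b * C * (m s.1 + m' s.2) ^ (1 / 4 : ℝ) + b * C * (m s.1 + m' s.2) ^ (1 / 4 : ℝ) := by ring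
    have e2 : ∑ i, prate r r' i * ((fun s : S × S' => X s.1 + X' s.2) (pmap φ φ' i s) -
        (fun s : S × S' => X s.1 + X' s.2) s) ^ 2 =
        ∑ i, r i * (X (φ i s.1) - X s.1) ^ 2 + ∑ i, r' i * (X' (φ' i s.2) - X' s.2) ^ 2 := by
      simp only [Fintype.sum_sum_type, prate, Sum.elim_inl, Sum.elim_inr, pmap]
      congr 1
      · exact Finset.sum_congr rfl fun i _ => by ring
      · exact Finset.sum_congr rfl fun i _ => by ring
    rw [e2, e]
    rw [abs_le] at h1 h2 ⊢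
    constructor <;> linarith [h1.1, h1.2, h2.1, h2.2]
  · intro s hs
    have := h.F0 _ hs.1; have := h'.F0 _ hs.2; linarith
  · intro s hs
    have h1 := h.Fm _ hs.1
    have h2 := h'.Fm _ hs.2
    have h3 := mul_le_mul_of_nonneg_left (q5 s hs) hC
    have h4 := mul_le_mul_of_nonneg_left (q5' s hs) hC
    have e : 2 * C * (m s.1 + m' s.2) ^ (5 / 4 : ℝ) =
      C * (m s.1 + m' s.2) ^ (5 / 4 : ℝ) + C * (m s.1 + m' s.2) ^ (5 / 4 : ℝ) := by ring
    rw [e]
    linarith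
  · intro s hs
    rw [gen_sum2]
    have h1 := h.gF _ hs.1
    have h2 := h'.gF _ hs.2
    have h3 := mul_le_mul_of_nonneg_left (q1 s hs) hbC
    have h4 := mul_le_mul_of_nonneg_left (q1' s hs) hbC
    have e : b * (2 * C) * (m s.1 + m' s.2) ^ (1 / 4 : ℝ) =
      b * C * (m s.1 + m' s.2) ^ (1 / 4 : ℝ) + b * C * (m s.1 + m' s.2) ^ (1 / 4 : ℝ) := by ring
    have hm := h.m0 _ hs.1
    have hm' := h'.m0 _ hs.2
    have hCδ : 0 ≤ C * δ := mul_nonneg hC hδ
    have e3 : C * δ * m s.1 ^ 2 + C * δ * m' s.2 ^ 2 ≤ 2 * C * δ * (m s.1 + m' s.2) ^ 2 := by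
      have h5 : m s.1 ^ 2 + m' s.2 ^ 2 ≤ 2 * (m s.1 + m' s.2) ^ 2 := by nlinarith
      have := mul_le_mul_of_nonneg_left h5 hCδ
      calc _ = C * δ * (m s.1 ^ 2 + m' s.2 ^ 2) := by ring
        _ ≤ C * δ * (2 * (m s.1 + m' s.2) ^ 2) := this
        _ = _ := by ring
    rw [e]
    rw [abs_le] at h1 h2 ⊢
    constructor <;> linarith [h1.1, h1.2, h2.1, h2.2]
  · intro s hs
    have h1 := h.ΓXF _ hs.1
    have h2 := h'.ΓXF _ hs.2
    have h3 := mul_le_mul_of_nonneg_left (q5 s hs) hC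
    have h4 := mul_le_mul_of_nonneg_left (q5' s hs) hC
    have e : 2 * C * (m s.1 + m' s.2) ^ (5 / 4 : ℝ) =
      C * (m s.1 + m' s.2) ^ (5 / 4 : ℝ) + C * (m s.1 + m' s.2) ^ (5 / 4 : ℝ) := by ring
    have e2 : ∑ i, prate r r' i * (|(fun s : S × S' => X s.1 + X' s.2) (pmap φ φ' i s) -
        (fun s : S × S' => X s.1 + X' s.2) s| *
        |(fun s : S × S' => F s.1 + F' s.2) (pmap φ φ' i s) -
          (fun s : S × S' => F s.1 + F' s.2) s|) =
        ∑ i, r i * (|X (φ i s.1) - X s.1| * |F (φ i s.1) - F s.1|) +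
          ∑ i, r' i * (|X' (φ' i s.2) - X' s.2| * |F' (φ' i s.2) - F' s.2|) := by
      simp only [Fintype.sum_sum_type, prate, Sum.elim_inl, Sum.elim_inr, pmap,
        add_sub_add_right_eq_sub, add_sub_add_left_eq_sub]
    rw [e2, e]
    linarith
  · intro s hs
    rw [gen_sum2]
    have := h.gm _ hs.1; have := h'.gm _ hs.2; linarith
  · rintro (i | i) s hs
    · have := h.dm i _ hs.1
      simpa [pmap] using this
    · have := h'.dm i _ hs.2
      simpa [pmap] using this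
  · intro s hs
    have h1 := h.Γm _ hs.1
    have h2 := h'.Γm _ hs.2
    have e2 : ∑ i, prate r r' i * |(fun s : S × S' => m s.1 + m' s.2) (pmap φ φ' i s) -
        (fun s : S × S' => m s.1 + m' s.2) s| =
        ∑ i, r i * |m (φ i s.1) - m s.1| + ∑ i, r' i * |m' (φ' i s.2) - m' s.2| := by
      simp only [Fintype.sum_sum_type, prate, Sum.elim_inl, Sum.elim_inr, pmap,
        add_sub_add_right_eq_sub, add_sub_add_left_eq_sub]
    rw [e2]
    have h3 : 0 ≤ C * m s.1 := mul_nonneg hC (h.m0 _ hs.1)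
    have h4 : 0 ≤ C * m' s.2 := mul_nonneg hC (h'.m0 _ hs.2)
    have e : 2 * C * (m s.1 + m' s.2) =
      (C * m s.1 + C * m' s.2) + (C * m s.1 + C * m' s.2) := by ring
    rw [e]
    linarith

end Pool.Agent.CAS
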