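import Pool.Agent.CAS.Basic

/-!
# Lyapunov structure of the voter model with zealots
-/

open Finset Filter Topology
open scoped BigOperators

namespace Pool.Agent.CAS

namespace LDZ_

variable {d L : ℕ}

/-- indicator of `W` -/
noncomputable def ind (W : Finset (V d L)) (x : V d L) : ℝ := if x ∈ W then 1 else 0

/-- probability of a step into `W` -/
noncomputable def q (W : Finset (V d L)) (x : V d L) : ℝ := Pk (ind W) x

lemma ind_nonneg (W : Finset (V d L)) (x : V d L) : 0 ≤ ind W x := by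
  unfold ind; split_ifs <;> norm_num

lemma ind_le_one (W : Finset (V d L)) (x : V d L) : ind W x ≤ 1 := by
  unfold ind; split_ifs <;> norm_num

lemma ind_of_mem {W : Finset (V d L)} {x : V d L} (h : x ∈ W) : ind W x = 1 := by
  simp [ind, h]

lemma ind_of_notMem {W : Finset (V d L)} {x : V d L} (h : x ∉ W) : ind W x = 0 := by
  simp [ind, h]

lemma q_nonneg (W : Finset (V d L)) (x : V d L) : 0 ≤ q W x := Pk_nonneg (ind_nonneg W) x

lemma q_le_one (hd : 1 ≤ d) (W : Finset (V d L)) (x : V d L) : q W x ≤ 1 :=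
  Pk_le_one hd (ind_le_one W) x

lemma sum_ind (W : Finset (V d L)) (f : V d L → ℝ) : ∑ x, ind W x * f x = ∑ x ∈ W, f x := by
  unfold ind
  simp only [ite_mul, one_mul, zero_mul]
  rw [← Finset.sum_filter]
  simp

lemma sum_ind' (W : Finset (V d L)) : ∑ x, ind W x = W.card := by
  have := sum_ind W (fun _ => 1)
  simpa using this

/-- the total rate of the change of the opinion of `x` -/
noncomputable def rate (Z A : Finset (V d L)) (x : V d L) : ℝ :=
  if x ∈ Z then 0 else if x ∈ A then 1 - q (A ∪ Z) x else q (A ∪ Z) x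

/-- the change -/
def flip (A : Finset (V d L)) (x : V d L) : Finset (V d L) :=
  if x ∈ A then A.erase x else insert x A

lemma rate_nonneg (hd : 1 ≤ d) (Z A : Finset (V d L)) (x : V d L) : 0 ≤ rate Z A x := by
  unfold rate
  split_ifs
  · exact le_rfl
  · linarith [q_le_one hd (A ∪ Z) x]
  · exact q_nonneg _ _

lemma rate_le_one (hd : 1 ≤ d) (Z A : Finset (V d L)) (x : V d L) : rate Z A x ≤ 1 := by
  unfold rate
  split_ifs
  · norm_num
  · linarith [q_nonneg (A ∪ Z) x]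
  · exact q_le_one hd _ _

/-- all sums over the transitions are sums over the flips -/
lemma sum_trans (hd : 1 ≤ d) (Z A : Finset (V d L)) (T : Finset (V d L) → ℝ) (hT : T A = 0) :
    ∑ a : Ar d L, ra d * T (zup Z a A) = ∑ x, rate Z A x * T (flip A x) := by
  rw [Fintype.sum_prod_type]
  refine Finset.sum_congr rfl fun x _ => ?_
  by_cases hxZ : x ∈ Z
  · simp only [zup_of_mem hxZ, hT, mul_zero, Finset.sum_const_zero]
    simp [rate, hxZ]
  · have e1 : ∀ e : Dir d, ra d * T (zup Z (x, e) A) =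
        (ra d * ind (A ∪ Z) (x + dv e)) * T (insert x A) +
        (ra d - ra d * ind (A ∪ Z) (x + dv e)) * T (A.erase x) := by
      intro e
      by_cases h : x + dv e ∈ A ∪ Z
      · rw [zup_of_occ hxZ h, ind_of_mem h]; ring
      · rw [zup_of_not hxZ h, ind_of_notMem h]; ring
    simp only [e1]
    rw [Finset.sum_add_distrib, ← Finset.sum_mul, ← Finset.sum_mul, Finset.sum_sub_distrib,
      sum_ra hd]
    have e2 : ∑ e : Dir d, ra d * ind (A ∪ Z) (x + dv e) = q (A ∪ Z) x := rfl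
    rw [e2]
    by_cases hxA : x ∈ A
    · rw [Finset.insert_eq_of_mem hxA, hT]
      simp [rate, flip, hxZ, hxA]
    · rw [Finset.erase_eq_of_notMem hxA, hT]
      simp [rate, flip, hxZ, hxA]

lemma zup_cases (Z A : Finset (V d L)) (a : Ar d L) :
    zup Z a A = A ∨ (a.1 ∉ Z ∧ zup Z a A = flip A a.1) := by
  unfold zup
  by_cases hxZ : a.1 ∈ Z
  · left; simp [hxZ]
  · by_cases h : a.1 + dv a.2 ∈ A ∪ Z
    · rw [if_neg hxZ, if_pos h]
      by_cases hxA : a.1 ∈ A
      · left; exact Finset.insert_eq_of_mem hxA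
      · right; exact ⟨hxZ, by simp [flip, hxA]⟩
    · rw [if_neg hxZ, if_neg h]
      by_cases hxA : a.1 ∈ A
      · right; exact ⟨hxZ, by simp [flip, hxA]⟩
      · left; exact Finset.erase_eq_of_notMem hxA

lemma zb_eq (Z A : Finset (V d L)) : zb Z A = ∑ x ∈ A ∪ Z, (1 - q (A ∪ Z) x) := rfl

lemma zm_eq (Z A : Finset (V d L)) : zm Z A = ((A ∪ Z).card : ℝ) := rfl

lemma sum_q (hd : 1 ≤ d) (W : Finset (V d L)) : ∑ x, q W x = W.card := by
  unfold q
  rw [Pk_sum hd, sum_ind']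

lemma zb_nonneg (hd : 1 ≤ d) (Z A : Finset (V d L)) : 0 ≤ zb Z A := by
  rw [zb_eq]
  exact Finset.sum_nonneg fun x _ => by linarith [q_le_one hd (A ∪ Z) x]

lemma zb_le (Z A : Finset (V d L)) : zb Z A ≤ zm Z A := by
  rw [zb_eq, zm_eq]
  have : ∑ x ∈ A ∪ Z, (1 - q (A ∪ Z) x) ≤ ∑ x ∈ A ∪ Z, (1 : ℝ) :=
    Finset.sum_le_sum fun x _ => by linarith [q_nonneg (A ∪ Z) x]
  simpa using this

/-- the boundary of the zealots -/
noncomputable def zc (Z A : Finset (V d L)) : ℝ := ∑ x ∈ Z, (1 - q (A ∪ Z) x)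

lemma zc_nonneg (hd : 1 ≤ d) (Z A : Finset (V d L)) : 0 ≤ zc Z A :=
  Finset.sum_nonneg fun x _ => by linarith [q_le_one hd (A ∪ Z) x]

lemma zc_le (Z A : Finset (V d L)) : zc Z A ≤ Z.card := by
  have : zc Z A ≤ ∑ x ∈ Z, (1 : ℝ) :=
    Finset.sum_le_sum fun x _ => by linarith [q_nonneg (A ∪ Z) x]
  simpa using this

/-- the drift of `∑_A f` for arbitrary `f`: sum of `± rate` -/
lemma sum_rate_sign (Z A : Finset (V d L)) (g : V d L → ℝ) :
    ∑ x, rate Z A x * (if x ∈ A then -g x else g x) =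
      ∑ x, (q (A ∪ Z) x - ind (A ∪ Z) x) * g x + ∑ x ∈ Z, (1 - q (A ∪ Z) x) * g x := by
  rw [← sum_ind Z, ← Finset.sum_add_distrib]
  refine Finset.sum_congr rfl fun x _ => ?_
  unfold rate
  by_cases hxZ : x ∈ Z
  · have hW : x ∈ A ∪ Z := Finset.mem_union_right _ hxZ
    rw [if_pos hxZ, ind_of_mem hW, ind_of_mem hxZ]; ring
  · rw [if_neg hxZ, ind_of_notMem hxZ]
    by_cases hxA : x ∈ A
    · have hW : x ∈ A ∪ Z := Finset.mem_union_left _ hxA
      rw [if_pos hxA, if_pos hxA, ind_of_mem hW]; ring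
    · have hW : x ∉ A ∪ Z := by simp [hxA, hxZ]
      rw [if_neg hxA, if_neg hxA, ind_of_notMem hW]; ring

/-- the total rate -/
lemma sum_rate (hd : 1 ≤ d) (Z A : Finset (V d L)) :
    ∑ x, rate Z A x = 2 * zb Z A - zc Z A := by
  have h1 : ∀ x, rate Z A x = (q (A ∪ Z) x - ind (A ∪ Z) x * q (A ∪ Z) x) +
      (ind (A ∪ Z) x * (1 - q (A ∪ Z) x)) - ind Z x * (1 - q (A ∪ Z) x) := by
    intro x
    unfold rate
    by_cases hxZ : x ∈ Z
    · have hW : x ∈ A ∪ Z := Finset.mem_union_right _ hxZ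
      rw [if_pos hxZ, ind_of_mem hW, ind_of_mem hxZ]; ring
    · rw [if_neg hxZ, ind_of_notMem hxZ]
      by_cases hxA : x ∈ A
      · have hW : x ∈ A ∪ Z := Finset.mem_union_left _ hxA
        rw [if_pos hxA, ind_of_mem hW]; ring
      · have hW : x ∉ A ∪ Z := by simp [hxA, hxZ]
        rw [if_neg hxA, ind_of_notMem hW]; ring
  simp only [h1]
  rw [Finset.sum_sub_distrib, Finset.sum_add_distrib, Finset.sum_sub_distrib, sum_q hd, sum_ind,
    sum_ind, sum_ind, zb_eq, zc]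
  simp only [Finset.sum_sub_distrib, Finset.sum_const, nsmul_eq_mul, mul_one]
  ring

lemma sum_rate_le (hd : 1 ≤ d) (Z A : Finset (V d L)) :
    ∑ x, rate Z A x ≤ 2 * zm Z A := by
  rw [sum_rate hd Z A]
  linarith [zc_nonneg hd Z A, zb_le Z A]

/-! ## Hölder -/

lemma holder {h : V d L → ℝ} {C0 : ℝ} (hC0 : 1 ≤ C0) (hn : ∀ x, 0 ≤ h x)
    (hs : ∑ x, h x ^ (21 / 20 : ℝ) ≤ C0) {w : V d L → ℝ} (hw0 : ∀ x, 0 ≤ w x)
    (hw1 : ∀ x, w x ≤ 1) {M : ℝ} (hM : ∑ x, w x ≤ M) (hM1 : 1 ≤ M) :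
    ∑ x, w x * h x ≤ C0 * M ^ (1 / 4 : ℝ) := by
  have hpq : Real.HolderConjugate (21 : ℝ) (21 / 20) := by
    rw [Real.holderConjugate_iff]
    norm_num
  have h1 := Real.inner_le_Lp_mul_Lq_of_nonneg (Finset.univ : Finset (V d L)) hpq
    (f := w) (g := h) (fun x _ => hw0 x) (fun x _ => hn x)
  refine h1.trans ?_
  have e1 : ∑ x, w x ^ (21 : ℝ) ≤ M := by
    refine le_trans (Finset.sum_le_sum fun x _ => ?_) hM
    calc w x ^ (21 : ℝ) ≤ w x ^ (1 : ℝ) :=
          Real.rpow_le_rpow_of_exponent_ge' (hw0 x) (hw1 x) (by norm_num) (by norm_num)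
      _ = w x := Real.rpow_one _
  have e0 : 0 ≤ ∑ x, w x ^ (21 : ℝ) := Finset.sum_nonneg fun x _ => Real.rpow_nonneg (hw0 x) _
  have e2 : (∑ x, w x ^ (21 : ℝ)) ^ (1 / 21 : ℝ) ≤ M ^ (1 / 4 : ℝ) :=
    (Real.rpow_le_rpow e0 e1 (by norm_num)).trans
      (Real.rpow_le_rpow_of_exponent_le hM1 (by norm_num))
  have e3 : (∑ x, h x ^ (21 / 20 : ℝ)) ^ (1 / (21 / 20) : ℝ) ≤ C0 := by
    have e4 : 0 ≤ ∑ x, h x ^ (21 / 20 : ℝ) := Finset.sum_nonneg fun x _ => Real.rpow_nonneg (hn x) _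
    refine (Real.rpow_le_rpow e4 hs (by norm_num)).trans ?_
    calc C0 ^ (1 / (21 / 20) : ℝ) ≤ C0 ^ (1 : ℝ) :=
          Real.rpow_le_rpow_of_exponent_le hC0 (by norm_num)
      _ = C0 := Real.rpow_one _
  have e5 : 0 ≤ M ^ (1 / 4 : ℝ) := Real.rpow_nonneg (by linarith) _
  have e6 : 0 ≤ (∑ x, h x ^ (21 / 20 : ℝ)) ^ (1 / (21 / 20) : ℝ) :=
    Real.rpow_nonneg (Finset.sum_nonneg fun x _ => Real.rpow_nonneg (hn x) _) _
  calc _ ≤ M ^ (1 / 4 : ℝ) * C0 := mul_le_mul e2 e3 e6 e5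
    _ = _ := mul_comm _ _

/-! ## The interaction -/

/-- potential of `W` at `x` -/
noncomputable def pot (h : V d L → ℝ) (W : Finset (V d L)) (x : V d L) : ℝ := ∑ y ∈ W, h (x - y)

/-- potential without the self interaction -/
noncomputable def gg (h : V d L → ℝ) (W : Finset (V d L)) (x : V d L) : ℝ := ∑ y ∈ W.erase x, h (x - y)

lemma gg_eq {h : V d L → ℝ} (h0 : h 0 = 1) (W : Finset (V d L)) (x : V d L) :
    gg h W x = pot h W x - ind W x := by
  unfold gg pot
  by_cases hx : x ∈ W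
  · rw [ind_of_mem hx, ← Finset.add_sum_erase W _ hx, sub_self, h0]; ring
  · rw [ind_of_notMem hx, Finset.erase_eq_of_notMem hx]; ring

lemma gg_nonneg {h : V d L → ℝ} (hn : ∀ x, 0 ≤ h x) (W : Finset (V d L)) (x : V d L) :
    0 ≤ gg h W x := Finset.sum_nonneg fun _ _ => hn _

lemma gg_le {h : V d L → ℝ} {C0 : ℝ} (hC0 : 1 ≤ C0) (hn : ∀ x, 0 ≤ h x)
    (hs : ∑ x, h x ^ (21 / 20 : ℝ) ≤ C0) (W : Finset (V d L)) (x : V d L) :
    gg h W x ≤ C0 * (W.card : ℝ) ^ (1 / 4 : ℝ) := by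
  rcases W.eq_empty_or_nonempty with rfl | hW
  · simp [gg]
  · have h1 : gg h W x ≤ ∑ y, ind W (x - y) * h y := by
      have e1 : ∑ y, ind W (x - y) * h y = ∑ y, ind W y * h (x - y) := by
        rw [← Equiv.sum_comp (Equiv.subLeft x)]
        simp
      rw [e1, sum_ind]
      exact Finset.sum_le_sum_of_subset_of_nonneg (Finset.erase_subset _ _) fun _ _ _ => hn _
    refine h1.trans ?_
    refine holder hC0 hn hs (fun y => ind_nonneg _ _) (fun y => ind_le_one _ _) ?_ ?_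
    · have e2 : ∑ y, ind W (x - y) = ∑ y, ind W y := by
        rw [← Equiv.sum_comp (Equiv.subLeft x)]
        simp
      rw [e2, sum_ind']
    · exact_mod_cast hW.card_pos

lemma zF_eq {h : V d L → ℝ} (h0 : h 0 = 1) (Z A : Finset (V d L)) :
    zF h Z A = ∑ x, ∑ y, ind (A ∪ Z) x * (ind (A ∪ Z) y * h (x - y)) - zm Z A := by
  have e1 : zF h Z A = ∑ x ∈ A ∪ Z, gg h (A ∪ Z) x := rfl
  rw [e1, zm_eq, ← sum_ind (A ∪ Z) (gg h (A ∪ Z)), ← sum_ind' (A ∪ Z), ← Finset.sum_sub_distrib]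
  refine Finset.sum_congr rfl fun x _ => ?_
  rw [gg_eq h0, ← Finset.mul_sum, sum_ind]
  unfold pot
  by_cases hx : x ∈ A ∪ Z
  · rw [ind_of_mem hx]; ring
  · rw [ind_of_notMem hx]; ring

lemma ind_flip {Z A : Finset (V d L)} {x : V d L} (hx : x ∉ Z) (y : V d L) :
    ind (flip A x ∪ Z) y = ind (A ∪ Z) y + (if x ∈ A then -1 else 1) * (if y = x then 1 else 0) := by
  unfold ind flip
  by_cases hxA : x ∈ A
  · rw [if_pos hxA, if_pos hxA]
    by_cases hy : y = x
    · subst hy; simp [hxA, hx]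
    · simp [hy]
  · rw [if_neg hxA, if_neg hxA]
    by_cases hy : y = x
    · subst hy; simp [hxA, hx]
    · simp [hy]

lemma zm_flip {Z A : Finset (V d L)} {x : V d L} (hx : x ∉ Z) :
    zm Z (flip A x) = zm Z A + (if x ∈ A then -1 else 1) := by
  rw [zm_eq, zm_eq, ← sum_ind', ← sum_ind']
  simp only [ind_flip hx]
  rw [Finset.sum_add_distrib, ← Finset.mul_sum]
  simp

lemma zX_flip (f : V d L → ℝ) (A : Finset (V d L)) (x : V d L) :
    zX f (flip A x) = zX f A + (if x ∈ A then -f x else f x) := by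
  unfold zX flip
  by_cases hxA : x ∈ A
  · rw [if_pos hxA, if_pos hxA, ← Finset.add_sum_erase A f hxA]; ring
  · rw [if_neg hxA, if_neg hxA, Finset.sum_insert hxA]; ring

lemma zF_flip {h : V d L → ℝ} (h0 : h 0 = 1) (hsym : ∀ x, h (-x) = h x) {Z A : Finset (V d L)}
    {x : V d L} (hx : x ∉ Z) :
    zF h Z (flip A x) = zF h Z A + (if x ∈ A then -(2 * gg h (A ∪ Z) x) else 2 * gg h (A ∪ Z) x) := by
  rw [zF_eq h0, zF_eq h0, zm_flip hx, gg_eq h0]
  set σ : ℝ := if x ∈ A then -1 else 1 with hσ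
  have hσ2 : σ * σ = 1 := by rw [hσ]; split_ifs <;> norm_num
  have e1 : ∀ u v, ind (flip A x ∪ Z) u * (ind (flip A x ∪ Z) v * h (u - v)) =
      ind (A ∪ Z) u * (ind (A ∪ Z) v * h (u - v)) +
      σ * ((if u = x then 1 else 0) * (ind (A ∪ Z) v * h (u - v))) +
      σ * (ind (A ∪ Z) u * ((if v = x then 1 else 0) * h (u - v))) +
      (if u = x then 1 else 0) * ((if v = x then 1 else 0) * h (u - v)) := by
    intro u v
    rw [ind_flip hx, ind_flip hx]
    have := hσ2
    generalize (if u = x then (1 : ℝ) else 0) = a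
    generalize (if v = x then (1 : ℝ) else 0) = b
    linear_combination (a * b * h (u - v)) * this
  simp only [e1]
  simp only [Finset.sum_add_distrib, ← Finset.mul_sum]
  have e2 : ∑ u, (if u = x then (1 : ℝ) else 0) * ∑ v, ind (A ∪ Z) v * h (u - v) =
      pot h (A ∪ Z) x := by
    simp only [ite_mul, one_mul, zero_mul, Finset.sum_ite_eq', Finset.mem_univ, if_true]
    rw [sum_ind]; rfl
  have e3 : ∑ u, ind (A ∪ Z) u * ∑ v, (if v = x then (1 : ℝ) else 0) * h (u - v) =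
      pot h (A ∪ Z) x := by
    simp only [ite_mul, one_mul, zero_mul, Finset.sum_ite_eq', Finset.mem_univ, if_true]
    rw [sum_ind]
    unfold pot
    refine Finset.sum_congr rfl fun y _ => ?_
    rw [← hsym, neg_sub]
  have e4 : ∑ u, (if u = x then (1 : ℝ) else 0) * ∑ v, (if v = x then (1 : ℝ) else 0) * h (u - v) =
      1 := by
    simp [h0]
  rw [e2, e3, e4]
  by_cases hxA : x ∈ A
  · have hW : x ∈ A ∪ Z := Finset.mem_union_left _ hxA
    rw [if_pos hxA, ind_of_mem hW, hσ, if_pos hxA]; ring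
  · have hW : x ∉ A ∪ Z := by simp [hxA, hx]
    rw [if_neg hxA, ind_of_notMem hW, hσ, if_neg hxA]; ring

/-- the main term of the generator of the interaction -/
lemma pot_identity {h : V d L → ℝ} {γ : ℝ} (h0 : h 0 = 1) (W : Finset (V d L)) :
    ∑ x, (q W x - ind W x) * gg h W x =
      ∑ x ∈ W, ∑ y ∈ W, (Pk h (x - y) - h (x - y) + (if x - y = 0 then γ else 0)) - γ * W.card +
      ∑ x ∈ W, (1 - q W x) := by
  have e1 : ∀ x, (q W x - ind W x) * gg h W x = (q W x * pot h W x - ind W x * pot h W x) +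
      ind W x * (1 - q W x) := by
    intro x
    rw [gg_eq h0]
    by_cases hx : x ∈ W
    · rw [ind_of_mem hx]; ring
    · rw [ind_of_notMem hx]; ring
  simp only [e1]
  rw [Finset.sum_add_distrib, Finset.sum_sub_distrib, sum_ind W (fun x => 1 - q W x)]
  unfold q
  rw [Pk_symm, sum_ind, sum_ind]
  have e2 : ∀ x, Pk (pot h W) x = ∑ y ∈ W, Pk h (x - y) := by
    intro x
    unfold Pk pot
    simp only [Finset.mul_sum]
    rw [Finset.sum_comm]
    refine Finset.sum_congr rfl fun y _ => Finset.sum_congr rfl fun e _ => ?_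
    rw [show x + dv e - y = x - y + dv e by abel]
  have e3 : ∑ x ∈ W, ∑ y ∈ W, (if x - y = 0 then γ else 0) = γ * W.card := by
    have : ∀ x ∈ W, ∑ y ∈ W, (if x - y = 0 then γ else 0) = γ := by
      intro x hx
      simp only [sub_eq_zero]
      rw [Finset.sum_ite_eq W x (fun _ => γ), if_pos hx]
    rw [Finset.sum_congr rfl this, Finset.sum_const, nsmul_eq_mul]; ring
  simp only [e2, Finset.sum_add_distrib, e3, Finset.sum_sub_distrib]
  unfold pot
  ring

/-- the general Lyapunov structure -/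
theorem LDgen (hd : 1 ≤ d) (Z : Finset (V d L)) (φ h : V d L → ℝ) (γ δ C0 T c b : ℝ)
    (hC0 : 1 ≤ C0) (hδ : 0 ≤ δ) (hK : Ker h γ δ C0 T) (hφ0 : ∀ x, 0 ≤ φ x) (hφ1 : ∀ x, φ x ≤ 1)
    (hφZ : ∀ x ∈ Z, φ x = 0) (hb0 : 0 ≤ b) (hb1 : b ≤ 1) (hZb : (Z.card : ℝ) ≤ 2 * b)
    (hψ : ∀ (w : V d L → ℝ) (M : ℝ), (∀ x, 0 ≤ w x) → (∀ x, w x ≤ 1) → ∑ x, w x ≤ M → 1 ≤ M →
      ∑ x, w x * (1 - φ x) ≤ b * (2 * C0 * M ^ (1 / 4 : ℝ)))
    (hc : ∀ W : Finset (V d L), Z ⊆ W → c - 2 * δ * W.card ≤ ∑ x ∈ W, (Pk φ x - φ x) ∧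
      ∑ x ∈ W, (Pk φ x - φ x) ≤ c) :
    LD (fun _ : Ar d L => ra d) (zup Z) (fun A => Disjoint A Z) (zX φ) (zF h Z) (zm Z) (zb Z)
      c γ δ (12 * C0) b := by
  have h0 := hK.h0
  have hn := hK.nn
  have hsym := hK.symm
  have hs := hK.sum
  have hm0 : ∀ A, 0 ≤ zm Z A := fun A => by rw [zm_eq]; positivity
  have hm4 : ∀ A, 0 ≤ zm Z A ^ (1 / 4 : ℝ) := fun A => Real.rpow_nonneg (hm0 A) _
  -- either `m = 0` and there is no zealot or `m ≥ 1`
  have hm1 : ∀ A, 1 ≤ zm Z A ∨ zm Z A = 0 := by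
    intro A
    rw [zm_eq]
    rcases Nat.eq_zero_or_pos (A ∪ Z).card with h | h
    · right; exact_mod_cast h
    · left; exact_mod_cast h
  have hzc0 : ∀ A, zm Z A = 0 → Z.card = 0 := by
    intro A h
    rw [zm_eq] at h
    have h' : (A ∪ Z).card = 0 := by exact_mod_cast h
    rw [Finset.card_eq_zero] at h' ⊢
    exact (Finset.union_eq_empty.1 h').2
  have hm45 : ∀ A, zm Z A * zm Z A ^ (1 / 4 : ℝ) = zm Z A ^ (5 / 4 : ℝ) := by
    intro A
    rcases hm1 A with h | h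
    · have : (5 / 4 : ℝ) = 1 + 1 / 4 := by norm_num
      rw [this, Real.rpow_add (by linarith), Real.rpow_one]
    · rw [h, Real.zero_rpow (by norm_num), Real.zero_rpow (by norm_num)]; ring
  have hm41 : ∀ A, 1 ≤ zm Z A → 1 ≤ zm Z A ^ (1 / 4 : ℝ) := fun A h =>
    Real.one_le_rpow h (by norm_num)
  -- the sum of `w (1 - φ)`
  have hψ' : ∀ (A : Finset (V d L)) (w : V d L → ℝ), (∀ x, 0 ≤ w x) → (∀ x, w x ≤ 1) →
      ∑ x, w x ≤ 2 * zm Z A → ∑ x, w x * (1 - φ x) ≤ b * (4 * C0 * zm Z A ^ (1 / 4 : ℝ)) := by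
    intro A w hw0 hw1 hw
    rcases hm1 A with h | h
    · refine (hψ w (2 * zm Z A) hw0 hw1 hw (by linarith)).trans ?_
      refine mul_le_mul_of_nonneg_left ?_ hb0
      have e1 : (2 * zm Z A) ^ (1 / 4 : ℝ) ≤ 2 * zm Z A ^ (1 / 4 : ℝ) := by
        rw [Real.mul_rpow (by norm_num) (hm0 A)]
        refine mul_le_mul_of_nonneg_right ?_ (hm4 A)
        calc (2 : ℝ) ^ (1 / 4 : ℝ) ≤ 2 ^ (1 : ℝ) :=
              Real.rpow_le_rpow_of_exponent_le (by norm_num) (by norm_num)
          _ = 2 := Real.rpow_one _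
      nlinarith
    · rw [h, mul_zero] at hw
      have e2 : ∑ x, w x * (1 - φ x) ≤ ∑ x, w x :=
        Finset.sum_le_sum fun x _ => by
          have := hw0 x; have := hφ0 x; nlinarith
      have e3 : 0 ≤ b * (4 * C0 * zm Z A ^ (1 / 4 : ℝ)) := by
        have := hm4 A
        have : 0 ≤ C0 := by linarith
        positivity
      linarith
  have hgg : ∀ A x, gg h (A ∪ Z) x ≤ C0 * zm Z A ^ (1 / 4 : ℝ) := fun A x => by
    rw [zm_eq]; exact gg_le hC0 hn hs _ _
  have hggn : ∀ A x, 0 ≤ gg h (A ∪ Z) x := fun A x => gg_nonneg hn _ _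
  have hbeta0 := fun A => zb_nonneg (L := L) hd Z A
  have hbetam := fun A => zb_le (d := d) (L := L) Z A
  -- differences
  have hmA : ∀ A x, x ∉ Z → |zm Z (flip A x) - zm Z A| = 1 := by
    intro A x hx
    rw [zm_flip hx]
    split_ifs <;> norm_num
  have hXA : ∀ A x, |zX φ (flip A x) - zX φ A| = φ x := by
    intro A x
    rw [zX_flip]
    split_ifs
    · rw [show zX φ A + -φ x - zX φ A = -φ x by ring, abs_neg, abs_of_nonneg (hφ0 x)]
    · rw [show zX φ A + φ x - zX φ A = φ x by ring, abs_of_nonneg (hφ0 x)]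
  have hFA : ∀ A x, x ∉ Z → |zF h Z (flip A x) - zF h Z A| = 2 * gg h (A ∪ Z) x := by
    intro A x hx
    have h1 := hggn A x
    rw [zF_flip h0 hsym hx]
    split_ifs
    · rw [show zF h Z A + -(2 * gg h (A ∪ Z) x) - zF h Z A = -(2 * gg h (A ∪ Z) x) by ring,
        abs_neg, abs_of_nonneg (by linarith)]
    · rw [show zF h Z A + (2 * gg h (A ∪ Z) x) - zF h Z A = (2 * gg h (A ∪ Z) x) by ring,
        abs_of_nonneg (by linarith)]
  have hrZ : ∀ A x, x ∈ Z → rate Z A x = 0 := fun A x hx => by simp [rate, hx]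
  -- the generator of `X`
  have hgX : ∀ A, gen (fun _ : Ar d L => ra d) (zup Z) (zX φ) A =
      ∑ x ∈ A ∪ Z, (Pk φ x - φ x) := by
    intro A
    unfold gen
    rw [sum_trans hd Z A (fun B => zX φ B - zX φ A) (sub_self _)]
    have e1 : ∀ x, rate Z A x * (zX φ (flip A x) - zX φ A) =
        rate Z A x * (if x ∈ A then -φ x else φ x) := by
      intro x
      rw [zX_flip]; ring
    simp only [e1]
    rw [sum_rate_sign]
    have e2 : ∑ x ∈ Z, (1 - q (A ∪ Z) x) * φ x = 0 :=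
      Finset.sum_eq_zero fun x hx => by rw [hφZ x hx, mul_zero]
    rw [e2, add_zero]
    simp only [sub_mul, Finset.sum_sub_distrib]
    unfold q
    rw [Pk_symm, sum_ind, sum_ind]
  have hgm : ∀ A, gen (fun _ : Ar d L => ra d) (zup Z) (zm Z) A = zc Z A := by
    intro A
    unfold gen
    rw [sum_trans hd Z A (fun B => zm Z B - zm Z A) (sub_self _)]
    have e1 : ∀ x, rate Z A x * (zm Z (flip A x) - zm Z A) =
        rate Z A x * (if x ∈ A then -(fun _ => (1 : ℝ)) x else (fun _ => (1 : ℝ)) x) := by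
      intro x
      by_cases hx : x ∈ Z
      · rw [hrZ A x hx]; ring
      · rw [zm_flip hx]; ring
    simp only [e1]
    rw [sum_rate_sign Z A (fun _ => (1 : ℝ))]
    simp only [mul_one]
    rw [Finset.sum_sub_distrib, sum_q hd, sum_ind', sub_self, zero_add]
    rfl
  have hgF : ∀ A, gen (fun _ : Ar d L => ra d) (zup Z) (zF h Z) A =
      2 * (∑ x ∈ A ∪ Z, ∑ y ∈ A ∪ Z, (Pk h (x - y) - h (x - y) + (if x - y = 0 then γ else 0)) -
        γ * zm Z A + zb Z A) + 2 * ∑ x ∈ Z, (1 - q (A ∪ Z) x) * gg h (A ∪ Z) x := by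
    intro A
    unfold gen
    rw [sum_trans hd Z A (fun B => zF h Z B - zF h Z A) (sub_self _)]
    have e1 : ∀ x, rate Z A x * (zF h Z (flip A x) - zF h Z A) =
        2 * (rate Z A x * (if x ∈ A then -gg h (A ∪ Z) x else gg h (A ∪ Z) x)) := by
      intro x
      by_cases hx : x ∈ Z
      · rw [hrZ A x hx]; ring
      · rw [zF_flip h0 hsym hx]
        split_ifs <;> ring
    simp only [e1]
    rw [← Finset.mul_sum, sum_rate_sign, pot_identity (γ := γ) h0, ← zb_eq, ← zm_eq]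
    ring
  -- the carré du champ of `X`
  have hΓ : ∀ A, ∑ i : Ar d L, ra d * (zX φ (zup Z i A) - zX φ A) ^ 2 =
      ∑ x, rate Z A x * φ x ^ 2 := by
    intro A
    rw [sum_trans hd Z A (fun B => (zX φ B - zX φ A) ^ 2) (by simp)]
    refine Finset.sum_congr rfl fun x _ => ?_
    rw [← hXA A x, sq_abs]
  have hC12 : (0 : ℝ) ≤ C0 := by linarith
  refine
    { rn := fun _ => ra_nonneg d
      inv := fun i A hA => zup_disj hA
      m0 := fun A _ => hm0 A
      β0 := fun A _ => hbeta0 A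
      βm := fun A _ => hbetam A
      X0 := fun A _ => Finset.sum_nonneg fun x _ => hφ0 x
      Xm := ?_
      mX := ?_
      gX := fun A _ => by rw [hgX A]; exact (hc _ Finset.subset_union_right).2
      gX' := ?_
      dX := ?_
      ΓX := ?_
      F0 := ?_
      Fm := ?_
      gF := ?_
      ΓXF := ?_
      gm := ?_
      dm := ?_
      Γm := ?_ }
  · -- Xm
    intro A _
    have e1 : zX φ A ≤ ∑ x ∈ A, (1 : ℝ) := Finset.sum_le_sum fun x _ => hφ1 x
    have e2 : ∑ x ∈ A, (1 : ℝ) ≤ zm Z A := by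
      rw [zm_eq]
      simp only [Finset.sum_const, nsmul_eq_mul, mul_one]
      exact_mod_cast Finset.card_le_card Finset.subset_union_left
    exact e1.trans e2
  · -- mX
    intro A hA
    have e1 : zm Z A - zX φ A = ∑ x, ind (A ∪ Z) x * (1 - φ x) := by
      rw [sum_ind, Finset.sum_sub_distrib, zm_eq]
      have e2 : ∑ x ∈ A ∪ Z, φ x = zX φ A := by
        rw [Finset.sum_union hA, Finset.sum_eq_zero hφZ, add_zero]; rfl
      rw [e2]; simp
    rw [e1]
    have e3 := hψ' A (ind (A ∪ Z)) (ind_nonneg _) (ind_le_one _) (by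
      rw [sum_ind', ← zm_eq]; linarith [hm0 A])
    have e4 := hm4 A
    have e5 : 0 ≤ b * (C0 * zm Z A ^ (1 / 4 : ℝ)) := by positivity
    linarith
  · -- gX'
    intro A _
    rw [hgX A]
    have e1 := (hc (A ∪ Z) Finset.subset_union_right).1
    rw [← zm_eq] at e1
    have e2 : 0 ≤ δ * zm Z A := mul_nonneg hδ (hm0 A)
    nlinarith
  · -- dX
    intro a A _
    rcases zup_cases Z A a with h | ⟨_, h⟩
    · rw [h]; simp
    · rw [h, hXA]; exact hφ1 _
  · -- ΓX
    intro A _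
    rw [hΓ A]
    have e1 : ∑ x, rate Z A x * φ x ^ 2 - 2 * zb Z A =
        -(∑ x, rate Z A x * (1 - φ x ^ 2)) - zc Z A := by
      have := sum_rate (L := L) hd Z A
      simp only [mul_sub, mul_one, Finset.sum_sub_distrib]
      rw [this]; ring
    have e2 : 0 ≤ ∑ x, rate Z A x * (1 - φ x ^ 2) := Finset.sum_nonneg fun x _ => by
      refine mul_nonneg (rate_nonneg hd Z A x) ?_
      have := hφ0 x; have := hφ1 x; nlinarith
    have e3 : ∑ x, rate Z A x * (1 - φ x ^ 2) ≤ 2 * ∑ x, rate Z A x * (1 - φ x) := by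
      rw [Finset.mul_sum]
      refine Finset.sum_le_sum fun x _ => ?_
      have h1 := rate_nonneg (L := L) hd Z A x
      have h2 := hφ0 x
      have h3 := hφ1 x
      nlinarith [mul_nonneg h1 (mul_nonneg (sub_nonneg.2 h3) (sub_nonneg.2 h3))]
    have e4 := hψ' A (rate Z A) (rate_nonneg hd Z A) (rate_le_one hd Z A) (sum_rate_le hd Z A)
    have e5 : zc Z A ≤ b * (2 * C0 * zm Z A ^ (1 / 4 : ℝ)) := by
      rcases hm1 A with h | h
      · have e6 := zc_le (d := d) (L := L) Z A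
        have e7 := hm41 A h
        have e8 : 1 ≤ C0 * zm Z A ^ (1 / 4 : ℝ) := by nlinarith
        nlinarith
      · have e6 := zc_le (d := d) (L := L) Z A
        rw [hzc0 A h] at e6
        push_cast at e6
        have e7 := hm4 A
        have : 0 ≤ b * (2 * C0 * zm Z A ^ (1 / 4 : ℝ)) := by positivity
        linarith
    have e6 := zc_nonneg (L := L) hd Z A
    rw [e1, abs_le]
    constructor <;> nlinarith
  · -- F0
    intro A _
    exact Finset.sum_nonneg fun x _ => hggn A x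
  · -- Fm
    intro A _
    have e1 : zF h Z A = ∑ x ∈ A ∪ Z, gg h (A ∪ Z) x := rfl
    have e2 : ∑ x ∈ A ∪ Z, gg h (A ∪ Z) x ≤ ∑ x ∈ A ∪ Z, C0 * zm Z A ^ (1 / 4 : ℝ) :=
      Finset.sum_le_sum fun x _ => hgg A x
    rw [Finset.sum_const, nsmul_eq_mul, ← zm_eq] at e2
    rw [e1]
    refine e2.trans ?_
    rw [← hm45]
    have := hm0 A
    have := hm4 A
    have : 0 ≤ zm Z A * zm Z A ^ (1 / 4 : ℝ) := by positivity
    nlinarith
  · -- gF
    intro A _
    rw [hgF A]
    have e1 : 2 * (∑ x ∈ A ∪ Z, ∑ y ∈ A ∪ Z,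
        (Pk h (x - y) - h (x - y) + (if x - y = 0 then γ else 0)) -
        γ * zm Z A + zb Z A) + 2 * ∑ x ∈ Z, (1 - q (A ∪ Z) x) * gg h (A ∪ Z) x -
        2 * (zb Z A - γ * zm Z A) = 2 * (∑ x ∈ A ∪ Z, ∑ y ∈ A ∪ Z,
        (Pk h (x - y) - h (x - y) + (if x - y = 0 then γ else 0))) +
        2 * ∑ x ∈ Z, (1 - q (A ∪ Z) x) * gg h (A ∪ Z) x := by ring
    rw [e1]
    have e2 : 0 ≤ ∑ x ∈ A ∪ Z, ∑ y ∈ A ∪ Z,
        (Pk h (x - y) - h (x - y) + (if x - y = 0 then γ else 0)) :=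
      Finset.sum_nonneg fun x _ => Finset.sum_nonneg fun y _ => hK.har _
    have e3 : ∑ x ∈ A ∪ Z, ∑ y ∈ A ∪ Z,
        (Pk h (x - y) - h (x - y) + (if x - y = 0 then γ else 0)) ≤ δ * zm Z A ^ 2 := by
      calc _ ≤ ∑ x ∈ A ∪ Z, ∑ y ∈ A ∪ Z, δ :=
            Finset.sum_le_sum fun x _ => Finset.sum_le_sum fun y _ => hK.har' _
        _ = δ * zm Z A ^ 2 := by
            simp only [Finset.sum_const, nsmul_eq_mul]
            rw [zm_eq]; ring
    have e4 : 0 ≤ ∑ x ∈ Z, (1 - q (A ∪ Z) x) * gg h (A ∪ Z) x :=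
      Finset.sum_nonneg fun x _ => mul_nonneg (by linarith [q_le_one hd (A ∪ Z) x]) (hggn A x)
    have e5 : ∑ x ∈ Z, (1 - q (A ∪ Z) x) * gg h (A ∪ Z) x ≤
        2 * b * (C0 * zm Z A ^ (1 / 4 : ℝ)) := by
      have e6 : ∑ x ∈ Z, (1 - q (A ∪ Z) x) * gg h (A ∪ Z) x ≤
          ∑ x ∈ Z, C0 * zm Z A ^ (1 / 4 : ℝ) := by
        refine Finset.sum_le_sum fun x _ => ?_
        have h1 := hgg A x
        have h2 := hggn A x
        have h3 := q_nonneg (A ∪ Z) x
        nlinarith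
      rw [Finset.sum_const, nsmul_eq_mul] at e6
      refine e6.trans (mul_le_mul_of_nonneg_right hZb ?_)
      have := hm4 A
      positivity
    have e7 : 0 ≤ b * (C0 * zm Z A ^ (1 / 4 : ℝ)) := by
      have := hm4 A
      positivity
    have e8 : 0 ≤ δ * zm Z A ^ 2 := by positivity
    rw [abs_of_nonneg (by linarith)]
    nlinarith
  · -- ΓXF
    intro A _
    rw [sum_trans hd Z A (fun B => |zX φ B - zX φ A| * |zF h Z B - zF h Z A|) (by simp)]
    have e1 : ∀ x, rate Z A x * (|zX φ (flip A x) - zX φ A| * |zF h Z (flip A x) - zF h Z A|) ≤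
        rate Z A x * (2 * (C0 * zm Z A ^ (1 / 4 : ℝ))) := by
      intro x
      by_cases hx : x ∈ Z
      · rw [hrZ A x hx]; simp
      · refine mul_le_mul_of_nonneg_left ?_ (rate_nonneg hd Z A x)
        rw [hXA, hFA A x hx]
        have h1 := hgg A x
        have h2 := hggn A x
        have h3 := hφ0 x
        have h4 := hφ1 x
        nlinarith
    refine (Finset.sum_le_sum fun x _ => e1 x).trans ?_
    rw [← Finset.sum_mul, ← hm45]
    have e2 := sum_rate_le (L := L) hd Z A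
    have e3 : 0 ≤ C0 * zm Z A ^ (1 / 4 : ℝ) := by
      have := hm4 A
      positivity
    have e4 : 0 ≤ zm Z A * (C0 * zm Z A ^ (1 / 4 : ℝ)) := mul_nonneg (hm0 A) e3
    nlinarith
  · -- gm
    intro A _
    rw [hgm A]
    have := zc_le (d := d) (L := L) Z A
    linarith
  · -- dm
    intro a A _
    rcases zup_cases Z A a with h | ⟨h', h⟩
    · rw [h]; simp
    · rw [h, hmA A _ h']
  · -- Γm
    intro A _
    rw [sum_trans hd Z A (fun B => |zm Z B - zm Z A|) (by simp)]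
    have e1 : ∀ x, rate Z A x * |zm Z (flip A x) - zm Z A| = rate Z A x := by
      intro x
      by_cases hx : x ∈ Z
      · rw [hrZ A x hx]; simp
      · rw [hmA A x hx, mul_one]
    simp only [e1]
    have e2 := sum_rate_le (L := L) hd Z A
    have := hm0 A
    nlinarith

/-- `Pk` of an affine function of `h` -/
lemma Pk_one_sub (hd : 1 ≤ d) (g : V d L → ℝ) (x : V d L) :
    Pk (fun y => 1 - g y) x - (1 - g x) = -(Pk g x - g x) := by
  rw [Pk_sub (fun _ => 1) g, Pk_const hd]; ring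

lemma sum_delta (W : Finset (V d L)) (v : V d L) (hv : v ∈ W) (γ : ℝ) :
    ∑ x ∈ W, (if x - v = 0 then γ else 0) = γ := by
  simp only [sub_eq_zero]
  rw [Finset.sum_ite_eq' W v (fun _ => γ), if_pos hv]

/-- the harmonicity defect summed over `W` -/
lemma defect (h : V d L → ℝ) {γ δ C0 T : ℝ} (hK : Ker h γ δ C0 T) (W : Finset (V d L)) (v : V d L)
    (hv : v ∈ W) :
    γ - δ * W.card ≤ -∑ x ∈ W, (Pk (fun y => h (y - v)) x - h (x - v)) ∧
      -∑ x ∈ W, (Pk (fun y => h (y - v)) x - h (x - v)) ≤ γ := by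
  have e1 : ∑ x ∈ W, (Pk (fun y => h (y - v)) x - h (x - v)) =
      ∑ x ∈ W, (Pk h (x - v) - h (x - v) + (if x - v = 0 then γ else 0)) - γ := by
    rw [Finset.sum_add_distrib, sum_delta W v hv γ]
    simp only [Pk_shift]
    ring
  have e2 : 0 ≤ ∑ x ∈ W, (Pk h (x - v) - h (x - v) + (if x - v = 0 then γ else 0)) :=
    Finset.sum_nonneg fun x _ => hK.har _
  have e3 : ∑ x ∈ W, (Pk h (x - v) - h (x - v) + (if x - v = 0 then γ else 0)) ≤ δ * W.card := by
    calc _ ≤ ∑ x ∈ W, δ := Finset.sum_le_sum fun x _ => hK.har' _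
      _ = δ * W.card := by rw [Finset.sum_const, nsmul_eq_mul]; ring
  rw [e1]
  constructor <;> linarith

lemma Ker.le_one {h : V d L → ℝ} {γ δ C0 T : ℝ} (hK : Ker h γ δ C0 T) (x : V d L) : h x ≤ 1 := by
  by_cases hx : x = 0
  · rw [hx, hK.h0]
  · linarith [hK.small x hx]

end LDZ_

open LDZ_

theorem t_LD1 : T_LD1 := by
  intro C0 hC0
  refine ⟨12 * C0, by linarith, fun d L h γ δ T hd hδ hδ1 hK => ?_⟩
  have hI : (fun A : Finset (V d L) => (0 : V d L) ∉ A) = fun A => Disjoint A {0} := by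
    funext A; simp
  rw [hI]
  refine LDgen hd {0} (fun x => 1 - h x) h γ δ C0 T γ 1 hC0 hδ hK ?_ ?_ ?_ zero_le_one le_rfl ?_
    ?_ ?_
  · intro x
    have := Ker.le_one hK x
    linarith
  · intro x
    have := hK.nn x
    linarith
  · intro x hx
    rw [Finset.mem_singleton] at hx
    rw [hx, hK.h0]; ring
  · simp
  · intro w M hw0 hw1 hM hM1
    have e1 := holder hC0 hK.nn hK.sum hw0 hw1 hM hM1
    have e2 : ∑ x, w x * (1 - (1 - h x)) = ∑ x, w x * h x :=
      Finset.sum_congr rfl fun x _ => by ring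
    rw [e2]
    have e3 : 0 ≤ M ^ (1 / 4 : ℝ) := Real.rpow_nonneg (by linarith) _
    nlinarith
  · intro W hW
    have h0W : (0 : V d L) ∈ W := hW (by simp)
    have e1 : ∑ x ∈ W, (Pk (fun x => 1 - h x) x - (1 - h x)) =
        -∑ x ∈ W, (Pk (fun y => h (y - 0)) x - h (x - 0)) := by
      rw [← Finset.sum_neg_distrib]
      refine Finset.sum_congr rfl fun x _ => ?_
      rw [Pk_one_sub hd]
      simp only [sub_zero]
    have e2 := defect h hK W 0 h0W
    have e3 : 0 ≤ δ * (W.card : ℝ) := by positivity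
    rw [e1]
    constructor <;> linarith [e2.1, e2.2]

theorem t_LD2 : T_LD2 := by
  intro C0 hC0
  refine ⟨12 * C0, by linarith, fun d L h γ δ T hd hδ hδ1 hK w hw => ?_⟩
  have hI : (fun A : Finset (V d L) => (0 : V d L) ∉ A ∧ w ∉ A) = fun A => Disjoint A {0, w} := by
    funext A
    apply propext
    rw [Finset.disjoint_right]
    simp
  rw [hI]
  have hw0 := hK.nn w
  have hw5 := hK.small w hw
  have hnw : h (-w) = h w := hK.symm w
  have hpos : 0 < 1 + h w := by linarith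
  refine LDgen hd {0, w} (fun x => 1 - (h x + h (x - w)) / (1 + h w)) h γ δ C0 T
    (2 * γ / (1 + h w)) 1 hC0 hδ hK ?_ ?_ ?_ zero_le_one le_rfl ?_ ?_ ?_
  · intro x
    have e1 : (h x + h (x - w)) / (1 + h w) ≤ 1 := by
      rw [div_le_one hpos]
      by_cases hx : x = 0
      · rw [hx, hK.h0, zero_sub, hnw]
      · by_cases hx' : x = w
        · rw [hx', sub_self, hK.h0]; linarith
        · have h1 := hK.small x hx
          have h2 := hK.small (x - w) (sub_ne_zero.2 hx')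
          linarith
    linarith
  · intro x
    have e1 : 0 ≤ (h x + h (x - w)) / (1 + h w) :=
      div_nonneg (add_nonneg (hK.nn _) (hK.nn _)) hpos.le
    linarith
  · intro x hx
    rw [Finset.mem_insert, Finset.mem_singleton] at hx
    have e1 : (h x + h (x - w)) / (1 + h w) = 1 := by
      rw [div_eq_one_iff_eq hpos.ne']
      rcases hx with hx | hx
      · rw [hx, hK.h0, zero_sub, hnw]
      · rw [hx, sub_self, hK.h0]; ring
    rw [e1]; ring
  · have : ({0, w} : Finset (V d L)).card ≤ 2 := Finset.card_le_two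
    have h2 : (({0, w} : Finset (V d L)).card : ℝ) ≤ 2 := by exact_mod_cast this
    linarith
  · intro u M hu0 hu1 hM hM1
    have e1 := holder hC0 hK.nn hK.sum hu0 hu1 hM hM1
    have e2 : ∑ x, u x * h (x - w) ≤ C0 * M ^ (1 / 4 : ℝ) := by
      have e3 := holder hC0 hK.nn hK.sum (w := fun x => u (x + w)) (fun x => hu0 _)
        (fun x => hu1 _) (M := M) (by
          have : ∑ x, u (x + w) = ∑ x, u x := Equiv.sum_comp (Equiv.addRight w) u
          rw [this]; exact hM) hM1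
      have e4 : ∑ x, u (x + w) * h x = ∑ x, u x * h (x - w) := by
        rw [← Equiv.sum_comp (Equiv.addRight w) (fun x => u x * h (x - w))]
        simp
      rw [← e4]; exact e3
    have e5 : ∑ x, u x * (1 - (1 - (h x + h (x - w)) / (1 + h w))) ≤
        ∑ x, u x * h x + ∑ x, u x * h (x - w) := by
      rw [← Finset.sum_add_distrib]
      refine Finset.sum_le_sum fun x _ => ?_
      have h1 : (h x + h (x - w)) / (1 + h w) ≤ h x + h (x - w) :=
        div_le_self (add_nonneg (hK.nn _) (hK.nn _)) (by linarith)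
      have h2 := hu0 x
      nlinarith
    linarith
  · intro W hW
    have h0W : (0 : V d L) ∈ W := hW (by simp)
    have hwW : w ∈ W := hW (by simp)
    have e1 : ∑ x ∈ W, (Pk (fun x => 1 - (h x + h (x - w)) / (1 + h w)) x -
        (1 - (h x + h (x - w)) / (1 + h w))) =
        (-∑ x ∈ W, (Pk (fun y => h (y - 0)) x - h (x - 0)) +
          -∑ x ∈ W, (Pk (fun y => h (y - w)) x - h (x - w))) / (1 + h w) := by
      rw [← Finset.sum_neg_distrib, ← Finset.sum_neg_distrib, ← Finset.sum_add_distrib,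
        Finset.sum_div]
      refine Finset.sum_congr rfl fun x _ => ?_
      rw [Pk_one_sub hd (fun x => (h x + h (x - w)) / (1 + h w))]
      have e2 : Pk (fun x => (h x + h (x - w)) / (1 + h w)) x =
          (Pk h x + Pk (fun y => h (y - w)) x) / (1 + h w) := by
        rw [← Pk_add, div_eq_inv_mul, ← Pk_smul]
        congr 1
        funext y
        rw [div_eq_inv_mul]
      rw [e2]
      simp only [sub_zero]
      ring
    have e2 := defect h hK W 0 h0W
    have e3 := defect h hK W w hwW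
    have e4 : 0 ≤ δ * (W.card : ℝ) := by positivity
    rw [e1]
    constructor
    · rw [le_div_iff₀ hpos]
      have e5 : (2 * γ / (1 + h w) - 2 * δ * W.card) * (1 + h w) =
          2 * γ - 2 * (δ * W.card) * (1 + h w) := by
        field_simp
      rw [e5]
      have e6 : 0 ≤ δ * (W.card : ℝ) * h w := mul_nonneg e4 hw0
      linarith [e2.1, e3.1]
    · rw [div_le_div_iff_of_pos_right hpos]
      linarith [e2.2, e3.2]

theorem t_LD0 : T_LD0 := by
  intro C0 hC0
  refine ⟨12 * C0, by linarith, fun d L h γ δ T hd hδ hδ1 hK => ?_⟩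
  have hI : (fun _ : Finset (V d L) => True) = fun A => Disjoint A ∅ := by
    funext A; simp
  rw [hI]
  refine LDgen hd ∅ (fun _ => 1) h γ δ C0 T 0 0 hC0 hδ hK ?_ ?_ ?_ le_rfl zero_le_one ?_
    ?_ ?_
  · intro x; norm_num
  · intro x; norm_num
  · intro x hx
    simp at hx
  · simp
  · intro w M hw0 hw1 hM hM1
    simp
  · intro W hW
    have e1 : ∑ x ∈ W, (Pk (fun _ => (1 : ℝ)) x - 1) = 0 :=
      Finset.sum_eq_zero fun x _ => by rw [Pk_const hd, sub_self]
    have e3 : 0 ≤ δ * (W.card : ℝ) := by positivity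
    rw [e1]
    constructor <;> linarith

end Pool.Agent.CAS
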