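import Pool.Agent.CAS.Ring

/-!
# Lumping of the literal label system on the torus
-/

open Finset Filter Topology MeasureTheory
open scoped BigOperators

namespace Pool.Agent.CAS

namespace LUMP_

variable {d L : ℕ}

/-- the projection to the locations -/
def loc (s : LS (V d L) (V d L)) (z : V d L) : Option (V d L) := (s.ld z).map s.pos

/-- the invariants -/
structure Inv (typ : V d L → Bool) (s : LS (V d L) (V d L)) : Prop where
  g : Good typ s
  g4 : ∀ a, typ a = false → s.pos a = a
  g5 : ∀ v a, s.ld v = some a → typ a = typ v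

lemma inv_init (typ : V d L → Bool) : Inv typ (LS.init id fun _ => True) := by
  classical
  refine ⟨good_init typ Function.injective_id _, fun a _ => rfl, fun v a h => ?_⟩
  simp only [LS.init] at h
  rw [if_pos trivial] at h
  simp only [Option.some.injEq] at h
  rw [h]

lemma inv_ring (typ : V d L → Bool) (brv : V d L → ℝ) (a : V d L × Dir d)
    (s : LS (V d L) (V d L)) (hs : Inv typ s) : Inv typ (ring typ brv dv a s) := by
  refine ⟨good_ring brv dv a hs.g, ?_, ?_⟩
  · have key : ∀ s' : LS (V d L) (V d L), typ a.1 = true → (∀ v, v ≠ a.1 → s'.pos v = s.pos v) →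
        ∀ b, typ b = false → s'.pos b = b := by
      intro s' ht hp b hb
      have : b ≠ a.1 := by
        rintro rfl
        rw [ht] at hb
        exact absurd hb (by simp)
      rw [hp b this]
      exact hs.g4 b hb
    rcases ring_cases typ brv dv a s with ⟨_, h⟩ | h | h | ⟨w, b, h⟩ | h
    · rw [h]; exact hs.g4
    · exact key _ h.ty h.p2
    · exact key _ h.ty h.p2
    · exact key _ h.ty h.p2
    · exact key _ h.ty h.p2
  · rcases ring_cases typ brv dv a s with ⟨_, h⟩ | h | h | ⟨w, b, h⟩ | h
    · rw [h]; exact hs.g5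
    · rw [h.ld]; exact hs.g5
    · intro v c hv
      by_cases hc : s.ld v = some a.1 ∨
          (typ v = false ∧ s.ld v = some v ∧ s.pos v = s.pos a.1 + dv a.2)
      · rw [h.ld1 v hc] at hv; simp at hv
      · rw [h.ld2 v hc] at hv; exact hs.g5 v c hv
    · have hb : typ b = true := by
        rcases h.b_or with h' | h'
        · rw [h']; exact h.ty
        · rw [h']; exact h.tw
      intro v c hv
      by_cases hc : s.ld v = some a.1 ∨ s.ld v = some w
      · rw [h.ld1 v hc] at hv
        simp only [Option.some.injEq] at hv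
        rw [← hv, hb]
        rcases hc with h' | h'
        · rw [← hs.g5 v _ h', h.ty]
        · rw [← hs.g5 v _ h', h.tw]
      · rw [h.ld2 v hc] at hv; exact hs.g5 v c hv
    · rw [h.ld]; exact hs.g5

lemma loc_eq {s : LS (V d L) (V d L)} {v a : V d L} (h : s.ld v = some a) :
    loc s v = some (s.pos a) := by
  unfold loc
  rw [h]
  rfl

lemma loc_none {s : LS (V d L) (V d L)} {v : V d L} (h : s.ld v = none) : loc s v = none := by
  unfold loc
  rw [h]
  rfl

lemma loc_iff {typ : V d L → Bool} {s : LS (V d L) (V d L)} (hs : Inv typ s) {v z : V d L}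
    (hz : s.ld z = some z) : loc s v = some (s.pos z) ↔ s.ld v = some z := by
  constructor
  · intro h
    cases hv : s.ld v with
    | none => rw [loc_none hv] at h; simp at h
    | some a =>
      rw [loc_eq hv] at h
      simp only [Option.some.injEq] at h
      rw [hs.g.g2 a z (hs.g.g1 v a hv) hz h]
  · exact loc_eq

/-- positions change only at `a` which is not the leader of `v` -/
lemma loc_congr {s s' : LS (V d L) (V d L)} {v z : V d L} (h1 : s'.ld v = s.ld v)
    (h2 : ∀ v, v ≠ z → s'.pos v = s.pos v) (h3 : s.ld v ≠ some z) : loc s' v = loc s v := by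
  cases hv : s.ld v with
  | none => rw [loc_none hv, loc_none (h1.trans hv)]
  | some a =>
    rw [loc_eq hv, loc_eq (h1.trans hv), h2 a]
    rintro rfl
    exact h3 hv

/-- nothing happens -/
lemma idle (typ : V d L → Bool) (brv : V d L → ℝ) {z : V d L} (e : Dir d)
    {s : LS (V d L) (V d L)} (hs : Inv typ s) (hz : ¬ (typ z = true ∧ s.ld z = some z)) :
    loc (ring typ brv dv (z, e) s) = loc s := by
  rcases ring_cases typ brv dv (z, e) s with ⟨_, h⟩ | h | h | ⟨w, b, h⟩ | h
  · rw [h]
  · funext v
    refine loc_congr (by rw [h.ld]) h.p2 ?_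
    intro hv
    exact h.nl (hs.g.g1 v z hv)
  · exact absurd ⟨h.ty, h.l⟩ hz
  · exact absurd ⟨h.ty, h.l⟩ hz
  · exact absurd ⟨h.ty, h.l⟩ hz

/-- a B particle at a site -/
lemma bsite {typ : V d L → Bool} {s : LS (V d L) (V d L)} (hs : Inv typ s) (y : V d L) :
    (typ y = false ∧ loc s y = some y) ↔
      ∃ w, typ w = false ∧ s.ld w = some w ∧ s.pos w = y := by
  constructor
  · rintro ⟨h1, h2⟩
    cases hv : s.ld y with
    | none => rw [loc_none hv] at h2; simp at h2
    | some a =>
      rw [loc_eq hv] at h2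
      simp only [Option.some.injEq] at h2
      refine ⟨a, (hs.g5 y a hv).trans h1, hs.g.g1 y a hv, h2⟩
  · rintro ⟨w, h1, h2, h3⟩
    have h4 : w = y := by rw [← hs.g4 w h1, h3]
    subst h4
    exact ⟨h1, by rw [loc_eq h2, h3]⟩

/-- a ring of a leader -/
lemma active (typ : V d L → Bool) (brv : V d L → ℝ) {z : V d L} (e : Dir d)
    {s : LS (V d L) (V d L)} (hs : Inv typ s) (hz : typ z = true ∧ s.ld z = some z) :
    loc (ring typ brv dv (z, e) s) = aup typ (s.pos z, e) (loc s) := by
  classical
  have hex : ∃ z', typ z' = true ∧ loc s z' = some (s.pos z) := ⟨z, hz.1, loc_eq hz.2⟩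
  have hb := bsite hs (s.pos z + dv e)
  rcases ring_cases typ brv dv (z, e) s with ⟨h', h⟩ | h | h | ⟨w, b, h⟩ | h
  · exact absurd (h'.symm.trans hz.1) (by simp)
  · exact absurd hz.2 h.nl
  · have hB := hb.2 h.ex
    unfold aup
    simp only
    rw [if_pos hex, if_pos hB]
    funext v
    have h1 : (typ v = false ∧ s.ld v = some v ∧ s.pos v = s.pos z + dv e) ↔
        v = s.pos z + dv e := by
      constructor
      · rintro ⟨h1, h2, h3⟩
        rw [← h3, hs.g4 v h1]
      · rintro rfl
        obtain ⟨w, h1, h2, h3⟩ := h.ex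
        have h4 : w = s.pos z + dv e := by rw [← hs.g4 w h1]; exact h3
        subst h4
        exact ⟨h1, h2, h3⟩
    by_cases hc : s.ld v = some z ∨ v = s.pos z + dv e
    · have hc' : loc s v = some (s.pos z) ∨ v = s.pos z + dv e := by
        rw [loc_iff hs hz.2]; exact hc
      rw [if_pos hc']
      refine loc_none (h.ld1 v ?_)
      simp only
      rw [h1]; exact hc
    · have hc' : ¬ (loc s v = some (s.pos z) ∨ v = s.pos z + dv e) := by
        rw [loc_iff hs hz.2]; exact hc
      rw [if_neg hc']
      refine loc_congr (h.ld2 v ?_) h.p2 (fun h' => hc (Or.inl h'))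
      simp only
      rw [h1]; exact hc
  · have hB : ¬ (typ (s.pos z + dv e) = false ∧ loc s (s.pos z + dv e) =
        some (s.pos z + dv e)) := by
      rw [hb]; exact h.nex
    unfold aup
    simp only
    rw [if_pos hex, if_neg hB]
    funext v
    have hpb : (ring typ brv dv (z, e) s).pos b = s.pos z + dv e := by
      by_cases hb' : b = z
      · rw [hb']; exact h.p1
      · rcases h.b_or with h' | h'
        · exact absurd h' hb'
        · rw [h.p2 b hb', h']; exact h.pw
    by_cases hc : s.ld v = some z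
    · rw [if_pos ((loc_iff hs hz.2).2 hc), loc_eq (h.ld1 v (Or.inl hc)), hpb]
    · rw [if_neg (fun h' => hc ((loc_iff hs hz.2).1 h'))]
      by_cases hc2 : s.ld v = some w
      · rw [loc_eq (h.ld1 v (Or.inr hc2)), hpb, loc_eq hc2, h.pw]
      · exact loc_congr (h.ld2 v (by rintro (h' | h'); exacts [hc h', hc2 h'])) h.p2 hc
  · have hB : ¬ (typ (s.pos z + dv e) = false ∧ loc s (s.pos z + dv e) =
        some (s.pos z + dv e)) := by
      rw [hb]; exact h.nex
    unfold aup
    simp only
    rw [if_pos hex, if_neg hB]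
    funext v
    by_cases hc : s.ld v = some z
    · have h1 : (ring typ brv dv (z, e) s).ld v = some z := by rw [h.ld]; exact hc
      rw [if_pos ((loc_iff hs hz.2).2 hc), loc_eq h1, h.p1]
    · rw [if_neg (fun h' => hc ((loc_iff hs hz.2).1 h'))]
      exact loc_congr (by rw [h.ld]) h.p2 hc

/-- no cluster at `x` -/
lemma aup_idle (typ : V d L → Bool) {x : V d L} (e : Dir d)
    {s : LS (V d L) (V d L)} (hs : Inv typ s)
    (hx : ∀ z, typ z = true → s.ld z = some z → s.pos z ≠ x) :
    aup typ (x, e) (loc s) = loc s := by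
  classical
  unfold aup
  simp only
  rw [if_neg]
  rintro ⟨z, h1, h2⟩
  cases hv : s.ld z with
  | none => rw [loc_none hv] at h2; simp at h2
  | some a =>
    rw [loc_eq hv] at h2
    simp only [Option.some.injEq] at h2
    exact hx a ((hs.g5 z a hv).trans h1) (hs.g.g1 z a hv) h2

lemma gen_loc (typ : V d L → Bool) (brv : V d L → ℝ) (f : (V d L → Option (V d L)) → ℝ)
    (s : LS (V d L) (V d L)) (hs : Inv typ s) :
    gen (fun _ : V d L × Dir d => ra d) (ring typ brv dv) (fun s => f (loc s)) s =
      gen (fun _ : Ar d L => ra d) (aup typ) f (loc s) := by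
  classical
  unfold gen
  rw [Fintype.sum_prod_type, Fintype.sum_prod_type]
  set K : Finset (V d L) := Finset.univ.filter fun z => typ z = true ∧ s.ld z = some z with hK
  have hmem : ∀ z, z ∈ K ↔ typ z = true ∧ s.ld z = some z := fun z => by
    rw [hK, Finset.mem_filter]; simp
  have h1 : ∑ z : V d L, ∑ e : Dir d, ra d * (f (loc (ring typ brv dv (z, e) s)) - f (loc s)) =
      ∑ z ∈ K, ∑ e : Dir d, ra d * (f (loc (ring typ brv dv (z, e) s)) - f (loc s)) := by
    symm
    refine Finset.sum_subset (Finset.subset_univ _) fun z _ hz => ?_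
    refine Finset.sum_eq_zero fun e _ => ?_
    rw [idle typ brv e hs (fun h => hz ((hmem z).2 h)), sub_self, mul_zero]
  have h2 : ∑ x : V d L, ∑ e : Dir d, ra d * (f (aup typ (x, e) (loc s)) - f (loc s)) =
      ∑ x ∈ K.image s.pos, ∑ e : Dir d, ra d * (f (aup typ (x, e) (loc s)) - f (loc s)) := by
    symm
    refine Finset.sum_subset (Finset.subset_univ _) fun x _ hx => ?_
    refine Finset.sum_eq_zero fun e _ => ?_
    rw [aup_idle typ e hs (fun z h1 h2 h3 => hx (Finset.mem_image.2 ⟨z, (hmem z).2 ⟨h1, h2⟩, h3⟩)),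
      sub_self, mul_zero]
  rw [h1, h2, Finset.sum_image]
  · refine Finset.sum_congr rfl fun z hz => Finset.sum_congr rfl fun e _ => ?_
    rw [active typ brv e hs ((hmem z).1 hz)]
  · intro z hz z' hz' h
    exact hs.g.g2 z z' ((hmem z).1 hz).2 ((hmem z').1 hz').2 h

end LUMP_

open LUMP_ in
theorem t_LUMP : T_LUMP := by
  intro d L typ brv t o hd ht
  have h1 := sg_lump (r := fun _ : V d L × Dir d => ra d) (φ := ring typ brv dv)
    (r' := fun _ : Ar d L => ra d) (ψ := aup typ) (fun _ => ra_nonneg d) (fun _ => ra_nonneg d)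
    (Inv := Inv typ) (fun a s hs => inv_ring typ brv a s hs) loc
    (fun f s hs => gen_loc typ brv f s hs) ht
    (fun l : V d L → Option (V d L) => if typ o = true ∧ l o ≠ none then 1 else 0)
    (inv_init typ)
  have h2 : loc (LS.init (id : V d L → V d L) fun _ => True) = fun z => some z := by
    classical
    funext z
    unfold loc LS.init
    simp
  rw [h2] at h1
  rw [← h1]
  congr 1
  funext s
  have : (loc s o ≠ none) ↔ s.ld o ≠ none := by
    unfold loc
    simp
  simp only [this]

end Pool.Agent.CAS
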