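import Pool.Agent.CAS.Dirs

/-!
# The annihilating-coalescing system with immobile B particles: literal definition

Every site `z` of `ℤ^d` is the label of one particle, started at `z`. `typ z = true` means that it
is an A particle, `typ z = false` that it is a B particle. `brv z` is its bravery. Every particle
has its own rate one Poisson clock and its own random walk path; B particles do not move
(`λ_B = 0`, `λ_A = 1`).
-/

open Finset Filter Topology MeasureTheory
open scoped BigOperators ENNReal

namespace Pool.Agent.CAS

/-- State of a system of particles with labels in `ι` on the group `G`: `pos z` is the present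
position of the walk of the particle `z`; `ld z` is the label of the leader of the cluster which
contains `z` (the member whose path and bravery are used), `none` if `z` has been annihilated (or
is not present). -/
structure LS (ι G : Type) where
  pos : ι → G
  ld : ι → Option ι

instance (ι G : Type) [Finite ι] [Finite G] : Finite (LS ι G) :=
  Finite.of_injective (fun s : LS ι G => (s.pos, s.ld)) (by
    rintro ⟨a, b⟩ ⟨a', b'⟩ h
    simp only [Prod.mk.injEq] at h
    obtain ⟨h1, h2⟩ := h
    subst h1; subst h2; rfl)

open Classical in
/-- One ring of the clock of the particle `a.1`, with step direction `a.2`.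
* B particles do not move.
* The walk of `z = a.1` makes a step to `y`, whether or not `z` leads an alive cluster.
* If `z` leads an alive cluster, this cluster moves to `y`. At most one cluster or B particle is
  at `y`. If there is an alive B particle at `y`, the cluster and the B particle annihilate. If
  there is an alive A cluster with leader `w` at `y`, both clusters merge, and the braver one of
  `z` and `w` leads the new cluster. -/
noncomputable def ring {ι G E : Type} [AddCommGroup G] (typ : ι → Bool) (brv : ι → ℝ)
    (step : E → G) (a : ι × E) (s : LS ι G) : LS ι G :=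
  if typ a.1 = false then s
  else if s.ld a.1 ≠ some a.1 then ⟨Function.update s.pos a.1 (s.pos a.1 + step a.2), s.ld⟩
  else if ∃ w, typ w = false ∧ s.ld w = some w ∧ s.pos w = s.pos a.1 + step a.2 then
    ⟨Function.update s.pos a.1 (s.pos a.1 + step a.2), fun v =>
      if s.ld v = some a.1 ∨
        (typ v = false ∧ s.ld v = some v ∧ s.pos v = s.pos a.1 + step a.2) then none
      else s.ld v⟩
  else if h : ∃ w, w ≠ a.1 ∧ s.ld w = some w ∧ s.pos w = s.pos a.1 + step a.2 then
    ⟨Function.update s.pos a.1 (s.pos a.1 + step a.2), fun v =>
      if s.ld v = some a.1 ∨ s.ld v = some h.choose then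
        some (if brv h.choose < brv a.1 then a.1 else h.choose)
      else s.ld v⟩
  else ⟨Function.update s.pos a.1 (s.pos a.1 + step a.2), s.ld⟩

open Classical in
/-- The initial state with the particles of `J` only -/
noncomputable def LS.init {ι G : Type} (start : ι → G) (J : ι → Prop) : LS ι G :=
  ⟨start, fun z => if J z then some z else none⟩

/-- sites of `ℤ^d` -/
abbrev Zd (d : ℕ) := Fin d → ℤ

/-- the unit vector in direction `e` -/
def dz {d : ℕ} (e : Dir d) : Zd d := Pi.single e.1 (if e.2 then 1 else -1)

/-- the box `[-m, m]^d` -/
noncomputable def box (d m : ℕ) : Finset (Zd d) := Fintype.piFinset fun _ : Fin d => Finset.Icc (-(m : ℤ)) m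

/-- The randomness: types, braveries, for every particle `z` and every `n : ℕ` the number
`cnt (z, n)` of rings of the clock of `z` in the time interval `[n, n + 1]`, the times
`n + tim (z, n, k)`, `k < cnt (z, n)`, of these rings, and the directions `dir (z, n, k)` of the
steps made at these rings. -/
structure Om (d : ℕ) where
  typ : Zd d → Bool
  brv : Zd d → ℝ
  cnt : Zd d × ℕ → ℕ
  tim : Zd d × ℕ × ℕ → ℝ
  dir : Zd d × ℕ × ℕ → Dir d

/-- the same as a product type, in order to have a product measure -/
abbrev Omp (d : ℕ) := (Zd d → Bool) × (Zd d → ℝ) × (Zd d × ℕ → ℕ) × (Zd d × ℕ × ℕ → ℝ) ×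
  (Zd d × ℕ × ℕ → Dir d)

/-- components -/
def Omp.toOm {d : ℕ} (ω : Omp d) : Om d := ⟨ω.1, ω.2.1, ω.2.2.1, ω.2.2.2.1, ω.2.2.2.2⟩

/-- the Bernoulli measure: `true` (A particle) with probability `p` -/
noncomputable def berM (p : ℝ) : Measure Bool :=
  ENNReal.ofReal p • Measure.dirac true + ENNReal.ofReal (1 - p) • Measure.dirac false

/-- the uniform distribution on `[0, 1]` -/
noncomputable def uniM : Measure ℝ := volume.restrict (Set.Icc 0 1)

/-- the uniform distribution on the directions -/
noncomputable def dirM (d : ℕ) : Measure (Dir d) := ENNReal.ofReal (ra d) • Measure.count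

/-- the law of the clocks and of the directions -/
noncomputable def clkM (d : ℕ) :
    Measure ((Zd d × ℕ → ℕ) × (Zd d × ℕ × ℕ → ℝ) × (Zd d × ℕ × ℕ → Dir d)) :=
  (Measure.infinitePi fun _ : Zd d × ℕ => ProbabilityTheory.poissonMeasure 1).prod <|
  (Measure.infinitePi fun _ : Zd d × ℕ × ℕ => uniM).prod
  (Measure.infinitePi fun _ : Zd d × ℕ × ℕ => dirM d)

/-- The law of the randomness: everything is independent, types are A with probability `p`,
braveries are uniform on `[0, 1]`, numbers of rings are Poisson with parameter one, ring times are
uniform in their unit time interval (so that the rings of each particle form a Poisson process of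
rate one) and directions are uniform. -/
noncomputable def casM (d : ℕ) (p : ℝ) : Measure (Omp d) :=
  (Measure.infinitePi fun _ : Zd d => berM p).prod <|
  (Measure.infinitePi fun _ : Zd d => uniM).prod (clkM d)

/-- the rings of the clocks of the particles in the finite set `B` up to time `T` -/
def evs {d : ℕ} (cnt : Zd d × ℕ → ℕ) (B : Finset (Zd d)) (T : ℕ) : Finset (Zd d × ℕ × ℕ) :=
  (B ×ˢ Finset.range T).biUnion fun q => (Finset.range (cnt q)).image fun k => (q.1, q.2, k)

open Classical in
/-- The rings in chronological order, with their directions; the ring `a = (z, n, k)` takes place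
at time `n + tim a`. -/
noncomputable def rgs {d : ℕ} (cnt : Zd d × ℕ → ℕ) (tim : Zd d × ℕ × ℕ → ℝ)
    (dir : Zd d × ℕ × ℕ → Dir d) (B : Finset (Zd d)) (T : ℕ) : List (Zd d × Dir d) :=
  ((evs cnt B T).toList.insertionSort fun a b => (a.2.1 : ℝ) + tim a ≤ (b.2.1 : ℝ) + tim b).map
    fun a => (a.1, dir a)

/-- the rings in chronological order -/
noncomputable def Om.rings {d : ℕ} (ω : Om d) (B : Finset (Zd d)) (T : ℕ) :
    List (Zd d × Dir d) := rgs ω.cnt ω.tim ω.dir B T

/-- the state at time `T` of the system which consists of the particles in the box `[-m, m]^d` -/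
noncomputable def Om.run {d : ℕ} (ω : Om d) (m T : ℕ) : LS (Zd d) (Zd d) :=
  (ω.rings (box d m) T).foldl (fun s a => ring ω.typ ω.brv dz a s)
    (LS.init id fun z => z ∈ box d m)

/-- The final theorem. -/
def Final : Prop := ∀ (d : ℕ), 100 ≤ d → ∀ p : ℝ, 0 ≤ p → p < 1 →
  ∀ᵐ ω ∂(casM d p), ω.toOm.typ 0 = true → ∃ T : ℕ, ∀ᶠ m in atTop,
    (ω.toOm.run m T).ld 0 = none

end Pool.Agent.CAS
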