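import Pool.Agent.CAS.Basic

open Finset Filter Topology MeasureTheory
open scoped BigOperators

namespace Pool.Agent.CAS

set_option linter.unusedSectionVars false

namespace MIX_

variable {d L : ℕ}

/-! ### The norm on the torus -/

/-- the `l1` norm on the torus -/
def nrm (x : V d L) : ℕ := ∑ i, (x i).valMinAbs.natAbs

lemma nrm_add_le (x y : V d L) : nrm (x + y) ≤ nrm x + nrm y := by
  unfold nrm
  rw [← Finset.sum_add_distrib]
  refine Finset.sum_le_sum fun i _ => ?_
  exact (ZMod.natAbs_valMinAbs_add_le _ _).trans (Int.natAbs_add_le _ _)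

lemma nrm_dv_le (e : Dir d) : nrm (dv e : V d L) ≤ 1 := by
  unfold nrm dv
  rw [Finset.sum_eq_single e.1]
  · rw [Pi.single_eq_same]
    have h1 : ((1 : ZMod (L + 1)).valMinAbs.natAbs) ≤ 1 := by
      have h := ZMod.natAbs_valMinAbs_le (1 : ZMod (L + 1))
      rcases Nat.lt_or_ge L 1 with h0 | h0
      · have : L = 0 := by omega
        subst this
        omega
      · rcases Nat.lt_or_ge L 2 with h2 | h2
        · have : L = 1 := by omega
          subst this
          omega
        · have e1 : (1 : ZMod (L + 1)).valMinAbs = 1 := by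
            rw [ZMod.valMinAbs_def_pos]
            have : (1 : ZMod (L + 1)).val = 1 := by
              rw [ZMod.val_one_eq_one_mod]
              exact Nat.mod_eq_of_lt (by omega)
            rw [this, if_pos (by omega)]
            rfl
          rw [e1]
          rfl
    by_cases hb : e.2 = true
    · rw [if_pos hb]; exact h1
    · rw [if_neg hb, ZMod.natAbs_valMinAbs_neg]; exact h1
  · intro i _ hi
    rw [Pi.single_eq_of_ne hi]
    simp
  · intro h
    exact absurd (Finset.mem_univ _) h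

/-- exponential weights -/
noncomputable def wgt (v x : V d L) : ℝ := Real.exp (-(nrm (x - v) : ℝ))

lemma wgt_pos (v x : V d L) : 0 < wgt v x := Real.exp_pos _

lemma wgt_self (v : V d L) : wgt v v = 1 := by
  unfold wgt nrm
  simp

lemma wgt_step (v x : V d L) (e : Dir d) : wgt v (x + dv e) ≤ Real.exp 1 * wgt v x := by
  unfold wgt
  rw [← Real.exp_add]
  apply Real.exp_le_exp.2
  have h1 : nrm (x - v) ≤ nrm (x + dv e - v) + 1 := by
    have h2 := nrm_add_le (x + dv e - v) (-dv e)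
    rw [show x + dv e - v + -dv e = x - v by abel] at h2
    have h3 : nrm (-dv e : V d L) ≤ 1 := by
      rw [← dv_opp]
      exact nrm_dv_le _
    omega
  have h2 : (nrm (x - v) : ℝ) ≤ nrm (x + dv e - v) + 1 := by exact_mod_cast h1
  linarith

lemma nrm_of_notMem {R : ℕ} {x : V d L} (h : x ∉ bal R) : R < nrm x := by
  unfold bal at h
  rw [Fintype.mem_piFinset] at h
  push Not at h
  obtain ⟨i, hi⟩ := h
  have h1 : R < (x i).valMinAbs.natAbs := by
    by_contra hcon
    push Not at hcon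
    apply hi
    rw [Finset.mem_image]
    refine ⟨(x i).valMinAbs, ?_, ZMod.coe_valMinAbs _⟩
    rw [Finset.mem_Icc]
    omega
  refine h1.trans_le ?_
  unfold nrm
  exact Finset.single_le_sum (f := fun i => (x i).valMinAbs.natAbs) (fun _ _ => Nat.zero_le _)
    (Finset.mem_univ i)

lemma sub_mem_bal {R : ℕ} {x y : V d L} (hx : x ∈ bal R) (hy : y ∈ bal R) :
    x - y ∈ bal (2 * R) := by
  unfold bal at *
  rw [Fintype.mem_piFinset] at *
  intro i
  obtain ⟨k, hk, hk'⟩ := Finset.mem_image.1 (hx i)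
  obtain ⟨l, hl, hl'⟩ := Finset.mem_image.1 (hy i)
  rw [Finset.mem_Icc] at hk hl
  rw [Finset.mem_image]
  refine ⟨k - l, ?_, ?_⟩
  · rw [Finset.mem_Icc]
    push_cast
    omega
  · rw [Pi.sub_apply, ← hk', ← hl']
    push_cast
    ring

lemma summable_half : Summable (fun k : ℤ => Real.exp (-((k.natAbs : ℝ) / 2))) := by
  have h1 : Summable (fun n : ℕ => Real.exp ((n : ℝ) * (-(1 / 2)))) :=
    Real.summable_exp_nat_mul_iff.2 (by norm_num)
  refine Summable.of_nat_of_neg ?_ ?_
  · refine h1.congr fun n => ?_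
    rw [Int.natAbs_natCast]
    congr 1
    ring
  · refine h1.congr fun n => ?_
    rw [Int.natAbs_neg, Int.natAbs_natCast]
    congr 1
    ring

/-- the constant bounding the sums of the weights in one coordinate -/
noncomputable def C1 : ℝ := ∑' k : ℤ, Real.exp (-((k.natAbs : ℝ) / 2))

lemma C1_nonneg : 0 ≤ C1 := tsum_nonneg fun _ => (Real.exp_pos _).le

lemma sum_half_le : ∑ x : V d L, Real.exp (-((nrm x : ℝ) / 2)) ≤ C1 ^ d := by
  have h1 : ∀ x : V d L, Real.exp (-((nrm x : ℝ) / 2)) =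
      ∏ i, Real.exp (-(((x i).valMinAbs.natAbs : ℝ) / 2)) := by
    intro x
    rw [← Real.exp_sum]
    congr 1
    unfold nrm
    push_cast
    rw [Finset.sum_neg_distrib, Finset.sum_div]
  have h2 : ∑ x : V d L, Real.exp (-((nrm x : ℝ) / 2)) =
      ∏ _i : Fin d, ∑ k : ZMod (L + 1), Real.exp (-((k.valMinAbs.natAbs : ℝ) / 2)) := by
    rw [Finset.prod_univ_sum, Fintype.piFinset_univ]
    exact Finset.sum_congr rfl fun x _ => h1 x
  have h3 : ∑ k : ZMod (L + 1), Real.exp (-((k.valMinAbs.natAbs : ℝ) / 2)) ≤ C1 := by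
    have h4 : ∑ k : ZMod (L + 1), Real.exp (-((k.valMinAbs.natAbs : ℝ) / 2)) =
        ∑ j ∈ (Finset.univ : Finset (ZMod (L + 1))).image ZMod.valMinAbs,
          Real.exp (-((j.natAbs : ℝ) / 2)) := by
      rw [Finset.sum_image]
      intro a _ b _ hab
      exact ZMod.injective_valMinAbs hab
    rw [h4]
    exact summable_half.sum_le_tsum _ fun _ _ => (Real.exp_pos _).le
  rw [h2]
  calc ∏ _i : Fin d, ∑ k : ZMod (L + 1), Real.exp (-((k.valMinAbs.natAbs : ℝ) / 2))
      ≤ ∏ _i : Fin d, C1 := Finset.prod_le_prod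
        (fun _ _ => Finset.sum_nonneg fun _ _ => (Real.exp_pos _).le) (fun _ _ => h3)
    _ = C1 ^ d := by simp

/-- the weight outside of the ball of radius `R` around `v` -/
lemma sum_out_le (v : V d L) (R : ℕ) :
    ∑ x ∈ Finset.univ.filter (fun x : V d L => x - v ∉ bal R), wgt v x ≤
      Real.exp (-((R : ℝ) / 2)) * C1 ^ d := by
  have h1 : ∀ x ∈ Finset.univ.filter (fun x : V d L => x - v ∉ bal R), wgt v x ≤
      Real.exp (-((R : ℝ) / 2)) * Real.exp (-((nrm (x - v) : ℝ) / 2)) := by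
    intro x hx
    rw [Finset.mem_filter] at hx
    have h2 : (R : ℝ) ≤ nrm (x - v) := by exact_mod_cast (nrm_of_notMem hx.2).le
    unfold wgt
    rw [← Real.exp_add]
    apply Real.exp_le_exp.2
    linarith
  calc ∑ x ∈ Finset.univ.filter (fun x : V d L => x - v ∉ bal R), wgt v x
      ≤ ∑ x ∈ Finset.univ.filter (fun x : V d L => x - v ∉ bal R),
          Real.exp (-((R : ℝ) / 2)) * Real.exp (-((nrm (x - v) : ℝ) / 2)) :=
        Finset.sum_le_sum h1
    _ ≤ ∑ x : V d L, Real.exp (-((R : ℝ) / 2)) * Real.exp (-((nrm (x - v) : ℝ) / 2)) :=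
        Finset.sum_le_sum_of_subset_of_nonneg (Finset.filter_subset _ _)
          fun _ _ _ => by positivity
    _ = Real.exp (-((R : ℝ) / 2)) * ∑ x : V d L, Real.exp (-((nrm x : ℝ) / 2)) := by
        rw [← Finset.mul_sum, ← Equiv.sum_comp (Equiv.subRight v)
          (fun x : V d L => Real.exp (-((nrm x : ℝ) / 2)))]
        rfl
    _ ≤ _ := by gcongr; exact sum_half_le

/-! ### Good sites -/

/-- the information at the site `x` is the same in `s` and `s'` -/
def good (s s' : FS d L) (x : V d L) : Prop :=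
  (∀ z, s.pos z = x ↔ s'.pos z = x) ∧ (x ∈ s.vis ↔ x ∈ s'.vis) ∧
    ∀ z, s.pos z = x → (z ∈ s.dead ↔ z ∈ s'.dead)

lemma good_refl (s : FS d L) (x : V d L) : good s s x :=
  ⟨fun _ => Iff.rfl, Iff.rfl, fun _ _ => Iff.rfl⟩

lemma good_symm {s s' : FS d L} {x : V d L} (h : good s s' x) : good s' s x :=
  ⟨fun z => (h.1 z).symm, h.2.1.symm, fun z hz => (h.2.2 z ((h.1 z).2 hz)).symm⟩

lemma good_trans {s s' s'' : FS d L} {x : V d L} (h : good s s' x) (h' : good s' s'' x) :
    good s s'' x :=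
  ⟨fun z => (h.1 z).trans (h'.1 z), h.2.1.trans h'.2.1,
    fun z hz => (h.2.2 z hz).trans (h'.2.2 z ((h.1 z).1 hz))⟩

/-- sites which are not touched by the arrow -/
lemma good_one (a : Ar d L × Bool) (s : FS d L) {v : V d L} (h1 : v ≠ a.1.1)
    (h2 : v ≠ a.1.1 + dv a.1.2) : good (fup a s) s v := by
  have hp : ∀ z, (fup a s).pos z = v ↔ s.pos z = v := by
    intro z
    rw [fup_pos]
    split_ifs with h
    · constructor
      · intro h3; exact absurd h3.symm h2
      · intro h3; exact absurd (h3.symm.trans h) h1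
    · exact Iff.rfl
  refine ⟨hp, ?_, fun z hz => ?_⟩
  · rw [mem_fup_vis]
    constructor
    · rintro (⟨h3, -⟩ | h3)
      · exact absurd h3 h2
      · exact h3
    · exact Or.inr
  · have h3 := (hp z).1 hz
    rw [mem_fup_dead]
    constructor
    · rintro (h4 | ⟨h4, -⟩)
      · exact h4
      · exact absurd (h3.symm.trans h4) h1
    · exact Or.inl

lemma good_both (a : Ar d L × Bool) {s s' : FS d L} {v : V d L}
    (h2 : v ≠ a.1.1 + dv a.1.2) (h : good s s' v) : good (fup a s) (fup a s') v := by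
  by_cases h1 : v = a.1.1
  · have hp : ∀ (s : FS d L) z, ¬ (fup a s).pos z = v := by
      intro s z
      rw [fup_pos]
      split_ifs with h3
      · exact fun h4 => h2 h4.symm
      · exact fun h4 => h3 (h4.trans h1)
    refine ⟨fun z => ⟨fun h3 => absurd h3 (hp s z), fun h3 => absurd h3 (hp s' z)⟩, ?_,
      fun z hz => absurd hz (hp s z)⟩
    rw [mem_fup_vis, mem_fup_vis]
    constructor
    · rintro (⟨h3, -⟩ | h3)
      · exact absurd h3 h2
      · exact Or.inr (h.2.1.1 h3)
    · rintro (⟨h3, -⟩ | h3)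
      · exact absurd h3 h2
      · exact Or.inr (h.2.1.2 h3)
  · exact good_trans (good_one a s h1 h2) (good_trans h (good_symm (good_one a s' h1 h2)))

lemma good_both_y (a : Ar d L × Bool) {s s' : FS d L}
    (h1 : good s s' a.1.1) (h2 : good s s' (a.1.1 + dv a.1.2)) :
    good (fup a s) (fup a s') (a.1.1 + dv a.1.2) := by
  set y := a.1.1 + dv a.1.2 with hy
  have hp : ∀ (s : FS d L) z, (fup a s).pos z = y ↔ (s.pos z = a.1.1 ∨ s.pos z = y) := by
    intro s z
    rw [fup_pos]
    split_ifs with h3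
    · simp [h3, hy]
    · simp [h3]
  have ho : s.oth a.1.1 y ↔ s'.oth a.1.1 y := by
    unfold FS.oth
    simp only [h1.1]
  refine ⟨fun z => ?_, ?_, fun z hz => ?_⟩
  · rw [hp, hp, h1.1, h2.1]
  · rw [mem_fup_vis, mem_fup_vis, ← hy, ho, h2.2.1]
  · rw [mem_fup_dead, mem_fup_dead, ← hy, ho, h2.2.1, h1.1 z]
    have h3 : z ∈ s.dead ↔ z ∈ s'.dead := by
      rcases (hp s z).1 hz with h4 | h4
      · exact h1.2.2 z h4
      · exact h2.2.2 z h4
    rw [h3]

/-- the local process: only arrows starting in `B` are used -/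
noncomputable def lup (B : Finset (V d L)) (a : Ar d L × Bool) (s : FS d L) : FS d L :=
  if a.1.1 ∈ B then fup a s else s

open Classical in
/-- indicator of bad sites -/
noncomputable def bd (s s' : FS d L) (x : V d L) : ℝ := if good s s' x then 0 else 1

lemma bd_nonneg (s s' : FS d L) (x : V d L) : 0 ≤ bd s s' x := by
  unfold bd; split_ifs <;> norm_num

lemma bd_le_one (s s' : FS d L) (x : V d L) : bd s s' x ≤ 1 := by
  unfold bd; split_ifs <;> norm_num

lemma bd_good {s s' : FS d L} {x : V d L} (h : good s s' x) : bd s s' x = 0 := by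
  unfold bd; rw [if_pos h]

lemma bd_not {s s' : FS d L} {x : V d L} (h : ¬ good s s' x) : bd s s' x = 1 := by
  unfold bd; rw [if_neg h]

/-- the weighted number of bad sites -/
noncomputable def Wt (v : V d L) (s s' : FS d L) : ℝ := ∑ x, bd s s' x * wgt v x

lemma bd_step (B : Finset (V d L)) (a : Ar d L × Bool) (s s' : FS d L) (x : V d L) :
    bd (fup a s) (lup B a s') x ≤ bd s s' x +
      (if x = a.1.1 + dv a.1.2 then bd s s' a.1.1 + bd s s' (a.1.1 + dv a.1.2) else 0) +
      (if a.1.1 ∈ B then 0 else (if x = a.1.1 then 1 else 0) +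
        (if x = a.1.1 + dv a.1.2 then 1 else 0)) := by
  set y := a.1.1 + dv a.1.2 with hy
  have n1 := bd_nonneg s s' x
  have n2 := bd_nonneg s s' a.1.1
  have n3 := bd_nonneg s s' y
  have n4 := bd_le_one (fup a s) (lup B a s') x
  by_cases hB : a.1.1 ∈ B
  · rw [if_pos hB, add_zero]
    have hl : lup B a s' = fup a s' := by unfold lup; rw [if_pos hB]
    rw [hl] at n4 ⊢
    by_cases hx : x = y
    · subst hx
      rw [if_pos rfl]
      by_cases g1 : good s s' a.1.1
      · by_cases g2 : good s s' y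
        · rw [bd_good (good_both_y a g1 g2)]
          linarith
        · rw [bd_not g2]
          linarith
      · rw [bd_not g1]
        linarith
    · rw [if_neg hx, add_zero]
      by_cases g : good s s' x
      · rw [bd_good (good_both a hx g)]
        exact n1
      · rw [bd_not g]
        exact n4
  · rw [if_neg hB]
    have hl : lup B a s' = s' := by unfold lup; rw [if_neg hB]
    rw [hl] at n4 ⊢
    by_cases hx : x = y
    · rw [if_pos hx, if_pos hx]
      have : (0 : ℝ) ≤ if x = a.1.1 then 1 else 0 := by split_ifs <;> norm_num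
      linarith
    · rw [if_neg hx, if_neg hx]
      by_cases hx' : x = a.1.1
      · rw [if_pos hx']
        linarith
      · rw [if_neg hx']
        by_cases g : good s s' x
        · rw [bd_good (good_trans (good_one a s hx' hx) g)]
          linarith
        · rw [bd_not g]
          linarith

lemma Wt_step (B : Finset (V d L)) (v : V d L) (a : Ar d L × Bool) (s s' : FS d L) :
    Wt v (fup a s) (lup B a s') - Wt v s s' ≤
      (bd s s' a.1.1 * (Real.exp 1 * wgt v a.1.1) +
        bd s s' (a.1.1 + dv a.1.2) * wgt v (a.1.1 + dv a.1.2)) +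
      (if a.1.1 ∈ B then 0 else (1 + Real.exp 1) * wgt v a.1.1) := by
  set y := a.1.1 + dv a.1.2 with hy
  have h1 : Wt v (fup a s) (lup B a s') ≤ Wt v s s' +
      (bd s s' a.1.1 + bd s s' y) * wgt v y +
      (if a.1.1 ∈ B then 0 else wgt v a.1.1 + wgt v y) := by
    unfold Wt
    calc ∑ x, bd (fup a s) (lup B a s') x * wgt v x
        ≤ ∑ x, (bd s s' x +
            (if x = y then bd s s' a.1.1 + bd s s' y else 0) +
            (if a.1.1 ∈ B then 0 else (if x = a.1.1 then 1 else 0) +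
            (if x = y then 1 else 0))) * wgt v x :=
          Finset.sum_le_sum fun x _ => mul_le_mul_of_nonneg_right (bd_step B a s s' x)
            (wgt_pos v x).le
      _ = _ := by
          simp only [add_mul, Finset.sum_add_distrib, ite_mul, zero_mul, Finset.sum_ite_eq',
            Finset.mem_univ, if_true]
          congr 1
          by_cases hB : a.1.1 ∈ B
          · simp [hB]
          · simp only [if_neg hB, one_mul, Finset.sum_add_distrib, Finset.sum_ite_eq',
              Finset.mem_univ, if_true]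
  have h2 : wgt v y ≤ Real.exp 1 * wgt v a.1.1 := wgt_step v _ _
  have h3 := bd_nonneg s s' a.1.1
  have h4 : bd s s' a.1.1 * wgt v y ≤ bd s s' a.1.1 * (Real.exp 1 * wgt v a.1.1) :=
    mul_le_mul_of_nonneg_left h2 h3
  by_cases hB : a.1.1 ∈ B
  · rw [if_pos hB] at h1 ⊢
    nlinarith
  · rw [if_neg hB] at h1 ⊢
    nlinarith

/-- the rates of the coins add up -/
lemma sum_rc {ε : ℝ} (g : Ar d L → ℝ) :
    ∑ a : Ar d L × Bool, rc d L ε a * g a.1 = ∑ x, ∑ e : Dir d, ra d * g (x, e) := by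
  rw [Fintype.sum_prod_type, Fintype.sum_prod_type]
  refine Finset.sum_congr rfl fun x _ => Finset.sum_congr rfl fun e _ => ?_
  simp only [Fintype.sum_bool, rc, if_true, Bool.false_eq_true, if_false]
  ring

lemma gen_Wt {ε : ℝ} (hd : 1 ≤ d) (h0 : 0 ≤ ε) (h1 : ε ≤ 1) (B : Finset (V d L)) (v : V d L)
    (s : FS d L × FS d L) :
    gen (rc d L ε) (fun a s => (fup a s.1, lup B a s.2))
      (fun s => Wt v s.1 s.2 + ∑ x ∈ Finset.univ.filter (fun x => x ∉ B), wgt v x) s ≤
    (1 + Real.exp 1) * (Wt v s.1 s.2 + ∑ x ∈ Finset.univ.filter (fun x => x ∉ B), wgt v x) := by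
  have h2 : gen (rc d L ε) (fun a s => (fup a s.1, lup B a s.2))
      (fun s => Wt v s.1 s.2 + ∑ x ∈ Finset.univ.filter (fun x => x ∉ B), wgt v x) s ≤
      ∑ a : Ar d L × Bool, rc d L ε a * ((bd s.1 s.2 a.1.1 * (Real.exp 1 * wgt v a.1.1) +
        bd s.1 s.2 (a.1.1 + dv a.1.2) * wgt v (a.1.1 + dv a.1.2)) +
      (if a.1.1 ∈ B then 0 else (1 + Real.exp 1) * wgt v a.1.1)) := by
    unfold gen
    refine Finset.sum_le_sum fun a _ => mul_le_mul_of_nonneg_left ?_ (rc_nonneg h0 h1 a)
    have := Wt_step B v a s.1 s.2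
    linarith
  refine h2.trans (le_of_eq ?_)
  rw [sum_rc (fun a => (bd s.1 s.2 a.1 * (Real.exp 1 * wgt v a.1) +
        bd s.1 s.2 (a.1 + dv a.2) * wgt v (a.1 + dv a.2)) +
      (if a.1 ∈ B then 0 else (1 + Real.exp 1) * wgt v a.1))]
  simp only [mul_add, Finset.sum_add_distrib]
  have e1 : ∑ x : V d L, ∑ _e : Dir d, ra d * (bd s.1 s.2 x * (Real.exp 1 * wgt v x)) =
      Real.exp 1 * Wt v s.1 s.2 := by
    unfold Wt
    rw [Finset.mul_sum]
    refine Finset.sum_congr rfl fun x _ => ?_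
    rw [← Finset.sum_mul, sum_ra hd]
    ring
  have e2 : ∑ x : V d L, ∑ e : Dir d, ra d * (bd s.1 s.2 (x + dv e) * wgt v (x + dv e)) =
      Wt v s.1 s.2 := Pk_sum hd (fun x => bd s.1 s.2 x * wgt v x)
  have e3 : ∑ x : V d L, ∑ _e : Dir d, ra d * (if x ∈ B then 0 else (1 + Real.exp 1) * wgt v x) =
      (1 + Real.exp 1) * ∑ x ∈ Finset.univ.filter (fun x => x ∉ B), wgt v x := by
    rw [Finset.mul_sum, Finset.sum_filter]
    refine Finset.sum_congr rfl fun x _ => ?_
    rw [← Finset.sum_mul, sum_ra hd, one_mul]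
    split_ifs <;> simp_all
  rw [e1, e2, e3]
  ring

/-- the ball around `v` -/
noncomputable def Bv (v : V d L) (R : ℕ) : Finset (V d L) :=
  Finset.univ.filter fun x => x - v ∈ bal R

/-- the error bound -/
noncomputable def pb (d R : ℕ) (r : ℝ) : ℝ :=
  Real.exp ((1 + Real.exp 1) * r) * (Real.exp (-((R : ℝ) / 2)) * C1 ^ d)

lemma pb_nonneg (d R : ℕ) (r : ℝ) : 0 ≤ pb d R r := by
  unfold pb
  have := C1_nonneg
  positivity

/-- the probability that `v` is bad -/
lemma bad_le {ε r : ℝ} (hd : 1 ≤ d) (h0 : 0 ≤ ε) (h1 : ε ≤ 1) (hr : 0 ≤ r) (v : V d L) (R : ℕ) :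
    sg (rc d L ε) (fun a (s : FS d L × FS d L) => (fup a s.1, lup (Bv v R) a s.2)) r
      (fun s => bd s.1 s.2 v) (FS.init d L, FS.init d L) ≤ pb d R r := by
  have hrn := fun a => rc_nonneg (d := d) (L := L) h0 h1 a
  set κ := ∑ x ∈ Finset.univ.filter (fun x => x ∉ Bv v R), wgt v x with hκ
  have hκ0 : 0 ≤ κ := Finset.sum_nonneg fun _ _ => (wgt_pos _ _).le
  have hg := sg_gronwall (φ := fun a (s : FS d L × FS d L) => (fup a s.1, lup (Bv v R) a s.2))
    hrn (Inv := fun _ => True) (fun _ _ _ => trivial)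
    (f := fun s => Wt v s.1 s.2 + κ) (grF_of_finite hrn _) (c := 1 + Real.exp 1)
    (by positivity) (fun s _ => gen_Wt hd h0 h1 (Bv v R) v s) hr
    (s := (FS.init d L, FS.init d L)) trivial
  have h2 : Wt v (FS.init d L) (FS.init d L) = 0 := by
    unfold Wt
    exact Finset.sum_eq_zero fun x _ => by rw [bd_good (good_refl _ x), zero_mul]
  have h3 : κ ≤ Real.exp (-((R : ℝ) / 2)) * C1 ^ d := by
    refine le_trans (le_of_eq ?_) (sum_out_le v R)
    rw [hκ]
    refine Finset.sum_congr ?_ fun _ _ => rfl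
    ext x
    simp [Bv]
  refine (sg_mono' hrn (grF_of_finite hrn _) (grF_of_finite hrn _) (fun s => ?_) hr _).trans
    (hg.trans ?_)
  · have h4 : bd s.1 s.2 v * wgt v v ≤ Wt v s.1 s.2 := by
      unfold Wt
      exact Finset.single_le_sum (f := fun x => bd s.1 s.2 x * wgt v x)
        (fun x _ => mul_nonneg (bd_nonneg _ _ _) (wgt_pos _ _).le) (Finset.mem_univ v)
    rw [wgt_self, mul_one] at h4
    show bd s.1 s.2 v ≤ Wt v s.1 s.2 + κ
    linarith
  · show Real.exp ((1 + Real.exp 1) * r) * (Wt v (FS.init d L) (FS.init d L) + κ) ≤ pb d R r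
    rw [h2, zero_add]
    unfold pb
    gcongr

/-! ### Independence of the local processes -/

lemma indep {ε r : ℝ} (h0 : 0 ≤ ε) (h1 : ε ≤ 1) (hr : 0 ≤ r) {B B' : Finset (V d L)}
    (hB : ∀ x, x ∈ B → x ∉ B') (F G : FS d L → ℝ) (s : FS d L × FS d L) :
    sg (rc d L ε) (fun a (s : FS d L × FS d L) => (lup B a s.1, lup B' a s.2)) r
      (fun s => F s.1 * G s.2) s =
    sg (rc d L ε) (lup B) r F s.1 * sg (rc d L ε) (lup B') r G s.2 := by
  have hrn := fun a => rc_nonneg (d := d) (L := L) h0 h1 a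
  refine sg_eq_of_solution (f := fun u : FS d L × FS d L => F u.1 * G u.2) hrn
    (Inv := fun _ => True) (fun _ _ _ => trivial)
    (W := fun t u => sg (rc d L ε) (lup B) t F u.1 * sg (rc d L ε) (lup B') t G u.2)
    (W' := fun t u => sg (rc d L ε) (lup B) t (gen (rc d L ε) (lup B) F) u.1 *
      sg (rc d L ε) (lup B') t G u.2 +
      sg (rc d L ε) (lup B) t F u.1 * sg (rc d L ε) (lup B') t (gen (rc d L ε) (lup B') G) u.2) hr
    (fun t _ u _ => (hasDerivAt_sg (grF_of_finite hrn _) _ _).mul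
      (hasDerivAt_sg (grF_of_finite hrn _) _ _))
    (fun t _ u _ => ?_) (fun u _ => by simp only [sg_zero]) (s := s) trivial
  rw [← gen_sg (grF_of_finite hrn F), ← gen_sg (grF_of_finite hrn G)]
  unfold gen
  rw [Finset.sum_mul, Finset.mul_sum, ← Finset.sum_add_distrib]
  refine Finset.sum_congr rfl fun a _ => ?_
  by_cases ha : a.1.1 ∈ B
  · have e1 : lup B' a u.2 = u.2 := by unfold lup; rw [if_neg (hB _ ha)]
    simp only [e1]
    ring
  · have e1 : lup B a u.1 = u.1 := by unfold lup; rw [if_neg ha]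
    simp only [e1]
    ring

/-! ### Truncated observables -/

lemma al_le_ct (s : FS d L) (x : V d L) : s.al x ≤ s.ct x := by
  classical
  unfold FS.al FS.ct
  have : (Finset.univ.filter fun z => s.pos z = x ∧ z ∉ s.dead).card ≤
      (Finset.univ.filter fun z => s.pos z = x).card := by
    refine Finset.card_le_card fun z hz => ?_
    rw [Finset.mem_filter] at hz ⊢
    exact ⟨hz.1, hz.2.1⟩
  exact_mod_cast this

lemma al_nonneg (s : FS d L) (x : V d L) : 0 ≤ s.al x := by
  unfold FS.al; positivity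

lemma ct_nonneg (s : FS d L) (x : V d L) : 0 ≤ s.ct x := by
  unfold FS.ct; positivity

lemma abs_dis_le {θ : ℝ} (h0 : 0 ≤ θ) (h1 : θ ≤ 1) (s : FS d L) (x : V d L) :
    |s.dis θ x| ≤ s.ct x := by
  have a1 := al_le_ct s x
  have a2 := al_nonneg s x
  have a3 := ct_nonneg s x
  unfold FS.dis
  rw [abs_le]
  constructor <;> nlinarith

/-- truncation -/
noncomputable def tru (θ M : ℝ) (x : V d L) (s : FS d L) : ℝ :=
  if s.ct x ≤ M then s.dis θ x else 0

lemma tru_good {θ M : ℝ} {x : V d L} {s s' : FS d L} (h : good s s' x) :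
    tru θ M x s = tru θ M x s' := by
  classical
  have h1 : s.ct x = s'.ct x := by
    unfold FS.ct
    congr 2
    ext z
    simp only [Finset.mem_filter, Finset.mem_univ, true_and]
    exact h.1 z
  have h2 : s.al x = s'.al x := by
    unfold FS.al
    congr 2
    ext z
    simp only [Finset.mem_filter, Finset.mem_univ, true_and]
    constructor
    · rintro ⟨a, b⟩
      exact ⟨(h.1 z).1 a, fun c => b ((h.2.2 z a).2 c)⟩
    · rintro ⟨a, b⟩
      exact ⟨(h.1 z).2 a, fun c => b ((h.2.2 z ((h.1 z).2 a)).1 c)⟩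
  unfold tru FS.dis
  rw [h1, h2]

lemma abs_tru_le {θ M : ℝ} (h0 : 0 ≤ θ) (h1 : θ ≤ 1) (hM : 0 ≤ M) (x : V d L) (s : FS d L) :
    |tru θ M x s| ≤ M := by
  unfold tru
  split_ifs with h
  · exact (abs_dis_le h0 h1 s x).trans h
  · simpa using hM

lemma abs_tru_le_ct {θ M : ℝ} (h0 : 0 ≤ θ) (h1 : θ ≤ 1) (x : V d L) (s : FS d L) :
    |tru θ M x s| ≤ s.ct x := by
  unfold tru
  split_ifs with h
  · exact abs_dis_le h0 h1 s x
  · simpa using ct_nonneg s x

/-- the error of the truncation -/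
lemma dis_sub_tru {θ M : ℝ} (h0 : 0 ≤ θ) (h1 : θ ≤ 1) (hM : 0 < M) (x : V d L) (s : FS d L) :
    |s.dis θ x - tru θ M x s| ≤ s.ct x ^ 3 / M ^ 2 := by
  have a3 := ct_nonneg s x
  unfold tru
  split_ifs with h
  · rw [sub_self, abs_zero]
    positivity
  · rw [sub_zero]
    refine (abs_dis_le h0 h1 s x).trans ?_
    rw [le_div_iff₀ (by positivity)]
    push Not at h
    have : M ^ 2 ≤ s.ct x ^ 2 := by gcongr
    nlinarith

lemma prod_sub {X Y M : ℝ} (hX : 0 ≤ X) (hY : 0 ≤ Y) (hM : 0 < M) (h : M < X) :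
    X * Y ≤ (X ^ 3 + Y ^ 3) / M := by
  rw [le_div_iff₀ hM]
  have h1 : X * Y * M ≤ X * Y * X := by
    apply mul_le_mul_of_nonneg_left h.le (mul_nonneg hX hY)
  have h2 : X * Y * X ≤ X ^ 3 + Y ^ 3 := by
    rcases le_total X Y with hxy | hxy
    · have : X * Y * X ≤ Y * Y * Y := by gcongr
      nlinarith [pow_nonneg hX 3]
    · have : X * Y * X ≤ X * X * X := by gcongr
      nlinarith [pow_nonneg hY 3]
  linarith

lemma dis_mul_sub {θ M : ℝ} (h0 : 0 ≤ θ) (h1 : θ ≤ 1) (hM : 0 < M) (x y : V d L) (s : FS d L) :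
    |s.dis θ x * s.dis θ y - tru θ M x s * tru θ M y s| ≤
      2 * (s.ct x ^ 3 + s.ct y ^ 3) / M := by
  have a1 := ct_nonneg s x
  have a2 := ct_nonneg s y
  have b1 := abs_dis_le h0 h1 s x
  have b2 := abs_dis_le h0 h1 s y
  have c1 := abs_tru_le_ct (M := M) h0 h1 x s
  have hnn : 0 ≤ (s.ct x ^ 3 + s.ct y ^ 3) / M := by positivity
  have key1 : |(s.dis θ x - tru θ M x s) * s.dis θ y| ≤ (s.ct x ^ 3 + s.ct y ^ 3) / M := by
    by_cases h : s.ct x ≤ M
    · have : tru θ M x s = s.dis θ x := by unfold tru; rw [if_pos h]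
      rw [this, sub_self, zero_mul, abs_zero]
      exact hnn
    · have : tru θ M x s = 0 := by unfold tru; rw [if_neg h]
      rw [this, sub_zero, abs_mul]
      push Not at h
      exact (mul_le_mul b1 b2 (abs_nonneg _) a1).trans (prod_sub a1 a2 hM h)
  have key2 : |tru θ M x s * (s.dis θ y - tru θ M y s)| ≤ (s.ct x ^ 3 + s.ct y ^ 3) / M := by
    by_cases h : s.ct y ≤ M
    · have : tru θ M y s = s.dis θ y := by unfold tru; rw [if_pos h]
      rw [this, sub_self, mul_zero, abs_zero]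
      exact hnn
    · have : tru θ M y s = 0 := by unfold tru; rw [if_neg h]
      rw [this, sub_zero, abs_mul]
      push Not at h
      refine (mul_le_mul c1 b2 (abs_nonneg _) a1).trans ?_
      rw [mul_comm, add_comm]
      exact prod_sub a2 a1 hM h
  have e : s.dis θ x * s.dis θ y - tru θ M x s * tru θ M y s =
      (s.dis θ x - tru θ M x s) * s.dis θ y + tru θ M x s * (s.dis θ y - tru θ M y s) := by ring
  rw [e]
  refine (abs_add_le _ _).trans ((add_le_add key1 key2).trans (le_of_eq ?_))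
  ring

/-! ### Expectations -/

lemma sg_abs_sub_le {S I : Type} [Finite S] [Fintype I] {q : I → ℝ} {φ : I → S → S}
    (hq : ∀ i, 0 ≤ q i) {t : ℝ} (ht : 0 ≤ t) {f g h : S → ℝ} (hfg : ∀ s, |f s - g s| ≤ h s)
    (s : S) : |sg q φ t f s - sg q φ t g s| ≤ sg q φ t h s := by
  have hf := grF_of_finite (φ := φ) hq f
  have hg := grF_of_finite (φ := φ) hq g
  have hh := grF_of_finite (φ := φ) hq h
  rw [← sg_sub hf hg, abs_le]
  constructor
  · rw [← sg_neg]
    exact sg_mono' hq (grF_of_finite hq _) (grF_of_finite hq _)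
      (fun s => by have := (abs_le.1 (hfg s)).1; linarith) ht s
  · exact sg_mono' hq (grF_of_finite hq _) (grF_of_finite hq _)
      (fun s => (abs_le.1 (hfg s)).2) ht s

lemma th_mem {ε r : ℝ} (h0 : 0 ≤ ε) (h1 : ε ≤ 1) (hr : 0 ≤ r) :
    0 ≤ th ε d L r ∧ th ε d L r ≤ 1 := by
  have hrn := fun a => rc_nonneg (d := d) (L := L) h0 h1 a
  unfold th fsg
  constructor
  · exact sg_nonneg hrn (Inv := fun _ => True) (fun _ _ _ => trivial) (grF_of_finite hrn _)
      (fun s _ => by split_ifs <;> norm_num) hr trivial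
  · have := sg_mono' (φ := fup) hrn
      (grF_of_finite hrn (fun s : FS d L => if (0 : V d L) ∈ s.dead then (0 : ℝ) else 1))
      (grF_of_finite hrn (fun _ => (1 : ℝ))) (fun s => by split_ifs <;> norm_num) hr
      (FS.init d L)
    rwa [sg_const] at this

lemma mean_al (hTR : T_TR) {ε r : ℝ} (h0 : 0 ≤ ε) (h1 : ε ≤ 1) :
    fsg ε r (fun s : FS d L => s.al 0) (FS.init d L) = th ε d L r := by
  classical
  have hrn := fun a => rc_nonneg (d := d) (L := L) h0 h1 a
  have e1 : (fun s : FS d L => s.al 0) =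
      fun s => ∑ z, if s.pos z = 0 ∧ z ∉ s.dead then (1 : ℝ) else 0 := by
    funext s
    unfold FS.al
    rw [Finset.card_filter]
    push_cast
    rfl
  have e2 : ∀ z : V d L,
      fsg ε r (fun s : FS d L => if s.pos z = 0 ∧ z ∉ s.dead then (1 : ℝ) else 0) (FS.init d L) =
      fsg ε r (fun s : FS d L => if s.pos 0 = -z ∧ 0 ∉ s.dead then (1 : ℝ) else 0)
        (FS.init d L) := by
    intro z
    have h2 := (hTR d L ε r
      (fun s : FS d L => if s.pos 0 = -z ∧ 0 ∉ s.dead then (1 : ℝ) else 0) (-z)).1 (FS.init d L)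
    rw [(hTR d L ε r (fun _ => 0) (-z)).2] at h2
    rw [← h2]
    congr 1
    funext s
    have h3 : (s.shift (-z)).pos 0 = -z ↔ s.pos z = 0 := by
      unfold FS.shift
      simp
    have h4 : (0 : V d L) ∈ (s.shift (-z)).dead ↔ z ∈ s.dead := by
      unfold FS.shift
      simp only [Finset.mem_image]
      constructor
      · rintro ⟨u, hu, hu'⟩
        have : u = z := by
          have := add_eq_zero_iff_eq_neg.1 hu'
          rwa [neg_neg] at this
        rwa [← this]
      · intro hz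
        exact ⟨z, hz, by simp⟩
    have h5 : (s.pos z = 0 ∧ z ∉ s.dead) ↔
        ((s.shift (-z)).pos 0 = -z ∧ 0 ∉ (s.shift (-z)).dead) := by rw [h3, h4]
    by_cases h6 : s.pos z = 0 ∧ z ∉ s.dead
    · rw [if_pos h6, if_pos (h5.1 h6)]
    · rw [if_neg h6, if_neg (fun h7 => h6 (h5.2 h7))]
  rw [e1]
  unfold fsg at e2 ⊢
  rw [sg_sum _ (fun _ _ => grF_of_finite hrn _), Finset.sum_congr rfl (fun z _ => e2 z),
    ← sg_sum _ (fun _ _ => grF_of_finite hrn _)]
  unfold th fsg
  congr 1
  funext s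
  rw [Finset.sum_eq_single (-(s.pos 0))]
  · by_cases h : (0 : V d L) ∈ s.dead
    · simp [h]
    · simp [h]
  · intro z _ hz
    rw [if_neg]
    rintro ⟨h, -⟩
    apply hz
    rw [h, neg_neg]
  · intro h
    exact absurd (Finset.mem_univ _) h

lemma mean_dis (hTR : T_TR) (hD : T_DUAL) (hM : T_MOM0) (hd : 1 ≤ d) {ε r : ℝ} (h0 : 0 ≤ ε)
    (h1 : ε ≤ 1) (hr : 0 ≤ r) :
    fsg ε r (fun s : FS d L => s.dis (th ε d L r) 0) (FS.init d L) = 0 := by
  have hrn := fun a => rc_nonneg (d := d) (L := L) h0 h1 a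
  have e1 := mean_al (d := d) (L := L) hTR (r := r) h0 h1
  have e2 := (hD d L ε r hd h0 h1 hr).2.2 (fun x => x) 0
  rw [(hM d L r hd hr).1] at e2
  have e3 : fsg ε r (fun s : FS d L => s.dis (th ε d L r) 0) (FS.init d L) =
      fsg ε r (fun s : FS d L => s.al 0) (FS.init d L) -
        th ε d L r * fsg ε r (fun s : FS d L => s.ct 0) (FS.init d L) := by
    unfold fsg
    rw [← sg_smul, ← sg_sub (grF_of_finite hrn _) (grF_of_finite hrn _)]
    rfl
  rw [e3, e1, e2]
  ring

lemma ct_cube (hD : T_DUAL) (hM : T_MOM0) (hd : 1 ≤ d) {ε r : ℝ} (h0 : 0 ≤ ε)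
    (h1 : ε ≤ 1) (hr : 0 ≤ r) (x : V d L) :
    fsg ε r (fun s : FS d L => s.ct x ^ 3) (FS.init d L) ≤ 6 * (1 + r) ^ 2 := by
  rw [(hD d L ε r hd h0 h1 hr).2.2 (fun x => x ^ 3) x]
  exact (hM d L r hd hr).2.2

theorem main (hTR : T_TR) (hD : T_DUAL) (hMO : T_MOM0) (hd : 1 ≤ d) {ε r : ℝ} (h0 : 0 ≤ ε)
    (h1 : ε ≤ 1) (hr : 0 ≤ r) {M : ℝ} (hM : 0 < M) (R : ℕ) (w : V d L) (hw : w ∉ bal (2 * R)) :
    |fsg ε r (fun s => s.dis (th ε d L r) 0 * s.dis (th ε d L r) w) (FS.init d L)| ≤
      30 * (1 + r) ^ 2 / M + 6 * M ^ 2 * pb d R r := by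
  have hrn := fun a => rc_nonneg (d := d) (L := L) h0 h1 a
  obtain ⟨t0, t1⟩ := th_mem (d := d) (L := L) h0 h1 hr
  set θ := th ε d L r with hθ
  set p := pb d R r with hp
  have hp0 : 0 ≤ p := pb_nonneg _ _ _
  set ini := FS.init d L with hini
  set F : FS d L → ℝ := tru θ M 0 with hF
  set G : FS d L → ℝ := tru θ M w with hG
  set B := Bv (0 : V d L) R with hB
  set B' := Bv w R with hB'
  have hdisj : ∀ x, x ∈ B → x ∉ B' := by
    intro x hx hx'
    rw [hB, Bv, Finset.mem_filter] at hx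
    rw [hB', Bv, Finset.mem_filter] at hx'
    apply hw
    have := sub_mem_bal hx.2 hx'.2
    rwa [show x - 0 - (x - w) = w by abel] at this
  have c0 := ct_cube (d := d) (L := L) hD hMO hd h0 h1 hr 0
  have cw := ct_cube (d := d) (L := L) hD hMO hd h0 h1 hr w
  -- truncation
  have s1 : |fsg ε r (fun s => s.dis θ 0 * s.dis θ w) ini - fsg ε r (fun s => F s * G s) ini| ≤
      24 * (1 + r) ^ 2 / M := by
    unfold fsg
    refine (sg_abs_sub_le hrn hr (h := fun s => 2 / M * (s.ct 0 ^ 3 + s.ct w ^ 3))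
      (fun s => (dis_mul_sub t0 t1 hM 0 w s).trans (le_of_eq (by ring))) ini).trans ?_
    rw [sg_smul, sg_add (grF_of_finite hrn _) (grF_of_finite hrn _)]
    have e : 24 * (1 + r) ^ 2 / M = 2 / M * (6 * (1 + r) ^ 2 + 6 * (1 + r) ^ 2) := by ring
    rw [e]
    exact mul_le_mul_of_nonneg_left (add_le_add c0 cw) (by positivity)
  -- mean of the truncated function
  have s2 : |fsg ε r F ini| ≤ 6 * (1 + r) ^ 2 / M ^ 2 := by
    have h2 := mean_dis (d := d) (L := L) hTR hD hMO hd h0 h1 hr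
    have h3 : |fsg ε r (fun s => s.dis θ 0) ini - fsg ε r F ini| ≤ 6 * (1 + r) ^ 2 / M ^ 2 := by
      unfold fsg
      refine (sg_abs_sub_le hrn hr (h := fun s => 1 / M ^ 2 * s.ct 0 ^ 3)
        (fun s => (dis_sub_tru t0 t1 hM 0 s).trans (le_of_eq (by ring))) ini).trans ?_
      rw [sg_smul]
      have e : 6 * (1 + r) ^ 2 / M ^ 2 = 1 / M ^ 2 * (6 * (1 + r) ^ 2) := by ring
      rw [e]
      exact mul_le_mul_of_nonneg_left c0 (by positivity)
    rw [h2, zero_sub, abs_neg] at h3
    exact h3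
  -- pair of the true and the local process around 0
  have s3 : |fsg ε r F ini - sg (rc d L ε) (lup B) r F ini| ≤ 2 * M * p := by
    have e1 : fsg ε r F ini = sg (rc d L ε)
        (fun a (s : FS d L × FS d L) => (fup a s.1, lup B a s.2)) r (fun s => F s.1) (ini, ini) :=
      (sg_map (φ := fun a (s : FS d L × FS d L) => (fup a s.1, lup B a s.2)) Prod.fst
        (Inv := fun _ => True) (fun _ _ _ => trivial) (fun _ _ _ => rfl) r F
        (s := (ini, ini)) trivial).symm
    have e2 : sg (rc d L ε) (lup B) r F ini = sg (rc d L ε)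
        (fun a (s : FS d L × FS d L) => (fup a s.1, lup B a s.2)) r (fun s => F s.2) (ini, ini) :=
      (sg_map (φ := fun a (s : FS d L × FS d L) => (fup a s.1, lup B a s.2)) Prod.snd
        (Inv := fun _ => True) (fun _ _ _ => trivial) (fun _ _ _ => rfl) r F
        (s := (ini, ini)) trivial).symm
    rw [e1, e2]
    refine (sg_abs_sub_le hrn hr (h := fun s => 2 * M * bd s.1 s.2 0) (fun s => ?_) _).trans ?_
    · by_cases hg : good s.1 s.2 0
      · rw [bd_good hg, mul_zero, hF, tru_good hg, sub_self, abs_zero]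
      · rw [bd_not hg, mul_one]
        refine (abs_sub _ _).trans ?_
        have a1 := abs_tru_le t0 t1 hM.le 0 s.1
        have a2 := abs_tru_le t0 t1 hM.le 0 s.2
        linarith
    · rw [sg_smul]
      exact mul_le_mul_of_nonneg_left (bad_le hd h0 h1 hr 0 R) (by positivity)
  -- the triple process
  have s4 : |fsg ε r (fun s => F s * G s) ini -
      sg (rc d L ε) (lup B) r F ini * sg (rc d L ε) (lup B') r G ini| ≤ 4 * M ^ 2 * p := by
    set Φ : Ar d L × Bool → FS d L × (FS d L × FS d L) → FS d L × (FS d L × FS d L) :=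
      fun a s => (fup a s.1, lup B a s.2.1, lup B' a s.2.2) with hΦ
    have e1 : fsg ε r (fun s => F s * G s) ini =
        sg (rc d L ε) Φ r (fun s => F s.1 * G s.1) (ini, ini, ini) :=
      (sg_map (φ := Φ) Prod.fst (Inv := fun _ => True) (fun _ _ _ => trivial)
        (fun _ _ _ => rfl) r (fun s => F s * G s) (s := (ini, ini, ini)) trivial).symm
    have e2 : sg (rc d L ε) (lup B) r F ini * sg (rc d L ε) (lup B') r G ini =
        sg (rc d L ε) Φ r (fun s => F s.2.1 * G s.2.2) (ini, ini, ini) := by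
      rw [← indep h0 h1 hr hdisj F G (ini, ini)]
      exact (sg_map (φ := Φ) (ψ := fun a (s : FS d L × FS d L) => (lup B a s.1, lup B' a s.2))
        Prod.snd (Inv := fun _ => True) (fun _ _ _ => trivial)
        (fun _ _ _ => rfl) r (fun s => F s.1 * G s.2) (s := (ini, ini, ini)) trivial).symm
    have e3 : sg (rc d L ε) Φ r (fun s => bd s.1 s.2.1 0) (ini, ini, ini) ≤ p := by
      have := sg_map (r := rc d L ε) (φ := Φ)
        (ψ := fun a (s : FS d L × FS d L) => (fup a s.1, lup B a s.2))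
        (fun s => (s.1, s.2.1)) (Inv := fun _ => True) (fun _ _ _ => trivial)
        (fun _ _ _ => rfl) r (fun s => bd s.1 s.2 0) (s := (ini, ini, ini)) trivial
      rw [this]
      exact bad_le hd h0 h1 hr 0 R
    have e4 : sg (rc d L ε) Φ r (fun s => bd s.1 s.2.2 w) (ini, ini, ini) ≤ p := by
      have := sg_map (r := rc d L ε) (φ := Φ)
        (ψ := fun a (s : FS d L × FS d L) => (fup a s.1, lup B' a s.2))
        (fun s => (s.1, s.2.2)) (Inv := fun _ => True) (fun _ _ _ => trivial)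
        (fun _ _ _ => rfl) r (fun s => bd s.1 s.2 w) (s := (ini, ini, ini)) trivial
      rw [this]
      exact bad_le hd h0 h1 hr w R
    rw [e1, e2]
    refine (sg_abs_sub_le hrn hr
      (h := fun s => 2 * M ^ 2 * (bd s.1 s.2.1 0 + bd s.1 s.2.2 w)) (fun s => ?_) _).trans ?_
    · have n1 := bd_nonneg s.1 s.2.1 0
      have n2 := bd_nonneg s.1 s.2.2 w
      have m1 : |F s.1 * G s.1 - F s.2.1 * G s.2.2| ≤ 2 * M ^ 2 := by
        refine (abs_sub _ _).trans ?_
        rw [abs_mul, abs_mul]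
        have a1 : |F s.1| * |G s.1| ≤ M * M := mul_le_mul (abs_tru_le t0 t1 hM.le 0 s.1)
          (abs_tru_le t0 t1 hM.le w s.1) (abs_nonneg _) hM.le
        have a2 : |F s.2.1| * |G s.2.2| ≤ M * M := mul_le_mul (abs_tru_le t0 t1 hM.le 0 s.2.1)
          (abs_tru_le t0 t1 hM.le w s.2.2) (abs_nonneg _) hM.le
        nlinarith
      by_cases hg : good s.1 s.2.1 0
      · by_cases hg' : good s.1 s.2.2 w
        · have q1 : F s.1 = F s.2.1 := tru_good hg
          have q2 : G s.1 = G s.2.2 := tru_good hg'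
          rw [q1, q2, sub_self, abs_zero]
          positivity
        · rw [bd_not hg']
          nlinarith [sq_nonneg M]
      · rw [bd_not hg]
        nlinarith [sq_nonneg M]
    · rw [sg_smul, sg_add (grF_of_finite hrn _) (grF_of_finite hrn _)]
      have e : 4 * M ^ 2 * p = 2 * M ^ 2 * (p + p) := by ring
      rw [e]
      exact mul_le_mul_of_nonneg_left (add_le_add e3 e4) (by positivity)
  have s5 : |sg (rc d L ε) (lup B') r G ini| ≤ M :=
    sg_abs_le hrn (fun s => abs_tru_le t0 t1 hM.le w s) hr ini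
  have s6 : |sg (rc d L ε) (lup B) r F ini| ≤ 2 * M * p + 6 * (1 + r) ^ 2 / M ^ 2 := by
    have e : sg (rc d L ε) (lup B) r F ini =
        fsg ε r F ini - (fsg ε r F ini - sg (rc d L ε) (lup B) r F ini) := by ring
    rw [e]
    refine (abs_sub _ _).trans ?_
    linarith
  have s7 : |sg (rc d L ε) (lup B) r F ini * sg (rc d L ε) (lup B') r G ini| ≤
      (2 * M * p + 6 * (1 + r) ^ 2 / M ^ 2) * M := by
    rw [abs_mul]
    exact mul_le_mul s6 s5 (abs_nonneg _) (by positivity)
  have e8 : (2 * M * p + 6 * (1 + r) ^ 2 / M ^ 2) * M = 2 * M ^ 2 * p + 6 * (1 + r) ^ 2 / M := by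
    field_simp
  rw [e8] at s7
  have e9 : fsg ε r (fun s => s.dis θ 0 * s.dis θ w) ini =
      (fsg ε r (fun s => s.dis θ 0 * s.dis θ w) ini - fsg ε r (fun s => F s * G s) ini) +
      (fsg ε r (fun s => F s * G s) ini -
        sg (rc d L ε) (lup B) r F ini * sg (rc d L ε) (lup B') r G ini) +
      sg (rc d L ε) (lup B) r F ini * sg (rc d L ε) (lup B') r G ini := by ring
  rw [e9]
  refine (abs_add_le _ _).trans ?_
  have e10 := abs_add_le
    (fsg ε r (fun s => s.dis θ 0 * s.dis θ w) ini - fsg ε r (fun s => F s * G s) ini)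
    (fsg ε r (fun s => F s * G s) ini -
        sg (rc d L ε) (lup B) r F ini * sg (rc d L ε) (lup B') r G ini)
  have e11 : 30 * (1 + r) ^ 2 / M = 24 * (1 + r) ^ 2 / M + 6 * (1 + r) ^ 2 / M := by ring
  rw [e11]
  linarith

lemma pb_tendsto (d : ℕ) (r : ℝ) : Tendsto (fun R : ℕ => pb d R r) atTop (𝓝 0) := by
  have h1 : Tendsto (fun R : ℕ => Real.exp (-((R : ℝ) / 2))) atTop (𝓝 0) := by
    apply Real.tendsto_exp_neg_atTop_nhds_zero.comp
    exact tendsto_natCast_atTop_atTop.atTop_div_const (by norm_num)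
  have h2 := (h1.mul_const (C1 ^ d)).const_mul (Real.exp ((1 + Real.exp 1) * r))
  simpa [pb] using h2

end MIX_

theorem t_MIX (h1 : T_TR) (h2 : T_DUAL) (h3 : T_MOM0) : T_MIX := by
  intro d ε r η hd hε0 hε1 hr hη
  set M : ℝ := 60 * (1 + r) ^ 2 / η with hM
  have hM0 : 0 < M := by positivity
  have h4 : ∀ᶠ R : ℕ in atTop, 6 * M ^ 2 * MIX_.pb d R r < η / 2 := by
    have h5 := (MIX_.pb_tendsto d r).const_mul (6 * M ^ 2)
    rw [mul_zero] at h5
    exact h5.eventually (gt_mem_nhds (half_pos hη))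
  obtain ⟨R, hR⟩ := h4.exists
  refine ⟨2 * R, Eventually.of_forall fun L w hw => ?_⟩
  refine (MIX_.main h1 h2 h3 hd hε0 hε1 hr hM0 R w hw).trans ?_
  have h6 : 30 * (1 + r) ^ 2 / M = η / 2 := by
    rw [hM]
    field_simp
    norm_num
  rw [h6]
  linarith

end Pool.Agent.CAS
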