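import Pool.Agent.CAS.Basic

/-!
# Moments of the mass in an abstract Lyapunov structure
-/

open Finset Filter Topology MeasureTheory
open scoped BigOperators

namespace Pool.Agent.CAS

namespace MOM_

/-- the constants in the binomial estimate -/
def KK : ℕ → ℝ
  | 0 => 0
  | n + 1 => 2 * KK n + (n + 1)

lemma KK_nonneg (n : ℕ) : 0 ≤ KK n := by
  induction n with
  | zero => simp [KK]
  | succ n ih => simp only [KK]; positivity

lemma binom {y a : ℝ} (hy : 1 ≤ y) (ha : |a| ≤ 1) (n : ℕ) :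
    y * (y + a) ^ (n + 1) ≤ y ^ (n + 2) + (n + 1) * y ^ (n + 1) * a + KK n * y ^ n * |a| := by
  induction n with
  | zero => simp only [KK]; apply le_of_eq; push_cast; ring
  | succ n ih =>
    have h1 := abs_le.1 ha
    have hya : 0 ≤ y + a := by linarith
    have hy0 : 0 ≤ y := by linarith
    have hK := KK_nonneg n
    have e1 := mul_le_mul_of_nonneg_right ih hya
    have e2 : y * (y + a) ^ (n + 1 + 1) = y * (y + a) ^ (n + 1) * (y + a) := by ring
    rw [e2]
    refine e1.trans ?_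
    have e3 : (y ^ (n + 2) + (n + 1) * y ^ (n + 1) * a + KK n * y ^ n * |a|) * (y + a) =
        y ^ (n + 1 + 2) + (((n + 1 : ℕ) : ℝ) + 1) * y ^ (n + 1 + 1) * a +
          KK n * y ^ (n + 1) * |a| + (n + 1) * y ^ (n + 1) * a ^ 2 + KK n * y ^ n * (|a| * a) := by
      push_cast
      ring
    rw [e3]
    have e4 : a ^ 2 ≤ |a| := by
      rw [← sq_abs]
      nlinarith [abs_nonneg a]
    have e5 : |a| * a ≤ |a| := by
      nlinarith [abs_nonneg a]
    have e6 : (0 : ℝ) ≤ y ^ n := pow_nonneg hy0 n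
    have e7 : y ^ n ≤ y ^ (n + 1) := pow_le_pow_right₀ hy (Nat.le_succ n)
    have e8 : (n + 1 : ℝ) * y ^ (n + 1) * a ^ 2 ≤ (n + 1) * y ^ (n + 1) * |a| := by
      gcongr
    have e9 : KK n * y ^ n * (|a| * a) ≤ KK n * y ^ (n + 1) * |a| := by
      calc KK n * y ^ n * (|a| * a) ≤ KK n * y ^ n * |a| := by gcongr
        _ ≤ KK n * y ^ (n + 1) * |a| := by gcongr
    simp only [KK]
    nlinarith

variable {S I : Type} [Fintype I] {r : I → ℝ} {φ : I → S → S} {Inv : S → Prop}
  {X F m β : S → ℝ} {c γ δ C b : ℝ}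

lemma gen_pow (hC : 0 ≤ C) (h : LD r φ Inv X F m β c γ δ C b) (n : ℕ) (s : S) (hs : Inv s) :
    gen r φ (fun s => (1 + m s) ^ (n + 1)) s ≤ C * (n + 1 + KK n) * (1 + m s) ^ n := by
  have hm := h.m0 s hs
  have hy : 1 ≤ 1 + m s := by linarith
  have hy0 : 0 < 1 + m s := by linarith
  have hK := KK_nonneg n
  have h1 : ∀ i, (1 + m s) * (r i * ((1 + m (φ i s)) ^ (n + 1) - (1 + m s) ^ (n + 1))) ≤
      (n + 1) * (1 + m s) ^ (n + 1) * (r i * (m (φ i s) - m s)) +
        KK n * (1 + m s) ^ n * (r i * |m (φ i s) - m s|) := by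
    intro i
    have e1 := binom hy (h.dm i s hs) n
    have e2 : 1 + m s + (m (φ i s) - m s) = 1 + m (φ i s) := by ring
    rw [e2] at e1
    have e3 := mul_le_mul_of_nonneg_left e1 (h.rn i)
    calc (1 + m s) * (r i * ((1 + m (φ i s)) ^ (n + 1) - (1 + m s) ^ (n + 1)))
        = r i * ((1 + m s) * (1 + m (φ i s)) ^ (n + 1)) - r i * (1 + m s) ^ (n + 2) := by ring
      _ ≤ r i * ((1 + m s) ^ (n + 2) + (n + 1) * (1 + m s) ^ (n + 1) * (m (φ i s) - m s) +
            KK n * (1 + m s) ^ n * |m (φ i s) - m s|) - r i * (1 + m s) ^ (n + 2) :=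
          sub_le_sub_right e3 _
      _ = _ := by ring
  have h2 : (1 + m s) * gen r φ (fun s => (1 + m s) ^ (n + 1)) s ≤
      (n + 1) * (1 + m s) ^ (n + 1) * gen r φ m s +
        KK n * (1 + m s) ^ n * ∑ i, r i * |m (φ i s) - m s| := by
    unfold gen
    rw [Finset.mul_sum, Finset.mul_sum, Finset.mul_sum, ← Finset.sum_add_distrib]
    exact Finset.sum_le_sum fun i _ => h1 i
  have h3 : (n + 1) * (1 + m s) ^ (n + 1) * gen r φ m s ≤ (n + 1) * (1 + m s) ^ (n + 1) * C := by
    have := h.gm s hs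
    gcongr
  have h4 : KK n * (1 + m s) ^ n * ∑ i, r i * |m (φ i s) - m s| ≤
      KK n * (1 + m s) ^ n * (C * (1 + m s)) := by
    have h5 := h.Γm s hs
    have h6 : C * m s ≤ C * (1 + m s) := by gcongr; linarith
    gcongr
    exact h5.trans h6
  have h5 : (1 + m s) * gen r φ (fun s => (1 + m s) ^ (n + 1)) s ≤
      (1 + m s) * (C * (n + 1 + KK n) * (1 + m s) ^ n) := by
    refine (h2.trans (add_le_add h3 h4)).trans (le_of_eq ?_)
    ring
  exact le_of_mul_le_mul_left h5 hy0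

end MOM_

open MOM_ in
theorem t_MOM : T_MOM := by
  intro C hC k
  have hC0 : 0 ≤ C := by linarith
  induction k with
  | zero =>
    refine ⟨1, le_rfl, ?_⟩
    intro S I _ _ r φ Inv X F m β c γ δ b h t s ht hs
    simp only [pow_zero, sg_const, mul_one, le_refl]
  | succ n ih =>
    obtain ⟨C', hC', ih⟩ := ih
    have hK := KK_nonneg n
    set D : ℝ := C * (n + 1 + KK n) with hD
    have hD0 : 0 ≤ D := by positivity
    refine ⟨1 + D * C', by nlinarith [mul_nonneg hD0 (by linarith : (0 : ℝ) ≤ C')], ?_⟩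
    intro S I _ _ r φ Inv X F m β c γ δ b h t s ht hs
    have hgf : ∀ f : S → ℝ, GrF r φ f := fun f => grF_of_finite h.rn f
    rw [sg_dynkin (hgf _)]
    have hy : 1 ≤ 1 + m s := by linarith [h.m0 s hs]
    have hy0 : 0 ≤ 1 + m s := by linarith
    have h1 : ∀ u ∈ Set.Icc (0 : ℝ) t, sg r φ u (gen r φ fun s => (1 + m s) ^ (n + 1)) s ≤
        D * (C' * (1 + t) ^ n * (1 + m s) ^ n) := by
      intro u hu
      have e1 : sg r φ u (gen r φ fun s => (1 + m s) ^ (n + 1)) s ≤
          sg r φ u (fun s => D * (1 + m s) ^ n) s :=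
        sg_mono h.rn h.inv (hgf _) (hgf _) (fun s' hs' => gen_pow hC0 h n s' hs') hu.1 hs
      rw [sg_smul] at e1
      refine e1.trans ?_
      have e2 := ih S I r φ Inv X F m β c γ δ b h u s hu.1 hs
      have e3 : C' * (1 + u) ^ n * (1 + m s) ^ n ≤ C' * (1 + t) ^ n * (1 + m s) ^ n := by
        have hu1 : 0 ≤ 1 + u := by linarith [hu.1]
        have hu2 : 1 + u ≤ 1 + t := by linarith [hu.2]
        have hC'0 : 0 ≤ C' := by linarith
        gcongr
      exact mul_le_mul_of_nonneg_left (e2.trans e3) hD0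
    have h2 : ∫ u in (0 : ℝ)..t, sg r φ u (gen r φ fun s => (1 + m s) ^ (n + 1)) s ≤
        ∫ _u in (0 : ℝ)..t, D * (C' * (1 + t) ^ n * (1 + m s) ^ n) :=
      intervalIntegral.integral_mono_on ht
        ((continuous_sg (hgf _).gen s).intervalIntegrable _ _) (by simp) h1
    rw [intervalIntegral.integral_const, sub_zero, smul_eq_mul] at h2
    have hC'0 : 0 ≤ C' := by linarith
    have h3 : (1 + m s) ^ (n + 1) ≤ (1 + t) ^ (n + 1) * (1 + m s) ^ (n + 1) := by
      have : 1 ≤ (1 + t) ^ (n + 1) := one_le_pow₀ (by linarith)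
      exact le_mul_of_one_le_left (by positivity) this
    have h4 : t * (D * (C' * (1 + t) ^ n * (1 + m s) ^ n)) ≤
        D * C' * (1 + t) ^ (n + 1) * (1 + m s) ^ (n + 1) := by
      have e1 : (1 + m s) ^ n ≤ (1 + m s) ^ (n + 1) := pow_le_pow_right₀ hy (Nat.le_succ n)
      calc t * (D * (C' * (1 + t) ^ n * (1 + m s) ^ n))
          ≤ (1 + t) * (D * (C' * (1 + t) ^ n * (1 + m s) ^ (n + 1))) := by
            gcongr
            linarith
        _ = _ := by ring
    calc (1 + m s) ^ (n + 1) +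
          ∫ u in (0 : ℝ)..t, sg r φ u (gen r φ fun s => (1 + m s) ^ (n + 1)) s
        ≤ (1 + t) ^ (n + 1) * (1 + m s) ^ (n + 1) +
          D * C' * (1 + t) ^ (n + 1) * (1 + m s) ^ (n + 1) := add_le_add h3 (h2.trans h4)
      _ = _ := by ring

end Pool.Agent.CAS
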