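import Pool.Agent.CAS.Basic

/-!
# Moments and small balls for the voter model started at one site
-/

open Finset Filter Topology MeasureTheory
open scoped BigOperators

namespace Pool.Agent.CAS

set_option linter.unusedSectionVars false

namespace MOM0SB_

variable {d L : ℕ}

lemma ra0 : ∀ _a : Ar d L, 0 ≤ (fun _ : Ar d L => ra d) _a := fun _ => ra_nonneg d

/-- indicator of `A` -/
noncomputable def eta (A : Finset (V d L)) (x : V d L) : ℝ := if x ∈ A then 1 else 0

/-- change of the mass -/
noncomputable def dl (A : Finset (V d L)) (a : Ar d L) : ℝ := eta A (a.1 + dv a.2) - eta A a.1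

lemma card_zup (a : Ar d L) (A : Finset (V d L)) :
    ((zup ∅ a A).card : ℝ) = A.card + dl A a := by
  rcases a with ⟨x, e⟩
  unfold dl eta
  simp only
  by_cases h : x + dv e ∈ A
  · rw [zup_of_occ (by simp) (by simpa using h), if_pos h]
    by_cases hx : x ∈ A
    · rw [Finset.insert_eq_of_mem hx, if_pos hx]; ring
    · rw [Finset.card_insert_of_notMem hx, if_neg hx]; push_cast; ring
  · rw [zup_of_not (by simp) (by simpa using h), if_neg h]
    by_cases hx : x ∈ A
    · rw [if_pos hx, Finset.card_erase_of_mem hx]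
      have h1 : 1 ≤ A.card := Finset.card_pos.2 ⟨x, hx⟩
      push_cast [Nat.cast_sub h1]
      ring
    · rw [Finset.erase_eq_of_notMem hx, if_neg hx]; ring

lemma sum_eta (A : Finset (V d L)) : ∑ x, eta A x = A.card := by
  unfold eta
  simp

lemma sum_dl (hd : 1 ≤ d) (A : Finset (V d L)) : ∑ a : Ar d L, ra d * dl A a = 0 := by
  rw [Fintype.sum_prod_type]
  have h1 : ∀ x : V d L, ∑ e : Dir d, ra d * dl A (x, e) = Pk (eta A) x - eta A x := by
    intro x
    unfold dl Pk
    simp only [mul_sub, Finset.sum_sub_distrib]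
    rw [← Finset.sum_mul, sum_ra hd, one_mul]
  rw [Finset.sum_congr rfl fun x _ => h1 x, Finset.sum_sub_distrib, Pk_sum hd, sub_self]

lemma eta01 (A : Finset (V d L)) (x : V d L) : eta A x = 0 ∨ eta A x = 1 := by
  unfold eta; split_ifs <;> simp

lemma dl_cube (A : Finset (V d L)) (a : Ar d L) : dl A a ^ 3 = dl A a := by
  unfold dl
  rcases eta01 A (a.1 + dv a.2) with h | h <;> rcases eta01 A a.1 with h' | h' <;>
    rw [h, h'] <;> norm_num

lemma dl_sq (A : Finset (V d L)) (a : Ar d L) :
    dl A a ^ 2 ≤ eta A (a.1 + dv a.2) + eta A a.1 := by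
  unfold dl
  rcases eta01 A (a.1 + dv a.2) with h | h <;> rcases eta01 A a.1 with h' | h' <;>
    rw [h, h'] <;> norm_num

lemma sum_dl_sq (hd : 1 ≤ d) (A : Finset (V d L)) :
    ∑ a : Ar d L, ra d * dl A a ^ 2 ≤ 2 * A.card := by
  calc ∑ a : Ar d L, ra d * dl A a ^ 2
      ≤ ∑ a : Ar d L, ra d * (eta A (a.1 + dv a.2) + eta A a.1) :=
        Finset.sum_le_sum fun a _ => mul_le_mul_of_nonneg_left (dl_sq A a) (ra_nonneg d)
    _ = 2 * A.card := by
        rw [Fintype.sum_prod_type]
        have h1 : ∀ x : V d L, ∑ e : Dir d, ra d * (eta A ((x, e) : Ar d L).1 +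
            eta A x - eta A x + (eta A (x + dv e) - eta A x) + eta A x) =
            Pk (eta A) x + eta A x := by
          intro x
          unfold Pk
          have : ∀ e : Dir d, ra d * (eta A ((x, e) : Ar d L).1 +
            eta A x - eta A x + (eta A (x + dv e) - eta A x) + eta A x) =
            ra d * eta A (x + dv e) + ra d * eta A x := fun e => by simp only; ring
          rw [Finset.sum_congr rfl fun e _ => this e, Finset.sum_add_distrib, ← Finset.sum_mul,
            sum_ra hd, one_mul]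
        have h2 : ∀ x : V d L, ∑ e : Dir d, ra d * (eta A (((x, e) : Ar d L).1 +
            dv ((x, e) : Ar d L).2) + eta A ((x, e) : Ar d L).1) = Pk (eta A) x + eta A x := by
          intro x
          rw [← h1 x]
          exact Finset.sum_congr rfl fun e _ => by simp only; ring
        rw [Finset.sum_congr rfl fun x _ => h2 x, Finset.sum_add_distrib, Pk_sum hd, sum_eta]
        ring

/-- short name for the generator -/
noncomputable abbrev G (f : Finset (V d L) → ℝ) (A : Finset (V d L)) : ℝ :=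
  gen (fun _ : Ar d L => ra d) (zup ∅) f A

lemma gen1 (hd : 1 ≤ d) (A : Finset (V d L)) : G (fun A => (A.card : ℝ)) A = 0 := by
  unfold G gen
  simp only [card_zup]
  rw [← sum_dl hd A]
  exact Finset.sum_congr rfl fun a _ => by ring

lemma gen2 (hd : 1 ≤ d) (A : Finset (V d L)) :
    G (fun A => (A.card : ℝ) ^ 2) A ≤ 2 * A.card := by
  have h : G (fun A => (A.card : ℝ) ^ 2) A =
      2 * A.card * ∑ a : Ar d L, ra d * dl A a + ∑ a : Ar d L, ra d * dl A a ^ 2 := by
    unfold G gen
    simp only [card_zup]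
    rw [Finset.mul_sum, ← Finset.sum_add_distrib]
    exact Finset.sum_congr rfl fun a _ => by ring
  rw [h, sum_dl hd]
  have := sum_dl_sq hd A
  linarith

lemma gen3 (hd : 1 ≤ d) (A : Finset (V d L)) :
    G (fun A => (A.card : ℝ) ^ 3) A ≤ 6 * (A.card : ℝ) ^ 2 := by
  have h : G (fun A => (A.card : ℝ) ^ 3) A =
      (3 * (A.card : ℝ) ^ 2 + 1) * ∑ a : Ar d L, ra d * dl A a +
        3 * A.card * ∑ a : Ar d L, ra d * dl A a ^ 2 := by
    unfold G gen
    simp only [card_zup]
    rw [Finset.mul_sum, Finset.mul_sum, ← Finset.sum_add_distrib]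
    refine Finset.sum_congr rfl fun a _ => ?_
    have h3 := dl_cube A a
    have : ra d * (((A.card : ℝ) + dl A a) ^ 3 - (A.card : ℝ) ^ 3) =
        ra d * (3 * (A.card : ℝ) ^ 2 * dl A a + 3 * A.card * dl A a ^ 2 + dl A a ^ 3) := by ring
    rw [this, h3]
    ring
  rw [h, sum_dl hd]
  have h1 := sum_dl_sq hd A
  have h2 : (0 : ℝ) ≤ 3 * A.card := by positivity
  have h3 := mul_le_mul_of_nonneg_left h1 h2
  nlinarith

/-- positive probability indicator -/
noncomputable def ne0 (A : Finset (V d L)) : ℝ := if A = ∅ then 0 else 1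

lemma ne0_nonneg (A : Finset (V d L)) : 0 ≤ ne0 A := by unfold ne0; split_ifs <;> norm_num

lemma ne0_le_one (A : Finset (V d L)) : ne0 A ≤ 1 := by unfold ne0; split_ifs <;> norm_num

lemma rho_eq (t : ℝ) : rho d L t = zsg (∅ : Finset (V d L)) t ne0 {0} := rfl

lemma zsg_empty (t : ℝ) : zsg (∅ : Finset (V d L)) t ne0 ∅ = 0 := by
  have h := sg_congr (r := fun _ : Ar d L => ra d) (φ := zup (∅ : Finset (V d L)))
    (Inv := fun A => A = ∅) ra0
    (fun a A hA => by
      subst hA
      ext v
      rw [mem_zup]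
      simp) (f := ne0) (g := fun _ => (0 : ℝ))
    (fun A hA => by simp [ne0, hA]) t (s := ∅) rfl
  unfold zsg
  rw [h, sg_const]

lemma zsg_site (t : ℝ) (x : V d L) :
    zsg (∅ : Finset (V d L)) t ne0 {x} = rho d L t := by
  have h := zsg_image_add (∅ : Finset (V d L)) x t ne0 {0}
  have h1 : (fun A : Finset (V d L) => ne0 (A.image (· + x))) = ne0 := by
    funext A
    simp only [ne0, Finset.image_eq_empty]
  rw [h1] at h
  simpa [rho_eq] using h

lemma zsg_union {t : ℝ} (ht : 0 ≤ t) (A B : Finset (V d L)) :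
    zsg (∅ : Finset (V d L)) t ne0 (A ∪ B) ≤
      zsg (∅ : Finset (V d L)) t ne0 A + zsg (∅ : Finset (V d L)) t ne0 B := by
  set φ2 : Ar d L → Finset (V d L) × Finset (V d L) → Finset (V d L) × Finset (V d L) :=
    fun a s => (zup ∅ a s.1, zup ∅ a s.2) with hφ
  have h1 := sg_map (r := fun _ : Ar d L => ra d) (φ := φ2) (ψ := zup (∅ : Finset (V d L)))
    (fun s => s.1 ∪ s.2) (Inv := fun _ => True) (fun _ _ _ => trivial)
    (fun a s _ => by simp only [hφ]; rw [zup_empty_union]) t ne0 (s := (A, B)) trivial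
  have h2 := sg_map (r := fun _ : Ar d L => ra d) (φ := φ2) (ψ := zup (∅ : Finset (V d L)))
    (fun s => s.1) (Inv := fun _ => True) (fun _ _ _ => trivial)
    (fun a s _ => rfl) t ne0 (s := (A, B)) trivial
  have h3 := sg_map (r := fun _ : Ar d L => ra d) (φ := φ2) (ψ := zup (∅ : Finset (V d L)))
    (fun s => s.2) (Inv := fun _ => True) (fun _ _ _ => trivial)
    (fun a s _ => rfl) t ne0 (s := (A, B)) trivial
  unfold zsg
  rw [← h1, ← h2, ← h3, ← sg_add (grF_of_finite ra0 _) (grF_of_finite ra0 _)]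
  refine sg_mono' ra0 (grF_of_finite ra0 _) (grF_of_finite ra0 _) (fun s => ?_) ht _
  unfold ne0
  by_cases h : s.1 = ∅
  · by_cases h' : s.2 = ∅
    · simp [h, h']
    · simp [h, h']
  · by_cases h' : s.2 = ∅
    · simp [h, h']
    · have : s.1 ∪ s.2 ≠ ∅ := by
        intro h0
        exact h (Finset.union_eq_empty.1 h0).1
      rw [if_neg this, if_neg h, if_neg h']
      norm_num

lemma zsg_card {t : ℝ} (ht : 0 ≤ t) (A : Finset (V d L)) :
    zsg (∅ : Finset (V d L)) t ne0 A ≤ A.card * rho d L t := by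
  induction A using Finset.induction_on with
  | empty => rw [zsg_empty]; simp
  | insert x A hx ih =>
    have h := zsg_union ht {x} A
    rw [zsg_site, Finset.singleton_union] at h
    rw [Finset.card_insert_of_notMem hx]
    push_cast
    linarith

lemma zsg_le_one {t : ℝ} (ht : 0 ≤ t) (A : Finset (V d L)) :
    zsg (∅ : Finset (V d L)) t ne0 A ≤ 1 := by
  have h := sg_mono' (r := fun _ : Ar d L => ra d) (φ := zup (∅ : Finset (V d L))) ra0
    (grF_of_finite ra0 ne0) (grF_of_finite ra0 (fun _ => (1 : ℝ))) (fun A => ne0_le_one A) ht A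
  rwa [sg_const] at h

end MOM0SB_

open MOM0SB_ in
theorem t_MOM0 : T_MOM0 := by
  intro d L t hd ht
  have hg : ∀ f : Finset (V d L) → ℝ,
      GrF (fun _ : Ar d L => ra d) (zup (∅ : Finset (V d L))) f := fun f =>
    grF_of_finite ra0 f
  have h1 : ∀ s : ℝ, zsg (∅ : Finset (V d L)) s (fun A => (A.card : ℝ)) {0} = 1 := by
    intro s
    unfold zsg
    rw [sg_dynkin (hg _)]
    have e : gen (fun _ : Ar d L => ra d) (zup (∅ : Finset (V d L))) (fun A => (A.card : ℝ)) =
        fun _ => 0 := by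
      funext A; exact gen1 hd A
    rw [e]
    simp [sg_const]
  have h2 : ∀ s : ℝ, 0 ≤ s →
      zsg (∅ : Finset (V d L)) s (fun A => (A.card : ℝ) ^ 2) {0} ≤ 1 + 2 * s := by
    intro s hs
    unfold zsg
    rw [sg_dynkin (hg _)]
    have e : ∫ u in (0 : ℝ)..s, sg (fun _ : Ar d L => ra d) (zup (∅ : Finset (V d L))) u
        (gen (fun _ : Ar d L => ra d) (zup (∅ : Finset (V d L)))
          (fun A => (A.card : ℝ) ^ 2)) {0} ≤ ∫ _u in (0 : ℝ)..s, (2 : ℝ) := by
      refine intervalIntegral.integral_mono_on hs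
        ((continuous_sg (hg _) _).intervalIntegrable _ _)
        (continuous_const.intervalIntegrable _ _) fun u hu => ?_
      have h3 := sg_mono' ra0 (hg _) (hg (fun A => 2 * (A.card : ℝ))) (fun A => gen2 hd A) hu.1
        ({0} : Finset (V d L))
      rw [sg_smul] at h3
      have h4 := h1 u
      unfold zsg at h4
      rw [h4] at h3
      linarith
    rw [intervalIntegral.integral_const, smul_eq_mul] at e
    simp only [Finset.card_singleton, Nat.cast_one, one_pow]
    linarith
  refine ⟨h1 t, h2 t ht, ?_⟩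
  unfold zsg
  rw [sg_dynkin (hg _)]
  have e : ∫ u in (0 : ℝ)..t, sg (fun _ : Ar d L => ra d) (zup (∅ : Finset (V d L))) u
      (gen (fun _ : Ar d L => ra d) (zup (∅ : Finset (V d L)))
        (fun A => (A.card : ℝ) ^ 3)) {0} ≤ ∫ u in (0 : ℝ)..t, (6 * (1 + 2 * u) : ℝ) := by
    refine intervalIntegral.integral_mono_on ht
      ((continuous_sg (hg _) _).intervalIntegrable _ _)
      ((by fun_prop : Continuous fun u : ℝ => 6 * (1 + 2 * u)).intervalIntegrable _ _)
      fun u hu => ?_
    have h3 := sg_mono' ra0 (hg _) (hg (fun A => 6 * (A.card : ℝ) ^ 2)) (fun A => gen3 hd A) hu.1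
      ({0} : Finset (V d L))
    rw [sg_smul] at h3
    have h4 := h2 u hu.1
    unfold zsg at h4
    linarith
  have e2 : ∫ u in (0 : ℝ)..t, (6 * (1 + 2 * u) : ℝ) = (6 * t + 6 * t ^ 2) - (6 * 0 + 6 * 0 ^ 2) :=
    intervalIntegral.integral_eq_sub_of_hasDerivAt (f := fun u : ℝ => 6 * u + 6 * u ^ 2)
      (fun u _ => by
        have h5 := ((hasDerivAt_id u).const_mul 6).add ((hasDerivAt_pow 2 u).const_mul 6)
        refine h5.congr_deriv ?_
        simp
        ring)
      ((by fun_prop : Continuous fun u : ℝ => 6 * (1 + 2 * u)).intervalIntegrable _ _)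
  rw [e2] at e
  simp only [Finset.card_singleton, Nat.cast_one, one_pow]
  nlinarith

open MOM0SB_ in
theorem t_SB (_hM : T_MONO) : T_SB := by
  intro d L κ s t hd hκ hs ht
  have hg : ∀ f : Finset (V d L) → ℝ,
      GrF (fun _ : Ar d L => ra d) (zup (∅ : Finset (V d L))) f := fun f =>
    grF_of_finite ra0 f
  have e1 : rho d L (t + s) =
      zsg (∅ : Finset (V d L)) t (fun A => zsg (∅ : Finset (V d L)) s ne0 A) {0} := by
    rw [rho_eq]
    unfold zsg
    rw [sg_sg (hg _)]
  have hρ : 0 ≤ rho d L s := by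
    rw [rho_eq]
    exact sg_nonneg (Inv := fun _ => True) ra0 (fun _ _ _ => trivial) (hg _)
      (fun A _ => ne0_nonneg A) hs trivial
  rw [e1, rho_eq t]
  unfold sm zsg
  rw [← sg_sub (hg _) (hg _), mul_comm, ← sg_smul]
  refine sg_mono' ra0 (hg _) (hg _) (fun A => ?_) ht _
  have h1 := zsg_card hs A
  have h2 := zsg_le_one hs A
  unfold zsg at h1 h2
  by_cases hA : A = ∅
  · subst hA
    have h3 := zsg_empty (d := d) (L := L) s
    unfold zsg at h3
    rw [h3]
    simp [ne0]
  · by_cases hc : (A.card : ℝ) < κ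
    · rw [if_pos ⟨hA, hc⟩]
      have h4 : ne0 A = 1 := by simp [ne0, hA]
      rw [h4]
      have h5 : (A.card : ℝ) * rho d L s ≤ κ * rho d L s :=
        mul_le_mul_of_nonneg_right hc.le hρ
      linarith
    · rw [if_neg (fun h => hc h.2)]
      have h4 : ne0 A = 1 := by simp [ne0, hA]
      rw [h4]
      linarith

end Pool.Agent.CAS
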