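import Pool.Agent.CAS.Basic

/-!
# Monotonicity of the voter model with zealots
-/

open Finset Filter Topology MeasureTheory
open scoped BigOperators

namespace Pool.Agent.CAS

namespace MONO_

variable {d L : ℕ}

lemma qop_antitone (Z : Finset (V d L)) {f : Finset (V d L) → ℝ} (hf : Antitone f) (k : ℕ) :
    Antitone ((Qop (fun _ : Ar d L => ra d) (zup Z))^[k] f) := by
  induction k with
  | zero => exact hf
  | succ k ih =>
    intro A B hAB
    rw [Function.iterate_succ_apply']
    exact Finset.sum_le_sum fun a _ => mul_le_mul_of_nonneg_left (ih (zup_mono hAB)) (ra_nonneg d)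

lemma zsg_antitone (Z : Finset (V d L)) {f : Finset (V d L) → ℝ} (hf : Antitone f) {t : ℝ}
    (ht : 0 ≤ t) : Antitone (zsg Z t f) := by
  intro A B hAB
  unfold zsg
  rw [sg_eq, sg_eq]
  have hg : ∀ A, Gr fun k => ((Qop (fun _ : Ar d L => ra d) (zup Z))^[k] f) A :=
    fun A => grF_of_finite (fun _ => ra_nonneg d) f A
  exact mul_le_mul_of_nonneg_left (es_mono (hg B) (hg A) ht fun k => qop_antitone Z hf k hAB)
    (Real.exp_pos _).le

lemma gf (Z : Finset (V d L)) (f : Finset (V d L) → ℝ) :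
    GrF (fun _ : Ar d L => ra d) (zup Z) f := grF_of_finite (fun _ => ra_nonneg d) f

lemma zsg_add (Z : Finset (V d L)) (f : Finset (V d L) → ℝ) (s t : ℝ) (A : Finset (V d L)) :
    zsg Z (s + t) f A = zsg Z s (zsg Z t f) A := sg_sg (gf Z f) s t A

lemma zsg_mono (Z : Finset (V d L)) {f g : Finset (V d L) → ℝ} (h : ∀ A, f A ≤ g A) {t : ℝ}
    (ht : 0 ≤ t) (A : Finset (V d L)) : zsg Z t f A ≤ zsg Z t g A :=
  sg_mono' (fun _ => ra_nonneg d) (gf Z f) (gf Z g) h ht A

lemma zsg_const (Z : Finset (V d L)) (t c : ℝ) (A : Finset (V d L)) :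
    zsg Z t (fun _ => c) A = c := sg_const t c A

lemma zsg_empty_le (Z : Finset (V d L)) {f : Finset (V d L) → ℝ} {s t : ℝ} (hs : 0 ≤ s)
    (ht : 0 ≤ t) (hf : Antitone f) : zsg Z (s + t) f ∅ ≤ zsg Z t f ∅ := by
  rw [zsg_add]
  have := zsg_mono Z (f := zsg Z t f) (g := fun _ => zsg Z t f ∅)
    (fun A => zsg_antitone Z hf ht (Finset.empty_subset A)) hs ∅
  rwa [zsg_const] at this

lemma ind_antitone : Antitone (fun A : Finset (V d L) => if A = ∅ then (1 : ℝ) else 0) := by
  intro A B hAB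
  show (if B = ∅ then (1 : ℝ) else 0) ≤ if A = ∅ then (1 : ℝ) else 0
  by_cases hB : B = ∅
  · have hA : A = ∅ := Finset.subset_empty.1 (hB ▸ hAB)
    simp [hA, hB]
  · rw [if_neg hB]
    split_ifs <;> norm_num

lemma zsg_alive_le {u : ℝ} (hu : 0 ≤ u) (A : Finset (V d L)) :
    zsg (∅ : Finset (V d L)) u (fun A => if A = ∅ then 0 else 1) A ≤ if A = ∅ then 0 else 1 := by
  by_cases hA : A = ∅
  · have h1 : zsg (∅ : Finset (V d L)) u (fun A => if A = ∅ then 0 else 1) A =
        zsg (∅ : Finset (V d L)) u (fun _ => 0) A := by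
      unfold zsg
      refine sg_congr (fun _ => ra_nonneg d) (Inv := fun A => A = ∅) ?_ ?_ u hA
      · intro a B hB
        subst hB
        ext v
        rw [mem_zup]
        simp
      · intro B hB
        simp [hB]
    rw [h1, zsg_const, if_pos hA]
  · rw [if_neg hA]
    have := zsg_mono (∅ : Finset (V d L)) (f := fun A => if A = ∅ then (0 : ℝ) else 1)
      (g := fun _ => 1) (fun B => by show (if B = ∅ then (0 : ℝ) else 1) ≤ 1; split_ifs <;> norm_num)
      hu A
    rwa [zsg_const] at this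

end MONO_

open MONO_ in
theorem t_MONO : T_MONO := by
  intro d L
  refine ⟨fun Z f t ht hf => zsg_antitone Z hf ht, fun Z f s t hs ht hf => zsg_empty_le Z hs ht hf,
    ?_, ?_, ?_⟩
  · intro s t hs hst
    have := zsg_empty_le ({0} : Finset (V d L)) (sub_nonneg.2 hst) hs ind_antitone
    rw [sub_add_cancel] at this
    exact this
  · intro s t hs hst
    have h1 : rho d L t = zsg (∅ : Finset (V d L)) s
        (zsg (∅ : Finset (V d L)) (t - s) (fun A => if A = ∅ then 0 else 1)) {0} := by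
      rw [← zsg_add, add_sub_cancel]
      rfl
    rw [h1]
    exact zsg_mono _ (fun A => zsg_alive_le (sub_nonneg.2 hst) A) hs _
  · intro t ht
    have h0 : ∀ (Z : Finset (V d L)) (f : Finset (V d L) → ℝ), (∀ A, 0 ≤ f A) → (∀ A, f A ≤ 1) →
        ∀ A, 0 ≤ zsg Z t f A ∧ zsg Z t f A ≤ 1 := by
      intro Z f h0 h1 A
      constructor
      · have := zsg_mono Z (f := fun _ => 0) h0 ht A
        rwa [zsg_const] at this
      · have := zsg_mono Z (g := fun _ => 1) h1 ht A
        rwa [zsg_const] at this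
    have hu := h0 ({0} : Finset (V d L)) (fun A => if A = ∅ then 1 else 0)
      (fun A => by show (0 : ℝ) ≤ if A = ∅ then 1 else 0; split_ifs <;> norm_num)
      (fun A => by show (if A = ∅ then (1 : ℝ) else 0) ≤ 1; split_ifs <;> norm_num) ∅
    have hr := h0 (∅ : Finset (V d L)) (fun A => if A = ∅ then 0 else 1)
      (fun A => by show (0 : ℝ) ≤ if A = ∅ then 0 else 1; split_ifs <;> norm_num)
      (fun A => by show (if A = ∅ then (0 : ℝ) else 1) ≤ 1; split_ifs <;> norm_num) {0}
    exact ⟨hu.1, hu.2, hr.1, hr.2⟩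

end Pool.Agent.CAS
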