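import Pool.Agent.CAS.Basic

/-!
# Negative correlation of unvisited sites
-/

open Finset Filter Topology MeasureTheory
open scoped BigOperators

namespace Pool.Agent.CAS

set_option linter.unusedSectionVars false

namespace N1_

variable {d L : ℕ}

/-- forgetting the coin -/
lemma gen_coin {S : Type*} {ε : ℝ} (φ : Ar d L → S → S) (f : S → ℝ) (s : S) :
    gen (rc d L ε) (fun a : Ar d L × Bool => φ a.1) f s = gen (fun _ : Ar d L => ra d) φ f s := by
  unfold gen
  rw [Fintype.sum_prod_type]
  refine Finset.sum_congr rfl fun a _ => ?_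
  simp only [Fintype.sum_bool, rc, if_true, Bool.false_eq_true, if_false]
  ring

/-- the joint dual -/
def jup (x y : V d L) (a : Ar d L) (p : Finset (V d L) × Finset (V d L)) :
    Finset (V d L) × Finset (V d L) := (zup {x} a p.1, zup {y} a p.2)

open Classical in
/-- one-site duality function -/
noncomputable def D1 (x : V d L) (s : FS d L) (A : Finset (V d L)) : ℝ :=
  if x ∉ s.vis ∧ ∀ z, z ≠ x → s.pos z ∉ A then 1 else 0

/-- the invariant for the flow -/
def IF (x : V d L) (s : FS d L) : Prop := ∀ z, z ≠ x → s.pos z = x → x ∈ s.vis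

lemma IF_fup {x : V d L} (a : Ar d L × Bool) (s : FS d L) (h : IF x s) : IF x (fup a s) := by
  intro z hz hp
  rw [fup_pos] at hp
  rw [mem_fup_vis]
  split_ifs at hp with h1
  · left
    refine ⟨hp.symm, z, ?_, h1⟩
    rw [hp]; exact hz
  · right; exact h z hz hp

lemma D1_fup {x : V d L} (a : Ar d L × Bool) (s : FS d L) (A : Finset (V d L)) (h : IF x s) :
    D1 x (fup a s) A = D1 x s (zup {x} a.1 A) := by
  unfold D1
  congr 1
  apply propext
  rw [mem_fup_vis]
  simp only [fup_pos, mem_zup, Finset.mem_singleton, Finset.mem_union]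
  by_cases hv : x ∈ s.vis
  · simp [hv]
  by_cases ha : a.1.1 = x
  · have h1 : ∀ z, z ≠ x → s.pos z ≠ a.1.1 := by
      intro z hz hp
      rw [ha] at hp
      exact hv (h z hz hp)
    constructor
    · rintro ⟨h2, h3⟩
      refine ⟨hv, fun z hz => ?_⟩
      have h4 := h3 z hz
      rw [if_neg (h1 z hz)] at h4
      rw [if_neg (fun h5 => h5.2 ha)]
      exact h4
    · rintro ⟨_, h3⟩
      refine ⟨?_, fun z hz => ?_⟩
      · rintro (⟨h4, z, hz, h5⟩ | h4)
        · exact h1 z (by rw [h4]; exact hz) h5
        · exact hv h4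
      · have h4 := h3 z hz
        rw [if_neg (fun h5 => h5.2 ha)] at h4
        rw [if_neg (h1 z hz)]
        exact h4
  · constructor
    · rintro ⟨h2, h3⟩
      refine ⟨hv, fun z hz => ?_⟩
      have h4 := h3 z hz
      by_cases h5 : s.pos z = a.1.1
      · rw [if_pos h5] at h4
        rw [if_pos ⟨h5, ha⟩]
        rintro (h6 | h6)
        · exact h4 h6
        · exact h2 (Or.inl ⟨h6.symm, z, by rw [h6]; exact hz, h5⟩)
      · rw [if_neg h5] at h4
        rw [if_neg (fun h6 => h5 h6.1)]
        exact h4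
    · rintro ⟨_, h3⟩
      refine ⟨?_, fun z hz => ?_⟩
      · rintro (⟨h4, z, hz, h5⟩ | h4)
        · have h6 := h3 z (by rw [h4]; exact hz)
          rw [if_pos ⟨h5, ha⟩] at h6
          exact h6 (Or.inr h4.symm)
        · exact hv h4
      · have h4 := h3 z hz
        by_cases h5 : s.pos z = a.1.1
        · rw [if_pos ⟨h5, ha⟩] at h4
          rw [if_pos h5]
          exact fun h6 => h4 (Or.inl h6)
        · rw [if_neg (fun h6 => h5 h6.1)] at h4
          rw [if_neg h5]
          exact h4

open Classical in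
/-- the duality -/
lemma vis2_dual {ε : ℝ} (t : ℝ) (x y : V d L) :
    vis2 ε t x y = sg (rc d L ε) (fun a : Ar d L × Bool => jup x y a.1) t
      (fun p => D1 x (FS.init d L) p.1 * D1 y (FS.init d L) p.2) (∅, ∅) := by
  have hI : ∀ (x : V d L), IF x (FS.init d L) := fun x z hz hp => absurd hp hz
  have key := sg_duality (r := rc d L ε) (φ := fup)
    (ψ := fun a : Ar d L × Bool => jup x y a.1)
    (fun s p => D1 x s p.1 * D1 y s p.2) (Inv := fun s => IF x s ∧ IF y s)
    (Inv' := fun _ => True) (fun a s h => ⟨IF_fup a s h.1, IF_fup a s h.2⟩)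
    (fun _ _ _ => trivial)
    (fun a s p h _ => by
      show D1 x (fup a s) p.1 * D1 y (fup a s) p.2 = _
      rw [D1_fup a s _ h.1, D1_fup a s _ h.2]; rfl)
    t (s := FS.init d L) (s' := (∅, ∅)) ⟨hI x, hI y⟩ trivial
  rw [← key]
  unfold vis2 fsg
  congr 1
  funext s
  unfold D1
  simp only [Finset.notMem_empty, not_false_eq_true, implies_true, and_true]
  by_cases h1 : x ∉ s.vis <;> by_cases h2 : y ∉ s.vis <;> simp [h1, h2]

/-- one line: the site `v` is occupied iff its line has hit the zealot -/
lemma occ_dual {t : ℝ} (ht : 0 ≤ t) (x v : V d L) :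
    zsg ({x} : Finset (V d L)) t (fun A => if v ∈ A ∪ {x} then 1 else 0) ∅ = hit t v x := by
  have key := sg_duality (r := fun _ : Ar d L => ra d) (φ := zup {x})
    (ψ := fun (a : Ar d L) (z : V d L) => if z = a.1 ∧ z ≠ x then z + dv a.2 else z)
    (fun (A : Finset (V d L)) z => if z ∈ A ∪ {x} then (1 : ℝ) else 0) (Inv := fun _ => True)
    (Inv' := fun _ => True) (fun _ _ _ => trivial) (fun _ _ _ => trivial)
    (fun a A z _ _ => by
      congr 1
      apply propext
      simp only [Finset.mem_union, Finset.mem_singleton, mem_zup]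
      by_cases hz : z = x
      · subst hz; simp
      · by_cases h1 : z = a.1
        · subst h1
          simp [hz]
        · simp [hz, h1])
    t (s := ∅) (s' := v) trivial trivial
  unfold zsg
  rw [key]
  unfold hit
  have h2 := sg_lump (r := fun _ : Ar d L => ra d) (r' := fun _ : Dir d => ra d)
    (φ := fun (a : Ar d L) (z : V d L) => if z = a.1 ∧ z ≠ x then z + dv a.2 else z)
    (ψ := fun (e : Dir d) (z : V d L) => if z = x then z else z + dv e)
    (fun _ => ra_nonneg d) (fun _ => ra_nonneg d) (Inv := fun _ => True) (fun _ _ _ => trivial)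
    id (fun f s _ => by
      unfold gen
      rw [Fintype.sum_prod_type, Finset.sum_comm]
      refine Finset.sum_congr rfl fun e _ => ?_
      rw [Finset.sum_eq_single s]
      · by_cases hs : s = x
        · subst hs; simp
        · simp [hs]
      · intro b _ hb
        simp [Ne.symm hb]
      · intro h; exact absurd (Finset.mem_univ _) h)
    ht (fun z => if z = x then (1 : ℝ) else 0) (s := v) trivial
  simp only [id] at h2
  rw [← h2]
  congr 1
  funext z
  simp

/-- disjointness -/
def Dj (x y : V d L) (p : Finset (V d L) × Finset (V d L)) : Prop :=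
  Disjoint (p.1 ∪ {x}) (p.2 ∪ {y})

/-- boundary term -/
noncomputable def bd (x y : V d L) (A : Finset (V d L)) : ℝ :=
  ∑ e : Dir d, ra d * (if y + dv e ∈ A ∪ {x} then 1 else 0)

/-- empty indicator -/
noncomputable def ei (A : Finset (V d L)) : ℝ := if A = ∅ then 1 else 0

/-- integrated boundary term -/
noncomputable def VV (x y : V d L) (t : ℝ) (A : Finset (V d L)) : ℝ :=
  ∫ s in (0 : ℝ)..t, zsg {x} s (bd x y) A

lemma hz0 : ∀ _ : Ar d L, 0 ≤ ra d := fun _ => ra_nonneg d

lemma hasDerivAt_VV (x y : V d L) (t : ℝ) (A : Finset (V d L)) :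
    HasDerivAt (fun t => VV x y t A) (zsg {x} t (bd x y) A) t := by
  have hc : Continuous fun s => zsg {x} s (bd x y) A :=
    continuous_sg (grF_of_finite hz0 _) A
  exact intervalIntegral.integral_hasDerivAt_right (hc.intervalIntegrable _ _)
    (hc.stronglyMeasurableAtFilter _ _) hc.continuousAt

lemma gen_VV (x y : V d L) (t : ℝ) (A : Finset (V d L)) :
    gen (fun _ : Ar d L => ra d) (zup {x}) (VV x y t) A =
      zsg {x} t (bd x y) A - bd x y A := by
  have hf : GrF (fun _ : Ar d L => ra d) (zup {x}) (bd x y) := grF_of_finite hz0 _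
  have hc : ∀ A, Continuous fun s => zsg {x} s (bd x y) A := fun A => continuous_sg hf A
  have h1 := sg_dynkin hf t A
  have h2 : ∀ s, sg (fun _ : Ar d L => ra d) (zup {x})
      s (gen (fun _ : Ar d L => ra d) (zup {x}) (bd x y)) A =
      ∑ a : Ar d L, ra d * (zsg {x} s (bd x y) (zup {x} a A) - zsg {x} s (bd x y) A) := by
    intro s
    rw [← gen_sg hf]; rfl
  simp only [h2] at h1
  have hc2 : ∀ a : Ar d L, Continuous fun s =>
      ra d * (zsg {x} s (bd x y) (zup {x} a A) - zsg {x} s (bd x y) A) := fun a =>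
    continuous_const.mul ((hc _).sub (hc _))
  rw [intervalIntegral.integral_finsetSum (fun a _ => (hc2 a).intervalIntegrable _ _)] at h1
  unfold zsg
  rw [h1]
  unfold gen VV
  rw [add_sub_cancel_left]
  refine Finset.sum_congr rfl fun a _ => ?_
  rw [intervalIntegral.integral_const_mul, intervalIntegral.integral_sub
    ((hc _).intervalIntegrable _ _) ((hc _).intervalIntegrable _ _)]

lemma VV_zero (x y : V d L) (A : Finset (V d L)) : VV x y 0 A = 0 := by
  unfold VV; simp

open Classical in
/-- the supersolution without the integrals -/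
noncomputable def GG (x y : V d L) (t : ℝ) (p : Finset (V d L) × Finset (V d L)) : ℝ :=
  if Dj x y p then zsg {x} t ei p.1 * zsg {y} t ei p.2 else 1

open Classical in
/-- its time derivative -/
noncomputable def GG' (x y : V d L) (t : ℝ) (p : Finset (V d L) × Finset (V d L)) : ℝ :=
  if Dj x y p then
    gen (fun _ : Ar d L => ra d) (zup {x}) (zsg {x} t ei) p.1 * zsg {y} t ei p.2 +
    zsg {x} t ei p.1 * gen (fun _ : Ar d L => ra d) (zup {y}) (zsg {y} t ei) p.2 else 0

lemma z_nonneg (Z : Finset (V d L)) {t : ℝ} (ht : 0 ≤ t) (A : Finset (V d L)) :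
    0 ≤ zsg Z t ei A :=
  sg_nonneg hz0 (Inv := fun _ => True) (fun _ _ _ => trivial) (grF_of_finite hz0 _)
    (fun u _ => by unfold ei; split_ifs <;> norm_num) ht trivial

lemma z_le_one (Z : Finset (V d L)) {t : ℝ} (ht : 0 ≤ t) (A : Finset (V d L)) :
    zsg Z t ei A ≤ 1 := by
  have h := sg_mono' (r := fun _ : Ar d L => ra d) (φ := zup Z) hz0 (f := ei) (g := fun _ => 1)
    (grF_of_finite hz0 _) (grF_of_finite hz0 _) (fun u => by unfold ei; split_ifs <;> norm_num)
    ht A
  rwa [sg_const] at h

lemma ei_antitone : Antitone (ei : Finset (V d L) → ℝ) := by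
  intro A B h
  unfold ei
  by_cases h1 : B = ∅
  · subst h1
    have : A = ∅ := Finset.subset_empty.1 h
    rw [if_pos this]; simp
  · rw [if_neg h1]; split_ifs <;> norm_num

lemma GG_le_one (x y : V d L) {t : ℝ} (ht : 0 ≤ t) (p : Finset (V d L) × Finset (V d L)) :
    GG x y t p ≤ 1 := by
  unfold GG
  split_ifs
  · calc zsg {x} t ei p.1 * zsg {y} t ei p.2 ≤ 1 * 1 :=
        mul_le_mul (z_le_one _ ht _) (z_le_one _ ht _) (z_nonneg _ ht _) zero_le_one
      _ = 1 := by norm_num
  · exact le_rfl

/-- the key inequality for one arrow -/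
lemma arrow {x y : V d L} (hM : T_MONO) {t : ℝ} (ht : 0 ≤ t)
    {p : Finset (V d L) × Finset (V d L)} (hp : Dj x y p) (hx : x ∉ p.1) (hy : y ∉ p.2)
    (a : Ar d L) :
    GG x y t (jup x y a p) - GG x y t p ≤
      (zsg {x} t ei (zup {x} a p.1) - zsg {x} t ei p.1) * zsg {y} t ei p.2 +
      zsg {x} t ei p.1 * (zsg {y} t ei (zup {y} a p.2) - zsg {y} t ei p.2) +
      ((if a.1 = y ∧ y + dv a.2 ∈ p.1 ∪ {x} then 1 else 0) +
        (if a.1 = x ∧ x + dv a.2 ∈ p.2 ∪ {y} then 1 else 0)) := by
  obtain ⟨A, B⟩ := p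
  obtain ⟨α, e⟩ := a
  simp only [Dj] at hp hx hy
  have hdj : ∀ v, v ∈ A ∪ {x} → v ∈ B ∪ {y} → False := fun v h1 h2 =>
    Finset.disjoint_left.1 hp h1 h2
  have hxy : x ≠ y := fun h => hdj x (by simp) (by simp [h])
  have hxB : x ∉ B := fun h => hdj x (by simp) (by simp [h])
  have hyA : y ∉ A := fun h => hdj y (by simp [h]) (by simp)
  have hm : ∀ Z : Finset (V d L), Antitone (zsg Z t ei) := fun Z =>
    (hM d L).1 Z ei t ht ei_antitone
  have n1 := z_nonneg {x} ht A
  have n2 := z_nonneg {y} ht B
  have n3 := z_nonneg {x} ht (zup {x} (α, e) A)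
  have n4 := z_nonneg {y} ht (zup {y} (α, e) B)
  have l1 := z_le_one {x} ht A
  have l2 := z_le_one {y} ht B
  have hG : GG x y t (A, B) = zsg {x} t ei A * zsg {y} t ei B := by
    unfold GG; rw [if_pos]; exact hp
  rw [hG]
  simp only [jup]
  by_cases hj : Dj x y (zup {x} (α, e) A, zup {y} (α, e) B)
  · have hG' : GG x y t (zup {x} (α, e) A, zup {y} (α, e) B) =
        zsg {x} t ei (zup {x} (α, e) A) * zsg {y} t ei (zup {y} (α, e) B) := by
      unfold GG; rw [if_pos hj]
    rw [hG']
    have key : (zsg {x} t ei (zup {x} (α, e) A) - zsg {x} t ei A) *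
        (zsg {y} t ei (zup {y} (α, e) B) - zsg {y} t ei B) ≤ 0 := by
      by_cases h1 : α = x
      · rw [zup_of_mem (by rw [h1]; simp)]; simp
      by_cases h2 : α = y
      · rw [zup_of_mem (Z := {y}) (by rw [h2]; simp)]; simp
      have hx' : α ∉ ({x} : Finset (V d L)) := by simpa using h1
      have hy' : α ∉ ({y} : Finset (V d L)) := by simpa using h2
      by_cases h3 : α + dv e ∈ A ∪ {x}
      · have h4 : α + dv e ∉ B ∪ {y} := fun h => hdj _ h3 h
        rw [zup_of_occ hx' h3, zup_of_not hy' h4]
        exact mul_nonpos_of_nonpos_of_nonneg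
          (sub_nonpos.2 (hm _ (Finset.subset_insert _ _)))
          (sub_nonneg.2 (hm _ (Finset.erase_subset _ _)))
      · by_cases h4 : α + dv e ∈ B ∪ {y}
        · rw [zup_of_not hx' h3, zup_of_occ hy' h4]
          exact mul_nonpos_of_nonneg_of_nonpos
            (sub_nonneg.2 (hm _ (Finset.erase_subset _ _)))
            (sub_nonpos.2 (hm _ (Finset.subset_insert _ _)))
        · rw [zup_of_not hx' h3, zup_of_not hy' h4]
          by_cases h5 : α ∈ A
          · have h6 : α ∉ B := fun h => hdj α (by simp [h5]) (by simp [h])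
            rw [Finset.erase_eq_of_notMem h6]; simp
          · rw [Finset.erase_eq_of_notMem h5]; simp
    have i1 : (0 : ℝ) ≤ (if α = y ∧ y + dv e ∈ A ∪ {x} then 1 else 0) := by
      split_ifs <;> norm_num
    have i2 : (0 : ℝ) ≤ (if α = x ∧ x + dv e ∈ B ∪ {y} then 1 else 0) := by
      split_ifs <;> norm_num
    nlinarith [key, i1, i2]
  · have hG' : GG x y t (zup {x} (α, e) A, zup {y} (α, e) B) = 1 := by
      unfold GG; rw [if_neg hj]
    rw [hG']
    by_cases h1 : α = x
    · subst h1
      have e1 : zup {α} (α, e) A = A := zup_of_mem (by simp)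
      rw [e1] at hj ⊢
      have h3 : α + dv e ∈ B ∪ {y} := by
        by_contra h4
        apply hj
        rw [zup_of_not (by simpa using hxy) h4]
        refine Disjoint.mono_right ?_ hp
        exact Finset.union_subset_union_left (Finset.erase_subset _ _)
      rw [if_neg (fun h => hxy h.1), if_pos ⟨rfl, h3⟩]
      nlinarith [mul_nonneg n1 n4]
    · by_cases h2 : α = y
      · subst h2
        have e1 : zup {α} (α, e) B = B := zup_of_mem (by simp)
        rw [e1] at hj ⊢
        have h3 : α + dv e ∈ A ∪ {x} := by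
          by_contra h4
          apply hj
          rw [zup_of_not (by simpa using h1) h4]
          refine Disjoint.mono_left ?_ hp
          exact Finset.union_subset_union_left (Finset.erase_subset _ _)
        rw [if_pos ⟨rfl, h3⟩, if_neg (fun h => h1 h.1)]
        nlinarith [mul_nonneg n3 n2]
      · exfalso
        apply hj
        have hx' : α ∉ ({x} : Finset (V d L)) := by simpa using h1
        have hy' : α ∉ ({y} : Finset (V d L)) := by simpa using h2
        show Disjoint _ _
        rw [Finset.disjoint_left]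
        intro v hv1 hv2
        simp only [Finset.mem_union, Finset.mem_singleton, mem_zup] at hv1 hv2
        by_cases hv : v = α
        · subst hv
          simp only [h1, h2, or_false, not_false_eq_true, and_self, if_true] at hv1 hv2
          exact hdj (v + dv e) (by simp; tauto) (by simp; tauto)
        · simp only [hv, false_and, if_false] at hv1 hv2
          exact hdj v (by simp; tauto) (by simp; tauto)

lemma gen_GG {x y : V d L} (hM : T_MONO) {t : ℝ} (ht : 0 ≤ t)
    {p : Finset (V d L) × Finset (V d L)} (hx : x ∉ p.1) (hy : y ∉ p.2) :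
    gen (fun _ : Ar d L => ra d) (jup x y) (GG x y t) p ≤
      GG' x y t p + bd x y p.1 + bd y x p.2 := by
  have b0 : ∀ (x y : V d L) A, 0 ≤ bd x y A := fun x y A => by
    unfold bd
    refine Finset.sum_nonneg fun e _ => mul_nonneg (ra_nonneg d) ?_
    split_ifs <;> norm_num
  by_cases hp : Dj x y p
  · unfold GG'
    rw [if_pos hp]
    have h1 : gen (fun _ : Ar d L => ra d) (jup x y) (GG x y t) p ≤
        ∑ a : Ar d L, ra d * ((zsg {x} t ei (zup {x} a p.1) - zsg {x} t ei p.1) *
          zsg {y} t ei p.2 +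
          zsg {x} t ei p.1 * (zsg {y} t ei (zup {y} a p.2) - zsg {y} t ei p.2) +
          ((if a.1 = y ∧ y + dv a.2 ∈ p.1 ∪ {x} then 1 else 0) +
            (if a.1 = x ∧ x + dv a.2 ∈ p.2 ∪ {y} then 1 else 0))) :=
      Finset.sum_le_sum fun a _ => mul_le_mul_of_nonneg_left (arrow hM ht hp hx hy a)
        (ra_nonneg d)
    refine h1.trans (le_of_eq ?_)
    simp only [mul_add, Finset.sum_add_distrib]
    have e1 : ∑ a : Ar d L, ra d * ((zsg {x} t ei (zup {x} a p.1) - zsg {x} t ei p.1) *
        zsg {y} t ei p.2) =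
        gen (fun _ : Ar d L => ra d) (zup {x}) (zsg {x} t ei) p.1 * zsg {y} t ei p.2 := by
      unfold gen
      rw [Finset.sum_mul]
      exact Finset.sum_congr rfl fun a _ => by ring
    have e2 : ∑ a : Ar d L, ra d * (zsg {x} t ei p.1 *
        (zsg {y} t ei (zup {y} a p.2) - zsg {y} t ei p.2)) =
        zsg {x} t ei p.1 * gen (fun _ : Ar d L => ra d) (zup {y}) (zsg {y} t ei) p.2 := by
      unfold gen
      rw [Finset.mul_sum]
      exact Finset.sum_congr rfl fun a _ => by ring
    have e3 : ∀ (x y : V d L) (A : Finset (V d L)),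
        ∑ a : Ar d L, ra d * (if a.1 = y ∧ y + dv a.2 ∈ A ∪ {x} then (1 : ℝ) else 0) =
        bd x y A := by
      intro x y A
      unfold bd
      rw [Fintype.sum_prod_type, Finset.sum_eq_single y]
      · simp
      · intro b _ hb
        simp [hb]
      · intro h; exact absurd (Finset.mem_univ _) h
    rw [e1, e2, e3, e3]
    ring
  · unfold GG'
    rw [if_neg hp]
    have h1 : gen (fun _ : Ar d L => ra d) (jup x y) (GG x y t) p ≤ 0 := by
      unfold gen
      refine Finset.sum_nonpos fun a _ => ?_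
      refine mul_nonpos_of_nonneg_of_nonpos (ra_nonneg d) ?_
      have h2 := GG_le_one x y ht (jup x y a p)
      have h3 : GG x y t p = 1 := by unfold GG; rw [if_neg hp]
      linarith
    have := b0 x y p.1
    have := b0 y x p.2
    linarith

lemma gen_fst (x y : V d L) (f : Finset (V d L) → ℝ) (p : Finset (V d L) × Finset (V d L)) :
    gen (fun _ : Ar d L => ra d) (jup x y) (fun p => f p.1) p =
      gen (fun _ : Ar d L => ra d) (zup {x}) f p.1 := rfl

lemma gen_snd (x y : V d L) (f : Finset (V d L) → ℝ) (p : Finset (V d L) × Finset (V d L)) :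
    gen (fun _ : Ar d L => ra d) (jup x y) (fun p => f p.2) p =
      gen (fun _ : Ar d L => ra d) (zup {y}) f p.2 := rfl

lemma D1_init {x : V d L} {A : Finset (V d L)} (h : x ∉ A) : D1 x (FS.init d L) A = ei A := by
  unfold D1 ei
  congr 1
  apply propext
  constructor
  · rintro ⟨_, h2⟩
    rw [Finset.eq_empty_iff_forall_notMem]
    intro v hv
    by_cases hvx : v = x
    · exact h (hvx ▸ hv)
    · exact h2 v hvx hv
  · rintro rfl
    exact ⟨by simp [FS.init], fun z _ => by simp⟩

lemma z_eq_uu (x : V d L) (t : ℝ) : zsg ({x} : Finset (V d L)) t ei ∅ = uu d L t := by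
  have h := zsg_image_add ({0} : Finset (V d L)) x t ei ∅
  simp only [Finset.image_singleton, zero_add, Finset.image_empty] at h
  rw [h]
  unfold uu ei
  simp only [Finset.image_eq_empty]

lemma VV_bound (hH : T_HIT) (hd : 1 ≤ d) {t : ℝ} (ht : 0 ≤ t) (x y : V d L) :
    VV x y t ∅ ≤ 2 * t * hit (t + 1) y x := by
  obtain ⟨H1, H2, H3, H4, H5, -, -⟩ := hH d L hd
  have e1 : ∀ s ∈ Set.Icc 0 t, zsg {x} s (bd x y) ∅ ≤ 2 * hit (t + 1) y x := by
    intro s hs
    have h1 : zsg {x} s (bd x y) ∅ = ∑ e : Dir d, ra d * hit s (y + dv e) x := by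
      unfold zsg bd
      rw [sg_sum _ (fun j _ => grF_of_finite hz0 _)]
      refine Finset.sum_congr rfl fun e _ => ?_
      rw [sg_smul]
      congr 1
      exact occ_dual hs.1 x (y + dv e)
    rw [h1]
    refine (H5 s y x hs.1).trans ?_
    exact mul_le_mul_of_nonneg_left (H4 (s + 1) (t + 1) y x (by linarith [hs.1])
      (by linarith [hs.2])) (by norm_num)
  have hc : Continuous fun s => zsg {x} s (bd x y) (∅ : Finset (V d L)) :=
    continuous_sg (grF_of_finite hz0 _) _
  unfold VV
  calc ∫ s in (0 : ℝ)..t, zsg {x} s (bd x y) ∅ ≤ ∫ _s in (0 : ℝ)..t, 2 * hit (t + 1) y x :=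
        intervalIntegral.integral_mono_on ht (hc.intervalIntegrable _ _)
          (continuous_const.intervalIntegrable _ _) e1
    _ = 2 * t * hit (t + 1) y x := by
        rw [intervalIntegral.integral_const]
        simp only [sub_zero, smul_eq_mul]; ring

end N1_

open N1_ in
theorem t_N1 (_h1 : T_TR) (_h2 : T_DUAL) (h3 : T_HIT) (h4 : T_MONO) : T_N1 := by
  intro d L ε t hd h0 h1 ht x y hxy
  have hr : ∀ a, 0 ≤ rc d L ε a := rc_nonneg h0 h1
  rw [vis2_dual t x y]
  have key := sg_le_of_super (r := rc d L ε) (φ := fun a : Ar d L × Bool => jup x y a.1) hr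
    (Inv := fun p => x ∉ p.1 ∧ y ∉ p.2)
    (fun a p h => by
      have e1 := zup_disj (a := a.1) (Finset.disjoint_singleton_right.2 h.1)
      have e2 := zup_disj (a := a.1) (Finset.disjoint_singleton_right.2 h.2)
      exact ⟨Finset.disjoint_singleton_right.1 e1, Finset.disjoint_singleton_right.1 e2⟩)
    (f := fun p => D1 x (FS.init d L) p.1 * D1 y (FS.init d L) p.2)
    (W := fun t p => GG x y t p + VV x y t p.1 + VV y x t p.2)
    (W' := fun t p => GG' x y t p + zsg {x} t (bd x y) p.1 + zsg {y} t (bd y x) p.2)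
    ht
    (fun t _ p _ => by
      refine (HasDerivAt.add ?_ (hasDerivAt_VV x y t p.1)).add (hasDerivAt_VV y x t p.2)
      by_cases hp : Dj x y p
      · unfold GG GG'
        simp only [if_pos hp]
        have e1 := hasDerivAt_sg (r := fun _ : Ar d L => ra d) (φ := zup {x}) (f := ei)
          (grF_of_finite hz0 _) p.1 t
        have e2 := hasDerivAt_sg (r := fun _ : Ar d L => ra d) (φ := zup {y}) (f := ei)
          (grF_of_finite hz0 _) p.2 t
        have e3 := e1.mul e2
        rw [← gen_sg (grF_of_finite hz0 _), ← gen_sg (grF_of_finite hz0 _)] at e3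
        exact e3
      · unfold GG GG'
        simp only [if_neg hp]
        exact hasDerivAt_const _ _)
    (fun t ht p hp => by
      have e0 := gen_coin (ε := ε) (jup x y) (fun p => GG x y t p + VV x y t p.1 + VV y x t p.2) p
      rw [e0]
      have e1 := gen_add (r := fun _ : Ar d L => ra d) (φ := jup x y)
        (fun p => GG x y t p + VV x y t p.1) (fun p => VV y x t p.2) p
      have e2 := gen_add (r := fun _ : Ar d L => ra d) (φ := jup x y)
        (fun p => GG x y t p) (fun p => VV x y t p.1) p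
      rw [e1, e2, gen_fst x y (VV x y t) p, gen_snd x y (VV y x t) p, gen_VV, gen_VV]
      have e3 := gen_GG h4 ht.1 hp.1 hp.2
      have e4 : gen (fun _ : Ar d L => ra d) (jup x y) (fun p => GG x y t p) p =
        gen (fun _ : Ar d L => ra d) (jup x y) (GG x y t) p := rfl
      rw [e4]
      linarith)
    (fun p hp => by
      simp only [VV_zero, add_zero]
      rw [D1_init hp.1, D1_init hp.2]
      unfold GG
      split_ifs
      · unfold zsg
        rw [sg_zero, sg_zero]
      · unfold ei
        split_ifs <;> norm_num)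
    (s := (∅, ∅)) ⟨by simp, by simp⟩
  refine key.trans ?_
  have hD : Dj x y (∅, ∅) := by
    unfold Dj
    simpa using hxy
  have e1 : GG x y t (∅, ∅) = uu d L t ^ 2 := by
    unfold GG
    rw [if_pos hD, z_eq_uu, z_eq_uu, sq]
  have e2 := VV_bound h3 hd ht x y
  have e3 := VV_bound h3 hd ht y x
  obtain ⟨H1, H2, H3, H4, H5, -, -⟩ := h3 d L hd
  have e4 := H3 (t + 1) x y (by linarith)
  show GG x y t (∅, ∅) + VV x y t ∅ + VV y x t ∅ ≤ _
  rw [e1]
  rw [← e4] at e2
  nlinarith [e2, e3]

end Pool.Agent.CAS
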