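import Pool.Agent.CAS.Ring

open Finset Filter Topology MeasureTheory
open scoped BigOperators

namespace Pool.Agent.CAS

set_option linter.unusedSectionVars false

namespace PROJSTAB_

section Rel

variable {ι G E : Type} [AddCommGroup G]

lemma ls_ext {s t : LS ι G} (h1 : s.pos = t.pos) (h2 : s.ld = t.ld) : s = t := by
  rcases s with ⟨a, b⟩
  rcases t with ⟨a', b'⟩
  simp only at h1 h2
  subst h1; subst h2; rfl

lemma rel_unique {P : ι → Prop} {s : LS ι G} {s' s'' : LS (Subtype P) G} (h : Rel s s')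
    (h' : Rel s s'') : s' = s'' := by
  apply ls_ext
  · funext z; rw [← h.pos, h'.pos]
  · funext z
    have h1 := h.ld z
    rw [h'.ld z] at h1
    exact (Option.map_injective Subtype.val_injective h1).symm

open Classical in
/-- projection -/
noncomputable def prj (P : ι → Prop) (s : LS ι G) : LS (Subtype P) G :=
  if h : ∃ s' : LS (Subtype P) G, Rel s s' then h.choose
  else ⟨fun z => s.pos z, fun _ => none⟩

lemma rel_prj {P : ι → Prop} {s : LS ι G} (h : ∃ s' : LS (Subtype P) G, Rel s s') :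
    Rel s (prj P s) := by
  unfold prj
  rw [dif_pos h]
  exact h.choose_spec

lemma prj_eq {P : ι → Prop} {s : LS ι G} {s' : LS (Subtype P) G} (h : Rel s s') :
    prj P s = s' := rel_unique (rel_prj ⟨s', h⟩) h

lemma rel_init {P : ι → Prop} (start : ι → G) (J : ι → Prop) (hJ : ∀ z, J z → P z) :
    Rel (LS.init start J) (LS.init (fun z : Subtype P => start z) (fun z : Subtype P => J z)) := by
  classical
  refine ⟨fun z => rfl, fun z => ?_, fun z hz => ?_⟩
  · simp only [LS.init]
    by_cases h : J z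
    · rw [if_pos h, if_pos h]; rfl
    · rw [if_neg h, if_neg h]; rfl
  · simp only [LS.init]
    rw [if_neg fun h => hz (hJ z h)]

/-- the restricted process, one copy -/
lemma sg_prj {E : Type} [Fintype E] {ι G : Type} [AddCommGroup G] (P : ι → Prop)
    [Fintype (Subtype P)] (r : ℝ) (typ : ι → Bool) (brv : ι → ℝ) (step : E → G) (t : ℝ)
    (f : LS (Subtype P) G → ℝ) {start : ι → G} (hst : Function.Injective start) (J : ι → Prop)
    (hJ : ∀ z, J z → P z) :
    sg (fun _ : Subtype P × E => r) (fun a s => ring typ brv step (a.1.1, a.2) s) t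
      (fun s => f (prj P s)) (LS.init start J) =
    sg (fun _ : Subtype P × E => r)
      (ring (fun z : Subtype P => typ z) (fun z : Subtype P => brv z) step) t f
      (LS.init (fun z : Subtype P => start z) (fun z : Subtype P => J z)) := by
  have h := sg_map (r := fun _ : Subtype P × E => r)
    (φ := fun a s => ring typ brv step (a.1.1, a.2) s)
    (ψ := ring (fun z : Subtype P => typ z) (fun z : Subtype P => brv z) step) (prj P)
    (Inv := fun s : LS ι G => Good typ s ∧ ∃ s' : LS (Subtype P) G, Rel s s')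
    (fun a s hs => ⟨good_ring brv step _ hs.1, _,
      rel_ring brv step a.1 a.2 hs.1 (rel_prj hs.2)⟩)
    (fun a s hs => prj_eq (rel_ring brv step a.1 a.2 hs.1 (rel_prj hs.2))) t f
    (s := LS.init start J) ⟨good_init typ hst J, _, rel_init start J hJ⟩
  rw [h, prj_eq (rel_init start J hJ)]

/-- the restricted process, two copies -/
lemma sg_prj2 {E : Type} [Fintype E] {ι G : Type} [AddCommGroup G] (P : ι → Prop)
    [Fintype (Subtype P)] (r : ℝ) (typ : ι → Bool) (brv : ι → ℝ) (step : E → G) (t : ℝ)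
    (f : LS (Subtype P) G × LS (Subtype P) G → ℝ) {start : ι → G}
    (hst : Function.Injective start) (J J' : ι → Prop)
    (hJ : ∀ z, J z → P z) (hJ' : ∀ z, J' z → P z) :
    sg (fun _ : Subtype P × E => r) (fun a (s : LS ι G × LS ι G) =>
        (ring typ brv step (a.1.1, a.2) s.1, ring typ brv step (a.1.1, a.2) s.2)) t
      (fun s => f (prj P s.1, prj P s.2)) (LS.init start J, LS.init start J') =
    sg (fun _ : Subtype P × E => r) (fun a (s : LS (Subtype P) G × LS (Subtype P) G) =>
      (ring (fun z : Subtype P => typ z) (fun z : Subtype P => brv z) step a s.1,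
        ring (fun z : Subtype P => typ z) (fun z : Subtype P => brv z) step a s.2)) t f
      (LS.init (fun z : Subtype P => start z) (fun z : Subtype P => J z),
        LS.init (fun z : Subtype P => start z) (fun z : Subtype P => J' z)) := by
  have h := sg_map (r := fun _ : Subtype P × E => r)
    (φ := fun a (s : LS ι G × LS ι G) =>
        (ring typ brv step (a.1.1, a.2) s.1, ring typ brv step (a.1.1, a.2) s.2))
    (ψ := fun a (s : LS (Subtype P) G × LS (Subtype P) G) =>
      (ring (fun z : Subtype P => typ z) (fun z : Subtype P => brv z) step a s.1,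
        ring (fun z : Subtype P => typ z) (fun z : Subtype P => brv z) step a s.2))
    (fun s => (prj P s.1, prj P s.2))
    (Inv := fun s : LS ι G × LS ι G => (Good typ s.1 ∧ ∃ s' : LS (Subtype P) G, Rel s.1 s') ∧
      (Good typ s.2 ∧ ∃ s' : LS (Subtype P) G, Rel s.2 s'))
    (fun a s hs => ⟨⟨good_ring brv step _ hs.1.1, _,
      rel_ring brv step a.1 a.2 hs.1.1 (rel_prj hs.1.2)⟩, ⟨good_ring brv step _ hs.2.1, _,
      rel_ring brv step a.1 a.2 hs.2.1 (rel_prj hs.2.2)⟩⟩)
    (fun a s hs => Prod.ext (prj_eq (rel_ring brv step a.1 a.2 hs.1.1 (rel_prj hs.1.2)))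
      (prj_eq (rel_ring brv step a.1 a.2 hs.2.1 (rel_prj hs.2.2)))) t f
    (s := (LS.init start J, LS.init start J'))
    ⟨⟨good_init typ hst J, _, rel_init start J hJ⟩, ⟨good_init typ hst J', _,
      rel_init start J' hJ'⟩⟩
  rw [h]
  simp only
  rw [prj_eq (rel_init start J hJ), prj_eq (rel_init start J' hJ')]

lemma rel_none {P : ι → Prop} {s : LS ι G} {s' : LS (Subtype P) G} (h : Rel s s')
    (z : Subtype P) : s.ld z = none ↔ s'.ld z = none := by
  rw [h.ld z]
  simp

end Rel

lemma zero_mem_box (d m : ℕ) : (0 : Zd d) ∈ box d m := by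
  unfold box
  rw [Fintype.mem_piFinset]
  intro i
  rw [Finset.mem_Icc]
  constructor
  · simp
  · simp

lemma box_mono {d m m' : ℕ} (h : m ≤ m') : box d m ⊆ box d m' := by
  intro z hz
  unfold box at hz ⊢
  rw [Fintype.mem_piFinset] at hz ⊢
  intro i
  have := hz i
  rw [Finset.mem_Icc] at this ⊢
  have h' : (m : ℤ) ≤ m' := by exact_mod_cast h
  constructor <;> linarith [this.1, this.2]

lemma exp_le_two (k : ℕ) : Real.exp (-(k : ℝ)) ≤ (1 / 2 : ℝ) ^ k := by
  have h1 : Real.exp (-1) ≤ 1 / 2 := by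
    rw [Real.exp_neg]
    have : (2 : ℝ) ≤ Real.exp 1 := by
      have := Real.add_one_le_exp (1 : ℝ)
      linarith
    rw [one_div]
    exact inv_anti₀ (by norm_num) this
  have h2 : Real.exp (-(k : ℝ)) = Real.exp (-1) ^ k := by
    rw [← Real.exp_nat_mul]; ring_nf
  rw [h2]
  exact pow_le_pow_left₀ (Real.exp_pos _).le h1 k

lemma sum_Icc_le (M : ℕ) : ∑ k ∈ Finset.Icc (-(M : ℤ)) M, Real.exp (-|(k : ℝ)|) ≤
    3 - 2 * (1 / 2 : ℝ) ^ M := by
  induction M with
  | zero => norm_num
  | succ M ih =>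
    have e : Finset.Icc (-((M + 1 : ℕ) : ℤ)) ((M + 1 : ℕ) : ℤ) =
        insert (-((M + 1 : ℕ) : ℤ)) (insert ((M + 1 : ℕ) : ℤ) (Finset.Icc (-(M : ℤ)) M)) := by
      ext k
      simp only [Finset.mem_Icc, Finset.mem_insert]
      push_cast
      omega
    rw [e, Finset.sum_insert, Finset.sum_insert]
    · have h1 : |((-((M + 1 : ℕ) : ℤ) : ℤ) : ℝ)| = ((M + 1 : ℕ) : ℝ) := by
        push_cast
        rw [abs_neg, abs_of_nonneg (by positivity)]
      have h2 : |((((M + 1 : ℕ) : ℤ) : ℤ) : ℝ)| = ((M + 1 : ℕ) : ℝ) := by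
        push_cast
        rw [abs_of_nonneg (by positivity)]
      rw [h1, h2]
      have h3 := exp_le_two (M + 1)
      have h4 : (1 / 2 : ℝ) ^ (M + 1) = (1 / 2 : ℝ) ^ M / 2 := by rw [pow_succ]; ring
      rw [h4] at h3 ⊢
      linarith
    · simp only [Finset.mem_Icc]; omega
    · simp only [Finset.mem_Icc, Finset.mem_insert]; push_cast; omega

lemma sum_Icc_le3 (M : ℕ) : ∑ k ∈ Finset.Icc (-(M : ℤ)) M, Real.exp (-|(k : ℝ)|) ≤ 3 := by
  have h1 := sum_Icc_le M
  have h2 : (0 : ℝ) ≤ (1 / 2 : ℝ) ^ M := by positivity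
  linarith

/-- the weight of the layer -/
lemma layer_le (d m : ℕ) :
    ∑ z ∈ (box d (m + 1)).filter (fun z => z ∉ box d m),
      Real.exp (-∑ i, |(z i : ℝ)|) ≤ d * 4 ^ d * Real.exp (-(m : ℝ)) := by
  classical
  set f : Fin d → Fin d → ℤ → ℝ := fun i j k =>
    if j = i then (if |k| = (m + 1 : ℤ) then Real.exp (-|(k : ℝ)|) else 0)
    else Real.exp (-|(k : ℝ)|) with hf
  have hf0 : ∀ i j k, 0 ≤ f i j k := by
    intro i j k
    simp only [hf]
    split_ifs
    · exact (Real.exp_pos _).le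
    · exact le_rfl
    · exact (Real.exp_pos _).le
  have h1 : ∀ z ∈ (box d (m + 1)).filter (fun z => z ∉ box d m),
      Real.exp (-∑ i, |(z i : ℝ)|) ≤ ∑ i, ∏ j, f i j (z j) := by
    intro z hz
    rw [Finset.mem_filter] at hz
    obtain ⟨hz1, hz2⟩ := hz
    have hz3 : ∃ i, z i ∉ Finset.Icc (-(m : ℤ)) m := by
      by_contra h
      push Not at h
      apply hz2
      unfold box
      rw [Fintype.mem_piFinset]
      exact h
    obtain ⟨i, hi⟩ := hz3
    have hzi : z i ∈ Finset.Icc (-((m + 1 : ℕ) : ℤ)) ((m + 1 : ℕ) : ℤ) := by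
      unfold box at hz1
      rw [Fintype.mem_piFinset] at hz1
      exact hz1 i
    have hzi' : |z i| = (m + 1 : ℤ) := by
      rw [Finset.mem_Icc] at hi hzi
      push_cast at hzi
      by_cases h0 : 0 ≤ z i
      · rw [abs_of_nonneg h0]; omega
      · rw [abs_of_neg (by omega)]; omega
    have h2 : Real.exp (-∑ i, |(z i : ℝ)|) = ∏ j, f i j (z j) := by
      rw [← Finset.sum_neg_distrib, Real.exp_sum]
      refine Finset.prod_congr rfl fun j _ => ?_
      simp only [hf]
      by_cases hj : j = i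
      · subst hj
        rw [if_pos rfl, if_pos hzi']
      · rw [if_neg hj]
    rw [h2]
    exact Finset.single_le_sum (f := fun i => ∏ j, f i j (z j))
      (fun i _ => Finset.prod_nonneg fun j _ => hf0 i j _) (Finset.mem_univ i)
  have h3 : ∀ i : Fin d, ∑ z ∈ box d (m + 1), ∏ j, f i j (z j) ≤
      4 ^ d * Real.exp (-(m : ℝ)) := by
    intro i
    have e1 : ∑ z ∈ box d (m + 1), ∏ j, f i j (z j) =
        ∏ j, ∑ k ∈ Finset.Icc (-((m + 1 : ℕ) : ℤ)) ((m + 1 : ℕ) : ℤ), f i j k := by
      unfold box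
      rw [Finset.prod_univ_sum]
    rw [e1]
    have e2 : ∀ j, ∑ k ∈ Finset.Icc (-((m + 1 : ℕ) : ℤ)) ((m + 1 : ℕ) : ℤ), f i j k ≤
        if j = i then 2 * Real.exp (-(m : ℝ)) else 4 := by
      intro j
      by_cases hj : j = i
      · rw [if_pos hj]
        have e3 : ∑ k ∈ Finset.Icc (-((m + 1 : ℕ) : ℤ)) ((m + 1 : ℕ) : ℤ), f i j k ≤
            ∑ k ∈ ({((m + 1 : ℕ) : ℤ), -((m + 1 : ℕ) : ℤ)} : Finset ℤ),
              Real.exp (-((m : ℝ))) := by
          have e4 : ∑ k ∈ Finset.Icc (-((m + 1 : ℕ) : ℤ)) ((m + 1 : ℕ) : ℤ), f i j k =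
              ∑ k ∈ (Finset.Icc (-((m + 1 : ℕ) : ℤ)) ((m + 1 : ℕ) : ℤ)).filter
                (fun k => |k| = (m + 1 : ℤ)), f i j k := by
            rw [Finset.sum_filter]
            refine Finset.sum_congr rfl fun k _ => ?_
            by_cases hk : |k| = (m + 1 : ℤ)
            · rw [if_pos hk]
            · rw [if_neg hk]
              simp only [hf]
              rw [if_pos hj, if_neg hk]
          rw [e4]
          refine (Finset.sum_le_sum (g := fun _ => Real.exp (-(m : ℝ))) fun k hk => ?_).trans ?_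
          · rw [Finset.mem_filter] at hk
            simp only [hf]
            rw [if_pos hj, if_pos hk.2]
            apply Real.exp_le_exp.2
            have : |(k : ℝ)| = (m : ℝ) + 1 := by
              have := hk.2
              have h5 : ((|k| : ℤ) : ℝ) = ((m + 1 : ℤ) : ℝ) := by rw [this]
              push_cast at h5
              exact h5
            rw [this]; linarith
          · refine Finset.sum_le_sum_of_subset_of_nonneg ?_ fun _ _ _ => (Real.exp_pos _).le
            intro k hk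
            rw [Finset.mem_filter] at hk
            rw [Finset.mem_insert, Finset.mem_singleton]
            have := hk.2
            push_cast
            rcases abs_eq (by positivity : (0 : ℤ) ≤ (m + 1 : ℤ)) |>.1 this with h | h
            · left; omega
            · right; omega
        refine e3.trans ?_
        rw [Finset.sum_const, nsmul_eq_mul]
        refine mul_le_mul_of_nonneg_right ?_ (Real.exp_pos _).le
        have : ({((m + 1 : ℕ) : ℤ), -((m + 1 : ℕ) : ℤ)} : Finset ℤ).card ≤ 2 :=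
          Finset.card_le_two
        exact_mod_cast this
      · rw [if_neg hj]
        have e5 : ∑ k ∈ Finset.Icc (-((m + 1 : ℕ) : ℤ)) ((m + 1 : ℕ) : ℤ), f i j k =
            ∑ k ∈ Finset.Icc (-((m + 1 : ℕ) : ℤ)) ((m + 1 : ℕ) : ℤ), Real.exp (-|(k : ℝ)|) :=
          Finset.sum_congr rfl fun k _ => by simp only [hf]; rw [if_neg hj]
        rw [e5]
        exact (sum_Icc_le3 (m + 1)).trans (by norm_num)
    refine (Finset.prod_le_prod (fun j _ => Finset.sum_nonneg fun k _ => hf0 i j k)
      (fun j _ => e2 j)).trans ?_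
    rw [Finset.prod_ite, Finset.filter_eq' Finset.univ i, if_pos (Finset.mem_univ i)]
    rw [Finset.prod_singleton, Finset.prod_const]
    have h6 : (4 : ℝ) ^ (Finset.univ.filter fun x : Fin d => ¬ x = i).card ≤ 4 ^ (d - 1) := by
      refine pow_le_pow_right₀ (by norm_num) ?_
      rw [Finset.filter_ne' Finset.univ i, Finset.card_erase_of_mem (Finset.mem_univ i),
        Finset.card_univ, Fintype.card_fin]
    have h7 : (4 : ℝ) ^ d = 4 ^ (d - 1) * 4 := by
      rw [← pow_succ]
      congr 1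
      have := i.2
      omega
    rw [h7]
    have h8 := Real.exp_pos (-(m : ℝ))
    have h9 : (0 : ℝ) < 4 ^ (d - 1) := by positivity
    nlinarith [mul_pos h8 h9]
  calc ∑ z ∈ (box d (m + 1)).filter (fun z => z ∉ box d m), Real.exp (-∑ i, |(z i : ℝ)|)
      ≤ ∑ z ∈ (box d (m + 1)).filter (fun z => z ∉ box d m), ∑ i, ∏ j, f i j (z j) :=
        Finset.sum_le_sum h1
    _ ≤ ∑ z ∈ box d (m + 1), ∑ i, ∏ j, f i j (z j) :=
        Finset.sum_le_sum_of_subset_of_nonneg (Finset.filter_subset _ _) fun z _ _ =>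
          Finset.sum_nonneg fun i _ => Finset.prod_nonneg fun j _ => hf0 i j _
    _ = ∑ i, ∑ z ∈ box d (m + 1), ∏ j, f i j (z j) := Finset.sum_comm
    _ ≤ ∑ _i : Fin d, 4 ^ d * Real.exp (-(m : ℝ)) := Finset.sum_le_sum fun i _ => h3 i
    _ = d * 4 ^ d * Real.exp (-(m : ℝ)) := by
        rw [Finset.sum_const, Finset.card_univ, Fintype.card_fin, nsmul_eq_mul]; ring

lemma dz_neg {d : ℕ} (e : Dir d) : ∃ e' : Dir d, (dz e' : Zd d) = -dz e := by
  refine ⟨(e.1, !e.2), ?_⟩
  unfold dz
  rcases e with ⟨i, b⟩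
  cases b <;> simp [Pi.single_neg]

/-- the `ℓ¹` norm -/
noncomputable def nm1 {d : ℕ} (x : Zd d) : ℝ := ∑ i, |(x i : ℝ)|

lemma nm1_step {d : ℕ} (x : Zd d) (e : Dir d) : nm1 (x + dz e) ≤ nm1 x + 1 := by
  unfold nm1
  have h1 : ∀ i, |((x + dz e) i : ℝ)| ≤ |(x i : ℝ)| + (if i = e.1 then 1 else 0) := by
    intro i
    rw [Pi.add_apply]
    unfold dz
    by_cases hi : i = e.1
    · subst hi
      rw [Pi.single_eq_same, if_pos rfl]
      push_cast
      refine (abs_add_le _ _).trans ?_
      gcongr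
      split_ifs <;> norm_num
    · rw [Pi.single_eq_of_ne hi, if_neg hi]
      simp
  refine (Finset.sum_le_sum fun i _ => h1 i).trans ?_
  rw [Finset.sum_add_distrib]
  simp

end PROJSTAB_

open PROJSTAB_

theorem t_PROJ : T_PROJ := by
  classical
  intro d m typ brv t _ _
  have h := sg_prj (fun z : Zd d => z ∈ box d m) (ra d) typ brv (dz : Dir d → Zd d) t
    (fun s => if ∃ z : (box d m), (z : Zd d) = 0 ∧ typ z = true ∧ s.ld z ≠ none then 1 else 0)
    (start := id) Function.injective_id (fun z => z ∈ box d m) (fun _ h => h)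
  unfold boxAlive
  have e1 : (LS.init (fun z : (box d m) => (z : Zd d)) fun _ => True) =
      LS.init (fun z : Subtype (fun z : Zd d => z ∈ box d m) => id (z : Zd d))
        (fun z => (z : Zd d) ∈ box d m) := by
    unfold LS.init
    congr 1
    funext z
    rw [if_pos trivial, if_pos z.2]
  refine Eq.trans ?_ (h.trans ?_)
  · refine sg_congr (fun _ => ra_nonneg d)
      (Inv := fun s : LS (Zd d) (Zd d) => Good typ s ∧
        ∃ s' : LS (Subtype fun z : Zd d => z ∈ box d m) (Zd d), Rel s s')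
      (fun a s hs => ⟨good_ring brv dz _ hs.1, _, rel_ring brv dz a.1 a.2 hs.1 (rel_prj hs.2)⟩)
      (fun s hs => ?_) t
      ⟨good_init typ Function.injective_id _, _, rel_init id _ (fun _ h => h)⟩
    have h1 := rel_none (rel_prj hs.2) ⟨0, zero_mem_box d m⟩
    simp only at h1
    refine if_congr ?_ rfl rfl
    constructor
    · rintro ⟨h2, h3⟩
      exact ⟨⟨0, zero_mem_box d m⟩, rfl, h2, fun h4 => h3 (h1.2 h4)⟩
    · rintro ⟨z, hz, h2, h3⟩
      have hz' : z = ⟨0, zero_mem_box d m⟩ := Subtype.ext hz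
      subst hz'
      exact ⟨h2, fun h4 => h3 (h1.1 h4)⟩
  · rw [e1]

theorem t_STAB (hD : T_DISC) : T_STAB := by
  classical
  intro d m typ brv t hd ht
  have h := sg_prj2 (fun z : Zd d => z ∈ box d (m + 1)) (ra d) typ brv (dz : Dir d → Zd d) t
    (fun s => if s.1.ld ⟨0, zero_mem_box d (m + 1)⟩ = none ↔
      s.2.ld ⟨0, zero_mem_box d (m + 1)⟩ = none then 0 else 1)
    (start := id) Function.injective_id (fun z => z ∈ box d m) (fun z => z ∈ box d (m + 1))
    (fun z hz => box_mono (Nat.le_succ m) hz) (fun _ h => h)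
  have e0 : sg (fun _ : (box d (m + 1)) × Dir d => ra d)
    (fun a (s : LS (Zd d) (Zd d) × LS (Zd d) (Zd d)) =>
      (ring typ brv dz (a.1.1, a.2) s.1, ring typ brv dz (a.1.1, a.2) s.2)) t
    (fun s => if s.1.ld 0 = none ↔ s.2.ld 0 = none then 0 else 1)
    (LS.init id (fun z => z ∈ box d m), LS.init id fun z => z ∈ box d (m + 1)) =
    sg (fun _ : Subtype (fun z : Zd d => z ∈ box d (m + 1)) × Dir d => ra d)
      (fun a (s : LS (Zd d) (Zd d) × LS (Zd d) (Zd d)) =>
      (ring typ brv dz (a.1.1, a.2) s.1, ring typ brv dz (a.1.1, a.2) s.2)) t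
    (fun s => (fun s => if s.1.ld ⟨0, zero_mem_box d (m + 1)⟩ = none ↔
      s.2.ld ⟨0, zero_mem_box d (m + 1)⟩ = none then 0 else 1)
        (prj (fun z : Zd d => z ∈ box d (m + 1)) s.1, prj (fun z : Zd d => z ∈ box d (m + 1)) s.2))
    (LS.init id (fun z => z ∈ box d m), LS.init id fun z => z ∈ box d (m + 1)) := by
    refine sg_congr (fun _ => ra_nonneg d)
      (Inv := fun s : LS (Zd d) (Zd d) × LS (Zd d) (Zd d) => (Good typ s.1 ∧
        ∃ s' : LS (Subtype fun z : Zd d => z ∈ box d (m + 1)) (Zd d), Rel s.1 s') ∧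
        (Good typ s.2 ∧
        ∃ s' : LS (Subtype fun z : Zd d => z ∈ box d (m + 1)) (Zd d), Rel s.2 s'))
      (fun a s hs => ⟨⟨good_ring brv dz _ hs.1.1, _,
        rel_ring brv dz a.1 a.2 hs.1.1 (rel_prj hs.1.2)⟩, ⟨good_ring brv dz _ hs.2.1, _,
        rel_ring brv dz a.1 a.2 hs.2.1 (rel_prj hs.2.2)⟩⟩)
      (fun s hs => ?_) t ?_
    · have h1 := rel_none (rel_prj hs.1.2) ⟨0, zero_mem_box d (m + 1)⟩
      have h2 := rel_none (rel_prj hs.2.2) ⟨0, zero_mem_box d (m + 1)⟩
      simp only at h1 h2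
      refine if_congr ?_ rfl rfl
      rw [h1, h2]
    · exact ⟨⟨good_init typ Function.injective_id _, _, rel_init id _
        (fun z hz => box_mono (Nat.le_succ m) hz)⟩,
        ⟨good_init typ Function.injective_id _, _, rel_init id _ (fun _ h => h)⟩⟩
  rw [e0, h]
  have e1 : (LS.init (fun z : Subtype (fun z : Zd d => z ∈ box d (m + 1)) => id (z : Zd d))
      fun z => (z : Zd d) ∈ box d (m + 1)) =
      LS.init (fun z : Subtype (fun z : Zd d => z ∈ box d (m + 1)) => (z : Zd d))
        (fun _ => True) := by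
    unfold LS.init
    congr 1
    funext z
    rw [if_pos trivial, if_pos z.2]
  rw [e1]
  have key := hD d (Subtype fun z : Zd d => z ∈ box d (m + 1)) (Zd d) dz
    (fun z => (z : Zd d)) nm1 (fun z => typ z) (fun z => brv z) (fun z => (z : Zd d) ∈ box d m)
    ⟨0, zero_mem_box d (m + 1)⟩ t hd ht Subtype.val_injective dz_neg
    (fun x => Finset.sum_nonneg fun _ _ => abs_nonneg _) (by simp [nm1]) nm1_step
    (zero_mem_box d m)
  refine key.trans ?_
  refine mul_le_mul_of_nonneg_left ?_ (Real.exp_pos _).le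
  refine le_trans (le_of_eq ?_) (layer_le d m)
  simp only [sub_zero]
  rw [Finset.sum_filter, Finset.sum_filter]
  have := Finset.sum_coe_sort (box d (m + 1))
    (fun z => if z ∉ box d m then Real.exp (-∑ i, |(z i : ℝ)|) else 0)
  rw [← this]
  refine Finset.sum_congr rfl fun z _ => ?_
  by_cases hz : (z : Zd d) ∈ box d m
  · rw [if_neg (not_not.2 hz), if_neg (not_not.2 hz)]
  · rw [if_pos hz, if_pos hz]
    rfl

end Pool.Agent.CAS
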