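import Pool.Agent.CAS.Basic

/-!
# The kill inequality (job R1)
-/

open Finset Filter Topology MeasureTheory
open scoped BigOperators

namespace Pool.Agent.CAS

set_option linter.unusedSectionVars false

namespace R1_

variable {d L : ℕ} {ε t : ℝ}

/-! ## Invariants of the window process -/

/-- representatives are occupied at the beginning of the window -/
def WInv (s : FS d L) (w : WS d L) : Prop :=
  (∀ x, (∃ z, w.pos z = x) → ∃ z, s.pos z = w.rep x) ∧
    ∀ x y, w.who x = some y → ∃ z, s.pos z = y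

lemma winv_start (s : FS d L) : WInv s (WS.start s) := by
  refine ⟨fun x hx => ?_, fun x y h => ?_⟩
  · exact hx
  · simp [WS.start] at h

open Classical in
lemma winv_step (s : FS d L) (a : Ar d L × Bool) (w : WS d L) (h : WInv s w) :
    WInv s (wup a w) := by
  obtain ⟨h1, h2⟩ := h
  refine ⟨fun x hx => ?_, fun x y hxy => ?_⟩
  · obtain ⟨z, hz⟩ := hx
    change (fup a w.toFS).pos z = x at hz
    rw [fup_pos] at hz
    show ∃ z, s.pos z = if x = a.1.1 + dv a.1.2 ∧ ∃ z, w.pos z = a.1.1 then w.rep a.1.1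
      else w.rep x
    split_ifs with hc
    · exact h1 _ hc.2
    · apply h1
      by_cases hz1 : w.pos z = a.1.1
      · rw [if_pos hz1] at hz
        exact absurd ⟨hz.symm, z, hz1⟩ hc
      · rw [if_neg hz1] at hz
        exact ⟨z, hz⟩
  · change (if x = a.1.1 + dv a.1.2 ∧ w.oth a.1.1 (a.1.1 + dv a.1.2) ∧
      a.1.1 + dv a.1.2 ∉ w.vis then some (w.rep a.1.1) else w.who x) = some y at hxy
    split_ifs at hxy with hc
    · obtain ⟨z, _, hz⟩ := hc.2.1
      have := h1 a.1.1 ⟨z, hz⟩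
      rw [Option.some.injEq] at hxy
      rwa [hxy] at this
    · exact h2 x y hxy

/-- sites with positive count are occupied -/
lemma occ_of_cnt {s : FS d L} {w : WS d L} (h : WInv s w) {y : V d L} (hy : w.cnt y ≠ 0) :
    ∃ z, s.pos z = y := by
  have : (Finset.univ.filter fun x => w.who x = some y).Nonempty := by
    rw [Finset.nonempty_iff_ne_empty]
    intro h0
    apply hy
    unfold WS.cnt
    rw [h0]; simp
  obtain ⟨x, hx⟩ := this
  exact h.2 x y (Finset.mem_filter.1 hx).2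

lemma cnt_nonneg (w : WS d L) (y : V d L) : 0 ≤ w.cnt y := by unfold WS.cnt; positivity

/-! ## The two-time functional -/

/-- two-time functional -/
noncomputable def Phi (ε t : ℝ) (g : FS d L → WS d L → ℝ) : ℝ :=
  fsg ε t (fun s => wsg ε t (g s) (WS.start s)) (FS.init d L)

lemma Phi_mono (h0 : 0 ≤ ε) (h1 : ε ≤ 1) (ht : 0 ≤ t) {g g' : FS d L → WS d L → ℝ}
    (h : ∀ s w, WInv s w → g s w ≤ g' s w) : Phi ε t g ≤ Phi ε t g' := by
  refine sg_mono' (rc_nonneg h0 h1) (grF_of_finite (rc_nonneg h0 h1) _)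
    (grF_of_finite (rc_nonneg h0 h1) _) (fun s => ?_) ht _
  exact sg_mono (rc_nonneg h0 h1) (Inv := WInv s) (fun i w hw => winv_step s i w hw)
    (grF_of_finite (rc_nonneg h0 h1) _) (grF_of_finite (rc_nonneg h0 h1) _)
    (fun w hw => h s w hw) ht (winv_start s)

lemma Phi_add (h0 : 0 ≤ ε) (h1 : ε ≤ 1) (g g' : FS d L → WS d L → ℝ) :
    Phi ε t (fun s w => g s w + g' s w) = Phi ε t g + Phi ε t g' := by
  unfold Phi
  have : (fun s => wsg ε t (fun w => g s w + g' s w) (WS.start s)) =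
      fun s => wsg ε t (g s) (WS.start s) + wsg ε t (g' s) (WS.start s) := by
    funext s
    exact sg_add (grF_of_finite (rc_nonneg h0 h1) _) (grF_of_finite (rc_nonneg h0 h1) _) _ _
  rw [this]
  exact sg_add (grF_of_finite (rc_nonneg h0 h1) _) (grF_of_finite (rc_nonneg h0 h1) _) _ _

lemma Phi_smul (c : ℝ) (g : FS d L → WS d L → ℝ) :
    Phi ε t (fun s w => c * g s w) = c * Phi ε t g := by
  unfold Phi
  have : (fun s => wsg ε t (fun w => c * g s w) (WS.start s)) =
      fun s => c * wsg ε t (g s) (WS.start s) := by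
    funext s
    exact sg_smul _ _ _ _
  rw [this]
  exact sg_smul _ _ _ _

lemma Phi_zero : Phi ε t (fun (_ : FS d L) (_ : WS d L) => (0 : ℝ)) = 0 := by
  have := Phi_smul (d := d) (L := L) (ε := ε) (t := t) 0 (fun _ _ => 0)
  simpa using this

lemma Phi_nonneg (h0 : 0 ≤ ε) (h1 : ε ≤ 1) (ht : 0 ≤ t) {g : FS d L → WS d L → ℝ}
    (h : ∀ s w, WInv s w → 0 ≤ g s w) : 0 ≤ Phi ε t g := by
  have := Phi_mono (d := d) (L := L) h0 h1 ht (g := fun _ _ => 0) (g' := g) h
  rwa [Phi_zero] at this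

/-- Cauchy-Schwarz -/
lemma Phi_cs (h0 : 0 ≤ ε) (h1 : ε ≤ 1) (ht : 0 ≤ t) (a b : FS d L → WS d L → V d L → ℝ) :
    (Phi ε t (fun s w => ∑ y, a s w y * b s w y)) ^ 2 ≤
      Phi ε t (fun s w => ∑ y, a s w y ^ 2) * Phi ε t (fun s w => ∑ y, b s w y ^ 2) := by
  have key : ∀ x : ℝ, 0 ≤ Phi ε t (fun s w => ∑ y, a s w y ^ 2) * (x * x) +
      (-2 * Phi ε t (fun s w => ∑ y, a s w y * b s w y)) * x +
      Phi ε t (fun s w => ∑ y, b s w y ^ 2) := by
    intro x
    have h2 : Phi ε t (fun s w => ∑ y, (a s w y * x - b s w y) ^ 2) =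
        Phi ε t (fun s w => ∑ y, a s w y ^ 2) * (x * x) +
      (-2 * Phi ε t (fun s w => ∑ y, a s w y * b s w y)) * x +
      Phi ε t (fun s w => ∑ y, b s w y ^ 2) := by
      have e : (fun (s : FS d L) (w : WS d L) => ∑ y, (a s w y * x - b s w y) ^ 2) =
          fun s w => ((x * x) * (∑ y, a s w y ^ 2) + (-2 * x) * (∑ y, a s w y * b s w y)) +
            ∑ y, b s w y ^ 2 := by
        funext s w
        rw [Finset.mul_sum, Finset.mul_sum, ← Finset.sum_add_distrib, ← Finset.sum_add_distrib]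
        exact Finset.sum_congr rfl fun y _ => by ring
      rw [e, Phi_add h0 h1, Phi_add h0 h1, Phi_smul, Phi_smul]
      ring
    rw [← h2]
    exact Phi_nonneg h0 h1 ht fun s w _ => Finset.sum_nonneg fun y _ => sq_nonneg _
  have := discrim_le_zero key
  unfold discrim at this
  nlinarith

/-! ## Translation invariance -/

lemma mem_image_add (B : Finset (V d L)) (u v : V d L) : u ∈ B.image (· + v) ↔ u - v ∈ B := by
  constructor
  · intro h
    obtain ⟨b, hb, rfl⟩ := Finset.mem_image.1 h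
    simpa using hb
  · intro h
    exact Finset.mem_image.2 ⟨u - v, h, by simp⟩

lemma tr_init (hT : T_TR) (f : FS d L → ℝ) (v : V d L) :
    fsg ε t (fun s => f (s.shift v)) (FS.init d L) = fsg ε t f (FS.init d L) := by
  have := (hT d L ε t f v).1 (FS.init d L)
  rw [this, (hT d L ε t f v).2]

lemma th_eq (hT : T_TR) (x : V d L) :
    fsg ε t (fun s : FS d L => if x ∈ s.dead then (0 : ℝ) else 1) (FS.init d L) =
      th ε d L t := by
  rw [← tr_init hT _ x]
  unfold th
  congr 1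
  funext s
  have : x ∈ (s.shift x).dead ↔ (0 : V d L) ∈ s.dead := by
    show x ∈ s.dead.image (· + x) ↔ _
    rw [mem_image_add, sub_self]
  simp only [this]

lemma vis2_eq (hT : T_TR) (x y : V d L) : vis2 ε t x y = vis2 ε t 0 (y - x) := by
  unfold vis2
  rw [← tr_init hT _ x]
  congr 1
  funext s
  have h1 : x ∈ (s.shift x).vis ↔ (0 : V d L) ∈ s.vis := by
    show x ∈ s.vis.image (· + x) ↔ _
    rw [mem_image_add, sub_self]
  have h2 : y ∈ (s.shift x).vis ↔ y - x ∈ s.vis := by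
    show y ∈ s.vis.image (· + x) ↔ _
    rw [mem_image_add]
  simp only [h1, h2]

lemma al_shift (s : FS d L) (v : V d L) : (s.shift v).al v = s.al 0 := by
  unfold FS.al
  congr 1
  refine Finset.card_bij (fun z _ => z - v) ?_ ?_ ?_
  · intro z hz
    rw [Finset.mem_filter] at hz ⊢
    refine ⟨Finset.mem_univ _, ?_, ?_⟩
    · have : s.pos (z - v) + v = v := hz.2.1
      exact add_eq_right.1 this
    · have : z ∉ s.dead.image (· + v) := hz.2.2
      rwa [mem_image_add] at this
  · intro a _ b _ hab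
    exact sub_left_injective hab
  · intro z hz
    rw [Finset.mem_filter] at hz
    refine ⟨z + v, ?_, by simp⟩
    rw [Finset.mem_filter]
    refine ⟨Finset.mem_univ _, ?_, ?_⟩
    · show s.pos (z + v - v) + v = v
      rw [add_sub_cancel_right, hz.2.1, zero_add]
    · show z + v ∉ s.dead.image (· + v)
      rw [mem_image_add, add_sub_cancel_right]
      exact hz.2.2

open Classical in
lemma nu_eq (hT : T_TR) (κ : ℝ) (x : V d L) :
    fsg ε t (fun s : FS d L => if (∃ z, s.pos z = x) ∧ s.al x < κ then (1 : ℝ) else 0)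
      (FS.init d L) = nu ε d L κ t := by
  rw [← tr_init hT _ x]
  unfold nu
  congr 1
  funext s
  have h1 : (∃ z, (s.shift x).pos z = x) ↔ ∃ z, s.pos z = 0 := by
    constructor
    · rintro ⟨z, hz⟩
      have : s.pos (z - x) + x = x := hz
      exact ⟨z - x, add_eq_right.1 this⟩
    · rintro ⟨z, hz⟩
      refine ⟨z + x, ?_⟩
      show s.pos (z + x - x) + x = x
      rw [add_sub_cancel_right, hz, zero_add]
  rw [al_shift]
  simp only [h1]

/-! ## One-site expectations -/

lemma E_sum (h0 : 0 ≤ ε) (h1 : ε ≤ 1) (f : V d L → FS d L → ℝ) (s : FS d L) :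
    fsg ε t (fun s => ∑ x, f x s) s = ∑ x, fsg ε t (f x) s :=
  sg_sum _ (fun _ _ => grF_of_finite (rc_nonneg h0 h1) _) _ _

lemma E_const_sub (h0 : 0 ≤ ε) (h1 : ε ≤ 1) (c : ℝ) (f : FS d L → ℝ) (s : FS d L) :
    fsg ε t (fun s => c - f s) s = c - fsg ε t f s := by
  have := sg_sub (r := rc d L ε) (φ := fup) (f := fun _ => c) (g := f)
    (grF_of_finite (rc_nonneg h0 h1) _) (grF_of_finite (rc_nonneg h0 h1) _) t s
  rw [sg_const] at this
  exact this

lemma E_vis (hD : T_DUAL) (hd : 1 ≤ d) (h0 : 0 ≤ ε) (h1 : ε ≤ 1) (ht : 0 ≤ t) :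
    fsg ε t (fun s : FS d L => (s.vis.card : ℝ)) (FS.init d L) =
      Fintype.card (V d L) * (1 - uu d L t) := by
  have e : (fun s : FS d L => (s.vis.card : ℝ)) =
      fun s => ∑ x : V d L, (1 - (if x ∉ s.vis then (1 : ℝ) else 0)) := by
    funext s
    have : ∀ x : V d L, (1 - (if x ∉ s.vis then (1 : ℝ) else 0)) =
        if x ∈ s.vis then 1 else 0 := by
      intro x
      by_cases h : x ∈ s.vis
      · simp [h]
      · simp [h]
    simp only [this]
    rw [Finset.sum_boole]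
    congr 2
    ext x; simp
  rw [e, E_sum h0 h1]
  have : ∀ x : V d L, fsg ε t (fun s : FS d L => 1 - (if x ∉ s.vis then (1 : ℝ) else 0))
      (FS.init d L) = 1 - uu d L t := by
    intro x
    rw [E_const_sub h0 h1, ((hD d L ε t hd h0 h1 ht).1 x)]
  simp only [this]
  rw [Finset.sum_const, Finset.card_univ, nsmul_eq_mul]

lemma E_dead (hT : T_TR) (h0 : 0 ≤ ε) (h1 : ε ≤ 1) :
    fsg ε t (fun s : FS d L => (s.dead.card : ℝ)) (FS.init d L) =
      Fintype.card (V d L) * (1 - th ε d L t) := by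
  have e : (fun s : FS d L => (s.dead.card : ℝ)) =
      fun s => ∑ x : V d L, (1 - (if x ∈ s.dead then (0 : ℝ) else 1)) := by
    funext s
    have : ∀ x : V d L, (1 - (if x ∈ s.dead then (0 : ℝ) else 1)) =
        if x ∈ s.dead then 1 else 0 := by
      intro x
      by_cases h : x ∈ s.dead
      · simp [h]
      · simp [h]
    simp only [this]
    rw [Finset.sum_boole]
    congr 2
    ext x; simp
  rw [e, E_sum h0 h1]
  have : ∀ x : V d L, fsg ε t (fun s : FS d L => 1 - (if x ∈ s.dead then (0 : ℝ) else 1))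
      (FS.init d L) = 1 - th ε d L t := by
    intro x
    rw [E_const_sub h0 h1, th_eq hT]
  simp only [this]
  rw [Finset.sum_const, Finset.card_univ, nsmul_eq_mul]

/-! ## The three inputs -/

lemma Phi_cnt (hD : T_DUAL) (hA : T_WA) (hd : 1 ≤ d) (h0 : 0 ≤ ε) (h1 : ε ≤ 1) (ht : 0 ≤ t) :
    Phi ε t (fun (_ : FS d L) w => ∑ y, w.cnt y) =
      Fintype.card (V d L) * (uu d L t - uu d L (2 * t)) := by
  unfold Phi
  have e : (fun s : FS d L => wsg ε t (fun w => ∑ y, w.cnt y) (WS.start s)) =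
      fun s => fsg ε t (fun s' => (s'.vis.card : ℝ)) s - s.vis.card := by
    funext s
    exact hA d L ε t hd h0 h1 ht s
  rw [e]
  have e2 : fsg ε t (fun s : FS d L => fsg ε t (fun s' => (s'.vis.card : ℝ)) s - s.vis.card)
      (FS.init d L) = fsg ε t (fsg ε t (fun s' => (s'.vis.card : ℝ))) (FS.init d L) -
        fsg ε t (fun s' => (s'.vis.card : ℝ)) (FS.init d L) :=
    sg_sub (grF_of_finite (rc_nonneg h0 h1) _) (grF_of_finite (rc_nonneg h0 h1) _) _ _
  rw [e2]
  have e3 : fsg ε t (fsg ε t (fun s' : FS d L => (s'.vis.card : ℝ))) (FS.init d L) =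
      fsg ε (t + t) (fun s' => (s'.vis.card : ℝ)) (FS.init d L) :=
    (sg_sg (grF_of_finite (rc_nonneg h0 h1) _) t t _).symm
  rw [e3, E_vis hD hd h0 h1 (by linarith), E_vis hD hd h0 h1 ht, two_mul]
  ring

lemma Phi_kill (hT : T_TR) (hC : T_WC) (hd : 1 ≤ d) (h0 : 0 ≤ ε) (h1 : ε ≤ 1) (ht : 0 ≤ t) :
    ε * Phi ε t (fun (s : FS d L) w => ∑ y, if 0 < w.cnt y then s.al y else 0) ≤
      Fintype.card (V d L) * (th ε d L t - th ε d L (2 * t)) := by
  rw [← Phi_smul]
  have step1 : Phi ε t (fun (s : FS d L) w => ε * ∑ y, if 0 < w.cnt y then s.al y else 0) ≤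
      fsg ε t (fun s : FS d L => fsg ε t (fun s' => ((s'.dead \ s.dead).card : ℝ)) s)
        (FS.init d L) := by
    unfold Phi
    refine sg_mono' (rc_nonneg h0 h1) (grF_of_finite (rc_nonneg h0 h1) _)
      (grF_of_finite (rc_nonneg h0 h1) _) (fun s => ?_) ht _
    have e : wsg ε t (fun w => ε * ∑ y, if 0 < w.cnt y then s.al y else 0) (WS.start s) =
        ε * wsg ε t (fun w => ∑ y, if 0 < w.cnt y then s.al y else 0) (WS.start s) :=
      sg_smul _ _ _ _
    rw [e]
    exact hC d L ε t hd h0 h1 ht s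
  refine step1.trans (le_of_eq ?_)
  have e : (fun s : FS d L => fsg ε t (fun s' => ((s'.dead \ s.dead).card : ℝ)) s) =
      fun s => fsg ε t (fun s' => (s'.dead.card : ℝ)) s - s.dead.card := by
    funext s
    have e1 : fsg ε t (fun s' => ((s'.dead \ s.dead).card : ℝ)) s =
        fsg ε t (fun s' => (s'.dead.card : ℝ) - s.dead.card) s := by
      refine sg_congr (rc_nonneg h0 h1) (Inv := fun s' : FS d L => s.dead ⊆ s'.dead)
        (fun i s' hs' => hs'.trans (fup_dead_mono i s')) (fun s' hs' => ?_) t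
        (Finset.Subset.refl _)
      rw [Finset.card_sdiff_of_subset hs', Nat.cast_sub (Finset.card_le_card hs')]
    rw [e1]
    have e2 := sg_sub (r := rc d L ε) (φ := fup) (f := fun s' : FS d L => (s'.dead.card : ℝ))
      (g := fun _ => (s.dead.card : ℝ)) (grF_of_finite (rc_nonneg h0 h1) _)
      (grF_of_finite (rc_nonneg h0 h1) _) t s
    rw [sg_const] at e2
    exact e2
  rw [e]
  have e2 : fsg ε t (fun s : FS d L => fsg ε t (fun s' => (s'.dead.card : ℝ)) s - s.dead.card)
      (FS.init d L) = fsg ε t (fsg ε t (fun s' => (s'.dead.card : ℝ))) (FS.init d L) -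
        fsg ε t (fun s' => (s'.dead.card : ℝ)) (FS.init d L) :=
    sg_sub (grF_of_finite (rc_nonneg h0 h1) _) (grF_of_finite (rc_nonneg h0 h1) _) _ _
  rw [e2]
  have e3 : fsg ε t (fsg ε t (fun s' : FS d L => (s'.dead.card : ℝ))) (FS.init d L) =
      fsg ε (t + t) (fun s' => (s'.dead.card : ℝ)) (FS.init d L) :=
    (sg_sg (grF_of_finite (rc_nonneg h0 h1) _) t t _).symm
  rw [e3, E_dead hT h0 h1, E_dead hT h0 h1, two_mul]
  ring

/-- the double sum over the sites -/
lemma sum_pairs (hT : T_TR) (hH : T_HIT) (hd : 1 ≤ d) (ht : 0 ≤ t) :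
    ∑ x : V d L, ∑ y ∈ Finset.univ.erase x, vis2 ε t x y * hit t x y =
      Fintype.card (V d L) * ∑ z ∈ Finset.univ.erase (0 : V d L),
        vis2 ε t 0 z * hit t 0 z := by
  have : ∀ x : V d L, ∑ y ∈ Finset.univ.erase x, vis2 ε t x y * hit t x y =
      ∑ z ∈ Finset.univ.erase (0 : V d L), vis2 ε t 0 z * hit t 0 z := by
    intro x
    refine Finset.sum_nbij' (fun y => y - x) (fun z => z + x) ?_ ?_ ?_ ?_ ?_
    · intro y hy
      rw [Finset.mem_erase] at hy ⊢
      exact ⟨sub_ne_zero.2 hy.1, Finset.mem_univ _⟩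
    · intro z hz
      rw [Finset.mem_erase] at hz ⊢
      refine ⟨fun h => hz.1 ?_, Finset.mem_univ _⟩
      exact add_eq_right.1 h
    · intro y _; simp
    · intro z _; simp
    · intro y _
      rw [vis2_eq hT x y, (hH d L hd).2.1 t x y ht]
  simp only [this]
  rw [Finset.sum_const, Finset.card_univ, nsmul_eq_mul]

lemma Phi_sq (hT : T_TR) (hD : T_DUAL) (hH : T_HIT) (hA : T_WA) (hB : T_WB) (hd : 1 ≤ d)
    (h0 : 0 ≤ ε) (h1 : ε ≤ 1) (ht : 0 ≤ t) :
    Phi ε t (fun (_ : FS d L) w => ∑ y, w.cnt y ^ 2) ≤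
      2 * Fintype.card (V d L) * DD ε d L t := by
  have step1 : Phi ε t (fun (_ : FS d L) w => ∑ y, w.cnt y ^ 2) ≤
      fsg ε t (fun s : FS d L => wsg ε t (fun w => ∑ y, w.cnt y) (WS.start s) +
        2 * ∑ x ∈ Finset.univ.filter (fun x => x ∉ s.vis),
          ∑ y ∈ Finset.univ.filter (fun y => y ∉ s.vis ∧ y ≠ x), hit t x y) (FS.init d L) := by
    unfold Phi
    exact sg_mono' (rc_nonneg h0 h1) (grF_of_finite (rc_nonneg h0 h1) _)
      (grF_of_finite (rc_nonneg h0 h1) _) (fun s => hB d L ε t hd h0 h1 ht s) ht _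
  have step2 : fsg ε t (fun s : FS d L => wsg ε t (fun w => ∑ y, w.cnt y) (WS.start s) +
        2 * ∑ x ∈ Finset.univ.filter (fun x => x ∉ s.vis),
          ∑ y ∈ Finset.univ.filter (fun y => y ∉ s.vis ∧ y ≠ x), hit t x y) (FS.init d L) =
      Phi ε t (fun (_ : FS d L) w => ∑ y, w.cnt y) +
        2 * ∑ x : V d L, ∑ y ∈ Finset.univ.erase x, vis2 ε t x y * hit t x y := by
    have e1 := sg_add (r := rc d L ε) (φ := fup)
      (f := fun s : FS d L => wsg ε t (fun w => ∑ y, w.cnt y) (WS.start s))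
      (g := fun s : FS d L => 2 * ∑ x ∈ Finset.univ.filter (fun x => x ∉ s.vis),
          ∑ y ∈ Finset.univ.filter (fun y => y ∉ s.vis ∧ y ≠ x), hit t x y)
      (grF_of_finite (rc_nonneg h0 h1) _) (grF_of_finite (rc_nonneg h0 h1) _) t (FS.init d L)
    unfold fsg Phi
    rw [e1]
    congr 1
    rw [sg_smul]
    congr 1
    have e2 : (fun s : FS d L => ∑ x ∈ Finset.univ.filter (fun x => x ∉ s.vis),
          ∑ y ∈ Finset.univ.filter (fun y => y ∉ s.vis ∧ y ≠ x), hit t x y) =
        fun s => ∑ x : V d L, ∑ y ∈ Finset.univ.erase x,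
          hit t x y * (if x ∉ s.vis ∧ y ∉ s.vis then (1 : ℝ) else 0) := by
      funext s
      rw [Finset.sum_filter]
      refine Finset.sum_congr rfl fun x _ => ?_
      by_cases hx : x ∈ s.vis
      · simp [hx]
      · rw [if_pos hx]
        have : Finset.univ.filter (fun y => y ∉ s.vis ∧ y ≠ x) =
            (Finset.univ.erase x).filter (fun y => y ∉ s.vis) := by
          ext y; simp [and_comm]
        rw [this, Finset.sum_filter]
        refine Finset.sum_congr rfl fun y _ => ?_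
        by_cases hy : y ∈ s.vis
        · simp [hy]
        · simp [hx, hy]
    rw [e2, sg_sum _ (fun _ _ => grF_of_finite (rc_nonneg h0 h1) _)]
    refine Finset.sum_congr rfl fun x _ => ?_
    rw [sg_sum _ (fun _ _ => grF_of_finite (rc_nonneg h0 h1) _)]
    refine Finset.sum_congr rfl fun y _ => ?_
    rw [sg_smul, mul_comm]
    rfl
  have step3 := Phi_nonneg (d := d) (L := L) h0 h1 ht
    (g := fun _ w => ∑ y, w.cnt y) (fun s w _ => Finset.sum_nonneg fun y _ => cnt_nonneg w y)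
  rw [step2, sum_pairs hT hH hd ht] at step1
  rw [Phi_cnt hD hA hd h0 h1 ht] at step1 step3
  unfold DD
  nlinarith

end R1_

open R1_ in
theorem t_R1 (hT : T_TR) (hD : T_DUAL) (hH : T_HIT) (hA : T_WA) (hB : T_WB) (hC : T_WC) :
    T_R1 := by
  classical
  intro d L ε κ t hd h0 h1 hκ ht
  set n : ℝ := ((Fintype.card (V d L) : ℕ) : ℝ) with hn
  have hnpos : 0 < n := by
    rw [hn]
    exact_mod_cast Fintype.card_pos
  set D := uu d L t - uu d L (2 * t) with hDdef
  set Q := Phi ε t (fun (_ : FS d L) w => ∑ y, w.cnt y ^ 2) with hQ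
  set Y := Phi ε t (fun (s : FS d L) w =>
    ∑ y, (if 0 < w.cnt y ∧ κ ≤ s.al y then (1 : ℝ) else 0) ^ 2) with hY
  set B := Phi ε t (fun (s : FS d L) (_ : WS d L) =>
    ∑ y, (if (∃ z, s.pos z = y) ∧ s.al y < κ then (1 : ℝ) else 0) ^ 2) with hB'
  have hcnt : Phi ε t (fun (_ : FS d L) w => ∑ y, w.cnt y) = n * D :=
    Phi_cnt hD hA hd h0 h1 ht
  have hsq : Q ≤ 2 * n * DD ε d L t := Phi_sq hT hD hH hA hB hd h0 h1 ht
  have hQ0 : 0 ≤ Q := Phi_nonneg h0 h1 ht
    fun s w _ => Finset.sum_nonneg fun y _ => sq_nonneg _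
  have hY0 : 0 ≤ Y := Phi_nonneg h0 h1 ht
    fun s w _ => Finset.sum_nonneg fun y _ => sq_nonneg _
  have hDD : 0 ≤ DD ε d L t := by
    by_contra h
    push Not at h
    nlinarith
  -- the bad sites
  have hBe : B = n * nu ε d L κ t := by
    have e1 : B = fsg ε t (fun s : FS d L =>
        ∑ y : V d L, (if (∃ z, s.pos z = y) ∧ s.al y < κ then (1 : ℝ) else 0))
        (FS.init d L) := by
      rw [hB']
      unfold Phi
      congr 1
      funext s
      unfold wsg
      rw [sg_const]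
      refine Finset.sum_congr rfl fun y _ => ?_
      split_ifs <;> norm_num
    rw [e1, E_sum h0 h1]
    have : ∀ x : V d L, fsg ε t (fun s : FS d L =>
        if (∃ z, s.pos z = x) ∧ s.al x < κ then (1 : ℝ) else 0) (FS.init d L) =
        nu ε d L κ t := fun x => nu_eq hT κ x
    simp only [this]
    rw [Finset.sum_const, Finset.card_univ, nsmul_eq_mul]
  -- the good sites
  have hkill := Phi_kill (d := d) (L := L) hT hC hd h0 h1 ht
  have hYκ : κ * Y ≤ Phi ε t (fun (s : FS d L) w => ∑ y, if 0 < w.cnt y then s.al y else 0) := by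
    rw [hY, ← Phi_smul]
    refine Phi_mono h0 h1 ht fun s w _ => ?_
    rw [Finset.mul_sum]
    refine Finset.sum_le_sum fun y _ => ?_
    have hal : 0 ≤ s.al y := by unfold FS.al; positivity
    by_cases hc : 0 < w.cnt y
    · by_cases hk : κ ≤ s.al y
      · simp only [hc, hk, and_self, if_true]; linarith
      · simp only [hc, hk, and_false, if_false, if_true]
        simpa using hal
    · simp [hc]
  have hεκY : ε * κ * Y ≤ n * (th ε d L t - th ε d L (2 * t)) := by
    calc ε * κ * Y = ε * (κ * Y) := by ring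
      _ ≤ ε * Phi ε t (fun (s : FS d L) w => ∑ y, if 0 < w.cnt y then s.al y else 0) :=
        mul_le_mul_of_nonneg_left hYκ h0
      _ ≤ _ := hkill
  -- splitting
  have hsplit : n * D ≤ Phi ε t (fun (s : FS d L) w => ∑ y, w.cnt y *
      (if 0 < w.cnt y ∧ κ ≤ s.al y then (1 : ℝ) else 0)) +
      Phi ε t (fun (s : FS d L) w => ∑ y, w.cnt y *
        (if (∃ z, s.pos z = y) ∧ s.al y < κ then (1 : ℝ) else 0)) := by
    rw [← hcnt, ← Phi_add h0 h1]
    refine Phi_mono h0 h1 ht fun s w hw => ?_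
    rw [← Finset.sum_add_distrib]
    refine Finset.sum_le_sum fun y _ => ?_
    by_cases hc : w.cnt y = 0
    · rw [hc]; simp
    · have hc' : 0 < w.cnt y := lt_of_le_of_ne (cnt_nonneg w y) (Ne.symm hc)
      have ho := occ_of_cnt hw hc
      by_cases hk : κ ≤ s.al y
      · have hk' : ¬ s.al y < κ := not_lt.2 hk
        simp only [hc', hk, hk', and_self, and_false, if_true, if_false]
        linarith
      · have hk' : s.al y < κ := not_le.1 hk
        simp only [hk, hk', ho, and_self, and_false, if_true, if_false]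
        linarith
  have hcs1 := Phi_cs (d := d) (L := L) h0 h1 ht (fun _ w y => w.cnt y)
    (fun s w y => if 0 < w.cnt y ∧ κ ≤ s.al y then (1 : ℝ) else 0)
  have hcs2 := Phi_cs (d := d) (L := L) h0 h1 ht (fun _ w y => w.cnt y)
    (fun s _ y => if (∃ z, s.pos z = y) ∧ s.al y < κ then (1 : ℝ) else 0)
  rw [← hQ, ← hY] at hcs1
  rw [← hQ, ← hB', hBe] at hcs2
  set G1 := Phi ε t (fun (s : FS d L) w => ∑ y, w.cnt y *
      (if 0 < w.cnt y ∧ κ ≤ s.al y then (1 : ℝ) else 0)) with hG1
  set G2 := Phi ε t (fun (s : FS d L) w => ∑ y, w.cnt y *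
        (if (∃ z, s.pos z = y) ∧ s.al y < κ then (1 : ℝ) else 0)) with hG2
  have hnu0 : 0 ≤ nu ε d L κ t := by
    have : 0 ≤ B := Phi_nonneg h0 h1 ht
      fun s w _ => Finset.sum_nonneg fun y _ => sq_nonneg _
    rw [hBe] at this
    exact nonneg_of_mul_nonneg_right this hnpos
  have hG2le : G2 ≤ n * √(2 * nu ε d L κ t * DD ε d L t) := by
    apply le_of_sq_le_sq _ (by positivity)
    calc G2 ^ 2 ≤ Q * (n * nu ε d L κ t) := hcs2
      _ ≤ (2 * n * DD ε d L t) * (n * nu ε d L κ t) :=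
        mul_le_mul_of_nonneg_right hsq (mul_nonneg hnpos.le hnu0)
      _ = (n * √(2 * nu ε d L κ t * DD ε d L t)) ^ 2 := by
        rw [mul_pow, Real.sq_sqrt (by positivity)]; ring
  set M := max 0 (D - √(2 * nu ε d L κ t * DD ε d L t)) with hM
  have hM0 : 0 ≤ M := le_max_left _ _
  have hM2 : (n * M) ^ 2 ≤ (2 * n * DD ε d L t) * Y := by
    rcases le_total (D - √(2 * nu ε d L κ t * DD ε d L t)) 0 with hc | hc
    · rw [hM, max_eq_left hc]
      simp only [mul_zero, ne_eq, OfNat.ofNat_ne_zero, not_false_eq_true, zero_pow]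
      positivity
    · have hMe : M = D - √(2 * nu ε d L κ t * DD ε d L t) := max_eq_right hc
      have h3 : n * M ≤ G1 := by
        rw [hMe]
        nlinarith
      calc (n * M) ^ 2 ≤ G1 ^ 2 := pow_le_pow_left₀ (by positivity) h3 2
        _ ≤ Q * Y := hcs1
        _ ≤ _ := mul_le_mul_of_nonneg_right hsq hY0
  have hfin : n ^ 2 * (ε * κ * M ^ 2) ≤
      n ^ 2 * (2 * (th ε d L t - th ε d L (2 * t)) * DD ε d L t) := by
    calc n ^ 2 * (ε * κ * M ^ 2) = ε * κ * (n * M) ^ 2 := by ring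
      _ ≤ ε * κ * ((2 * n * DD ε d L t) * Y) := mul_le_mul_of_nonneg_left hM2 (by positivity)
      _ = (2 * n * DD ε d L t) * (ε * κ * Y) := by ring
      _ ≤ (2 * n * DD ε d L t) * (n * (th ε d L t - th ε d L (2 * t))) :=
        mul_le_mul_of_nonneg_left hεκY (by positivity)
      _ = _ := by ring
  exact le_of_mul_le_mul_left hfin (by positivity)

end Pool.Agent.CAS
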