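import Pool.Agent.CAS.Targets
import Pool.Agent.CAS.Basic
import Mathlib.Probability.Independence.InfinitePi

/-!
# Rings of labels which are not present do not matter
-/

open Finset Filter Topology MeasureTheory
open scoped BigOperators

namespace Pool.Agent.CAS

namespace RESTR_

/-! ## No ties -/

lemma uniM_prob : IsProbabilityMeasure uniM := ⟨by simp [uniM]⟩

lemma ae_ne_prod (c : ℝ) : ∀ᵐ q ∂(uniM.prod uniM), c + q.1 ≠ q.2 := by
  have := uniM_prob
  have hm : MeasurableSet {q : ℝ × ℝ | c + q.1 = q.2} :=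
    measurableSet_eq_fun (measurable_const.add measurable_fst) measurable_snd
  rw [ae_iff]
  simp only [ne_eq, not_not]
  rw [Measure.measure_prod_null hm]
  refine Eventually.of_forall fun x => ?_
  have : (Prod.mk x ⁻¹' {q : ℝ × ℝ | c + q.1 = q.2}) = {c + x} := by
    ext y
    simp [eq_comm]
  simp only [this, Pi.zero_apply]
  unfold uniM
  exact le_antisymm ((Measure.restrict_le_self _).trans (by simp)) (zero_le)

lemma ae_ne {ι : Type} (a b : ι) (hab : a ≠ b) (c : ℝ) :
    ∀ᵐ t ∂(Measure.infinitePi fun _ : ι => uniM), c + t a ≠ t b := by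
  have := uniM_prob
  have h := Measure.infinitePi_map_eval_prod (P := fun _ : ι => uniM) hab
  have h2 := ae_ne_prod c
  rw [← h] at h2
  exact ae_of_ae_map (f := fun ω : ι → ℝ => (ω a, ω b)) (p := fun q : ℝ × ℝ => c + q.1 ≠ q.2)
    (by fun_prop) h2

lemma ae_inj {d : ℕ} (p : ℝ) (hd : 1 ≤ d) (h0 : 0 ≤ p) (h1 : p ≤ 1) :
    ∀ᵐ ω ∂(casM d p), Function.Injective fun a : Zd d × ℕ × ℕ => (a.2.1 : ℝ) + ω.toOm.tim a := by
  have key : ∀ᵐ t ∂(Measure.infinitePi fun _ : Zd d × ℕ × ℕ => uniM),
      Function.Injective fun a : Zd d × ℕ × ℕ => (a.2.1 : ℝ) + t a := by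
    have : ∀ a b : Zd d × ℕ × ℕ, ∀ᵐ t ∂(Measure.infinitePi fun _ : Zd d × ℕ × ℕ => uniM),
        (a.2.1 : ℝ) + t a = (b.2.1 : ℝ) + t b → a = b := by
      intro a b
      by_cases hab : a = b
      · exact Eventually.of_forall fun _ _ => hab
      · filter_upwards [ae_ne a b hab ((a.2.1 : ℝ) - b.2.1)] with t ht h
        exact absurd (by linarith) ht
    have h2 := ae_all_iff.2 fun a => ae_all_iff.2 (this a)
    filter_upwards [h2] with t ht a b hab
    exact ht a b hab
  unfold casM clkM
  have := uniM_prob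
  have : IsProbabilityMeasure (dirM d) := ⟨by
    have h := sum_ra hd
    rw [Finset.sum_const, Finset.card_univ, nsmul_eq_mul] at h
    simp only [dirM, Measure.smul_apply, Measure.count_univ, smul_eq_mul]
    rw [ENat.card_eq_coe_fintype_card, mul_comm]
    have h2 : ((Fintype.card (Dir d) : ℕ) : ENNReal) = ENNReal.ofReal (Fintype.card (Dir d) : ℝ) := by
      rw [ENNReal.ofReal_natCast]
    simp only [ENat.toENNReal_coe]
    rw [h2, ← ENNReal.ofReal_mul (by positivity), h, ENNReal.ofReal_one]⟩
  have : IsProbabilityMeasure (berM p) := ⟨by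
    simp only [berM, Measure.add_apply, Measure.smul_apply, smul_eq_mul, measure_univ, mul_one]
    rw [← ENNReal.ofReal_add h0 (by linarith)]
    simp⟩
  have q1 := (Measure.quasiMeasurePreserving_fst
    (μ := (Measure.infinitePi fun _ : Zd d × ℕ × ℕ => uniM))
    (ν := (Measure.infinitePi fun _ : Zd d × ℕ × ℕ => dirM d))).ae key
  have q2 := (Measure.quasiMeasurePreserving_snd
    (μ := (Measure.infinitePi fun _ : Zd d × ℕ => ProbabilityTheory.poissonMeasure 1))
    (ν := (Measure.infinitePi fun _ : Zd d × ℕ × ℕ => uniM).prod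
      (Measure.infinitePi fun _ : Zd d × ℕ × ℕ => dirM d))).ae q1
  have q3 := (Measure.quasiMeasurePreserving_snd
    (μ := (Measure.infinitePi fun _ : Zd d => uniM))
    (ν := (Measure.infinitePi fun _ : Zd d × ℕ => ProbabilityTheory.poissonMeasure 1).prod
      ((Measure.infinitePi fun _ : Zd d × ℕ × ℕ => uniM).prod
      (Measure.infinitePi fun _ : Zd d × ℕ × ℕ => dirM d)))).ae q2
  have q4 := (Measure.quasiMeasurePreserving_snd
    (μ := (Measure.infinitePi fun _ : Zd d => berM p))
    (ν := (Measure.infinitePi fun _ : Zd d => uniM).prod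
      ((Measure.infinitePi fun _ : Zd d × ℕ => ProbabilityTheory.poissonMeasure 1).prod
      ((Measure.infinitePi fun _ : Zd d × ℕ × ℕ => uniM).prod
      (Measure.infinitePi fun _ : Zd d × ℕ × ℕ => dirM d))))).ae q3
  exact q4

/-! ## Lists -/

lemma filter_sort {α : Type} (f : α → ℝ) (hf : Function.Injective f) (r : α → α → Prop)
    (hr : ∀ a b, r a b ↔ f a ≤ f b) [DecidableRel r] (S S' : Finset α) (P : α → Prop)
    [DecidablePred P] (h : ∀ a, a ∈ S' ↔ a ∈ S ∧ P a) :
    (S.toList.insertionSort r).filter (fun a => decide (P a)) = S'.toList.insertionSort r := by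
  have : Std.Total r := ⟨fun a b => by simpa [hr] using le_total (f a) (f b)⟩
  have : IsTrans α r := ⟨fun a b c => by simp only [hr]; exact le_trans⟩
  refine List.Perm.eq_of_pairwise (le := r) ?_ ?_ ?_ ?_
  · intro a b _ _ hab hba
    exact hf (le_antisymm ((hr _ _).1 hab) ((hr _ _).1 hba))
  · exact (List.pairwise_insertionSort r _).filter _
  · exact List.pairwise_insertionSort r _
  · refine (List.perm_ext_iff_of_nodup ?_ ?_).2 ?_
    · exact ((List.perm_insertionSort r _).nodup_iff.2 S.nodup_toList).filter _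
    · exact (List.perm_insertionSort r _).nodup_iff.2 S'.nodup_toList
    · intro a
      simp [h]

lemma mem_evs {d : ℕ} (cnt : Zd d × ℕ → ℕ) (B : Finset (Zd d)) (T : ℕ) (a : Zd d × ℕ × ℕ) :
    a ∈ evs cnt B T ↔ a.1 ∈ B ∧ a.2.1 < T ∧ a.2.2 < cnt (a.1, a.2.1) := by
  obtain ⟨z, n, k⟩ := a
  simp only [evs, Finset.mem_biUnion, Finset.mem_product, Finset.mem_range, Finset.mem_image,
    Prod.mk.injEq, Prod.exists]
  constructor
  · rintro ⟨z', n', ⟨h1, h2⟩, k', h3, rfl, rfl, rfl⟩
    exact ⟨h1, h2, h3⟩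
  · rintro ⟨h1, h2, h3⟩
    exact ⟨z, n, ⟨h1, h2⟩, k, h3, rfl, rfl, rfl⟩

open Classical in
lemma filter_rings {d : ℕ} (ω : Om d)
    (hinj : Function.Injective fun a : Zd d × ℕ × ℕ => (a.2.1 : ℝ) + ω.tim a)
    {B B' : Finset (Zd d)} (hB : B' ⊆ B) (T : ℕ) :
    (ω.rings B T).filter (fun a => decide (a.1 ∈ B')) = ω.rings B' T := by
  unfold Om.rings rgs
  rw [List.filter_map]
  congr 1
  refine filter_sort _ hinj _ (fun _ _ => Iff.rfl) _ _ (fun a => a.1 ∈ B') ?_
  intro a
  rw [mem_evs, mem_evs]
  constructor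
  · rintro ⟨h1, h2⟩
    exact ⟨⟨hB h1, h2⟩, h1⟩
  · rintro ⟨⟨h1, h2⟩, h3⟩
    exact ⟨h3, h2⟩

/-! ## The fold -/

/-- the relation kept by the fold -/
structure RR {ι G : Type} (J : ι → Prop) (s s' : LS ι G) : Prop where
  ld : s.ld = s'.ld
  pos : ∀ v, J v → s.pos v = s'.pos v
  mem : ∀ v a, s.ld v = some a → J v ∧ J a

lemma RR.refl_init {ι G : Type} (J : ι → Prop) (start : ι → G) :
    RR J (LS.init start J) (LS.init start J) where
  ld := rfl
  pos := fun _ _ => rfl
  mem := by
    intro v a h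
    simp only [LS.init] at h
    split_ifs at h with hv
    cases h
    exact ⟨hv, hv⟩

open Classical in
lemma RR.ring_out {ι G E : Type} [AddCommGroup G] {J : ι → Prop} {s s' : LS ι G} (h : RR J s s')
    (typ : ι → Bool) (brv : ι → ℝ) (step : E → G) (a : ι × E) (ha : ¬ J a.1) :
    RR J (ring typ brv step a s) s' := by
  unfold ring
  split_ifs with h1 h2 h3 h4
  · exact h
  · refine ⟨h.ld, ?_, h.mem⟩
    intro v hv
    have : v ≠ a.1 := by rintro rfl; exact ha hv
    simp only [Function.update_of_ne this]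
    exact h.pos v hv
  all_goals
    exfalso
    exact ha (h.mem _ _ (not_not.1 h2)).1

lemma choose_congr {α : Type} {p q : α → Prop} (hpq : p = q) (h : ∃ x, p x) (h' : ∃ x, q x) :
    h.choose = h'.choose := by
  subst hpq
  rfl

open Classical in
lemma RR.ring_in {ι G E : Type} [AddCommGroup G] {J : ι → Prop} {s s' : LS ι G} (h : RR J s s')
    (typ : ι → Bool) (brv : ι → ℝ) (step : E → G) (a : ι × E) (ha : J a.1) :
    RR J (ring typ brv step a s) (ring typ brv step a s') := by
  have hpos : ∀ w, s.ld w = some w → s.pos w = s'.pos w := fun w hw => h.pos w (h.mem w w hw).1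
  have ha' := h.pos _ ha
  have hld := h.ld
  have e1 : (fun w => typ w = false ∧ s.ld w = some w ∧ s.pos w = s.pos a.1 + step a.2) =
      fun w => typ w = false ∧ s'.ld w = some w ∧ s'.pos w = s'.pos a.1 + step a.2 := by
    funext w
    apply propext
    rw [← hld, ← ha']
    constructor
    · rintro ⟨h1, h2, h3⟩
      exact ⟨h1, h2, by rw [← hpos w h2]; exact h3⟩
    · rintro ⟨h1, h2, h3⟩
      exact ⟨h1, h2, by rw [hpos w h2]; exact h3⟩
  have e2 : (fun w => w ≠ a.1 ∧ s.ld w = some w ∧ s.pos w = s.pos a.1 + step a.2) =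
      fun w => w ≠ a.1 ∧ s'.ld w = some w ∧ s'.pos w = s'.pos a.1 + step a.2 := by
    funext w
    apply propext
    rw [← hld, ← ha']
    constructor
    · rintro ⟨h1, h2, h3⟩
      exact ⟨h1, h2, by rw [← hpos w h2]; exact h3⟩
    · rintro ⟨h1, h2, h3⟩
      exact ⟨h1, h2, by rw [hpos w h2]; exact h3⟩
  have hup : ∀ v, J v → Function.update s.pos a.1 (s.pos a.1 + step a.2) v =
      Function.update s'.pos a.1 (s'.pos a.1 + step a.2) v := by
    intro v hv
    by_cases hva : v = a.1
    · subst hva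
      simp [ha']
    · simp only [Function.update_of_ne hva]
      exact h.pos v hv
  unfold ring
  by_cases h1 : typ a.1 = false
  · rw [if_pos h1, if_pos h1]; exact h
  rw [if_neg h1, if_neg h1]
  by_cases h2 : s.ld a.1 ≠ some a.1
  · have h2' : s'.ld a.1 ≠ some a.1 := by rw [← hld]; exact h2
    rw [if_pos h2, if_pos h2']
    exact ⟨hld, hup, h.mem⟩
  have h2' : ¬ s'.ld a.1 ≠ some a.1 := by rw [← hld]; exact h2
  rw [if_neg h2, if_neg h2']
  by_cases h3 : ∃ w, typ w = false ∧ s.ld w = some w ∧ s.pos w = s.pos a.1 + step a.2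
  · have h3' : ∃ w, typ w = false ∧ s'.ld w = some w ∧ s'.pos w = s'.pos a.1 + step a.2 := by
      obtain ⟨w, hw⟩ := h3
      exact ⟨w, (congrFun e1 w) ▸ hw⟩
    rw [if_pos h3, if_pos h3']
    have e3 : ∀ v, (typ v = false ∧ s.ld v = some v ∧ s.pos v = s.pos a.1 + step a.2) =
      (typ v = false ∧ s'.ld v = some v ∧ s'.pos v = s'.pos a.1 + step a.2) := fun v => congrFun e1 v
    refine ⟨?_, hup, ?_⟩
    · funext v
      simp only [e3 v]
      simp only [hld]
    · intro v b hb
      simp only at hb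
      split_ifs at hb
      exact h.mem v b hb
  · have h3' : ¬ ∃ w, typ w = false ∧ s'.ld w = some w ∧ s'.pos w = s'.pos a.1 + step a.2 := by
      rintro ⟨w, hw⟩
      exact h3 ⟨w, (congrFun e1 w).symm ▸ hw⟩
    rw [if_neg h3, if_neg h3']
    by_cases h4 : ∃ w, w ≠ a.1 ∧ s.ld w = some w ∧ s.pos w = s.pos a.1 + step a.2
    · have h4' : ∃ w, w ≠ a.1 ∧ s'.ld w = some w ∧ s'.pos w = s'.pos a.1 + step a.2 := by
        obtain ⟨w, hw⟩ := h4
        exact ⟨w, (congrFun e2 w) ▸ hw⟩
      rw [dif_pos h4, dif_pos h4']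
      have e4 : h4.choose = h4'.choose := choose_congr e2 h4 h4'
      refine ⟨?_, hup, ?_⟩
      · funext v
        simp only [e4]
        simp only [hld]
      · intro v b hb
        simp only at hb
        split_ifs at hb with h5 h6
        · cases hb
          refine ⟨?_, ha⟩
          rcases h5 with h5 | h5
          · exact (h.mem _ _ h5).1
          · exact (h.mem _ _ h5).1
        · cases hb
          refine ⟨?_, ?_⟩
          · rcases h5 with h5 | h5
            · exact (h.mem _ _ h5).1
            · exact (h.mem _ _ h5).1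
          · exact (h.mem _ _ h4.choose_spec.2.1).1
        · exact h.mem v b hb
    · have h4' : ¬ ∃ w, w ≠ a.1 ∧ s'.ld w = some w ∧ s'.pos w = s'.pos a.1 + step a.2 := by
        rintro ⟨w, hw⟩
        exact h4 ⟨w, (congrFun e2 w).symm ▸ hw⟩
      rw [dif_neg h4, dif_neg h4']
      exact ⟨hld, hup, h.mem⟩

open Classical in
lemma fold_filter {ι G E : Type} [AddCommGroup G] {J : ι → Prop} (typ : ι → Bool) (brv : ι → ℝ)
    (step : E → G) (l : List (ι × E)) {s s' : LS ι G} (h : RR J s s') :
    RR J (l.foldl (fun s a => ring typ brv step a s) s)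
      ((l.filter fun a => decide (J a.1)).foldl (fun s a => ring typ brv step a s) s') := by
  induction l generalizing s s' with
  | nil => exact h
  | cons a l ih =>
    by_cases ha : J a.1
    · rw [List.filter_cons_of_pos (by simpa using ha)]
      exact ih (h.ring_in typ brv step a ha)
    · rw [List.filter_cons_of_neg (by simpa using ha)]
      exact ih (h.ring_out typ brv step a ha)

end RESTR_

open RESTR_ in
/-- Rings of labels which are not present do not matter. -/
theorem t_RESTR : T_RESTR := by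
  intro d p hd h0 h1
  filter_upwards [ae_inj p hd h0 h1] with ω hω m T
  have hsub : box d m ⊆ box d (m + 1) := by
    intro z hz
    simp only [box, Fintype.mem_piFinset, Finset.mem_Icc] at hz ⊢
    intro i
    have := hz i
    push_cast
    constructor <;> linarith [this.1, this.2]
  have h := fold_filter (J := fun z => z ∈ box d m) ω.toOm.typ ω.toOm.brv (dz (d := d))
    (ω.toOm.rings (box d (m + 1)) T) (RR.refl_init (fun z => z ∈ box d m) (id : Zd d → Zd d))
  have hf := filter_rings ω.toOm hω hsub T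
  have hf' : ((ω.toOm.rings (box d (m + 1)) T).filter fun a =>
      @decide ((fun z => z ∈ box d m) a.1) (Classical.propDecidable _)) =
      ω.toOm.rings (box d m) T := by
    rw [← hf]
    exact List.filter_congr fun a _ => decide_eq_decide.2 Iff.rfl
  have h2 := congrFun h.ld 0
  rw [hf'] at h2
  unfold Om.run
  exact h2

end Pool.Agent.CAS
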