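import Pool.Agent.CAS.Basic

/-!
# The transitions of the literal system: case analysis without choices, invariants
-/

open Finset Filter Topology MeasureTheory
open scoped BigOperators

namespace Pool.Agent.CAS

set_option linter.unusedSectionVars false

section Inv

variable {ι G E : Type} [AddCommGroup G]

/-- the basic invariants of the literal system -/
structure Good (typ : ι → Bool) (s : LS ι G) : Prop where
  g1 : ∀ v a, s.ld v = some a → s.ld a = some a
  g2 : ∀ v w, s.ld v = some v → s.ld w = some w → s.pos v = s.pos w → v = w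
  g3 : ∀ v a, s.ld v = some a → typ a = false → v = a

lemma good_init (typ : ι → Bool) {start : ι → G} (h : Function.Injective start) (J : ι → Prop) :
    Good typ (LS.init start J) := by
  classical
  refine ⟨?_, ?_, ?_⟩
  · intro v a h1
    simp only [LS.init] at h1 ⊢
    split_ifs at h1 with hv
    simp only [Option.some.injEq] at h1
    subst h1
    rw [if_pos hv]
  · intro v w _ _ h3
    exact h h3
  · intro v a h1 _
    simp only [LS.init] at h1
    split_ifs at h1 with hv
    simpa using h1

/-- `z` does not lead an alive cluster of A particles, or is a B particle: no interaction -/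
structure RIdle (typ : ι → Bool) (step : E → G) (a : ι × E) (s s' : LS ι G) : Prop where
  ty : typ a.1 = true
  nl : s.ld a.1 ≠ some a.1
  p1 : s'.pos a.1 = s.pos a.1 + step a.2
  p2 : ∀ v, v ≠ a.1 → s'.pos v = s.pos v
  ld : s'.ld = s.ld

/-- annihilation -/
structure RKill (typ : ι → Bool) (step : E → G) (a : ι × E) (s s' : LS ι G) : Prop where
  ty : typ a.1 = true
  l : s.ld a.1 = some a.1
  p1 : s'.pos a.1 = s.pos a.1 + step a.2
  p2 : ∀ v, v ≠ a.1 → s'.pos v = s.pos v
  ex : ∃ w, typ w = false ∧ s.ld w = some w ∧ s.pos w = s.pos a.1 + step a.2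
  ld1 : ∀ v, (s.ld v = some a.1 ∨
    (typ v = false ∧ s.ld v = some v ∧ s.pos v = s.pos a.1 + step a.2)) → s'.ld v = none
  ld2 : ∀ v, ¬ (s.ld v = some a.1 ∨
    (typ v = false ∧ s.ld v = some v ∧ s.pos v = s.pos a.1 + step a.2)) → s'.ld v = s.ld v

/-- merging with the cluster with leader `w`; `b` is the new leader -/
structure RMerge (typ : ι → Bool) (brv : ι → ℝ) (step : E → G) (a : ι × E) (w b : ι)
    (s s' : LS ι G) : Prop where
  ty : typ a.1 = true
  l : s.ld a.1 = some a.1
  p1 : s'.pos a.1 = s.pos a.1 + step a.2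
  p2 : ∀ v, v ≠ a.1 → s'.pos v = s.pos v
  nex : ¬ ∃ w, typ w = false ∧ s.ld w = some w ∧ s.pos w = s.pos a.1 + step a.2
  tw : typ w = true
  wne : w ≠ a.1
  lw : s.ld w = some w
  pw : s.pos w = s.pos a.1 + step a.2
  b1 : brv w < brv a.1 → b = a.1
  b2 : ¬ brv w < brv a.1 → b = w
  ld1 : ∀ v, s.ld v = some a.1 ∨ s.ld v = some w → s'.ld v = some b
  ld2 : ∀ v, ¬ (s.ld v = some a.1 ∨ s.ld v = some w) → s'.ld v = s.ld v

lemma RMerge.b_or {typ : ι → Bool} {brv : ι → ℝ} {step : E → G} {a : ι × E} {w b : ι}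
    {s s' : LS ι G} (h : RMerge typ brv step a w b s s') : b = a.1 ∨ b = w := by
  by_cases hb : brv w < brv a.1
  · exact Or.inl (h.b1 hb)
  · exact Or.inr (h.b2 hb)

/-- a move to an empty site -/
structure RMove (typ : ι → Bool) (step : E → G) (a : ι × E) (s s' : LS ι G) : Prop where
  ty : typ a.1 = true
  l : s.ld a.1 = some a.1
  p1 : s'.pos a.1 = s.pos a.1 + step a.2
  p2 : ∀ v, v ≠ a.1 → s'.pos v = s.pos v
  nex : ¬ ∃ w, typ w = false ∧ s.ld w = some w ∧ s.pos w = s.pos a.1 + step a.2
  nex2 : ¬ ∃ w, w ≠ a.1 ∧ s.ld w = some w ∧ s.pos w = s.pos a.1 + step a.2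
  ld : s'.ld = s.ld

/-- description of the transitions -/
lemma ring_cases (typ : ι → Bool) (brv : ι → ℝ) (step : E → G) (a : ι × E) (s : LS ι G) :
    (typ a.1 = false ∧ ring typ brv step a s = s) ∨
    RIdle typ step a s (ring typ brv step a s) ∨
    RKill typ step a s (ring typ brv step a s) ∨
    (∃ w b, RMerge typ brv step a w b s (ring typ brv step a s)) ∨
    RMove typ step a s (ring typ brv step a s) := by
  classical
  by_cases h0 : typ a.1 = false
  · left
    refine ⟨h0, ?_⟩
    unfold ring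
    rw [if_pos h0]
  have h0' : typ a.1 = true := by simpa using h0
  right
  by_cases h1 : s.ld a.1 ≠ some a.1
  · left
    refine ⟨h0', h1, ?_, fun v hv => ?_, ?_⟩
    · unfold ring
      rw [if_neg h0, if_pos h1]
      simp
    · unfold ring
      rw [if_neg h0, if_pos h1]
      simp [hv]
    · unfold ring
      rw [if_neg h0, if_pos h1]
  have h1' : s.ld a.1 = some a.1 := not_not.1 h1
  right
  by_cases h2 : ∃ w, typ w = false ∧ s.ld w = some w ∧ s.pos w = s.pos a.1 + step a.2
  · left
    refine ⟨h0', h1', ?_, fun v hv => ?_, h2, fun v hv => ?_, fun v hv => ?_⟩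
    · unfold ring
      rw [if_neg h0, if_neg h1, if_pos h2]
      simp
    · unfold ring
      rw [if_neg h0, if_neg h1, if_pos h2]
      simp [hv]
    · unfold ring
      rw [if_neg h0, if_neg h1, if_pos h2]
      simp only
      rw [if_pos hv]
    · unfold ring
      rw [if_neg h0, if_neg h1, if_pos h2]
      simp only
      rw [if_neg hv]
  right
  by_cases h3 : ∃ w, w ≠ a.1 ∧ s.ld w = some w ∧ s.pos w = s.pos a.1 + step a.2
  · left
    have hwt : typ h3.choose = true := by
      by_contra h
      exact h2 ⟨h3.choose, by simpa using h, h3.choose_spec.2.1, h3.choose_spec.2.2⟩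
    refine ⟨h3.choose, if brv h3.choose < brv a.1 then a.1 else h3.choose, h0', h1', ?_,
      fun v hv => ?_, h2, hwt, h3.choose_spec.1, h3.choose_spec.2.1, h3.choose_spec.2.2,
      fun hb => if_pos hb, fun hb => if_neg hb, fun v hv => ?_, fun v hv => ?_⟩
    · unfold ring
      rw [if_neg h0, if_neg h1, if_neg h2, dif_pos h3]
      simp
    · unfold ring
      rw [if_neg h0, if_neg h1, if_neg h2, dif_pos h3]
      simp [hv]
    · unfold ring
      rw [if_neg h0, if_neg h1, if_neg h2, dif_pos h3]
      simp only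
      rw [if_pos hv]
    · unfold ring
      rw [if_neg h0, if_neg h1, if_neg h2, dif_pos h3]
      simp only
      rw [if_neg hv]
  · right
    refine ⟨h0', h1', ?_, fun v hv => ?_, h2, h3, ?_⟩
    · unfold ring
      rw [if_neg h0, if_neg h1, if_neg h2, dif_neg h3]
      simp
    · unfold ring
      rw [if_neg h0, if_neg h1, if_neg h2, dif_neg h3]
      simp [hv]
    · unfold ring
      rw [if_neg h0, if_neg h1, if_neg h2, dif_neg h3]

lemma good_ring {typ : ι → Bool} (brv : ι → ℝ) (step : E → G) (a : ι × E) {s : LS ι G}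
    (hs : Good typ s) : Good typ (ring typ brv step a s) := by
  classical
  obtain ⟨g1, g2, g3⟩ := hs
  rcases ring_cases typ brv step a s with ⟨_, h⟩ | h | h | ⟨w, b, h⟩ | h
  · rw [h]; exact ⟨g1, g2, g3⟩
  · refine ⟨?_, ?_, ?_⟩
    · rw [h.ld]; exact g1
    · rw [h.ld]
      intro v w hv hw h'
      have hv' : v ≠ a.1 := fun h' => h.nl (h' ▸ hv)
      have hw' : w ≠ a.1 := fun h' => h.nl (h' ▸ hw)
      rw [h.p2 v hv', h.p2 w hw'] at h'
      exact g2 v w hv hw h'
    · rw [h.ld]; exact g3
  · have key : ∀ v b, (ring typ brv step a s).ld v = some b → s.ld v = some b ∧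
        ¬ (s.ld v = some a.1 ∨
          (typ v = false ∧ s.ld v = some v ∧ s.pos v = s.pos a.1 + step a.2)) := by
      intro v b hv
      by_cases hc : s.ld v = some a.1 ∨
          (typ v = false ∧ s.ld v = some v ∧ s.pos v = s.pos a.1 + step a.2)
      · rw [h.ld1 v hc] at hv; simp at hv
      · rw [h.ld2 v hc] at hv; exact ⟨hv, hc⟩
    refine ⟨?_, ?_, ?_⟩
    · intro v b hv
      obtain ⟨hv1, hv2⟩ := key v b hv
      have hb := g1 v b hv1
      rw [h.ld2 b, hb]
      rintro (h' | ⟨h4, h5, h6⟩)
      · rw [hb] at h'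
        exact hv2 (Or.inl (by rw [hv1, h']))
      · have : v = b := g3 v b hv1 h4
        subst this
        exact hv2 (Or.inr ⟨h4, h5, h6⟩)
    · intro v u hv hu h'
      obtain ⟨hv1, hv2⟩ := key v v hv
      obtain ⟨hu1, hu2⟩ := key u u hu
      have hv' : v ≠ a.1 := fun h' => hv2 (Or.inl (by rw [hv1, h']))
      have hu' : u ≠ a.1 := fun h' => hu2 (Or.inl (by rw [hu1, h']))
      rw [h.p2 v hv', h.p2 u hu'] at h'
      exact g2 v u hv1 hu1 h'
    · intro v b hv hb
      exact g3 v b (key v b hv).1 hb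
  · have hlb : s.ld b = some a.1 ∨ s.ld b = some w := by
      rcases h.b_or with hb | hb
      · rw [hb]; exact Or.inl h.l
      · rw [hb]; exact Or.inr h.lw
    have key : ∀ v c, (ring typ brv step a s).ld v = some c →
        (c = b ∧ (s.ld v = some a.1 ∨ s.ld v = some w)) ∨
        (s.ld v = some c ∧ ¬ (s.ld v = some a.1 ∨ s.ld v = some w)) := by
      intro v c hv
      by_cases hc : s.ld v = some a.1 ∨ s.ld v = some w
      · rw [h.ld1 v hc] at hv
        simp only [Option.some.injEq] at hv
        exact Or.inl ⟨hv.symm, hc⟩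
      · rw [h.ld2 v hc] at hv; exact Or.inr ⟨hv, hc⟩
    refine ⟨?_, ?_, ?_⟩
    · intro v c hv
      rcases key v c hv with ⟨h1, h2⟩ | ⟨h1, h2⟩
      · rw [h1]; exact h.ld1 b hlb
      · have hb := g1 v c h1
        rw [h.ld2 c, hb]
        rw [hb, ← h1]
        exact h2
    · have pb : (ring typ brv step a s).pos b = s.pos a.1 + step a.2 := by
        by_cases hb : b = a.1
        · rw [hb, h.p1]
        · rcases h.b_or with h' | h'
          · exact absurd h' hb
          · rw [h.p2 b hb, h', h.pw]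
      have no : ∀ u, u ≠ w → s.ld u = some u → s.pos u ≠ s.pos a.1 + step a.2 := by
        intro u hu1 hu2 hu3
        exact hu1 (g2 u w hu2 h.lw (by rw [hu3, h.pw]))
      have key2 : ∀ v, (ring typ brv step a s).ld v = some v → v = b ∨
          (v ≠ a.1 ∧ v ≠ w ∧ s.ld v = some v) := by
        intro v hv
        rcases key v v hv with ⟨h1, h2⟩ | ⟨h1, h2⟩
        · exact Or.inl h1
        · right
          exact ⟨fun h' => h2 (Or.inl (by rw [h1, h'])), fun h' => h2 (Or.inr (by rw [h1, h'])), h1⟩
      intro v u hv hu h'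
      rcases key2 v hv with h1 | ⟨h1, h2, h3⟩
      · rcases key2 u hu with h4 | ⟨h4, h5, h6⟩
        · rw [h1, h4]
        · exfalso
          rw [h1, pb, h.p2 u h4] at h'
          exact no u h5 h6 h'.symm
      · rcases key2 u hu with h4 | ⟨h4, h5, h6⟩
        · exfalso
          rw [h4, pb, h.p2 v h1] at h'
          exact no v h2 h3 h'
        · rw [h.p2 v h1, h.p2 u h4] at h'
          exact g2 v u h3 h6 h'
    · intro v c hv hc
      rcases key v c hv with ⟨h1, h2⟩ | ⟨h1, h2⟩
      · exfalso
        rcases h.b_or with h' | h'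
        · rw [h1, h', h.ty] at hc; exact absurd hc (by simp)
        · rw [h1, h', h.tw] at hc; exact absurd hc (by simp)
      · exact g3 v c h1 hc
  · refine ⟨?_, ?_, ?_⟩
    · rw [h.ld]; exact g1
    · intro v u hv hu h'
      rw [h.ld] at hv hu
      by_cases hva : v = a.1
      · by_cases hua : u = a.1
        · rw [hva, hua]
        · exfalso
          rw [hva, h.p1, h.p2 u hua] at h'
          exact h.nex2 ⟨u, hua, hu, h'.symm⟩
      · by_cases hua : u = a.1
        · exfalso
          rw [hua, h.p1, h.p2 v hva] at h'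
          exact h.nex2 ⟨v, hva, hv, h'⟩
        · rw [h.p2 v hva, h.p2 u hua] at h'
          exact g2 v u hv hu h'
    · rw [h.ld]; exact g3

lemma good_foldl {typ : ι → Bool} (brv : ι → ℝ) (step : E → G) (l : List (ι × E)) {s : LS ι G}
    (hs : Good typ s) : Good typ (l.foldl (fun s a => ring typ brv step a s) s) := by
  induction l generalizing s with
  | nil => exact hs
  | cons a l ih => exact ih (good_ring brv step a hs)

/-- Restriction to a set of labels: `s` has labels in `ι`, `s'` has labels in a subtype. -/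
structure Rel {P : ι → Prop} (s : LS ι G) (s' : LS (Subtype P) G) : Prop where
  pos : ∀ z : Subtype P, s.pos z = s'.pos z
  ld : ∀ z : Subtype P, s.ld z = (s'.ld z).map Subtype.val
  out : ∀ z, ¬ P z → s.ld z = none

lemma map_val_eq_some {P : ι → Prop} {o : Option (Subtype P)} {w : Subtype P} :
    o.map Subtype.val = some (w : ι) ↔ o = some w := by
  cases o with
  | none => simp
  | some u => simp [Subtype.ext_iff]

lemma Rel.ld_iff {P : ι → Prop} {s : LS ι G} {s' : LS (Subtype P) G} (h : Rel s s')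
    (z w : Subtype P) : s.ld z = some (w : ι) ↔ s'.ld z = some w := by
  rw [h.ld z, map_val_eq_some]

lemma Rel.mem {P : ι → Prop} {s : LS ι G} {s' : LS (Subtype P) G} (h : Rel s s')
    {z w : ι} (hz : s.ld z = some w) : P z := by
  by_contra h'
  rw [h.out z h'] at hz
  simp at hz

lemma rel_ring {P : ι → Prop} {typ : ι → Bool} (brv : ι → ℝ) (step : E → G) (a : Subtype P)
    (e : E) {s : LS ι G} {s' : LS (Subtype P) G} (hs : Good typ s) (h : Rel s s') :
    Rel (ring typ brv step ((a : ι), e) s)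
      (ring (fun z : Subtype P => typ z) (fun z : Subtype P => brv z) step (a, e) s') := by
  classical
  have hya : s.pos a + step e = s'.pos a + step e := by rw [h.pos]
  have hB : (∃ w, typ w = false ∧ s.ld w = some w ∧ s.pos w = s.pos a + step e) ↔
      (∃ w : Subtype P, typ w = false ∧ s'.ld w = some w ∧ s'.pos w = s'.pos a + step e) := by
    constructor
    · rintro ⟨w, h1, h2, h3⟩
      refine ⟨⟨w, h.mem h2⟩, h1, (h.ld_iff ⟨w, h.mem h2⟩ ⟨w, h.mem h2⟩).1 h2, ?_⟩
      rw [← h.pos, ← h.pos]; exact h3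
    · rintro ⟨w, h1, h2, h3⟩
      refine ⟨w, h1, (h.ld_iff w w).2 h2, ?_⟩
      rw [h.pos, h.pos]; exact h3
  have hlda : s.ld a = some (a : ι) ↔ s'.ld a = some a := h.ld_iff a a
  have hpos : ∀ t t', t.pos (a : ι) = s.pos a + step e →
      (∀ v, v ≠ (a : ι) → t.pos v = s.pos v) → t'.pos a = s'.pos a + step e →
      (∀ v, v ≠ a → t'.pos v = s'.pos v) → ∀ (z : Subtype P), (t : LS ι G).pos z =
      (t' : LS (Subtype P) G).pos z := by
    intro t t' h1 h2 h3 h4 z
    by_cases hz : z = a
    · rw [hz, h1, h3, hya]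
    · rw [h2 z (fun h' => hz (Subtype.ext h')), h4 z hz, h.pos]
  rcases ring_cases typ brv step ((a : ι), e) s with ⟨c0, c⟩ | c | c | ⟨w, b, c⟩ | c
  · rcases ring_cases (fun z : Subtype P => typ z) (fun z : Subtype P => brv z) step (a, e) s'
      with ⟨d0, dd⟩ | dd | dd | ⟨w', b', dd⟩ | dd
    · rw [c, dd]; exact h
    all_goals exact absurd (c0.symm.trans dd.ty) Bool.false_ne_true
  · rcases ring_cases (fun z : Subtype P => typ z) (fun z : Subtype P => brv z) step (a, e) s'
      with ⟨d0, dd⟩ | dd | dd | ⟨w', b', dd⟩ | dd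
    · exact absurd (d0.symm.trans c.ty) Bool.false_ne_true
    · exact ⟨hpos _ _ c.p1 c.p2 dd.p1 dd.p2, fun z => by rw [c.ld, dd.ld]; exact h.ld z,
        fun z hz => by rw [c.ld]; exact h.out z hz⟩
    all_goals exact absurd (hlda.2 dd.l) c.nl
  · rcases ring_cases (fun z : Subtype P => typ z) (fun z : Subtype P => brv z) step (a, e) s'
      with ⟨d0, dd⟩ | dd | dd | ⟨w', b', dd⟩ | dd
    · exact absurd (d0.symm.trans c.ty) Bool.false_ne_true
    · exact absurd (hlda.1 c.l) dd.nl
    · refine ⟨hpos _ _ c.p1 c.p2 dd.p1 dd.p2, fun z => ?_, fun z hz => ?_⟩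
      · have e1 : s.ld z = some (a : ι) ↔ s'.ld z = some a := h.ld_iff z a
        have e2 : s.ld z = some (z : ι) ↔ s'.ld z = some z := h.ld_iff z z
        have e3 : (s.ld z = some (a : ι) ∨ (typ z = false ∧ s.ld z = some (z : ι) ∧
            s.pos z = s.pos a + step e)) ↔ (s'.ld z = some a ∨ (typ z = false ∧
            s'.ld z = some z ∧ s'.pos z = s'.pos a + step e)) := by
          rw [e1, e2, h.pos z, hya]
        by_cases hc : s'.ld z = some a ∨ (typ z = false ∧ s'.ld z = some z ∧
            s'.pos z = s'.pos a + step e)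
        · rw [c.ld1 z (e3.2 hc), dd.ld1 z hc]; rfl
        · rw [c.ld2 z (fun h' => hc (e3.1 h')), dd.ld2 z hc]; exact h.ld z
      · rw [c.ld2]
        · exact h.out z hz
        · rw [h.out z hz]; simp
    · exact absurd (hB.1 c.ex) dd.nex
    · exact absurd (hB.1 c.ex) dd.nex
  · rcases ring_cases (fun z : Subtype P => typ z) (fun z : Subtype P => brv z) step (a, e) s'
      with ⟨d0, dd⟩ | dd | dd | ⟨w', b', dd⟩ | dd
    · exact absurd (d0.symm.trans c.ty) Bool.false_ne_true
    · exact absurd (hlda.1 c.l) dd.nl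
    · exact absurd (hB.2 dd.ex) c.nex
    · have hww : (w' : ι) = w := by
        refine hs.g2 w' w ((h.ld_iff w' w').2 dd.lw) c.lw ?_
        rw [c.pw, h.pos, dd.pw, ← hya]
      have hbb : (b' : ι) = b := by
        by_cases hb : brv w < brv a
        · rw [c.b1 hb, dd.b1 (by rw [hww]; exact hb)]
        · rw [c.b2 hb, dd.b2 (by rw [hww]; exact hb), hww]
      refine ⟨hpos _ _ c.p1 c.p2 dd.p1 dd.p2, fun z => ?_, fun z hz => ?_⟩
      · have e1 : s.ld z = some (a : ι) ↔ s'.ld z = some a := h.ld_iff z a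
        have e2 : s.ld z = some w ↔ s'.ld z = some w' := by
          rw [← hww]; exact h.ld_iff z w'
        by_cases hc : s'.ld z = some a ∨ s'.ld z = some w'
        · rw [c.ld1 z (by rw [e1, e2]; exact hc), dd.ld1 z hc, ← hbb]; rfl
        · rw [c.ld2 z (by rw [e1, e2]; exact hc), dd.ld2 z hc]
          exact h.ld z
      · rw [c.ld2]
        · exact h.out z hz
        · rw [h.out z hz]
          simp
    · exfalso
      refine dd.nex2 ⟨⟨w, h.mem c.lw⟩, fun h' => c.wne (congrArg Subtype.val h'),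
        (h.ld_iff ⟨w, h.mem c.lw⟩ ⟨w, h.mem c.lw⟩).1 c.lw, ?_⟩
      rw [← h.pos, ← h.pos]; exact c.pw
  · rcases ring_cases (fun z : Subtype P => typ z) (fun z : Subtype P => brv z) step (a, e) s'
      with ⟨d0, dd⟩ | dd | dd | ⟨w', b', dd⟩ | dd
    · exact absurd (d0.symm.trans c.ty) Bool.false_ne_true
    · exact absurd (hlda.1 c.l) dd.nl
    · exact absurd (hB.2 dd.ex) c.nex
    · exfalso
      refine c.nex2 ⟨w', fun h' => dd.wne (Subtype.ext h'), (h.ld_iff w' w').2 dd.lw, ?_⟩
      rw [h.pos, h.pos]; exact dd.pw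
    · exact ⟨hpos _ _ c.p1 c.p2 dd.p1 dd.p2, fun z => by rw [c.ld, dd.ld]; exact h.ld z,
        fun z hz => by rw [c.ld]; exact h.out z hz⟩

end Inv

end Pool.Agent.CAS
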