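import Mathlib

/-!
# Semigroups of finite jump systems

A jump system on a state space `S` is a finite family of maps `φ i : S → S` with rates `r i`.
`sg r φ t f s` is the expectation of `f` at time `t` for the process started at `s`.
-/

open Finset Filter Topology
open scoped BigOperators

namespace Pool.Agent.CAS

variable {S S' I I' : Type*} [Fintype I] [Fintype I']

/-- The generator. -/
def gen (r : I → ℝ) (φ : I → S → S) (f : S → ℝ) (s : S) : ℝ := ∑ i, r i * (f (φ i s) - f s)

/-- The unnormalised one step operator. -/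
def Qop (r : I → ℝ) (φ : I → S → S) (f : S → ℝ) (s : S) : ℝ := ∑ i, r i * f (φ i s)

/-- The total rate. -/
def tr (r : I → ℝ) : ℝ := ∑ i, r i

/-- The semigroup: expectation at time `t` started at `s`. -/
noncomputable def sg (r : I → ℝ) (φ : I → S → S) (t : ℝ) (f : S → ℝ) (s : S) : ℝ :=
  Real.exp (-(tr r) * t) * ∑' k : ℕ, t ^ k / (k.factorial : ℝ) * ((Qop r φ)^[k] f) s

/-- Bounded functions. -/
def Bd (f : S → ℝ) : Prop := ∃ B, ∀ s, |f s| ≤ B

lemma Bd.of_finite [Finite S] (f : S → ℝ) : Bd f := by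
  cases nonempty_fintype S
  refine ⟨∑ s, |f s|, fun s => ?_⟩
  exact Finset.single_le_sum (f := fun s => |f s|) (fun _ _ => abs_nonneg _) (Finset.mem_univ s)

/-! ## Exponential series -/

/-- `∑ a k t^k / k!` -/
noncomputable def es (a : ℕ → ℝ) (t : ℝ) : ℝ := ∑' k : ℕ, t ^ k / (k.factorial : ℝ) * a k

/-- geometric growth -/
def Gr (a : ℕ → ℝ) : Prop := ∃ B M : ℝ, 0 ≤ M ∧ ∀ k, |a k| ≤ B * M ^ k

lemma Gr.summable {a : ℕ → ℝ} (h : Gr a) (t : ℝ) :
    Summable fun k : ℕ => t ^ k / (k.factorial : ℝ) * a k := by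
  obtain ⟨B, M, hM, h⟩ := h
  have h1 : Summable fun k : ℕ => (|t| * M) ^ k / (k.factorial : ℝ) * |B| :=
    (Real.summable_pow_div_factorial (|t| * M)).mul_right _
  refine Summable.of_norm_bounded h1 fun k => ?_
  rw [Real.norm_eq_abs, abs_mul, abs_div, abs_pow, Nat.abs_cast, mul_pow]
  have h2 : |a k| ≤ M ^ k * |B| := (h k).trans (by
    rw [mul_comm]; exact mul_le_mul_of_nonneg_left (le_abs_self B) (pow_nonneg hM _))
  calc |t| ^ k / (k.factorial : ℝ) * |a k| ≤ |t| ^ k / (k.factorial : ℝ) * (M ^ k * |B|) :=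
        mul_le_mul_of_nonneg_left h2 (by positivity)
    _ = |t| ^ k * M ^ k / (k.factorial : ℝ) * |B| := by ring

lemma Gr.shift {a : ℕ → ℝ} (h : Gr a) : Gr fun k => a (k + 1) := by
  obtain ⟨B, M, hM, h⟩ := h
  exact ⟨B * M, M, hM, fun k => (h (k + 1)).trans (by rw [pow_succ]; ring_nf; rfl)⟩

lemma Gr.smul {a : ℕ → ℝ} (h : Gr a) (c : ℝ) : Gr fun k => c * a k := by
  obtain ⟨B, M, hM, h⟩ := h
  refine ⟨|c| * B, M, hM, fun k => ?_⟩
  rw [abs_mul, mul_assoc]
  exact mul_le_mul_of_nonneg_left (h k) (abs_nonneg c)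

lemma Gr.add {a b : ℕ → ℝ} (h : Gr a) (h' : Gr b) : Gr fun k => a k + b k := by
  obtain ⟨B, M, hM, h⟩ := h
  obtain ⟨B', M', hM', h'⟩ := h'
  refine ⟨|B| + |B'|, max M M', le_max_of_le_left hM, fun k => (abs_add_le _ _).trans ?_⟩
  have e1 : |a k| ≤ |B| * (max M M') ^ k := (h k).trans (mul_le_mul (le_abs_self B)
    (pow_le_pow_left₀ hM (le_max_left _ _) k) (pow_nonneg hM _) (abs_nonneg _))
  have e2 : |b k| ≤ |B'| * (max M M') ^ k := (h' k).trans (mul_le_mul (le_abs_self B')
    (pow_le_pow_left₀ hM' (le_max_right _ _) k) (pow_nonneg hM' _) (abs_nonneg _))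
  linarith

lemma es_zero (a : ℕ → ℝ) : es a 0 = a 0 := by
  rw [es, tsum_eq_single 0]
  · simp
  · intro k hk
    simp [hk]

lemma es_smul (a : ℕ → ℝ) (c t : ℝ) : es (fun k => c * a k) t = c * es a t := by
  rw [es, es, ← tsum_mul_left]
  refine tsum_congr fun k => by ring

lemma es_add {a b : ℕ → ℝ} (h : Gr a) (h' : Gr b) (t : ℝ) :
    es (fun k => a k + b k) t = es a t + es b t := by
  rw [es, es, es, ← (h.summable t).tsum_add (h'.summable t)]
  refine tsum_congr fun k => by ring

lemma es_mono {a b : ℕ → ℝ} (h : Gr a) (h' : Gr b) {t : ℝ} (ht : 0 ≤ t) (hab : ∀ k, a k ≤ b k) :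
    es a t ≤ es b t :=
  (h.summable t).tsum_le_tsum (fun k => mul_le_mul_of_nonneg_left (hab k) (by positivity))
    (h'.summable t)

lemma es_geom (c t : ℝ) : es (fun k => c ^ k) t = Real.exp (c * t) := by
  rw [es, Real.exp_eq_exp_ℝ, NormedSpace.exp_eq_tsum_div]
  refine tsum_congr fun k => ?_
  rw [mul_pow]; ring

/-- derivative of an exponential series -/
lemma hasDerivAt_es {a : ℕ → ℝ} (h : Gr a) (t : ℝ) :
    HasDerivAt (es a) (es (fun k => a (k + 1)) t) t := by
  have h0 := h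
  obtain ⟨B, M, hM, hB⟩ := h
  set R : ℝ := |t| + 1 with hR
  have hR0 : 0 < R := by positivity
  set u : ℕ → ℝ := fun k => R ^ k / (k.factorial : ℝ) * (|B| * M ^ (k + 1)) with hu
  have hus : Summable u := by
    have h1 : Summable fun k : ℕ => (R * M) ^ k / (k.factorial : ℝ) * (|B| * M) :=
      (Real.summable_pow_div_factorial (R * M)).mul_right _
    refine h1.congr fun k => ?_
    simp only [hu]
    rw [mul_pow, pow_succ]; ring
  have hd : ∀ (k : ℕ) (y : ℝ),
      HasDerivAt (fun y : ℝ => y ^ (k + 1) / ((k + 1).factorial : ℝ) * a (k + 1))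
      (y ^ k / (k.factorial : ℝ) * a (k + 1)) y := fun k y => by
    have h1 := ((hasDerivAt_pow (k + 1) y).div_const ((k + 1).factorial : ℝ)).mul_const (a (k + 1))
    refine h1.congr_deriv ?_
    rw [Nat.factorial_succ]; push_cast
    field_simp
  have hb : ∀ (k : ℕ) (y : ℝ), y ∈ Metric.ball (0 : ℝ) R →
      ‖y ^ k / (k.factorial : ℝ) * a (k + 1)‖ ≤ u k := by
    intro k y hy
    rw [Real.norm_eq_abs, abs_mul, abs_div, abs_pow, Nat.abs_cast]
    have h2 : |a (k + 1)| ≤ |B| * M ^ (k + 1) := (hB (k + 1)).trans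
      (mul_le_mul_of_nonneg_right (le_abs_self B) (pow_nonneg hM _))
    have h3 : |y| ≤ R := by
      rw [Metric.mem_ball, dist_zero_right, Real.norm_eq_abs] at hy
      exact hy.le
    have h4 : |y| ^ k ≤ R ^ k := pow_le_pow_left₀ (abs_nonneg y) h3 k
    exact mul_le_mul (div_le_div_of_nonneg_right h4 (by positivity)) h2 (abs_nonneg _)
      (by positivity)
  have hs1 : Summable fun k : ℕ => (0 : ℝ) ^ (k + 1) / ((k + 1).factorial : ℝ) * a (k + 1) :=
    (summable_nat_add_iff 1).2 (h0.summable 0)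
  have key := hasDerivAt_tsum_of_isPreconnected hus
    (Metric.isOpen_ball (α := ℝ) (x := (0 : ℝ)) (ε := R))
    (convex_ball (0 : ℝ) R).isPreconnected
    (g := fun (k : ℕ) (y : ℝ) => y ^ (k + 1) / ((k + 1).factorial : ℝ) * a (k + 1))
    (g' := fun (k : ℕ) (y : ℝ) => y ^ k / (k.factorial : ℝ) * a (k + 1))
    (fun k y _ => hd k y) hb (y₀ := 0) (by simpa using hR0) hs1 (y := t) (by simp [hR])
  have e : es a = fun y => a 0 + ∑' k : ℕ, y ^ (k + 1) / ((k + 1).factorial : ℝ) * a (k + 1) := by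
    funext y
    unfold es
    rw [(h0.summable y).tsum_eq_zero_add]
    simp
  rw [e]
  exact key.const_add (a 0)

lemma hasDerivAt_es' {a : ℕ → ℝ} (h : Gr a) (t : ℝ) : HasDerivAt (es a)
    (es (fun k => a (k + 1)) t) t := hasDerivAt_es h t

lemma add_pow_div_factorial_aux (t u : ℝ) (n : ℕ) : (t + u) ^ n / (n.factorial : ℝ) =
    ∑ p ∈ Finset.HasAntidiagonal.antidiagonal n, t ^ p.1 / (p.1.factorial : ℝ) * (u ^ p.2 / (p.2.factorial : ℝ)) := by
  rw [(Commute.all t u).add_pow', Finset.sum_div]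
  refine Finset.sum_congr rfl fun p hp => ?_
  have h := Nat.add_choose_mul_factorial_mul_factorial p.1 p.2
  rw [Finset.HasAntidiagonal.mem_antidiagonal.1 hp,
    ← Nat.choose_symm_of_eq_add (Finset.HasAntidiagonal.mem_antidiagonal.1 hp).symm] at h
  have h' : ((n.choose p.1 : ℕ) : ℝ) * (p.1.factorial : ℝ) * (p.2.factorial : ℝ) =
      (n.factorial : ℝ) := by
    exact_mod_cast h
  rw [nsmul_eq_mul, ← h']
  have h1 : (p.1.factorial : ℝ) ≠ 0 := by positivity
  have h2 : (p.2.factorial : ℝ) ≠ 0 := by positivity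
  have h3 : ((n.choose p.1 : ℕ) : ℝ) ≠ 0 := by
    intro h0
    rw [h0] at h'
    have : (n.factorial : ℝ) ≠ 0 := by positivity
    apply this; rw [← h']; ring
  field_simp

/-- Taylor shift for exponential series. -/
lemma es_add_time {a : ℕ → ℝ} (h : Gr a) (t u : ℝ) :
    es a (t + u) = es (fun k => es (fun l => a (k + l)) u) t := by
  obtain ⟨B, M, hM, hB⟩ := h
  have hB' : ∀ k, |a k| ≤ |B| * M ^ k := fun k => (hB k).trans
    (mul_le_mul_of_nonneg_right (le_abs_self B) (pow_nonneg hM _))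
  set c : ℕ × ℕ → ℝ := fun p => t ^ p.1 / (p.1.factorial : ℝ) *
    (u ^ p.2 / (p.2.factorial : ℝ) * a (p.1 + p.2)) with hc
  have h1 : Summable fun k : ℕ => (|t| * M) ^ k / (k.factorial : ℝ) * |B| :=
    (Real.summable_pow_div_factorial (|t| * M)).mul_right _
  have h2 : Summable fun k : ℕ => (|u| * M) ^ k / (k.factorial : ℝ) :=
    Real.summable_pow_div_factorial (|u| * M)
  have hcs : Summable c := by
    have h3 := h1.mul_of_nonneg h2 (fun k => by positivity) (fun k => by positivity)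
    refine Summable.of_norm_bounded h3 fun p => ?_
    simp only [hc]
    rw [Real.norm_eq_abs, abs_mul, abs_mul, abs_div, abs_div, abs_pow, abs_pow, Nat.abs_cast,
      Nat.abs_cast]
    have := hB' (p.1 + p.2)
    calc |t| ^ p.1 / (p.1.factorial : ℝ) * (|u| ^ p.2 / (p.2.factorial : ℝ) * |a (p.1 + p.2)|)
        ≤ |t| ^ p.1 / (p.1.factorial : ℝ) * (|u| ^ p.2 / (p.2.factorial : ℝ) *
          (|B| * M ^ (p.1 + p.2))) := by gcongr
      _ = _ := by rw [mul_pow, mul_pow, pow_add]; ring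
  have e1 : ∑' p, c p = es (fun k => es (fun l => a (k + l)) u) t := by
    rw [hcs.tsum_prod]
    unfold es
    refine tsum_congr fun k => ?_
    simp only [hc]
    rw [tsum_mul_left]
  rw [← e1]
  have e2 : ∑' p, c p = ∑' n : ℕ, ∑ p ∈ Finset.HasAntidiagonal.antidiagonal n, c p := by
    have h4 : HasSum c (∑' p, c p) := hcs.hasSum
    have h5 := (Finset.HasAntidiagonal.sigmaAntidiagonalEquivProd.hasSum_iff (f := c)).2 h4
    have h6 := h5.sigma (g := fun n => ∑ p ∈ Finset.HasAntidiagonal.antidiagonal n, c p) (fun n => by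
      have := hasSum_fintype (fun p : Finset.HasAntidiagonal.antidiagonal n => c p)
      rw [Finset.sum_coe_sort (Finset.HasAntidiagonal.antidiagonal n) c] at this
      exact this)
    exact h6.tsum_eq.symm
  rw [e2]
  unfold es
  refine tsum_congr fun n => ?_
  simp only [hc]
  rw [add_pow_div_factorial_aux t u n, Finset.sum_mul]
  refine Finset.sum_congr rfl fun p hp => ?_
  rw [Finset.HasAntidiagonal.mem_antidiagonal.1 hp]; ring

/-! ## Basic properties of the semigroup -/

section Basic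

variable {r : I → ℝ} {φ : I → S → S} {r' : I' → ℝ} {ψ : I' → S' → S'}

lemma sg_eq (r : I → ℝ) (φ : I → S → S) (t : ℝ) (f : S → ℝ) (s : S) :
    sg r φ t f s = Real.exp (-(tr r) * t) * es (fun k => ((Qop r φ)^[k] f) s) t := rfl

/-- `f` has geometric growth along the system -/
def GrF (r : I → ℝ) (φ : I → S → S) (f : S → ℝ) : Prop :=
  ∀ s, Gr fun k => ((Qop r φ)^[k] f) s

lemma tr_nonneg (hr : ∀ i, 0 ≤ r i) : 0 ≤ tr r := Finset.sum_nonneg fun i _ => hr i

lemma Qop_bound (hr : ∀ i, 0 ≤ r i) {f : S → ℝ} {B : ℝ} (hB : ∀ s, |f s| ≤ B) (k : ℕ) :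
    ∀ s, |((Qop r φ)^[k] f) s| ≤ B * (tr r) ^ k := by
  induction k with
  | zero => intro s; simpa using hB s
  | succ k ih =>
    intro s
    rw [Function.iterate_succ_apply']
    unfold Qop at ih ⊢
    calc |∑ i, r i * ((fun (f : S → ℝ) (s : S) => ∑ i, r i * f (φ i s))^[k] f) (φ i s)|
        ≤ ∑ i, |r i * ((fun (f : S → ℝ) (s : S) => ∑ i, r i * f (φ i s))^[k] f) (φ i s)| :=
          Finset.abs_sum_le_sum_abs _ _
      _ ≤ ∑ i, r i * (B * (tr r) ^ k) := by
          refine Finset.sum_le_sum fun i _ => ?_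
          rw [abs_mul, abs_of_nonneg (hr i)]
          exact mul_le_mul_of_nonneg_left (ih _) (hr i)
      _ = B * (tr r) ^ (k + 1) := by
          rw [← Finset.sum_mul, pow_succ]
          unfold tr; ring

lemma Bd.grF (hr : ∀ i, 0 ≤ r i) {f : S → ℝ} (h : Bd f) : GrF r φ f := by
  obtain ⟨B, hB⟩ := h
  exact fun s => ⟨B, tr r, tr_nonneg hr, fun k => Qop_bound hr hB k s⟩

lemma Qop_add (f g : S → ℝ) (k : ℕ) :
    (Qop r φ)^[k] (fun s => f s + g s) = fun s => ((Qop r φ)^[k] f) s + ((Qop r φ)^[k] g) s := by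
  induction k with
  | zero => rfl
  | succ k ih =>
    funext s
    rw [Function.iterate_succ_apply', ih, Function.iterate_succ_apply', Function.iterate_succ_apply']
    simp only [Qop, mul_add, Finset.sum_add_distrib]

lemma Qop_smul (c : ℝ) (f : S → ℝ) (k : ℕ) :
    (Qop r φ)^[k] (fun s => c * f s) = fun s => c * ((Qop r φ)^[k] f) s := by
  induction k with
  | zero => rfl
  | succ k ih =>
    funext s
    rw [Function.iterate_succ_apply', ih, Function.iterate_succ_apply']
    simp only [Qop, Finset.mul_sum]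
    exact Finset.sum_congr rfl fun i _ => by ring

lemma Qop_const (c : ℝ) (k : ℕ) :
    (Qop r φ)^[k] (fun _ => c) = fun _ => c * (tr r) ^ k := by
  induction k with
  | zero => simp
  | succ k ih =>
    funext s
    rw [Function.iterate_succ_apply', ih]
    simp only [Qop]
    rw [← Finset.sum_mul, pow_succ]
    unfold tr; ring

lemma Qop_mono (hr : ∀ i, 0 ≤ r i) {Inv : S → Prop} (hI : ∀ i s, Inv s → Inv (φ i s))
    {f g : S → ℝ} (h : ∀ s, Inv s → f s ≤ g s) (k : ℕ) :
    ∀ s, Inv s → ((Qop r φ)^[k] f) s ≤ ((Qop r φ)^[k] g) s := by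
  induction k with
  | zero => exact h
  | succ k ih =>
    intro s hs
    rw [Function.iterate_succ_apply', Function.iterate_succ_apply']
    exact Finset.sum_le_sum fun i _ => mul_le_mul_of_nonneg_left (ih _ (hI i s hs)) (hr i)

lemma GrF.add {f g : S → ℝ} (h : GrF r φ f) (h' : GrF r φ g) : GrF r φ (fun s => f s + g s) := by
  intro s
  simp only [Qop_add]
  exact (h s).add (h' s)

lemma GrF.smul {f : S → ℝ} (h : GrF r φ f) (c : ℝ) : GrF r φ (fun s => c * f s) := by
  intro s
  simp only [Qop_smul]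
  exact (h s).smul c

lemma GrF.Qop {f : S → ℝ} (h : GrF r φ f) : GrF r φ (Qop r φ f) := by
  intro s
  have := (h s).shift
  simpa only [Function.iterate_succ_apply] using this

lemma sg_zero (f : S → ℝ) (s : S) : sg r φ 0 f s = f s := by
  rw [sg_eq, es_zero]; simp

lemma Qop_const' (c : ℝ) (k : ℕ) (s : S) :
    ((Qop r φ)^[k] (fun _ => c)) s = c * (tr r) ^ k := by
  rw [Qop_const]

lemma sg_const (t c : ℝ) (s : S) : sg r φ t (fun _ => c) s = c := by
  rw [sg_eq]
  simp only [Qop_const']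
  rw [es_smul, es_geom]
  have : Real.exp (-(tr r) * t) * Real.exp ((tr r) * t) = 1 := by
    rw [← Real.exp_add]; simp
  calc _ = c * (Real.exp (-(tr r) * t) * Real.exp ((tr r) * t)) := by ring
    _ = c := by rw [this, mul_one]

lemma sg_add {f g : S → ℝ} (h : GrF r φ f) (h' : GrF r φ g) (t : ℝ) (s : S) :
    sg r φ t (fun s => f s + g s) s = sg r φ t f s + sg r φ t g s := by
  simp only [sg_eq, Qop_add]
  rw [es_add (h s) (h' s)]; ring

lemma sg_smul (c t : ℝ) (f : S → ℝ) (s : S) :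
    sg r φ t (fun s => c * f s) s = c * sg r φ t f s := by
  simp only [sg_eq, Qop_smul]
  rw [es_smul]; ring

lemma sg_neg (t : ℝ) (f : S → ℝ) (s : S) :
    sg r φ t (fun s => -f s) s = -sg r φ t f s := by
  have := sg_smul (r := r) (φ := φ) (-1) t f s
  simpa using this

lemma sg_sub {f g : S → ℝ} (h : GrF r φ f) (h' : GrF r φ g) (t : ℝ) (s : S) :
    sg r φ t (fun s => f s - g s) s = sg r φ t f s - sg r φ t g s := by
  have h2 : GrF r φ (fun s => -1 * g s) := h'.smul (-1)
  have := sg_add h h2 t s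
  rw [sg_smul] at this
  calc _ = sg r φ t (fun s => f s + -1 * g s) s := by congr 1; funext s; ring
    _ = _ := by rw [this]; ring

lemma sg_sum {ι : Type*} (A : Finset ι) {f : ι → S → ℝ} (h : ∀ j ∈ A, GrF r φ (f j)) (t : ℝ) (s : S) :
    sg r φ t (fun s => ∑ j ∈ A, f j s) s = ∑ j ∈ A, sg r φ t (f j) s := by
  classical
  have key : GrF r φ (fun s => ∑ j ∈ A, f j s) ∧
      sg r φ t (fun s => ∑ j ∈ A, f j s) s = ∑ j ∈ A, sg r φ t (f j) s := by
    induction A using Finset.induction_on with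
    | empty =>
      simp only [Finset.sum_empty]
      refine ⟨?_, sg_const t 0 s⟩
      intro s
      simp only [Qop_const']
      exact ⟨0, 0, le_rfl, fun k => by simp⟩
    | insert a A ha ih =>
      simp only [Finset.sum_insert ha]
      obtain ⟨ih1, ih2⟩ := ih fun j hj => h j (Finset.mem_insert_of_mem hj)
      have h1 := h a (Finset.mem_insert_self _ _)
      exact ⟨h1.add ih1, by rw [sg_add h1 ih1, ih2]⟩
  exact key.2

/-- monotonicity, on an invariant set of states -/
lemma sg_mono (hr : ∀ i, 0 ≤ r i) {Inv : S → Prop} (hI : ∀ i s, Inv s → Inv (φ i s))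
    {f g : S → ℝ} (hf : GrF r φ f) (hg : GrF r φ g) (h : ∀ s, Inv s → f s ≤ g s) {t : ℝ}
    (ht : 0 ≤ t) {s : S} (hs : Inv s) : sg r φ t f s ≤ sg r φ t g s := by
  rw [sg_eq, sg_eq]
  exact mul_le_mul_of_nonneg_left (es_mono (hf s) (hg s) ht fun k => Qop_mono hr hI h k s hs)
    (Real.exp_pos _).le

lemma sg_mono' (hr : ∀ i, 0 ≤ r i) {f g : S → ℝ} (hf : GrF r φ f) (hg : GrF r φ g)
    (h : ∀ s, f s ≤ g s) {t : ℝ} (ht : 0 ≤ t) (s : S) : sg r φ t f s ≤ sg r φ t g s :=
  sg_mono hr (Inv := fun _ => True) (fun _ _ _ => trivial) hf hg (fun s _ => h s) ht trivial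

lemma sg_congr (hr : ∀ i, 0 ≤ r i) {Inv : S → Prop} (hI : ∀ i s, Inv s → Inv (φ i s))
    {f g : S → ℝ} (h : ∀ s, Inv s → f s = g s) (t : ℝ) {s : S} (hs : Inv s) :
    sg r φ t f s = sg r φ t g s := by
  rw [sg_eq, sg_eq]
  congr 2
  funext k
  exact le_antisymm (Qop_mono hr hI (fun s hs => (h s hs).le) k s hs)
    (Qop_mono hr hI (fun s hs => (h s hs).ge) k s hs)

lemma sg_nonneg (hr : ∀ i, 0 ≤ r i) {Inv : S → Prop} (hI : ∀ i s, Inv s → Inv (φ i s))
    {f : S → ℝ} (hf : GrF r φ f) (h : ∀ s, Inv s → 0 ≤ f s) {t : ℝ}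
    (ht : 0 ≤ t) {s : S} (hs : Inv s) : 0 ≤ sg r φ t f s := by
  have h0 : GrF r φ (fun _ : S => (0 : ℝ)) := by
    intro s
    simp only [Qop_const']
    exact ⟨0, 0, le_rfl, fun k => by simp⟩
  have := sg_mono hr hI h0 hf h ht hs
  rwa [sg_const] at this

/-- the derivative in time -/
lemma hasDerivAt_sg {f : S → ℝ} (hf : GrF r φ f) (s : S) (t : ℝ) :
    HasDerivAt (fun t => sg r φ t f s) (sg r φ t (gen r φ f) s) t := by
  have h1 : HasDerivAt (fun t : ℝ => Real.exp (-(tr r) * t)) (-(tr r) * Real.exp (-(tr r) * t)) t := by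
    have := ((hasDerivAt_id t).const_mul (-(tr r))).exp
    simpa [mul_comm] using this
  have h2 := hasDerivAt_es (hf s) t
  have h3 := h1.mul h2
  refine h3.congr_deriv ?_
  have e1 : gen r φ f = fun s => Qop r φ f s + (-(tr r)) * f s := by
    funext s
    simp only [gen, Qop, tr, mul_sub, Finset.sum_sub_distrib]
    rw [← Finset.sum_mul]; ring
  rw [e1, sg_add hf.Qop (hf.smul _), sg_smul, sg_eq, sg_eq]
  have e2 : (fun k => ((Qop r φ)^[k] (Qop r φ f)) s) = fun k => ((Qop r φ)^[k + 1] f) s := by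
    funext k
    rw [Function.iterate_succ_apply]
  rw [e2]; ring

/-- the generator commutes with the semigroup -/
lemma gen_sg {f : S → ℝ} (hf : GrF r φ f) (s : S) (t : ℝ) :
    gen r φ (sg r φ t f) s = sg r φ t (gen r φ f) s := by
  have e1 : gen r φ f = fun s => Qop r φ f s + (-(tr r)) * f s := by
    funext s
    simp only [gen, Qop, tr, mul_sub, Finset.sum_sub_distrib]
    rw [← Finset.sum_mul]; ring
  rw [e1, sg_add hf.Qop (hf.smul _), sg_smul, sg_eq r φ t (Qop r φ f)]
  have e2 : (fun k => ((Qop r φ)^[k] (Qop r φ f)) s) =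
      fun k => ∑ i, r i * ((Qop r φ)^[k] f) (φ i s) := by
    funext k
    rw [← Function.iterate_succ_apply, Function.iterate_succ_apply']
    rfl
  have e3 : es (fun k => ∑ i, r i * ((Qop r φ)^[k] f) (φ i s)) t =
      ∑ i, r i * es (fun k => ((Qop r φ)^[k] f) (φ i s)) t := by
    simp only [es]
    simp_rw [Finset.mul_sum]
    rw [Summable.tsum_finsetSum]
    · refine Finset.sum_congr rfl fun i _ => ?_
      rw [← tsum_mul_left]
      exact tsum_congr fun k => by ring
    · intro i _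
      have := ((hf (φ i s)).smul (r i)).summable t
      exact this
  rw [e2, e3]
  simp only [gen, mul_sub, Finset.sum_sub_distrib]
  rw [← Finset.sum_mul, Finset.mul_sum]
  simp only [sg_eq]
  unfold tr
  have : ∀ i, r i * (Real.exp (-(∑ i, r i) * t) * es (fun k => ((Qop r φ)^[k] f) (φ i s)) t) =
      Real.exp (-(∑ i, r i) * t) * (r i * es (fun k => ((Qop r φ)^[k] f) (φ i s)) t) :=
    fun i => by ring
  simp only [this]
  ring

/-- semigroup property -/
lemma sg_sg {f : S → ℝ} (hf : GrF r φ f) (t u : ℝ) (s : S) :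
    sg r φ (t + u) f s = sg r φ t (sg r φ u f) s := by
  have e0 : ∀ k, ((Qop r φ)^[k] (sg r φ u f)) =
      fun s => Real.exp (-(tr r) * u) * es (fun l => ((Qop r φ)^[k + l] f) s) u := by
    intro k
    induction k with
    | zero => funext s; simp [sg_eq]
    | succ k ih =>
      funext s
      rw [Function.iterate_succ_apply', ih]
      simp only [Qop]
      have e3 : es (fun l => ((Qop r φ)^[k + 1 + l] f) s) u =
          ∑ i, r i * es (fun l => ((Qop r φ)^[k + l] f) (φ i s)) u := by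
        have e4 : ∀ l, ((Qop r φ)^[k + 1 + l] f) s =
            ∑ i, r i * ((Qop r φ)^[k + l] f) (φ i s) := by
          intro l
          rw [show k + 1 + l = (k + l) + 1 by ring, Function.iterate_succ_apply']
          rfl
        simp only [e4, es]
        simp_rw [Finset.mul_sum]
        rw [Summable.tsum_finsetSum]
        · refine Finset.sum_congr rfl fun i _ => ?_
          rw [← tsum_mul_left]
          exact tsum_congr fun l => by ring
        · intro i _
          obtain ⟨B, M, hM, hB⟩ := hf (φ i s)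
          have h5 : Gr fun l => r i * ((Qop r φ)^[k + l] f) (φ i s) := by
            refine Gr.smul ⟨B * M ^ k, M, hM, fun l => ?_⟩ (r i)
            refine (hB (k + l)).trans ?_
            rw [pow_add]; ring_nf; rfl
          exact h5.summable u
      rw [e3, Finset.mul_sum]
      refine Finset.sum_congr rfl fun i _ => ?_
      ring
  rw [sg_eq, sg_eq, es_add_time (hf s)]
  simp only [e0]
  rw [es_smul, mul_add, Real.exp_add]; ring

end Basic

end Pool.Agent.CAS
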