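import Pool.Agent.CAS.SG

/-!
# Semigroups of finite jump systems, part 2: finite state spaces

Transition probabilities, comparison principle, Dynkin formula, products, duality, lumping,
Gronwall, Cauchy-Schwarz and Jensen.
-/

open Finset Filter Topology MeasureTheory
open scoped BigOperators

namespace Pool.Agent.CAS

set_option linter.unusedSectionVars false

variable {S S' I I' : Type*} [Fintype I] [Fintype I']

section Gen

variable {r : I → ℝ} {φ : I → S → S} {r' : I' → ℝ} {ψ : I' → S' → S'}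

lemma gen_eq (f : S → ℝ) : gen r φ f = fun s => Qop r φ f s + (-(tr r)) * f s := by
  funext s
  simp only [gen, Qop, tr, mul_sub, Finset.sum_sub_distrib]
  rw [← Finset.sum_mul]; ring

lemma GrF.gen {f : S → ℝ} (h : GrF r φ f) : GrF r φ (gen r φ f) := by
  rw [gen_eq]
  exact h.Qop.add (h.smul _)

lemma gen_add (f g : S → ℝ) (s : S) :
    gen r φ (fun s => f s + g s) s = gen r φ f s + gen r φ g s := by
  simp only [gen, ← Finset.sum_add_distrib]
  exact Finset.sum_congr rfl fun i _ => by ring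

lemma gen_sub (f g : S → ℝ) (s : S) :
    gen r φ (fun s => f s - g s) s = gen r φ f s - gen r φ g s := by
  simp only [gen, ← Finset.sum_sub_distrib]
  exact Finset.sum_congr rfl fun i _ => by ring

lemma gen_smul (c : ℝ) (f : S → ℝ) (s : S) :
    gen r φ (fun s => c * f s) s = c * gen r φ f s := by
  simp only [gen, Finset.mul_sum]
  exact Finset.sum_congr rfl fun i _ => by ring

lemma gen_const (c : ℝ) (s : S) : gen r φ (fun _ => c) s = 0 := by
  simp [gen]

lemma gen_sum {ι : Type*} (A : Finset ι) (f : ι → S → ℝ) (s : S) :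
    gen r φ (fun s => ∑ j ∈ A, f j s) s = ∑ j ∈ A, gen r φ (f j) s := by
  simp only [gen]
  rw [Finset.sum_comm]
  refine Finset.sum_congr rfl fun i _ => ?_
  rw [← Finset.sum_sub_distrib, Finset.mul_sum]

lemma gen_congr {Inv : S → Prop} (hI : ∀ i s, Inv s → Inv (φ i s)) {f g : S → ℝ}
    (h : ∀ s, Inv s → f s = g s) {s : S} (hs : Inv s) : gen r φ f s = gen r φ g s := by
  simp only [gen]
  exact Finset.sum_congr rfl fun i _ => by rw [h _ (hI i s hs), h s hs]

lemma continuous_sg {f : S → ℝ} (hf : GrF r φ f) (s : S) : Continuous fun t => sg r φ t f s :=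
  continuous_iff_continuousAt.2 fun t => (hasDerivAt_sg hf s t).continuousAt

/-- Dynkin's formula -/
lemma sg_dynkin {f : S → ℝ} (hf : GrF r φ f) (T : ℝ) (s : S) :
    sg r φ T f s = f s + ∫ t in (0 : ℝ)..T, sg r φ t (gen r φ f) s := by
  have h := intervalIntegral.integral_eq_sub_of_hasDerivAt (a := 0) (b := T)
    (f := fun t => sg r φ t f s) (f' := fun t => sg r φ t (gen r φ f) s)
    (fun t _ => hasDerivAt_sg hf s t)
    ((continuous_sg hf.gen s).intervalIntegrable _ _)
  rw [h, sg_zero]; ring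

/-- Gronwall's inequality for the semigroup on an arbitrary state space. -/
lemma sg_gronwall (hr : ∀ i, 0 ≤ r i) {Inv : S → Prop} (hI : ∀ i s, Inv s → Inv (φ i s))
    {f : S → ℝ} (hf : GrF r φ f) {c : ℝ} (hc : 0 ≤ c) (h : ∀ s, Inv s → gen r φ f s ≤ c * f s)
    {t : ℝ} (ht : 0 ≤ t) {s : S} (hs : Inv s) : sg r φ t f s ≤ Real.exp (c * t) * f s := by
  have hR := tr_nonneg hr
  have h1 : ∀ s, Inv s → Qop r φ f s ≤ (tr r + c) * f s := by
    intro s hs
    have := h s hs
    rw [gen_eq] at this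
    linarith
  have h2 : ∀ k, ∀ s, Inv s → ((Qop r φ)^[k] f) s ≤ (tr r + c) ^ k * f s := by
    intro k
    induction k with
    | zero => intro s _; simp
    | succ k ih =>
      intro s hs
      rw [Function.iterate_succ_apply']
      calc Qop r φ ((Qop r φ)^[k] f) s ≤ Qop r φ (fun s => (tr r + c) ^ k * f s) s :=
            Finset.sum_le_sum fun i _ => mul_le_mul_of_nonneg_left (ih _ (hI i s hs)) (hr i)
        _ = (tr r + c) ^ k * Qop r φ f s := by
            simp only [Qop, Finset.mul_sum]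
            exact Finset.sum_congr rfl fun i _ => by ring
        _ ≤ (tr r + c) ^ k * ((tr r + c) * f s) :=
            mul_le_mul_of_nonneg_left (h1 s hs) (pow_nonneg (by linarith) _)
        _ = (tr r + c) ^ (k + 1) * f s := by rw [pow_succ]; ring
  have hG : Gr fun k => (tr r + c) ^ k * f s := by
    refine ⟨|f s|, tr r + c, by linarith, fun k => ?_⟩
    rw [abs_mul, abs_of_nonneg (pow_nonneg (by linarith : 0 ≤ tr r + c) k), mul_comm]
  have h3 := es_mono (hf s) hG ht (fun k => h2 k s hs)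
  rw [sg_eq]
  have h4 : es (fun k => (tr r + c) ^ k * f s) t = Real.exp ((tr r + c) * t) * f s := by
    have : (fun k => (tr r + c) ^ k * f s) = fun k => f s * (tr r + c) ^ k := by
      funext k; ring
    rw [this, es_smul, es_geom]; ring
  rw [h4] at h3
  calc Real.exp (-(tr r) * t) * es (fun k => ((Qop r φ)^[k] f) s) t
      ≤ Real.exp (-(tr r) * t) * (Real.exp ((tr r + c) * t) * f s) :=
        mul_le_mul_of_nonneg_left h3 (Real.exp_pos _).le
    _ = Real.exp (c * t) * f s := by
        rw [← mul_assoc, ← Real.exp_add]; ring_nf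

/-- bounded functions are transported to bounded functions -/
lemma sg_abs_le (hr : ∀ i, 0 ≤ r i) {f : S → ℝ} {B : ℝ} (hB : ∀ s, |f s| ≤ B) {t : ℝ} (ht : 0 ≤ t)
    (s : S) : |sg r φ t f s| ≤ B := by
  have hf : GrF r φ f := Bd.grF hr ⟨B, hB⟩
  have hc : ∀ c : ℝ, GrF r φ (fun _ : S => c) := fun c => Bd.grF hr ⟨|c|, fun _ => le_rfl⟩
  rw [abs_le]
  constructor
  · have := sg_mono' hr (hc (-B)) hf (fun s => (abs_le.1 (hB s)).1) ht s
    rwa [sg_const] at this
  · have := sg_mono' hr hf (hc B) (fun s => (abs_le.1 (hB s)).2) ht s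
    rwa [sg_const] at this

/-- The same system with renamed transitions -/
lemma sg_reindex (σ : I ≃ I') {φ' : I' → S → S} (h : ∀ i, φ i = φ' (σ i)) (hr : ∀ i, r i = r' (σ i))
    (t : ℝ) (f : S → ℝ) (s : S) : sg r φ t f s = sg r' φ' t f s := by
  have h1 : tr r = tr r' := by
    unfold tr
    rw [← Equiv.sum_comp σ r']
    exact Finset.sum_congr rfl fun i _ => hr i
  have h2 : Qop r φ = Qop r' φ' := by
    funext f s
    unfold Qop
    rw [← Equiv.sum_comp σ (fun i => r' i * f (φ' i s))]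
    exact Finset.sum_congr rfl fun i _ => by rw [hr i, h i]
  unfold sg
  rw [h1, h2]

/-- Projection with the same transitions, arbitrary state spaces. -/
lemma sg_map {ψ : I → S' → S'} (pr : S → S') {Inv : S → Prop} (hI : ∀ i s, Inv s → Inv (φ i s))
    (h : ∀ i s, Inv s → pr (φ i s) = ψ i (pr s)) (t : ℝ) (f : S' → ℝ) {s : S} (hs : Inv s) :
    sg r φ t (fun s => f (pr s)) s = sg r ψ t f (pr s) := by
  rw [sg_eq, sg_eq]
  congr 2
  funext k
  induction k generalizing s with
  | zero => rfl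
  | succ k ih =>
    rw [Function.iterate_succ_apply', Function.iterate_succ_apply']
    simp only [Qop]
    exact Finset.sum_congr rfl fun i _ => by rw [ih (hI i s hs), h i s hs]

lemma Qop_sum {ι : Type*} (A : Finset ι) (c : ι → ℝ) (f : ι → S → ℝ) (k : ℕ) (s : S) :
    ((Qop r φ)^[k] (fun s => ∑ j ∈ A, c j * f j s)) s = ∑ j ∈ A, c j * ((Qop r φ)^[k] (f j)) s := by
  induction k generalizing s with
  | zero => rfl
  | succ k ih =>
    rw [Function.iterate_succ_apply']
    simp only [Qop, Function.iterate_succ_apply']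
    simp only [Finset.mul_sum]
    rw [Finset.sum_comm]
    refine Finset.sum_congr rfl fun i _ => ?_
    rw [ih (φ i s), Finset.mul_sum]
    exact Finset.sum_congr rfl fun j _ => by ring

/-- Duality with respect to a duality function `D`. -/
lemma sg_duality {ψ : I → S' → S'} (D : S → S' → ℝ) {Inv : S → Prop} {Inv' : S' → Prop}
    (hI : ∀ i s, Inv s → Inv (φ i s)) (hI' : ∀ i s, Inv' s → Inv' (ψ i s))
    (h : ∀ i s s', Inv s → Inv' s' → D (φ i s) s' = D s (ψ i s')) (t : ℝ) {s : S} {s' : S'}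
    (hs : Inv s) (hs' : Inv' s') :
    sg r φ t (fun s => D s s') s = sg r ψ t (fun s' => D s s') s' := by
  rw [sg_eq, sg_eq]
  congr 2
  funext k
  induction k generalizing s s' with
  | zero => rfl
  | succ k ih =>
    rw [Function.iterate_succ_apply', Function.iterate_succ_apply]
    have e1 : ∀ u, Inv' u → Qop r ψ (fun s' => D s s') u = ∑ i, r i * D (φ i s) u := by
      intro u hu
      simp only [Qop]
      exact Finset.sum_congr rfl fun i _ => by rw [h i s u hs hu]
    have e2 : ((Qop r ψ)^[k] (Qop r ψ (fun s' => D s s'))) s' =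
        ((Qop r ψ)^[k] (fun u => ∑ i, r i * D (φ i s) u)) s' := by
      have : ∀ k u, Inv' u → ((Qop r ψ)^[k] (Qop r ψ (fun s' => D s s'))) u =
          ((Qop r ψ)^[k] (fun u => ∑ i, r i * D (φ i s) u)) u := by
        intro k
        induction k with
        | zero => exact e1
        | succ k ih2 =>
          intro u hu
          rw [Function.iterate_succ_apply', Function.iterate_succ_apply']
          show (∑ i, r i * ((Qop r ψ)^[k] (Qop r ψ fun s' => D s s')) (ψ i u)) =
            ∑ i, r i * ((Qop r ψ)^[k] (fun u => ∑ i, r i * D (φ i s) u)) (ψ i u)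
          refine Finset.sum_congr rfl fun i _ => ?_
          rw [ih2 (ψ i u) (hI' i u hu)]
      exact this k s' hs'
    rw [e2, Qop_sum]
    simp only [Qop]
    refine Finset.sum_congr rfl fun i _ => ?_
    rw [ih (hI i s hs) hs']

end Gen

/-! ## Finite state spaces -/

section Fin

variable {r : I → ℝ} {φ : I → S → S} {r' : I' → ℝ} {ψ : I' → S' → S'}

lemma grF_of_finite [Finite S] (hr : ∀ i, 0 ≤ r i) (f : S → ℝ) : GrF r φ f :=
  (Bd.of_finite f).grF hr

section Pr

variable [Fintype S] [DecidableEq S]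

/-- transition probabilities -/
noncomputable def pr (r : I → ℝ) (φ : I → S → S) (t : ℝ) (s s' : S) : ℝ :=
  sg r φ t (fun u => if u = s' then 1 else 0) s

lemma sg_eq_sum (hr : ∀ i, 0 ≤ r i) (t : ℝ) (f : S → ℝ) (s : S) :
    sg r φ t f s = ∑ s', pr r φ t s s' * f s' := by
  have h1 : f = fun s => ∑ s', f s' * (if s = s' then 1 else 0) := by
    funext s
    simp
  conv_lhs => rw [h1]
  rw [sg_sum _ (fun j _ => grF_of_finite hr _)]
  refine Finset.sum_congr rfl fun s' _ => ?_
  rw [sg_smul, pr, mul_comm]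

lemma pr_nonneg (hr : ∀ i, 0 ≤ r i) {t : ℝ} (ht : 0 ≤ t) (s s' : S) : 0 ≤ pr r φ t s s' :=
  sg_nonneg hr (Inv := fun _ => True) (fun _ _ _ => trivial) (grF_of_finite hr _)
    (fun u _ => by split_ifs <;> norm_num) ht trivial

lemma pr_sum (hr : ∀ i, 0 ≤ r i) (t : ℝ) (s : S) : ∑ s', pr r φ t s s' = 1 := by
  have := sg_eq_sum (φ := φ) hr t (fun _ => 1) s
  rw [sg_const] at this
  simpa using this.symm

lemma pr_eq_zero (hr : ∀ i, 0 ≤ r i) {Inv : S → Prop} (hI : ∀ i s, Inv s → Inv (φ i s)) (t : ℝ)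
    {s s' : S} (hs : Inv s) (hs' : ¬ Inv s') : pr r φ t s s' = 0 := by
  have : pr r φ t s s' = sg r φ t (fun _ => 0) s := by
    refine sg_congr hr hI (fun u hu => ?_) t hs
    rw [if_neg]
    rintro rfl
    exact hs' hu
  rw [this, sg_const]

lemma hasDerivAt_pr (hr : ∀ i, 0 ≤ r i) (t : ℝ) (s s' : S) :
    HasDerivAt (fun t => pr r φ t s s') (sg r φ t (gen r φ (fun u => if u = s' then 1 else 0)) s) t :=
  hasDerivAt_sg (grF_of_finite hr _) s t

end Pr

/-- Comparison principle, upper bounds. -/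
theorem sg_le_of_super [Finite S] (hr : ∀ i, 0 ≤ r i) {Inv : S → Prop}
    (hI : ∀ i s, Inv s → Inv (φ i s)) {f : S → ℝ} {W W' : ℝ → S → ℝ} {T : ℝ} (hT : 0 ≤ T)
    (hd : ∀ t ∈ Set.Icc 0 T, ∀ s, Inv s → HasDerivAt (fun t => W t s) (W' t s) t)
    (hg : ∀ t ∈ Set.Icc 0 T, ∀ s, Inv s → gen r φ (W t) s ≤ W' t s)
    (h0 : ∀ s, Inv s → f s ≤ W 0 s) {s : S} (hs : Inv s) : sg r φ T f s ≤ W T s := by
  classical
  cases nonempty_fintype S
  set V : ℝ → S → ℝ := fun t s => if Inv s then W t s else 0 with hV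
  set V' : ℝ → S → ℝ := fun t s => if Inv s then W' t s else 0 with hV'
  have hVd : ∀ t ∈ Set.Icc 0 T, ∀ s, HasDerivAt (fun t => V t s) (V' t s) t := by
    intro t ht s
    by_cases h : Inv s
    · simp only [hV, hV', if_pos h]; exact hd t ht s h
    · simp only [hV, hV', if_neg h]; exact hasDerivAt_const _ _
  have hVg : ∀ t ∈ Set.Icc 0 T, ∀ s, Inv s → gen r φ (V t) s ≤ V' t s := by
    intro t ht s h
    have : gen r φ (V t) s = gen r φ (W t) s :=
      gen_congr hI (fun u hu => by simp only [hV, if_pos hu]) h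
    rw [this]
    simp only [hV', if_pos h]
    exact hg t ht s h
  set g : ℝ → ℝ := fun t => ∑ s', pr r φ (T - t) s s' * V t s' with hg_def
  have hder : ∀ t ∈ Set.Icc 0 T, HasDerivAt g (sg r φ (T - t) (fun u => V' t u - gen r φ (V t) u) s) t := by
    intro t ht
    have h1 : ∀ s' ∈ (Finset.univ : Finset S), HasDerivAt (fun t => pr r φ (T - t) s s' * V t s')
        (-(sg r φ (T - t) (gen r φ (fun u => if u = s' then 1 else 0)) s) * V t s' +
          pr r φ (T - t) s s' * V' t s') t := by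
      intro s' _
      have h2 : HasDerivAt (fun t => pr r φ (T - t) s s')
          (-(sg r φ (T - t) (gen r φ (fun u => if u = s' then 1 else 0)) s)) t := by
        have h3 := hasDerivAt_pr (φ := φ) hr (T - t) s s'
        have h4 : HasDerivAt (fun t : ℝ => T - t) (-1) t := by
          simpa using (hasDerivAt_id t).const_sub T
        have h5 := h3.comp t h4
        refine h5.congr_deriv ?_
        ring
      exact h2.mul (hVd t ht s')
    have h6 := HasDerivAt.fun_sum h1
    refine h6.congr_deriv ?_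
    rw [Finset.sum_add_distrib, sg_sub (grF_of_finite hr _) (grF_of_finite hr _)]
    rw [← sg_eq_sum hr]
    have h7 : gen r φ (V t) = fun u => ∑ s', V t s' * gen r φ (fun u => if u = s' then 1 else 0) u := by
      funext u
      have h8 : V t = fun s => ∑ s', V t s' * (if s = s' then 1 else 0) := by
        funext s; simp
      conv_lhs => rw [h8]
      rw [gen_sum]
      exact Finset.sum_congr rfl fun j _ => gen_smul _ _ _
    rw [h7, sg_sum _ (fun j _ => grF_of_finite hr _)]
    simp only [sg_smul]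
    have h9 : ∑ s', -(sg r φ (T - t) (gen r φ (fun u => if u = s' then 1 else 0)) s) * V t s' =
        -∑ s', V t s' * sg r φ (T - t) (gen r φ (fun u => if u = s' then 1 else 0)) s := by
      rw [← Finset.sum_neg_distrib]
      exact Finset.sum_congr rfl fun _ _ => by ring
    rw [h9]; ring
  have hmono : MonotoneOn g (Set.Icc 0 T) := by
    refine monotoneOn_of_deriv_nonneg (convex_Icc 0 T) (fun t ht => (hder t ht).continuousAt.continuousWithinAt)
      (fun t ht => (hder t (interior_subset ht)).differentiableAt.differentiableWithinAt) ?_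
    intro t ht
    have ht' := interior_subset ht
    rw [(hder t ht').deriv]
    refine sg_nonneg hr hI (grF_of_finite hr _) (fun u hu => ?_) (by have := ht'.2; linarith) hs
    have := hVg t ht' u hu
    linarith
  have h1 := hmono (Set.left_mem_Icc.2 hT) (Set.right_mem_Icc.2 hT) hT
  have e0 : g 0 = sg r φ T (V 0) s := by
    simp only [hg_def, sub_zero]
    rw [← sg_eq_sum hr]
  have eT : g T = W T s := by
    simp only [hg_def, sub_self]
    rw [← sg_eq_sum hr, sg_zero]
    simp only [hV, if_pos hs]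
  rw [e0, eT] at h1
  refine le_trans ?_ h1
  refine sg_mono hr hI (grF_of_finite hr _) (grF_of_finite hr _) (fun u hu => ?_) hT hs
  simp only [hV, if_pos hu]
  exact h0 u hu

/-- Comparison principle, lower bounds. -/
theorem le_sg_of_sub [Finite S] (hr : ∀ i, 0 ≤ r i) {Inv : S → Prop}
    (hI : ∀ i s, Inv s → Inv (φ i s)) {f : S → ℝ} {W W' : ℝ → S → ℝ} {T : ℝ} (hT : 0 ≤ T)
    (hd : ∀ t ∈ Set.Icc 0 T, ∀ s, Inv s → HasDerivAt (fun t => W t s) (W' t s) t)
    (hg : ∀ t ∈ Set.Icc 0 T, ∀ s, Inv s → W' t s ≤ gen r φ (W t) s)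
    (h0 : ∀ s, Inv s → W 0 s ≤ f s) {s : S} (hs : Inv s) : W T s ≤ sg r φ T f s := by
  have := sg_le_of_super hr hI (f := fun s => -f s) (W := fun t s => -W t s)
    (W' := fun t s => -W' t s) hT (fun t ht s h => (hd t ht s h).neg)
    (fun t ht s h => by
      have e : gen r φ (fun s => -W t s) s = -gen r φ (W t) s := by
        have := gen_smul (r := r) (φ := φ) (-1) (W t) s
        simpa using this
      rw [e]
      have := hg t ht s h
      linarith)
    (fun s h => by have := h0 s h; linarith) hs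
  rw [sg_neg] at this
  linarith

/-- Uniqueness for the backward equation. -/
theorem sg_eq_of_solution [Finite S] (hr : ∀ i, 0 ≤ r i) {Inv : S → Prop}
    (hI : ∀ i s, Inv s → Inv (φ i s)) {f : S → ℝ} {W W' : ℝ → S → ℝ} {T : ℝ} (hT : 0 ≤ T)
    (hd : ∀ t ∈ Set.Icc 0 T, ∀ s, Inv s → HasDerivAt (fun t => W t s) (W' t s) t)
    (hg : ∀ t ∈ Set.Icc 0 T, ∀ s, Inv s → gen r φ (W t) s = W' t s)
    (h0 : ∀ s, Inv s → f s = W 0 s) {s : S} (hs : Inv s) : sg r φ T f s = W T s :=
  le_antisymm
    (sg_le_of_super hr hI hT hd (fun t ht s h => (hg t ht s h).le) (fun s h => (h0 s h).le) hs)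
    (le_sg_of_sub hr hI hT hd (fun t ht s h => (hg t ht s h).ge) (fun s h => (h0 s h).ge) hs)

/-- Lumping at the level of generators. -/
theorem sg_lump [Finite S] [Finite S'] (hr : ∀ i, 0 ≤ r i) (hr' : ∀ i, 0 ≤ r' i) {Inv : S → Prop}
    (hI : ∀ i s, Inv s → Inv (φ i s)) (p : S → S')
    (h : ∀ (f : S' → ℝ) (s : S), Inv s → gen r φ (fun s => f (p s)) s = gen r' ψ f (p s))
    {T : ℝ} (hT : 0 ≤ T) (f : S' → ℝ) {s : S} (hs : Inv s) :
    sg r φ T (fun s => f (p s)) s = sg r' ψ T f (p s) := by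
  refine sg_eq_of_solution hr hI (W := fun t s => sg r' ψ t f (p s))
    (W' := fun t s => sg r' ψ t (gen r' ψ f) (p s)) hT
    (fun t _ s _ => hasDerivAt_sg (grF_of_finite hr' _) _ _) (fun t _ s hs => ?_)
    (fun s _ => by simp only [sg_zero]) hs
  rw [h _ s hs, gen_sg (grF_of_finite hr' _)]

/-- maps of the product system -/
def pmap (φ : I → S → S) (ψ : I' → S' → S') : I ⊕ I' → S × S' → S × S'
  | Sum.inl i, s => (φ i s.1, s.2)
  | Sum.inr j, s => (s.1, ψ j s.2)

/-- rates of the product system -/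
def prate (r : I → ℝ) (r' : I' → ℝ) : I ⊕ I' → ℝ := Sum.elim r r'

lemma prate_nonneg (hr : ∀ i, 0 ≤ r i) (hr' : ∀ i, 0 ≤ r' i) : ∀ i, 0 ≤ prate r r' i := by
  rintro (i | i)
  · exact hr i
  · exact hr' i

lemma gen_pmap (f : S × S' → ℝ) (s : S × S') :
    gen (prate r r') (pmap φ ψ) f s =
      gen r φ (fun u => f (u, s.2)) s.1 + gen r' ψ (fun v => f (s.1, v)) s.2 := by
  simp only [gen, Fintype.sum_sum_type, prate, Sum.elim_inl, Sum.elim_inr, pmap]

/-- independence of the two coordinates of a product system -/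
theorem sg_pmap [Finite S] [Finite S'] (hr : ∀ i, 0 ≤ r i) (hr' : ∀ i, 0 ≤ r' i) {T : ℝ}
    (hT : 0 ≤ T) (f : S → ℝ) (g : S' → ℝ) (s : S) (s' : S') :
    sg (prate r r') (pmap φ ψ) T (fun u => f u.1 * g u.2) (s, s') =
      sg r φ T f s * sg r' ψ T g s' := by
  refine sg_eq_of_solution (f := fun u : S × S' => f u.1 * g u.2) (prate_nonneg hr hr')
    (Inv := fun _ => True) (fun _ _ _ => trivial)
    (W := fun t u => sg r φ t f u.1 * sg r' ψ t g u.2)
    (W' := fun t u => sg r φ t (gen r φ f) u.1 * sg r' ψ t g u.2 +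
      sg r φ t f u.1 * sg r' ψ t (gen r' ψ g) u.2) hT
    (fun t _ u _ => (hasDerivAt_sg (grF_of_finite hr _) _ _).mul
      (hasDerivAt_sg (grF_of_finite hr' _) _ _))
    (fun t _ u _ => ?_) (fun u _ => by simp only [sg_zero]) (s := (s, s')) trivial
  rw [gen_pmap]
  simp only
  have e1 : gen r φ (fun v => sg r φ t f v * sg r' ψ t g u.2) u.1 =
      sg r φ t (gen r φ f) u.1 * sg r' ψ t g u.2 := by
    have := gen_smul (r := r) (φ := φ) (sg r' ψ t g u.2) (sg r φ t f) u.1
    rw [gen_sg (grF_of_finite hr _)] at this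
    rw [mul_comm, ← this]
    congr 1
    funext v; ring
  have e2 : gen r' ψ (fun v => sg r φ t f u.1 * sg r' ψ t g v) u.2 =
      sg r φ t f u.1 * sg r' ψ t (gen r' ψ g) u.2 := by
    have := gen_smul (r := r') (φ := ψ) (sg r φ t f u.1) (sg r' ψ t g) u.2
    rw [gen_sg (grF_of_finite hr' _)] at this
    exact this
  rw [e1, e2]

/-- Cauchy-Schwarz -/
theorem sg_cs [Finite S] (hr : ∀ i, 0 ≤ r i) {t : ℝ} (ht : 0 ≤ t) (f g : S → ℝ) (s : S) :
    (sg r φ t (fun s => f s * g s) s) ^ 2 ≤
      sg r φ t (fun s => f s ^ 2) s * sg r φ t (fun s => g s ^ 2) s := by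
  classical
  cases nonempty_fintype S
  rw [sg_eq_sum hr, sg_eq_sum hr, sg_eq_sum hr]
  have h := Finset.sum_sq_le_sum_mul_sum_of_sq_le_mul (Finset.univ : Finset S)
    (r := fun s' => pr r φ t s s' * (f s' * g s')) (f := fun s' => pr r φ t s s' * f s' ^ 2)
    (g := fun s' => pr r φ t s s' * g s' ^ 2)
    (fun i _ => mul_nonneg (pr_nonneg hr ht _ _) (sq_nonneg _))
    (fun i _ => mul_nonneg (pr_nonneg hr ht _ _) (sq_nonneg _)) (fun i _ => le_of_eq (by ring))
  exact h

/-- Jensen's inequality for concave functions -/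
theorem sg_concave [Finite S] (hr : ∀ i, 0 ≤ r i) {Inv : S → Prop}
    (hI : ∀ i s, Inv s → Inv (φ i s)) {D : Set ℝ} {F : ℝ → ℝ} (hF : ConcaveOn ℝ D F)
    {f : S → ℝ} (hf : ∀ s, Inv s → f s ∈ D) {t : ℝ} (ht : 0 ≤ t) {s : S} (hs : Inv s) :
    sg r φ t (fun s => F (f s)) s ≤ F (sg r φ t f s) := by
  classical
  cases nonempty_fintype S
  rw [sg_eq_sum hr, sg_eq_sum hr]
  have h1 : ∀ g : S → ℝ, ∑ s', pr r φ t s s' * g s' =
      ∑ s' ∈ Finset.univ.filter Inv, pr r φ t s s' * g s' := by
    intro g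
    rw [Finset.sum_filter]
    refine Finset.sum_congr rfl fun s' _ => ?_
    split_ifs with h
    · rfl
    · rw [pr_eq_zero hr hI t hs h, zero_mul]
  have h2 : ∑ s' ∈ Finset.univ.filter Inv, pr r φ t s s' = 1 := by
    have := h1 (fun _ => 1)
    simp only [mul_one] at this
    rw [← this, pr_sum hr]
  rw [h1, h1]
  have := hF.le_map_sum (t := Finset.univ.filter Inv) (w := fun s' => pr r φ t s s') (p := f)
    (fun i _ => pr_nonneg hr ht _ _) h2 (fun i hi => hf i (Finset.mem_filter.1 hi).2)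
  simpa [smul_eq_mul] using this

end Fin

end Pool.Agent.CAS
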