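import Pool.Agent.CAS.Basic

/-!
# Small sets die quickly (job SMALL)
-/

open Finset Filter Topology MeasureTheory
open scoped BigOperators

namespace Pool.Agent.CAS

namespace SMALL

/-- an exit arrow exists -/
lemma exists_exit {d L M : ℕ} (hd : 1 ≤ d) (hML : M < L) {A : Finset (V d L)} (hA : A.Nonempty)
    (hAM : A.card ≤ M) (h0 : (0 : V d L) ∉ A) :
    ∃ x ∈ A, ∃ e : Dir d, x + dv e ∉ A ∪ {0} := by
  classical
  by_contra hcon
  push Not at hcon
  obtain ⟨a, ha⟩ := hA
  set i0 : Fin d := ⟨0, hd⟩ with hi0
  set ℓ : ZMod (L + 1) → V d L := fun c => Function.update a i0 c with hℓ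
  have hinj : Function.Injective ℓ := by
    intro c c' h
    have := congrFun h i0
    simpa [hℓ] using this
  set T : Finset (ZMod (L + 1)) := Finset.univ.filter fun c => ℓ c ∈ A with hT
  have hTmem : ∀ c, c ∈ T ↔ ℓ c ∈ A := by intro c; simp [hT]
  have hℓ0 : ∀ c, ℓ c = 0 → c = 0 := by
    intro c h
    have := congrFun h i0
    simpa [hℓ] using this
  have hadd : ∀ c b : ZMod (L + 1), ℓ c + Pi.single i0 b = ℓ (c + b) := by
    intro c b
    funext i
    by_cases h : i = i0
    · subst h; simp [hℓ]
    · simp [hℓ, h]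
  have hup : ∀ c ∈ T, c + 1 ≠ 0 → c + 1 ∈ T := by
    intro c hc hne
    have h1 := hcon (ℓ c) ((hTmem c).1 hc) (i0, true)
    simp only [dv, if_true] at h1
    rw [hadd] at h1
    rcases Finset.mem_union.1 h1 with h2 | h2
    · exact (hTmem _).2 h2
    · exact absurd (hℓ0 _ (Finset.mem_singleton.1 h2)) hne
  have hdown : ∀ c ∈ T, c + -1 ≠ 0 → c + -1 ∈ T := by
    intro c hc hne
    have h1 := hcon (ℓ c) ((hTmem c).1 hc) (i0, false)
    simp only [dv, Bool.false_eq_true, if_false] at h1
    rw [hadd] at h1
    rcases Finset.mem_union.1 h1 with h2 | h2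
    · exact (hTmem _).2 h2
    · exact absurd (hℓ0 _ (Finset.mem_singleton.1 h2)) hne
  have hcast : ∀ n : ℕ, 1 ≤ n → n ≤ L → ((n : ℕ) : ZMod (L + 1)) ≠ 0 := by
    intro n h1 h2 h
    rw [ZMod.natCast_eq_zero_iff] at h
    have := Nat.le_of_dvd (by omega) h
    omega
  have hL1 : 1 ≤ L := by omega
  -- a starting point
  obtain ⟨v, hv1, hv2, hv3⟩ : ∃ v : ℕ, 1 ≤ v ∧ v ≤ L ∧ ((v : ℕ) : ZMod (L + 1)) ∈ T := by
    have hc0 : a i0 ∈ T := by
      rw [hTmem]
      have : ℓ (a i0) = a := by simp [hℓ]
      rw [this]; exact ha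
    by_cases h : a i0 = 0
    · refine ⟨1, le_rfl, hL1, ?_⟩
      rw [h] at hc0
      have := hup 0 hc0 (by
        have := hcast 1 le_rfl hL1
        simpa using this)
      simpa using this
    · refine ⟨(a i0).val, ?_, ?_, ?_⟩
      · have : (a i0).val ≠ 0 := fun h' => h ((ZMod.val_eq_zero _).1 h')
        omega
      · have := ZMod.val_lt (a i0)
        omega
      · rw [ZMod.natCast_zmod_val]; exact hc0
  have hU : ∀ n : ℕ, v + n ≤ L → ((v + n : ℕ) : ZMod (L + 1)) ∈ T := by
    intro n
    induction n with
    | zero => intro _; simpa using hv3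
    | succ n ih =>
      intro hn
      have h1 := ih (by omega)
      have h2 := hup _ h1 (by
        have := hcast (v + n + 1) (by omega) (by omega)
        push_cast at this ⊢
        exact this)
      rw [← add_assoc]
      push_cast at h2 ⊢
      exact h2
  have hD : ∀ n : ℕ, n < v → ((v - n : ℕ) : ZMod (L + 1)) ∈ T := by
    intro n
    induction n with
    | zero => intro _; simpa using hv3
    | succ n ih =>
      intro hn
      have h1 := ih (by omega)
      have e1 : ((v - n : ℕ) : ZMod (L + 1)) + -1 = ((v - (n + 1) : ℕ) : ZMod (L + 1)) := by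
        have : v - n = (v - (n + 1)) + 1 := by omega
        rw [this]; push_cast; ring
      have h2 := hdown _ h1 (by
        rw [e1]
        exact hcast _ (by omega) (by omega))
      rwa [e1] at h2
  have hall : ∀ n ∈ Finset.Icc 1 L, ((n : ℕ) : ZMod (L + 1)) ∈ T := by
    intro n hn
    rw [Finset.mem_Icc] at hn
    rcases le_total v n with h | h
    · have := hU (n - v) (by omega)
      rwa [show v + (n - v) = n by omega] at this
    · have := hD (v - n) (by omega)
      rwa [show v - (v - n) = n by omega] at this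
  have hcard : L ≤ T.card := by
    have h1 : ((Finset.Icc 1 L).image fun n : ℕ => (n : ZMod (L + 1))).card = L := by
      rw [Finset.card_image_of_injOn]
      · simp
      · intro n hn m hm h
        rw [Finset.mem_coe, Finset.mem_Icc] at hn hm
        have h' : (n : ZMod (L + 1)) = (m : ZMod (L + 1)) := h
        rw [ZMod.natCast_eq_natCast_iff'] at h'
        rwa [Nat.mod_eq_of_lt (by omega), Nat.mod_eq_of_lt (by omega)] at h'
    refine h1.symm.le.trans (Finset.card_le_card fun c hc => ?_)
    obtain ⟨n, hn, rfl⟩ := Finset.mem_image.1 hc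
    exact hall n hn
  have hTA : T.card ≤ A.card := by
    refine Finset.card_le_card_of_injOn ℓ (fun c hc => (hTmem c).1 hc) (hinj.injOn)
  omega

/-- the number of the arrows that change the state -/
lemma card_flip {d L M : ℕ} {A : Finset (V d L)} (hAM : A.card ≤ M) :
    (((Finset.univ.filter fun a : Ar d L => zup {0} a A ≠ A).card : ℕ) : ℝ) ≤
      2 * d * (2 * M + 1) := by
  classical
  have h1 : (Finset.univ.filter fun a : Ar d L => zup {0} a A ≠ A) ⊆
      (A ×ˢ (Finset.univ : Finset (Dir d))) ∪
      (((A ∪ {0}) ×ˢ (Finset.univ : Finset (Dir d))).image fun p => (p.1 - dv p.2, p.2)) := by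
    rintro ⟨x, e⟩ ha
    rw [Finset.mem_filter] at ha
    rw [Finset.mem_union]
    by_contra hcon
    push Not at hcon
    obtain ⟨h2, h3⟩ := hcon
    apply ha.2
    have hx : x ∉ A := fun h => h2 (Finset.mem_product.2 ⟨h, Finset.mem_univ _⟩)
    have hy : x + dv e ∉ A ∪ {0} := fun h => h3 (Finset.mem_image.2
      ⟨(x + dv e, e), Finset.mem_product.2 ⟨h, Finset.mem_univ _⟩, by simp⟩)
    by_cases hx0 : x ∈ ({0} : Finset (V d L))
    · exact zup_of_mem hx0
    · rw [zup_of_not hx0 hy, Finset.erase_eq_of_notMem hx]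
  have h2 := (Finset.card_le_card h1).trans (Finset.card_union_le _ _)
  have h3 : (((A ∪ {0}) ×ˢ (Finset.univ : Finset (Dir d))).image
      fun p => ((p.1 - dv p.2, p.2) : Ar d L)).card ≤ (M + 1) * (2 * d) := by
    refine Finset.card_image_le.trans ?_
    rw [Finset.card_product, Finset.card_univ, Fintype.card_prod, Fintype.card_fin,
      Fintype.card_bool]
    have h4 : (A ∪ {0} : Finset (V d L)).card ≤ M + 1 := by
      refine (Finset.card_union_le _ _).trans ?_
      rw [Finset.card_singleton]; omega
    calc _ ≤ (M + 1) * (d * 2) := Nat.mul_le_mul_right _ h4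
      _ = _ := by ring
  have h5 : (A ×ˢ (Finset.univ : Finset (Dir d))).card ≤ M * (2 * d) := by
    rw [Finset.card_product, Finset.card_univ, Fintype.card_prod, Fintype.card_fin,
      Fintype.card_bool]
    calc _ ≤ M * (d * 2) := Nat.mul_le_mul_right _ hAM
      _ = _ := by ring
  have h6 : (Finset.univ.filter fun a : Ar d L => zup {0} a A ≠ A).card ≤
      M * (2 * d) + (M + 1) * (2 * d) := h2.trans (add_le_add h5 h3)
  have h7 : (((Finset.univ.filter fun a : Ar d L => zup {0} a A ≠ A).card : ℕ) : ℝ) ≤
      ((M * (2 * d) + (M + 1) * (2 * d) : ℕ) : ℝ) := by exact_mod_cast h6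
  refine h7.trans (le_of_eq ?_)
  push_cast; ring

/-- lower bound of the generator for a nonnegative function of the state -/
lemma gen_ge {d L M : ℕ} (hd : 1 ≤ d) {A : Finset (V d L)} (hAM : A.card ≤ M)
    {W : Finset (V d L) → ℝ} (hW : ∀ B, 0 ≤ W B) :
    -(2 * M + 1) * W A ≤ gen (fun _ : Ar d L => ra d) (zup {0}) W A ∧
    ∀ x ∈ A, ∀ e : Dir d, (0 : V d L) ∉ A → x + dv e ∉ A ∪ {0} →
      ra d * W (A.erase x) - (2 * M + 1) * W A ≤
        gen (fun _ : Ar d L => ra d) (zup {0}) W A := by
  classical
  have hd0 : (0 : ℝ) < d := by exact_mod_cast hd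
  set B : Finset (Ar d L) := Finset.univ.filter fun a : Ar d L => zup {0} a A ≠ A with hB
  have h1 : gen (fun _ : Ar d L => ra d) (zup {0}) W A =
      ∑ a ∈ B, ra d * W (zup {0} a A) - ra d * B.card * W A := by
    unfold gen
    rw [← Finset.sum_subset (Finset.subset_univ B)]
    · simp only [mul_sub]
      rw [Finset.sum_sub_distrib, Finset.sum_const, nsmul_eq_mul]
      ring
    · intro a _ ha
      have : zup {0} a A = A := by
        by_contra h
        exact ha (Finset.mem_filter.2 ⟨Finset.mem_univ _, h⟩)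
      rw [this]; simp
  have h2 : ra d * B.card * W A ≤ (2 * M + 1) * W A := by
    refine mul_le_mul_of_nonneg_right ?_ (hW A)
    calc ra d * B.card ≤ ra d * (2 * d * (2 * M + 1)) :=
          mul_le_mul_of_nonneg_left (card_flip hAM) (ra_nonneg d)
      _ = 2 * M + 1 := by unfold ra; field_simp
  have h3 : ∀ a ∈ B, 0 ≤ ra d * W (zup {0} a A) := fun a _ => mul_nonneg (ra_nonneg d) (hW _)
  constructor
  · have := Finset.sum_nonneg h3
    rw [h1]; linarith
  · intro x hx e h0 hex
    have hx0 : x ∉ ({0} : Finset (V d L)) := by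
      intro h
      rw [Finset.mem_singleton] at h
      exact h0 (h ▸ hx)
    have e1 : zup {0} (x, e) A = A.erase x := zup_of_not hx0 hex
    have hmem : ((x, e) : Ar d L) ∈ B := by
      refine Finset.mem_filter.2 ⟨Finset.mem_univ _, ?_⟩
      rw [e1]
      intro h
      have := Finset.notMem_erase x A
      rw [h] at this
      exact this hx
    have h4 := Finset.single_le_sum h3 hmem
    rw [e1] at h4
    rw [h1]; linarith

/-- the subsolution -/
noncomputable def aa (r R : ℝ) (k : ℕ) (t : ℝ) : ℝ :=
  (t * r) ^ k / (k.factorial : ℝ) * Real.exp (-R * t)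

lemma aa_nonneg {r R : ℝ} (hr : 0 ≤ r) (k : ℕ) {t : ℝ} (ht : 0 ≤ t) : 0 ≤ aa r R k t := by
  unfold aa; positivity

lemma hasDerivAt_aa_zero (r R t : ℝ) : HasDerivAt (aa r R 0) (-R * aa r R 0 t) t := by
  have h1 : HasDerivAt (fun t : ℝ => Real.exp (-R * t)) (-R * Real.exp (-R * t)) t := by
    have := ((hasDerivAt_id t).const_mul (-R)).exp
    simpa [mul_comm] using this
  have e : aa r R 0 = fun t => Real.exp (-R * t) := by
    funext t; simp [aa]
  rw [e]
  exact h1

lemma hasDerivAt_aa_succ (r R : ℝ) (k : ℕ) (t : ℝ) :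
    HasDerivAt (aa r R (k + 1)) (r * aa r R k t - R * aa r R (k + 1) t) t := by
  have h1 : HasDerivAt (fun t : ℝ => Real.exp (-R * t)) (-R * Real.exp (-R * t)) t := by
    have := ((hasDerivAt_id t).const_mul (-R)).exp
    simpa [mul_comm] using this
  have h2 : HasDerivAt (fun t : ℝ => (t * r) ^ (k + 1) / ((k + 1).factorial : ℝ))
      (r * ((t * r) ^ k / (k.factorial : ℝ))) t := by
    have h3 := (((hasDerivAt_id t).mul_const r).pow (k + 1)).div_const ((k + 1).factorial : ℝ)
    refine h3.congr_deriv ?_
    rw [Nat.factorial_succ]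
    push_cast
    simp only [id, one_mul]
    field_simp
  have h4 := h2.mul h1
  refine h4.congr_deriv ?_
  unfold aa
  ring

end SMALL

open SMALL in
theorem t_SMALL : T_SMALL := by
  intro d M hd
  have hra0 : 0 < ra d := by
    unfold ra
    have : (0 : ℝ) < d := by exact_mod_cast hd
    positivity
  have hra1 : ra d ≤ 1 := by
    unfold ra
    have : (1 : ℝ) ≤ d := by exact_mod_cast hd
    rw [div_le_one (by linarith)]
    linarith
  set R : ℝ := 2 * M + 1 with hR
  refine ⟨ra d ^ M / (M.factorial : ℝ) * Real.exp (-R), by positivity, ?_⟩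
  intro L hML A hAM hA0
  set W : ℝ → Finset (V d L) → ℝ := fun t B => if B.card ≤ M then aa (ra d) R B.card t else 0
    with hW
  set W' : ℝ → Finset (V d L) → ℝ := fun t B => if B.card ≤ M then
    (if B.card = 0 then -R * aa (ra d) R 0 t else
      ra d * aa (ra d) R (B.card - 1) t - R * aa (ra d) R B.card t) else 0 with hW'
  have key := le_sg_of_sub (r := fun _ : Ar d L => ra d) (φ := zup {0})
    (fun _ => ra_nonneg d) (Inv := fun B => (0 : V d L) ∉ B)
    (fun a B hB => by
      have := zup_disj (Z := {0}) (a := a) (A := B) (by simpa using hB)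
      simpa using this)
    (f := fun B => if B = ∅ then 1 else 0) (W := W) (W' := W') (T := 1) zero_le_one
    (fun t _ B _ => ?_) (fun t ht B hB => ?_) (fun B _ => ?_) (s := A) hA0
  · refine le_trans ?_ key
    simp only [hW]
    rw [if_pos hAM]
    unfold aa
    rw [one_mul, mul_one]
    refine mul_le_mul_of_nonneg_right ?_ (Real.exp_pos _).le
    have h1 : ra d ^ M ≤ ra d ^ A.card := pow_le_pow_of_le_one hra0.le hra1 hAM
    have h2 : ((A.card).factorial : ℝ) ≤ (M.factorial : ℝ) := by
      exact_mod_cast Nat.factorial_le hAM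
    exact div_le_div₀ (by positivity) h1 (by positivity) h2
  · simp only [hW, hW']
    by_cases h : B.card ≤ M
    · simp only [if_pos h]
      rcases Nat.eq_zero_or_pos B.card with h0 | h0
      · rw [if_pos h0, h0]
        exact hasDerivAt_aa_zero _ _ _
      · rw [if_neg (by omega)]
        obtain ⟨k, hk⟩ : ∃ k, B.card = k + 1 := ⟨B.card - 1, by omega⟩
        rw [hk, Nat.add_sub_cancel]
        exact hasDerivAt_aa_succ _ _ _ _
    · simp only [if_neg h]
      exact hasDerivAt_const _ _
  · have hWn : ∀ B, 0 ≤ W t B := by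
      intro B
      simp only [hW]
      split_ifs
      · exact aa_nonneg hra0.le _ ht.1
      · exact le_rfl
    by_cases h : B.card ≤ M
    · have hg := gen_ge hd h hWn
      have eW : W t B = aa (ra d) R B.card t := by simp only [hW, if_pos h]
      rcases Nat.eq_zero_or_pos B.card with h0 | h0
      · have eW' : W' t B = -R * aa (ra d) R 0 t := by simp only [hW', if_pos h, if_pos h0]
        rw [eW']
        have := hg.1
        rw [eW, h0] at this
        exact this
      · have eW' : W' t B = ra d * aa (ra d) R (B.card - 1) t - R * aa (ra d) R B.card t := by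
          simp only [hW', if_pos h]
          rw [if_neg (by omega)]
        obtain ⟨x, hx, e, he⟩ := exists_exit hd hML (Finset.card_pos.1 h0) h hB
        have h2 := hg.2 x hx e hB he
        have e3 : (B.erase x).card = B.card - 1 := Finset.card_erase_of_mem hx
        have eW2 : W t (B.erase x) = aa (ra d) R (B.card - 1) t := by
          simp only [hW]
          rw [if_pos (by omega), e3]
        rw [eW, eW2] at h2
        rw [eW']
        exact h2
    · have eW' : W' t B = 0 := by simp only [hW', if_neg h]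
      have eW : W t B = 0 := by simp only [hW, if_neg h]
      rw [eW']
      unfold gen
      refine Finset.sum_nonneg fun a _ => mul_nonneg (ra_nonneg d) ?_
      rw [eW, sub_zero]
      exact hWn _
  · simp only [hW]
    by_cases h : B = ∅
    · subst h; simp [aa]
    · rw [if_neg h]
      have h1 : 0 < B.card := Finset.card_pos.2 (Finset.nonempty_iff_ne_empty.2 h)
      split_ifs
      · unfold aa
        rw [zero_mul, zero_pow (by omega)]; simp
      · exact le_rfl

end Pool.Agent.CAS
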