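import Pool.Agent.CAS.Basic

/-!
# Simple facts on `th`, `nu`, `sm`
-/

open Finset Filter Topology MeasureTheory
open scoped BigOperators

namespace Pool.Agent.CAS

namespace TH0_

variable {S I : Type*} [Fintype I] {r : I → ℝ} {φ : I → S → S}

/-- functions with values in `[0, 1]` -/
lemma sg_unit [Finite S] (hr : ∀ i, 0 ≤ r i) {f : S → ℝ} (h0 : ∀ s, 0 ≤ f s)
    (h1 : ∀ s, f s ≤ 1) {t : ℝ} (ht : 0 ≤ t) (s : S) : 0 ≤ sg r φ t f s ∧ sg r φ t f s ≤ 1 := by
  constructor
  · exact sg_nonneg hr (Inv := fun _ => True) (fun _ _ _ => trivial) (grF_of_finite hr f)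
      (fun s _ => h0 s) ht trivial
  · have := sg_mono' (φ := φ) hr (grF_of_finite hr f) (grF_of_finite hr fun _ => 1) h1 ht s
    rwa [sg_const] at this

lemma ind_unit (p : Prop) [Decidable p] : (0 : ℝ) ≤ (if p then (1 : ℝ) else 0) ∧
    (if p then (1 : ℝ) else 0) ≤ 1 := by
  split_ifs <;> norm_num

lemma ind_unit' (p : Prop) [Decidable p] : (0 : ℝ) ≤ (if p then (0 : ℝ) else 1) ∧
    (if p then (0 : ℝ) else 1) ≤ 1 := by
  split_ifs <;> norm_num

variable {d L : ℕ}

lemma dead_super {ε : ℝ} (h0 : 0 ≤ ε) (h1 : ε ≤ 1) (o : V d L) {u : ℝ} (hu : 0 ≤ u)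
    (s : FS d L) : fsg ε u (fun s : FS d L => if o ∈ s.dead then 0 else 1) s ≤
      (if o ∈ s.dead then 0 else 1) := by
  have hr : ∀ a, 0 ≤ rc d L ε a := rc_nonneg h0 h1
  split_ifs with h
  · have h2 : fsg ε u (fun s : FS d L => if o ∈ s.dead then (0 : ℝ) else 1) s =
        fsg ε u (fun _ : FS d L => (0 : ℝ)) s := by
      unfold fsg
      refine sg_congr hr (Inv := fun s => o ∈ s.dead) (fun a s hs => fup_dead_mono a s hs)
        (fun s hs => if_pos hs) u h
    rw [h2]
    unfold fsg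
    rw [sg_const]
  · unfold fsg
    exact (sg_unit hr (fun s => (ind_unit' _).1) (fun s => (ind_unit' _).2) hu s).2

end TH0_

open TH0_ in
theorem t_TH0 (_h1 : T_TR) (h2 : T_DUAL) : T_TH0 := by
  classical
  intro d L ε hd he0 he1
  have hr : ∀ a, 0 ≤ rc d L ε a := rc_nonneg he0 he1
  have hr' : ∀ _a : Ar d L, 0 ≤ ra d := fun _ => ra_nonneg d
  refine ⟨?_, ?_, ?_, ?_, ?_, ?_⟩
  · intro s t hs hst
    have e1 : t = s + (t - s) := by ring
    unfold th fsg
    conv_lhs => rw [e1]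
    rw [sg_sg (grF_of_finite hr _)]
    refine sg_mono' hr (grF_of_finite hr _) (grF_of_finite hr _) ?_ hs _
    intro s'
    exact dead_super he0 he1 0 (by linarith) s'
  · intro t ht
    exact sg_unit hr (fun s => (ind_unit' _).1) (fun s => (ind_unit' _).2) ht _
  · intro κ t ht
    exact sg_unit hr (fun s => (ind_unit _).1) (fun s => (ind_unit _).2) ht _
  · intro κ t ht
    exact sg_unit hr' (fun s => (ind_unit _).1) (fun s => (ind_unit _).2) ht _
  · intro t x y ht
    exact sg_unit hr (fun s => (ind_unit _).1) (fun s => (ind_unit _).2) ht _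
  · intro t κ κ' θ ht hθ hκ
    have hc : 0 < (θ * κ' - κ) ^ 2 := by
      have : 0 < θ * κ' - κ := by linarith
      positivity
    have e1 : sm d L κ' t = fsg ε t (fun s : FS d L => (fun k : ℝ =>
        if k ≠ 0 ∧ k < κ' then (1 : ℝ) else 0) (s.ct 0)) (FS.init d L) := by
      rw [(h2 d L ε t hd he0 he1 ht).2.2 (fun k : ℝ => if k ≠ 0 ∧ k < κ' then (1 : ℝ) else 0) 0]
      unfold sm
      congr 1
      funext A
      have : (A ≠ ∅) ↔ ((A.card : ℝ) ≠ 0) := by
        rw [Ne, Ne, Nat.cast_eq_zero, Finset.card_eq_zero]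
      simp only [this]
    have e2 : fsg ε t (fun s : FS d L => s.dis θ 0 ^ 2) (FS.init d L) / (θ * κ' - κ) ^ 2 =
        fsg ε t (fun s : FS d L => ((θ * κ' - κ) ^ 2)⁻¹ * s.dis θ 0 ^ 2) (FS.init d L) := by
      unfold fsg
      rw [sg_smul, div_eq_inv_mul]
    rw [e1, e2]
    unfold fsg nu fsg
    rw [← sg_add (grF_of_finite hr _) (grF_of_finite hr _)]
    refine sg_mono' hr (grF_of_finite hr _) (grF_of_finite hr _) ?_ ht _
    intro s
    simp only
    have hd0 : 0 ≤ ((θ * κ' - κ) ^ 2)⁻¹ * s.dis θ 0 ^ 2 := by positivity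
    by_cases hP : (∃ z, s.pos z = 0) ∧ s.al 0 < κ
    · rw [if_pos hP]
      by_cases hct : s.ct 0 < κ'
      · have hne : s.ct 0 ≠ 0 := by
          obtain ⟨z, hz⟩ := hP.1
          unfold FS.ct
          rw [Ne, Nat.cast_eq_zero, Finset.card_eq_zero]
          intro h
          have : z ∈ (Finset.univ.filter fun z => s.pos z = 0) := by simp [hz]
          rw [h] at this
          exact absurd this (Finset.notMem_empty z)
        rw [if_pos ⟨hne, hct⟩]
        linarith
      · have h3 : θ * κ' - κ ≤ -(s.dis θ 0) := by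
          unfold FS.dis
          have : θ * κ' ≤ θ * s.ct 0 := mul_le_mul_of_nonneg_left (not_lt.1 hct) hθ
          linarith [hP.2]
        have h4 : (θ * κ' - κ) ^ 2 ≤ s.dis θ 0 ^ 2 := by
          have h5 : 0 < θ * κ' - κ := by linarith
          nlinarith
        have h6 : 1 ≤ ((θ * κ' - κ) ^ 2)⁻¹ * s.dis θ 0 ^ 2 := by
          rw [inv_mul_eq_div, le_div_iff₀ hc, one_mul]
          exact h4
        have := (ind_unit (s.ct 0 ≠ 0 ∧ s.ct 0 < κ')).1
        linarith
    · rw [if_neg hP]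
      have := (ind_unit (s.ct 0 ≠ 0 ∧ s.ct 0 < κ')).1
      linarith

end Pool.Agent.CAS
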