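import Pool.Agent.CAS.Basic

open Finset Filter Topology MeasureTheory
open scoped BigOperators

namespace Pool.Agent.CAS

set_option linter.unusedSectionVars false

namespace TR_

variable {d L : ℕ}

lemma mem_image_add (B : Finset (V d L)) (u v : V d L) : u ∈ B.image (· + v) ↔ u - v ∈ B := by
  constructor
  · intro h
    obtain ⟨b, hb, rfl⟩ := Finset.mem_image.1 h
    simpa using hb
  · intro h
    exact Finset.mem_image.2 ⟨u - v, h, by simp⟩

lemma shift_oth (s : FS d L) (v x y : V d L) :
    (s.shift v).oth (x + v) (y + v) ↔ s.oth x y := by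
  unfold FS.oth FS.shift
  simp only
  constructor
  · rintro ⟨z, h1, h2⟩
    refine ⟨z - v, fun h => h1 ?_, add_right_cancel h2⟩
    rw [← h]; abel
  · rintro ⟨z, h1, h2⟩
    refine ⟨z + v, fun h => h1 (add_right_cancel h), ?_⟩
    rw [add_sub_cancel_right, h2]

lemma shift_ext {s t : FS d L} (h1 : s.pos = t.pos) (h2 : s.vis = t.vis) (h3 : s.dead = t.dead) :
    s = t := by
  rcases s with ⟨a, b, c⟩
  rcases t with ⟨a', b', c'⟩
  simp only at h1 h2 h3
  subst h1; subst h2; subst h3; rfl

lemma fup_shift (a : Ar d L × Bool) (s : FS d L) (v : V d L) :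
    (fup a s).shift v = fup ((a.1.1 + v, a.1.2), a.2) (s.shift v) := by
  have hy : a.1.1 + v + dv a.1.2 = a.1.1 + dv a.1.2 + v := by abel
  apply shift_ext
  · funext z
    simp only [FS.shift, fup_pos]
    by_cases h : s.pos (z - v) = a.1.1
    · rw [if_pos h, if_pos (by rw [h]), hy]
    · rw [if_neg h, if_neg (fun h' => h (add_right_cancel h'))]
  · ext w
    rw [mem_fup_vis]
    simp only [hy, shift_oth]
    show w ∈ (fup a s).vis.image (· + v) ↔ _
    rw [mem_image_add, mem_fup_vis, sub_eq_iff_eq_add]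
    show _ ↔ _ ∨ w ∈ s.vis.image (· + v)
    rw [mem_image_add]
  · ext w
    rw [mem_fup_dead]
    simp only [hy, shift_oth]
    show w ∈ (fup a s).dead.image (· + v) ↔ _
    rw [mem_image_add, mem_fup_dead]
    show _ ↔ w ∈ s.dead.image (· + v) ∨ (s.pos (w - v) + v = a.1.1 + v ∧ _ ∧
      a.1.1 + dv a.1.2 + v ∉ s.vis.image (· + v) ∧ _)
    rw [mem_image_add, mem_image_add, add_sub_cancel_right, add_left_inj]

end TR_

theorem t_TR : T_TR := by
  intro d L ε t f v
  constructor
  · intro s
    unfold fsg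
    rw [sg_map (r := rc d L ε) (φ := fup)
      (ψ := fun a s => fup ((a.1.1 + v, a.1.2), a.2) s) (fun s : FS d L => s.shift v)
      (Inv := fun _ => True) (fun _ _ _ => trivial) (fun a s _ => TR_.fup_shift a s v) t f
      (s := s) trivial]
    exact sg_reindex (((Equiv.addRight v).prodCongr (Equiv.refl _)).prodCongr (Equiv.refl _))
      (φ := fun a s => fup ((a.1.1 + v, a.1.2), a.2) s) (φ' := fup) (r := rc d L ε)
      (r' := rc d L ε) (fun a => rfl) (fun a => rfl) t f _
  · unfold FS.shift FS.init
    apply TR_.shift_ext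
    · funext z; simp
    · simp
    · simp

end Pool.Agent.CAS
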