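import Pool.Agent.CAS.Defs
import Pool.Agent.CAS.Literal

/-!
# Exact targets for MP_ae5001_pr

Every target is a `Prop`. A job prove `T_X` from `T_Y`, `T_Z` means: prove
`theorem t_X (hY : T_Y) (hZ : T_Z) : T_X` in the file given in the blueprint.
-/

open Finset Filter Topology MeasureTheory
open scoped BigOperators

namespace Pool.Agent.CAS

/-! ## Part 1: kernel, hitting probabilities, abstract calculus -/

/-- facts about hitting probabilities -/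
def T_HIT : Prop := ∀ (d L : ℕ), 1 ≤ d →
  (∀ (t : ℝ) (x y : V d L), 0 ≤ t → 0 ≤ hit t x y ∧ hit t x y ≤ 1) ∧
  (∀ (t : ℝ) (x y : V d L), 0 ≤ t → hit t x y = hit t 0 (y - x)) ∧
  (∀ (t : ℝ) (x y : V d L), 0 ≤ t → hit t x y = hit t y x) ∧
  (∀ (s t : ℝ) (x y : V d L), 0 ≤ s → s ≤ t → hit s x y ≤ hit t x y) ∧
  (∀ (t : ℝ) (x y : V d L), 0 ≤ t →
    ∑ e : Dir d, ra d * hit t (x + dv e) y ≤ 2 * hit (t + 1) x y) ∧
  (∀ (t : ℝ) (x : V d L), 0 ≤ t → ∑ y, hit t x y ≤ 1 + t) ∧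
  (∀ (t : ℝ) (x : V d L), 0 ≤ t → hit t 0 x ≤ 2 * ∫ s in (0 : ℝ)..t + 1, hk s x)

/-- return probability of the one-dimensional rate one walk on the cycle of length `N` -/
noncomputable def q1 (N : ℕ) (σ : ℝ) : ℝ :=
  (∑ j ∈ range N, Real.exp (-σ * (1 - Real.cos (2 * Real.pi * j / N)))) / N

/-- Fourier bounds for the heat kernel -/
def T_FOU : Prop := ∀ (d L : ℕ), 1 ≤ d → 2 ≤ L →
  (∀ (s : ℝ) (x : V d L), 0 ≤ s → 0 ≤ hk s x ∧ hk s x ≤ q1 (L + 1) (s / d) ^ d) ∧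
  (∀ (s : ℝ) (x : V d L), 0 ≤ s → x ≠ 0 → hk s x ≤ s / d * q1 (L + 1) (s / d) ^ (d - 1)) ∧
  (∀ s : ℝ, 0 ≤ s → Real.exp (-s) ≤ hk s (0 : V d L)) ∧
  (∀ s : ℝ, 0 ≤ s → ∑ x : V d L, hk s x = 1) ∧
  (∀ (s : ℝ) (x : V d L), hk s (-x) = hk s x) ∧
  (∀ (s : ℝ) (x : V d L), HasDerivAt (fun s => hk s x) (Pk (hk s) x - hk s x) s) ∧
  (∀ σ : ℝ, 0 ≤ σ → 0 ≤ q1 (L + 1) σ ∧ q1 (L + 1) σ ≤ 1) ∧
  (∀ σ : ℝ, 0 ≤ σ → q1 (L + 1) σ ≤ 1 - σ + 3 / 4 * σ ^ 2) ∧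
  (∀ σ : ℝ, 0 < σ → q1 (L + 1) σ ≤ 1 / (L + 1) + √(Real.pi / (8 * σ))) ∧
  (∀ s t : ℝ, 0 ≤ s → s ≤ t → q1 (L + 1) t ≤ q1 (L + 1) s)

/-- the kernel exists -/
def T_KER : Prop := ∀ d : ℕ, 100 ≤ d → ∃ C : ℝ, 1 ≤ C ∧ ∀ δ : ℝ, 0 < δ → ∀ T : ℝ,
  ∀ᶠ L : ℕ in atTop, ∃ (h : V d L → ℝ) (γ : ℝ), Ker h γ δ C T

/-- Lyapunov structure for one zealot -/
def T_LD1 : Prop := ∀ C0 : ℝ, 1 ≤ C0 → ∃ C : ℝ, 3 ≤ C ∧ ∀ (d L : ℕ) (h : V d L → ℝ) (γ δ T : ℝ),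
  1 ≤ d → 0 ≤ δ → δ ≤ 1 → Ker h γ δ C0 T →
  LD (fun _ : Ar d L => ra d) (zup {0}) (fun A => (0 : V d L) ∉ A) (zX fun x => 1 - h x)
    (zF h {0}) (zm {0}) (zb {0}) γ γ δ C 1

/-- Lyapunov structure for two zealots -/
def T_LD2 : Prop := ∀ C0 : ℝ, 1 ≤ C0 → ∃ C : ℝ, 3 ≤ C ∧ ∀ (d L : ℕ) (h : V d L → ℝ) (γ δ T : ℝ),
  1 ≤ d → 0 ≤ δ → δ ≤ 1 → Ker h γ δ C0 T → ∀ w : V d L, w ≠ 0 →
  LD (fun _ : Ar d L => ra d) (zup {0, w}) (fun A => (0 : V d L) ∉ A ∧ w ∉ A)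
    (zX fun x => 1 - (h x + h (x - w)) / (1 + h w))
    (zF h {0, w}) (zm {0, w}) (zb {0, w}) (2 * γ / (1 + h w)) γ δ C 1

/-- Lyapunov structure without zealots -/
def T_LD0 : Prop := ∀ C0 : ℝ, 1 ≤ C0 → ∃ C : ℝ, 3 ≤ C ∧ ∀ (d L : ℕ) (h : V d L → ℝ) (γ δ T : ℝ),
  1 ≤ d → 0 ≤ δ → δ ≤ 1 → Ker h γ δ C0 T →
  LD (fun _ : Ar d L => ra d) (zup ∅) (fun _ => True) (zX fun _ => 1)
    (zF h ∅) (zm ∅) (zb ∅) 0 γ δ C 0

/-- Lyapunov structure for the product of two systems -/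
def T_LDP : Prop := ∀ (S I S' I' : Type) [Fintype I] [Fintype I'] (r : I → ℝ) (φ : I → S → S)
  (Inv : S → Prop) (X F m β : S → ℝ) (r' : I' → ℝ) (φ' : I' → S' → S')
  (Inv' : S' → Prop) (X' F' m' β' : S' → ℝ) (c c' γ δ C b : ℝ), 0 ≤ C → 0 ≤ δ → 0 ≤ b →
  LD r φ Inv X F m β c γ δ C b → LD r' φ' Inv' X' F' m' β' c' γ δ C b →
  LD (prate r r') (pmap φ φ') (fun s => Inv s.1 ∧ Inv' s.2) (fun s => X s.1 + X' s.2)
    (fun s => F s.1 + F' s.2) (fun s => m s.1 + m' s.2) (fun s => β s.1 + β' s.2)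
    (c + c') γ δ (2 * C) b

/-- Taylor expansion: up to errors the process `X + K` is a Bessel-type process -/
def T_CALC : Prop := ∀ C : ℝ, 1 ≤ C → ∃ C' : ℝ, 1 ≤ C' ∧ ∀ (S I : Type) [Finite S] [Fintype I]
  (r : I → ℝ) (φ : I → S → S) (Inv : S → Prop) (X F m β : S → ℝ) (c γ δ b : ℝ),
  LD r φ Inv X F m β c γ δ C b → |c| ≤ C → 0 ≤ γ → γ ≤ C → 0 ≤ δ → δ ≤ 1 → 0 ≤ b → b ≤ 1 →
  ∀ (K : ℝ), C' ≤ K → ∀ (σ B : ℝ) (g0 g1 g2 g3 g4 : ℝ → ℝ), -1 ≤ σ → σ ≤ 2 → 0 ≤ B →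
  (∀ y, 1 ≤ y → HasDerivAt g0 (g1 y) y) → (∀ y, 1 ≤ y → HasDerivAt g1 (g2 y) y) →
  (∀ y, 1 ≤ y → HasDerivAt g2 (g3 y) y) → (∀ y, 1 ≤ y → HasDerivAt g3 (g4 y) y) →
  (∀ y, 1 ≤ y → |g2 y| ≤ B * y ^ (-σ - 2)) → (∀ y, 1 ≤ y → |g3 y| ≤ B * y ^ (-σ - 3)) →
  (∀ y, 1 ≤ y → |g4 y| ≤ B * y ^ (-σ - 4)) →
  ∀ s, Inv s → m s ≤ 2 * (X s + K) ∧
    |gen r φ (fun s => g0 (X s + K) - g2 (X s + K) * F s / 2) s -
      (g1 (X s + K) * gen r φ X s + γ * m s * g2 (X s + K))| ≤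
      C' * B * (m s * (X s + K) ^ (-σ - 11 / 4) + b * (X s + K) ^ (-σ - 7 / 4) +
        δ * m s * (X s + K) ^ (-σ - 1))

/-- moments of the mass -/
def T_MOM : Prop := ∀ C : ℝ, 1 ≤ C → ∀ k : ℕ, ∃ C' : ℝ, 1 ≤ C' ∧
  ∀ (S I : Type) [Finite S] [Fintype I]
  (r : I → ℝ) (φ : I → S → S) (Inv : S → Prop) (X F m β : S → ℝ) (c γ δ b : ℝ),
  LD r φ Inv X F m β c γ δ C b → ∀ (t : ℝ) (s : S), 0 ≤ t → Inv s →
  sg r φ t (fun s => (1 + m s) ^ k) s ≤ C' * (1 + t) ^ k * (1 + m s) ^ k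

/-! ## Part 2: estimates for the voter model with zealots -/

/-- monotonicity -/
def T_MONO : Prop := ∀ (d L : ℕ),
  (∀ (Z : Finset (V d L)) (f : Finset (V d L) → ℝ) (t : ℝ), 0 ≤ t → Antitone f →
    Antitone (zsg Z t f)) ∧
  (∀ (Z : Finset (V d L)) (f : Finset (V d L) → ℝ) (s t : ℝ), 0 ≤ s → 0 ≤ t → Antitone f →
    zsg Z (s + t) f ∅ ≤ zsg Z t f ∅) ∧
  (∀ s t : ℝ, 0 ≤ s → s ≤ t → uu d L t ≤ uu d L s) ∧
  (∀ s t : ℝ, 0 ≤ s → s ≤ t → rho d L t ≤ rho d L s) ∧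
  (∀ t : ℝ, 0 ≤ t → 0 ≤ uu d L t ∧ uu d L t ≤ 1 ∧ 0 ≤ rho d L t ∧ rho d L t ≤ 1)

/-- small sets die quickly -/
def T_SMALL : Prop := ∀ (d M : ℕ), 1 ≤ d → ∃ c : ℝ, 0 < c ∧ ∀ (L : ℕ), M < L →
  ∀ A : Finset (V d L), A.card ≤ M → (0 : V d L) ∉ A →
    c ≤ zsg ({0} : Finset (V d L)) 1 (fun A => if A = ∅ then 1 else 0) A

/-- (a) -/
def T_A : Prop := ∀ d : ℕ, 100 ≤ d → ∃ c : ℝ, 0 < c ∧ ∃ C : ℝ, ∀ T : ℕ, 1 ≤ T →
  ∀ᶠ L : ℕ in atTop, c * Real.log T - C ≤ ∑ t ∈ range T, uu d L t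

/-- (b) -/
def T_B : Prop := ∀ d : ℕ, 100 ≤ d → ∃ C : ℝ, ∀ T : ℕ, ∀ᶠ L : ℕ in atTop, ∀ x : V d L, x ≠ 0 →
  ∀ t : ℕ, 1 ≤ t → t ≤ T → uu2 x t ≤ C * (t : ℝ) ^ (-(5 / 4) : ℝ)

/-- (c) -/
def T_C : Prop := ∀ d : ℕ, 100 ≤ d → ∃ C : ℝ, ∀ T : ℕ, ∀ᶠ L : ℕ in atTop,
  ∑ t ∈ range T, (t : ℝ) * uu d L t ^ 2 ≤ C * Real.log (T + 1) + C

/-- (d) -/
def T_D : Prop := ∀ d : ℕ, 100 ≤ d → ∃ C : ℝ, ∀ T : ℕ, ∀ᶠ L : ℕ in atTop,
  ∑ t ∈ range T, rho d L t ≤ C * Real.log (T + 1) + C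

/-- moments of the voter model without zealots started at one site -/
def T_MOM0 : Prop := ∀ (d L : ℕ) (t : ℝ), 1 ≤ d → 0 ≤ t →
  zsg (∅ : Finset (V d L)) t (fun A => (A.card : ℝ)) {0} = 1 ∧
  zsg (∅ : Finset (V d L)) t (fun A => (A.card : ℝ) ^ 2) {0} ≤ 1 + 2 * t ∧
  zsg (∅ : Finset (V d L)) t (fun A => (A.card : ℝ) ^ 3) {0} ≤ 6 * (1 + t) ^ 2

/-- small balls -/
def T_SB : Prop := ∀ (d L : ℕ) (κ s t : ℝ), 1 ≤ d → 0 ≤ κ → 0 ≤ s → 0 ≤ t →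
  sm d L κ t * (1 - κ * rho d L s) ≤ rho d L t - rho d L (t + s)

/-! ## Part 3: the flow with killing -/

/-- translation of a state -/
def FS.shift {d L : ℕ} (v : V d L) (s : FS d L) : FS d L :=
  ⟨fun z => s.pos (z - v) + v, s.vis.image (· + v), s.dead.image (· + v)⟩

/-- translation invariance -/
def T_TR : Prop := ∀ (d L : ℕ) (ε t : ℝ) (f : FS d L → ℝ) (v : V d L),
  (∀ s : FS d L, fsg ε t (fun s => f (s.shift v)) s = fsg ε t f (s.shift v)) ∧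
  (FS.init d L).shift v = FS.init d L

/-- dualities -/
def T_DUAL : Prop := ∀ (d L : ℕ) (ε t : ℝ), 1 ≤ d → 0 ≤ ε → ε ≤ 1 → 0 ≤ t →
  (∀ x : V d L,
    fsg ε t (fun s : FS d L => if x ∉ s.vis then 1 else 0) (FS.init d L) = uu d L t) ∧
  (∀ x y : V d L, x ≠ y → vis2 ε t x y ≤ uu2 (y - x) t) ∧
  (∀ (g : ℝ → ℝ) (x : V d L), fsg ε t (fun s : FS d L => g (s.ct x)) (FS.init d L) =
    zsg (∅ : Finset (V d L)) t (fun A => g A.card) {0})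

/-- almost independence of `x` and `y` unvisited -/
def T_N1 : Prop := ∀ (d L : ℕ) (ε t : ℝ), 1 ≤ d → 0 ≤ ε → ε ≤ 1 → 0 ≤ t →
  ∀ x y : V d L, x ≠ y → vis2 ε t x y ≤ uu d L t ^ 2 + 4 * t * hit (t + 1) x y

/-- second moment quantity -/
def T_D2 : Prop := ∀ d : ℕ, 100 ≤ d → ∃ C : ℝ, ∀ ε : ℝ, 0 ≤ ε → ε ≤ 1 → ∀ T : ℕ,
  ∀ᶠ L : ℕ in atTop, ∑ t ∈ range T, DD ε d L t ≤ C * Real.log (T + 1) + C

/-- window, first moment -/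
def T_WA : Prop := ∀ (d L : ℕ) (ε t : ℝ), 1 ≤ d → 0 ≤ ε → ε ≤ 1 → 0 ≤ t → ∀ s : FS d L,
  wsg ε t (fun w => ∑ y, w.cnt y) (WS.start s) =
    fsg ε t (fun s' => (s'.vis.card : ℝ)) s - s.vis.card

/-- window, second moment -/
def T_WB : Prop := ∀ (d L : ℕ) (ε t : ℝ), 1 ≤ d → 0 ≤ ε → ε ≤ 1 → 0 ≤ t → ∀ s : FS d L,
  wsg ε t (fun w => ∑ y, w.cnt y ^ 2) (WS.start s) ≤
    wsg ε t (fun w => ∑ y, w.cnt y) (WS.start s) +
    2 * ∑ x ∈ Finset.univ.filter (fun x => x ∉ s.vis),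
      ∑ y ∈ Finset.univ.filter (fun y => y ∉ s.vis ∧ y ≠ x), hit t x y

/-- window, killing -/
def T_WC : Prop := ∀ (d L : ℕ) (ε t : ℝ), 1 ≤ d → 0 ≤ ε → ε ≤ 1 → 0 ≤ t → ∀ s : FS d L,
  ε * wsg ε t (fun w => ∑ y, if 0 < w.cnt y then s.al y else 0) (WS.start s) ≤
    fsg ε t (fun s' => ((s'.dead \ s.dead).card : ℝ)) s

/-- the kill inequality -/
def T_R1 : Prop := ∀ (d L : ℕ) (ε κ t : ℝ), 1 ≤ d → 0 ≤ ε → ε ≤ 1 → 0 ≤ κ → 0 ≤ t →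
  ε * κ * (max 0 (uu d L t - uu d L (2 * t) - √(2 * nu ε d L κ t * DD ε d L t))) ^ 2 ≤
    2 * (th ε d L t - th ε d L (2 * t)) * DD ε d L t

/-- alive mass minus expected alive mass at `v` -/
noncomputable def FS.dis {d L : ℕ} (s : FS d L) (θ : ℝ) (v : V d L) : ℝ := s.al v - θ * s.ct v

/-- mixing at a fixed time -/
def T_MIX : Prop := ∀ (d : ℕ) (ε r η : ℝ), 1 ≤ d → 0 ≤ ε → ε ≤ 1 → 0 ≤ r → 0 < η → ∃ R : ℕ,
  ∀ᶠ L : ℕ in atTop, ∀ w : V d L, w ∉ bal R →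
    |fsg ε r (fun s => s.dis (th ε d L r) 0 * s.dis (th ε d L r) w) (FS.init d L)| ≤ η

open Classical in
/-- homogeneity, first part -/
def T_HA : Prop := ∀ (d L : ℕ) (ε r t : ℝ), 1 ≤ d → 0 ≤ ε → ε ≤ 1 → 0 ≤ r → r ≤ t →
  fsg ε r (fun s => fsg ε (t - r) (fun s' =>
    ((Finset.univ.filter fun z => s'.pos z = 0 ∧ z ∈ s'.dead ∧ z ∉ s.dead).card : ℝ) ^ 2) s)
    (FS.init d L) ≤ √6 * (1 + t) * √(th ε d L r - th ε d L t)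

/-- homogeneity, second part -/
def T_HB : Prop := ∀ (d : ℕ) (ε r η : ℝ), 1 ≤ d → 0 ≤ ε → ε ≤ 1 → 0 ≤ r → 0 < η → ∃ T0 : ℕ,
  ∀ t : ℕ, T0 ≤ t → r ≤ t → ∀ᶠ L : ℕ in atTop,
  fsg ε r (fun s => fsg ε (t - r) (fun s' =>
    (∑ z ∈ Finset.univ.filter (fun z => s'.pos z = 0),
      ((if z ∈ s.dead then 0 else 1) - th ε d L r)) ^ 2) s) (FS.init d L) ≤ η * t

/-- homogeneity -/
def T_H : Prop := ∀ (d : ℕ) (ε r η : ℝ), 1 ≤ d → 0 ≤ ε → ε ≤ 1 → 0 ≤ r → 0 < η → ∃ T0 : ℕ,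
  ∀ t : ℕ, T0 ≤ t → r ≤ t → ∀ᶠ L : ℕ in atTop,
  fsg ε t (fun s => s.dis (th ε d L r) 0 ^ 2) (FS.init d L) ≤
    (10 * √(th ε d L r - th ε d L t) + η) * t

/-- simple facts on `th`, `nu`, `sm`, `DD` -/
def T_TH0 : Prop := ∀ (d L : ℕ) (ε : ℝ), 1 ≤ d → 0 ≤ ε → ε ≤ 1 →
  (∀ s t : ℝ, 0 ≤ s → s ≤ t → th ε d L t ≤ th ε d L s) ∧
  (∀ t : ℝ, 0 ≤ t → 0 ≤ th ε d L t ∧ th ε d L t ≤ 1) ∧
  (∀ κ t : ℝ, 0 ≤ t → 0 ≤ nu ε d L κ t ∧ nu ε d L κ t ≤ 1) ∧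
  (∀ κ t : ℝ, 0 ≤ t → 0 ≤ sm d L κ t ∧ sm d L κ t ≤ 1) ∧
  (∀ (t : ℝ) (x y : V d L), 0 ≤ t → 0 ≤ vis2 ε t x y ∧ vis2 ε t x y ≤ 1) ∧
  (∀ (t κ κ' θ : ℝ), 0 ≤ t → 0 ≤ θ → κ < θ * κ' →
    nu ε d L κ t ≤ sm d L κ' t +
      fsg ε t (fun s => s.dis θ 0 ^ 2) (FS.init d L) / (θ * κ' - κ) ^ 2)

/-! ## Part 4: endgame -/

/-- real analysis -/
def T_E : Prop := ∀ (u D2 ρ θ : ℕ → ℝ) (σ ν : ℝ → ℕ → ℝ) (c C ε θ0 : ℝ), 0 < c → 0 < ε →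
  0 < θ0 → (∀ t, 0 ≤ u t) → (∀ t, u t ≤ 1) → Antitone u →
  (∀ T : ℕ, 1 ≤ T → c * Real.log T - C ≤ ∑ t ∈ range T, u t) →
  (∀ T : ℕ, ∑ t ∈ range T, (t : ℝ) * u t ^ 2 ≤ C * Real.log (T + 1) + C) →
  (∀ t, 0 ≤ D2 t) → (∀ T : ℕ, ∑ t ∈ range T, D2 t ≤ C * Real.log (T + 1) + C) →
  (∀ t, 0 ≤ ρ t) → (∀ t, ρ t ≤ 1) → Antitone ρ →
  (∀ T : ℕ, ∑ t ∈ range T, ρ t ≤ C * Real.log (T + 1) + C) →
  Antitone θ → (∀ t, θ0 ≤ θ t) → (∀ t, θ t ≤ 1) →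
  (∀ κ t, 0 ≤ ν κ t) → (∀ κ t, 0 ≤ σ κ t) →
  (∀ (κ : ℝ) (t : ℕ), 0 ≤ κ →
    ε * κ * (max 0 (u t - u (2 * t) - √(2 * ν κ t * D2 t))) ^ 2 ≤ 2 * (θ t - θ (2 * t)) * D2 t) →
  (∀ (κ : ℝ) (s t : ℕ), 0 ≤ κ → σ κ t * (1 - κ * ρ s) ≤ ρ t - ρ (t + s)) →
  (∀ κ η : ℝ, 0 < κ → 0 < η → ∃ T0 : ℕ, ∀ t : ℕ, T0 ≤ t →
    ν (θ0 * κ * t / 2) t ≤ σ (κ * t) t + η / t) → False

/-- the alive density of the flow with killing tends to `0` -/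
def T_TH : Prop := ∀ d : ℕ, 100 ≤ d → ∀ ε : ℝ, 0 < ε → ε ≤ 1 → ∀ δ : ℝ, 0 < δ →
  ∃ t : ℕ, ∀ᶠ L : ℕ in atTop, th ε d L t ≤ δ

/-! ## Part 5: the literal system -/

/-- static marks: the flow with killing at the marked sites `M` -/
noncomputable def ssg {d L : ℕ} (M : Finset (V d L)) (t : ℝ) (f : FS d L → ℝ) (s : FS d L) : ℝ :=
  sg (fun _ : Ar d L => ra d) (fun a => fup (a, decide (a.1 + dv a.2 ∈ M))) t f s

/-- averaging over the marks -/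
def T_COIN : Prop := ∀ (d L : ℕ) (ε t : ℝ) (o : V d L), 1 ≤ d → 0 ≤ ε → ε ≤ 1 → 0 ≤ t →
  ∑ M : Finset (V d L), ε ^ M.card * (1 - ε) ^ (Fintype.card (V d L) - M.card) *
    ssg M t (fun s => if o ∈ s.dead then 0 else 1) (FS.init d L) = th ε d L t

open Classical in
/-- The literal system in terms of locations: `l z` is the location of the cluster of `z`. -/
noncomputable def aup {d L : ℕ} (typ : V d L → Bool) (a : Ar d L) (l : V d L → Option (V d L)) :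
    V d L → Option (V d L) :=
  if ∃ z, typ z = true ∧ l z = some a.1 then
    (if typ (a.1 + dv a.2) = false ∧ l (a.1 + dv a.2) = some (a.1 + dv a.2) then
      fun z => if l z = some a.1 ∨ z = a.1 + dv a.2 then none else l z
    else fun z => if l z = some a.1 then some (a.1 + dv a.2) else l z)
  else l

/-- the literal system on the torus is lumpable -/
def T_LUMP : Prop := ∀ (d L : ℕ) (typ : V d L → Bool) (brv : V d L → ℝ) (t : ℝ) (o : V d L),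
  1 ≤ d → 0 ≤ t →
  sg (fun _ : V d L × Dir d => ra d) (ring typ brv dv) t
    (fun s => if typ o = true ∧ s.ld o ≠ none then 1 else 0) (LS.init id fun _ => True) =
  sg (fun _ : Ar d L => ra d) (aup typ) t
    (fun l => if typ o = true ∧ l o ≠ none then 1 else 0) (fun z => some z)

/-- domination -/
def T_DOM : Prop := ∀ (d L : ℕ) (typ : V d L → Bool) (t : ℝ) (o : V d L), 1 ≤ d → 0 ≤ t →
  sg (fun _ : Ar d L => ra d) (aup typ) t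
    (fun l => if typ o = true ∧ l o ≠ none then 1 else 0) (fun z => some z) ≤
  ssg (Finset.univ.filter fun z => typ z = false) t (fun s => if o ∈ s.dead then 0 else 1)
    (FS.init d L)

open Classical in
/-- finite speed of propagation -/
def T_DISC : Prop := ∀ (d : ℕ) (ι G : Type) [Fintype ι] [AddCommGroup G] (step : Dir d → G)
  (start : ι → G) (nm : G → ℝ) (typ : ι → Bool) (brv : ι → ℝ) (J : ι → Prop) (o : ι) (t : ℝ),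
  1 ≤ d → 0 ≤ t → Function.Injective start → (∀ e, ∃ e', step e' = -step e) →
  (∀ x, 0 ≤ nm x) → nm 0 = 0 → (∀ x e, nm (x + step e) ≤ nm x + 1) → J o →
  sg (fun _ : ι × Dir d => ra d)
    (fun a (s : LS ι G × LS ι G) => (ring typ brv step a s.1, ring typ brv step a s.2)) t
    (fun s => if s.1.ld o = none ↔ s.2.ld o = none then 0 else 1)
    (LS.init start J, LS.init start fun _ => True) ≤
  Real.exp (9 * t + 1) * ∑ z ∈ (Finset.univ : Finset ι).filter (fun z => ¬ J z),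
    Real.exp (-nm (start z - start o))

open Classical in
/-- particles which are not present are irrelevant -/
def T_IRR : Prop := ∀ (d : ℕ) (ι G : Type) [Fintype ι] [AddCommGroup G] (step : Dir d → G)
  (start : ι → G) (typ typ' : ι → Bool) (brv brv' : ι → ℝ) (J : ι → Prop) (o : ι) (t : ℝ),
  (∀ z, J z → typ z = typ' z) → (∀ z, J z → brv z = brv' z) →
  sg (fun _ : ι × Dir d => ra d) (ring typ brv step) t
    (fun s => if s.ld o ≠ none then 1 else 0) (LS.init start J) =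
  sg (fun _ : ι × Dir d => ra d) (ring typ' brv' step) t
    (fun s => if s.ld o ≠ none then 1 else 0) (LS.init start J)

/-- representatives of the coordinates in `(-(L+1)/2, (L+1)/2]` -/
def lift {d L : ℕ} (v : V d L) : Zd d := fun i => (v i).valMinAbs

open Classical in
/-- the probability that the particle `0` is alive at time `t` in the system of the particles
in the box `[-m, m]^d`, for given types and braveries -/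
noncomputable def boxAlive (d m : ℕ) (typ : Zd d → Bool) (brv : Zd d → ℝ) (t : ℝ) : ℝ :=
  sg (fun _ : (box d m) × Dir d => ra d)
    (ring (fun z : (box d m) => typ z) (fun z => brv z) dz) t
    (fun s => if ∃ z : (box d m), (z : Zd d) = 0 ∧ typ z = true ∧ s.ld z ≠ none then 1 else 0)
    (LS.init (fun z => (z : Zd d)) fun _ => True)

open Classical in
/-- the same on a large torus -/
noncomputable def torAlive (d m L : ℕ) (typ : Zd d → Bool) (brv : Zd d → ℝ) (t : ℝ) : ℝ :=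
  sg (fun _ : V d L × Dir d => ra d)
    (ring (fun v => typ (lift v)) (fun v => brv (lift v)) dv) t
    (fun s => if typ 0 = true ∧ s.ld 0 ≠ none then 1 else 0)
    (LS.init id fun v => lift v ∈ box d m)

/-- for a fixed box of particles large tori and `ℤ^d` give the same result -/
def T_WRAP : Prop := ∀ (d m : ℕ) (typ : Zd d → Bool) (brv : Zd d → ℝ) (t : ℝ), 1 ≤ d → 0 ≤ t →
  Tendsto (fun L : ℕ => torAlive d m L typ brv t) atTop (𝓝 (boxAlive d m typ brv t))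

open Classical in
/-- the type configuration with the B particles at the sites of `M` -/
noncomputable def tpM {d : ℕ} (M : Finset (Zd d)) (z : Zd d) : Bool := decide (z ∉ M)

/-- the annealed probability that `0` is an A particle which is alive at time `T` tends to `0` -/
def T_BOX : Prop := ∀ (d : ℕ), 100 ≤ d → ∀ p : ℝ, 0 ≤ p → p < 1 → ∀ δ : ℝ, 0 < δ →
  ∃ T : ℕ, ∀ᶠ m : ℕ in atTop, ∀ brv : Zd d → ℝ,
  ∑ M ∈ (box d m).powerset, (1 - p) ^ M.card * p ^ ((box d m).card - M.card) *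
    boxAlive d m (tpM M) brv T ≤ δ

/-- Poisson clocks and the semigroup -/
def T_CLOCK : Prop := ∀ (d : ℕ), 1 ≤ d → ∀ (B : Finset (Zd d)) (T : ℕ) (S : Type)
  (φ : Zd d × Dir d → S → S) (f : S → ℝ), Bd f → ∀ s0 : S,
  Measurable (fun ω : (Zd d × ℕ → ℕ) × (Zd d × ℕ × ℕ → ℝ) × (Zd d × ℕ × ℕ → Dir d) =>
    f ((rgs ω.1 ω.2.1 ω.2.2 B T).foldl (fun s a => φ a s) s0)) ∧
  ∫ ω, f ((rgs ω.1 ω.2.1 ω.2.2 B T).foldl (fun s a => φ a s) s0) ∂(clkM d) =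
    sg (fun _ : B × Dir d => ra d) (fun a s => φ (a.1.1, a.2) s) T f s0

/-- restriction of the labels -/
def T_PROJ : Prop := ∀ (d m : ℕ) (typ : Zd d → Bool) (brv : Zd d → ℝ) (t : ℝ), 1 ≤ d → 0 ≤ t →
  sg (fun _ : (box d m) × Dir d => ra d) (fun a s => ring typ brv dz (a.1.1, a.2) s) t
    (fun s => if typ 0 = true ∧ s.ld 0 ≠ none then 1 else 0)
    (LS.init id fun z => z ∈ box d m) = boxAlive d m typ brv t

open Classical in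
/-- stability in the size of the box, in terms of the semigroup -/
def T_STAB : Prop := ∀ (d m : ℕ) (typ : Zd d → Bool) (brv : Zd d → ℝ) (t : ℝ), 1 ≤ d → 0 ≤ t →
  sg (fun _ : (box d (m + 1)) × Dir d => ra d)
    (fun a (s : LS (Zd d) (Zd d) × LS (Zd d) (Zd d)) =>
      (ring typ brv dz (a.1.1, a.2) s.1, ring typ brv dz (a.1.1, a.2) s.2)) t
    (fun s => if s.1.ld 0 = none ↔ s.2.ld 0 = none then 0 else 1)
    (LS.init id (fun z => z ∈ box d m), LS.init id fun z => z ∈ box d (m + 1)) ≤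
  Real.exp (9 * t + 1) * (d * 4 ^ d * Real.exp (-(m : ℝ)))

/-- rings of labels which are not present do not matter -/
def T_RESTR : Prop := ∀ (d : ℕ) (p : ℝ), 1 ≤ d → 0 ≤ p → p ≤ 1 → ∀ᵐ ω ∂(casM d p), ∀ m T : ℕ,
  ((ω.toOm.rings (box d (m + 1)) T).foldl (fun s a => ring ω.toOm.typ ω.toOm.brv dz a s)
    (LS.init id fun z => z ∈ box d m)).ld 0 = (ω.toOm.run m T).ld 0

end Pool.Agent.CAS
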