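import Pool.Agent.CAS.Basic

open Finset Filter Topology MeasureTheory
open scoped BigOperators

namespace Pool.Agent.CAS

set_option linter.unusedSectionVars false

namespace WAC_

variable {d L : ℕ}

/-- the invariants of the window process started at `s0` -/
structure Inv (s0 : FS d L) (w : WS d L) : Prop where
  i1 : ∀ z, w.fl (s0.pos z) = w.pos z
  i2 : ∀ x, (∃ z, w.pos z = x) → w.fl (w.rep x) = x
  i3 : ∀ x, w.who x ≠ none ↔ x ∈ w.vis ∧ x ∉ s0.vis
  i4 : s0.vis ⊆ w.vis
  i5 : s0.dead ⊆ w.dead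

lemma inv_start (s0 : FS d L) : Inv s0 (WS.start s0) := by
  constructor
  · intro z; rfl
  · intro x _; rfl
  · intro x
    simp only [WS.start, ne_eq, not_true_eq_false, false_iff]
    tauto
  · exact fun _ h => h
  · exact fun _ h => h

lemma wup_toFS (a : Ar d L × Bool) (w : WS d L) : (wup a w).toFS = fup a w.toFS := rfl

lemma wup_fl (a : Ar d L × Bool) (w : WS d L) (v : V d L) :
    (wup a w).fl v = if w.fl v = a.1.1 then a.1.1 + dv a.1.2 else w.fl v := rfl

lemma wup_rep (a : Ar d L × Bool) (w : WS d L) (v : V d L) :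
    (wup a w).rep v = if v = a.1.1 + dv a.1.2 ∧ ∃ z, w.pos z = a.1.1 then w.rep a.1.1
      else w.rep v := by
  unfold wup
  simp only

open Classical in
lemma wup_who (a : Ar d L × Bool) (w : WS d L) (v : V d L) :
    (wup a w).who v = if v = a.1.1 + dv a.1.2 ∧ w.oth a.1.1 (a.1.1 + dv a.1.2) ∧
      a.1.1 + dv a.1.2 ∉ w.vis then some (w.rep a.1.1) else w.who v := rfl

lemma inv_step (s0 : FS d L) (a : Ar d L × Bool) (w : WS d L) (h : Inv s0 w) :
    Inv s0 (wup a w) := by
  classical
  obtain ⟨h1, h2, h3, h4, h5⟩ := h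
  constructor
  · intro z
    rw [wup_fl, h1 z]
    show _ = (fup a w.toFS).pos z
    rw [fup_pos]
  · rintro x ⟨z, hz⟩
    have hz' : (fup a w.toFS).pos z = x := hz
    rw [fup_pos] at hz'
    rw [wup_rep, wup_fl]
    by_cases hc : x = a.1.1 + dv a.1.2 ∧ ∃ z, w.pos z = a.1.1
    · rw [if_pos hc, h2 _ hc.2, if_pos rfl, hc.1]
    · rw [if_neg hc]
      by_cases hp : w.pos z = a.1.1
      · rw [if_pos hp] at hz'
        exact absurd ⟨hz'.symm, z, hp⟩ hc
      · rw [if_neg hp] at hz'
        rw [h2 x ⟨z, hz'⟩, if_neg]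
        rw [← hz']; exact hp
  · intro x
    show _ ↔ x ∈ (fup a w.toFS).vis ∧ _
    rw [wup_who, mem_fup_vis]
    have h3x := h3 x
    have h4x : x ∈ s0.vis → x ∈ w.vis := fun hx => h4 hx
    by_cases hc : x = a.1.1 + dv a.1.2 ∧ w.oth a.1.1 (a.1.1 + dv a.1.2) ∧
      a.1.1 + dv a.1.2 ∉ w.vis
    · rw [if_pos hc]
      obtain ⟨c1, c2, c3⟩ := hc
      rw [← c1] at c3 c2 ⊢
      simp only [ne_eq, reduceCtorEq, not_false_eq_true, true_and, true_iff]
      exact ⟨Or.inl c2, fun hx => c3 (h4x hx)⟩
    · rw [if_neg hc, h3x]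
      constructor
      · rintro ⟨e1, e2⟩
        exact ⟨Or.inr e1, e2⟩
      · rintro ⟨e1, e2⟩
        refine ⟨?_, e2⟩
        rcases e1 with ⟨e3, e4⟩ | e3
        · by_contra hx
          exact hc ⟨e3, e4, e3 ▸ hx⟩
        · exact e3
  · intro x hx
    exact fup_vis_mono a w.toFS (h4 hx)
  · intro x hx
    exact fup_dead_mono a w.toFS (h5 hx)

lemma sum_cnt (s0 : FS d L) (w : WS d L) (h : Inv s0 w) :
    ∑ y, w.cnt y = (w.vis.card : ℝ) - s0.vis.card := by
  classical
  have e1 : ∑ y, w.cnt y = ((Finset.univ.filter fun x => w.who x ≠ none).card : ℝ) := by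
    unfold WS.cnt
    rw [← Nat.cast_sum]
    congr 1
    rw [← Finset.card_biUnion]
    · congr 1
      ext x
      simp only [Finset.mem_biUnion, Finset.mem_univ, true_and, Finset.mem_filter]
      constructor
      · rintro ⟨y, hy⟩; rw [hy]; simp
      · intro hx
        obtain ⟨y, hy⟩ := Option.ne_none_iff_exists'.1 hx
        exact ⟨y, hy⟩
    · intro y _ y' _ hne
      rw [Function.onFun, Finset.disjoint_left]
      intro x hx hx'
      rw [Finset.mem_filter] at hx hx'
      rw [hx.2] at hx'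
      exact hne (Option.some_injective _ hx'.2)
  have e2 : (Finset.univ.filter fun x => w.who x ≠ none) = w.vis \ s0.vis := by
    ext x
    rw [Finset.mem_filter, Finset.mem_sdiff, ← h.i3 x]
    simp
  rw [e1, e2, Finset.card_sdiff_of_subset h.i4, Nat.cast_sub (Finset.card_le_card h.i4)]

lemma gen_wup_coin {ε : ℝ} (f : WS d L → ℝ) (s : WS d L) :
    gen (rc d L ε) wup f s = ∑ a : Ar d L, ra d *
      (ε * (f (wup (a, true) s) - f s) + (1 - ε) * (f (wup (a, false) s) - f s)) := by
  unfold gen
  rw [Fintype.sum_prod_type]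
  refine Finset.sum_congr rfl fun a _ => ?_
  simp only [Fintype.sum_bool, rc, if_true, Bool.false_eq_true, if_false]
  ring

open Classical in
/-- contribution of the line started at `z` to the submartingale -/
noncomputable def gz (s0 : FS d L) (ε : ℝ) (z : V d L) (w : WS d L) : ℝ :=
  if z ∈ w.dead then 1 - ε else if 0 < w.cnt (s0.pos z) then -ε else 0

lemma cnt_nonneg (w : WS d L) (y : V d L) : 0 ≤ w.cnt y := by
  unfold WS.cnt; exact Nat.cast_nonneg _

lemma cnt_pos_iff (w : WS d L) (y : V d L) : 0 < w.cnt y ↔ ∃ x, w.who x = some y := by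
  classical
  unfold WS.cnt
  rw [Nat.cast_pos, Finset.card_pos]
  constructor
  · rintro ⟨x, hx⟩
    exact ⟨x, (Finset.mem_filter.1 hx).2⟩
  · rintro ⟨x, hx⟩
    exact ⟨x, Finset.mem_filter.2 ⟨Finset.mem_univ _, hx⟩⟩

lemma gz_step {ε : ℝ} (h0 : 0 ≤ ε) (h1 : ε ≤ 1) (s0 : FS d L) (w : WS d L) (h : Inv s0 w)
    (a : Ar d L) (z : V d L) :
    0 ≤ ε * (gz s0 ε z (wup (a, true) w) - gz s0 ε z w) +
      (1 - ε) * (gz s0 ε z (wup (a, false) w) - gz s0 ε z w) := by
  classical
  have hdT : ∀ v, v ∈ (wup (a, true) w).dead ↔ v ∈ w.dead ∨ (w.pos v = a.1 ∧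
      w.oth a.1 (a.1 + dv a.2) ∧ a.1 + dv a.2 ∉ w.vis) := by
    intro v
    show v ∈ (fup (a, true) w.toFS).dead ↔ _
    rw [mem_fup_dead]
    simp
  have hdF : ∀ v, v ∈ (wup (a, false) w).dead ↔ v ∈ w.dead := by
    intro v
    show v ∈ (fup (a, false) w.toFS).dead ↔ _
    rw [mem_fup_dead]
    simp
  have hw : ∀ b v, (wup (a, b) w).who v = if v = a.1 + dv a.2 ∧ w.oth a.1 (a.1 + dv a.2) ∧
      a.1 + dv a.2 ∉ w.vis then some (w.rep a.1) else w.who v := fun b v => wup_who (a, b) w v
  by_cases hD : w.oth a.1 (a.1 + dv a.2) ∧ a.1 + dv a.2 ∉ w.vis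
  · -- discovery
    have hyn : w.who (a.1 + dv a.2) = none := by
      by_contra hne
      exact hD.2 ((h.i3 _).1 hne).1
    -- counts
    have hc : ∀ b q, (0 < (wup (a, b) w).cnt q ↔ (0 < w.cnt q ∨ q = w.rep a.1)) := by
      intro b q
      rw [cnt_pos_iff, cnt_pos_iff]
      constructor
      · rintro ⟨x, hx⟩
        rw [hw] at hx
        split_ifs at hx with hcc
        · right; exact (Option.some_injective _ hx).symm
        · left; exact ⟨x, hx⟩
      · rintro (⟨x, hx⟩ | hq)
        · refine ⟨x, ?_⟩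
          rw [hw, if_neg, hx]
          rintro ⟨hx1, _⟩
          rw [hx1, hyn] at hx
          exact absurd hx (by simp)
        · refine ⟨a.1 + dv a.2, ?_⟩
          rw [hw, if_pos ⟨rfl, hD⟩, hq]
    unfold gz
    by_cases hz : z ∈ w.dead
    · rw [if_pos ((hdT z).2 (Or.inl hz)), if_pos ((hdF z).2 hz), if_pos hz]
      simp
    · rw [if_neg hz, if_neg (fun hh => hz ((hdF z).1 hh))]
      by_cases hp : w.pos z = a.1
      · rw [if_pos ((hdT z).2 (Or.inr ⟨hp, hD⟩))]
        by_cases hcz : 0 < w.cnt (s0.pos z)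
        · rw [if_pos hcz, if_pos ((hc false _).2 (Or.inl hcz))]
          nlinarith
        · rw [if_neg hcz]
          split_ifs
          · nlinarith
          · nlinarith
      · have hnd : z ∉ (wup (a, true) w).dead := by
          intro hh
          rcases (hdT z).1 hh with hh | hh
          · exact hz hh
          · exact hp hh.1
        rw [if_neg hnd]
        have hne : s0.pos z ≠ w.rep a.1 := by
          intro he
          obtain ⟨z', _, hz'⟩ := hD.1
          have := h.i2 a.1 ⟨z', hz'⟩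
          rw [← he, h.i1 z] at this
          exact hp this
        have hcz : ∀ b, (0 < (wup (a, b) w).cnt (s0.pos z) ↔ 0 < w.cnt (s0.pos z)) := by
          intro b
          rw [hc b]
          exact ⟨fun hh => hh.resolve_right hne, Or.inl⟩
        simp only [hcz]
        simp
  · -- no discovery
    have hcc : ∀ b q, (wup (a, b) w).cnt q = w.cnt q := by
      intro b q
      unfold WS.cnt
      congr 2
      ext x
      rw [Finset.mem_filter, Finset.mem_filter, hw, if_neg (fun hh => hD hh.2)]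
    have hdT' : z ∈ (wup (a, true) w).dead ↔ z ∈ w.dead := by
      rw [hdT]
      exact ⟨fun hh => hh.resolve_right fun hh => hD hh.2, Or.inl⟩
    unfold gz
    simp only [hcc, hdT', hdF]
    simp

end WAC_

open WAC_

theorem t_WA : T_WA := by
  intro d L ε t hd h0 h1 ht s0
  classical
  have hr : ∀ i, 0 ≤ rc d L ε i := rc_nonneg h0 h1
  have e1 : wsg ε t (fun w => ∑ y, w.cnt y) (WS.start s0) =
      wsg ε t (fun w => (w.vis.card : ℝ) - s0.vis.card) (WS.start s0) := by
    unfold wsg
    exact sg_congr hr (fun i s hs => inv_step s0 i s hs) (fun w hw => sum_cnt s0 w hw) t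
      (inv_start s0)
  rw [e1]
  have e2 : wsg ε t (fun w => (w.vis.card : ℝ) - s0.vis.card) (WS.start s0) =
      fsg ε t (fun s' => (s'.vis.card : ℝ) - s0.vis.card) s0 := by
    unfold wsg fsg
    exact sg_map (r := rc d L ε) (φ := wup) (ψ := fup) (fun w : WS d L => w.toFS)
      (Inv := fun _ => True) (fun _ _ _ => trivial) (fun a w _ => rfl) t
      (fun s' : FS d L => (s'.vis.card : ℝ) - s0.vis.card) (s := WS.start s0) trivial
  rw [e2]
  unfold fsg
  rw [sg_sub (grF_of_finite hr _) (grF_of_finite hr _), sg_const]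

theorem t_WC : T_WC := by
  intro d L ε t hd h0 h1 ht s0
  classical
  have hr : ∀ i, 0 ≤ rc d L ε i := rc_nonneg h0 h1
  set f : WS d L → ℝ := fun w => ∑ z ∈ Finset.univ.filter (fun z => z ∉ s0.dead), gz s0 ε z w
    with hf
  have hgen : ∀ w, Inv s0 w → 0 ≤ gen (rc d L ε) wup f w := by
    intro w hw
    rw [gen_wup_coin]
    refine Finset.sum_nonneg fun a _ => mul_nonneg (ra_nonneg d) ?_
    simp only [hf]
    rw [← Finset.sum_sub_distrib, ← Finset.sum_sub_distrib, Finset.mul_sum, Finset.mul_sum,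
      ← Finset.sum_add_distrib]
    exact Finset.sum_nonneg fun z _ => gz_step h0 h1 s0 w hw a z
  have hstart : f (WS.start s0) = 0 := by
    simp only [hf]
    refine Finset.sum_eq_zero fun z hz => ?_
    have hz' : z ∉ s0.dead := (Finset.mem_filter.1 hz).2
    unfold gz
    have e1 : z ∉ (WS.start s0).dead := hz'
    rw [if_neg e1, if_neg]
    rw [cnt_pos_iff]
    rintro ⟨x, hx⟩
    simp [WS.start] at hx
  have key : 0 ≤ sg (rc d L ε) wup t f (WS.start s0) := by
    have := le_sg_of_sub (r := rc d L ε) (φ := wup) hr (fun i s hs => inv_step s0 i s hs)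
      (f := f) (W := fun _ w => f w) (W' := fun _ _ => 0) ht
      (fun _ _ s _ => hasDerivAt_const _ _) (fun _ _ s hs => hgen s hs)
      (fun s _ => le_rfl) (inv_start s0)
    rw [← hstart]
    exact this
  -- pointwise bound
  set g : WS d L → ℝ := fun w => ∑ y, if 0 < w.cnt y then s0.al y else 0 with hg
  have hpt : ∀ w, Inv s0 w → f w ≤ ((w.dead \ s0.dead).card : ℝ) - ε * g w := by
    intro w hw
    have eg : g w = ∑ z ∈ Finset.univ.filter (fun z => z ∉ s0.dead),
        (if 0 < w.cnt (s0.pos z) then (1 : ℝ) else 0) := by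
      simp only [hg]
      have e1 : ∀ y, (if 0 < w.cnt y then s0.al y else 0) =
          ∑ z ∈ Finset.univ.filter (fun z => z ∉ s0.dead),
            (if s0.pos z = y then (if 0 < w.cnt y then (1 : ℝ) else 0) else 0) := by
        intro y
        unfold FS.al
        rw [← Finset.sum_filter, Finset.filter_filter, Finset.sum_const, nsmul_eq_mul]
        have : (Finset.univ.filter fun z => s0.pos z = y ∧ z ∉ s0.dead) =
            Finset.univ.filter fun z => z ∉ s0.dead ∧ s0.pos z = y := by
          ext z; simp only [Finset.mem_filter, Finset.mem_univ, true_and]; tauto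
        rw [this]
        split_ifs <;> simp
      simp only [e1]
      rw [Finset.sum_comm]
      refine Finset.sum_congr rfl fun z _ => ?_
      simp
    have ed : ((w.dead \ s0.dead).card : ℝ) = ∑ z ∈ Finset.univ.filter (fun z => z ∉ s0.dead),
        (if z ∈ w.dead then (1 : ℝ) else 0) := by
      rw [← Finset.sum_filter, Finset.filter_filter, Finset.sum_const, nsmul_eq_mul, mul_one]
      congr 2
      ext z
      simp only [Finset.mem_sdiff, Finset.mem_filter, Finset.mem_univ, true_and]
      tauto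
    rw [eg, ed, Finset.mul_sum, ← Finset.sum_sub_distrib]
    simp only [hf]
    refine Finset.sum_le_sum fun z _ => ?_
    unfold gz
    split_ifs <;> linarith
  have hle : sg (rc d L ε) wup t f (WS.start s0) ≤
      sg (rc d L ε) wup t (fun w => ((w.dead \ s0.dead).card : ℝ) - ε * g w) (WS.start s0) :=
    sg_mono hr (fun i s hs => inv_step s0 i s hs) (grF_of_finite hr _) (grF_of_finite hr _)
      hpt ht (inv_start s0)
  rw [sg_sub (grF_of_finite hr _) (grF_of_finite hr _), sg_smul] at hle
  have e2 : sg (rc d L ε) wup t (fun w : WS d L => ((w.dead \ s0.dead).card : ℝ)) (WS.start s0) =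
      fsg ε t (fun s' => ((s'.dead \ s0.dead).card : ℝ)) s0 := by
    unfold fsg
    exact sg_map (r := rc d L ε) (φ := wup) (ψ := fup) (fun w : WS d L => w.toFS)
      (Inv := fun _ => True) (fun _ _ _ => trivial) (fun a w _ => rfl) t
      (fun s' : FS d L => ((s'.dead \ s0.dead).card : ℝ)) (s := WS.start s0) trivial
  rw [e2] at hle
  have : ε * wsg ε t g (WS.start s0) = ε * sg (rc d L ε) wup t g (WS.start s0) := rfl
  have goal_eq : ε * wsg ε t (fun w => ∑ y, if 0 < w.cnt y then s0.al y else 0) (WS.start s0) =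
      ε * sg (rc d L ε) wup t g (WS.start s0) := by
    unfold wsg
    simp only [hg]
  rw [goal_eq]
  linarith

end Pool.Agent.CAS
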