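import Pool.Agent.CAS.Basic

/-!
# The window process, second moment (job WB)
-/

open Finset Filter Topology MeasureTheory
open scoped BigOperators

namespace Pool.Agent.CAS.WB_

variable {d L : ℕ}

/-! ## Hitting probabilities -/

lemma hasDerivAt_hit (hd : 1 ≤ d) (t : ℝ) (x y : V d L) :
    HasDerivAt (fun t => hit t x y)
      (if x = y then 0 else Pk (fun v => hit t v y) x - hit t x y) t := by
  have h1 := hasDerivAt_sg (r := fun _ : Dir d => ra d)
    (φ := fun e z => if z = y then z else z + dv e) (f := fun z : V d L => if z = y then (1 : ℝ) else 0)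
    (grF_of_finite (fun _ => ra_nonneg d) _) x t
  have h2 := gen_sg (r := fun _ : Dir d => ra d)
    (φ := fun e z => if z = y then z else z + dv e) (f := fun z : V d L => if z = y then (1 : ℝ) else 0)
    (grF_of_finite (fun _ => ra_nonneg d) _) x t
  rw [← h2, gen_stopped hd] at h1
  exact h1

lemma hit_nonneg {t : ℝ} (ht : 0 ≤ t) (x y : V d L) : 0 ≤ hit t x y :=
  sg_nonneg (fun _ => ra_nonneg d) (Inv := fun _ => True) (fun _ _ _ => trivial)
    (grF_of_finite (fun _ => ra_nonneg d) _) (fun z _ => by split_ifs <;> norm_num) ht trivial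

lemma hit_le_one {t : ℝ} (ht : 0 ≤ t) (x y : V d L) : hit t x y ≤ 1 := by
  have := sg_mono' (r := fun _ : Dir d => ra d)
    (φ := fun e (z : V d L) => if z = y then z else z + dv e) (fun _ => ra_nonneg d)
    (f := fun z => if z = y then (1 : ℝ) else 0) (g := fun _ => 1)
    (grF_of_finite (fun _ => ra_nonneg d) _) (grF_of_finite (fun _ => ra_nonneg d) _)
    (fun z => by split_ifs <;> norm_num) ht x
  rwa [sg_const] at this

lemma hit_self (t : ℝ) (x : V d L) : hit t x x = 1 := by
  unfold hit
  rw [sg_congr (r := fun _ : Dir d => ra d)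
    (φ := fun e (z : V d L) => if z = x then z else z + dv e) (fun _ => ra_nonneg d)
    (Inv := fun z => z = x) (fun i z hz => by simp only [hz, if_true])
    (f := fun z => if z = x then (1 : ℝ) else 0) (g := fun _ => 1)
    (fun z hz => by simp only [hz, if_true]) t rfl, sg_const]

lemma dhit_nonneg (hd : 1 ≤ d) {t : ℝ} (ht : 0 ≤ t) (x y : V d L) :
    0 ≤ (if x = y then 0 else Pk (fun v => hit t v y) x - hit t x y) := by
  have h2 := gen_sg (r := fun _ : Dir d => ra d)
    (φ := fun e z => if z = y then z else z + dv e) (f := fun z : V d L => if z = y then (1 : ℝ) else 0)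
    (grF_of_finite (fun _ => ra_nonneg d) _) x t
  rw [gen_stopped hd] at h2
  have h3 : (if x = y then 0 else Pk (fun v => hit t v y) x - hit t x y) =
      sg (fun _ : Dir d => ra d) (fun e z => if z = y then z else z + dv e) t
        (gen (fun _ : Dir d => ra d) (fun e z => if z = y then z else z + dv e)
          (fun z : V d L => if z = y then (1 : ℝ) else 0)) x := h2
  rw [h3]
  refine sg_nonneg (fun _ => ra_nonneg d) (Inv := fun _ => True) (fun _ _ _ => trivial)
    (grF_of_finite (fun _ => ra_nonneg d) _) (fun z _ => ?_) ht trivial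
  rw [gen_stopped hd]
  split_ifs with h
  · exact le_rfl
  · rw [sub_zero]
    exact Pk_nonneg (fun v => by split_ifs <;> norm_num) z

lemma Pk_hit_le (hd : 1 ≤ d) {t : ℝ} (ht : 0 ≤ t) (x y : V d L) :
    Pk (fun v => hit t v y) x - hit t x y ≤
      (if x = y then 0 else Pk (fun v => hit t v y) x - hit t x y) := by
  split_ifs with h
  · subst h
    rw [hit_self]
    have := Pk_le_one hd (f := fun v => hit t v x) (fun v => hit_le_one ht v x) x
    linarith
  · exact le_rfl

/-! ## The supersolution -/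

/-- the unvisited sites -/
def un (s : FS d L) : Finset (V d L) := Finset.univ.filter fun x => x ∉ s.vis

/-- expected number of sites of `U` that are hit from `v` -/
noncomputable def GG (U : Finset (V d L)) (t : ℝ) (v : V d L) : ℝ := ∑ x ∈ U, hit t v x

/-- sum over the pairs -/
noncomputable def TT (U : Finset (V d L)) (t : ℝ) : ℝ := ∑ x ∈ U, ∑ y ∈ U.erase x, hit t x y

/-- the supersolution -/
noncomputable def WW (t : ℝ) (w : WS d L) : ℝ :=
  ∑ y, w.cnt y * (w.cnt y - 1) + 2 * ∑ y, w.cnt y * GG (un w.toFS) t (w.fl y) +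
    2 * TT (un w.toFS) t

/-- derivative of `hit` -/
noncomputable def dh (t : ℝ) (x y : V d L) : ℝ :=
  if x = y then 0 else Pk (fun v => hit t v y) x - hit t x y

/-- derivative of the supersolution -/
noncomputable def WW' (t : ℝ) (w : WS d L) : ℝ :=
  2 * ∑ y, w.cnt y * ∑ x ∈ un w.toFS, dh t (w.fl y) x +
    2 * ∑ x ∈ un w.toFS, ∑ y ∈ (un w.toFS).erase x, dh t x y

lemma hasDerivAt_WW (hd : 1 ≤ d) (t : ℝ) (w : WS d L) :
    HasDerivAt (fun t => WW t w) (WW' t w) t := by
  unfold WW WW'
  have h1 : HasDerivAt (fun t => ∑ y, w.cnt y * GG (un w.toFS) t (w.fl y))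
      (∑ y, w.cnt y * ∑ x ∈ un w.toFS, dh t (w.fl y) x) t := by
    refine HasDerivAt.fun_sum fun y _ => ?_
    refine HasDerivAt.const_mul _ ?_
    unfold GG
    exact HasDerivAt.fun_sum fun x _ => hasDerivAt_hit hd t _ _
  have h2 : HasDerivAt (fun t => TT (un w.toFS) t)
      (∑ x ∈ un w.toFS, ∑ y ∈ (un w.toFS).erase x, dh t x y) t := by
    unfold TT
    exact HasDerivAt.fun_sum fun x _ => HasDerivAt.fun_sum fun y _ => hasDerivAt_hit hd t _ _
  exact ((h1.const_mul 2).const_add _).add (h2.const_mul 2)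

lemma cnt_nonneg (w : WS d L) (y : V d L) : 0 ≤ w.cnt y := by
  unfold WS.cnt
  positivity

/-- the invariant -/
def Inv (w : WS d L) : Prop :=
  (∀ x, w.who x ≠ none → x ∈ w.vis) ∧ ∀ z, w.fl (w.rep (w.pos z)) = w.pos z

lemma inv_start (s : FS d L) : Inv (WS.start s) :=
  ⟨fun _ h => (h rfl).elim, fun _ => rfl⟩

lemma inv_wup (a : Ar d L × Bool) (w : WS d L) (h : Inv w) : Inv (wup a w) := by
  obtain ⟨h1, h2⟩ := h
  refine ⟨?_, ?_⟩
  · intro x hx
    show x ∈ (fup a w.toFS).vis
    rw [mem_fup_vis]
    by_cases hc : x = a.1.1 + dv a.1.2 ∧ w.oth a.1.1 (a.1.1 + dv a.1.2) ∧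
      a.1.1 + dv a.1.2 ∉ w.vis
    · exact Or.inl ⟨hc.1, hc.2.1⟩
    · right
      refine h1 x ?_
      have e : (wup a w).who x = w.who x := by
        unfold wup
        simp only
        rw [if_neg hc]
      rwa [e] at hx
  · intro z
    have hrep : ∀ v, (wup a w).rep v =
        if v = a.1.1 + dv a.1.2 ∧ ∃ z, w.pos z = a.1.1 then w.rep a.1.1 else w.rep v := fun _ => rfl
    have hfl : ∀ v, (wup a w).fl v = if w.fl v = a.1.1 then a.1.1 + dv a.1.2 else w.fl v :=
      fun _ => rfl
    have hpos : ∀ v, (wup a w).pos v = if w.pos v = a.1.1 then a.1.1 + dv a.1.2 else w.pos v :=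
      fun _ => rfl
    rw [hpos]
    by_cases hz : w.pos z = a.1.1
    · rw [if_pos hz, hrep, if_pos ⟨rfl, z, hz⟩, hfl, if_pos]
      rw [← hz]; exact h2 z
    · rw [if_neg hz, hrep]
      by_cases hc : w.pos z = a.1.1 + dv a.1.2 ∧ ∃ z, w.pos z = a.1.1
      · obtain ⟨z', hz'⟩ := hc.2
        rw [if_pos hc, hfl, if_pos, hc.1]
        rw [← hz']; exact h2 z'
      · rw [if_neg hc, hfl, h2 z, if_neg hz]

lemma mem_un {s : FS d L} {x : V d L} : x ∈ un s ↔ x ∉ s.vis := by
  simp [un]

/-- the key inequality for one transition -/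
lemma WW_wup {t : ℝ} (ht : 0 ≤ t) (a : Ar d L × Bool) (w : WS d L) (h : Inv w) :
    WW t (wup a w) - WW t w ≤ 2 * ∑ y, w.cnt y *
      (if w.fl y = a.1.1 then GG (un w.toFS) t (a.1.1 + dv a.1.2) - GG (un w.toFS) t a.1.1
        else 0) := by
  classical
  have hfl : ∀ v, (wup a w).fl v = if w.fl v = a.1.1 then a.1.1 + dv a.1.2 else w.fl v :=
    fun _ => rfl
  have hG : ∀ (U : Finset (V d L)) (y : V d L), GG U t ((wup a w).fl y) = GG U t (w.fl y) +
      (if w.fl y = a.1.1 then GG U t (a.1.1 + dv a.1.2) - GG U t a.1.1 else 0) := by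
    intro U y
    rw [hfl]
    split_ifs with h1
    · rw [h1]; ring
    · ring
  by_cases hc : w.oth a.1.1 (a.1.1 + dv a.1.2) ∧ a.1.1 + dv a.1.2 ∉ w.vis
  · -- discovery
    obtain ⟨ho, hb⟩ := hc
    set b := a.1.1 + dv a.1.2 with hbdef
    obtain ⟨z0, hz0, hpz0⟩ := ho
    have ho : w.oth a.1.1 b := ⟨z0, hz0, hpz0⟩
    set y0 := w.rep a.1.1 with hy0
    have hfly0 : w.fl y0 = a.1.1 := by
      have := h.2 z0
      rw [hpz0] at this
      exact this
    have hwb : w.who b = none := by
      by_contra hne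
      exact hb (h.1 b hne)
    have hun : un (wup a w).toFS = (un w.toFS).erase b := by
      ext x
      rw [mem_un, Finset.mem_erase, mem_un]
      show x ∉ (fup a w.toFS).vis ↔ _
      rw [mem_fup_vis]
      constructor
      · intro h1
        refine ⟨?_, fun h2 => h1 (Or.inr h2)⟩
        rintro rfl
        exact h1 (Or.inl ⟨rfl, ho⟩)
      · rintro ⟨h1, h2⟩ (h3 | h3)
        · exact h1 h3.1
        · exact h2 h3
    have hwho : ∀ x, (wup a w).who x = if x = b then some y0 else w.who x := by
      intro x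
      show (if x = b ∧ w.oth a.1.1 b ∧ b ∉ w.vis then some (w.rep a.1.1) else w.who x) = _
      by_cases hx : x = b
      · rw [if_pos ⟨hx, ho, hb⟩, if_pos hx]
      · rw [if_neg (fun h => hx h.1), if_neg hx]
    have hcnt : ∀ y, (wup a w).cnt y = w.cnt y + if y = y0 then 1 else 0 := by
      intro y
      unfold WS.cnt
      by_cases hy : y = y0
      · have e : (Finset.univ.filter fun x => (wup a w).who x = some y) =
            insert b (Finset.univ.filter fun x => w.who x = some y) := by
          ext x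
          simp only [Finset.mem_filter, Finset.mem_univ, true_and, Finset.mem_insert, hwho]
          by_cases hx : x = b
          · simp [hx, hy]
          · simp [hx]
        rw [e, Finset.card_insert_of_notMem, if_pos hy]
        · push_cast; ring
        · simp [hwb]
      · have e : (Finset.univ.filter fun x => (wup a w).who x = some y) =
            (Finset.univ.filter fun x => w.who x = some y) := by
          ext x
          simp only [Finset.mem_filter, Finset.mem_univ, true_and, hwho]
          by_cases hx : x = b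
          · rw [if_pos hx, hx, hwb]
            simp only [Option.some.injEq, reduceCtorEq, iff_false]
            exact fun h => hy h.symm
          · rw [if_neg hx]
        rw [e, if_neg hy, add_zero]
    have hbU : b ∈ un w.toFS := mem_un.2 hb
    have hGe : ∀ v, GG ((un w.toFS).erase b) t v = GG (un w.toFS) t v - hit t v b := by
      intro v
      unfold GG
      rw [← Finset.sum_erase_add _ _ hbU]; ring
    -- first term
    have e1 : ∑ y, (wup a w).cnt y * ((wup a w).cnt y - 1) =
        ∑ y, w.cnt y * (w.cnt y - 1) + 2 * w.cnt y0 := by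
      have : ∀ y, (wup a w).cnt y * ((wup a w).cnt y - 1) = w.cnt y * (w.cnt y - 1) +
          if y = y0 then 2 * w.cnt y0 else 0 := by
        intro y
        rw [hcnt]
        split_ifs with hy
        · rw [hy]; ring
        · ring
      rw [Finset.sum_congr rfl fun y _ => this y, Finset.sum_add_distrib]
      congr 1
      rw [Finset.sum_ite_eq' Finset.univ y0, if_pos (Finset.mem_univ _)]
    -- second term
    have e2 : ∑ y, (wup a w).cnt y * GG (un (wup a w).toFS) t ((wup a w).fl y) =
        ∑ y, w.cnt y * GG (un w.toFS) t ((wup a w).fl y) -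
          ∑ y, w.cnt y * hit t ((wup a w).fl y) b + GG ((un w.toFS).erase b) t b := by
      have hy : ∀ y, (wup a w).cnt y * GG (un (wup a w).toFS) t ((wup a w).fl y) =
          w.cnt y * GG (un w.toFS) t ((wup a w).fl y) - w.cnt y * hit t ((wup a w).fl y) b +
            if y = y0 then GG ((un w.toFS).erase b) t b else 0 := by
        intro y
        rw [hun, hcnt, add_mul, ite_mul, one_mul, zero_mul]
        congr 1
        · rw [hGe]; ring
        · split_ifs with h1
          · rw [h1, hfl, if_pos hfly0]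
          · rfl
      rw [Finset.sum_congr rfl fun y _ => hy y, Finset.sum_add_distrib, Finset.sum_sub_distrib]
      congr 1
      rw [Finset.sum_ite_eq' Finset.univ y0, if_pos (Finset.mem_univ _)]
    have e3 : w.cnt y0 ≤ ∑ y, w.cnt y * hit t ((wup a w).fl y) b := by
      have h1 : w.cnt y0 * hit t ((wup a w).fl y0) b = w.cnt y0 := by
        rw [hfl, if_pos hfly0, hit_self, mul_one]
      calc w.cnt y0 = w.cnt y0 * hit t ((wup a w).fl y0) b := h1.symm
        _ ≤ ∑ y, w.cnt y * hit t ((wup a w).fl y) b :=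
          Finset.single_le_sum (f := fun y => w.cnt y * hit t ((wup a w).fl y) b)
            (fun y _ => mul_nonneg (cnt_nonneg w y) (hit_nonneg ht _ _)) (Finset.mem_univ y0)
    -- third term
    have e4 : TT ((un w.toFS).erase b) t + GG ((un w.toFS).erase b) t b ≤ TT (un w.toFS) t := by
      have h1 : TT (un w.toFS) t = ∑ x ∈ (un w.toFS).erase b, ∑ y ∈ (un w.toFS).erase x, hit t x y +
          GG ((un w.toFS).erase b) t b := by
        unfold TT GG
        rw [← Finset.sum_erase_add _ _ hbU]
      rw [h1]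
      refine add_le_add ?_ le_rfl
      unfold TT
      refine Finset.sum_le_sum fun x _ => ?_
      refine Finset.sum_le_sum_of_subset_of_nonneg ?_ fun y _ _ => hit_nonneg ht _ _
      intro y hy
      rw [Finset.mem_erase, Finset.mem_erase] at hy
      exact Finset.mem_erase.2 ⟨hy.1, hy.2.2⟩
    have e5 : ∑ y, w.cnt y * GG (un w.toFS) t ((wup a w).fl y) =
        ∑ y, w.cnt y * GG (un w.toFS) t (w.fl y) + ∑ y, w.cnt y *
      (if w.fl y = a.1.1 then GG (un w.toFS) t b - GG (un w.toFS) t a.1.1 else 0) := by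
      rw [← Finset.sum_add_distrib]
      refine Finset.sum_congr rfl fun y _ => ?_
      rw [hG]; ring
    unfold WW
    rw [e1, e2, e5, hun]
    linarith
  · -- no discovery
    have hun : un (wup a w).toFS = un w.toFS := by
      ext x
      rw [mem_un, mem_un]
      show x ∉ (fup a w.toFS).vis ↔ _
      rw [mem_fup_vis]
      constructor
      · intro h1 h2
        exact h1 (Or.inr h2)
      · rintro h2 (h3 | h3)
        · apply hc
          refine ⟨h3.2, ?_⟩
          rw [← h3.1]; exact h2
        · exact h2 h3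
    have hwho : ∀ x, (wup a w).who x = w.who x := by
      intro x
      show (if x = a.1.1 + dv a.1.2 ∧ w.oth a.1.1 (a.1.1 + dv a.1.2) ∧
        a.1.1 + dv a.1.2 ∉ w.vis then some (w.rep a.1.1) else w.who x) = _
      rw [if_neg (fun h => hc h.2)]
    have hcnt : ∀ y, (wup a w).cnt y = w.cnt y := by
      intro y
      unfold WS.cnt
      simp only [hwho]
    unfold WW
    rw [hun]
    simp only [hcnt]
    have e5 : ∑ y, w.cnt y * GG (un w.toFS) t ((wup a w).fl y) =
        ∑ y, w.cnt y * GG (un w.toFS) t (w.fl y) + ∑ y, w.cnt y *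
      (if w.fl y = a.1.1 then GG (un w.toFS) t (a.1.1 + dv a.1.2) - GG (un w.toFS) t a.1.1
        else 0) := by
      rw [← Finset.sum_add_distrib]
      refine Finset.sum_congr rfl fun y _ => ?_
      rw [hG]; ring
    rw [e5]
    linarith

/-- sums over arrows with coins of quantities which do not depend on the coin -/
lemma sum_coin (ε : ℝ) (g : Ar d L → ℝ) :
    ∑ a : Ar d L × Bool, rc d L ε a * g a.1 = ∑ x, ∑ e : Dir d, ra d * g (x, e) := by
  rw [Fintype.sum_prod_type, Fintype.sum_prod_type]
  refine Finset.sum_congr rfl fun x _ => Finset.sum_congr rfl fun e _ => ?_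
  simp only [Fintype.sum_bool, rc, if_true, Bool.false_eq_true, if_false]
  ring

lemma gen_WW (hd : 1 ≤ d) {ε : ℝ} (h0 : 0 ≤ ε) (h1 : ε ≤ 1) {t : ℝ} (ht : 0 ≤ t) (w : WS d L)
    (h : Inv w) : gen (rc d L ε) wup (WW t) w ≤ WW' t w := by
  classical
  set U := un w.toFS with hU
  have s1 : gen (rc d L ε) wup (WW t) w ≤ ∑ a : Ar d L × Bool, rc d L ε a *
      (2 * ∑ y, w.cnt y * (if w.fl y = a.1.1 then GG U t (a.1.1 + dv a.1.2) - GG U t a.1.1
        else 0)) := by
    unfold gen
    exact Finset.sum_le_sum fun a _ => mul_le_mul_of_nonneg_left (WW_wup ht a w h)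
      (rc_nonneg h0 h1 a)
  have s2 : ∑ a : Ar d L × Bool, rc d L ε a *
      (2 * ∑ y, w.cnt y * (if w.fl y = a.1.1 then GG U t (a.1.1 + dv a.1.2) - GG U t a.1.1
        else 0)) = 2 * ∑ y, w.cnt y * (Pk (GG U t) (w.fl y) - GG U t (w.fl y)) := by
    rw [sum_coin ε (fun a => 2 * ∑ y, w.cnt y *
      (if w.fl y = a.1 then GG U t (a.1 + dv a.2) - GG U t a.1 else 0))]
    simp only [Finset.mul_sum]
    have e1 : ∀ x : V d L, ∑ e : Dir d, ∑ y : V d L, ra d * (2 * (w.cnt y *
        (if w.fl y = x then GG U t (x + dv e) - GG U t x else 0))) =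
        ∑ y : V d L, if w.fl y = x then 2 * (w.cnt y * (Pk (GG U t) x - GG U t x)) else 0 := by
      intro x
      rw [Finset.sum_comm]
      refine Finset.sum_congr rfl fun y _ => ?_
      split_ifs with hy
      · unfold Pk
        have e2 : GG U t x = ∑ e : Dir d, ra d * GG U t x := by
          rw [← Finset.sum_mul, sum_ra hd, one_mul]
        conv_rhs => rw [e2]
        rw [← Finset.sum_sub_distrib, Finset.mul_sum, Finset.mul_sum]
        exact Finset.sum_congr rfl fun e _ => by ring
      · simp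
    rw [Finset.sum_congr rfl fun x _ => e1 x, Finset.sum_comm]
    refine Finset.sum_congr rfl fun y _ => ?_
    rw [Finset.sum_ite_eq Finset.univ (w.fl y), if_pos (Finset.mem_univ _)]
  have s3 : ∀ v : V d L, Pk (GG U t) v - GG U t v ≤ ∑ x ∈ U, dh t v x := by
    intro v
    have e1 : Pk (GG U t) v - GG U t v = ∑ x ∈ U, (Pk (fun u => hit t u x) v - hit t v x) := by
      unfold Pk GG
      rw [Finset.sum_sub_distrib]
      congr 1
      simp only [Finset.mul_sum]
      rw [Finset.sum_comm]
    rw [e1]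
    exact Finset.sum_le_sum fun x _ => Pk_hit_le hd ht v x
  have s4 : 0 ≤ ∑ x ∈ U, ∑ y ∈ U.erase x, dh t x y :=
    Finset.sum_nonneg fun x _ => Finset.sum_nonneg fun y _ => dhit_nonneg hd ht x y
  have s5 : ∑ y, w.cnt y * (Pk (GG U t) (w.fl y) - GG U t (w.fl y)) ≤
      ∑ y, w.cnt y * ∑ x ∈ U, dh t (w.fl y) x :=
    Finset.sum_le_sum fun y _ => mul_le_mul_of_nonneg_left (s3 _) (cnt_nonneg w y)
  rw [s2] at s1
  unfold WW'
  linarith

end Pool.Agent.CAS.WB_

namespace Pool.Agent.CAS

open WB_ in
theorem t_WB' : T_WB := by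
  classical
  intro d L ε t hd h0 h1 ht s
  have hI : ∀ (i : Ar d L × Bool) (w : WS d L), WB_.Inv w → WB_.Inv (wup i w) :=
    fun i w hw => inv_wup i w hw
  have hr : ∀ a, 0 ≤ rc d L ε a := fun a => rc_nonneg h0 h1 a
  have key := sg_le_of_super (r := rc d L ε) (φ := wup) hr (Inv := WB_.Inv) hI
    (f := fun w : WS d L => ∑ y, w.cnt y * (w.cnt y - 1)) (W := WW) (W' := WW') ht
    (fun u _ w _ => hasDerivAt_WW hd u w)
    (fun u hu w hw => gen_WW hd h0 h1 hu.1 w hw)
    (fun w _ => by
      unfold WW
      have e1 : 0 ≤ ∑ y, w.cnt y * GG (un w.toFS) 0 (w.fl y) :=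
        Finset.sum_nonneg fun y _ => mul_nonneg (cnt_nonneg w y)
          (Finset.sum_nonneg fun x _ => hit_nonneg le_rfl _ _)
      have e2 : 0 ≤ TT (un w.toFS) 0 :=
        Finset.sum_nonneg fun x _ => Finset.sum_nonneg fun y _ => hit_nonneg le_rfl _ _
      linarith) (inv_start s)
  have e0 : ∀ y : V d L, (WS.start s).cnt y = 0 := by
    intro y
    unfold WS.cnt WS.start
    simp
  have e1 : WW t (WS.start s) = 2 * ∑ x ∈ Finset.univ.filter (fun x => x ∉ s.vis),
      ∑ y ∈ Finset.univ.filter (fun y => y ∉ s.vis ∧ y ≠ x), hit t x y := by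
    unfold WW TT
    simp only [e0, zero_mul, Finset.sum_const_zero, mul_zero, zero_add]
    congr 1
    refine Finset.sum_congr rfl fun x _ => ?_
    refine Finset.sum_congr ?_ fun _ _ => rfl
    ext y
    simp only [Finset.mem_erase, Finset.mem_filter, Finset.mem_univ, true_and, un]
    show (y ≠ x ∧ y ∉ s.vis) ↔ _
    tauto
  rw [e1] at key
  have e2 : (fun w : WS d L => ∑ y, w.cnt y ^ 2) =
      fun w => ∑ y, w.cnt y * (w.cnt y - 1) + ∑ y, w.cnt y := by
    funext w
    rw [← Finset.sum_add_distrib]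
    exact Finset.sum_congr rfl fun y _ => by ring
  unfold wsg
  rw [e2, sg_add (grF_of_finite hr _) (grF_of_finite hr _)]
  linarith

theorem t_WB (_h : T_HIT) : T_WB := t_WB'

end Pool.Agent.CAS
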