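import Pool.Agent.CAS.WrapA

/-!
# Large tori versus `ℤ^d` for a fixed finite set of particles
-/

open Finset Filter Topology MeasureTheory
open scoped BigOperators

namespace Pool.Agent.CAS
namespace Wrap

variable {d m L : ℕ}

/-- reduction of a site of `ℤ^d` -/
def emb (d L : ℕ) (x : Zd d) : V d L := fun i => ((x i : ℤ) : ZMod (L + 1))

lemma emb_dz (x : Zd d) (e : Dir d) : emb d L (x + dz e) = emb d L x + dv e := by
  funext i
  obtain ⟨k, b⟩ := e
  unfold emb dz dv
  by_cases h : i = k
  · subst h
    cases b <;> simp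
  · simp [Pi.single_eq_of_ne h]

lemma emb_inj {N : ℕ} (hN : 2 * N < L + 1) {x y : Zd d} (hx : ∀ i, |x i| ≤ N) (hy : ∀ i, |y i| ≤ N)
    (h : emb d L x = emb d L y) : x = y := by
  funext i
  have h1 : ((x i : ℤ) : ZMod (L + 1)) = ((y i : ℤ) : ZMod (L + 1)) := congrFun h i
  have h2 := (ZMod.intCast_eq_intCast_iff_dvd_sub _ _ _).1 h1
  have h3 : |y i - x i| < ((L + 1 : ℕ) : ℤ) := by
    have a1 := abs_le.1 (hx i)
    have a2 := abs_le.1 (hy i)
    rw [abs_lt]
    push_cast
    constructor <;> omega
  have h4 := Int.eq_zero_of_abs_lt_dvd h2 h3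
  omega

lemma abs_dz_le (e : Dir d) (i : Fin d) : |(dz e : Zd d) i| ≤ 1 := by
  obtain ⟨k, b⟩ := e
  unfold dz
  by_cases h : i = k
  · subst h
    cases b <;> simp
  · simp [Pi.single_eq_of_ne h]

lemma mem_box {x : Zd d} : x ∈ box d m ↔ ∀ i, |x i| ≤ m := by
  unfold box
  rw [Fintype.mem_piFinset]
  refine forall_congr' fun i => ?_
  rw [Finset.mem_Icc, abs_le]

open Classical in
/-- the observed function -/
noncomputable def obs (d m : ℕ) (typ : Zd d → Bool)
    (ld : (box d m) → Option (box d m)) : ℝ :=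
  if ∃ z : (box d m), (z : Zd d) = 0 ∧ typ z = true ∧ ld z ≠ none then 1 else 0

lemma abs_obs_le (typ : Zd d → Bool) (ld : (box d m) → Option (box d m)) :
    |obs d m typ ld| ≤ 1 := by
  unfold obs
  split_ifs <;> simp

/-- types and braveries of the labels in the box -/
abbrev tb (m : ℕ) (typ : Zd d → Bool) : (box d m) → Bool := fun z => typ z
abbrev bb (m : ℕ) (brv : Zd d → ℝ) : (box d m) → ℝ := fun z => brv z

/-- the particles of the box on the torus -/
noncomputable abbrev phiT (d m L : ℕ) (typ : Zd d → Bool) (brv : Zd d → ℝ) :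
    (box d m) × Dir d → LS (box d m) (V d L) → LS (box d m) (V d L) :=
  ring (tb m typ) (bb m brv) dv

/-- the particles of the box on `ℤ^d` -/
noncomputable abbrev phiZ (d m : ℕ) (typ : Zd d → Bool) (brv : Zd d → ℝ) :
    (box d m) × Dir d → LS (box d m) (Zd d) → LS (box d m) (Zd d) :=
  ring (tb m typ) (bb m brv) dz

lemma Q_eq (typ : Zd d → Bool) (brv : Zd d → ℝ) (k : ℕ) : ∀ (n : ℕ) (s : LS (box d m) (Zd d))
    (s' : LS (box d m) (V d L)), 2 * (n + k) < L + 1 → Uq s → (∀ z i, |s.pos z i| ≤ n) →
    (∀ z, s'.pos z = emb d L (s.pos z)) → s'.ld = s.ld →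
    ((Qop (fun _ : (box d m) × Dir d => ra d) (phiT d m L typ brv))^[k]
      (fun s => obs d m typ s.ld)) s' =
    ((Qop (fun _ : (box d m) × Dir d => ra d) (phiZ d m typ brv))^[k]
      (fun s => obs d m typ s.ld)) s := by
  classical
  induction k with
  | zero =>
    intro n s s' _ _ _ _ h
    simp only [Function.iterate_zero, id_eq]
    rw [h]
  | succ k ih =>
    intro n s s' hn hu hb hp hl
    rw [Function.iterate_succ_apply', Function.iterate_succ_apply']
    unfold Qop at ih ⊢
    refine Finset.sum_congr rfl fun i _ => ?_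
    obtain ⟨z, e⟩ := i
    congr 1
    have hstep : ∀ w i, |(s.pos w + dz e) i| ≤ ((n + 1 : ℕ) : ℤ) := by
      intro w i
      rw [Pi.add_apply]
      refine (abs_add_le _ _).trans ?_
      have := hb w i
      have := abs_dz_le e i
      push_cast
      linarith
    have hb' : ∀ w i, |s.pos w i| ≤ ((n + 1 : ℕ) : ℤ) := by
      intro w i
      have := hb w i
      push_cast
      linarith
    have key := ring_rel (tb m typ) (bb m brv) dz (tb m typ) (bb m brv) dv id
      Function.injective_id (fun _ => rfl) (fun _ => rfl) z e s s' hu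
      (fun v => by rw [Option.map_id, id_eq, id_eq, hl]) (fun v hv => absurd ⟨v, rfl⟩ hv)
      (fun w _ => by
        simp only [id_eq]
        rw [hp w, hp z, ← emb_dz]
        constructor
        · intro h
          exact emb_inj (N := n + 1) (by omega) (hb' w) (hstep z) h
        · intro h
          rw [h])
    refine ih (n + 1) (phiZ d m typ brv (z, e) s) (phiT d m L typ brv (z, e) s') (by omega)
      (ring_uq _ _ _ _ s hu) ?_ ?_ ?_
    · intro w i
      by_cases h0 : tb m typ z = false
      · rw [ring_pos_B _ _ _ _ _ _ h0]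
        exact hb' w i
      · by_cases hw : w = z
        · rw [hw, ring_pos_self _ _ _ _ _ _ h0]
          exact hstep z i
        · rw [ring_pos_ne _ _ _ _ _ _ _ hw]
          exact hb' w i
    · intro w
      by_cases h0 : tb m typ z = false
      · rw [ring_pos_B _ _ _ _ _ _ h0, ring_pos_B _ _ _ _ _ _ h0]
        exact hp w
      · by_cases hw : w = z
        · rw [hw, ring_pos_self _ _ _ _ _ _ h0, ring_pos_self _ _ _ _ _ _ h0, hp z, emb_dz]
        · rw [ring_pos_ne _ _ _ _ _ _ _ hw, ring_pos_ne _ _ _ _ _ _ _ hw]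
          exact hp w
    · funext v
      have := key.1 v
      simp only [id_eq, Option.map_id] at this
      exact this.symm

lemma uq_init {ι G : Type} [AddCommGroup G] (start : ι → G) (h : Function.Injective start)
    (J : ι → Prop) : Uq (LS.init start J) := by
  intro w w' _ _ hw
  exact h hw

/-- the process on the torus in terms of the labels of the box -/
noncomputable def tor2 (d m L : ℕ) (typ : Zd d → Bool) (brv : Zd d → ℝ) (t : ℝ) : ℝ :=
  sg (fun _ : (box d m) × Dir d => ra d) (phiT d m L typ brv) t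
    (fun s => obs d m typ s.ld) (LS.init (fun z => emb d L z) fun _ => True)

/-- convergence of semigroups from eventual equality of all the terms of the series -/
theorem tendsto_sg {I : Type} [Fintype I] {r : I → ℝ} (hr : ∀ i, 0 ≤ r i) {S : ℕ → Type} {S' : Type}
    (φ : ∀ L, I → S L → S L) (ψ : I → S' → S') (f : ∀ L, S L → ℝ) (g : S' → ℝ) (s : ∀ L, S L)
    (s' : S') (hf : ∀ L u, |f L u| ≤ 1)
    (h : ∀ k, ∀ᶠ L in atTop, ((Qop r (φ L))^[k] (f L)) (s L) = ((Qop r ψ)^[k] g) s') (t : ℝ) :
    Tendsto (fun L => sg r (φ L) t (f L) (s L)) atTop (𝓝 (sg r ψ t g s')) := by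
  have hbd : ∀ (L k : ℕ), |((Qop r (φ L))^[k] (f L)) (s L)| ≤ 1 * tr r ^ k := fun L k =>
    Qop_bound hr (hf L) k _
  unfold sg
  refine Tendsto.const_mul _ ?_
  refine tendsto_tsum_of_dominated_convergence
    (bound := fun k : ℕ => (|t| * tr r) ^ k / (k.factorial : ℝ)) ?_ ?_ ?_
  · exact Real.summable_pow_div_factorial _
  · intro k
    refine Tendsto.const_mul _ ?_
    refine tendsto_const_nhds.congr' ?_
    filter_upwards [h k] with L hL
    exact hL.symm
  · refine Eventually.of_forall fun L k => ?_
    rw [Real.norm_eq_abs, abs_mul, abs_div, abs_pow, Nat.abs_cast, mul_pow]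
    have h := hbd L k
    rw [one_mul] at h
    calc |t| ^ k / (k.factorial : ℝ) * _ ≤ |t| ^ k / (k.factorial : ℝ) * tr r ^ k :=
          mul_le_mul_of_nonneg_left h (by positivity)
      _ = _ := by ring

/-- initial states -/
noncomputable def iT (d m L : ℕ) : LS (box d m) (V d L) := LS.init (fun z => emb d L z) fun _ => True
noncomputable def iZ (d m : ℕ) : LS (box d m) (Zd d) := LS.init (fun z => (z : Zd d)) fun _ => True

lemma Q_eq' (typ : Zd d → Bool) (brv : Zd d → ℝ) (k : ℕ) : ∀ᶠ L : ℕ in atTop,
    ((Qop (fun _ : (box d m) × Dir d => ra d) (phiT d m L typ brv))^[k]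
      (fun s => obs d m typ s.ld)) (iT d m L) =
    ((Qop (fun _ : (box d m) × Dir d => ra d) (phiZ d m typ brv))^[k]
      (fun s => obs d m typ s.ld)) (iZ d m) := by
  filter_upwards [eventually_ge_atTop (2 * (m + k))] with L hL
  exact Q_eq typ brv k m (iZ d m) (iT d m L) (by omega)
    (uq_init _ Subtype.val_injective _) (fun z i => mem_box.1 z.2 i)
    (fun z => rfl) rfl

lemma boxAlive_eq (d m : ℕ) (typ : Zd d → Bool) (brv : Zd d → ℝ) (t : ℝ) :
    boxAlive d m typ brv t = sg (fun _ : (box d m) × Dir d => ra d) (phiZ d m typ brv) t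
      (fun s => obs d m typ s.ld) (iZ d m) := by
  unfold boxAlive
  rfl

lemma tor2_eq (d m L : ℕ) (typ : Zd d → Bool) (brv : Zd d → ℝ) (t : ℝ) :
    tor2 d m L typ brv t = sg (fun _ : (box d m) × Dir d => ra d) (phiT d m L typ brv) t
      (fun s => obs d m typ s.ld) (iT d m L) := by
  unfold tor2
  rfl

theorem tendsto_tor2 (d m : ℕ) (typ : Zd d → Bool) (brv : Zd d → ℝ) (t : ℝ) :
    Tendsto (fun L : ℕ => tor2 d m L typ brv t) atTop (𝓝 (boxAlive d m typ brv t)) := by
  rw [boxAlive_eq]
  have h := tendsto_sg (r := fun _ : (box d m) × Dir d => ra d) (fun _ => ra_nonneg d)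
    (S := fun L => LS (box d m) (V d L)) (fun L => phiT d m L typ brv) (phiZ d m typ brv)
    (fun L s => obs d m typ s.ld) (fun s => obs d m typ s.ld) (fun L => iT d m L) (iZ d m)
    (fun L u => abs_obs_le typ u.ld) (fun k => Q_eq' typ brv k) t
  exact h.congr fun L => (tor2_eq d m L typ brv t).symm

/-! ## Lumping on the torus -/

lemma lift_emb {z : Zd d} (hL : 2 * m < L + 1) (hz : z ∈ box d m) : lift (emb d L z) = z := by
  funext i
  unfold lift emb
  rw [ZMod.valMinAbs_spec]
  refine ⟨rfl, ?_⟩
  have := abs_le.1 (mem_box.1 hz i)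
  rw [Set.mem_Ioc]
  push_cast
  constructor <;> omega

lemma emb_lift (v : V d L) : emb d L (lift v) = v := by
  funext i
  unfold lift emb
  exact ZMod.coe_valMinAbs _

/-- the embedding of the labels -/
def jj (d m L : ℕ) (z : (box d m)) : V d L := emb d L z

lemma jj_inj (hL : 2 * m < L + 1) : Function.Injective (jj d m L) := by
  intro z w h
  have := congrArg lift h
  unfold jj at this
  rw [lift_emb hL z.2, lift_emb hL w.2] at this
  exact Subtype.ext this

lemma mem_range_jj (hL : 2 * m < L + 1) (v : V d L) : v ∈ Set.range (jj d m L) ↔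
    lift v ∈ box d m := by
  constructor
  · rintro ⟨z, rfl⟩
    unfold jj
    rw [lift_emb hL z.2]
    exact z.2
  · intro h
    exact ⟨⟨lift v, h⟩, emb_lift v⟩

open Classical in
/-- inverse of the embedding on options -/
noncomputable def back (d m L : ℕ) (o : Option (V d L)) : Option (box d m) :=
  o.bind fun a => if h : lift a ∈ box d m then some ⟨lift a, h⟩ else none

lemma back_map (hL : 2 * m < L + 1) (o : Option (box d m)) :
    back d m L (o.map (jj d m L)) = o := by
  cases o with
  | none => rfl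
  | some z =>
    unfold back jj
    simp only [Option.map_some, Option.bind_some]
    have h : lift (emb d L (z : Zd d)) = z := lift_emb hL z.2
    rw [dif_pos (by rw [h]; exact z.2)]
    congr 1
    exact Subtype.ext h

lemma map_back (hL : 2 * m < L + 1) (o : Option (V d L))
    (h : ∀ a, o = some a → a ∈ Set.range (jj d m L)) : (back d m L o).map (jj d m L) = o := by
  cases o with
  | none => rfl
  | some a =>
    obtain ⟨z, rfl⟩ := h a rfl
    have := back_map hL (some z)
    rw [Option.map_some] at this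
    rw [this]; rfl

/-- forget the absent labels -/
noncomputable def pj (d m L : ℕ) (s : LS (V d L) (V d L)) : LS (box d m) (V d L) :=
  ⟨fun z => s.pos (jj d m L z), fun z => back d m L (s.ld (jj d m L z))⟩

/-- the invariant -/
def Iv (d m L : ℕ) (s : LS (V d L) (V d L)) : Prop :=
  Uq s ∧ (∀ v, v ∉ Set.range (jj d m L) → s.ld v = none) ∧
    ∀ v a, s.ld v = some a → a ∈ Set.range (jj d m L)

open Classical in
lemma ring_ld_absent {ι G E : Type} [AddCommGroup G] (typ : ι → Bool) (brv : ι → ℝ) (step : E → G)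
    (a : ι × E) (s : LS ι G) (h : s.ld a.1 = none) : (ring typ brv step a s).ld = s.ld := by
  unfold ring
  have h' : s.ld a.1 ≠ some a.1 := by rw [h]; simp
  by_cases h0 : typ a.1 = false
  · rw [if_pos h0]
  · rw [if_neg h0, if_pos h']

theorem torAlive_eq (hL : 2 * m < L + 1) (typ : Zd d → Bool) (brv : Zd d → ℝ) {t : ℝ}
    (ht : 0 ≤ t) : torAlive d m L typ brv t = tor2 d m L typ brv t := by
  classical
  set tv : V d L → Bool := fun v => typ (lift v) with htv
  set bv : V d L → ℝ := fun v => brv (lift v) with hbv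
  have hj := jj_inj (d := d) hL
  have hr : ∀ i : V d L × Dir d, 0 ≤ (fun _ : V d L × Dir d => ra d) i := fun _ => ra_nonneg d
  have hr' : ∀ i : (box d m) × Dir d, 0 ≤ (fun _ : (box d m) × Dir d => ra d) i :=
    fun _ => ra_nonneg d
  have htt : ∀ z : (box d m), tb m typ z = tv (jj d m L z) := by
    intro z
    simp only [htv, jj]
    rw [lift_emb hL z.2]
  have hbb : ∀ z : (box d m), bb m brv z = bv (jj d m L z) := by
    intro z
    simp only [hbv, jj]
    rw [lift_emb hL z.2]
  -- one ring of a present label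
  have hone : ∀ (z : (box d m)) (e : Dir d) (s : LS (V d L) (V d L)), Iv d m L s →
      (∀ v, (ring tv bv dv (jj d m L z, e) s).ld (jj d m L v) =
        ((phiT d m L typ brv (z, e) (pj d m L s)).ld v).map (jj d m L)) ∧
      (∀ v, v ∉ Set.range (jj d m L) → (ring tv bv dv (jj d m L z, e) s).ld v = none) := by
    intro z e s hs
    refine ring_rel tv bv dv (tb m typ) (bb m brv) dv (jj d m L) hj htt hbb z e s (pj d m L s)
      hs.1 ?_ hs.2.1 ?_
    · intro v
      exact (map_back hL _ (hs.2.2 _)).symm
    · intro w _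
      exact Iff.rfl
  -- the invariant
  have hI : ∀ (i : V d L × Dir d) (s : LS (V d L) (V d L)), Iv d m L s →
      Iv d m L (ring tv bv dv i s) := by
    rintro ⟨v, e⟩ s hs
    by_cases hv : v ∈ Set.range (jj d m L)
    · obtain ⟨z, rfl⟩ := hv
      obtain ⟨h1, h2⟩ := hone z e s hs
      refine ⟨ring_uq _ _ _ _ s hs.1, h2, fun u a hu => ?_⟩
      by_cases hu' : u ∈ Set.range (jj d m L)
      · obtain ⟨w, rfl⟩ := hu'
        rw [h1 w, Option.map_eq_some_iff] at hu
        obtain ⟨b, _, hb⟩ := hu
        exact ⟨b, hb⟩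
      · rw [h2 u hu'] at hu
        exact absurd hu (by simp)
    · have := ring_ld_absent tv bv dv (v, e) s (hs.2.1 v hv)
      refine ⟨ring_uq _ _ _ _ s hs.1, fun u hu => ?_, fun u a hu => ?_⟩
      · rw [this]; exact hs.2.1 u hu
      · rw [this] at hu; exact hs.2.2 u a hu
  have hp1 : ∀ (z : (box d m)) (e : Dir d) (s : LS (V d L) (V d L)), Iv d m L s →
      pj d m L (ring tv bv dv (jj d m L z, e) s) = phiT d m L typ brv (z, e) (pj d m L s) := by
    intro z e s hs
    have h1 := (hone z e s hs).1
    have eP : (pj d m L (ring tv bv dv (jj d m L z, e) s)).pos =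
        (phiT d m L typ brv (z, e) (pj d m L s)).pos := by
      funext w
      show (ring tv bv dv (jj d m L z, e) s).pos (jj d m L w) = _
      by_cases h0 : tb m typ z = false
      · have h0' : tv (jj d m L z) = false := by rw [← htt z]; exact h0
        rw [ring_pos_B _ _ _ _ _ _ h0, ring_pos_B _ _ _ _ _ _ h0']
        rfl
      · have h0' : tv (jj d m L z) ≠ false := by rw [← htt z]; exact h0
        by_cases hw : w = z
        · rw [hw, ring_pos_self _ _ _ _ _ _ h0, ring_pos_self _ _ _ _ _ _ h0']
          rfl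
        · rw [ring_pos_ne _ _ _ _ _ _ _ hw, ring_pos_ne _ _ _ _ _ _ _ (fun h => hw (hj h))]
          rfl
    have eL : (pj d m L (ring tv bv dv (jj d m L z, e) s)).ld =
        (phiT d m L typ brv (z, e) (pj d m L s)).ld := by
      funext w
      show back d m L ((ring tv bv dv (jj d m L z, e) s).ld (jj d m L w)) = _
      rw [h1 w, back_map hL]
    cases h : pj d m L (ring tv bv dv (jj d m L z, e) s) with
    | mk a b =>
      cases h' : phiT d m L typ brv (z, e) (pj d m L s) with
      | mk a' b' =>
        rw [h, h'] at eP eL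
        simp only at eP eL
        rw [eP, eL]
  have hp2 : ∀ (v : V d L) (e : Dir d) (s : LS (V d L) (V d L)), Iv d m L s →
      v ∉ Set.range (jj d m L) → pj d m L (ring tv bv dv (v, e) s) = pj d m L s := by
    intro v e s hs hv
    have h1 := ring_ld_absent tv bv dv (v, e) s (hs.2.1 v hv)
    unfold pj
    rw [h1]
    congr 1
    funext w
    exact ring_pos_ne _ _ _ _ _ _ _ (fun h => hv ⟨w, h⟩)
  have hgen : ∀ (f : LS (box d m) (V d L) → ℝ) (s : LS (V d L) (V d L)), Iv d m L s →
      gen (fun _ : V d L × Dir d => ra d) (ring tv bv dv) (fun s => f (pj d m L s)) s =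
      gen (fun _ : (box d m) × Dir d => ra d) (phiT d m L typ brv) f (pj d m L s) := by
    intro f s hs
    unfold gen
    symm
    refine Fintype.sum_of_injective (fun q : (box d m) × Dir d => (jj d m L q.1, q.2)) ?_ _ _ ?_ ?_
    · rintro ⟨z, e⟩ ⟨z', e'⟩ h
      simp only [Prod.mk.injEq] at h
      rw [hj h.1, h.2]
    · rintro ⟨v, e⟩ hv
      have hv' : v ∉ Set.range (jj d m L) := by
        rintro ⟨z, rfl⟩
        exact hv ⟨(z, e), rfl⟩
      show ra d * (f (pj d m L (ring tv bv dv (v, e) s)) - f (pj d m L s)) = 0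
      rw [hp2 v e s hs hv', sub_self, mul_zero]
    · rintro ⟨z, e⟩
      show ra d * (f (phiT d m L typ brv (z, e) (pj d m L s)) - f (pj d m L s)) =
        ra d * (f (pj d m L (ring tv bv dv (jj d m L z, e) s)) - f (pj d m L s))
      rw [hp1 z e s hs]
  have hinit : Iv d m L (LS.init id fun v => lift v ∈ box d m) := by
    refine ⟨uq_init _ Function.injective_id _, fun v hv => ?_, fun v a hva => ?_⟩
    · unfold LS.init
      simp only []
      rw [if_neg (fun h => hv ((mem_range_jj hL v).2 h))]
    · unfold LS.init at hva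
      simp only [] at hva
      split_ifs at hva with h
      rw [← Option.some.inj hva]
      exact (mem_range_jj hL v).2 h
  have hpinit : pj d m L (LS.init id fun v => lift v ∈ box d m) =
      LS.init (fun z : (box d m) => emb d L z) fun _ => True := by
    unfold pj LS.init
    simp only []
    congr 1
    funext z
    rw [if_pos ((mem_range_jj hL _).1 ⟨z, rfl⟩), if_pos trivial]
    exact back_map hL (some z)
  unfold torAlive tor2
  have e1 : sg (fun _ : V d L × Dir d => ra d) (ring tv bv dv) t
      (fun s => if typ 0 = true ∧ s.ld 0 ≠ none then 1 else 0)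
      (LS.init id fun v => lift v ∈ box d m) =
      sg (fun _ : V d L × Dir d => ra d) (ring tv bv dv) t
      (fun s => obs d m typ (pj d m L s).ld) (LS.init id fun v => lift v ∈ box d m) := by
    refine sg_congr hr hI (fun s hs => ?_) t hinit
    have h0 : (0 : Zd d) ∈ box d m := mem_box.2 fun i => by simp
    have h1 : jj d m L ⟨0, h0⟩ = 0 := by
      funext i
      simp [jj, emb]
    have h2 : s.ld 0 = ((pj d m L s).ld ⟨0, h0⟩).map (jj d m L) := by
      have := (map_back hL (s.ld (jj d m L ⟨0, h0⟩)) (hs.2.2 _)).symm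
      rw [h1] at this
      rw [this]
      show _ = (back d m L (s.ld (jj d m L ⟨0, h0⟩))).map (jj d m L)
      rw [h1]
    unfold obs
    have h3 : (typ 0 = true ∧ s.ld 0 ≠ none) ↔
        ∃ z : (box d m), (z : Zd d) = 0 ∧ typ z = true ∧ (pj d m L s).ld z ≠ none := by
      rw [h2, Ne, Option.map_eq_none_iff]
      constructor
      · rintro ⟨a, b⟩
        exact ⟨⟨0, h0⟩, rfl, a, b⟩
      · rintro ⟨z, a, b, c⟩
        have : z = ⟨0, h0⟩ := Subtype.ext a
        subst this
        exact ⟨b, c⟩
    by_cases h4 : typ 0 = true ∧ s.ld 0 ≠ none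
    · rw [if_pos h4, if_pos (h3.1 h4)]
    · rw [if_neg h4, if_neg (fun h => h4 (h3.2 h))]
  have e2 := sg_lump (r := fun _ : V d L × Dir d => ra d) (r' := fun _ : (box d m) × Dir d => ra d)
    (φ := ring tv bv dv) (ψ := phiT d m L typ brv) hr hr' (Inv := Iv d m L) hI (pj d m L) hgen ht
    (fun s => obs d m typ s.ld) hinit
  rw [hpinit] at e2
  exact e1.trans e2

end Wrap

/-- for a fixed box of particles large tori and `ℤ^d` give the same result -/
theorem t_WRAP : T_WRAP := by
  intro d m typ brv t _ ht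
  refine (Wrap.tendsto_tor2 d m typ brv t).congr' ?_
  filter_upwards [eventually_ge_atTop (2 * m)] with L hL
  exact (Wrap.torAlive_eq (by omega) typ brv ht).symm

end Pool.Agent.CAS
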