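import Pool.Agent.CAS.Basic

/-!
# Large tori versus `ℤ^d`: one ring in two related systems
-/

open Finset Filter Topology MeasureTheory
open scoped BigOperators

namespace Pool.Agent.CAS
namespace Wrap

variable {ι ι' G G' E : Type} [AddCommGroup G] [AddCommGroup G']

open Classical in
lemma ring_pos (typ : ι → Bool) (brv : ι → ℝ) (step : E → G) (a : ι × E) (s : LS ι G) :
    (ring typ brv step a s).pos = if typ a.1 = false then s.pos else
      Function.update s.pos a.1 (s.pos a.1 + step a.2) := by
  unfold ring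
  split_ifs <;> rfl

lemma ring_pos_B (typ : ι → Bool) (brv : ι → ℝ) (step : E → G) (z : ι) (e : E) (s : LS ι G)
    (h : typ z = false) : (ring typ brv step (z, e) s).pos = s.pos := by
  rw [ring_pos, if_pos h]

lemma ring_pos_self (typ : ι → Bool) (brv : ι → ℝ) (step : E → G) (z : ι) (e : E) (s : LS ι G)
    (h : typ z ≠ false) : (ring typ brv step (z, e) s).pos z = s.pos z + step e := by
  classical
  rw [ring_pos, if_neg h, Function.update_self]

lemma ring_pos_ne (typ : ι → Bool) (brv : ι → ℝ) (step : E → G) (z : ι) (e : E) (s : LS ι G)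
    (w : ι) (h : w ≠ z) : (ring typ brv step (z, e) s).pos w = s.pos w := by
  classical
  rw [ring_pos]
  split_ifs
  · rfl
  · rw [Function.update_of_ne h]

/-- the leaders are at different positions -/
def Uq (s : LS ι G) : Prop :=
  ∀ w w', s.ld w = some w → s.ld w' = some w' → s.pos w = s.pos w' → w = w'

open Classical in
theorem ring_rel (typ : ι → Bool) (brv : ι → ℝ) (step : E → G) (typ' : ι' → Bool) (brv' : ι' → ℝ)
    (step' : E → G') (j : ι' → ι) (hj : Function.Injective j) (ht : ∀ z, typ' z = typ (j z))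
    (hb : ∀ z, brv' z = brv (j z)) (z : ι') (e : E) (s : LS ι G) (s' : LS ι' G')
    (hu : Uq s) (hl : ∀ v, s.ld (j v) = (s'.ld v).map j)
    (ho : ∀ v, v ∉ Set.range j → s.ld v = none)
    (hp : ∀ w, s'.ld w = some w →
      (s'.pos w = s'.pos z + step' e ↔ s.pos (j w) = s.pos (j z) + step e)) :
    (∀ v, (ring typ brv step (j z, e) s).ld (j v) =
      ((ring typ' brv' step' (z, e) s').ld v).map j) ∧
    (∀ v, v ∉ Set.range j → (ring typ brv step (j z, e) s).ld v = none) := by
  have hE : ∀ v w, s.ld (j v) = some (j w) ↔ s'.ld v = some w := by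
    intro v w
    rw [hl v]
    constructor
    · intro h
      rw [Option.map_eq_some_iff] at h
      obtain ⟨a, ha, hab⟩ := h
      rw [ha, hj hab]
    · intro h
      rw [h]; rfl
  have hR : ∀ v, s.ld v = some v → ∃ v', j v' = v := by
    intro v hv
    by_contra h
    have := ho v (fun ⟨v', hv'⟩ => h ⟨v', hv'⟩)
    rw [this] at hv
    exact absurd hv (by simp)
  unfold ring
  simp only []
  rw [← ht z]
  by_cases h0 : typ' z = false
  · rw [if_pos h0, if_pos h0]
    exact ⟨hl, ho⟩
  rw [if_neg h0, if_neg h0]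
  by_cases h1 : s'.ld z ≠ some z
  · have h1' : s.ld (j z) ≠ some (j z) := fun h => h1 ((hE z z).1 h)
    rw [if_pos h1, if_pos h1']
    exact ⟨hl, ho⟩
  have h1' : ¬ s.ld (j z) ≠ some (j z) := fun h => h (by
    rw [hE]; exact not_not.1 h1)
  rw [if_neg h1, if_neg h1']
  rw [not_not] at h1 h1'
  have hA : (∃ w, typ w = false ∧ s.ld w = some w ∧ s.pos w = s.pos (j z) + step e) ↔
      ∃ w, typ' w = false ∧ s'.ld w = some w ∧ s'.pos w = s'.pos z + step' e := by
    constructor
    · rintro ⟨w, a, b, c⟩
      obtain ⟨w', rfl⟩ := hR w b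
      have b' := (hE w' w').1 b
      exact ⟨w', by rw [ht]; exact a, b', (hp w' b').2 c⟩
    · rintro ⟨w, a, b, c⟩
      exact ⟨j w, by rw [← ht]; exact a, (hE w w).2 b, (hp w b).1 c⟩
  by_cases h2 : ∃ w, typ' w = false ∧ s'.ld w = some w ∧ s'.pos w = s'.pos z + step' e
  · rw [if_pos h2, if_pos (hA.2 h2)]
    refine ⟨fun v => ?_, fun v hv => ?_⟩
    · have e1 : (s.ld (j v) = some (j z) ∨ (typ (j v) = false ∧ s.ld (j v) = some (j v) ∧
          s.pos (j v) = s.pos (j z) + step e)) ↔ (s'.ld v = some z ∨ (typ' v = false ∧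
          s'.ld v = some v ∧ s'.pos v = s'.pos z + step' e)) := by
        rw [hE, hE, ← ht]
        constructor
        · rintro (a | ⟨a, b, c⟩)
          · exact Or.inl a
          · exact Or.inr ⟨a, b, (hp v b).2 c⟩
        · rintro (a | ⟨a, b, c⟩)
          · exact Or.inl a
          · exact Or.inr ⟨a, b, (hp v b).1 c⟩
      simp only []
      by_cases h3 : s'.ld v = some z ∨ (typ' v = false ∧
          s'.ld v = some v ∧ s'.pos v = s'.pos z + step' e)
      · rw [if_pos h3, if_pos (e1.2 h3)]; rfl
      · rw [if_neg h3, if_neg (fun h => h3 (e1.1 h))]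
        exact hl v
    · simp only []
      split_ifs with h3
      · rfl
      · exact ho v hv
  rw [if_neg h2, if_neg (fun h => h2 (hA.1 h))]
  have hB : (∃ w, w ≠ j z ∧ s.ld w = some w ∧ s.pos w = s.pos (j z) + step e) ↔
      ∃ w, w ≠ z ∧ s'.ld w = some w ∧ s'.pos w = s'.pos z + step' e := by
    constructor
    · rintro ⟨w, a, b, c⟩
      obtain ⟨w', rfl⟩ := hR w b
      have b' := (hE w' w').1 b
      exact ⟨w', fun h => a (by rw [h]), b', (hp w' b').2 c⟩
    · rintro ⟨w, a, b, c⟩
      exact ⟨j w, fun h => a (hj h), (hE w w).2 b, (hp w b).1 c⟩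
  by_cases h3 : ∃ w, w ≠ z ∧ s'.ld w = some w ∧ s'.pos w = s'.pos z + step' e
  · have h3' := hB.2 h3
    rw [dif_pos h3, dif_pos h3']
    have hc : h3'.choose = j h3.choose := by
      have c1 := h3'.choose_spec
      have c2 := h3.choose_spec
      refine hu _ _ c1.2.1 ((hE _ _).2 c2.2.1) ?_
      rw [c1.2.2, (hp _ c2.2.1).1 c2.2.2]
    refine ⟨fun v => ?_, fun v hv => ?_⟩
    · simp only []
      rw [hc]
      have e4 : (s.ld (j v) = some (j z) ∨ s.ld (j v) = some (j h3.choose)) ↔
          (s'.ld v = some z ∨ s'.ld v = some h3.choose) := by rw [hE, hE]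
      have e5 : (brv (j h3.choose) < brv (j z)) ↔ (brv' h3.choose < brv' z) := by rw [hb, hb]
      by_cases h4 : s'.ld v = some z ∨ s'.ld v = some h3.choose
      · rw [if_pos h4, if_pos (e4.2 h4)]
        by_cases h5 : brv' h3.choose < brv' z
        · rw [if_pos h5, if_pos (e5.2 h5)]; rfl
        · rw [if_neg h5, if_neg (fun h => h5 (e5.1 h))]; rfl
      · rw [if_neg h4, if_neg (fun h => h4 (e4.1 h))]
        exact hl v
    · simp only []
      have := ho v hv
      rw [this]
      simp
  · have h3' : ¬ ∃ w, w ≠ j z ∧ s.ld w = some w ∧ s.pos w = s.pos (j z) + step e :=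
      fun h => h3 (hB.1 h)
    rw [dif_neg h3, dif_neg h3']
    exact ⟨hl, ho⟩

open Classical in
/-- the leaders stay at different positions -/
theorem ring_uq (typ : ι → Bool) (brv : ι → ℝ) (step : E → G) (a : ι × E) (s : LS ι G)
    (hu : Uq s) : Uq (ring typ brv step a s) := by
  obtain ⟨z, e⟩ := a
  have hP := ring_pos typ brv step (z, e) s
  intro w w' hw hw' hww
  rw [hP] at hww
  simp only at hww
  revert hw hw'
  unfold ring
  simp only []
  by_cases h0 : typ z = false
  · rw [if_pos h0]
    rw [if_pos h0] at hww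
    exact fun hw hw' => hu w w' hw hw' hww
  rw [if_neg h0]
  rw [if_neg h0] at hww
  by_cases h1 : s.ld z ≠ some z
  · rw [if_pos h1]
    intro hw hw'
    simp only [] at hw hw'
    have n1 : w ≠ z := fun h => h1 (h ▸ hw)
    have n2 : w' ≠ z := fun h => h1 (h ▸ hw')
    rw [Function.update_of_ne n1, Function.update_of_ne n2] at hww
    exact hu w w' hw hw' hww
  rw [if_neg h1]
  rw [not_not] at h1
  by_cases h2 : ∃ w, typ w = false ∧ s.ld w = some w ∧ s.pos w = s.pos z + step e
  · rw [if_pos h2]
    intro hw hw'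
    simp only [] at hw hw'
    have key : ∀ u, (if s.ld u = some z ∨ (typ u = false ∧ s.ld u = some u ∧
        s.pos u = s.pos z + step e) then none else s.ld u) = some u → s.ld u = some u ∧ u ≠ z := by
      intro u hu'
      split_ifs at hu' with h3
      refine ⟨hu', fun h => h3 (Or.inl ?_)⟩
      rw [h]; exact h1
    obtain ⟨a1, n1⟩ := key w hw
    obtain ⟨a2, n2⟩ := key w' hw'
    rw [Function.update_of_ne n1, Function.update_of_ne n2] at hww
    exact hu w w' a1 a2 hww
  rw [if_neg h2]
  by_cases h3 : ∃ w, w ≠ z ∧ s.ld w = some w ∧ s.pos w = s.pos z + step e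
  · rw [dif_pos h3]
    intro hw hw'
    simp only [] at hw hw'
    obtain ⟨c0, c1, c2⟩ := h3.choose_spec
    generalize h3.choose = x at hw hw' c0 c1 c2
    -- the position of a leader after the ring
    have key : ∀ u, (if s.ld u = some z ∨ s.ld u = some x then
        some (if brv x < brv z then z else x) else s.ld u) = some u →
        (u = (if brv x < brv z then z else x) ∧ Function.update s.pos z (s.pos z + step e) u =
          s.pos x) ∨ (s.ld u = some u ∧ u ≠ z ∧ u ≠ x) := by
      intro u hu'
      split_ifs at hu' with h4 h5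
      · left
        have : z = u := Option.some.inj hu'
        subst this
        rw [if_pos h5, Function.update_self, c2]
        exact ⟨rfl, rfl⟩
      · left
        have : x = u := Option.some.inj hu'
        subst this
        rw [if_neg h5, Function.update_of_ne c0]
        exact ⟨rfl, rfl⟩
      · right
        refine ⟨hu', fun h => h4 (Or.inl ?_), fun h => h4 (Or.inr ?_)⟩
        · rw [h]; exact h1
        · rw [h]; exact c1
    rcases key w hw with ⟨a1, b1⟩ | ⟨a1, b1, b1'⟩ <;> rcases key w' hw' with ⟨a2, b2⟩ | ⟨a2, b2, b2'⟩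
    · rw [a1, a2]
    · rw [b1, Function.update_of_ne b2] at hww
      exact absurd (hu x w' c1 a2 hww).symm b2'
    · rw [b2, Function.update_of_ne b1] at hww
      exact absurd (hu w x a1 c1 hww) b1'
    · rw [Function.update_of_ne b1, Function.update_of_ne b2] at hww
      exact hu w w' a1 a2 hww
  · rw [dif_neg h3]
    intro hw hw'
    simp only [] at hw hw'
    by_cases n1 : w = z <;> by_cases n2 : w' = z
    · rw [n1, n2]
    · subst n1
      rw [Function.update_self, Function.update_of_ne n2] at hww
      exact absurd ⟨w', n2, hw', hww.symm⟩ h3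
    · subst n2
      rw [Function.update_self, Function.update_of_ne n1] at hww
      exact absurd ⟨w, n1, hw, hww⟩ h3
    · rw [Function.update_of_ne n1, Function.update_of_ne n2] at hww
      exact hu w w' hw hw' hww

end Wrap
end Pool.Agent.CAS
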